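import Pool.Agent.Lib.MP_329b4d_pr.SpecA

/-!
# MP_329b4d_pr: independence for finite Bernoulli sets
-/

namespace MP329

open Finset

namespace A2Indep

variable {ι : Type} [Fintype ι] [DecidableEq ι]

lemma sum_split (A : Finset ι) (F : Finset ι → Finset ι → ℝ) :
    ∑ S : Finset ι, F (S ∩ A) (S \ A) = ∑ B ∈ A.powerset, ∑ C ∈ (Aᶜ).powerset, F B C := by
  rw [← Finset.sum_product']
  refine Finset.sum_bij' (fun S _ => (S ∩ A, S \ A)) (fun P _ => P.1 ∪ P.2) ?_ ?_ ?_ ?_ ?_
  · intro S _
    rw [mem_product, mem_powerset, mem_powerset]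
    refine ⟨inter_subset_right, fun x hx => ?_⟩
    rw [mem_sdiff] at hx
    rw [mem_compl]
    exact hx.2
  · intro P _
    exact mem_univ _
  · intro S _
    ext x
    simp only [mem_union, mem_inter, mem_sdiff]
    tauto
  · rintro ⟨B, C⟩ hP
    rw [mem_product, mem_powerset, mem_powerset] at hP
    obtain ⟨hB, hC⟩ := hP
    have hC' : ∀ x ∈ C, x ∉ A := fun x hx => mem_compl.mp (hC hx)
    have hB' : ∀ x ∈ B, x ∈ A := fun x hx => hB hx
    apply Prod.ext
    · ext x
      simp only [mem_union, mem_inter]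
      constructor
      · rintro ⟨h | h, hA⟩
        · exact h
        · exact absurd hA (hC' x h)
      · intro h
        exact ⟨Or.inl h, hB' x h⟩
    · ext x
      simp only [mem_union, mem_sdiff]
      constructor
      · rintro ⟨h | h, hA⟩
        · exact absurd (hB' x h) hA
        · exact h
      · intro h
        exact ⟨Or.inr h, hC' x h⟩
  · intro S _
    rfl

/-- weight of the part in `A` -/
noncomputable def pw (q : ℝ) (A B : Finset ι) : ℝ := ∏ i ∈ A, if i ∈ B then q else 1 - q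

lemma wt_split (q : ℝ) (A S : Finset ι) :
    wt q S = pw q A (S ∩ A) * pw q Aᶜ (S \ A) := by
  unfold wt pw
  rw [← Finset.prod_mul_prod_compl A]
  congr 1
  · refine Finset.prod_congr rfl fun i hi => ?_
    simp [hi]
  · refine Finset.prod_congr rfl fun i hi => ?_
    have : i ∉ A := mem_compl.mp hi
    simp [this]

lemma Ex_split (q : ℝ) (A : Finset ι) (f g : Finset ι → ℝ) (hf : ∀ S, f S = f (S ∩ A))
    (hg : ∀ S, g S = g (S \ A)) :
    Ex q (fun S => f S * g S) = (∑ B ∈ A.powerset, pw q A B * f B)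
      * ∑ C ∈ (Aᶜ).powerset, pw q Aᶜ C * g C := by
  have h1 : Ex q (fun S => f S * g S) = ∑ S : Finset ι,
      (fun B C => (pw q A B * f B) * (pw q Aᶜ C * g C)) (S ∩ A) (S \ A) := by
    unfold Ex
    refine Finset.sum_congr rfl fun S _ => ?_
    change wt q S * (f S * g S) = (pw q A (S ∩ A) * f (S ∩ A)) * (pw q Aᶜ (S \ A) * g (S \ A))
    rw [wt_split q A S, ← hf S, ← hg S]
    ring
  rw [h1, sum_split A (fun B C => (pw q A B * f B) * (pw q Aᶜ C * g C)), Finset.sum_mul_sum]

end A2Indep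

open A2Indep in
theorem exIndep : ExIndep := by
  intro ι _ _ q A f g hf hg
  have h1 := Ex_split q A f g hf hg
  have h2 := Ex_split q A f (fun _ => 1) hf (fun _ => rfl)
  have h3 := Ex_split q A (fun _ => 1) g (fun _ => rfl) hg
  have h4 := Ex_split q A (fun _ => 1) (fun _ => 1) (fun _ => rfl) (fun _ => rfl)
  simp only [mul_one, one_mul] at h2 h3 h4
  rw [Ex_const] at h4
  rw [h1, h2, h3]
  set P := ∑ B ∈ A.powerset, pw q A B * f B
  set R := ∑ C ∈ (Aᶜ).powerset, pw q Aᶜ C * g C
  set P1 := ∑ B ∈ A.powerset, pw q A B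
  set R1 := ∑ C ∈ (Aᶜ).powerset, pw q Aᶜ C
  calc P * R = P * R * (P1 * R1) := by rw [← h4, mul_one]
    _ = P * R1 * (P1 * R) := by ring

end MP329
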