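import Pool.Agent.Lib.MP_329b4d_pr.SpecA

/-!
# MP_329b4d_pr, module A3: sprinkling and monotonicity in the density
-/

namespace MP329

open Finset

namespace A3Sprinkle

variable {ι : Type} [Fintype ι] [DecidableEq ι]

theorem point (q₁ q₂ : ℝ) (S : Finset ι) :
    ∑ S₁ : Finset ι, ∑ S₂ : Finset ι,
      wt q₁ S₁ * wt q₂ S₂ * (if S₁ ∪ S₂ = S then (1 : ℝ) else 0)
      = wt (q₁ + q₂ - q₁ * q₂) S := by
  have h1 : ∀ S₁ S₂ : Finset ι, wt q₁ S₁ * wt q₂ S₂ * (if S₁ ∪ S₂ = S then (1 : ℝ) else 0)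
      = ∏ i, (if i ∈ S₂ then (if i ∈ S₁ then q₁ else 1 - q₁) * q₂ * (if i ∈ S then 1 else 0)
         else (if i ∈ S₁ then q₁ else 1 - q₁) * (1 - q₂) *
          (if (i ∈ S ↔ i ∈ S₁) then 1 else 0)) := by
    intro S₁ S₂
    have h2 : (if S₁ ∪ S₂ = S then (1 : ℝ) else 0)
        = ∏ i, (if (i ∈ S ↔ (i ∈ S₁ ∨ i ∈ S₂)) then (1 : ℝ) else 0) := by
      by_cases h : S₁ ∪ S₂ = S
      · rw [if_pos h]
        symm
        apply Finset.prod_eq_one
        intro i _
        rw [if_pos]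
        rw [← h, Finset.mem_union]
      · rw [if_neg h]
        symm
        obtain ⟨i, hi⟩ : ∃ i, ¬ (i ∈ S ↔ (i ∈ S₁ ∨ i ∈ S₂)) := by
          by_contra hcon
          push Not at hcon
          apply h
          ext i
          rw [Finset.mem_union]
          exact (hcon i).symm
        exact Finset.prod_eq_zero (Finset.mem_univ i) (if_neg hi)
    rw [h2]
    unfold wt
    rw [← Finset.prod_mul_distrib, ← Finset.prod_mul_distrib]
    apply Finset.prod_congr rfl
    intro i _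
    by_cases h3 : i ∈ S₁ <;> by_cases h4 : i ∈ S₂ <;> by_cases h5 : i ∈ S <;>
      simp [h3, h4, h5]
  have h2 : ∀ S₁ : Finset ι, ∑ S₂ : Finset ι,
      wt q₁ S₁ * wt q₂ S₂ * (if S₁ ∪ S₂ = S then (1 : ℝ) else 0)
      = ∏ i, (if i ∈ S₁ then (if i ∈ S then q₁ else 0)
          else (if i ∈ S then (1 - q₁) * q₂ else (1 - q₁) * (1 - q₂))) := by
    intro S₁
    rw [Finset.sum_congr rfl (fun S₂ _ => h1 S₁ S₂), sum_prod_ite]
    apply Finset.prod_congr rfl
    intro i _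
    by_cases h3 : i ∈ S₁ <;> by_cases h5 : i ∈ S <;> simp [h3, h5] <;> ring
  rw [Finset.sum_congr rfl (fun S₁ _ => h2 S₁), sum_prod_ite]
  unfold wt
  apply Finset.prod_congr rfl
  intro i _
  by_cases h5 : i ∈ S <;> simp [h5] <;> ring

/-- The union law. -/
theorem union_law (q₁ q₂ : ℝ) (f : Finset ι → ℝ) :
    Ex q₁ (fun S₁ => Ex q₂ (fun S₂ => f (S₁ ∪ S₂))) = Ex (q₁ + q₂ - q₁ * q₂) f := by
  unfold Ex
  have h1 : ∀ S₁ S₂ : Finset ι, f (S₁ ∪ S₂)
      = ∑ S : Finset ι, (if S₁ ∪ S₂ = S then (1 : ℝ) else 0) * f S := by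
    intro S₁ S₂
    simp
  calc ∑ S₁ : Finset ι, wt q₁ S₁ * ∑ S₂ : Finset ι, wt q₂ S₂ * f (S₁ ∪ S₂)
      = ∑ S₁ : Finset ι, ∑ S₂ : Finset ι, ∑ S : Finset ι,
          (wt q₁ S₁ * wt q₂ S₂ * (if S₁ ∪ S₂ = S then (1 : ℝ) else 0)) * f S := by
        apply Finset.sum_congr rfl
        intro S₁ _
        rw [Finset.mul_sum]
        apply Finset.sum_congr rfl
        intro S₂ _
        rw [h1 S₁ S₂, Finset.mul_sum, Finset.mul_sum]
        apply Finset.sum_congr rfl
        intro S _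
        ring
    _ = ∑ S : Finset ι, (∑ S₁ : Finset ι, ∑ S₂ : Finset ι,
          wt q₁ S₁ * wt q₂ S₂ * (if S₁ ∪ S₂ = S then (1 : ℝ) else 0)) * f S := by
        have h2 : ∀ S₁ : Finset ι, ∑ S₂ : Finset ι, ∑ S : Finset ι,
            (wt q₁ S₁ * wt q₂ S₂ * (if S₁ ∪ S₂ = S then (1 : ℝ) else 0)) * f S
            = ∑ S : Finset ι, (∑ S₂ : Finset ι,
              wt q₁ S₁ * wt q₂ S₂ * (if S₁ ∪ S₂ = S then (1 : ℝ) else 0)) * f S := by
          intro S₁
          rw [Finset.sum_comm]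
          apply Finset.sum_congr rfl
          intro S _
          rw [Finset.sum_mul]
        rw [Finset.sum_congr rfl (fun S₁ _ => h2 S₁), Finset.sum_comm]
        apply Finset.sum_congr rfl
        intro S _
        rw [Finset.sum_mul]
    _ = ∑ S : Finset ι, wt (q₁ + q₂ - q₁ * q₂) S * f S := by
        apply Finset.sum_congr rfl
        intro S _
        rw [point]

end A3Sprinkle

theorem exMonoQ : ExMonoQ := by
  intro ι _ _ q q' hq hqq hq' f hf
  rcases (hqq.trans hq').eq_or_lt with h1 | h1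
  · have : q' = q := le_antisymm (by linarith) hqq
    rw [this]
  · have h2 : 0 < 1 - q := by linarith
    set t : ℝ := (q' - q) / (1 - q) with ht
    have ht0 : 0 ≤ t := div_nonneg (by linarith) h2.le
    have ht1 : t ≤ 1 := by
      rw [ht, div_le_one h2]
      linarith
    have ht2 : q' = q + t - q * t := by
      rw [ht]
      field_simp
      ring
    rw [ht2, ← A3Sprinkle.union_law]
    apply Ex_mono hq h1.le
    intro S
    have h3 := Ex_mono (ι := ι) ht0 ht1 (f := fun _ => f S) (g := fun T => f (S ∪ T))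
      (fun T => hf _ _ Finset.subset_union_left)
    rwa [Ex_const] at h3

theorem sprinkle : Sprinkle := by
  intro ι _ _ q₁ q₂ q h1 h2 h12 hq f hf
  rw [A3Sprinkle.union_law]
  have h3 : q₁ ≤ 1 := by linarith
  have h4 : 0 ≤ q₂ * (1 - q₁) := mul_nonneg h2 (by linarith)
  have h5 : 0 ≤ q₁ * q₂ := mul_nonneg h1 h2
  exact exMonoQ ι _ _ (by nlinarith) (by linarith) hq f hf

end MP329
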