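import Pool.Agent.Lib.MP_329b4d_pr.SpecA

/-!
# MP_329b4d_pr: the row lemma (A4)
-/

namespace MP329

open Finset

open Classical in
/-- The row lemma, from independence. -/
theorem rowLemma (hInd : ExIndep) : RowLemma := by
  intro ι _ _ q a hq0 hq1 ha R R' A hRR hA hP
  rcases R'.eq_empty_or_nonempty with hE | ⟨e0, he0⟩
  · subst hE
    simp only [Finset.card_empty, pow_zero, sub_self, zero_mul]
    exact Pb_nonneg hq0 hq1 _
  -- choice of an element of every nonempty set
  let e : Finset ι → ι := fun T => if h : T.Nonempty then h.choose else e0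
  have he : ∀ T : Finset ι, T.Nonempty → e T ∈ T := by
    intro T hT
    simp only [e, dif_pos hT]
    exact hT.choose_spec
  let 𝒯 : Finset (Finset ι) := R'.powerset.erase ∅
  have h𝒯 : ∀ T ∈ 𝒯, T.Nonempty ∧ T ⊆ R' := by
    intro T hT
    rw [Finset.mem_erase, Finset.mem_powerset] at hT
    exact ⟨Finset.nonempty_iff_ne_empty.mpr hT.1, hT.2⟩
  let F : Finset ι → Finset ι → ℝ := fun T S => if S ∩ R' = T then 1 else 0
  let G : Finset ι → Finset ι → ℝ := fun T S => if A (e T) S then 1 else 0
  -- the pointwise inequality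
  have h1 : Ex q (fun S => ∑ T ∈ 𝒯, F T S * G T S) ≤
      Pb q (fun S => ∃ e ∈ R', e ∈ S ∧ A e S) := by
    unfold Pb
    apply Ex_mono hq0 hq1
    intro S
    by_cases hS : S ∩ R' ∈ 𝒯
    · rw [Finset.sum_eq_single_of_mem _ hS]
      · have hmem := he _ (h𝒯 _ hS).1
        simp only [F, G, if_true, one_mul]
        by_cases hAS : A (e (S ∩ R')) S
        · rw [if_pos hAS, if_pos]
          exact ⟨_, (Finset.mem_inter.mp hmem).2, (Finset.mem_inter.mp hmem).1, hAS⟩
        · rw [if_neg hAS]
          split_ifs <;> norm_num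
      · intro T _ hT
        simp only [F]
        rw [if_neg (fun h => hT h.symm), zero_mul]
    · rw [Finset.sum_eq_zero]
      · split_ifs <;> norm_num
      · intro T hT
        simp only [F]
        rw [if_neg (fun h : S ∩ R' = T => hS (by rw [h]; exact hT)), zero_mul]
  -- independence
  have h2 : ∀ T ∈ 𝒯, Ex q (F T) * a ≤ Ex q (fun S => F T S * G T S) := by
    intro T hT
    have hTn := (h𝒯 T hT).1
    have heR : e T ∈ R' := (h𝒯 T hT).2 (he T hTn)
    have hF : ∀ S, F T S = F T (S ∩ R) := by
      intro S
      simp only [F]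
      rw [Finset.inter_assoc, Finset.inter_eq_right.mpr hRR]
    have hG : ∀ S, G T S = G T (S \ R) := by
      intro S
      simp only [G]
      rw [if_congr (hA _ heR S) rfl rfl]
    rw [hInd ι q R (F T) (G T) hF hG]
    have hF0 : 0 ≤ Ex q (F T) := by
      apply Ex_nonneg hq0 hq1
      intro S
      simp only [F]
      split_ifs <;> norm_num
    have hG0 : a ≤ Ex q (G T) := by
      have := hP _ heR
      unfold Pb at this
      refine this.trans (le_of_eq ?_)
      apply Ex_congr
      intro S
      simp only [G]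
    exact mul_le_mul_of_nonneg_left hG0 hF0
  -- the sum of the probabilities
  have h3 : ∑ T ∈ 𝒯, Ex q (F T) = 1 - (1 - q) ^ #R' := by
    rw [← Ex_sum, ← Pb_disjoint q R', ← Pb_not]
    unfold Pb
    apply Ex_congr
    intro S
    by_cases hd : Disjoint R' S
    · have hS : S ∩ R' = ∅ := by
        rw [Finset.inter_comm]
        exact Finset.disjoint_iff_inter_eq_empty.mp hd
      rw [if_neg (not_not_intro hd)]
      apply Finset.sum_eq_zero
      intro T hT
      simp only [F]
      rw [if_neg]
      intro h
      rw [hS] at h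
      exact (Finset.mem_erase.mp hT).1 h.symm
    · have hS : S ∩ R' ∈ 𝒯 := by
        rw [Finset.mem_erase, Finset.mem_powerset]
        refine ⟨?_, Finset.inter_subset_right⟩
        intro h
        apply hd
        rw [Finset.disjoint_iff_inter_eq_empty, Finset.inter_comm]
        exact h
      rw [if_pos hd, Finset.sum_eq_single_of_mem _ hS]
      · simp only [F, if_true]
      · intro T _ hT
        simp only [F]
        rw [if_neg (fun h => hT h.symm)]
  rw [Ex_sum] at h1
  calc (1 - (1 - q) ^ #R') * a = ∑ T ∈ 𝒯, Ex q (F T) * a := by rw [← h3, Finset.sum_mul]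
    _ ≤ ∑ T ∈ 𝒯, Ex q (fun S => F T S * G T S) := Finset.sum_le_sum h2
    _ ≤ _ := h1

end MP329
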