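import Pool.Agent.Lib.MP_329b4d_pr.SpecA

/-!
# MP_329b4d_pr: A5 and A6, repeated and composed sprinklings
-/

namespace MP329

open Finset

section

variable {V : Type} [Fintype V] [DecidableEq V]

open Classical in
/-- Indicator function of `∃ E' ⊆ E ∪ S, Q E'`. -/
noncomputable def hitInd (E : Finset (Sym2 V)) (Q : Finset (Sym2 V) → Prop)
    (S : Finset (Sym2 V)) : ℝ := if (∃ E' ⊆ E ∪ S, Q E') then (1 : ℝ) else 0

theorem hitInd_eq (q : ℝ) (E : Finset (Sym2 V)) (Q : Finset (Sym2 V) → Prop) :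
    Pb q (fun S : Finset (Sym2 V) => ∃ E' ⊆ E ∪ S, Q E') = Ex q (hitInd E Q) := by
  unfold Pb
  apply Ex_congr
  intro S
  unfold hitInd
  by_cases h : ∃ E' ⊆ E ∪ S, Q E'
  · rw [if_pos h, if_pos h]
  · rw [if_neg h, if_neg h]

theorem hitInd_nonneg (E : Finset (Sym2 V)) (Q : Finset (Sym2 V) → Prop)
    (S : Finset (Sym2 V)) : 0 ≤ hitInd E Q S := by
  unfold hitInd
  split_ifs <;> norm_num

theorem hitInd_le_one (E : Finset (Sym2 V)) (Q : Finset (Sym2 V) → Prop)
    (S : Finset (Sym2 V)) : hitInd E Q S ≤ 1 := by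
  unfold hitInd
  split_ifs <;> norm_num

theorem hitInd_of (E : Finset (Sym2 V)) (Q : Finset (Sym2 V) → Prop)
    (S : Finset (Sym2 V)) (h : ∃ E' ⊆ E ∪ S, Q E') : hitInd E Q S = 1 := by
  unfold hitInd
  rw [if_pos h]

theorem hitInd_of_not (E : Finset (Sym2 V)) (Q : Finset (Sym2 V) → Prop)
    (S : Finset (Sym2 V)) (h : ¬ ∃ E' ⊆ E ∪ S, Q E') : hitInd E Q S = 0 := by
  unfold hitInd
  rw [if_neg h]

/-- Comparison of two indicator functions. -/
theorem hitInd_le (E F : Finset (Sym2 V)) (Q : Finset (Sym2 V) → Prop)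
    (S T : Finset (Sym2 V)) (h : E ∪ S ⊆ F ∪ T) : hitInd E Q S ≤ hitInd F Q T := by
  by_cases h1 : ∃ E' ⊆ E ∪ S, Q E'
  · obtain ⟨E', hE', hQ⟩ := h1
    rw [hitInd_of F Q T ⟨E', hE'.trans h, hQ⟩]
    exact hitInd_le_one _ _ _
  · rw [hitInd_of_not E Q S h1]
    exact hitInd_nonneg _ _ _

theorem hitInd_mono (E : Finset (Sym2 V)) (Q : Finset (Sym2 V) → Prop)
    (S T : Finset (Sym2 V)) (h : S ⊆ T) : hitInd E Q S ≤ hitInd E Q T :=
  hitInd_le E E Q S T (Finset.union_subset_union_right h)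

end

/-- A5. -/
theorem attempts (hs : Sprinkle) : Attempts := by
  intro V _ _ q κ R P Q hq hκ hκ1 hRq hit
  induction R with
  | zero =>
    intro E hE
    have h0 : (1 : ℝ) - (1 - κ) ^ 0 = 0 := by simp
    rw [h0]
    exact Pb_nonneg (by simp) (by simp) _
  | succ R ih =>
    push_cast at hRq
    have hRq' : (R : ℝ) * q ≤ 1 := by nlinarith
    have hRq0 : 0 ≤ (R : ℝ) * q := by positivity
    have hq1 : q ≤ 1 := by nlinarith
    have ih := ih hRq'
    intro E hE
    set c : ℝ := 1 - (1 - κ) ^ R with hc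
    have h1c : 0 ≤ 1 - c := by
      rw [hc]
      have : 0 ≤ (1 - κ) ^ R := pow_nonneg (by linarith) R
      linarith
    have h1 := hs (Sym2 V) q (R * q) (((R + 1 : ℕ) : ℝ) * q) hq hRq0
      (by push_cast; linarith) (by push_cast; linarith) (hitInd E Q) (hitInd_mono E Q)
    rw [hitInd_eq]
    refine le_trans ?_ h1
    have h2 : ∀ S₁ : Finset (Sym2 V), c + (1 - c) * hitInd E Q S₁
        ≤ Ex (R * q) (fun S₂ => hitInd E Q (S₁ ∪ S₂)) := by
      intro S₁
      by_cases h3 : ∃ E' ⊆ E ∪ S₁, Q E'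
      · rw [hitInd_of E Q S₁ h3]
        have h4 : Ex (R * q) (fun S₂ => hitInd E Q (S₁ ∪ S₂)) = 1 := by
          rw [← Ex_const (ι := Sym2 V) (R * q) 1]
          apply Ex_congr
          intro S₂
          apply le_antisymm (hitInd_le_one _ _ _)
          rw [← hitInd_of E Q S₁ h3]
          exact hitInd_mono E Q _ _ Finset.subset_union_left
        rw [h4]
        linarith
      · rw [hitInd_of_not E Q S₁ h3]
        have h4 := ih E hE
        rw [hitInd_eq] at h4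
        have h5 : Ex (R * q) (hitInd E Q) ≤ Ex (R * q) (fun S₂ => hitInd E Q (S₁ ∪ S₂)) :=
          Ex_mono hRq0 hRq' (fun S₂ => hitInd_mono E Q _ _ Finset.subset_union_right)
        linarith
    have h3 := Ex_mono hq hq1 h2
    refine le_trans ?_ h3
    rw [Ex_add, Ex_const, Ex_mul_left]
    have h4 := hit E hE
    rw [hitInd_eq] at h4
    have h5 := mul_le_mul_of_nonneg_left h4 h1c
    have h6 : (1 : ℝ) - (1 - κ) ^ (R + 1) = c + (1 - c) * κ := by
      rw [hc, pow_succ]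
      ring
    rw [h6]
    linarith

/-- A6. -/
theorem compose (hs : Sprinkle) : Compose := by
  intro V _ _ q₁ q₂ q a b P Q R hq₁ hq₂ hq12 hq ha hb hPQ hQR E hE
  have hq₁1 : q₁ ≤ 1 := by linarith
  have hq₂1 : q₂ ≤ 1 := by linarith
  have hq0 : 0 ≤ q := by linarith
  by_cases hb1 : b ≤ 1
  · rw [hitInd_eq]
    have h1 := hs (Sym2 V) q₁ q₂ q hq₁ hq₂ hq12 hq (hitInd E R) (hitInd_mono E R)
    refine le_trans ?_ h1
    have h2 : ∀ S₁ : Finset (Sym2 V), (1 - b) * hitInd E Q S₁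
        ≤ Ex q₂ (fun S₂ => hitInd E R (S₁ ∪ S₂)) := by
      intro S₁
      by_cases h3 : ∃ E' ⊆ E ∪ S₁, Q E'
      · rw [hitInd_of E Q S₁ h3, mul_one]
        obtain ⟨E', hE', hQ⟩ := h3
        have h4 := hQR E' hQ
        rw [hitInd_eq] at h4
        refine h4.trans (Ex_mono hq₂ hq₂1 (fun S₂ => hitInd_le _ _ _ _ _ ?_))
        rw [← Finset.union_assoc]
        exact Finset.union_subset_union_left hE'
      · rw [hitInd_of_not E Q S₁ h3, mul_zero]
        exact Ex_nonneg hq₂ hq₂1 (fun S₂ => hitInd_nonneg _ _ _)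
    have h3 := Ex_mono hq₁ hq₁1 h2
    refine le_trans ?_ h3
    rw [Ex_mul_left]
    have h4 := hPQ E hE
    rw [hitInd_eq] at h4
    have h5 := mul_le_mul_of_nonneg_left h4 (by linarith : 0 ≤ 1 - b)
    nlinarith
  · have h1 := Pb_nonneg hq0 hq (fun S : Finset (Sym2 V) => ∃ E' ⊆ E ∪ S, R E')
    push Not at hb1
    linarith

end MP329
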