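import Pool.Agent.Lib.MP_329b4d_pr.SpecA

/-!
# MP_329b4d_pr, A7: the coin measure is the finite Bernoulli measure
-/

namespace MP329

open Finset MeasureTheory

theorem coin_univ {p : ℝ} (h0 : 0 ≤ p) (h1 : p ≤ 1) : coin p Set.univ = 1 := by
  unfold coin
  simp only [Measure.coe_add, Measure.coe_smul, Pi.add_apply, Pi.smul_apply, measure_univ,
    smul_eq_mul, mul_one]
  rw [← ENNReal.ofReal_add h0 (by linarith)]
  simp

theorem coin_prob {p : ℝ} (h0 : 0 ≤ p) (h1 : p ≤ 1) : IsProbabilityMeasure (coin p) :=
  ⟨coin_univ h0 h1⟩

theorem coin_singleton (p : ℝ) (b : Bool) :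
    coin p {b} = ENNReal.ofReal (if b = true then p else 1 - p) := by
  unfold coin
  cases b <;> simp

theorem coinEx : CoinEx := by
  intro ι _ _ p h0 h1
  have := coin_prob h0 h1
  have hprob : IsProbabilityMeasure (Measure.pi fun _ : ι => coin p) := inferInstance
  have hsing : ∀ c : ι → Bool, (Measure.pi fun _ : ι => coin p).real {c} =
      wt p (univ.filter fun i => c i = true) := by
    intro c
    rw [Measure.real, Measure.pi_singleton]
    simp only [coin_singleton]
    rw [← ENNReal.ofReal_prod_of_nonneg (fun i _ => by split_ifs <;> linarith),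
      ENNReal.toReal_ofReal (Finset.prod_nonneg fun i _ => by split_ifs <;> linarith)]
    unfold wt
    refine Finset.prod_congr rfl fun i _ => ?_
    simp
  have hint : ∀ f : Finset ι → ℝ, ∫ c, f (univ.filter fun i => c i = true)
      ∂(Measure.pi fun _ : ι => coin p) = Ex p f := by
    intro f
    rw [integral_fintype (Integrable.of_finite)]
    simp only [hsing, smul_eq_mul]
    unfold Ex
    refine Finset.sum_bij' (fun c _ => univ.filter fun i => c i = true)
      (fun S _ => fun i => decide (i ∈ S)) ?_ ?_ ?_ ?_ ?_
    · intro _ _; exact mem_univ _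
    · intro _ _; exact mem_univ _
    · intro c _
      funext i
      simp
    · intro S _
      ext i
      simp
    · intro c _
      rfl
  refine ⟨hprob, hint, fun A => ?_⟩
  have h2 := hint (fun S => @ite ℝ (A S) (Classical.propDecidable _) 1 0)
  have h3 : Ex p (fun S => @ite ℝ (A S) (Classical.propDecidable _) 1 0) = Pb p A := rfl
  rw [h3] at h2
  have hms : MeasurableSet {c : ι → Bool | A (univ.filter fun i => c i = true)} :=
    Set.Finite.measurableSet (Set.toFinite _)
  have h4 : ∫ c, @ite ℝ (A (univ.filter fun i => c i = true)) (Classical.propDecidable _) 1 0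
      ∂(Measure.pi fun _ : ι => coin p) =
      (Measure.pi fun _ : ι => coin p).real {c | A (univ.filter fun i => c i = true)} := by
    rw [← integral_indicator_one hms]
    congr 1
  rw [← h2, h4, ofReal_measureReal]

end MP329
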