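import Pool.Agent.Lib.MP_329b4d_pr.SpecA

/-!
# MP_329b4d_pr: the tour length of the model and lists
-/

namespace MP329

open Finset

namespace B2

theorem length_links {V : Type*} : ∀ l : List V, (links l).length = l.length - 1
  | [] => rfl
  | [_] => rfl
  | a :: b :: l => by
      have := length_links (b :: l)
      simp only [links, List.length_cons] at this ⊢
      omega

theorem getElem_links {V : Type*} : ∀ (l : List V) (i : ℕ) (h : i < (links l).length)
    (h1 : i < l.length) (h2 : i + 1 < l.length), (links l)[i] = s(l[i], l[i + 1])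
  | [], _, _, h1, _ => by simp at h1
  | [_], _, _, _, h2 => by simp at h2
  | a :: b :: l, 0, _, _, _ => rfl
  | a :: b :: l, i + 1, h, h1, h2 => by
      have h3 : i < (links (b :: l)).length := by
        simp only [links, List.length_cons] at h
        omega
      have := getElem_links (b :: l) i h3 (by simpa using h1) (by simpa using h2)
      simpa [links] using this

variable {n : ℕ}

theorem val_finRotate (hn : 0 < n) (i : Fin n) : ((finRotate n i : Fin n) : ℕ) = (i + 1) % n := by
  obtain ⟨m, rfl⟩ : ∃ m, n = m + 1 := ⟨n - 1, by omega⟩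
  rw [finRotate_apply, Fin.val_add]
  simp

theorem links_ofFn {V : Type*} (hn : 2 ≤ n) (σ : Fin n → V) :
    links (List.ofFn σ ++ (List.ofFn σ).take 1) =
      List.ofFn fun i => s(σ i, σ (finRotate n i)) := by
  have hlen : (List.ofFn σ ++ (List.ofFn σ).take 1).length = n + 1 := by
    rw [List.length_append, List.length_take, List.length_ofFn]
    omega
  apply List.ext_getElem
  · rw [length_links, hlen, List.length_ofFn]
    omega
  · intro i h1 h2
    rw [List.length_ofFn] at h2
    rw [getElem_links _ i h1 (by omega) (by omega)]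
    rw [List.getElem_ofFn]
    have e1 : (List.ofFn σ ++ (List.ofFn σ).take 1)[i]'(by omega) = σ ⟨i, h2⟩ := by
      rw [List.getElem_append_left (by rw [List.length_ofFn]; exact h2), List.getElem_ofFn]
    have e2 : (List.ofFn σ ++ (List.ofFn σ).take 1)[i + 1]'(by omega) =
        σ (finRotate n ⟨i, h2⟩) := by
      by_cases hi : i + 1 < n
      · rw [List.getElem_append_left (by rw [List.length_ofFn]; exact hi), List.getElem_ofFn]
        congr 1
        apply Fin.ext
        rw [val_finRotate (by omega)]
        simp [Nat.mod_eq_of_lt hi]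
      · have hi' : i + 1 = n := by omega
        rw [List.getElem_append_right (by rw [List.length_ofFn]; omega), List.getElem_take,
          List.getElem_ofFn]
        congr 1
        apply Fin.ext
        rw [val_finRotate (by omega)]
        simp [hi']
    rw [e1, e2]

theorem rot_ne (hn : 2 ≤ n) (i : Fin n) : i ≠ finRotate n i := by
  intro h
  have h1 := congrArg Fin.val h
  rw [val_finRotate (by omega)] at h1
  have h2 := i.2
  by_cases h3 : (i : ℕ) + 1 < n
  · rw [Nat.mod_eq_of_lt h3] at h1; omega
  · have : (i : ℕ) + 1 = n := by omega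
    rw [this, Nat.mod_self] at h1
    omega

theorem pair_inj (hn : 3 ≤ n) {V : Type*} {σ : Fin n → V} (hσ : Function.Injective σ) :
    Function.Injective fun i => s(σ i, σ (finRotate n i)) := by
  intro i j hij
  simp only [Sym2.eq_iff] at hij
  rcases hij with ⟨h, _⟩ | ⟨h1, h2⟩
  · exact hσ h
  · exfalso
    have h3 := congrArg Fin.val (hσ h1)
    have h4 := congrArg Fin.val (hσ h2)
    rw [val_finRotate (by omega)] at h3 h4
    have h5 := i.2
    have h6 := j.2
    by_cases h7 : (i : ℕ) + 1 < n
    · rw [Nat.mod_eq_of_lt h7] at h4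
      by_cases h8 : (j : ℕ) + 1 < n
      · rw [Nat.mod_eq_of_lt h8] at h3; omega
      · have : (j : ℕ) + 1 = n := by omega
        rw [this, Nat.mod_self] at h3
        omega
    · have h9 : (i : ℕ) + 1 = n := by omega
      rw [h9, Nat.mod_self] at h4
      rw [← h4, Nat.mod_eq_of_lt (by omega)] at h3
      omega

theorem tourEdges_ofFn [DecidableEq (Fin n)] (hn : 3 ≤ n) (σ : Fin n → Fin n) :
    tourEdges (List.ofFn σ) = univ.image fun i => s(σ i, σ (finRotate n i)) := by
  unfold tourEdges
  rw [links_ofFn (by omega)]
  ext e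
  simp [List.mem_ofFn, eq_comm]

theorem cost_ofFn (hn : 3 ≤ n) {d : ℕ} (X : Fin n → Pt d) (σ : Fin n → Fin n)
    (hσ : Function.Injective σ) :
    ENNReal.ofReal (cost X (tourEdges (List.ofFn σ))) =
      ∑ i, ENNReal.ofReal (dist (X (σ i)) (X (σ (finRotate n i)))) := by
  rw [tourEdges_ofFn hn]
  unfold cost
  rw [Finset.sum_image (fun i _ j _ h => pair_inj hn hσ h)]
  rw [ENNReal.ofReal_sum_of_nonneg]
  · rfl
  · intro i _
    exact (dist_nonneg : 0 ≤ dist (X (σ i)) (X (σ (finRotate n i))))

end B2

open B2 in
theorem tourList : TourList := by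
  intro n d ω
  constructor
  · intro T hT hsub
    have hlen : T.length = n := by
      have h1 : T.toFinset = univ := by
        ext v
        simp [hT.covers v]
      have h2 := List.toFinset_card_of_nodup hT.nodup
      rw [h1, card_univ, Fintype.card_fin] at h2
      exact h2.symm
    have hn : 3 ≤ n := hlen ▸ hT.three
    set f : Fin n → Fin n := fun i => T.get (Fin.cast hlen.symm i) with hf
    have hfi : Function.Injective f := by
      intro i j hij
      have := (List.nodup_iff_injective_get.1 hT.nodup) hij
      exact Fin.cast_injective _ this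
    have hTf : T = List.ofFn f := by
      apply List.ext_getElem
      · rw [List.length_ofFn, hlen]
      · intro i h1 h2
        rw [List.getElem_ofFn]
        rfl
    have hfb : Function.Bijective f := Finite.injective_iff_bijective.1 hfi
    set σ : Equiv.Perm (Fin n) := Equiv.ofBijective f hfb with hσ
    have hσf : ∀ i, σ i = f i := fun i => rfl
    rw [hTf] at hsub ⊢
    rw [cost_ofFn hn ω.1 f hfi]
    unfold tourLength
    refine iInf₂_le_of_le σ ⟨hn, ?_⟩ (le_of_eq ?_)
    · intro i
      refine ⟨fun h => rot_ne (by omega) i (σ.injective h), ?_⟩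
      have : s(f i, f (finRotate n i)) ∈ tourEdges (List.ofFn f) := by
        rw [tourEdges_ofFn hn]
        exact mem_image_of_mem _ (mem_univ i)
      have := hsub this
      rw [mem_filter] at this
      exact this.2
    · rfl
  · intro hne
    unfold tourLength at hne ⊢
    obtain ⟨σ, hσ⟩ := exists_eq_ciInf_of_finite (f := fun σ : Equiv.Perm (Fin n) =>
      ⨅ (_ : 3 ≤ n ∧ ∀ i, joined ω (σ i) (σ (finRotate n i))),
        ∑ i, ENNReal.ofReal (dist (ω.1 (σ i)) (ω.1 (σ (finRotate n i)))))
    rw [← hσ] at hne ⊢
    by_cases hP : 3 ≤ n ∧ ∀ i, joined ω (σ i) (σ (finRotate n i))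
    · obtain ⟨hn, hj⟩ := hP
      refine ⟨List.ofFn σ, ⟨List.nodup_ofFn.2 σ.injective, ?_, ?_⟩, ?_, ?_⟩
      · intro v
        rw [List.mem_ofFn]
        exact σ.surjective v
      · rw [List.length_ofFn]; exact hn
      · intro e he
        rw [tourEdges_ofFn hn, mem_image] at he
        obtain ⟨i, _, rfl⟩ := he
        rw [mem_filter]
        exact ⟨mem_univ _, (hj i).2⟩
      · rw [cost_ofFn hn ω.1 σ σ.injective]
        exact iInf_pos ⟨hn, hj⟩
    · exfalso
      apply hne
      exact iInf_neg hP

end MP329
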