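import Pool.Agent.Lib.MP_329b4d_pr.SpecE

/-!
# MP_329b4d_pr, F1: the positions are regular with high probability
-/

set_option autoImplicit false

namespace MP329

open Finset MeasureTheory Filter

namespace F1

section Count

variable {Ω : Type*} [MeasurableSpace Ω]

open Classical in
/-- Number of points in `C`. -/
noncomputable def cn {n : ℕ} (C : Set Ω) (X : Fin n → Ω) : ℕ := #{u | X u ∈ C}

omit [MeasurableSpace Ω] in
open Classical in
theorem prod_ite_eq {n : ℕ} (C : Set Ω) (X : Fin n → Ω) (c : ℝ) :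
    ∏ u, (if X u ∈ C then c else 1) = c ^ cn C X := by
  rw [Finset.prod_ite, Finset.prod_const, Finset.prod_const_one, mul_one]
  rfl

open Classical in
theorem integral_one (μ : Measure Ω) [IsProbabilityMeasure μ] (C : Set Ω)
    (hC : MeasurableSet C) (c : ℝ) :
    Integrable (fun x => if x ∈ C then c else (1 : ℝ)) μ ∧
      ∫ x, (if x ∈ C then c else (1 : ℝ)) ∂μ = 1 + (c - 1) * μ.real C := by
  have e : (fun x => if x ∈ C then c else (1 : ℝ)) =
      fun x => 1 + C.indicator (fun _ => c - 1) x := by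
    funext x
    by_cases h : x ∈ C <;> simp [h]
  have h1 : Integrable (C.indicator fun _ => c - 1) μ := (integrable_const _).indicator hC
  rw [e]
  refine ⟨(integrable_const _).add h1, ?_⟩
  rw [integral_add (integrable_const _) h1, integral_const, integral_indicator hC,
    setIntegral_const]
  simp only [probReal_univ, smul_eq_mul]
  ring

open Classical in
/-- Markov inequality for `c ^ cn C X`. -/
theorem markov (μ : Measure Ω) [IsProbabilityMeasure μ] (C : Set Ω) (hC : MeasurableSet C)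
    (n : ℕ) (c t : ℝ) (hc : 0 < c) :
    t * (Measure.pi fun _ : Fin n => μ).real {X | t ≤ c ^ cn C X} ≤
      Real.exp ((c - 1) * (n * μ.real C)) := by
  obtain ⟨hi, hI⟩ := integral_one μ C hC c
  have h1 : Integrable (fun X : Fin n → Ω => ∏ u, (if X u ∈ C then c else (1 : ℝ)))
      (Measure.pi fun _ : Fin n => μ) :=
    Integrable.fintype_prod fun _ => hi
  have h2 : ∫ X : Fin n → Ω, ∏ u, (if X u ∈ C then c else (1 : ℝ)) ∂(Measure.pi fun _ => μ) =
      (1 + (c - 1) * μ.real C) ^ n := by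
    rw [integral_fintype_prod_eq_pow (ι := Fin n) (fun x => if x ∈ C then c else (1 : ℝ)), hI,
      Fintype.card_fin]
  simp only [prod_ite_eq] at h1 h2
  have h3 := mul_meas_ge_le_integral_of_nonneg
    (Eventually.of_forall fun X : Fin n → Ω => (by positivity : (0 : ℝ) ≤ c ^ cn C X)) h1 t
  rw [h2] at h3
  refine h3.trans ?_
  have h0 : 0 ≤ μ.real C := measureReal_nonneg
  have h0' : μ.real C ≤ 1 := measureReal_le_one
  have h4 : 0 ≤ 1 + (c - 1) * μ.real C := by nlinarith
  have h5 : 1 + (c - 1) * μ.real C ≤ Real.exp ((c - 1) * μ.real C) := by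
    have := Real.add_one_le_exp ((c - 1) * μ.real C)
    linarith
  calc (1 + (c - 1) * μ.real C) ^ n ≤ Real.exp ((c - 1) * μ.real C) ^ n :=
        pow_le_pow_left₀ h4 h5 n
    _ = Real.exp ((c - 1) * (n * μ.real C)) := by
        rw [← Real.exp_nat_mul]
        congr 1
        ring

theorem upper (μ : Measure Ω) [IsProbabilityMeasure μ] (C : Set Ω) (hC : MeasurableSet C)
    (n : ℕ) : (Measure.pi fun _ : Fin n => μ).real {X | 2 * (n * μ.real C) < cn C X} ≤
      Real.exp (-(n * μ.real C) / 8) := by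
  obtain ⟨N, hN⟩ : ∃ N : ℝ, N = n * μ.real C := ⟨_, rfl⟩
  have hN0 : 0 ≤ N := by
    rw [hN]
    exact mul_nonneg (Nat.cast_nonneg n) measureReal_nonneg
  have h1 := markov μ C hC n 2 (Real.exp (2 * N * Real.log 2)) (by norm_num)
  rw [← hN] at h1 ⊢
  have hsub : {X : Fin n → Ω | 2 * N < cn C X} ⊆
      {X | Real.exp (2 * N * Real.log 2) ≤ 2 ^ cn C X} := by
    intro X hX
    have hX' : 2 * N < cn C X := hX
    show Real.exp (2 * N * Real.log 2) ≤ 2 ^ cn C X
    rw [← Real.rpow_natCast, Real.rpow_def_of_pos (by norm_num : (0 : ℝ) < 2)]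
    apply Real.exp_le_exp.2
    have := Real.log_pos (by norm_num : (1 : ℝ) < 2)
    nlinarith
  have h2 := measureReal_mono (μ := Measure.pi fun _ : Fin n => μ) hsub
  have h3 : 0 < Real.exp (2 * N * Real.log 2) := Real.exp_pos _
  have h4 : (Measure.pi fun _ : Fin n => μ).real
      {X | Real.exp (2 * N * Real.log 2) ≤ 2 ^ cn C X} ≤
      Real.exp ((2 - 1) * N) / Real.exp (2 * N * Real.log 2) := by
    rw [le_div_iff₀ h3, mul_comm]
    exact h1
  refine h2.trans (h4.trans ?_)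
  rw [← Real.exp_sub]
  apply Real.exp_le_exp.2
  have := Real.log_two_gt_d9
  nlinarith

theorem lower (μ : Measure Ω) [IsProbabilityMeasure μ] (C : Set Ω) (hC : MeasurableSet C)
    (n : ℕ) : (Measure.pi fun _ : Fin n => μ).real {X | (cn C X : ℝ) < n * μ.real C / 2} ≤
      Real.exp (-(n * μ.real C) / 8) := by
  obtain ⟨N, hN⟩ : ∃ N : ℝ, N = n * μ.real C := ⟨_, rfl⟩
  have hN0 : 0 ≤ N := by
    rw [hN]
    exact mul_nonneg (Nat.cast_nonneg n) measureReal_nonneg
  have h1 := markov μ C hC n (1 / 2) (Real.exp (-(N / 2 * Real.log 2))) (by norm_num)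
  rw [← hN] at h1 ⊢
  have hsub : {X : Fin n → Ω | (cn C X : ℝ) < N / 2} ⊆
      {X | Real.exp (-(N / 2 * Real.log 2)) ≤ (1 / 2) ^ cn C X} := by
    intro X hX
    have hX' : (cn C X : ℝ) < N / 2 := hX
    show Real.exp (-(N / 2 * Real.log 2)) ≤ (1 / 2) ^ cn C X
    rw [← Real.rpow_natCast, Real.rpow_def_of_pos (by norm_num : (0 : ℝ) < 1 / 2)]
    apply Real.exp_le_exp.2
    have := Real.log_pos (by norm_num : (1 : ℝ) < 2)
    rw [one_div, Real.log_inv]
    nlinarith
  have h2 := measureReal_mono (μ := Measure.pi fun _ : Fin n => μ) hsub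
  have h3 : 0 < Real.exp (-(N / 2 * Real.log 2)) := Real.exp_pos _
  have h4 : (Measure.pi fun _ : Fin n => μ).real
      {X | Real.exp (-(N / 2 * Real.log 2)) ≤ (1 / 2) ^ cn C X} ≤
      Real.exp ((1 / 2 - 1) * N) / Real.exp (-(N / 2 * Real.log 2)) := by
    rw [le_div_iff₀ h3, mul_comm]
    exact h1
  refine h2.trans (h4.trans ?_)
  rw [← Real.exp_sub]
  apply Real.exp_le_exp.2
  have := Real.log_two_lt_d9
  nlinarith

end Count

section Cube

variable {d : ℕ}

/-- Half-open boxes. -/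
def bx (l u : Fin d → ℝ) : Set (Pt d) := {x | ∀ i, l i ≤ x i ∧ x i < u i}

theorem bx_pre (l u : Fin d → ℝ) :
    bx l u = (WithLp.ofLp : Pt d → (Fin d → ℝ)) ⁻¹' (Set.pi Set.univ fun i => Set.Ico (l i) (u i)) := by
  ext x
  simp [bx, Set.mem_pi]

theorem bx_meas (l u : Fin d → ℝ) : MeasurableSet (bx l u) := by
  rw [bx_pre]
  exact (PiLp.volume_preserving_ofLp (Fin d)).measurable
    (MeasurableSet.univ_pi fun i => measurableSet_Ico)

theorem vol_bx (l u : Fin d → ℝ) : volume (bx l u) = ∏ i, ENNReal.ofReal (u i - l i) := by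
  rw [bx_pre, (PiLp.volume_preserving_ofLp (Fin d)).measure_preimage
    (MeasurableSet.univ_pi fun i => measurableSet_Ico).nullMeasurableSet, Real.volume_pi_Ico]

theorem cube_pre : cube d = (WithLp.ofLp : Pt d → (Fin d → ℝ)) ⁻¹' (Set.Icc 0 1) := by
  ext x
  simp [cube, Pi.le_def, forall_and]

theorem cube_meas : MeasurableSet (cube d) := by
  rw [cube_pre]
  exact (PiLp.volume_preserving_ofLp (Fin d)).measurable measurableSet_Icc

theorem vol_cube : volume (cube d) = 1 := by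
  rw [cube_pre, (PiLp.volume_preserving_ofLp (Fin d)).measure_preimage
    measurableSet_Icc.nullMeasurableSet, Real.volume_Icc_pi]
  simp

instance unif_prob (d : ℕ) : IsProbabilityMeasure (unif d) := by
  refine ⟨?_⟩
  rw [unif, Measure.restrict_apply_univ, vol_cube]

theorem bx_sub_cube {l u : Fin d → ℝ} (hl : ∀ i, 0 ≤ l i) (hu : ∀ i, u i ≤ 1) :
    bx l u ⊆ cube d := fun x hx i => ⟨(hl i).trans (hx i).1, (hx i).2.le.trans (hu i)⟩

theorem unif_bx {l u : Fin d → ℝ} (hl : ∀ i, 0 ≤ l i) (hu : ∀ i, u i ≤ 1) :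
    unif d (bx l u) = ∏ i, ENNReal.ofReal (u i - l i) := by
  rw [unif, Measure.restrict_apply (bx_meas l u),
    Set.inter_eq_left.2 (bx_sub_cube hl hu), vol_bx]

theorem unif_half : unif d (bx (fun _ => 0) (fun _ => 1))ᶜ = 0 := by
  have h1 : unif d (bx (fun _ => 0) (fun _ => 1)) = 1 := by
    rw [unif_bx (fun _ => le_rfl) (fun _ => le_rfl)]
    simp
  rw [prob_compl_eq_zero_iff (bx_meas _ _)]
  exact h1

theorem cell_eq (I : ℕ) (a : Fin d → ℤ) : {x : Pt d | cellOf I x = a} =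
    bx (fun i => a i / (2 : ℝ) ^ I) (fun i => (a i + 1) / (2 : ℝ) ^ I) := by
  ext x
  have h2 : (0 : ℝ) < 2 ^ I := by positivity
  constructor
  · intro h i
    have h1 : ⌊(2 : ℝ) ^ I * x i⌋ = a i := congrFun h i
    rw [Int.floor_eq_iff] at h1
    show (a i : ℝ) / 2 ^ I ≤ x i ∧ x i < (a i + 1) / 2 ^ I
    rw [div_le_iff₀ h2, lt_div_iff₀ h2, mul_comm (x i)]
    exact h1
  · intro h
    funext i
    have h1 : (a i : ℝ) / 2 ^ I ≤ x i ∧ x i < (a i + 1) / 2 ^ I := h i
    rw [div_le_iff₀ h2, lt_div_iff₀ h2, mul_comm (x i)] at h1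
    exact Int.floor_eq_iff.2 h1

theorem cell_meas (I : ℕ) (a : Fin d → ℤ) : MeasurableSet {x : Pt d | cellOf I x = a} := by
  rw [cell_eq]
  exact bx_meas _ _

theorem unif_cell (I : ℕ) (a : Fin d → ℤ) (ha : ∀ i, 0 ≤ a i ∧ a i < 2 ^ I) :
    (unif d).real {x : Pt d | cellOf I x = a} = 1 / ((2 : ℝ) ^ I) ^ d := by
  have h2 : (0 : ℝ) < 2 ^ I := by positivity
  have h3 : unif d {x : Pt d | cellOf I x = a} = ENNReal.ofReal (1 / ((2 : ℝ) ^ I) ^ d) := by
    rw [cell_eq, unif_bx]
    · have e : ∀ i : Fin d, ((a i : ℝ) + 1) / 2 ^ I - a i / 2 ^ I = 1 / 2 ^ I := fun i => by ring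
      simp only [e]
      rw [Finset.prod_const, Finset.card_univ, Fintype.card_fin, ← ENNReal.ofReal_pow (by positivity),
        one_div_pow]
    · intro i
      have : (0 : ℝ) ≤ a i := by exact_mod_cast (ha i).1
      positivity
    · intro i
      rw [div_le_one h2]
      have : a i + 1 ≤ 2 ^ I := (ha i).2
      exact_mod_cast this
  rw [Measure.real, h3, ENNReal.toReal_ofReal (by positivity)]

theorem cell_range {x : Pt d} (hx : x ∈ bx (fun _ => 0) (fun _ => (1 : ℝ))) (I : ℕ) (i : Fin d) :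
    0 ≤ cellOf I x i ∧ cellOf I x i < 2 ^ I := by
  have h2 : (0 : ℝ) < 2 ^ I := by positivity
  obtain ⟨h0, h1⟩ := hx i
  have h0' : (0 : ℝ) ≤ x i := h0
  have h1' : x i < (1 : ℝ) := h1
  unfold cellOf
  constructor
  · exact Int.floor_nonneg.2 (by positivity)
  · rw [Int.floor_lt]
    push_cast
    nlinarith

end Cube

/-- The bad event is unlikely. -/
theorem bad_le (d n : ℕ) (α : ℝ) (hd : 1 ≤ d) (hn : 1 ≤ n) (hα : 0 < α) (hα1 : α < 1) :
    (Measure.pi fun _ : Fin n => unif d).real {X | ¬ Regular ((n : ℝ) ^ (1 - α)) X} ≤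
      (n + 1) * (n * (2 * Real.exp (-((n : ℝ) ^ α) / 8))) := by
  classical
  obtain ⟨P, hP⟩ : ∃ P : Measure (Fin n → Pt d), P = Measure.pi fun _ : Fin n => unif d := ⟨_, rfl⟩
  have hPp : IsProbabilityMeasure P := by rw [hP]; infer_instance
  have hn0 : (0 : ℝ) < n := by exact_mod_cast hn
  have hn1 : (1 : ℝ) ≤ n := by exact_mod_cast hn
  have hM : (n : ℝ) ^ (1 - α) ≤ n := by
    calc (n : ℝ) ^ (1 - α) ≤ (n : ℝ) ^ (1 : ℝ) :=
          Real.rpow_le_rpow_of_exponent_le hn1 (by linarith)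
      _ = n := Real.rpow_one _
  obtain ⟨Is, hIs⟩ : ∃ Is : Finset ℕ, Is = (range (n + 1)).filter
    fun I => ((2 : ℝ) ^ I) ^ d ≤ (n : ℝ) ^ (1 - α) := ⟨_, rfl⟩
  obtain ⟨As, hAs⟩ : ∃ As : ℕ → Finset (Fin d → ℤ),
    As = fun I => Fintype.piFinset fun _ : Fin d => Finset.Ico (0 : ℤ) (2 ^ I) := ⟨_, rfl⟩
  have hsub : {X : Fin n → Pt d | ¬ Regular ((n : ℝ) ^ (1 - α)) X} ⊆
      (⋃ u ∈ (univ : Finset (Fin n)), {X | X u ∈ (bx (fun _ : Fin d => (0 : ℝ)) (fun _ => 1))ᶜ}) ∪
      ⋃ I ∈ Is, ⋃ a ∈ As I,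
        ({X | 2 * (n * (unif d).real {x : Pt d | cellOf I x = a}) <
            cn {x : Pt d | cellOf I x = a} X} ∪
          {X | (cn {x : Pt d | cellOf I x = a} X : ℝ) <
            n * (unif d).real {x : Pt d | cellOf I x = a} / 2}) := by
    intro X hX
    by_contra hcon
    apply hX
    rw [Set.mem_union, not_or] at hcon
    obtain ⟨hc1, hc2⟩ := hcon
    have hin : ∀ u, X u ∈ bx (fun _ : Fin d => (0 : ℝ)) (fun _ => 1) := by
      intro u
      by_contra hu
      apply hc1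
      simp only [Set.mem_iUnion]
      exact ⟨u, Finset.mem_univ u, hu⟩
    refine ⟨fun v => bx_sub_cube (fun _ => le_rfl) (fun _ => le_rfl) (hin v), ?_⟩
    intro I hI v
    have hI2 : (I : ℝ) < n + 1 := by
      have h1 : (I : ℝ) < 2 ^ I := by exact_mod_cast Nat.lt_two_pow_self
      have h2 : (2 : ℝ) ^ I ≤ ((2 : ℝ) ^ I) ^ d := by
        have h3 : (1 : ℝ) ≤ 2 ^ I := one_le_pow₀ (by norm_num)
        exact le_self_pow₀ h3 (by omega)
      linarith
    have hIs' : I ∈ Is := by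
      rw [hIs, Finset.mem_filter, Finset.mem_range]
      exact ⟨by exact_mod_cast hI2, hI⟩
    have ha : cellOf I (X v) ∈ As I := by
      rw [hAs]
      rw [Fintype.mem_piFinset]
      intro i
      rw [Finset.mem_Ico]
      exact cell_range (hin v) I i
    have hv := unif_cell I (cellOf I (X v)) (fun i => cell_range (hin v) I i)
    have hc3 : ¬ (2 * (n * (unif d).real {x : Pt d | cellOf I x = cellOf I (X v)}) <
            cn {x : Pt d | cellOf I x = cellOf I (X v)} X) ∧
          ¬ ((cn {x : Pt d | cellOf I x = cellOf I (X v)} X : ℝ) <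
            n * (unif d).real {x : Pt d | cellOf I x = cellOf I (X v)} / 2) := by
      constructor
      · intro h
        apply hc2
        simp only [Set.mem_iUnion]
        exact ⟨I, hIs', _, ha, Or.inl h⟩
      · intro h
        apply hc2
        simp only [Set.mem_iUnion]
        exact ⟨I, hIs', _, ha, Or.inr h⟩
    rw [hv] at hc3
    have hcn : (#{u | cellOf I (X u) = cellOf I (X v)} : ℝ) =
        cn {x : Pt d | cellOf I x = cellOf I (X v)} X := by
      unfold cn
      congr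
    rw [hcn]
    obtain ⟨h1, h2⟩ := hc3
    push Not at h1 h2
    constructor
    · calc (n : ℝ) / ((2 : ℝ) ^ I) ^ d / 2 = n * (1 / ((2 : ℝ) ^ I) ^ d) / 2 := by ring
        _ ≤ _ := h2
    · calc (cn {x : Pt d | cellOf I x = cellOf I (X v)} X : ℝ) ≤ 2 * (n * (1 / ((2 : ℝ) ^ I) ^ d)) := h1
        _ = _ := by ring
  rw [← hP]
  have hz : ∀ u ∈ (univ : Finset (Fin n)),
      P.real {X | X u ∈ (bx (fun _ : Fin d => (0 : ℝ)) (fun _ => 1))ᶜ} = 0 := by
    intro u _
    have h1 : P {X | X u ∈ (bx (fun _ : Fin d => (0 : ℝ)) (fun _ => 1))ᶜ} = 0 := by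
      rw [hP]
      exact Measure.pi_eval_preimage_null _ unif_half
    rw [Measure.real, h1]
    rfl
  have hcell : ∀ I ∈ Is, ∀ a ∈ As I, P.real
      ({X | 2 * (n * (unif d).real {x : Pt d | cellOf I x = a}) <
            cn {x : Pt d | cellOf I x = a} X} ∪
          {X | (cn {x : Pt d | cellOf I x = a} X : ℝ) <
            n * (unif d).real {x : Pt d | cellOf I x = a} / 2}) ≤
      2 * Real.exp (-((n : ℝ) ^ α) / 8) := by
    intro I hI a ha
    rw [hIs, Finset.mem_filter] at hI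
    rw [hAs] at ha
    have ha' : ∀ i, 0 ≤ a i ∧ a i < 2 ^ I := by
      intro i
      have := Fintype.mem_piFinset.1 ha i
      rwa [Finset.mem_Ico] at this
    have hv := unif_cell I a ha'
    have hpos : (0 : ℝ) < ((2 : ℝ) ^ I) ^ d := by positivity
    have hN : (n : ℝ) ^ α ≤ n * (unif d).real {x : Pt d | cellOf I x = a} := by
      rw [hv, mul_one_div, le_div_iff₀ hpos]
      calc (n : ℝ) ^ α * ((2 : ℝ) ^ I) ^ d ≤ (n : ℝ) ^ α * (n : ℝ) ^ (1 - α) :=
            mul_le_mul_of_nonneg_left hI.2 (by positivity)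
        _ = n := by
            rw [← Real.rpow_add hn0]
            simp
    have hexp : Real.exp (-(n * (unif d).real {x : Pt d | cellOf I x = a}) / 8) ≤
        Real.exp (-((n : ℝ) ^ α) / 8) := by
      apply Real.exp_le_exp.2
      linarith
    have h1 := upper (unif d) _ (cell_meas I a) n
    have h2 := lower (unif d) _ (cell_meas I a) n
    rw [← hP] at h1 h2
    have h3 := measureReal_union_le (μ := P)
      {X | 2 * (n * (unif d).real {x : Pt d | cellOf I x = a}) <
            cn {x : Pt d | cellOf I x = a} X}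
      {X | (cn {x : Pt d | cellOf I x = a} X : ℝ) <
            n * (unif d).real {x : Pt d | cellOf I x = a} / 2}
    linarith
  have hcardA : ∀ I ∈ Is, (#(As I) : ℝ) ≤ n := by
    intro I hI
    rw [hIs, Finset.mem_filter] at hI
    rw [hAs]
    simp only [Fintype.card_piFinset, Int.card_Ico, sub_zero, Finset.prod_const, Finset.card_univ,
      Fintype.card_fin]
    have e : ((2 : ℤ) ^ I).toNat = 2 ^ I := by
      rw [show ((2 : ℤ) ^ I) = ((2 ^ I : ℕ) : ℤ) by push_cast; rfl, Int.toNat_natCast]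
    rw [e]
    push_cast
    exact hI.2.trans hM
  have hcardI : (#Is : ℝ) ≤ n + 1 := by
    have h1 : #Is ≤ n + 1 := by
      rw [hIs]
      exact (Finset.card_filter_le _ _).trans (by simp)
    exact_mod_cast h1
  have hE : 0 ≤ 2 * Real.exp (-((n : ℝ) ^ α) / 8) := by positivity
  calc P.real {X : Fin n → Pt d | ¬ Regular ((n : ℝ) ^ (1 - α)) X} ≤ _ := measureReal_mono hsub
    _ ≤ _ := measureReal_union_le _ _
    _ ≤ (∑ _u ∈ (univ : Finset (Fin n)), (0 : ℝ)) +
        ∑ I ∈ Is, ∑ _a ∈ As I, 2 * Real.exp (-((n : ℝ) ^ α) / 8) := by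
      refine add_le_add ((measureReal_biUnion_finset_le _ _).trans
        (Finset.sum_le_sum fun u hu => (hz u hu).le)) ((measureReal_biUnion_finset_le _ _).trans
        (Finset.sum_le_sum fun I hI => (measureReal_biUnion_finset_le _ _).trans
          (Finset.sum_le_sum fun a ha => hcell I hI a ha)))
    _ = ∑ I ∈ Is, #(As I) * (2 * Real.exp (-((n : ℝ) ^ α) / 8)) := by
      simp only [Finset.sum_const_zero, zero_add, Finset.sum_const, nsmul_eq_mul]
    _ ≤ ∑ _I ∈ Is, n * (2 * Real.exp (-((n : ℝ) ^ α) / 8)) :=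
      Finset.sum_le_sum fun I hI => mul_le_mul_of_nonneg_right (hcardA I hI) hE
    _ = #Is * (n * (2 * Real.exp (-((n : ℝ) ^ α) / 8))) := by
      rw [Finset.sum_const, nsmul_eq_mul]
    _ ≤ _ := mul_le_mul_of_nonneg_right hcardI (by positivity)

theorem tendsto_bad (α : ℝ) (hα : 0 < α) :
    Tendsto (fun n : ℕ => ((n : ℝ) + 1) * (n * (2 * Real.exp (-((n : ℝ) ^ α) / 8)))) atTop
      (nhds 0) := by
  have h1 := tendsto_rpow_mul_exp_neg_mul_atTop_nhds_zero (2 / α) (1 / 8) (by norm_num)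
  have h2 : Tendsto (fun n : ℕ => (n : ℝ) ^ α) atTop atTop :=
    (tendsto_rpow_atTop hα).comp tendsto_natCast_atTop_atTop
  have h3 := (h1.comp h2).const_mul 4
  rw [mul_zero] at h3
  refine squeeze_zero' (Eventually.of_forall fun n => by positivity) ?_ h3
  filter_upwards [eventually_ge_atTop 1] with n hn
  have hn1 : (1 : ℝ) ≤ n := by exact_mod_cast hn
  have hn0 : (0 : ℝ) < n := by linarith
  have e1 : ((n : ℝ) ^ α) ^ (2 / α) = (n : ℝ) ^ 2 := by
    rw [← Real.rpow_mul hn0.le, mul_div_cancel₀ _ hα.ne']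
    norm_cast
  have e2 : Real.exp (-((n : ℝ) ^ α) / 8) = Real.exp (-(1 / 8) * (n : ℝ) ^ α) := by
    congr 1
    ring
  show _ ≤ 4 * (((n : ℝ) ^ α) ^ (2 / α) * Real.exp (-(1 / 8) * (n : ℝ) ^ α))
  rw [e1, e2]
  have hE : 0 < Real.exp (-(1 / 8) * (n : ℝ) ^ α) := Real.exp_pos _
  have h5 : ((n : ℝ) + 1) * (n * (2 * Real.exp (-(1 / 8) * (n : ℝ) ^ α))) =
      (((n : ℝ) + 1) * n * 2) * Real.exp (-(1 / 8) * (n : ℝ) ^ α) := by ring
  have h6 : 4 * ((n : ℝ) ^ 2 * Real.exp (-(1 / 8) * (n : ℝ) ^ α)) =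
      (4 * (n : ℝ) ^ 2) * Real.exp (-(1 / 8) * (n : ℝ) ^ α) := by ring
  rw [h5, h6]
  refine mul_le_mul_of_nonneg_right ?_ hE.le
  nlinarith

end F1

/-- **F1, positions are regular with high probability.** -/
theorem regularLikely : RegularLikely := by
  intro d α hd hα hα1
  have h0 := F1.tendsto_bad α hα
  have h1 : Tendsto (fun n : ℕ => 1 - ENNReal.ofReal
      (((n : ℝ) + 1) * (n * (2 * Real.exp (-((n : ℝ) ^ α) / 8))))) atTop (nhds 1) := by
    have h2 := ENNReal.tendsto_ofReal h0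
    rw [ENNReal.ofReal_zero] at h2
    have h3 := ENNReal.Tendsto.sub (tendsto_const_nhds (x := (1 : ENNReal)) (f := atTop (α := ℕ)))
      h2 (Or.inl ENNReal.one_ne_top)
    rwa [tsub_zero] at h3
  refine tendsto_of_tendsto_of_tendsto_of_le_of_le' h1 tendsto_const_nhds ?_
    (Eventually.of_forall fun n => prob_le_one)
  filter_upwards [eventually_ge_atTop 1] with n hn
  have hbad := F1.bad_le d n α hd hn hα hα1
  have hb2 : (Measure.pi fun _ : Fin n => unif d) {X | ¬ Regular ((n : ℝ) ^ (1 - α)) X} ≤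
      ENNReal.ofReal (((n : ℝ) + 1) * (n * (2 * Real.exp (-((n : ℝ) ^ α) / 8)))) := by
    rw [← ENNReal.ofReal_toReal (measure_ne_top (Measure.pi fun _ : Fin n => unif d)
      {X | ¬ Regular ((n : ℝ) ^ (1 - α)) X})]
    exact ENNReal.ofReal_le_ofReal hbad
  rw [tsub_le_iff_right]
  calc (1 : ENNReal) = (Measure.pi fun _ : Fin n => unif d) Set.univ := measure_univ.symm
    _ ≤ (Measure.pi fun _ : Fin n => unif d)
        ({X | Regular ((n : ℝ) ^ (1 - α)) X} ∪ {X | ¬ Regular ((n : ℝ) ^ (1 - α)) X}) := by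
      refine measure_mono fun X _ => ?_
      exact Classical.em _
    _ ≤ _ := measure_union_le _ _
    _ ≤ _ := by gcongr

end MP329
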