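import Pool.Agent.Lib.MP_329b4d_pr.SpecK
import Pool.Agent.Lib.MP_329b4d_pr.A3Sprinkle
import Pool.Agent.Lib.MP_329b4d_pr.A7Coin
import Pool.Agent.Lib.MP_329b4d_pr.B2Tour
import Pool.Agent.Lib.MP_329b4d_pr.F1Regular

set_option autoImplicit false

/-!
# MP_329b4d_pr, K4: the upper tail of the tour length
-/

namespace MP329

open Finset MeasureTheory Filter

namespace K4

/-! ### Coins and sets of pairs -/

/-- The coins of a set of pairs. -/
def coins {n : ℕ} (S : Finset (Sym2 (Fin n))) : Sym2 (Fin n) → Bool := fun e => decide (e ∈ S)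

theorem filter_coins {n : ℕ} (S : Finset (Sym2 (Fin n))) :
    (univ.filter fun e => coins S e = true) = S := by
  ext e
  simp [coins]

theorem coins_filter {n : ℕ} (c : Sym2 (Fin n) → Bool) :
    coins (univ.filter fun e => c e = true) = c := by
  funext e
  simp [coins]

theorem law_eq (n d : ℕ) {p : ℝ} (h0 : 0 ≤ p) (h1 : p ≤ 1) {E : Set (Sample n d)}
    (hE : MeasurableSet E) :
    law n d p E = ∫⁻ X, ENNReal.ofReal (Pb p (fun S => (X, coins S) ∈ E))
      ∂(Measure.pi fun _ : Fin n => unif d) := by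
  have := coin_prob h0 h1
  unfold law
  rw [Measure.prod_apply hE]
  apply lintegral_congr
  intro X
  rw [← (coinEx (Sym2 (Fin n)) p h0 h1).2.2]
  congr 1
  ext c
  rw [Set.mem_ofPred_eq, coins_filter]
  rfl

theorem meas_geo (h8 : GeoLawFacts) (n d q : ℕ) (R : ℝ)
    (A : (Sym2 (Fin n) → Option (Fin q)) → Prop) :
    MeasurableSet {ω : Sample n d | A (geo q R ω.1 (present ω))} := by
  have : {ω : Sample n d | A (geo q R ω.1 (present ω))} =
      ⋃ S : Finset (Sym2 (Fin n)), {X | A (geo (d := d) q R X S)} ×ˢ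
        {c | (univ.filter fun e => c e = true) = S} := by
    ext ω
    simp [present]
  rw [this]
  exact MeasurableSet.iUnion fun S => (h8.meas n d q R S A).prod (Set.toFinite _).measurableSet

theorem law_geo (h8 : GeoLawFacts) (n d q : ℕ) {p : ℝ} (h0 : 0 ≤ p) (h1 : p ≤ 1) (R : ℝ)
    (A : (Sym2 (Fin n) → Option (Fin q)) → Prop) :
    law n d p {ω | A (geo q R ω.1 (present ω))} =
      ∫⁻ X, ENNReal.ofReal (Pb p (fun S => A (geo q R X S)))
        ∂(Measure.pi fun _ : Fin n => unif d) := by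
  rw [law_eq n d h0 h1 (meas_geo h8 n d q R A)]
  apply lintegral_congr
  intro X
  congr 2
  funext S
  have : present (n := n) (d := d) (X, coins S) = S := filter_coins S
  simp only [Set.mem_ofPred_eq, this]

/-! ### The core inequality -/

open Classical in
theorem point (n d : ℕ) (h6 : TourMeas) {p p₁ p₂ θ : ℝ} (h1 : 0 ≤ p₁) (h2 : 0 ≤ p₂)
    (h12 : p₁ + p₂ ≤ p) (hp : p ≤ 1) (hθ : 0 ≤ θ) (t : ENNReal) (X : Fin n → Pt d)
    (G : Finset (Sym2 (Fin n)) → Prop)
    (h : ∀ S₁, G S₁ → 1 - θ ≤ Pb p₂ (fun S => tourLength (X, coins (S₁ ∪ S)) ≤ t)) :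
    Pb p (fun S => t < tourLength (X, coins S)) ≤ θ + Pb p₁ (fun S => ¬ G S) := by
  have hp1 : p₁ ≤ 1 := by linarith
  have hp2 : p₂ ≤ 1 := by linarith
  have e1 : (fun S : Finset (Sym2 (Fin n)) => t < tourLength (X, coins S)) =
      fun S => ¬ (tourLength (X, coins S) ≤ t) := by
    funext S
    rw [not_le]
  rw [e1, Pb_not]
  have h3 := sprinkle (Sym2 (Fin n)) p₁ p₂ p h1 h2 h12 hp
    (fun S => if tourLength (X, coins S) ≤ t then (1 : ℝ) else 0) (by
      intro S T hST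
      have h4 : tourLength (X, coins T) ≤ tourLength (X, coins S) := by
        refine h6.mono n d X _ _ fun e he => ?_
        have : e ∈ S := of_decide_eq_true he
        exact decide_eq_true (hST this)
      by_cases h5 : tourLength (X, coins S) ≤ t
      · simp [h5, h4.trans h5]
      · simp only [h5, if_false]
        split_ifs <;> norm_num)
  have h4 : Ex p (fun S => if tourLength (X, coins S) ≤ t then (1 : ℝ) else 0) =
      Pb p (fun S => tourLength (X, coins S) ≤ t) := by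
    unfold Pb
    apply Ex_congr
    intro S
    by_cases h5 : tourLength (X, coins S) ≤ t <;> simp [h5]
  rw [h4] at h3
  have h5 : Ex p₁ (fun S₁ => (1 - θ) - (if ¬ G S₁ then (1 : ℝ) else 0)) ≤
      Ex p₁ (fun S₁ => Ex p₂ (fun S₂ => if tourLength (X, coins (S₁ ∪ S₂)) ≤ t
        then (1 : ℝ) else 0)) := by
    apply Ex_mono h1 hp1
    intro S₁
    by_cases hG : G S₁
    · have h7 := h S₁ hG
      have h8 : Pb p₂ (fun S => tourLength (X, coins (S₁ ∪ S)) ≤ t) =
          Ex p₂ (fun S₂ : Finset (Sym2 (Fin n)) =>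
            if tourLength (X, coins (S₁ ∪ S₂)) ≤ t then (1 : ℝ) else 0) := by
        unfold Pb
        apply Ex_congr
        intro S
        by_cases h5 : tourLength (X, coins (S₁ ∪ S)) ≤ t <;> simp [h5]
      simp only [hG, not_true_eq_false, if_false, sub_zero]
      rw [← h8]
      exact h7
    · simp only [hG, not_false_eq_true, if_true]
      have h6 : 0 ≤ Ex p₂ (fun S₂ : Finset (Sym2 (Fin n)) =>
          if tourLength (X, coins (S₁ ∪ S₂)) ≤ t then (1 : ℝ) else 0) :=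
        Ex_nonneg h2 hp2 fun S => by split_ifs <;> norm_num
      linarith
  rw [Ex_sub, Ex_const] at h5
  have h6 : Ex p₁ (fun S => if ¬ G S then (1 : ℝ) else 0) = Pb p₁ (fun S => ¬ G S) := by
    unfold Pb
    apply Ex_congr
    intro S
    by_cases h5 : G S <;> simp [h5]
  rw [h6] at h5
  linarith

theorem core (h6 : TourMeas) (h8 : GeoLawFacts) (n d q : ℕ) {p p₁ p₂ θ : ℝ} (h1 : 0 ≤ p₁)
    (h2 : 0 ≤ p₂) (h12 : p₁ + p₂ ≤ p) (hp : p ≤ 1) (hθ : 0 ≤ θ) (t : ENNReal) (R : ℝ)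
    (A : (Sym2 (Fin n) → Option (Fin q)) → Prop) (Reg : (Fin n → Pt d) → Prop)
    (h : ∀ X, Reg X → ∀ S₁, A (geo q R X S₁) →
      1 - θ ≤ Pb p₂ (fun S => tourLength (X, coins (S₁ ∪ S)) ≤ t)) :
    law n d p {ω | t < tourLength ω} ≤ ENNReal.ofReal θ +
      law n d p₁ {ω | ¬ A (geo q R ω.1 (present ω))} +
      (Measure.pi fun _ : Fin n => unif d) {X | ¬ Reg X} := by
  have hp1 : p₁ ≤ 1 := by linarith
  have hup := h8.unif_prob d
  have hm : MeasurableSet {ω : Sample n d | t < tourLength ω} :=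
    measurableSet_lt measurable_const (h6.measurable n d)
  rw [law_eq n d (by linarith) hp hm, law_geo h8 n d q h1 hp1 R (fun g => ¬ A g)]
  have hmeas : Measurable fun X : Fin n → Pt d =>
      ENNReal.ofReal (Pb p₁ (fun S => ¬ A (geo q R X S))) := by
    refine Measurable.ennreal_ofReal ?_
    unfold Pb Ex
    refine Finset.measurable_sum _ fun S _ => ?_
    refine Measurable.const_mul ?_ _
    exact Measurable.ite (h8.meas n d q R S fun g => ¬ A g) measurable_const measurable_const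
  calc ∫⁻ X, ENNReal.ofReal (Pb p (fun S => (X, coins S) ∈ {ω : Sample n d | t < tourLength ω}))
        ∂(Measure.pi fun _ : Fin n => unif d)
      ≤ ∫⁻ X, (ENNReal.ofReal θ + ENNReal.ofReal (Pb p₁ (fun S => ¬ A (geo q R X S))) +
          {X | ¬ Reg X}.indicator 1 X) ∂(Measure.pi fun _ : Fin n => unif d) := by
        apply lintegral_mono
        intro X
        by_cases hX : Reg X
        · have h3 := point n d h6 h1 h2 h12 hp hθ t X (fun S => A (geo q R X S)) (h X hX)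
          calc ENNReal.ofReal (Pb p (fun S => (X, coins S) ∈ {ω : Sample n d | t < tourLength ω}))
              ≤ ENNReal.ofReal (θ + Pb p₁ (fun S => ¬ A (geo q R X S))) :=
                ENNReal.ofReal_le_ofReal h3
            _ = ENNReal.ofReal θ + ENNReal.ofReal (Pb p₁ (fun S => ¬ A (geo q R X S))) :=
                ENNReal.ofReal_add hθ (Pb_nonneg h1 hp1 _)
            _ ≤ _ := le_self_add
        · have h3 : ({X | ¬ Reg X} : Set (Fin n → Pt d)).indicator
              (1 : (Fin n → Pt d) → ENNReal) X = 1 := by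
            rw [Set.indicator_of_mem (by exact hX)]
            rfl
          have h4 : ENNReal.ofReal (Pb p (fun S => (X, coins S) ∈
              {ω : Sample n d | t < tourLength ω})) ≤ 1 := by
            rw [← ENNReal.ofReal_one]
            exact ENNReal.ofReal_le_ofReal (Pb_le_one (by linarith) hp _)
          exact h4.trans (h3.symm.le.trans le_add_self)
    _ = ∫⁻ X, (ENNReal.ofReal θ + ENNReal.ofReal (Pb p₁ (fun S => ¬ A (geo q R X S))))
          ∂(Measure.pi fun _ : Fin n => unif d) +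
        ∫⁻ X, {X | ¬ Reg X}.indicator 1 X ∂(Measure.pi fun _ : Fin n => unif d) :=
        lintegral_add_left (measurable_const.add hmeas) _
    _ = ENNReal.ofReal θ + ∫⁻ X, ENNReal.ofReal (Pb p₁ (fun S => ¬ A (geo q R X S)))
          ∂(Measure.pi fun _ : Fin n => unif d) +
        ∫⁻ X, {X | ¬ Reg X}.indicator 1 X ∂(Measure.pi fun _ : Fin n => unif d) := by
        rw [lintegral_add_left measurable_const, lintegral_const, measure_univ, mul_one]
    _ ≤ _ := by
        gcongr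
        exact lintegral_indicator_one_le _

/-! ### From a good graph to a cheap cover -/

theorem det (h2 : CheapCover) {n d q g₀ : ℕ} (X : Fin n → Pt d) (S : Finset (Sym2 (Fin n)))
    {K A β η δ s' : ℝ} (hq : 1 ≤ q) (hg : 1 ≤ g₀) (hK : 0 < K) (hs' : 0 < s')
    (hKδ : K * δ = β + 1) (hη1 : η ≤ 1) (hKq : K / q ≤ η / 32) (hKg : 2 * K / g₀ ≤ η / 32)
    (hKA : K * (1 - A) ≤ β)
    (hW : (A - η / (32 * K)) * n ≤ W (geo q (K * s') X S))
    (hN : (nsc (gEdges (geo q (K * s') X S)) g₀ : ℝ) ≤ η / (64 * K) * n) :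
    ∃ L, IsCover L ∧ edgesL L ⊆ S ∧ cost X (edgesL L) ≤ s' * n * (β + η / 8) ∧
      (L.length : ℝ) ≤ δ * n := by
  obtain ⟨L, hL, hLS, hc⟩ := h2 (Fin n) d q g₀ (K * s') X S hq hg (by positivity)
  rw [Fintype.card_fin] at hc
  have hn0 : (0 : ℝ) ≤ n := Nat.cast_nonneg n
  have hbd : cost X (edgesL L) + K * s' * L.length ≤ s' * n * (β + η / 8) := by
    refine hc.trans ?_
    have h3 : K * s' * ((n : ℝ) - W (geo q (K * s') X S) + (n : ℝ) / q +
        2 * ((n : ℝ) / g₀ + nsc (gEdges (geo q (K * s') X S)) g₀)) ≤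
        K * s' * ((n : ℝ) - (A - η / (32 * K)) * n + (n : ℝ) / q +
        2 * ((n : ℝ) / g₀ + η / (64 * K) * n)) := by
      refine mul_le_mul_of_nonneg_left ?_ (by positivity)
      linarith
    refine h3.trans ?_
    have h4 : K * s' * ((n : ℝ) - (A - η / (32 * K)) * n + (n : ℝ) / q +
        2 * ((n : ℝ) / g₀ + η / (64 * K) * n)) =
        s' * n * (K * (1 - A) + η / 32 + K / q + 2 * K / g₀ + η / 32) := by
      field_simp
      ring
    rw [h4]
    refine mul_le_mul_of_nonneg_left ?_ (by positivity)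
    linarith
  have hc0 : 0 ≤ cost X (edgesL L) := by
    unfold cost
    refine Finset.sum_nonneg fun e _ => ?_
    induction e using Sym2.ind with
    | _ a b => exact (dist_nonneg : 0 ≤ dist (X a) (X b))
  refine ⟨L, hL, hLS, ?_, ?_⟩
  · have : 0 ≤ K * s' * L.length := by positivity
    linarith
  · have h5 : K * s' * L.length ≤ K * s' * (δ * n) := by
      calc K * s' * L.length ≤ s' * n * (β + η / 8) := by linarith
        _ ≤ s' * n * (β + 1) := mul_le_mul_of_nonneg_left (by linarith) (by positivity)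
        _ = K * s' * (δ * n) := by rw [← hKδ]; ring
    exact le_of_mul_le_mul_left h5 (by positivity)

theorem step (h2 : CheapCover) {n d q g₀ : ℕ} (X : Fin n → Pt d) (S₁ : Finset (Sym2 (Fin n)))
    {K A β η δ s x K₂ p ε θ : ℝ} (hn0 : (0 : ℝ) < n) (hs0 : 0 < s) (hx0 : 0 < x) (hβ : 0 ≤ β)
    (hη : 0 < η) (hη1 : η ≤ 1) (hq : 1 ≤ q) (hg : 1 ≤ g₀) (hK : 0 < K)
    (hKδ : K * δ = β + 1) (hKq : K / q ≤ η / 32) (hKg : 2 * K / g₀ ≤ η / 32)
    (hKA : K * (1 - A) ≤ β) (hxβ : x * (β + η / 8) ≤ β + η / 2)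
    (hsq : K₂ * √δ ≤ η / 4) (hp0 : 0 ≤ p) (hp1 : p ≤ 1) (hε0 : 0 ≤ ε) (hε1 : ε ≤ 1 / 2)
    (hpatch : ∀ L : List (List (Fin n)), IsCover L →
        (L.length : ℝ) ≤ δ * n → cost X (edgesL L) ≤ 2 * (β + 1) * n * s →
        1 - θ ≤ Pb (ε * p) (fun S => ∃ T : List (Fin n), IsTour T ∧
          tourEdges T ⊆ edgesL L ∪ S ∧
          cost X (tourEdges T) ≤ cost X (edgesL L) + K₂ * √δ * n * s))
    (hW : (A - 2 * (η / (64 * K))) * n ≤ W (geo q (K * (x * s)) X S₁))
    (hcyc : (nsc (gEdges (geo q (K * (x * s)) X S₁)) g₀ : ℝ) ≤ η / (64 * K) * n) :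
    1 - θ ≤ Pb (ε * p) (fun S => tourLength (X, coins (S₁ ∪ S)) ≤
      ENNReal.ofReal ((β + η) * n * s)) := by
  have e2 : (A - 2 * (η / (64 * K))) = (A - η / (32 * K)) := by
    have : η / (32 * K) = 2 * (η / (64 * K)) := by
      field_simp
      norm_num
    rw [this]
  rw [e2] at hW
  obtain ⟨L, hL, hLS, hLc, hLl⟩ := det h2 X S₁ hq hg hK (s' := x * s) (by positivity)
    hKδ hη1 hKq hKg hKA hW hcyc
  have hns : 0 ≤ (n : ℝ) * s := by positivity
  have hLc2 : cost X (edgesL L) ≤ (β + η / 2) * (n * s) := by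
    calc cost X (edgesL L) ≤ x * s * n * (β + η / 8) := hLc
      _ = x * (β + η / 8) * (n * s) := by ring
      _ ≤ (β + η / 2) * (n * s) := mul_le_mul_of_nonneg_right hxβ hns
  have hLc3 : cost X (edgesL L) ≤ 2 * (β + 1) * n * s := by
    calc cost X (edgesL L) ≤ (β + η / 2) * (n * s) := hLc2
      _ ≤ (2 * (β + 1)) * (n * s) := mul_le_mul_of_nonneg_right (by linarith) hns
      _ = _ := by ring
  have h5 := hpatch L hL hLl hLc3
  have hεp : ε * p ≤ 1 := by
    calc ε * p ≤ 1 * 1 := mul_le_mul (by linarith) hp1 hp0 zero_le_one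
      _ = 1 := one_mul 1
  refine h5.trans (Pb_mono (mul_nonneg hε0 hp0) hεp ?_)
  rintro S ⟨T, hT, hTS, hTc⟩
  have h6' := (tourList n d (X, coins (S₁ ∪ S))).1 T hT (by
    have : (univ.filter fun e => coins (S₁ ∪ S) e = true) = S₁ ∪ S := filter_coins _
    rw [this]
    exact hTS.trans (Finset.union_subset_union_left hLS))
  refine h6'.trans (ENNReal.ofReal_le_ofReal ?_)
  calc cost X (tourEdges T) ≤ cost X (edgesL L) + K₂ * √δ * n * s := hTc
    _ = cost X (edgesL L) + (K₂ * √δ) * (n * s) := by ring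
    _ ≤ (β + η / 2) * (n * s) + η / 4 * (n * s) :=
        add_le_add hLc2 (mul_le_mul_of_nonneg_right hsq hns)
    _ = (β + η / 2 + η / 4) * (n * s) := by ring
    _ ≤ (β + η) * (n * s) := mul_le_mul_of_nonneg_right (by linarith) hns
    _ = (β + η) * n * s := by ring

/-! ### The good event is likely -/

theorem law_toReal_eq_sum (h8 : GeoLawFacts) (n d q : ℕ) {p : ℝ} (h0 : 0 ≤ p) (h1 : p ≤ 1) (R : ℝ)
    (A : (Sym2 (Fin n) → Option (Fin q)) → Prop) [DecidablePred A] :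
    (law n d p {ω | A (geo q R ω.1 (present ω))}).toReal =
      ∑ g, geoLaw n d q p R g * (if A g then 1 else 0) := by
  rw [h8.prob n d q p R h0 h1 A, h8.integral n d q p R h0 h1 (fun g => if A g then 1 else 0)]
  refine integral_congr_ae (Eventually.of_forall fun X => ?_)
  show Pb p (fun S => A (geo q R X S)) = Ex p (fun S => if A (geo q R X S) then 1 else 0)
  unfold Pb
  apply Ex_congr
  intro S
  by_cases h5 : A (geo q R X S) <;> simp [h5]

/-- Markov's inequality for the number of vertices on short cycles. -/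
theorem cyc_le (h4 : Moments) (h8 : GeoLawFacts) {n d q g₀ : ℕ} {p K η₂ : ℝ} (hn : 1 ≤ n)
    (hd : 1 ≤ d) (hq : 1 ≤ q) (h0 : 0 < p) (h1 : p ≤ 1) (hK : 0 < K) (hη : 0 < η₂) :
    (law n d p {ω | ¬ ((nsc (gEdges (geo q (K * unit d n p) ω.1 (present ω))) g₀ : ℝ) ≤
      η₂ * n)}).toReal ≤ p * ((∑ j ∈ range g₀, vK d K ^ j) / η₂) := by
  classical
  have hn0 : (0 : ℝ) < n := by exact_mod_cast hn
  rw [law_toReal_eq_sum h8 n d q h0.le h1 (K * unit d n p)
    (fun g => ¬ ((nsc (gEdges g) g₀ : ℝ) ≤ η₂ * n))]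
  have h3 := h4.cyc n d q g₀ p K hn hd hq h0 h1 hK
  have h5 : (η₂ * n) * ∑ g, geoLaw n d q p (K * unit d n p) g *
      (if ¬ ((nsc (gEdges g) g₀ : ℝ) ≤ η₂ * n) then 1 else 0) ≤
      ∑ g, geoLaw n d q p (K * unit d n p) g * (nsc (gEdges g) g₀ : ℝ) := by
    rw [Finset.mul_sum]
    refine Finset.sum_le_sum fun g _ => ?_
    have hg := h8.nonneg n d q p (K * unit d n p) g
    have hc : (0 : ℝ) ≤ nsc (gEdges g) g₀ := Nat.cast_nonneg _
    by_cases h : (nsc (gEdges g) g₀ : ℝ) ≤ η₂ * n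
    · rw [if_neg (not_not.2 h), mul_zero, mul_zero]
      exact mul_nonneg hg hc
    · rw [if_pos h, mul_one, mul_comm]
      exact mul_le_mul_of_nonneg_left (not_le.1 h).le hg
  have h6 := h5.trans h3
  have h7 : (η₂ * n) * ∑ g, geoLaw n d q p (K * unit d n p) g *
      (if ¬ ((nsc (gEdges g) g₀ : ℝ) ≤ η₂ * n) then 1 else 0) ≤
      (η₂ * n) * (p * ((∑ j ∈ range g₀, vK d K ^ j) / η₂)) := by
    refine h6.trans (le_of_eq ?_)
    field_simp
  exact le_of_mul_le_mul_left h7 (show 0 < η₂ * (n : ℝ) by positivity)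

theorem good_likely (h3 : Concentration) (h4 : Moments) (h8 : GeoLawFacts) {d q g₀ : ℕ}
    {K A η₁ : ℝ} {pp : ℕ → ℝ} (hd : 1 ≤ d) (hq : 1 ≤ q) (hK : 0 < K) (hη : 0 < η₁)
    (hgood : GoodSeq pp) (hA : IsLim d q K A) :
    Tendsto (fun n : ℕ => (law n d (pp n) {ω | ¬ ((A - 2 * η₁) * n ≤
        W (geo q (K * unit d n (pp n)) ω.1 (present ω)) ∧
        (nsc (gEdges (geo q (K * unit d n (pp n)) ω.1 (present ω))) g₀ : ℝ) ≤ η₁ * n)}).toReal)
      atTop (nhds 0) := by
  have hc := h3 d q K η₁ pp hd hq hK hη hgood.pos hgood.infty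
  have hl := hA pp hgood
  have hz : Tendsto (fun n : ℕ => pp n * ((∑ j ∈ range g₀, vK d K ^ j) / η₁)) atTop (nhds 0) := by
    have := hgood.zero.mul_const ((∑ j ∈ range g₀, vK d K ^ j) / η₁)
    rwa [zero_mul] at this
  have hsum := hc.add hz
  rw [add_zero] at hsum
  refine squeeze_zero' (Eventually.of_forall fun n => ENNReal.toReal_nonneg) ?_ hsum
  have hev : ∀ᶠ n : ℕ in atTop, A - η₁ < meanW (geoLaw n d q (pp n) (K * unit d n (pp n))) :=
    hl.eventually (lt_mem_nhds (by linarith))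
  filter_upwards [hev, eventually_ge_atTop 1] with n h1 hn
  have hn0 : (0 : ℝ) < n := by exact_mod_cast hn
  have hprob := h8.law_prob n d (pp n) (hgood.pos n).1.le (hgood.pos n).2
  have hcyc := cyc_le h4 h8 (g₀ := g₀) hn hd hq (hgood.pos n).1 (hgood.pos n).2 hK hη
  refine le_trans ?_ (add_le_add_right hcyc _)
  have hsub : {ω : Sample n d | ¬ ((A - 2 * η₁) * n ≤
        W (geo q (K * unit d n (pp n)) ω.1 (present ω)) ∧
        (nsc (gEdges (geo q (K * unit d n (pp n)) ω.1 (present ω))) g₀ : ℝ) ≤ η₁ * n)} ⊆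
      {ω | η₁ * n ≤ |W (geo q (K * unit d n (pp n)) ω.1 (present ω)) -
        n * meanW (geoLaw n d q (pp n) (K * unit d n (pp n)))|} ∪
      {ω | ¬ ((nsc (gEdges (geo q (K * unit d n (pp n)) ω.1 (present ω))) g₀ : ℝ) ≤
      η₁ * n)} := by
    intro ω hω
    by_contra hcon
    rw [Set.mem_union, not_or] at hcon
    obtain ⟨hc1, hc2⟩ := hcon
    rw [Set.mem_ofPred_eq, not_not] at hc2
    rw [Set.mem_ofPred_eq, not_le, abs_lt] at hc1
    apply hω
    refine ⟨?_, hc2⟩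
    nlinarith [hc1.1]
  have h5 := measureReal_mono (μ := law n d (pp n)) hsub
  exact h5.trans (measureReal_union_le _ _)

/-! ### Numbers -/

theorem pow_facts (α : ℝ) (hα : 0 < α) (n : ℕ) : 0 ≤ (n : ℝ) ^ (-α) ∧ (n : ℝ) ^ (-α) ≤ 1 := by
  refine ⟨Real.rpow_nonneg (Nat.cast_nonneg n) _, ?_⟩
  rcases Nat.eq_zero_or_pos n with rfl | hn
  · rw [Nat.cast_zero, Real.zero_rpow (by linarith)]
    norm_num
  · exact Real.rpow_le_one_of_one_le_of_nonpos (by exact_mod_cast hn) (by linarith)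

/-- The admissible sequence. -/
noncomputable def seq (ε α : ℝ) (n : ℕ) : ℝ := if n = 0 then 1 else (1 - ε) * (n : ℝ) ^ (-α)

theorem seq_good {ε α : ℝ} (hε : 0 < ε) (hε1 : ε ≤ 1 / 2) (hα : 0 < α) (hα1 : α < 1) :
    GoodSeq (seq ε α) := by
  have hev : ∀ᶠ n : ℕ in atTop, (1 - ε) * (n : ℝ) ^ (-α) = seq ε α n := by
    filter_upwards [eventually_ge_atTop 1] with n hn
    unfold seq
    rw [if_neg (by omega)]
  constructor
  · intro n
    unfold seq
    split_ifs with h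
    · norm_num
    · have hn : 0 < (n : ℝ) := by exact_mod_cast Nat.pos_of_ne_zero h
      have h2 := (pow_facts α hα n).2
      have h3 : 0 < (n : ℝ) ^ (-α) := Real.rpow_pos_of_pos hn _
      constructor
      · exact mul_pos (by linarith) h3
      · nlinarith
  · have h1 : Tendsto (fun n : ℕ => (n : ℝ) ^ (-α)) atTop (nhds 0) :=
      (tendsto_rpow_neg_atTop hα).comp tendsto_natCast_atTop_atTop
    have h2 := h1.const_mul (1 - ε)
    rw [mul_zero] at h2
    exact h2.congr' hev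
  · have h1 : Tendsto (fun n : ℕ => (n : ℝ) ^ (1 - α)) atTop atTop :=
      (tendsto_rpow_atTop (by linarith)).comp tendsto_natCast_atTop_atTop
    have h2 := h1.const_mul_atTop (show 0 < 1 - ε by linarith)
    refine h2.congr' ?_
    filter_upwards [hev, eventually_ge_atTop 1] with n hn hn1
    have hn0 : 0 < (n : ℝ) := by exact_mod_cast hn1
    rw [← hn, Real.rpow_sub hn0, Real.rpow_one, Real.rpow_neg hn0.le]
    field_simp

theorem unit_scale {d n : ℕ} {c p : ℝ} (hc : 0 ≤ c) (hp : 0 ≤ p) :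
    unit d n (c * p) = c ^ (-(1 : ℝ) / d) * unit d n p := by
  unfold unit
  rw [← Real.mul_rpow hc (by positivity)]
  congr 1
  ring

theorem factor_le {d : ℕ} (hd : 1 ≤ d) {ε : ℝ} (hε : 0 < ε) (hε1 : ε ≤ 1 / 2) :
    (1 - ε) ^ (-(1 : ℝ) / d) ≤ (1 - ε)⁻¹ := by
  have hd1 : (1 : ℝ) ≤ d := by exact_mod_cast hd
  rw [← Real.rpow_neg_one]
  apply Real.rpow_le_rpow_of_exponent_ge (by linarith) (by linarith)
  rw [neg_div, neg_le_neg_iff, div_le_one (by linarith)]
  exact hd1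

theorem upper_one (h1 : PatchTheorem) (h2 : CheapCover) (h3 : Concentration) (h4 : Moments)
    (h6 : TourMeas) (h7 : LimitExists) (h8 : GeoLawFacts)
    (d : ℕ) (α β η : ℝ) (hd : 1 ≤ d) (hα : 0 < α) (hα1 : α < 1) (hβ : 0 ≤ β) (hη : 0 < η)
    (hη1 : η ≤ 1)
    (hlim : ∀ (q : ℕ) (K A : ℝ), 1 ≤ q → 0 < K → IsLim d q K A → K * (1 - A) ≤ β) :
    Tendsto (fun n : ℕ => ((law n d ((n : ℝ) ^ (-α))) {ω |
      ENNReal.ofReal ((β + η) * n * unit d n ((n : ℝ) ^ (-α))) < tourLength ω}).toReal)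
      atTop (nhds 0) := by
  -- the choice of `ε`
  obtain ⟨ε, hε⟩ : ∃ ε : ℝ, ε = η / (4 * (β + 1)) := ⟨_, rfl⟩
  have hε0 : 0 < ε := by rw [hε]; positivity
  have hεβ : ε * (β + 1) = η / 4 := by
    rw [hε]
    field_simp
  have hε1 : ε ≤ 1 / 2 := by nlinarith
  obtain ⟨x, hx⟩ : ∃ x : ℝ, x = (1 - ε) ^ (-(1 : ℝ) / d) := ⟨_, rfl⟩
  have hx0 : 0 < x := by rw [hx]; exact Real.rpow_pos_of_pos (by linarith) _
  have hxle : x ≤ (1 - ε)⁻¹ := by rw [hx]; exact factor_le hd hε0 hε1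
  have hxe : x * (1 - ε) ≤ 1 := by
    have h0 : (1 - ε)⁻¹ * (1 - ε) = 1 := inv_mul_cancel₀ (by linarith)
    calc x * (1 - ε) ≤ (1 - ε)⁻¹ * (1 - ε) := mul_le_mul_of_nonneg_right hxle (by linarith)
      _ = 1 := h0
  have hx2 : x ≤ 2 := by nlinarith
  have hxβ : x * (β + η / 8) ≤ β + η / 2 := by
    have h5 : β + η / 8 ≤ (1 - ε) * (β + η / 2) := by nlinarith
    calc x * (β + η / 8) ≤ x * ((1 - ε) * (β + η / 2)) := mul_le_mul_of_nonneg_left h5 hx0.le
      _ = x * (1 - ε) * (β + η / 2) := by ring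
      _ ≤ 1 * (β + η / 2) := mul_le_mul_of_nonneg_right hxe (by positivity)
      _ = _ := one_mul _
  rw [Metric.tendsto_atTop']
  intro e he
  -- constants
  obtain ⟨K₂, hK₂, hpatch⟩ := h1 d α ε (2 * (β + 1)) (e / 4) hd hα hα1 hε0 (by linarith)
    (by positivity) (by positivity)
  obtain ⟨δ, hδ⟩ : ∃ δ : ℝ, δ = (η / (4 * (K₂ + 1))) ^ 2 := ⟨_, rfl⟩
  have hr0 : 0 < η / (4 * (K₂ + 1)) := by positivity
  have hr1 : η / (4 * (K₂ + 1)) ≤ 1 := by
    rw [div_le_one (by positivity)]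
    linarith
  have hδ0 : 0 < δ := by rw [hδ]; positivity
  have hδ1 : δ ≤ 1 := by rw [hδ]; exact pow_le_one₀ hr0.le hr1
  have hsq : K₂ * √δ ≤ η / 4 := by
    rw [hδ, Real.sqrt_sq hr0.le, mul_div_assoc', div_le_div_iff₀ (by positivity) (by norm_num)]
    nlinarith
  obtain ⟨n₀, hn₀⟩ := hpatch δ hδ0 hδ1
  obtain ⟨K, hK⟩ : ∃ K : ℝ, K = (β + 1) / δ := ⟨_, rfl⟩
  have hK0 : 0 < K := by rw [hK]; positivity
  have hKδ : K * δ = β + 1 := by
    rw [hK]
    field_simp
  obtain ⟨q, hq⟩ := exists_nat_ge (32 * K / η)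
  obtain ⟨g₀, hg₀⟩ := exists_nat_ge (64 * K / η)
  have hq0 : (0 : ℝ) < q := lt_of_lt_of_le (by positivity) hq
  have hg0 : (0 : ℝ) < g₀ := lt_of_lt_of_le (by positivity) hg₀
  have hq1 : 1 ≤ q := by exact_mod_cast hq0
  have hg1 : 1 ≤ g₀ := by exact_mod_cast hg0
  have hKq : K / q ≤ η / 32 := by
    rw [div_le_iff₀ hη] at hq
    rw [div_le_div_iff₀ hq0 (by norm_num)]
    linarith
  have hKg : 2 * K / g₀ ≤ η / 32 := by
    rw [div_le_iff₀ hη] at hg₀
    rw [div_le_div_iff₀ hg0 (by norm_num)]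
    linarith
  obtain ⟨A, hA, -, -, -⟩ := h7 d q K hd hq1 hK0
  have hKA := hlim q K A hq1 hK0 hA
  have hη1' : 0 < η / (64 * K) := by positivity
  have hlike := good_likely h3 h4 h8 (g₀ := g₀) hd hq1 hK0 hη1' (seq_good hε0 hε1 hα hα1) hA
  have hbad := F1.tendsto_bad α hα
  have hev1 := hlike.eventually (gt_mem_nhds (show (0 : ℝ) < e / 4 by positivity))
  have hev2 := hbad.eventually (gt_mem_nhds (show (0 : ℝ) < e / 4 by positivity))
  obtain ⟨N, hN⟩ := eventually_atTop.1 (hev1.and hev2)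
  refine ⟨max N (max n₀ 1), fun n hn => ?_⟩
  have hnN : N ≤ n := (le_max_left _ _).trans hn.le
  have hnn : n₀ ≤ n := ((le_max_left _ _).trans (le_max_right _ _)).trans hn.le
  have hn1 : 1 ≤ n := ((le_max_right _ _).trans (le_max_right _ _)).trans hn.le
  have hn0 : (0 : ℝ) < n := by exact_mod_cast hn1
  obtain ⟨hg1', hg2'⟩ := hN n hnN
  obtain ⟨p, hp⟩ : ∃ p : ℝ, p = (n : ℝ) ^ (-α) := ⟨_, rfl⟩
  have hp0 : 0 < p := by rw [hp]; exact Real.rpow_pos_of_pos hn0 _
  have hp1 : p ≤ 1 := by rw [hp]; exact (pow_facts α hα n).2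
  have hseq : seq ε α n = (1 - ε) * p := by
    unfold seq
    rw [if_neg (by omega), hp]
  obtain ⟨s, hs⟩ : ∃ s : ℝ, s = unit d n p := ⟨_, rfl⟩
  have hs0 : 0 < s := by
    rw [hs]
    unfold unit
    exact Real.rpow_pos_of_pos (by positivity) _
  have hs' : unit d n (seq ε α n) = x * s := by
    rw [hseq, unit_scale (by linarith) hp0.le, ← hx, hs]
  rw [hs', hseq] at hg1'
  rw [← hp, ← hs, Real.dist_eq, sub_zero, abs_of_nonneg ENNReal.toReal_nonneg]
  have hnp : (n : ℝ) * p = (n : ℝ) ^ (1 - α) := by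
    rw [hp, Real.rpow_sub hn0, Real.rpow_one, Real.rpow_neg hn0.le]
    field_simp
  -- the core inequality
  have hcore := core h6 h8 n d q (p := p) (p₁ := (1 - ε) * p) (p₂ := ε * p) (θ := e / 4)
    (mul_nonneg (by linarith) hp0.le) (mul_nonneg hε0.le hp0.le) (by linarith) hp1
    (by positivity) (ENNReal.ofReal ((β + η) * n * s)) (K * (x * s))
    (fun g => (A - 2 * (η / (64 * K))) * n ≤ W g ∧
      (nsc (gEdges g) g₀ : ℝ) ≤ η / (64 * K) * n)
    (fun X => Regular ((n : ℝ) ^ (1 - α)) X) (fun X hX S₁ hS₁ =>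
      step h2 X S₁ hn0 hs0 hx0 hβ hη hη1 hq1 hg1 hK0 hKδ hKq hKg hKA hxβ hsq hp0.le hp1 hε0.le
        hε1 (hn₀ n hnn X p s hp hs (hnp ▸ hX)) hS₁.1 hS₁.2)
  have hp1' : (1 - ε) * p ≤ 1 := by
    calc (1 - ε) * p ≤ 1 * p := mul_le_mul_of_nonneg_right (by linarith) hp0.le
      _ ≤ 1 := by rwa [one_mul]
  have hprob := h8.law_prob n d ((1 - ε) * p) (mul_nonneg (by linarith) hp0.le) hp1'
  have hup := h8.unif_prob d
  have hfin1 : law n d ((1 - ε) * p) {ω | ¬ ((A - 2 * (η / (64 * K))) * n ≤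
      W (geo q (K * (x * s)) ω.1 (present ω)) ∧
      (nsc (gEdges (geo q (K * (x * s)) ω.1 (present ω))) g₀ : ℝ) ≤ η / (64 * K) * n)} ≠ ⊤ :=
    measure_ne_top _ _
  have hfin2 : (Measure.pi fun _ : Fin n => unif d) {X | ¬ Regular ((n : ℝ) ^ (1 - α)) X} ≠ ⊤ :=
    measure_ne_top _ _
  have h9 := ENNReal.toReal_mono (ENNReal.add_ne_top.2
    ⟨ENNReal.add_ne_top.2 ⟨ENNReal.ofReal_ne_top, hfin1⟩, hfin2⟩) hcore
  rw [ENNReal.toReal_add (ENNReal.add_ne_top.2 ⟨ENNReal.ofReal_ne_top, hfin1⟩) hfin2,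
    ENNReal.toReal_add ENNReal.ofReal_ne_top hfin1, ENNReal.toReal_ofReal (by positivity)] at h9
  have h10 := F1.bad_le d n α hd hn1 hα hα1
  rw [Measure.real] at h10
  linarith

end K4

/-- **K4, upper tail.** -/
theorem upperTail (h1 : PatchTheorem) (h2 : CheapCover) (h3 : Concentration) (h4 : Moments)
    (_h5 : RegularLikely) (h6 : TourMeas) (h7 : LimitExists) (h8 : GeoLawFacts) : UpperTail := by
  intro d α β η hd hα hα1 hβ hη hlim
  have hmin : 0 < min η 1 := lt_min hη one_pos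
  have h := K4.upper_one h1 h2 h3 h4 h6 h7 h8 d α β (min η 1) hd hα hα1 hβ hmin
    (min_le_right _ _) hlim
  refine squeeze_zero (fun n => ENNReal.toReal_nonneg) (fun n => ?_) h
  have hp := K4.pow_facts α hα n
  have hprob := h8.law_prob n d ((n : ℝ) ^ (-α)) hp.1 hp.2
  refine ENNReal.toReal_mono (measure_ne_top _ _) (measure_mono fun ω hω => ?_)
  refine lt_of_le_of_lt (ENNReal.ofReal_le_ofReal ?_) hω
  have hu : 0 ≤ unit d n ((n : ℝ) ^ (-α)) := by
    unfold unit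
    exact Real.rpow_nonneg (mul_nonneg (Nat.cast_nonneg n) hp.1) _
  have h5 : β + min η 1 ≤ β + η := by
    have := min_le_left η 1
    linarith
  exact mul_le_mul_of_nonneg_right (mul_le_mul_of_nonneg_right h5 (Nat.cast_nonneg n)) hu

end MP329
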