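import Pool.Agent.Lib.MP_329b4d_pr.All0
import Pool.Agent.Lib.MP_329b4d_pr.K4Upper

namespace MP329

theorem upperTail' : UpperTail :=
  upperTail patchTheorem' cheapCover' concentration' moments' regularLikely tourMeas limitExists'
    geoLawFacts

theorem mainTheorem : Main := main limitExists' lowerTail' finiteBound' upperTail' geoLawFacts

end MP329
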