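import Pool.Agent.Lib.MP_329b4d_pr.SpecG

/-!
# MP_329b4d_pr: H3, the mean value of the linear program depends continuously on type frequencies
-/

namespace MP329

open Finset

namespace H3

variable {V : Type} [Fintype V] [DecidableEq V] {q : ℕ}

/-- Image of the weights under pruning. -/
noncomputable def push (Δ : ℕ) (μ : (Sym2 V → Option (Fin q)) → ℝ) :
    (Sym2 V → Option (Fin q)) → ℝ :=
  fun g => ∑ g', if prune Δ g' = g then μ g' else 0

lemma push_sum (Δ : ℕ) (μ : (Sym2 V → Option (Fin q)) → ℝ)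
    (F : (Sym2 V → Option (Fin q)) → ℝ) :
    ∑ g, push Δ μ g * F g = ∑ g, μ g * F (prune Δ g) := by
  unfold push
  simp_rw [Finset.sum_mul]
  rw [Finset.sum_comm]
  refine Finset.sum_congr rfl fun g' _ => ?_
  rw [Finset.sum_eq_single (prune Δ g')]
  · simp
  · intro b _ hb
    rw [if_neg (fun h => hb h.symm)]
    simp
  · intro h
    exact absurd (Finset.mem_univ _) h

lemma push_total (Δ : ℕ) (μ : (Sym2 V → Option (Fin q)) → ℝ) :
    ∑ g, push Δ μ g = ∑ g, μ g := by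
  have := push_sum Δ μ (fun _ => 1)
  simpa using this

lemma push_nonneg (Δ : ℕ) (μ : (Sym2 V → Option (Fin q)) → ℝ) (hμ : ∀ g, 0 ≤ μ g) (g) :
    0 ≤ push Δ μ g := by
  unfold push
  refine Finset.sum_nonneg fun g' _ => ?_
  split_ifs
  · exact hμ g'
  · exact le_rfl

lemma mdeg_prune_le (Δ : ℕ) (g : Sym2 V → Option (Fin q)) (i : V) :
    mdeg (prune Δ g) i ≤ mdeg g i := by
  unfold mdeg
  refine Finset.card_le_card ?_
  intro j hj
  simp only [Finset.mem_filter, Finset.mem_univ, true_and] at hj ⊢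
  intro h
  apply hj
  simp only [prune, h, ite_self]

lemma mdeg_prune_le' (Δ : ℕ) (g : Sym2 V → Option (Fin q)) (i : V) :
    mdeg (prune Δ g) i ≤ Δ := by
  by_cases h : mdeg g i ≤ Δ
  · exact (mdeg_prune_le Δ g i).trans h
  · have : mdeg (prune Δ g) i = 0 := by
      unfold mdeg
      rw [Finset.card_eq_zero, Finset.filter_eq_empty_iff]
      intro j _
      simp only [prune, ne_eq, ite_eq_right_iff, not_forall, not_exists, not_not]
      intro hall
      exact absurd (hall i (Sym2.mem_mk_left i j)) h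
    omega

lemma push_deg (Δ : ℕ) (μ : (Sym2 V → Option (Fin q)) → ℝ) (g) (hg : push Δ μ g ≠ 0) (i : V) :
    mdeg g i ≤ Δ := by
  unfold push at hg
  obtain ⟨g', _, h⟩ := Finset.exists_ne_zero_of_sum_ne_zero hg
  have h1 : prune Δ g' = g := by
    by_contra hne
    rw [if_neg hne] at h
    exact h rfl
  rw [← h1]
  exact mdeg_prune_le' Δ g' i

lemma wm_bounds (m : Fin q) : 0 ≤ wm q (some m) ∧ wm q (some m) ≤ 1 := by
  have hq : 0 < q := lt_of_le_of_lt (Nat.zero_le _) m.2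
  have hq' : (0 : ℝ) < q := by exact_mod_cast hq
  have hm : ((m : ℕ) : ℝ) ≤ q := by exact_mod_cast m.2.le
  constructor
  · have : ((m : ℕ) : ℝ) / q ≤ 1 := by
      rw [div_le_one hq']
      exact hm
    simp only [wm]
    linarith
  · have : 0 ≤ ((m : ℕ) : ℝ) / q := by positivity
    simp only [wm]
    linarith

/-- Bound for the contribution of a type. -/
noncomputable def bd (q Δ r : ℕ) : ℝ := Fintype.card (Fin q × Typ q Δ r) * (Δ : ℝ)

lemma bd_nonneg (q Δ r : ℕ) : 0 ≤ bd q Δ r := by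
  unfold bd
  positivity

lemma abs_phi_le {Δ r : ℕ} (h : Typ q Δ r → Fin q → Typ q Δ r → ℝ)
    (hh : ∀ t m t', 0 ≤ h t m t' ∧ h t m t' ≤ 1 ∧ h t m t' = h t' m t)
    (τ : Typ q Δ r × (Fin q × Typ q Δ r → Fin (Δ + 1))) :
    |phi h τ| ≤ bd q Δ r := by
  have hc : ∀ z, ((τ.2 z : ℕ) : ℝ) ≤ Δ := fun z => by
    exact_mod_cast Nat.le_of_lt_succ (τ.2 z).2
  have h1 : 0 ≤ ∑ z : Fin q × Typ q Δ r, ((τ.2 z : ℕ) : ℝ) * wm q (some z.1) * h τ.1 z.1 z.2 := by
    refine Finset.sum_nonneg fun z _ => ?_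
    exact mul_nonneg (mul_nonneg (Nat.cast_nonneg _) (wm_bounds z.1).1) (hh _ _ _).1
  have h2 : ∑ z : Fin q × Typ q Δ r, ((τ.2 z : ℕ) : ℝ) * wm q (some z.1) * h τ.1 z.1 z.2 ≤
      bd q Δ r := by
    calc ∑ z : Fin q × Typ q Δ r, ((τ.2 z : ℕ) : ℝ) * wm q (some z.1) * h τ.1 z.1 z.2
        ≤ ∑ z : Fin q × Typ q Δ r, (Δ : ℝ) := by
          refine Finset.sum_le_sum fun z _ => ?_
          have hw := wm_bounds z.1
          have hz := hh τ.1 z.1 z.2
          have : ((τ.2 z : ℕ) : ℝ) * wm q (some z.1) ≤ Δ * 1 :=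
            mul_le_mul (hc z) hw.2 hw.1 (Nat.cast_nonneg _)
          calc ((τ.2 z : ℕ) : ℝ) * wm q (some z.1) * h τ.1 z.1 z.2
              ≤ (Δ * 1) * 1 := mul_le_mul this hz.2.1 hz.1 (by positivity)
            _ = Δ := by ring
      _ = bd q Δ r := by
          unfold bd
          rw [Finset.sum_const, Finset.card_univ, nsmul_eq_mul]
  have h3 : 0 ≤ ∑ z : Fin q × Typ q Δ r, ((τ.2 z : ℕ) : ℝ) * h τ.1 z.1 z.2 := by
    refine Finset.sum_nonneg fun z _ => ?_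
    exact mul_nonneg (Nat.cast_nonneg _) (hh _ _ _).1
  have h4 : ∑ z : Fin q × Typ q Δ r, ((τ.2 z : ℕ) : ℝ) * h τ.1 z.1 z.2 ≤ bd q Δ r := by
    calc ∑ z : Fin q × Typ q Δ r, ((τ.2 z : ℕ) : ℝ) * h τ.1 z.1 z.2
        ≤ ∑ z : Fin q × Typ q Δ r, (Δ : ℝ) := by
          refine Finset.sum_le_sum fun z _ => ?_
          have hz := hh τ.1 z.1 z.2
          calc ((τ.2 z : ℕ) : ℝ) * h τ.1 z.1 z.2
              ≤ Δ * 1 := mul_le_mul (hc z) hz.2.1 hz.1 (by positivity)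
            _ = Δ := by ring
      _ = bd q Δ r := by
          unfold bd
          rw [Finset.sum_const, Finset.card_univ, nsmul_eq_mul]
  have h5 : 0 ≤ bd q Δ r := bd_nonneg q Δ r
  have h6 : 0 ≤ max (∑ z : Fin q × Typ q Δ r, ((τ.2 z : ℕ) : ℝ) * h τ.1 z.1 z.2 - 2) 0 :=
    le_max_right _ _
  have h7 : max (∑ z : Fin q × Typ q Δ r, ((τ.2 z : ℕ) : ℝ) * h τ.1 z.1 z.2 - 2) 0 ≤
      bd q Δ r := max_le (by linarith) h5
  unfold phi
  rw [abs_le]
  constructor <;> linarith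

/-- The mean of `phi` over the vertices, by type frequencies. -/
lemma mean_phi [Nonempty V] {Δ r : ℕ} (μ : (Sym2 V → Option (Fin q)) → ℝ)
    (f : Typ q Δ (r + 1) → ℝ) :
    ∑ g, μ g * ∑ i, f (typ Δ (prune Δ g) (r + 1) i) =
      Fintype.card V * ∑ τ, typFreq Δ (r + 1) μ τ * f τ := by
  have hV : (Fintype.card V : ℝ) ≠ 0 := by
    exact_mod_cast Fintype.card_ne_zero
  unfold typFreq
  rw [Finset.mul_sum]
  have e1 : ∀ τ : Typ q Δ (r + 1),
      (Fintype.card V : ℝ) * ((∑ g, μ g * (#{i | typ Δ (prune Δ g) (r + 1) i = τ} : ℝ)) /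
        Fintype.card V * f τ) =
      ∑ g, μ g * ((#{i | typ Δ (prune Δ g) (r + 1) i = τ} : ℝ) * f τ) := by
    intro τ
    rw [div_mul_eq_mul_div, mul_div_cancel₀ _ hV, Finset.sum_mul]
    refine Finset.sum_congr rfl fun g _ => ?_
    ring
  rw [Finset.sum_congr rfl fun τ _ => e1 τ, Finset.sum_comm]
  refine Finset.sum_congr rfl fun g _ => ?_
  rw [← Finset.mul_sum]
  congr 1
  have e2 : ∀ i : V, f (typ Δ (prune Δ g) (r + 1) i) =
      ∑ τ, if typ Δ (prune Δ g) (r + 1) i = τ then f τ else 0 := by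
    intro i
    rw [Finset.sum_ite_eq]
    simp
  rw [Finset.sum_congr rfl fun i _ => e2 i, Finset.sum_comm]
  refine Finset.sum_congr rfl fun τ _ => ?_
  rw [← Finset.sum_filter, Finset.sum_const, nsmul_eq_mul]

omit [DecidableEq V] in
/-- Markov for the degrees. -/
lemma markov (Δ : ℕ) (g : Sym2 V → Option (Fin q)) :
    (#{i | Δ < mdeg g i} : ℝ) * Δ ≤ ∑ i, (mdeg g i : ℝ) := by
  calc (#{i | Δ < mdeg g i} : ℝ) * Δ = ∑ i ∈ univ.filter (fun i => Δ < mdeg g i), (Δ : ℝ) := by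
        rw [Finset.sum_const, nsmul_eq_mul]
    _ ≤ ∑ i ∈ univ.filter (fun i => Δ < mdeg g i), (mdeg g i : ℝ) := by
        refine Finset.sum_le_sum fun i hi => ?_
        simp only [Finset.mem_filter, Finset.mem_univ, true_and] at hi
        exact_mod_cast hi.le
    _ ≤ ∑ i, (mdeg g i : ℝ) := by
        refine Finset.sum_le_sum_of_subset_of_nonneg (Finset.subset_univ _) fun i _ _ => ?_
        positivity

/-- One-sided comparison. -/
lemma one_side (h1 : AvgLower) (h2 : AvgUpper) (h3 : WLip) {q : ℕ} {lam ε : ℝ}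
    (hlam : 0 ≤ lam) {R Δ : ℕ} (hR : 1 ≤ R) (hΔ : 1 ≤ Δ)
    (hR' : √(2 * lam / R) ≤ ε / 4) (hΔ' : 2 * lam / Δ ≤ ε / 4) {η : ℝ} (hη : 0 < η)
    (hηC : ∀ r < R, η * ((Fintype.card (Typ q Δ (r + 1)) : ℝ) * bd q Δ r) ≤ ε / 4)
    {V V' : Type} [Fintype V] [DecidableEq V] [Nonempty V] [Fintype V'] [DecidableEq V']
    [Nonempty V'] (μ : (Sym2 V → Option (Fin q)) → ℝ) (μ' : (Sym2 V' → Option (Fin q)) → ℝ)
    (hμ : ∀ g, 0 ≤ μ g) (hμ' : ∀ g, 0 ≤ μ' g) (hs : ∑ g, μ g = 1)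
    (hd : meanDeg μ ≤ lam)
    (hf : ∀ r < R, ∀ τ : Typ q Δ (r + 1),
        |typFreq Δ (r + 1) μ τ - typFreq Δ (r + 1) μ' τ| ≤ η) :
    meanW μ ≤ meanW μ' + 3 * (ε / 4) := by
  have hV : (0 : ℝ) < Fintype.card V := by
    exact_mod_cast Fintype.card_pos
  have hV' : (0 : ℝ) < Fintype.card V' := by
    exact_mod_cast Fintype.card_pos
  have hΔp : (0 : ℝ) < Δ := by exact_mod_cast hΔ
  have hdeg : ∑ g, μ g * ∑ i, (mdeg g i : ℝ) ≤ lam * Fintype.card V := by
    unfold meanDeg at hd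
    rwa [div_le_iff₀ hV] at hd
  -- apply the upper bound to the pruned system
  obtain ⟨r, hr, h, hh, hup⟩ := h2 V q Δ R lam (push Δ μ) hR hlam (push_nonneg Δ μ hμ)
    (fun g hg i => push_deg Δ μ g hg i) (by
      rw [push_sum Δ μ (fun g => ∑ i, (mdeg g i : ℝ)), push_total, hs, one_mul]
      refine le_trans ?_ hdeg
      refine Finset.sum_le_sum fun g _ => ?_
      refine mul_le_mul_of_nonneg_left ?_ (hμ g)
      refine Finset.sum_le_sum fun i _ => ?_
      exact_mod_cast mdeg_prune_le Δ g i)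
  rw [push_sum Δ μ (fun g => W g),
    push_sum Δ μ (fun g => ∑ i, phi h (typ Δ g (r + 1) i)), push_total, hs, one_mul] at hup
  have hm : ∑ g, μ g * ∑ i, phi h (typ Δ (prune Δ g) (r + 1) i) =
      Fintype.card V * ∑ τ : Typ q Δ (r + 1), typFreq Δ (r + 1) μ τ * phi h τ :=
    mean_phi μ (fun τ => phi h τ)
  have hm' : ∑ g, μ' g * ∑ i, phi h (typ Δ (prune Δ g) (r + 1) i) =
      Fintype.card V' * ∑ τ : Typ q Δ (r + 1), typFreq Δ (r + 1) μ' τ * phi h τ :=
    mean_phi μ' (fun τ => phi h τ)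
  -- the lower bound for the other system
  have hlow : (Fintype.card V' : ℝ) *
      ∑ τ : Typ q Δ (r + 1), typFreq Δ (r + 1) μ' τ * phi h τ ≤ ∑ g, μ' g * W g := by
    rw [← hm']
    refine Finset.sum_le_sum fun g _ => ?_
    refine mul_le_mul_of_nonneg_left ?_ (hμ' g)
    refine (h1 V' q Δ r (prune Δ g) h (fun i => mdeg_prune_le' Δ g i) hh).trans ?_
    exact h3.prune_le V' q Δ g
  have hlow' : ∑ τ : Typ q Δ (r + 1), typFreq Δ (r + 1) μ' τ * phi h τ ≤ meanW μ' := by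
    unfold meanW
    rw [le_div_iff₀ hV', mul_comm]
    exact hlow
  -- the upper bound
  have hprune : ∑ g, μ g * W g ≤ ∑ g, μ g * W (prune Δ g) + 2 * lam / Δ * Fintype.card V := by
    have e1 : ∀ g, μ g * W g ≤ μ g * W (prune Δ g) + 2 / Δ * (μ g * ∑ i, (mdeg g i : ℝ)) := by
      intro g
      have a1 := h3.le_prune V q Δ g
      have a2 := markov Δ g
      have a3 : (#{i | Δ < mdeg g i} : ℝ) ≤ (∑ i, (mdeg g i : ℝ)) / Δ := by
        rw [le_div_iff₀ hΔp]
        exact a2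
      have a4 : W g ≤ W (prune Δ g) + 2 * ((∑ i, (mdeg g i : ℝ)) / Δ) := by linarith
      calc μ g * W g ≤ μ g * (W (prune Δ g) + 2 * ((∑ i, (mdeg g i : ℝ)) / Δ)) :=
            mul_le_mul_of_nonneg_left a4 (hμ g)
        _ = _ := by ring
    calc ∑ g, μ g * W g ≤ ∑ g, (μ g * W (prune Δ g) + 2 / Δ * (μ g * ∑ i, (mdeg g i : ℝ))) :=
          Finset.sum_le_sum fun g _ => e1 g
      _ = ∑ g, μ g * W (prune Δ g) + 2 / Δ * ∑ g, μ g * ∑ i, (mdeg g i : ℝ) := by
          rw [Finset.sum_add_distrib, Finset.mul_sum]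
      _ ≤ ∑ g, μ g * W (prune Δ g) + 2 / Δ * (lam * Fintype.card V) := by
          have : (0 : ℝ) ≤ 2 / Δ := by positivity
          linarith [mul_le_mul_of_nonneg_left hdeg this]
      _ = _ := by ring
  have hup' : meanW μ ≤ ∑ τ : Typ q Δ (r + 1), typFreq Δ (r + 1) μ τ * phi h τ +
      √(2 * lam / R) + 2 * lam / Δ := by
    unfold meanW
    rw [div_le_iff₀ hV]
    rw [hm] at hup
    calc ∑ g, μ g * W g ≤ ∑ g, μ g * W (prune Δ g) + 2 * lam / Δ * Fintype.card V := hprune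
      _ ≤ (Fintype.card V * ∑ τ : Typ q Δ (r + 1), typFreq Δ (r + 1) μ τ * phi h τ +
          √(2 * lam / R) * Fintype.card V) + 2 * lam / Δ * Fintype.card V := by
          linarith
      _ = _ := by ring
  -- comparison of the two sums
  have hcmp : ∑ τ : Typ q Δ (r + 1), typFreq Δ (r + 1) μ τ * phi h τ ≤
      ∑ τ : Typ q Δ (r + 1), typFreq Δ (r + 1) μ' τ * phi h τ + ε / 4 := by
    have e1 : ∀ τ : Typ q Δ (r + 1), typFreq Δ (r + 1) μ τ * phi h τ ≤
        typFreq Δ (r + 1) μ' τ * phi h τ + η * bd q Δ r := by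
      intro τ
      have a1 := hf r hr τ
      have a2 := abs_phi_le h hh τ
      have a3 : (typFreq Δ (r + 1) μ τ - typFreq Δ (r + 1) μ' τ) * phi h τ ≤ η * bd q Δ r := by
        calc (typFreq Δ (r + 1) μ τ - typFreq Δ (r + 1) μ' τ) * phi h τ
            ≤ |(typFreq Δ (r + 1) μ τ - typFreq Δ (r + 1) μ' τ) * phi h τ| := le_abs_self _
          _ = |typFreq Δ (r + 1) μ τ - typFreq Δ (r + 1) μ' τ| * |phi h τ| := abs_mul _ _
          _ ≤ η * bd q Δ r := mul_le_mul a1 a2 (abs_nonneg _) hη.le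
      linarith [sub_mul (typFreq Δ (r + 1) μ τ) (typFreq Δ (r + 1) μ' τ) (phi h τ)]
    calc ∑ τ : Typ q Δ (r + 1), typFreq Δ (r + 1) μ τ * phi h τ
        ≤ ∑ τ : Typ q Δ (r + 1), (typFreq Δ (r + 1) μ' τ * phi h τ + η * bd q Δ r) :=
          Finset.sum_le_sum fun τ _ => e1 τ
      _ = ∑ τ : Typ q Δ (r + 1), typFreq Δ (r + 1) μ' τ * phi h τ +
          η * ((Fintype.card (Typ q Δ (r + 1)) : ℝ) * bd q Δ r) := by
          rw [Finset.sum_add_distrib, Finset.sum_const, Finset.card_univ, nsmul_eq_mul]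
          ring
      _ ≤ _ := by
          have := hηC r hr
          linarith
  linarith

end H3

open H3 in
/-- **H3.** -/
theorem compare_means (h1 : AvgLower) (h2 : AvgUpper) (h3 : WLip) : Compare := by
  intro q lam ε hlam hε
  -- the choice of the constants
  obtain ⟨R₀, hR₀⟩ := exists_nat_ge (32 * lam / ε ^ 2)
  obtain ⟨Δ₀, hΔ₀⟩ := exists_nat_ge (8 * lam / ε)
  set R := R₀ + 1 with hRdef
  set Δ := Δ₀ + 1 with hΔdef
  have hRp : (0 : ℝ) < R := by
    rw [hRdef]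
    positivity
  have hΔp : (0 : ℝ) < Δ := by
    rw [hΔdef]
    positivity
  have hR' : √(2 * lam / R) ≤ ε / 4 := by
    rw [Real.sqrt_le_left (by positivity)]
    rw [div_le_iff₀ hRp]
    have h : 32 * lam / ε ^ 2 ≤ R := by
      rw [hRdef]
      push_cast
      linarith
    rw [div_le_iff₀ (by positivity)] at h
    nlinarith
  have hΔ' : 2 * lam / Δ ≤ ε / 4 := by
    rw [div_le_iff₀ hΔp]
    have h : 8 * lam / ε ≤ Δ := by
      rw [hΔdef]
      push_cast
      linarith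
    rw [div_le_iff₀ hε] at h
    nlinarith
  set C : ℝ := ∑ r ∈ Finset.range R, (Fintype.card (Typ q Δ (r + 1)) : ℝ) * bd q Δ r with hC
  have hterm : ∀ r, 0 ≤ (Fintype.card (Typ q Δ (r + 1)) : ℝ) * bd q Δ r := fun r =>
    mul_nonneg (Nat.cast_nonneg _) (bd_nonneg q Δ r)
  have hC0 : 0 ≤ C := Finset.sum_nonneg fun r _ => hterm r
  set η : ℝ := ε / 4 / (C + 1) with hη
  have hηpos : 0 < η := by
    rw [hη]
    positivity
  have hηC : ∀ r < R, η * ((Fintype.card (Typ q Δ (r + 1)) : ℝ) * bd q Δ r) ≤ ε / 4 := by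
    intro r hr
    have a1 : (Fintype.card (Typ q Δ (r + 1)) : ℝ) * bd q Δ r ≤ C + 1 := by
      have := Finset.single_le_sum (f := fun r => (Fintype.card (Typ q Δ (r + 1)) : ℝ) * bd q Δ r)
        (fun r _ => hterm r) (Finset.mem_range.2 hr)
      linarith
    calc η * ((Fintype.card (Typ q Δ (r + 1)) : ℝ) * bd q Δ r) ≤ η * (C + 1) :=
          mul_le_mul_of_nonneg_left a1 hηpos.le
      _ = ε / 4 := by
          rw [hη]
          field_simp
  refine ⟨R, Δ, η, hηpos, ?_⟩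
  intro V V' _ _ _ _ _ _ μ μ' hμ hμ' hs hs' hd hd' hf
  have a1 := one_side h1 h2 h3 hlam (R := R) (Δ := Δ) (by omega) (by omega) hR' hΔ' hηpos hηC
    μ μ' hμ hμ' hs hd hf
  have a2 := one_side h1 h2 h3 hlam (R := R) (Δ := Δ) (by omega) (by omega) hR' hΔ' hηpos hηC
    μ' μ hμ' hμ hs' hd' (fun r hr τ => by
      rw [abs_sub_comm]
      exact hf r hr τ)
  rw [abs_le]
  constructor <;> linarith

end MP329
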