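import Pool.Agent.Lib.MP_329b4d_pr.SpecI
import Pool.Agent.Lib.MP_329b4d_pr.A7Coin
import Pool.Agent.Lib.MP_329b4d_pr.F1Regular

/-!
# MP_329b4d_pr, I0: the law of the marked graph
-/

set_option autoImplicit false

namespace MP329

open Finset MeasureTheory Filter

namespace I0

theorem len_meas {n d : ℕ} (e : Sym2 (Fin n)) :
    Measurable fun X : Fin n → Pt d => len X e := by
  induction e using Sym2.ind with
  | _ a b =>
    show Measurable fun X : Fin n → Pt d => dist (X a) (X b)
    exact (measurable_pi_apply a).dist (measurable_pi_apply b)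

theorem geo_meas {n d : ℕ} (q : ℕ) (R : ℝ) (S : Finset (Sym2 (Fin n)))
    (A : (Sym2 (Fin n) → Option (Fin q)) → Prop) :
    MeasurableSet {X : Fin n → Pt d | A (geo q R X S)} := by
  let _ : MeasurableSpace (Option (Fin q)) := ⊤
  have hd : DiscreteMeasurableSpace (Option (Fin q)) := ⟨fun _ => trivial⟩
  have hG : Measurable fun X : Fin n → Pt d => geo q R X S := by
    refine measurable_pi_iff.2 fun e => ?_
    unfold geo
    by_cases he : e ∈ S ∧ ¬ e.IsDiag
    · simp only [he, not_false_eq_true, and_self, if_true]
      have h1 : Measurable fun X : Fin n → Pt d => ⌊q * (len X e / R)⌋₊ :=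
        Nat.measurable_floor.comp (((len_meas e).div_const R).const_mul _)
      have h2 : Measurable fun k : ℕ =>
          (if h : k < q then some (⟨k, h⟩ : Fin q) else none : Option (Fin q)) :=
        measurable_from_nat
      exact h2.comp h1
    · simp only [he, if_false]
      exact measurable_const
  exact hG (Set.toFinite {g | A g}).measurableSet

variable {n d q : ℕ} {p R : ℝ}

theorem pb_meas (A : (Sym2 (Fin n) → Option (Fin q)) → Prop) :
    Measurable fun X : Fin n → Pt d => Pb p (fun S => A (geo q R X S)) := by
  unfold Pb Ex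
  refine Finset.measurable_sum _ fun S _ => ?_
  refine Measurable.const_mul ?_ _
  exact Measurable.ite (geo_meas q R S A) measurable_const measurable_const

theorem pb_int (hp : 0 ≤ p) (hp1 : p ≤ 1) (A : (Sym2 (Fin n) → Option (Fin q)) → Prop) :
    Integrable (fun X : Fin n → Pt d => Pb p (fun S => A (geo q R X S)))
      (Measure.pi fun _ : Fin n => unif d) := by
  refine Integrable.of_bound (pb_meas A).aestronglyMeasurable 1 (Eventually.of_forall fun X => ?_)
  rw [Real.norm_eq_abs, abs_of_nonneg (Pb_nonneg hp hp1 _)]
  exact Pb_le_one hp hp1 _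

theorem prob (hp : 0 ≤ p) (hp1 : p ≤ 1) (A : (Sym2 (Fin n) → Option (Fin q)) → Prop) :
    ((law n d p) {ω | A (geo q R ω.1 (present ω))}).toReal =
      ∫ X, Pb p (fun S => A (geo q R X S)) ∂(Measure.pi fun _ : Fin n => unif d) := by
  have hcp := coin_prob hp hp1
  obtain ⟨hc1, -, hc3⟩ := coinEx (Sym2 (Fin n)) p hp hp1
  have hE : MeasurableSet {ω : Sample n d | A (geo q R ω.1 (present ω))} := by
    have e : {ω : Sample n d | A (geo q R ω.1 (present ω))} =
        ⋃ c : Sym2 (Fin n) → Bool, {X : Fin n → Pt d |
          A (geo q R X (univ.filter fun e => c e = true))} ×ˢ {c} := by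
      ext ω
      simp only [Set.mem_iUnion, Set.mem_prod, Set.mem_singleton_iff]
      constructor
      · intro h
        exact ⟨ω.2, h, rfl⟩
      · rintro ⟨c, h, h2⟩
        have h3 : present ω = univ.filter fun e => c e = true := by
          unfold present
          rw [h2]
        show A (geo q R ω.1 (present ω))
        rw [h3]
        exact h
    rw [e]
    refine MeasurableSet.iUnion fun c => ?_
    exact (geo_meas q R _ A).prod (measurableSet_singleton c)
  unfold law
  rw [Measure.prod_apply hE]
  have h1 : ∀ X : Fin n → Pt d, (Measure.pi fun _ : Sym2 (Fin n) => coin p)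
      (Prod.mk X ⁻¹' {ω : Sample n d | A (geo q R ω.1 (present ω))}) =
      ENNReal.ofReal (Pb p (fun S => A (geo q R X S))) := by
    intro X
    rw [← hc3 (fun S => A (geo q R X S))]
    rfl
  simp only [h1]
  rw [integral_eq_lintegral_of_nonneg_ae (Eventually.of_forall fun X => Pb_nonneg hp hp1 _)
    (pb_meas A).aestronglyMeasurable]

theorem integral (hp : 0 ≤ p) (hp1 : p ≤ 1) (F : (Sym2 (Fin n) → Option (Fin q)) → ℝ) :
    ∑ g, geoLaw n d q p R g * F g =
      ∫ X, Ex p (fun S => F (geo q R X S)) ∂(Measure.pi fun _ : Fin n => unif d) := by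
  classical
  have h1 : ∀ g, geoLaw n d q p R g =
      ∫ X, Pb p (fun S => geo q R X S = g) ∂(Measure.pi fun _ : Fin n => unif d) := fun g =>
    prob hp hp1 (fun g' => g' = g)
  simp only [h1]
  have h2 : ∀ X : Fin n → Pt d, Ex p (fun S => F (geo q R X S)) =
      ∑ g, Pb p (fun S => geo q R X S = g) * F g := by
    intro X
    have h3 : ∀ g, Pb p (fun S => geo q R X S = g) * F g =
        Ex p (fun S => F g * (@ite ℝ (geo q R X S = g) (Classical.propDecidable _) 1 0)) := by
      intro g
      rw [Ex_mul_left, mul_comm]
      rfl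
    simp only [h3]
    rw [← Ex_sum]
    apply Ex_congr
    intro S
    rw [Finset.sum_eq_single (geo q R X S)]
    · simp
    · intro g _ hg
      rw [if_neg (fun h => hg h.symm), mul_zero]
    · intro h
      exact absurd (Finset.mem_univ _) h
  simp only [h2]
  rw [integral_finsetSum _ fun g _ => (pb_int hp hp1 (fun g' => g' = g)).mul_const _]
  refine Finset.sum_congr rfl fun g _ => ?_
  rw [integral_mul_const]

end I0

/-- **I0, the law of the marked graph.** -/
theorem geoLawFacts : GeoLawFacts where
  meas n d q R S A := I0.geo_meas q R S A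
  unif_prob d := F1.unif_prob d
  law_prob n d p hp hp1 := by
    have := coin_prob hp hp1
    unfold law
    infer_instance
  nonneg n d q p R g := ENNReal.toReal_nonneg
  sum_one n d q p R hp hp1 := by
    have h := I0.integral (n := n) (d := d) (q := q) (R := R) hp hp1 (fun _ => 1)
    simp only [mul_one, Ex_const] at h
    rw [h]
    simp
  integral n d q p R hp hp1 F := I0.integral hp hp1 F
  prob n d q p R hp hp1 A := I0.prob hp hp1 A

end MP329
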