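import Pool.Agent.Lib.MP_329b4d_pr.SpecI
import Pool.Agent.Lib.MP_329b4d_pr.A7Coin

set_option autoImplicit false

/-!
# MP_329b4d_pr, I1: the law of the random marked graph is exchangeable
-/

namespace MP329

open Finset MeasureTheory

namespace I1

theorem unif_sigmaFinite (d : ℕ) : SigmaFinite (unif d) := by
  unfold unif
  infer_instance

/-- the permutation of the pairs -/
def pmap {n : ℕ} (σ : Equiv.Perm (Fin n)) : Equiv.Perm (Sym2 (Fin n)) where
  toFun := Sym2.map σ
  invFun := Sym2.map σ.symm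
  left_inv e := by
    rw [Sym2.map_map, Equiv.symm_comp_self, Sym2.map_id, id]
  right_inv e := by
    rw [Sym2.map_map, Equiv.self_comp_symm, Sym2.map_id, id]

variable {n d : ℕ}

/-- the permutation of the positions -/
def E1 (σ : Equiv.Perm (Fin n)) : (Fin n → Pt d) ≃ᵐ (Fin n → Pt d) :=
  MeasurableEquiv.piCongrLeft (fun _ : Fin n => Pt d) σ.symm

theorem E1_apply (σ : Equiv.Perm (Fin n)) (X : Fin n → Pt d) (i : Fin n) :
    E1 σ X i = X (σ i) := by
  have h := Equiv.piCongrLeft_apply_apply (P := fun _ : Fin n => Pt d) (e := σ.symm) X (σ i)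
  rw [Equiv.symm_apply_apply] at h
  exact h

/-- the permutation of the coins -/
def E2 (σ : Equiv.Perm (Fin n)) : (Sym2 (Fin n) → Bool) ≃ᵐ (Sym2 (Fin n) → Bool) :=
  MeasurableEquiv.piCongrLeft (fun _ : Sym2 (Fin n) => Bool) (pmap σ).symm

theorem E2_apply (σ : Equiv.Perm (Fin n)) (c : Sym2 (Fin n) → Bool) (e : Sym2 (Fin n)) :
    E2 σ c e = c (e.map σ) := by
  have h := Equiv.piCongrLeft_apply_apply (P := fun _ : Sym2 (Fin n) => Bool)
    (e := (pmap σ).symm) c (pmap σ e)
  rw [Equiv.symm_apply_apply] at h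
  exact h

theorem geo_perm (q : ℕ) (R : ℝ) (σ : Equiv.Perm (Fin n)) (ω : Sample n d) (e : Sym2 (Fin n)) :
    geo q R (E1 σ ω.1) (present ((E1 σ ω.1, E2 σ ω.2) : Sample n d)) e =
      geo q R ω.1 (present ω) (e.map σ) := by
  have h1 : (e ∈ present ((E1 σ ω.1, E2 σ ω.2) : Sample n d) ∧ ¬ e.IsDiag) ↔
      (e.map σ ∈ present ω ∧ ¬ (e.map σ).IsDiag) := by
    unfold present
    rw [mem_filter, mem_filter, Sym2.isDiag_map σ.injective]
    change (_ ∧ E2 σ ω.2 e = true) ∧ _ ↔ _
    rw [E2_apply]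
    simp
  have h2 : len (E1 σ ω.1) e = len ω.1 (e.map σ) := by
    induction e using Sym2.ind with
    | _ a b =>
      change dist (E1 σ ω.1 a) (E1 σ ω.1 b) = dist (ω.1 (σ a)) (ω.1 (σ b))
      rw [E1_apply, E1_apply]
  unfold geo
  rw [h2]
  by_cases h : e ∈ present ((E1 σ ω.1, E2 σ ω.2) : Sample n d) ∧ ¬ e.IsDiag
  · rw [if_pos h, if_pos (h1.1 h)]
  · rw [if_neg h, if_neg (fun h' => h (h1.2 h'))]

end I1

open I1 in
theorem exchangeable : Exchangeable := by
  intro n d q p R h0 h1 σ g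
  have := coin_prob h0 h1
  have := unif_sigmaFinite d
  have m1 : MeasurePreserving (E1 (d := d) σ) (Measure.pi fun _ : Fin n => unif d)
      (Measure.pi fun _ : Fin n => unif d) :=
    measurePreserving_piCongrLeft (fun _ : Fin n => unif d) σ.symm
  have m2 : MeasurePreserving (E2 σ) (Measure.pi fun _ : Sym2 (Fin n) => coin p)
      (Measure.pi fun _ : Sym2 (Fin n) => coin p) :=
    measurePreserving_piCongrLeft (fun _ : Sym2 (Fin n) => coin p) (pmap σ).symm
  have m : MeasurePreserving ((E1 (d := d) σ).prodCongr (E2 σ)) (law n d p) (law n d p) :=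
    m1.prod m2
  unfold geoLaw
  rw [← m.measure_preimage_equiv]
  congr 2
  ext ω
  change geo q R (E1 σ ω.1) (present ((E1 σ ω.1, E2 σ ω.2) : Sample n d)) =
    (fun e => g (e.map σ)) ↔ geo q R ω.1 (present ω) = g
  constructor
  · intro h
    funext e
    have h2 := congrFun h (e.map σ.symm)
    rw [geo_perm] at h2
    rw [Sym2.map_map, Equiv.self_comp_symm, Sym2.map_id, id] at h2
    exact h2
  · intro h
    funext e
    rw [geo_perm, h]

end MP329
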