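import Pool.Agent.Lib.MP_329b4d_pr.SpecI

/-!
# MP_329b4d_pr, I2 and I3: types are local, recognizing the ball
-/

namespace MP329

open Finset

namespace I2

variable {V W : Type*} [Fintype V] [DecidableEq V] [Fintype W] [DecidableEq W] {q : ℕ}

theorem mball_succ (g : Sym2 V → Option (Fin q)) (ρ : ℕ) (v w : V) :
    w ∈ mball g (ρ + 1) v ↔ w ∈ mball g ρ v ∨ ∃ u ∈ mball g ρ v, g s(u, w) ≠ none := by
  simp [mball]

theorem mball_mono (g : Sym2 V → Option (Fin q)) (v : V) {a b : ℕ} (h : a ≤ b) :
    mball g a v ⊆ mball g b v := by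
  induction h with
  | refl => exact subset_refl _
  | step _ ih =>
    intro w hw
    rw [mball_succ]
    exact Or.inl (ih hw)

variable (ι : W → V) (g : Sym2 V → Option (Fin q))


theorem image_sub (o : W) (ρ : ℕ) :
    (mball (fun e : Sym2 W => g (e.map ι)) ρ o).image ι ⊆ mball g ρ (ι o) := by
  induction ρ with
  | zero => simp [mball]
  | succ ρ ih =>
    intro w hw
    obtain ⟨j, hj, rfl⟩ := mem_image.mp hw
    rw [mball_succ] at hj
    rw [mball_succ]
    rcases hj with hj | ⟨i, hi, hij⟩
    · exact Or.inl (ih (mem_image_of_mem ι hj))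
    · exact Or.inr ⟨ι i, ih (mem_image_of_mem ι hi), hij⟩

theorem image_eq (o : W) (N : ℕ)
    (h : ∀ ρ < N, ∀ i ∈ mball (fun e : Sym2 W => g (e.map ι)) ρ o, ∀ v, g s(ι i, v) ≠ none →
      ∃ j, ι j = v) :
    ∀ ρ ≤ N, mball g ρ (ι o) = (mball (fun e : Sym2 W => g (e.map ι)) ρ o).image ι := by
  intro ρ
  induction ρ with
  | zero => intro _; simp [mball]
  | succ ρ ih =>
    intro hρ
    apply Subset.antisymm _ (image_sub ι g o (ρ + 1))
    intro w hw
    rw [mball_succ, ih (by omega)] at hw
    rcases hw with hw | ⟨u, hu, huw⟩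
    · obtain ⟨j, hj, rfl⟩ := mem_image.mp hw
      apply mem_image_of_mem
      rw [mball_succ]
      exact Or.inl hj
    · obtain ⟨i, hi, rfl⟩ := mem_image.mp hu
      obtain ⟨j, rfl⟩ := h ρ (by omega) i hi w huw
      apply mem_image_of_mem
      rw [mball_succ]
      exact Or.inr ⟨i, hi, huw⟩

end I2

open I2

theorem ballPattern : BallPattern := by
  intro V _ _ q r k ι g hι
  constructor
  · intro hball
    have hin : ∀ v, v ∈ mball g (r + 1) (ι 0) → ∃ j, ι j = v := by
      intro v hv
      rw [hball] at hv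
      obtain ⟨j, _, hj⟩ := mem_image.mp hv
      exact ⟨j, hj⟩
    have hloc : ∀ ρ < r + 1, ∀ i ∈ mball (fun e : Sym2 (Fin (k + 1)) => g (e.map ι)) ρ 0, ∀ v,
        g s(ι i, v) ≠ none → ∃ j, ι j = v := by
      intro ρ hρ i hi v hv
      apply hin
      apply mball_mono g (ι 0) (show ρ + 1 ≤ r + 1 by omega)
      rw [mball_succ]
      exact Or.inr ⟨ι i, image_sub ι g 0 ρ (mem_image_of_mem ι hi), hv⟩
    refine ⟨?_, ?_⟩
    · have h := image_eq ι g 0 (r + 1) hloc (r + 1) le_rfl
      rw [hball] at h
      exact (image_injective hι h).symm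
    · intro i hi v hv
      by_contra hne
      obtain ⟨j, hj⟩ := hloc r (by omega) i hi v hne
      exact hv j hj
  · rintro ⟨huniv, hcl⟩
    have hloc : ∀ ρ < r + 1, ∀ i ∈ mball (fun e : Sym2 (Fin (k + 1)) => g (e.map ι)) ρ 0, ∀ v,
        g s(ι i, v) ≠ none → ∃ j, ι j = v := by
      intro ρ hρ i hi v hv
      by_contra hcon
      push Not at hcon
      exact hv (hcl i (mball_mono _ 0 (show ρ ≤ r by omega) hi) v hcon)
    rw [image_eq ι g 0 (r + 1) hloc (r + 1) le_rfl, huniv]

theorem typLocal : TypLocal := by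
  intro V _ _ q Δ r k ι g hι hcl
  set P : Sym2 (Fin (k + 1)) → Option (Fin q) := fun e => g (e.map ι) with hP
  have hPa : ∀ i j, P s(i, j) = g s(ι i, ι j) := fun i j => rfl
  have hran : ∀ i ∈ mball P r 0, ∀ v, g s(ι i, v) ≠ none → ∃ j, ι j = v := by
    intro i hi v hv
    by_contra hcon
    push Not at hcon
    exact hv (hcl i hi v hcon)
  have hdeg : ∀ i ∈ mball P r 0, mdeg g (ι i) = mdeg P i := by
    intro i hi
    unfold mdeg
    rw [← card_image_of_injective _ hι]
    congr 1
    ext v
    simp only [mem_filter, mem_univ, true_and, mem_image]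
    constructor
    · intro hv
      obtain ⟨j, rfl⟩ := hran i hi v hv
      exact ⟨j, hv, rfl⟩
    · rintro ⟨j, hj, rfl⟩
      exact hj
  have hpr : ∀ i ∈ mball P r 0, ∀ j ∈ mball P r 0,
      prune Δ g s(ι i, ι j) = prune Δ P s(i, j) := by
    intro i hi j hj
    unfold prune
    simp only [Sym2.mem_iff, forall_eq_or_imp, forall_eq]
    rw [hdeg i hi, hdeg j hj, hPa]
  have hpn : ∀ {U : Type} [Fintype U] [DecidableEq U] (f : Sym2 U → Option (Fin q)) (e : Sym2 U)
      (m : Fin q), prune Δ f e = some m → f e ≠ none := by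
    intro U _ _ f e m he hn
    unfold prune at he
    split_ifs at he
    rw [hn] at he
    exact absurd he (by simp)
  have main : ∀ s ≤ r, ∀ i ∈ mball P (r - s) 0,
      typ Δ (prune Δ g) s (ι i) = typ Δ (prune Δ P) s i := by
    intro s
    induction s with
    | zero => intro _ i _; rfl
    | succ s ih =>
      intro hs i hi
      have hi' : i ∈ mball P (r - s) 0 := mball_mono P 0 (by omega) hi
      have hir : i ∈ mball P r 0 := mball_mono P 0 (by omega) hi
      have hnb : ∀ j, P s(i, j) ≠ none → j ∈ mball P (r - s) 0 := by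
        intro j hj
        have : r - s = (r - (s + 1)) + 1 := by omega
        rw [this, mball_succ]
        exact Or.inr ⟨i, hi, hj⟩
      have h1 := ih (by omega) i hi'
      show (_, _) = (_, _)
      refine Prod.ext h1 ?_
      funext mt
      apply Fin.ext
      show min _ _ = min _ _
      congr 1
      rw [← card_image_of_injective (univ.filter fun u =>
        prune Δ P s(i, u) = some mt.1 ∧ typ Δ (prune Δ P) s u = mt.2) hι]
      congr 1
      ext v
      simp only [mem_filter, mem_univ, true_and, mem_image]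
      constructor
      · rintro ⟨hv1, hv2⟩
        obtain ⟨j, rfl⟩ := hran i hir v (hpn g _ _ hv1)
        have hj := hnb j (by rw [hPa]; exact hpn g _ _ hv1)
        have hjr : j ∈ mball P r 0 := mball_mono P 0 (by omega) hj
        refine ⟨j, ⟨?_, ?_⟩, rfl⟩
        · rw [← hpr i hir j hjr]; exact hv1
        · rw [← ih (by omega) j hj]; exact hv2
      · rintro ⟨j, ⟨hj1, hj2⟩, rfl⟩
        have hj := hnb j (hpn P _ _ hj1)
        have hjr : j ∈ mball P r 0 := mball_mono P 0 (by omega) hj
        refine ⟨?_, ?_⟩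
        · rw [hpr i hir j hjr]; exact hj1
        · rw [ih (by omega) j hj]; exact hj2
  apply main r le_rfl
  simp [mball]

end MP329
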