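import Pool.Agent.Lib.MP_329b4d_pr.SpecI

/-!
# MP_329b4d_pr, module I4: decomposition of the type frequencies over ball patterns
-/

namespace MP329

open Finset

section Pull

variable {V : Type*} [Fintype V] [DecidableEq V] {q : ℕ}

omit [DecidableEq V] in
theorem mdeg_pull (σ : Equiv.Perm V) (g : Sym2 V → Option (Fin q)) (i : V) :
    mdeg (fun e => g (e.map σ)) i = mdeg g (σ i) := by
  unfold mdeg
  apply Finset.card_bij (fun j _ => σ j)
  · intro j hj
    simpa using hj
  · intro a _ b _ h
    exact σ.injective h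
  · intro b hb
    refine ⟨σ.symm b, ?_, by simp⟩
    simpa using hb

theorem prune_pull (σ : Equiv.Perm V) (Δ : ℕ) (g : Sym2 V → Option (Fin q)) :
    prune Δ (fun e => g (e.map σ)) = fun e => prune Δ g (e.map σ) := by
  funext e
  unfold prune
  have h : (∀ i ∈ e, mdeg (fun e => g (e.map σ)) i ≤ Δ) ↔ (∀ i ∈ e.map σ, mdeg g i ≤ Δ) := by
    simp only [mdeg_pull, Sym2.mem_map]
    constructor
    · rintro h i ⟨j, hj, rfl⟩
      exact h j hj
    · intro h i hi
      exact h _ ⟨i, hi, rfl⟩
  simp only [h]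

omit [DecidableEq V] in
theorem typ_pull (σ : Equiv.Perm V) (Δ : ℕ) (g : Sym2 V → Option (Fin q)) :
    ∀ (r : ℕ) (v : V), typ Δ (fun e => g (e.map σ)) r v = typ Δ g r (σ v)
  | 0, _ => rfl
  | r + 1, v => by
    have ih := typ_pull σ Δ g r
    have hcard : ∀ mt : Fin q × Typ q Δ r,
        #{u | g (Sym2.map σ s(v, u)) = some mt.1 ∧ typ Δ (fun e => g (e.map σ)) r u = mt.2} =
        #{u | g s(σ v, u) = some mt.1 ∧ typ Δ g r u = mt.2} := by
      intro mt
      apply Finset.card_bij (fun j _ => σ j)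
      · intro j hj
        simpa [ih] using hj
      · intro a _ b _ h
        exact σ.injective h
      · intro b hb
        refine ⟨σ.symm b, ?_, by simp⟩
        simpa [ih] using hb
    refine Prod.ext (ih v) ?_
    funext mt
    apply Fin.ext
    exact congrArg (fun t => min t Δ) (hcard mt)

theorem mem_mball_pull (σ : Equiv.Perm V) (g : Sym2 V → Option (Fin q)) :
    ∀ (ρ : ℕ) (v w : V), w ∈ mball (fun e => g (e.map σ)) ρ v ↔ σ w ∈ mball g ρ (σ v)
  | 0, v, w => by simp [mball]
  | ρ + 1, v, w => by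
    have ih := mem_mball_pull σ g ρ v
    simp only [mball, Finset.mem_union, Finset.mem_filter, Finset.mem_univ, true_and,
      Sym2.map_mk]
    rw [ih w]
    constructor
    · rintro (h | ⟨u, hu, hg⟩)
      · exact Or.inl h
      · exact Or.inr ⟨σ u, (ih u).1 hu, by simpa using hg⟩
    · rintro (h | ⟨u, hu, hg⟩)
      · exact Or.inl h
      · refine Or.inr ⟨σ.symm u, (ih _).2 (by simpa using hu), by simpa using hg⟩

/-- Relabelling of marked graphs. -/
def pullE (q : ℕ) (σ : Equiv.Perm V) : (Sym2 V → Option (Fin q)) ≃ (Sym2 V → Option (Fin q)) where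
  toFun g := fun e => g (e.map σ)
  invFun g := fun e => g (e.map σ.symm)
  left_inv g := by
    funext e
    simp [Sym2.map_map]
  right_inv g := by
    funext e
    simp [Sym2.map_map]

theorem sum_pull (σ : Equiv.Perm V) (μ F : (Sym2 V → Option (Fin q)) → ℝ)
    (hμ : ∀ g, μ (fun e => g (e.map σ)) = μ g) :
    ∑ g, μ g * F g = ∑ g, μ g * F (fun e => g (e.map σ)) := by
  rw [← Equiv.sum_comp (pullE q σ)]
  apply Finset.sum_congr rfl
  intro g _
  change μ (fun e => g (e.map σ)) * F (fun e => g (e.map σ)) = _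
  rw [hμ]

end Pull

theorem freqZero : FreqZero := by
  intro n q Δ r μ τ hμ
  unfold typFreq
  have h1 : ∀ g : Sym2 (Fin (n + 1)) → Option (Fin q),
      (#{i | typ Δ (prune Δ g) r i = τ} : ℝ) =
        ∑ i, (if typ Δ (prune Δ g) r i = τ then (1 : ℝ) else 0) := by
    intro g
    rw [Finset.sum_boole]
  have h2 : ∀ i : Fin (n + 1),
      ∑ g, μ g * (if typ Δ (prune Δ g) r i = τ then (1 : ℝ) else 0) =
        ∑ g, μ g * (if typ Δ (prune Δ g) r 0 = τ then (1 : ℝ) else 0) := by
    intro i
    rw [sum_pull (Equiv.swap 0 i) μ _ (hμ _)]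
    apply Finset.sum_congr rfl
    intro g _
    rw [prune_pull, typ_pull, Equiv.swap_apply_right]
  have h3 : ∑ g, μ g * (#{i | typ Δ (prune Δ g) r i = τ} : ℝ) =
      (n + 1 : ℝ) * ∑ g, μ g * (if typ Δ (prune Δ g) r 0 = τ then (1 : ℝ) else 0) := by
    simp only [h1, Finset.mul_sum]
    rw [Finset.sum_comm]
    simp only [← Finset.mul_sum]
    rw [Finset.sum_congr rfl (fun i _ => h2 i)]
    simp
  rw [h3, Fintype.card_fin]
  push_cast
  field_simp

/-- The first `k + 1` vertices. -/
def U0 (n k : ℕ) (hk : k + 1 ≤ n + 1) : Finset (Fin (n + 1)) :=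
  univ.image (Fin.castLE hk : Fin (k + 1) → Fin (n + 1))

theorem card_U0 (n k : ℕ) (hk : k + 1 ≤ n + 1) : #(U0 n k hk) = k + 1 := by
  unfold U0
  rw [Finset.card_image_of_injective _ (Fin.castLE_injective hk)]
  simp

theorem zero_mem_U0 (n k : ℕ) (hk : k + 1 ≤ n + 1) : (0 : Fin (n + 1)) ∈ U0 n k hk := by
  unfold U0
  rw [Finset.mem_image]
  exact ⟨0, Finset.mem_univ _, by simp⟩

/-- The sets with `k + 1` elements which contain `0`. -/
theorem card_sets (n k : ℕ) :
    #((powersetCard (k + 1) (univ : Finset (Fin (n + 1)))).filter fun U => (0 : Fin (n + 1)) ∈ U) =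
      n.choose k := by
  have h : ((powersetCard (k + 1) (univ : Finset (Fin (n + 1)))).filter
      fun U => (0 : Fin (n + 1)) ∈ U) =
      (powersetCard k ((univ : Finset (Fin (n + 1))).erase 0)).image (insert 0) := by
    ext U
    simp only [Finset.mem_filter, Finset.mem_powersetCard, Finset.mem_image, Finset.subset_univ,
      true_and]
    constructor
    · rintro ⟨h1, h2⟩
      refine ⟨U.erase 0, ⟨?_, ?_⟩, Finset.insert_erase h2⟩
      · exact Finset.erase_subset_erase _ (Finset.subset_univ _)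
      · rw [Finset.card_erase_of_mem h2, h1]
        rfl
    · rintro ⟨W, ⟨h1, h2⟩, rfl⟩
      have h0 : (0 : Fin (n + 1)) ∉ W := fun h => by
        have := h1 h
        simp at this
      refine ⟨?_, Finset.mem_insert_self _ _⟩
      rw [Finset.card_insert_of_notMem h0, h2]
  rw [h, Finset.card_image_of_injOn, Finset.card_powersetCard, Finset.card_erase_of_mem
    (Finset.mem_univ _)]
  · simp
  · intro A hA B hB hAB
    rw [Finset.mem_coe, Finset.mem_powersetCard] at hA hB
    have hA0 : (0 : Fin (n + 1)) ∉ A := fun h => by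
      have := hA.1 h
      simp at this
    have hB0 : (0 : Fin (n + 1)) ∉ B := fun h => by
      have := hB.1 h
      simp at this
    have := congrArg (fun C => Finset.erase C 0) hAB
    simpa [Finset.erase_insert hA0, Finset.erase_insert hB0] using this

/-- A permutation fixing `0` which maps `U₀` to `U`. -/
theorem exists_perm {N : ℕ} (U U' : Finset (Fin (N + 1))) (h0 : (0 : Fin (N + 1)) ∈ U)
    (h0' : (0 : Fin (N + 1)) ∈ U') (hc : #U = #U') :
    ∃ σ : Equiv.Perm (Fin (N + 1)), σ 0 = 0 ∧ ∀ w, σ w ∈ U' ↔ w ∈ U := by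
  classical
  have e : {x // x ∈ U} ≃ {x // x ∈ U'} := Fintype.equivOfCardEq (by simpa using hc)
  obtain ⟨σ, hσ⟩ : ∃ σ : Equiv.Perm (Fin (N + 1)), ∀ w, σ w ∈ U' ↔ w ∈ U := by
    refine ⟨e.extendSubtype, fun w => ?_⟩
    constructor
    · intro h
      by_contra hw
      exact Equiv.extendSubtype_not_mem e w hw h
    · intro h
      exact Equiv.extendSubtype_mem e w h
  -- correct the image of `0`
  refine ⟨σ.trans (Equiv.swap (σ 0) 0), by simp, fun w => ?_⟩
  rw [← hσ w]
  simp only [Equiv.trans_apply]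
  have h00 : σ 0 ∈ U' := (hσ 0).2 h0
  by_cases h1 : σ w = σ 0
  · rw [h1, Equiv.swap_apply_left]
    exact ⟨fun _ => h00, fun _ => h0'⟩
  · by_cases h2 : σ w = 0
    · rw [h2, Equiv.swap_apply_right]
      exact ⟨fun _ => h0', fun _ => h00⟩
    · rw [Equiv.swap_apply_of_ne_of_ne h1 h2]

open Classical in
theorem decomp (h1 : TypLocal) (h2 : BallPattern) : Decomp := by
  intro n q Δ r k hk μ τ hμ
  set ι : Fin (k + 1) → Fin (n + 1) := Fin.castLE hk with hι
  have hιinj : Function.Injective ι := Fin.castLE_injective hk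
  have hι0 : ι 0 = 0 := by simp [hι]
  -- weight of the event that the ball is `U`
  set f : Finset (Fin (n + 1)) → ℝ := fun U =>
    ∑ g, μ g * (if typ Δ (prune Δ g) r 0 = τ ∧ mball g (r + 1) 0 = U then (1 : ℝ) else 0) with hf
  have hmem0 : ∀ (g : Sym2 (Fin (n + 1)) → Option (Fin q)) (ρ : ℕ),
      (0 : Fin (n + 1)) ∈ mball g ρ 0 := by
    intro g ρ
    induction ρ with
    | zero => simp [mball]
    | succ ρ ih => exact Finset.mem_union_left _ ih
  set C := (powersetCard (k + 1) (univ : Finset (Fin (n + 1)))).filter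
    fun U => (0 : Fin (n + 1)) ∈ U with hC
  have hsplit : ∑ g, μ g *
      (if typ Δ (prune Δ g) r 0 = τ ∧ #(mball g (r + 1) 0) = k + 1 then (1 : ℝ) else 0) =
      ∑ U ∈ C, f U := by
    simp only [hf]
    rw [Finset.sum_comm]
    apply Finset.sum_congr rfl
    intro g _
    rw [← Finset.mul_sum]
    congr 1
    by_cases hc : typ Δ (prune Δ g) r 0 = τ ∧ #(mball g (r + 1) 0) = k + 1
    · rw [if_pos hc]
      rw [Finset.sum_eq_single (mball g (r + 1) 0)]
      · rw [if_pos ⟨hc.1, rfl⟩]
      · intro U _ hU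
        rw [if_neg]
        rintro ⟨_, h⟩
        exact hU h.symm
      · intro h
        exfalso
        apply h
        rw [hC, Finset.mem_filter, Finset.mem_powersetCard]
        exact ⟨⟨Finset.subset_univ _, hc.2⟩, hmem0 g _⟩
    · rw [if_neg hc]
      symm
      apply Finset.sum_eq_zero
      intro U hU
      rw [if_neg]
      rintro ⟨ht, hb⟩
      apply hc
      refine ⟨ht, ?_⟩
      rw [hb]
      rw [hC, Finset.mem_filter, Finset.mem_powersetCard] at hU
      exact hU.1.2
  have hconst : ∀ U ∈ C, f U = f (U0 n k hk) := by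
    intro U hU
    rw [hC, Finset.mem_filter, Finset.mem_powersetCard] at hU
    obtain ⟨σ, hσ0, hσ⟩ := exists_perm U (U0 n k hk) hU.2 (zero_mem_U0 n k hk)
      (by rw [hU.1.2, card_U0])
    -- `mball (pull σ g) = U ↔ mball g = U0`
    have hb : ∀ g : Sym2 (Fin (n + 1)) → Option (Fin q),
        mball (fun e => g (e.map σ)) (r + 1) 0 = U ↔ mball g (r + 1) 0 = U0 n k hk := by
      intro g
      constructor
      · intro h
        ext w
        have h3 := mem_mball_pull σ g (r + 1) 0 (σ.symm w)
        rw [h, hσ0, Equiv.apply_symm_apply] at h3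
        rw [← h3, ← hσ, Equiv.apply_symm_apply]
      · intro h
        ext w
        rw [mem_mball_pull σ g (r + 1) 0 w, hσ0, h, hσ]
    simp only [hf]
    rw [sum_pull σ μ _ (hμ σ)]
    apply Finset.sum_congr rfl
    intro g _
    rw [prune_pull, typ_pull, hσ0]
    simp only [hb g]
  rw [hsplit, Finset.sum_congr rfl hconst, Finset.sum_const, hC, card_sets, nsmul_eq_mul]
  congr 1
  -- expand over patterns
  simp only [hf]
  have hout : ∀ v : Fin (n + 1), (∀ j, ι j ≠ v) ↔ k < (v : ℕ) := by
    intro v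
    constructor
    · intro h
      by_contra hv
      push Not at hv
      apply h ⟨v, by omega⟩
      apply Fin.ext
      simp [hι]
    · intro h j hj
      rw [← hj] at h
      simp [hι] at h
      have := j.2
      omega
  have hU0 : ∀ g : Sym2 (Fin (n + 1)) → Option (Fin q),
      mball g (r + 1) 0 = U0 n k hk ↔
      (mball (fun e => g (e.map ι)) (r + 1) 0 = univ ∧
        ∀ i ∈ mball (fun e => g (e.map ι)) r 0, ∀ v : Fin (n + 1), k < (v : ℕ) →
          g s(ι i, v) = none) := by
    intro g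
    have h3 := h2 (Fin (n + 1)) q r k ι g hιinj
    rw [hι0] at h3
    simp only [hout] at h3
    exact h3
  have hev : ∀ g : Sym2 (Fin (n + 1)) → Option (Fin q),
      (if typ Δ (prune Δ g) r 0 = τ ∧ mball g (r + 1) 0 = U0 n k hk then (1 : ℝ) else 0) =
      ∑ P : Sym2 (Fin (k + 1)) → Option (Fin q),
        if mball P (r + 1) 0 = univ ∧ typ Δ (prune Δ P) r 0 = τ
        then (if (∀ e, g (e.map ι) = P e) ∧
          (∀ i ∈ mball P r 0, ∀ v : Fin (n + 1), k < (v : ℕ) → g s(ι i, v) = none)
          then (1 : ℝ) else 0) else 0 := by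
    intro g
    rw [Finset.sum_eq_single (fun e => g (e.map ι))]
    · by_cases hb : mball g (r + 1) 0 = U0 n k hk
      · obtain ⟨hb1, hb2⟩ := (hU0 g).1 hb
        have ht : typ Δ (prune Δ g) r 0 = typ Δ (prune Δ (fun e => g (e.map ι))) r 0 := by
          have h4 := h1 (Fin (n + 1)) q Δ r k ι g hιinj
            (fun i hi v hv => hb2 i hi v ((hout v).1 hv))
          rwa [hι0] at h4
        by_cases hτ : typ Δ (prune Δ (fun e => g (e.map ι))) r 0 = τ
        · rw [if_pos ⟨ht.trans hτ, hb⟩, if_pos ⟨hb1, hτ⟩, if_pos ⟨fun _ => rfl, hb2⟩]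
        · rw [if_neg, if_neg]
          · rintro ⟨_, h⟩
            exact hτ h
          · rintro ⟨h, _⟩
            exact hτ (ht.symm.trans h)
      · rw [if_neg]
        · symm
          by_cases hc : mball (fun e => g (e.map ι)) (r + 1) 0 = univ ∧
              typ Δ (prune Δ (fun e => g (e.map ι))) r 0 = τ
          · rw [if_pos hc, if_neg]
            rintro ⟨_, h⟩
            exact hb ((hU0 g).2 ⟨hc.1, h⟩)
          · rw [if_neg hc]
        · rintro ⟨_, h⟩
          exact hb h
    · intro P _ hP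
      by_cases hc : mball P (r + 1) 0 = univ ∧ typ Δ (prune Δ P) r 0 = τ
      · rw [if_pos hc, if_neg]
        rintro ⟨h, _⟩
        exact hP (funext fun e => (h e).symm)
      · rw [if_neg hc]
    · intro h
      exact absurd (Finset.mem_univ _) h
  rw [Finset.sum_congr rfl (fun g _ => by rw [hev g])]
  simp only [Finset.mul_sum]
  rw [Finset.sum_comm]
  apply Finset.sum_congr rfl
  intro P _
  by_cases hc : mball P (r + 1) 0 = univ ∧ typ Δ (prune Δ P) r 0 = τ
  · rw [if_pos hc]
    unfold kap
    apply Finset.sum_congr rfl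
    intro g _
    rw [if_pos hc]
  · rw [if_neg hc]
    apply Finset.sum_eq_zero
    intro g _
    rw [if_neg hc, mul_zero]

end MP329
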