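import Pool.Agent.Lib.MP_329b4d_pr.Defs

/-!
# MP_329b4d_pr: basic facts on finite Bernoulli sets
-/

namespace MP329

open Finset

section Bern

variable {ι : Type*} [Fintype ι] [DecidableEq ι] {q : ℝ}

theorem wt_eq (q : ℝ) (S : Finset ι) : wt q S = q ^ #S * (1 - q) ^ #Sᶜ := by
  unfold wt
  rw [Finset.prod_ite]
  simp only [Finset.prod_const]
  congr 2
  · congr 1; ext; simp
  · congr 1; ext; simp

theorem wt_nonneg (h0 : 0 ≤ q) (h1 : q ≤ 1) (S : Finset ι) : 0 ≤ wt q S := by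
  unfold wt
  apply Finset.prod_nonneg
  intro i _
  split_ifs <;> linarith

/-- Expansion of a product of sums over subsets. -/
theorem sum_prod_ite (f g : ι → ℝ) :
    ∑ S : Finset ι, ∏ i, (if i ∈ S then f i else g i) = ∏ i, (f i + g i) := by
  have h := Finset.prod_add f g (Finset.univ : Finset ι)
  rw [h, Finset.powerset_univ]
  apply Finset.sum_congr rfl
  intro S _
  rw [Finset.prod_ite]
  congr 1
  · apply Finset.prod_congr _ (fun _ _ => rfl); ext; simp
  · apply Finset.prod_congr _ (fun _ _ => rfl); ext; simp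

theorem sum_wt (q : ℝ) : ∑ S : Finset ι, wt q S = 1 := by
  unfold wt
  rw [sum_prod_ite (fun _ => q) (fun _ => 1 - q)]
  simp

theorem Ex_const (q c : ℝ) : Ex q (fun _ : Finset ι => c) = c := by
  unfold Ex
  rw [← Finset.sum_mul, sum_wt, one_mul]

theorem Ex_add (q : ℝ) (f g : Finset ι → ℝ) : Ex q (fun S => f S + g S) = Ex q f + Ex q g := by
  unfold Ex
  simp only [mul_add, Finset.sum_add_distrib]

theorem Ex_sub (q : ℝ) (f g : Finset ι → ℝ) : Ex q (fun S => f S - g S) = Ex q f - Ex q g := by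
  unfold Ex
  simp only [mul_sub, Finset.sum_sub_distrib]

theorem Ex_mul_left (q c : ℝ) (f : Finset ι → ℝ) : Ex q (fun S => c * f S) = c * Ex q f := by
  unfold Ex
  rw [Finset.mul_sum]
  apply Finset.sum_congr rfl
  intro S _
  ring

theorem Ex_sum {τ : Type*} (q : ℝ) (s : Finset τ) (f : τ → Finset ι → ℝ) :
    Ex q (fun S => ∑ t ∈ s, f t S) = ∑ t ∈ s, Ex q (f t) := by
  unfold Ex
  simp only [Finset.mul_sum]
  rw [Finset.sum_comm]

theorem Ex_mono (h0 : 0 ≤ q) (h1 : q ≤ 1) {f g : Finset ι → ℝ} (h : ∀ S, f S ≤ g S) :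
    Ex q f ≤ Ex q g := by
  unfold Ex
  apply Finset.sum_le_sum
  intro S _
  exact mul_le_mul_of_nonneg_left (h S) (wt_nonneg h0 h1 S)

theorem Ex_congr {f g : Finset ι → ℝ} (h : ∀ S, f S = g S) : Ex q f = Ex q g := by
  have : f = g := funext h
  rw [this]

theorem Ex_nonneg (h0 : 0 ≤ q) (h1 : q ≤ 1) {f : Finset ι → ℝ} (h : ∀ S, 0 ≤ f S) :
    0 ≤ Ex q f := by
  have := Ex_mono h0 h1 (f := fun _ : Finset ι => (0 : ℝ)) (g := f) h
  rwa [Ex_const] at this

theorem Pb_nonneg (h0 : 0 ≤ q) (h1 : q ≤ 1) (A : Finset ι → Prop) : 0 ≤ Pb q A := by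
  unfold Pb
  apply Ex_nonneg h0 h1
  intro S
  split_ifs <;> norm_num

theorem Pb_le_one (h0 : 0 ≤ q) (h1 : q ≤ 1) (A : Finset ι → Prop) : Pb q A ≤ 1 := by
  unfold Pb
  have := Ex_mono (ι := ι) h0 h1 (g := fun _ => (1 : ℝ))
    (f := fun S => @ite ℝ (A S) (Classical.propDecidable _) 1 0)
    (by intro S; split_ifs <;> norm_num)
  rwa [Ex_const] at this

theorem Pb_mono (h0 : 0 ≤ q) (h1 : q ≤ 1) {A B : Finset ι → Prop} (h : ∀ S, A S → B S) :
    Pb q A ≤ Pb q B := by
  unfold Pb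
  apply Ex_mono h0 h1
  intro S
  by_cases hA : A S
  · simp [hA, h S hA]
  · simp only [hA, if_false]
    split_ifs <;> norm_num

theorem Pb_not (q : ℝ) (A : Finset ι → Prop) : Pb q (fun S => ¬ A S) = 1 - Pb q A := by
  unfold Pb
  rw [← Ex_const (ι := ι) q 1, ← Ex_sub]
  apply Ex_congr
  intro S
  by_cases hA : A S <;> simp [hA, Ex_const]

theorem Pb_true (q : ℝ) : Pb q (fun _ : Finset ι => True) = 1 := by
  unfold Pb
  simp [Ex_const]

theorem Pb_of_forall (q : ℝ) {A : Finset ι → Prop} (h : ∀ S, A S) : Pb q A = 1 := by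
  have : A = fun _ => True := by funext S; simp [h S]
  rw [this, Pb_true]

/-- Union bound for two events. -/
theorem Pb_or_le (h0 : 0 ≤ q) (h1 : q ≤ 1) (A B : Finset ι → Prop) :
    Pb q (fun S => A S ∨ B S) ≤ Pb q A + Pb q B := by
  unfold Pb
  rw [← Ex_add]
  apply Ex_mono h0 h1
  intro S
  by_cases hA : A S <;> by_cases hB : B S <;> simp [hA, hB]

/-- Union bound. -/
theorem Pb_exists_le {τ : Type*} (h0 : 0 ≤ q) (h1 : q ≤ 1) (s : Finset τ)
    (A : τ → Finset ι → Prop) :
    Pb q (fun S => ∃ t ∈ s, A t S) ≤ ∑ t ∈ s, Pb q (A t) := by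
  unfold Pb
  rw [← Ex_sum]
  apply Ex_mono h0 h1
  intro S
  simp only
  split_ifs with h
  · obtain ⟨t, ht, hA⟩ := h
    have h1 : (1 : ℝ) = @ite ℝ (A t S) (Classical.propDecidable _) 1 0 := by simp [hA]
    have h2 := Finset.single_le_sum
      (f := fun t => @ite ℝ (A t S) (Classical.propDecidable _) 1 0) (s := s)
      (by intro i _; split_ifs <;> norm_num) ht
    exact le_trans (le_of_eq h1) h2
  · exact Finset.sum_nonneg (by intro i _; split_ifs <;> norm_num)

/-- Two events which are both likely are likely together. -/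
theorem Pb_and_ge (h0 : 0 ≤ q) (h1 : q ≤ 1) (A B : Finset ι → Prop) {a b : ℝ}
    (hA : 1 - a ≤ Pb q A) (hB : 1 - b ≤ Pb q B) : 1 - (a + b) ≤ Pb q (fun S => A S ∧ B S) := by
  have h : Pb q (fun S => ¬ (A S ∧ B S)) ≤ Pb q (fun S => ¬ A S) + Pb q (fun S => ¬ B S) := by
    refine le_trans (Pb_mono h0 h1 ?_) (Pb_or_le h0 h1 _ _)
    intro S hS
    by_contra hcon
    push Not at hcon
    exact hS ⟨hcon.1, hcon.2⟩
  rw [Pb_not, Pb_not, Pb_not] at h
  linarith

/-- Markov's inequality. -/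
theorem Pb_le_Ex_div (h0 : 0 ≤ q) (h1 : q ≤ 1) {f : Finset ι → ℝ} (hf : ∀ S, 0 ≤ f S) {t : ℝ}
    (ht : 0 < t) : Pb q (fun S => t ≤ f S) ≤ Ex q f / t := by
  unfold Pb
  rw [div_eq_inv_mul, ← Ex_mul_left]
  apply Ex_mono h0 h1
  intro S
  split_ifs with h
  · rw [inv_mul_eq_div, le_div_iff₀ ht]
    linarith
  · exact mul_nonneg (inv_nonneg.mpr ht.le) (hf S)

/-- The probability that a fixed set is kept. -/
theorem Pb_subset (q : ℝ) (D : Finset ι) : Pb q (fun S => D ⊆ S) = q ^ #D := by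
  have h := sum_prod_ite (fun _ : ι => q) (fun i : ι => if i ∈ D then 0 else 1 - q)
  have hl : ∏ i : ι, (q + if i ∈ D then 0 else 1 - q) = q ^ #D := by
    have : ∀ i : ι, (q + if i ∈ D then 0 else 1 - q) = if i ∈ D then q else 1 := by
      intro i; split_ifs <;> ring
    simp only [this]
    rw [Finset.prod_ite_mem]
    simp
  rw [← hl, ← h]
  unfold Pb Ex
  apply Finset.sum_congr rfl
  intro S _
  by_cases hS : D ⊆ S
  · simp only [hS, if_true, mul_one]
    unfold wt
    apply Finset.prod_congr rfl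
    intro i _
    by_cases hi : i ∈ S
    · simp [hi]
    · have : i ∉ D := fun h => hi (hS h)
      simp [hi, this]
  · simp only [hS, if_false, mul_zero]
    obtain ⟨i, hi, hiS⟩ := Finset.not_subset.mp hS
    symm
    apply Finset.prod_eq_zero (Finset.mem_univ i)
    simp [hi, hiS]

/-- The probability that a fixed set is avoided. -/
theorem Pb_disjoint (q : ℝ) (D : Finset ι) : Pb q (fun S => Disjoint D S) = (1 - q) ^ #D := by
  have h := sum_prod_ite (fun i : ι => if i ∈ D then 0 else q) (fun _ : ι => 1 - q)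
  have hl : ∏ i : ι, ((if i ∈ D then 0 else q) + (1 - q)) = (1 - q) ^ #D := by
    have : ∀ i : ι, ((if i ∈ D then 0 else q) + (1 - q)) = if i ∈ D then 1 - q else 1 := by
      intro i; split_ifs <;> ring
    simp only [this]
    rw [Finset.prod_ite_mem]
    simp
  rw [← hl, ← h]
  unfold Pb Ex
  apply Finset.sum_congr rfl
  intro S _
  by_cases hS : Disjoint D S
  · simp only [hS, if_true, mul_one]
    unfold wt
    apply Finset.prod_congr rfl
    intro i _
    by_cases hi : i ∈ S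
    · have : i ∉ D := fun h => (Finset.disjoint_left.mp hS h) hi
      simp [hi, this]
    · simp [hi]
  · simp only [hS, if_false, mul_zero]
    obtain ⟨i, hi, hiS⟩ := Finset.not_disjoint_iff.mp hS
    symm
    apply Finset.prod_eq_zero (Finset.mem_univ i)
    simp [hi, hiS]

end Bern

end MP329
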