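import Pool.Agent.Lib.MP_329b4d_pr.SpecI
import Pool.Agent.Lib.MP_329b4d_pr.Basic

/-!
# MP_329b4d_pr: I5, the integral formula for `kap`
-/

namespace MP329

open Finset MeasureTheory

theorem I5.markOf_eq_none_iff {q : ℕ} (hq : 1 ≤ q) {t : ℝ} (ht : 0 ≤ t) :
    markOf q t = none ↔ 1 ≤ t := by
  unfold markOf
  have hq' : (0 : ℝ) < q := by exact_mod_cast hq
  split_ifs with h
  · rw [Nat.floor_lt (by positivity)] at h
    simp only [false_iff, not_le]
    by_contra hc
    push Not at hc
    nlinarith
  · rw [Nat.floor_lt (by positivity), not_lt] at h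
    simp only [true_iff]
    by_contra hc
    push Not at hc
    nlinarith

theorem I5.len_nonneg {V : Type*} {M : Type*} [PseudoMetricSpace M] (X : V → M) (e : Sym2 V) :
    0 ≤ len X e := by
  induction e with
  | _ a b => exact dist_nonneg

theorem I5.markOf_len {V : Type*} {M : Type*} [PseudoMetricSpace M] {q : ℕ} (hq : 1 ≤ q) {R : ℝ}
    (hR : 0 < R) (X : V → M) (e : Sym2 V) : markOf q (len X e / R) = none ↔ R ≤ len X e := by
  rw [I5.markOf_eq_none_iff hq (div_nonneg (I5.len_nonneg X e) hR.le), le_div_iff₀ hR, one_mul]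

theorem I5.len_map {V V' : Type*} {M : Type*} [PseudoMetricSpace M] (X : V → M) (f : V' → V)
    (e : Sym2 V') : len X (e.map f) = len (X ∘ f) e := by
  induction e with
  | _ a b => rfl

/-- The value of the marked graph on a pair, as a function of the coin. -/
noncomputable def I5.gv {V : Type*} {d : ℕ} (q : ℕ) (R : ℝ) (X : V → Pt d) (e : Sym2 V)
    (b : Prop) : Option (Fin q) := by
  classical exact if b ∧ ¬ e.IsDiag then markOf q (len X e / R) else none

theorem I5.geo_eq {V : Type*} [DecidableEq V] {d : ℕ} (q : ℕ) (R : ℝ) (X : V → Pt d)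
    (S : Finset (Sym2 V)) (e : Sym2 V) : geo q R X S e = I5.gv q R X e (e ∈ S) := by
  unfold geo I5.gv
  split_ifs <;> rfl

open Classical in
/-- The probability that the condition `C e` on the coin `e` holds. -/
noncomputable def I5.af {ι : Type*} (p : ℝ) (C : ι → Prop → Prop) (e : ι) : ℝ :=
  p * (if C e True then 1 else 0) + (1 - p) * (if C e False then 1 else 0)

/-- `Ex` of the indicator of a conjunction of conditions on single coins. -/
theorem I5.Ex_forall {ι : Type*} [Fintype ι] [DecidableEq ι] (p : ℝ) (C : ι → Prop → Prop)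
    (F : Finset ι → ℝ) (hF1 : ∀ S, (∀ e, C e (e ∈ S)) → F S = 1)
    (hF0 : ∀ S, ¬ (∀ e, C e (e ∈ S)) → F S = 0) :
    Ex p F = ∏ e, I5.af p C e := by
  classical
  unfold I5.af
  rw [← sum_prod_ite]
  unfold Ex
  apply Finset.sum_congr rfl
  intro S _
  have h1 : F S = ∏ e, if C e (e ∈ S) then (1 : ℝ) else 0 := by
    rw [Finset.prod_boole]
    by_cases h : ∀ e, C e (e ∈ S)
    · rw [hF1 S h, if_pos (fun e _ => h e)]
    · rw [hF0 S h, if_neg (fun h' => h (fun e => h' e (Finset.mem_univ e)))]
  rw [h1]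
  unfold wt
  rw [← Finset.prod_mul_distrib]
  apply Finset.prod_congr rfl
  intro e _
  by_cases he : e ∈ S
  · simp [he]
  · simp [he]

section Pointwise

variable {n d q k : ℕ}

theorem I5.map_ne (hk : k + 1 ≤ n + 1) (e : Sym2 (Fin (k + 1))) (i : Fin (k + 1))
    (v : Fin (n + 1)) (hv : k < (v : ℕ)) : s(Fin.castLE hk i, v) ≠ e.map (Fin.castLE hk) := by
  intro h
  have : v ∈ e.map (Fin.castLE hk) := by rw [← h]; simp
  rw [Sym2.mem_map] at this
  obtain ⟨a, _, ha⟩ := this
  have := a.2
  rw [← ha] at hv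
  simp at hv
  omega

theorem I5.pair_inj (hk : k + 1 ≤ n + 1) {i j : Fin (k + 1)} {v w : Fin (n + 1)}
    (hw : k < (w : ℕ))
    (h : s(Fin.castLE hk i, v) = s(Fin.castLE hk j, w)) : i = j ∧ v = w := by
  rw [Sym2.eq_iff] at h
  rcases h with ⟨h1, h2⟩ | ⟨h1, h2⟩
  · exact ⟨Fin.castLE_injective hk h1, h2⟩
  · exfalso
    have := i.2
    rw [← h1] at hw
    simp at hw
    omega

open Classical in
theorem I5.Ex_eq (hk : k + 1 ≤ n + 1) (p R : ℝ) (P : Sym2 (Fin (k + 1)) → Option (Fin q))
    (I : Finset (Fin (k + 1))) (X : Fin (n + 1) → Pt d) (hR : 0 < R) (hq : 1 ≤ q) :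
    Ex p (fun S => if (∀ e, geo q R X S (e.map (Fin.castLE hk)) = P e) ∧
      (∀ i ∈ I, ∀ v : Fin (n + 1), k < (v : ℕ) → geo q R X S s(Fin.castLE hk i, v) = none)
      then (1 : ℝ) else 0) =
    (∏ e, facP p R P (X ∘ Fin.castLE hk) e) *
      ∏ v : {v : Fin (n + 1) // k < (v : ℕ)}, ∏ i ∈ I,
        (1 - if dist (X (Fin.castLE hk i)) (X v) < R then p else 0) := by
  set C : Sym2 (Fin (n + 1)) → Prop → Prop := fun e b =>
    (∀ e' : Sym2 (Fin (k + 1)), e'.map (Fin.castLE hk) = e → I5.gv q R X e b = P e') ∧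
    (∀ i ∈ I, ∀ v : Fin (n + 1), k < (v : ℕ) → s(Fin.castLE hk i, v) = e →
      I5.gv q R X e b = none) with hC
  have hcond : ∀ S : Finset (Sym2 (Fin (n + 1))),
      ((∀ e, geo q R X S (e.map (Fin.castLE hk)) = P e) ∧
      (∀ i ∈ I, ∀ v : Fin (n + 1), k < (v : ℕ) → geo q R X S s(Fin.castLE hk i, v) = none)) ↔
      ∀ e, C e (e ∈ S) := by
    intro S
    constructor
    · rintro ⟨h1, h2⟩ e
      refine ⟨?_, ?_⟩
      · rintro e' rfl
        rw [← h1 e', I5.geo_eq]
      · rintro i hi v hv rfl
        rw [← h2 i hi v hv, I5.geo_eq]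
    · intro h
      refine ⟨?_, ?_⟩
      · intro e'
        rw [I5.geo_eq]
        exact (h _).1 e' rfl
      · intro i hi v hv
        rw [I5.geo_eq]
        exact (h _).2 i hi v hv rfl
  rw [I5.Ex_forall p C _ (fun S h => if_pos ((hcond S).mpr h))
    (fun S h => if_neg (fun h' => h ((hcond S).mp h')))]
  set a : Sym2 (Fin (n + 1)) → ℝ := I5.af p C with ha
  -- the three kinds of pairs
  have hinj : Function.Injective (Sym2.map (Fin.castLE hk)) :=
    Sym2.map.injective (Fin.castLE_injective hk)
  have ha1 : ∀ e' : Sym2 (Fin (k + 1)), a (e'.map (Fin.castLE hk)) =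
      facP p R P (X ∘ Fin.castLE hk) e' := by
    intro e'
    have hCe : ∀ b, C (e'.map (Fin.castLE hk)) b ↔
        I5.gv q R X (e'.map (Fin.castLE hk)) b = P e' := by
      intro b
      constructor
      · intro h
        exact h.1 e' rfl
      · intro h
        refine ⟨?_, ?_⟩
        · intro e'' he''
          rw [hinj he'']
          exact h
        · intro i hi v hv hiv
          exact absurd hiv (I5.map_ne hk e' i v hv)
    have hdiag : (e'.map (Fin.castLE hk)).IsDiag ↔ e'.IsDiag := by
      induction e' with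
      | _ x y => simp
    simp only [ha, I5.af, hCe]
    unfold facP I5.gv
    rw [I5.len_map]
    by_cases hd : e'.IsDiag
    · simp only [hdiag, hd, not_true_eq_false, and_false, if_false, if_true]
      by_cases hP : P e' = none
      · simp [hP]
      · have hP' : ¬ (none = P e') := fun h => hP h.symm
        simp [hP, hP']
    · simp only [hdiag, hd, not_false_eq_true, and_true, if_true, if_false]
      by_cases hP : P e' = none
      · simp only [hP, I5.markOf_len hq hR]
        by_cases hl : len (X ∘ Fin.castLE hk) e' < R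
        · simp [hl, not_le.mpr hl]
        · simp [hl, not_lt.mp hl]
      · have hP' : ¬ (none = P e') := fun h => hP h.symm
        simp only [hP, hP', if_false, mul_zero, add_zero]
        split_ifs <;> simp
  have ha2 : ∀ i ∈ I, ∀ v : Fin (n + 1), k < (v : ℕ) → a s(Fin.castLE hk i, v) =
      1 - if dist (X (Fin.castLE hk i)) (X v) < R then p else 0 := by
    intro i hi v hv
    have hCe : ∀ b, C s(Fin.castLE hk i, v) b ↔ I5.gv q R X s(Fin.castLE hk i, v) b = none := by
      intro b
      constructor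
      · intro h
        exact h.2 i hi v hv rfl
      · intro h
        refine ⟨?_, ?_⟩
        · intro e' he'
          exact absurd he'.symm (I5.map_ne hk e' i v hv)
        · intro j hj w hw hjw
          exact h
    have hd : ¬ (s(Fin.castLE hk i, v) : Sym2 (Fin (n + 1))).IsDiag := by
      rw [Sym2.mk_isDiag_iff]
      intro h
      have := i.2
      rw [← h] at hv
      simp at hv
      omega
    have hlen : len X s(Fin.castLE hk i, v) = dist (X (Fin.castLE hk i)) (X v) := rfl
    simp only [ha, I5.af, hCe]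
    unfold I5.gv
    simp only [hd, not_false_eq_true, and_true, if_true, if_false, I5.markOf_len hq hR]
    simp only [hlen]
    by_cases hl : dist (X (Fin.castLE hk i)) (X v) < R
    · simp [hl, not_le.mpr hl]
    · simp [hl, not_lt.mp hl]
  have ha3 : ∀ e, (∀ e' : Sym2 (Fin (k + 1)), e'.map (Fin.castLE hk) ≠ e) →
      (∀ i ∈ I, ∀ v : Fin (n + 1), k < (v : ℕ) → s(Fin.castLE hk i, v) ≠ e) → a e = 1 := by
    intro e h1 h2
    have hCe : ∀ b, C e b := by
      intro b
      exact ⟨fun e' he' => absurd he' (h1 e'), fun i hi v hv hiv => absurd hiv (h2 i hi v hv)⟩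
    simp [ha, I5.af, hCe]
  -- the product
  set A : Finset (Sym2 (Fin (n + 1))) := univ.image (Sym2.map (Fin.castLE hk)) with hA
  set B0 : Finset (Fin (k + 1) × {v : Fin (n + 1) // k < (v : ℕ)}) := I ×ˢ univ with hB0
  set B : Finset (Sym2 (Fin (n + 1))) := B0.image fun x => s(Fin.castLE hk x.1, (x.2 : Fin (n + 1)))
    with hB
  have hAB : Disjoint A B := by
    rw [Finset.disjoint_left]
    intro e he1 he2
    simp only [hA, hB, Finset.mem_image, Finset.mem_univ, true_and] at he1 he2
    obtain ⟨e', rfl⟩ := he1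
    obtain ⟨x, _, hx⟩ := he2
    exact I5.map_ne hk e' x.1 x.2 x.2.2 hx
  have hprod : ∏ e, a e = ∏ e ∈ A ∪ B, a e := by
    symm
    apply Finset.prod_subset (Finset.subset_univ _)
    intro e _ he
    rw [Finset.mem_union, not_or] at he
    apply ha3 e
    · intro e' he'
      exact he.1 (by rw [hA]; exact Finset.mem_image.mpr ⟨e', Finset.mem_univ _, he'⟩)
    · intro i hi v hv hiv
      exact he.2 (by rw [hB]; exact Finset.mem_image.mpr ⟨(i, ⟨v, hv⟩), by simp [hB0, hi], hiv⟩)
  rw [hprod, Finset.prod_union hAB]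
  congr 1
  · rw [hA, Finset.prod_image (fun x _ y _ h => hinj h)]
    exact Finset.prod_congr rfl fun e' _ => ha1 e'
  · rw [hB, Finset.prod_image]
    · rw [hB0, Finset.prod_product_right]
      apply Finset.prod_congr rfl
      intro v _
      apply Finset.prod_congr rfl
      intro i hi
      exact ha2 i hi v v.2
    · intro x hx y hy h
      obtain ⟨h1, h2⟩ := I5.pair_inj hk y.2.2 h
      exact Prod.ext h1 (Subtype.ext h2)

end Pointwise

section Meas

variable {n d q k : ℕ}

theorem I5.measurable_len {V : Type*} (e : Sym2 V) : Measurable fun Y : V → Pt d => len Y e := by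
  induction e with
  | _ a b => exact (measurable_pi_apply a).dist (measurable_pi_apply b)

theorem I5.measurableSet_markOf (q : ℕ) (m : Fin q) : MeasurableSet {t : ℝ | markOf q t = some m} := by
  have h : {t : ℝ | markOf q t = some m} = (fun t : ℝ => ⌊(q : ℝ) * t⌋₊) ⁻¹' {(m : ℕ)} := by
    ext t
    simp only [Set.mem_ofPred_eq, Set.mem_preimage, Set.mem_singleton_iff]
    unfold markOf
    split_ifs with h
    · rw [Option.some_inj, Fin.ext_iff]
    · simp only [false_iff]
      intro hm
      exact h (hm ▸ m.2)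
  rw [h]
  exact (Nat.measurable_floor.comp (measurable_const.mul measurable_id)) (measurableSet_singleton _)

theorem I5.measurable_facP (p R : ℝ) (P : Sym2 (Fin (k + 1)) → Option (Fin q))
    (e : Sym2 (Fin (k + 1))) : Measurable fun Y : Fin (k + 1) → Pt d => facP p R P Y e := by
  unfold facP
  by_cases hd : e.IsDiag
  · simp only [hd, if_true]
    exact measurable_const
  · simp only [hd, if_false]
    by_cases hP : P e = none
    · simp only [hP, if_true]
      apply Measurable.const_sub
      apply Measurable.ite _ measurable_const measurable_const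
      exact measurableSet_lt (I5.measurable_len e) measurable_const
    · simp only [hP, if_false]
      obtain ⟨m, hm⟩ := Option.ne_none_iff_exists'.mp hP
      apply Measurable.ite _ measurable_const measurable_const
      rw [hm]
      have : {Y : Fin (k + 1) → Pt d | markOf q (len Y e / R) = some m} =
          (fun Y : Fin (k + 1) → Pt d => len Y e / R) ⁻¹' {t | markOf q t = some m} := rfl
      rw [this]
      exact ((I5.measurable_len e).div_const R) (I5.measurableSet_markOf q m)

theorem I5.facP_bounds {p R : ℝ} (h0 : 0 ≤ p) (h1 : p ≤ 1)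
    (P : Sym2 (Fin (k + 1)) → Option (Fin q)) (Y : Fin (k + 1) → Pt d) (e : Sym2 (Fin (k + 1))) :
    0 ≤ facP p R P Y e ∧ facP p R P Y e ≤ 1 := by
  unfold facP
  split_ifs <;> constructor <;> linarith

end Meas

section Split

variable {n k : ℕ}

/-- The vertices of `Fin (n + 1)` are the first `k + 1` ones and the others. -/
noncomputable def I5.eqv (hk : k + 1 ≤ n + 1) :
    Fin (k + 1) ⊕ {v : Fin (n + 1) // k < (v : ℕ)} ≃ Fin (n + 1) :=
  Equiv.ofBijective (Sum.elim (Fin.castLE hk) Subtype.val) (by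
    constructor
    · rintro (a | a) (b | b) h
      · exact congrArg Sum.inl (Fin.castLE_injective hk h)
      · exfalso
        simp only [Sum.elim_inl, Sum.elim_inr] at h
        have h1 := a.2
        have h2 := b.2
        rw [← h] at h2
        simp at h2
        omega
      · exfalso
        simp only [Sum.elim_inl, Sum.elim_inr] at h
        have h1 := b.2
        have h2 := a.2
        rw [h] at h2
        simp at h2
        omega
      · exact congrArg Sum.inr (Subtype.ext h)
    · intro v
      by_cases hv : k < (v : ℕ)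
      · exact ⟨Sum.inr ⟨v, hv⟩, rfl⟩
      · exact ⟨Sum.inl ⟨v, by omega⟩, Fin.ext rfl⟩)

theorem I5.card_gt (hk : k + 1 ≤ n + 1) :
    Fintype.card {v : Fin (n + 1) // k < (v : ℕ)} = n - k := by
  have h := Fintype.card_congr (I5.eqv hk)
  rw [Fintype.card_sum, Fintype.card_fin, Fintype.card_fin] at h
  omega

/-- Fubini for the split of the vertices. -/
theorem I5.integral_split {Ω : Type*} [MeasurableSpace Ω] (μ : Measure Ω) [IsProbabilityMeasure μ]
    (hk : k + 1 ≤ n + 1) (G : (Fin (k + 1) → Ω) → ℝ) (H : (Fin (k + 1) → Ω) → Ω → ℝ)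
    (hG : Measurable G) (hG1 : ∀ Y, |G Y| ≤ 1)
    (hH : Measurable fun z : (Fin (k + 1) → Ω) × Ω => H z.1 z.2) (hH1 : ∀ Y y, |H Y y| ≤ 1) :
    ∫ X : Fin (n + 1) → Ω, G (X ∘ Fin.castLE hk) *
      ∏ v : {v : Fin (n + 1) // k < (v : ℕ)}, H (X ∘ Fin.castLE hk) (X v)
        ∂(Measure.pi fun _ => μ) =
    ∫ Y : Fin (k + 1) → Ω, G Y * (∫ y, H Y y ∂μ) ^ (n - k) ∂(Measure.pi fun _ => μ) := by
  have m1 := measurePreserving_piCongrLeft (fun _ : Fin (n + 1) => μ) (I5.eqv hk)
  have m2 := measurePreserving_sumPiEquivProdPi_symm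
    (fun _ : Fin (k + 1) ⊕ {v : Fin (n + 1) // k < (v : ℕ)} => μ)
  have m3 := m1.comp m2
  have hemb : MeasurableEmbedding
      ((MeasurableEquiv.piCongrLeft (fun _ : Fin (n + 1) => Ω) (I5.eqv hk)) ∘
      (MeasurableEquiv.sumPiEquivProdPi
        (fun _ : Fin (k + 1) ⊕ {v : Fin (n + 1) // k < (v : ℕ)} => Ω)).symm) :=
    (MeasurableEquiv.measurableEmbedding _).comp (MeasurableEquiv.measurableEmbedding _)
  rw [← m3.integral_comp hemb]
  have hX1 : ∀ (Z : (Fin (k + 1) → Ω) × ({v : Fin (n + 1) // k < (v : ℕ)} → Ω)),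
      (((MeasurableEquiv.piCongrLeft (fun _ : Fin (n + 1) => Ω) (I5.eqv hk)) ∘
      (MeasurableEquiv.sumPiEquivProdPi
        (fun _ : Fin (k + 1) ⊕ {v : Fin (n + 1) // k < (v : ℕ)} => Ω)).symm) Z) ∘ Fin.castLE hk
      = Z.1 := by
    intro Z
    funext i
    have : Fin.castLE hk i = I5.eqv hk (Sum.inl i) := rfl
    simp only [Function.comp_apply]
    rw [this, MeasurableEquiv.coe_piCongrLeft, Equiv.piCongrLeft_apply_apply]
    rfl
  have hX2 : ∀ (Z : (Fin (k + 1) → Ω) × ({v : Fin (n + 1) // k < (v : ℕ)} → Ω))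
      (v : {v : Fin (n + 1) // k < (v : ℕ)}),
      (((MeasurableEquiv.piCongrLeft (fun _ : Fin (n + 1) => Ω) (I5.eqv hk)) ∘
      (MeasurableEquiv.sumPiEquivProdPi
        (fun _ : Fin (k + 1) ⊕ {v : Fin (n + 1) // k < (v : ℕ)} => Ω)).symm) Z) v = Z.2 v := by
    intro Z v
    have : (v : Fin (n + 1)) = I5.eqv hk (Sum.inr v) := rfl
    simp only [Function.comp_apply]
    rw [this, MeasurableEquiv.coe_piCongrLeft, Equiv.piCongrLeft_apply_apply]
    rfl
  simp only [hX1, hX2]
  have hHm : ∀ v : {v : Fin (n + 1) // k < (v : ℕ)}, Measurable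
      (fun Z : (Fin (k + 1) → Ω) × ({v : Fin (n + 1) // k < (v : ℕ)} → Ω) => H Z.1 (Z.2 v)) := by
    intro v
    exact hH.comp (measurable_fst.prodMk ((measurable_pi_apply v).comp measurable_snd))
  have hmeas : Measurable (fun Z : (Fin (k + 1) → Ω) × ({v : Fin (n + 1) // k < (v : ℕ)} → Ω) =>
      G Z.1 * ∏ v, H Z.1 (Z.2 v)) :=
    (hG.comp measurable_fst).mul (Finset.measurable_prod _ fun v _ => hHm v)
  have hint : Integrable (fun Z : (Fin (k + 1) → Ω) × ({v : Fin (n + 1) // k < (v : ℕ)} → Ω) =>
      G Z.1 * ∏ v, H Z.1 (Z.2 v))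
      ((Measure.pi fun _ : Fin (k + 1) => μ).prod
        (Measure.pi fun _ : {v : Fin (n + 1) // k < (v : ℕ)} => μ)) := by
    apply Integrable.of_bound hmeas.aestronglyMeasurable 1
    apply Filter.Eventually.of_forall
    intro Z
    rw [Real.norm_eq_abs, abs_mul, Finset.abs_prod]
    calc |G Z.1| * ∏ v, |H Z.1 (Z.2 v)| ≤ 1 * 1 := by
          apply mul_le_mul (hG1 _) _ (Finset.prod_nonneg fun v _ => abs_nonneg _) zero_le_one
          exact Finset.prod_le_one (fun v _ => abs_nonneg _) (fun v _ => hH1 _ _)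
      _ = 1 := one_mul 1
  have hprod := integral_prod _ hint
  refine hprod.trans ?_
  apply integral_congr_ae
  apply Filter.Eventually.of_forall
  intro Y
  simp only
  rw [integral_const_mul]
  congr 1
  rw [integral_fintype_prod_eq_prod (fun _ : {v : Fin (n + 1) // k < (v : ℕ)} => H Y)]
  rw [Finset.prod_const, Finset.card_univ, I5.card_gt hk]

end Split

/-- **I5**: the integral formula for `kap`. -/
theorem kapFormula (h : GeoLawFacts) : KapFormula := by
  classical
  intro n d q k hk p R P I h0 h1 hR hq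
  have := h.unif_prob d
  unfold kap
  rw [h.integral (n + 1) d q p R h0 h1]
  refine Eq.trans (integral_congr_ae (g := fun X : Fin (n + 1) → Pt d =>
      (∏ e, facP p R P (X ∘ Fin.castLE hk) e) *
      ∏ v : {v : Fin (n + 1) // k < (v : ℕ)}, ∏ i ∈ I,
        (1 - if dist ((X ∘ Fin.castLE hk) i) (X v) < R then p else 0))
    (Filter.Eventually.of_forall fun X => ?_)) ?_
  · exact I5.Ex_eq hk p R P I X hR hq
  rw [I5.integral_split (unif d) hk (fun Y => ∏ e, facP p R P Y e)
    (fun Y y => ∏ i ∈ I, (1 - if dist (Y i) y < R then p else 0))]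
  · exact Finset.measurable_prod _ fun e _ => I5.measurable_facP p R P e
  · intro Y
    rw [Finset.abs_prod]
    apply Finset.prod_le_one (fun e _ => abs_nonneg _)
    intro e _
    have := I5.facP_bounds (R := R) h0 h1 P Y e
    rw [abs_of_nonneg this.1]
    exact this.2
  · apply Finset.measurable_prod
    intro i _
    apply Measurable.const_sub
    apply Measurable.ite _ measurable_const measurable_const
    apply measurableSet_lt _ measurable_const
    exact ((measurable_pi_apply i).comp measurable_fst).dist measurable_snd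
  · intro Y y
    rw [Finset.abs_prod]
    apply Finset.prod_le_one (fun e _ => abs_nonneg _)
    intro e _
    split_ifs
    · rw [abs_of_nonneg (by linarith)]
      linarith
    · simp

end MP329
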