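import Pool.Agent.Lib.MP_329b4d_pr.SpecI

/-!
# MP_329b4d_pr: the local limit of the pattern probabilities (statement I6)
-/

namespace MP329

open Finset MeasureTheory Filter

namespace KapLim

/-! ### The cube -/

theorem isClosed_cube (d : ℕ) : IsClosed (cube d) := by
  have : cube d = ⋂ i, {x : Pt d | 0 ≤ x i ∧ x i ≤ 1} := by ext x; simp [cube]
  rw [this]
  refine isClosed_iInter fun i => ?_
  show IsClosed ({x : Pt d | 0 ≤ x i} ∩ {x : Pt d | x i ≤ 1})
  exact (isClosed_le continuous_const (by fun_prop)).inter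
    (isClosed_le (by fun_prop) continuous_const)

theorem measurableSet_cube (d : ℕ) : MeasurableSet (cube d) := (isClosed_cube d).measurableSet

theorem convex_cube (d : ℕ) : Convex ℝ (cube d) := by
  intro x hx y hy a b ha hb hab i
  obtain ⟨h1, h2⟩ := hx i
  obtain ⟨h3, h4⟩ := hy i
  simp only [PiLp.add_apply, PiLp.smul_apply, smul_eq_mul]
  constructor
  · positivity
  · nlinarith

theorem cube_subset (d : ℕ) : cube d ⊆ Metric.closedBall 0 (√d) := by
  intro x hx
  rw [mem_closedBall_zero_iff, EuclideanSpace.norm_eq]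
  apply Real.sqrt_le_sqrt
  have h : ∀ i ∈ (univ : Finset (Fin d)), ‖x i‖ ^ 2 ≤ 1 := by
    intro i _
    obtain ⟨h1, h2⟩ := hx i
    rw [Real.norm_eq_abs, sq_abs]
    nlinarith
  calc ∑ i, ‖x i‖ ^ 2 ≤ ∑ _i : Fin d, (1 : ℝ) := Finset.sum_le_sum h
    _ = d := by simp

instance instFiniteUnif (d : ℕ) : IsFiniteMeasure (unif d) := by
  refine ⟨?_⟩
  rw [unif, Measure.restrict_apply_univ]
  exact lt_of_le_of_lt (measure_mono (cube_subset d))
    (isCompact_closedBall _ _).measure_lt_top

theorem ae_interior (d : ℕ) : ∀ᵐ x ∂(unif d), x ∈ interior (cube d) := by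
  have h0 : volume (frontier (cube d)) = 0 := (convex_cube d).addHaar_frontier volume
  rw [unif, ae_restrict_iff' (measurableSet_cube d)]
  have h1 : ∀ᵐ x : Pt d, x ∉ frontier (cube d) := by
    rw [ae_iff]; simpa using h0
  filter_upwards [h1] with x hx hc
  by_contra hi
  exact hx ⟨subset_closure hc, hi⟩

/-! ### Measurability -/

theorem measurable_markOf (q : ℕ) (m : Option (Fin q)) :
    MeasurableSet {t : ℝ | markOf q t = m} := by
  have h : Measurable fun t : ℝ => ⌊(q : ℝ) * t⌋₊ :=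
    Nat.measurable_floor.comp (measurable_const.mul measurable_id)
  have : {t : ℝ | markOf q t = m} = (fun t : ℝ => ⌊(q : ℝ) * t⌋₊) ⁻¹'
      {j : ℕ | (if h : j < q then some (⟨j, h⟩ : Fin q) else none) = m} := by
    ext t
    simp only [Set.mem_ofPred_eq, Set.mem_preimage, markOf]
  rw [this]
  exact h (MeasurableSet.of_discrete)

theorem measurable_len {d k : ℕ} (e : Sym2 (Fin k)) :
    Measurable fun Y : Fin k → Pt d => len Y e := by
  induction e using Sym2.ind with
  | _ a b => exact (measurable_pi_apply a).dist (measurable_pi_apply b)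

theorem measurable_facP {d q k : ℕ} (p R : ℝ) (P : Sym2 (Fin (k + 1)) → Option (Fin q))
    (e : Sym2 (Fin (k + 1))) : Measurable fun Y : Fin (k + 1) → Pt d => facP p R P Y e := by
  unfold facP
  by_cases h1 : e.IsDiag
  · simp only [h1, if_true]; exact measurable_const
  simp only [h1, if_false]
  by_cases h2 : P e = none
  · simp only [h2, if_true]
    exact measurable_const.sub (Measurable.ite (measurableSet_lt (measurable_len e)
      measurable_const) measurable_const measurable_const)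
  · simp only [h2, if_false]
    refine Measurable.ite ?_ measurable_const measurable_const
    exact ((measurable_len e).div_const R) (measurable_markOf q (P e))

/-- The inner integral. -/
noncomputable def Psi {d k : ℕ} (p R : ℝ) (I : Finset (Fin (k + 1))) (Y : Fin (k + 1) → Pt d) :
    ℝ := ∫ y, ∏ i ∈ I, (1 - (if dist (Y i) y < R then p else 0)) ∂(unif d)

theorem measurable_fac2 {d k : ℕ} (p R : ℝ) (i : Fin (k + 1)) :
    Measurable fun w : (Fin (k + 1) → Pt d) × Pt d =>
      (1 - (if dist (w.1 i) w.2 < R then p else 0) : ℝ) := by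
  refine measurable_const.sub (Measurable.ite (measurableSet_lt ?_ measurable_const)
    measurable_const measurable_const)
  exact ((measurable_pi_apply i).comp measurable_fst).dist measurable_snd

theorem measurable_Psi {d k : ℕ} (p R : ℝ) (I : Finset (Fin (k + 1))) :
    Measurable fun Y : Fin (k + 1) → Pt d => Psi p R I Y := by
  refine StronglyMeasurable.measurable ?_
  refine StronglyMeasurable.integral_prod_right (f := fun (Y : Fin (k + 1) → Pt d) (y : Pt d) =>
    ∏ i ∈ I, (1 - (if dist (Y i) y < R then p else 0) : ℝ)) ?_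
  refine Measurable.stronglyMeasurable ?_
  exact Finset.measurable_prod I fun i _ => measurable_fac2 p R i

/-! ### Bounds -/

theorem facP_bounds {d q k : ℕ} {p : ℝ} (h0 : 0 ≤ p) (h1 : p ≤ 1) (R : ℝ)
    (P : Sym2 (Fin (k + 1)) → Option (Fin q)) (Y : Fin (k + 1) → Pt d) (e : Sym2 (Fin (k + 1))) :
    0 ≤ facP p R P Y e ∧ facP p R P Y e ≤ 1 := by
  unfold facP
  split_ifs <;> constructor <;> linarith

theorem fac2_bounds {d k : ℕ} {p : ℝ} (h0 : 0 ≤ p) (h1 : p ≤ 1) (R : ℝ)
    (Y : Fin (k + 1) → Pt d) (i : Fin (k + 1)) (y : Pt d) :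
    0 ≤ (1 - (if dist (Y i) y < R then p else 0) : ℝ) ∧
      (1 - (if dist (Y i) y < R then p else 0) : ℝ) ≤ 1 := by
  split_ifs <;> constructor <;> linarith

theorem prod2_bounds {d k : ℕ} {p : ℝ} (h0 : 0 ≤ p) (h1 : p ≤ 1) (R : ℝ)
    (I : Finset (Fin (k + 1))) (Y : Fin (k + 1) → Pt d) (y : Pt d) :
    0 ≤ ∏ i ∈ I, (1 - (if dist (Y i) y < R then p else 0) : ℝ) ∧
      ∏ i ∈ I, (1 - (if dist (Y i) y < R then p else 0) : ℝ) ≤ 1 :=
  ⟨Finset.prod_nonneg fun i _ => (fac2_bounds h0 h1 R Y i y).1,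
    Finset.prod_le_one (fun i _ => (fac2_bounds h0 h1 R Y i y).1)
      fun i _ => (fac2_bounds h0 h1 R Y i y).2⟩

/-! ### Change of variables -/

open Classical in
theorem cov {d k : ℕ} (G : (Fin (k + 1) → Pt d) → ℝ) (hG : Measurable G) (hb : ∀ Y, |G Y| ≤ 1)
    (s : ℝ) (hs : 0 < s) :
    ∫ Y, G Y ∂(Measure.pi fun _ : Fin (k + 1) => unif d) =
      s ^ (k * d) * ∫ x, (∫ z : Fin k → Pt d, (if ∀ i, x + s • z i ∈ cube d then
        G (Fin.cons x fun i => x + s • z i) else 0)) ∂(unif d) := by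
  have e := measurePreserving_piFinSuccAbove (fun _ : Fin (k + 1) => unif d) 0
  have h1 : ∫ Y, G Y ∂(Measure.pi fun _ : Fin (k + 1) => unif d) =
      ∫ w, G ((MeasurableEquiv.piFinSuccAbove (fun _ : Fin (k + 1) => Pt d) 0).symm w)
        ∂((unif d).prod (Measure.pi fun _ : Fin k => unif d)) := by
    rw [← e.integral_comp']
    refine integral_congr_ae (Eventually.of_forall fun Y => ?_)
    show G Y = G ((MeasurableEquiv.piFinSuccAbove (fun _ : Fin (k + 1) => Pt d) 0).symm
      ((MeasurableEquiv.piFinSuccAbove (fun _ : Fin (k + 1) => Pt d) 0) Y))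
    rw [MeasurableEquiv.symm_apply_apply]
  have hint : Integrable (fun w => G ((MeasurableEquiv.piFinSuccAbove
      (fun _ : Fin (k + 1) => Pt d) 0).symm w))
      ((unif d).prod (Measure.pi fun _ : Fin k => unif d)) := by
    refine Integrable.of_bound (hG.comp (MeasurableEquiv.measurable _)).aestronglyMeasurable 1
      (Eventually.of_forall fun w => ?_)
    simpa using hb _
  rw [h1, integral_prod _ hint, ← integral_const_mul]
  refine integral_congr_ae (Eventually.of_forall fun x => ?_)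
  have hcons : ∀ w : Fin k → Pt d, (MeasurableEquiv.piFinSuccAbove
      (fun _ : Fin (k + 1) => Pt d) 0).symm (x, w) = Fin.cons x w := by
    intro w
    simp [Fin.consEquiv]
  simp only [hcons]
  have hS : MeasurableSet (Set.univ.pi fun _ : Fin k => cube d) :=
    MeasurableSet.univ_pi fun _ => measurableSet_cube d
  have h2 : (Measure.pi fun _ : Fin k => unif d) =
      (volume : Measure (Fin k → Pt d)).restrict (Set.univ.pi fun _ => cube d) := by
    rw [volume_pi, Measure.restrict_pi_pi]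
    rfl
  rw [h2, ← integral_indicator hS]
  set H : (Fin k → Pt d) → ℝ := (Set.univ.pi fun _ : Fin k => cube d).indicator
    fun w => G (Fin.cons x w) with hH
  have h3 : ∫ w, H w = ∫ w, H ((fun _ => x) + w) := by
    rw [integral_add_left_eq_self H (fun _ => x)]
  have h4 := Measure.integral_comp_smul (volume : Measure (Fin k → Pt d))
    (fun w => H ((fun _ => x) + w)) s
  have hfr : Module.finrank ℝ (Fin k → Pt d) = k * d := by
    rw [Module.finrank_pi_fintype]; simp
  rw [hfr, abs_of_pos (inv_pos.2 (pow_pos hs _)), smul_eq_mul] at h4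
  have h5 : ∫ w, H ((fun _ => x) + w) = s ^ (k * d) * ∫ z, H ((fun _ => x) + s • z) := by
    rw [h4, ← mul_assoc, mul_inv_cancel₀ (pow_pos hs _).ne', one_mul]
  show ∫ w, H w = _
  rw [h3, h5]
  congr 1
  refine integral_congr_ae (Eventually.of_forall fun z => ?_)
  show (Set.univ.pi fun _ : Fin k => cube d).indicator (fun w => G (Fin.cons x w))
    ((fun _ => x) + s • z) = if ∀ i, x + s • z i ∈ cube d then
      G (Fin.cons x fun i => x + s • z i) else 0
  by_cases hm : ∀ i, x + s • z i ∈ cube d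
  · rw [if_pos hm, Set.indicator_of_mem (by
      rw [Set.mem_univ_pi]; intro i; exact hm i)]
    rfl
  · rw [if_neg hm, Set.indicator_of_notMem]
    rw [Set.mem_univ_pi]
    exact hm

/-! ### Scaling -/

theorem cons_eq {d k : ℕ} (x : Pt d) (s : ℝ) (z : Fin k → Pt d) :
    (Fin.cons x fun i => x + s • z i : Fin (k + 1) → Pt d) =
      fun i => x + s • (Fin.cons 0 z : Fin (k + 1) → Pt d) i := by
  funext i
  refine Fin.cases ?_ (fun i => ?_) i <;> simp

theorem len_scale {d k : ℕ} (x : Pt d) {s : ℝ} (hs : 0 < s) (Z : Fin k → Pt d)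
    (e : Sym2 (Fin k)) : len (fun i => x + s • Z i) e = s * len Z e := by
  induction e using Sym2.ind with
  | _ a b =>
    show dist (x + s • Z a) (x + s • Z b) = s * dist (Z a) (Z b)
    rw [dist_add_left, dist_smul₀, Real.norm_eq_abs, abs_of_pos hs]

theorem facP_scale {d q k : ℕ} (p K : ℝ) (P : Sym2 (Fin (k + 1)) → Option (Fin q)) (x : Pt d)
    {s : ℝ} (hs : 0 < s) (Z : Fin (k + 1) → Pt d) (e : Sym2 (Fin (k + 1))) :
    facP p (K * s) P (fun i => x + s • Z i) e = facP p K P Z e := by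
  unfold facP
  rw [len_scale x hs]
  have h1 : s * len Z e / (K * s) = len Z e / K := by
    rw [mul_comm K s, mul_div_mul_left _ _ hs.ne']
  have h2 : s * len Z e < K * s ↔ len Z e < K := by
    rw [mul_comm K s, mul_lt_mul_iff_right₀ hs]
  rw [h1]
  simp only [h2]

/-! ### The factors of the pairs -/

/-- The pairs with a mark. -/
def EP {q k : ℕ} (P : Sym2 (Fin (k + 1)) → Option (Fin q)) : Finset (Sym2 (Fin (k + 1))) :=
  univ.filter fun e => P e ≠ none

/-- Indicator that the marks are right. -/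
noncomputable def MM {d q k : ℕ} (K : ℝ) (P : Sym2 (Fin (k + 1)) → Option (Fin q))
    (Z : Fin (k + 1) → Pt d) : ℝ :=
  ∏ e ∈ EP P, if markOf q (len Z e / K) = P e then 1 else 0

/-- The remaining factors. -/
noncomputable def RR {d q k : ℕ} (p K : ℝ) (P : Sym2 (Fin (k + 1)) → Option (Fin q))
    (Z : Fin (k + 1) → Pt d) : ℝ :=
  ∏ e ∈ univ.filter fun e => ¬ (P e ≠ none),
    if e.IsDiag then 1 else 1 - (if len Z e < K then p else 0)

theorem facP_prod {d q k : ℕ} (p K : ℝ) (P : Sym2 (Fin (k + 1)) → Option (Fin q))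
    (hd : ∀ e : Sym2 (Fin (k + 1)), e.IsDiag → P e = none) (Z : Fin (k + 1) → Pt d) :
    ∏ e, facP p K P Z e = p ^ #(EP P) * MM K P Z * RR p K P Z := by
  rw [← Finset.prod_filter_mul_prod_filter_not univ fun e => P e ≠ none]
  congr 1
  · show ∏ e ∈ EP P, facP p K P Z e = _
    rw [MM, ← Finset.prod_const, ← Finset.prod_mul_distrib]
    refine Finset.prod_congr rfl fun e he => ?_
    have h1 : P e ≠ none := (Finset.mem_filter.1 he).2
    have h2 : ¬ e.IsDiag := fun h => h1 (hd e h)
    unfold facP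
    rw [if_neg h2, if_neg h1]
    split_ifs <;> simp
  · refine Finset.prod_congr rfl fun e he => ?_
    have h1 : P e = none := not_not.1 (Finset.mem_filter.1 he).2
    unfold facP
    rw [if_pos h1, if_pos h1]

theorem MM_bounds {d q k : ℕ} (K : ℝ) (P : Sym2 (Fin (k + 1)) → Option (Fin q))
    (Z : Fin (k + 1) → Pt d) : 0 ≤ MM K P Z ∧ MM K P Z ≤ 1 := by
  refine ⟨Finset.prod_nonneg fun e _ => ?_, Finset.prod_le_one (fun e _ => ?_) fun e _ => ?_⟩ <;>
    split_ifs <;> norm_num

theorem RR_bounds {d q k : ℕ} {p : ℝ} (h0 : 0 ≤ p) (h1 : p ≤ 1) (K : ℝ)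
    (P : Sym2 (Fin (k + 1)) → Option (Fin q))
    (Z : Fin (k + 1) → Pt d) : 0 ≤ RR p K P Z ∧ RR p K P Z ≤ 1 := by
  refine ⟨Finset.prod_nonneg fun e _ => ?_, Finset.prod_le_one (fun e _ => ?_) fun e _ => ?_⟩ <;>
    split_ifs <;> linarith

theorem RR_tendsto {d q k : ℕ} {p : ℕ → ℝ} (hp : Tendsto p atTop (nhds 0)) (K : ℝ)
    (P : Sym2 (Fin (k + 1)) → Option (Fin q)) (Z : Fin (k + 1) → Pt d) :
    Tendsto (fun n => RR (p n) K P Z) atTop (nhds 1) := by
  have h : Tendsto (fun n => RR (p n) K P Z) atTop (nhds (∏ e ∈ univ.filter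
      fun e : Sym2 (Fin (k + 1)) => ¬ (P e ≠ none), (1 : ℝ))) := by
    refine tendsto_finsetProd _ fun e _ => ?_
    by_cases h1 : e.IsDiag
    · simp only [h1, if_true]; exact tendsto_const_nhds
    · simp only [h1, if_false]
      by_cases h2 : len Z e < K
      · simp only [h2, if_true]
        simpa using tendsto_const_nhds.sub hp
      · simp only [h2, if_false, sub_zero]; exact tendsto_const_nhds
  simpa using h

/-! ### Connectivity -/

theorem markOf_ne_none {q : ℕ} {t : ℝ} (h : markOf q t ≠ none) : t < 1 := by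
  unfold markOf at h
  by_cases hq : ⌊(q : ℝ) * t⌋₊ < q
  · by_contra ht
    push Not at ht
    have h1 : (q : ℝ) ≤ q * t := by
      nlinarith [Nat.cast_nonneg (α := ℝ) q]
    exact absurd (Nat.le_floor h1) (not_le.2 hq)
  · rw [dif_neg hq] at h
    exact absurd rfl h

theorem dist_of_ball {d q k : ℕ} {K : ℝ} (P : Sym2 (Fin (k + 1)) → Option (Fin q))
    (Z : Fin (k + 1) → Pt d) (hK : 0 < K)
    (h : ∀ i j, P s(i, j) ≠ none → dist (Z i) (Z j) ≤ K) (ρ : ℕ) :
    ∀ i ∈ mball P ρ 0, dist (Z 0) (Z i) ≤ ρ * K := by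
  induction ρ with
  | zero =>
    intro i hi
    simp only [mball, Finset.mem_singleton] at hi
    subst hi
    simp
  | succ ρ ih =>
    intro i hi
    simp only [mball, Finset.mem_union, Finset.mem_filter, Finset.mem_univ, true_and] at hi
    push_cast
    rcases hi with hi | ⟨u, hu, hui⟩
    · have := ih i hi
      nlinarith
    · have h1 := ih u hu
      have h2 := h u i hui
      have := dist_triangle (Z 0) (Z u) (Z i)
      nlinarith

/-- The graph of the pattern. -/
def gr {q k : ℕ} (P : Sym2 (Fin (k + 1)) → Option (Fin q)) : SimpleGraph (Fin (k + 1)) where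
  Adj i j := i ≠ j ∧ P s(i, j) ≠ none
  symm := ⟨fun i j h => ⟨h.1.symm, by rw [Sym2.eq_swap]; exact h.2⟩⟩
  loopless := ⟨fun i h => h.1 rfl⟩

theorem card_EP {q k ρ : ℕ} (P : Sym2 (Fin (k + 1)) → Option (Fin q))
    (hP : mball P ρ 0 = univ) : k ≤ #(EP P) := by
  classical
  have hr : ∀ r, ∀ i ∈ mball P r 0, (gr P).Reachable 0 i := by
    intro r
    induction r with
    | zero =>
      intro i hi
      simp only [mball, Finset.mem_singleton] at hi
      subst hi
      exact SimpleGraph.Reachable.refl _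
    | succ r ih =>
      intro i hi
      simp only [mball, Finset.mem_union, Finset.mem_filter, Finset.mem_univ, true_and] at hi
      rcases hi with hi | ⟨u, hu, hui⟩
      · exact ih i hi
      · by_cases hiu : u = i
        · subst hiu; exact ih _ hu
        · have hadj : (gr P).Adj u i := ⟨hiu, hui⟩
          exact (ih u hu).trans hadj.reachable
  have hc : (gr P).Connected := by
    rw [SimpleGraph.connected_iff_exists_forall_reachable]
    exact ⟨0, fun i => hr ρ i (by rw [hP]; exact Finset.mem_univ i)⟩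
  have h1 := hc.card_vert_le_card_edgeSet_add_one
  have h2 : Nat.card (gr P).edgeSet ≤ #(EP P) := by
    rw [Nat.card_coe_set_eq, ← Set.ncard_coe_finset]
    refine Set.ncard_le_ncard ?_ (Finset.finite_toSet _)
    intro e he
    induction e using Sym2.ind with
    | _ a b =>
      have : (gr P).Adj a b := he
      simp only [Finset.mem_coe, EP, Finset.mem_filter, Finset.mem_univ, true_and]
      exact this.2
  rw [Nat.card_eq_fintype_card, Fintype.card_fin] at h1
  omega

/-! ### The factor of the other vertices -/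

theorem volume_cube (d : ℕ) : volume (cube d) = 1 := by
  have h := (PiLp.volume_preserving_ofLp (Fin d)).measure_preimage
    (s := Set.Icc (0 : Fin d → ℝ) 1) measurableSet_Icc.nullMeasurableSet
  have h2 : (WithLp.ofLp : Pt d → Fin d → ℝ) ⁻¹' (Set.Icc (0 : Fin d → ℝ) 1) = cube d := by
    ext x
    simp only [Set.mem_preimage, Set.mem_Icc, Pi.le_def, cube, Set.mem_ofPred_eq, Pi.zero_apply,
      Pi.one_apply]
    exact forall_and.symm
  rw [← h2]
  rw [h, Real.volume_Icc_pi]
  simp

instance instProbUnif (d : ℕ) : IsProbabilityMeasure (unif d) := by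
  refine ⟨?_⟩
  rw [unif, Measure.restrict_apply_univ, volume_cube]

theorem bonf {ι : Type*} [DecidableEq ι] (I : Finset ι) (a : ι → ℝ) {p : ℝ} (h0 : ∀ i, 0 ≤ a i)
    (h1 : ∀ i, a i ≤ p) (hp : p ≤ 1) :
    1 - ∏ i ∈ I, (1 - a i) ≤ ∑ i ∈ I, a i ∧
      ∑ i ∈ I, a i - #I * p * ∑ i ∈ I, a i ≤ 1 - ∏ i ∈ I, (1 - a i) := by
  induction I using Finset.induction_on with
  | empty => simp
  | insert j I hj ih =>
    rw [Finset.prod_insert hj, Finset.sum_insert hj, Finset.card_insert_of_notMem hj]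
    have hp0 : 0 ≤ p := (h0 j).trans (h1 j)
    have hP1 : ∏ i ∈ I, (1 - a i) ≤ 1 := Finset.prod_le_one
      (fun i _ => by linarith [h1 i]) fun i _ => by linarith [h0 i]
    have hP0 : 0 ≤ ∏ i ∈ I, (1 - a i) := Finset.prod_nonneg fun i _ => by linarith [h1 i]
    have hS0 : 0 ≤ ∑ i ∈ I, a i := Finset.sum_nonneg fun i _ => h0 i
    have hS1 : ∑ i ∈ I, a i ≤ #I * p := by
      calc ∑ i ∈ I, a i ≤ ∑ _i ∈ I, p := Finset.sum_le_sum fun i _ => h1 i
        _ = #I * p := by simp
    set Q := ∏ i ∈ I, (1 - a i)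
    set S := ∑ i ∈ I, a i
    have haj := h0 j
    have haj1 := h1 j
    obtain ⟨ih1, ih2⟩ := ih
    have hc : (0 : ℝ) ≤ #I := Nat.cast_nonneg _
    constructor
    · nlinarith
    · push_cast
      have k1 : a j * (1 - Q) ≤ a j * (#I * p) := mul_le_mul_of_nonneg_left (ih1.trans hS1) haj
      have k2 : 0 ≤ p * (a j + S) := mul_nonneg hp0 (by linarith)
      nlinarith

theorem integrable_ind {d k : ℕ} (p R : ℝ) (Y : Fin (k + 1) → Pt d) (i : Fin (k + 1)) :
    Integrable (fun y => if dist (Y i) y < R then p else 0) (unif d) := by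
  refine Integrable.of_bound (Measurable.aestronglyMeasurable ?_) |p|
    (Eventually.of_forall fun y => ?_)
  · exact Measurable.ite (measurableSet_lt (measurable_const.dist measurable_id)
      measurable_const) measurable_const measurable_const
  · rw [Real.norm_eq_abs]
    split_ifs
    · exact le_rfl
    · simp

theorem integral_ind {d k : ℕ} (hd : 1 ≤ d) (p : ℝ) {K s : ℝ} (hs : 0 < s)
    (Y : Fin (k + 1) → Pt d) (i : Fin (k + 1)) (hsub : Metric.ball (Y i) (K * s) ⊆ cube d) :
    ∫ y, (if dist (Y i) y < K * s then p else 0) ∂(unif d) = p * (s ^ d * vK d K) := by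
  have h1 : (fun y => if dist (Y i) y < K * s then p else 0) =
      (Metric.ball (Y i) (K * s)).indicator fun _ => p := by
    funext y
    by_cases h : dist (Y i) y < K * s
    · rw [if_pos h, Set.indicator_of_mem (by rw [Metric.mem_ball, dist_comm]; exact h)]
    · rw [if_neg h, Set.indicator_of_notMem (by rw [Metric.mem_ball, dist_comm]; exact h)]
  rw [h1, integral_indicator_const _ Metric.isOpen_ball.measurableSet]
  have hne : Nontrivial (Pt d) := by
    have : Nonempty (Fin d) := ⟨⟨0, hd⟩⟩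
    infer_instance
  have h2 : (unif d) (Metric.ball (Y i) (K * s)) = volume (Metric.ball (Y i) (K * s)) := by
    rw [unif, Measure.restrict_apply Metric.isOpen_ball.measurableSet,
      Set.inter_eq_left.2 hsub]
  have h3 : (volume (Metric.ball (Y i) (K * s))).toReal = s ^ d * vK d K := by
    rw [mul_comm K s, Measure.addHaar_ball_mul volume (Y i) hs.le K, ENNReal.toReal_mul,
      ENNReal.toReal_ofReal (pow_nonneg hs.le _), vK]
    simp
  rw [Measure.real, h2, h3, smul_eq_mul, mul_comm]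

theorem Psi_bounds {d k : ℕ} (hd : 1 ≤ d) {p : ℝ} (h0 : 0 ≤ p) (h1 : p ≤ 1) {K s : ℝ}
    (hs : 0 < s) (I : Finset (Fin (k + 1))) (Y : Fin (k + 1) → Pt d)
    (hsub : ∀ i, Metric.ball (Y i) (K * s) ⊆ cube d) :
    1 - Psi p (K * s) I Y ≤ #I * (p * (s ^ d * vK d K)) ∧
      #I * (p * (s ^ d * vK d K)) - #I * p * (#I * (p * (s ^ d * vK d K)))
        ≤ 1 - Psi p (K * s) I Y := by
  set a : Fin (k + 1) → Pt d → ℝ := fun i y => if dist (Y i) y < K * s then p else 0 with ha
  have ha0 : ∀ i y, 0 ≤ a i y := fun i y => by simp only [ha]; split_ifs <;> linarith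
  have ha1 : ∀ i y, a i y ≤ p := fun i y => by simp only [ha]; split_ifs <;> linarith
  have hai : ∀ i, Integrable (a i) (unif d) := fun i => integrable_ind p (K * s) Y i
  have hprod : Integrable (fun y => ∏ i ∈ I, (1 - a i y)) (unif d) := by
    refine Integrable.of_bound (Measurable.aestronglyMeasurable ?_) 1
      (Eventually.of_forall fun y => ?_)
    · refine Finset.measurable_prod I fun i _ => measurable_const.sub ?_
      exact Measurable.ite (measurableSet_lt (measurable_const.dist measurable_id)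
        measurable_const) measurable_const measurable_const
    · rw [Real.norm_eq_abs, abs_of_nonneg (prod2_bounds h0 h1 (K * s) I Y y).1]
      exact (prod2_bounds h0 h1 (K * s) I Y y).2
  have e1 : 1 - Psi p (K * s) I Y = ∫ y, (1 - ∏ i ∈ I, (1 - a i y)) ∂(unif d) := by
    rw [integral_sub (integrable_const _) hprod]
    simp [Psi, ha]
  have e2 : ∫ y, ∑ i ∈ I, a i y ∂(unif d) = #I * (p * (s ^ d * vK d K)) := by
    rw [integral_finsetSum I fun i _ => hai i]
    rw [Finset.sum_congr rfl fun i _ => integral_ind hd p hs Y i (hsub i)]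
    simp
  have hsum : Integrable (fun y => ∑ i ∈ I, a i y) (unif d) := integrable_finsetSum I
    fun i _ => hai i
  rw [e1]
  constructor
  · rw [← e2]
    exact integral_mono ((integrable_const _).sub hprod) hsum fun y =>
      (bonf I (fun i => a i y) (fun i => ha0 i y) (fun i => ha1 i y) h1).1
  · have e3 : #I * (p * (s ^ d * vK d K)) - #I * p * (#I * (p * (s ^ d * vK d K))) =
        ∫ y, (∑ i ∈ I, a i y - #I * p * ∑ i ∈ I, a i y) ∂(unif d) := by
      rw [integral_sub hsum (hsum.const_mul _), integral_const_mul, e2]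
    rw [e3]
    exact integral_mono (hsum.sub (hsum.const_mul _)) ((integrable_const _).sub hprod) fun y =>
      (bonf I (fun i => a i y) (fun i => ha0 i y) (fun i => ha1 i y) h1).2

theorem Psi_01 {d k : ℕ} {p : ℝ} (h0 : 0 ≤ p) (h1 : p ≤ 1) (R : ℝ) (I : Finset (Fin (k + 1)))
    (Y : Fin (k + 1) → Pt d) : 0 ≤ Psi p R I Y ∧ Psi p R I Y ≤ 1 := by
  constructor
  · exact integral_nonneg fun y => (prod2_bounds h0 h1 R I Y y).1
  · have : Psi p R I Y ≤ ∫ _y, (1 : ℝ) ∂(unif d) := by
      refine integral_mono_of_nonneg (Eventually.of_forall fun y =>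
        (prod2_bounds h0 h1 R I Y y).1) (integrable_const _)
        (Eventually.of_forall fun y => (prod2_bounds h0 h1 R I Y y).2)
    simpa using this

theorem Psi_tendsto {d k : ℕ} (hd : 1 ≤ d) {p s : ℕ → ℝ} {K : ℝ} (hK : 0 < K)
    (hp : ∀ n, 0 < p n ∧ p n ≤ 1) (hp0 : Tendsto p atTop (nhds 0)) (hs : ∀ n, 0 < s n)
    (hs0 : Tendsto s atTop (nhds 0)) (hsp : ∀ n : ℕ, ((n : ℝ) + 1) * (p n * s n ^ d) = 1)
    (I : Finset (Fin (k + 1))) (x : Pt d) (hx : x ∈ interior (cube d)) (Z : Fin (k + 1) → Pt d) :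
    Tendsto (fun n => Psi (p n) (K * s n) I (fun i => x + s n • Z i) ^ (n - k)) atTop
      (nhds (Real.exp (-(#I * vK d K)))) := by
  obtain ⟨δ, hδ, hball⟩ := Metric.isOpen_iff.1 isOpen_interior x hx
  set B : ℝ := ∑ i, ‖Z i‖ + K with hB
  have hBpos : 0 < B := by
    have : 0 ≤ ∑ i, ‖Z i‖ := Finset.sum_nonneg fun i _ => norm_nonneg _
    linarith
  have hev : ∀ᶠ n in atTop, s n * B < δ := by
    have : Tendsto (fun n => s n * B) atTop (nhds 0) := by simpa using hs0.mul_const B
    exact this.eventually (gt_mem_nhds hδ)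
  set g : ℕ → ℝ := fun n => Psi (p n) (K * s n) I (fun i => x + s n • Z i) - 1 with hg
  have hv0 : 0 ≤ vK d K := ENNReal.toReal_nonneg
  have hps : ∀ n : ℕ, p n * (s n ^ d * vK d K) = vK d K / ((n : ℝ) + 1) := by
    intro n
    have hn : (0 : ℝ) < (n : ℝ) + 1 := by positivity
    rw [eq_div_iff hn.ne']
    calc p n * (s n ^ d * vK d K) * ((n : ℝ) + 1)
        = ((n : ℝ) + 1) * (p n * s n ^ d) * vK d K := by ring
      _ = vK d K := by rw [hsp, one_mul]
  have hbd : ∀ᶠ n in atTop, -g n ≤ #I * (vK d K / ((n : ℝ) + 1)) ∧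
      #I * (vK d K / ((n : ℝ) + 1)) - #I * p n * (#I * (vK d K / ((n : ℝ) + 1))) ≤ -g n := by
    filter_upwards [hev] with n hn
    have hsub : ∀ i, Metric.ball (x + s n • Z i) (K * s n) ⊆ cube d := by
      intro i y hy
      apply interior_subset
      apply hball
      rw [Metric.mem_ball] at hy ⊢
      have h1 : dist (x + s n • Z i) x = s n * ‖Z i‖ := by
        rw [dist_eq_norm, add_sub_cancel_left, norm_smul, Real.norm_eq_abs, abs_of_pos (hs n)]
      have h2 : ‖Z i‖ ≤ ∑ i, ‖Z i‖ := Finset.single_le_sum (f := fun i => ‖Z i‖)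
        (fun i _ => norm_nonneg _) (Finset.mem_univ i)
      calc dist y x ≤ dist y (x + s n • Z i) + dist (x + s n • Z i) x := dist_triangle _ _ _
        _ < K * s n + s n * ‖Z i‖ := by rw [h1]; linarith
        _ ≤ s n * B := by rw [hB]; nlinarith [hs n]
        _ < δ := hn
    have h := Psi_bounds hd (hp n).1.le (hp n).2 (hs n) I (fun i => x + s n • Z i) hsub
    rw [hps] at h
    simp only [hg, neg_sub]
    exact h
  have hn1 : Tendsto (fun n : ℕ => (n : ℝ) / ((n : ℝ) + 1)) atTop (nhds 1) :=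
    tendsto_natCast_div_add_atTop 1
  have hmul : Tendsto (fun n : ℕ => (n : ℝ) * g n) atTop (nhds (-(#I * vK d K))) := by
    have lo : Tendsto (fun n : ℕ => -(#I * vK d K * ((n : ℝ) / ((n : ℝ) + 1)))) atTop
        (nhds (-(#I * vK d K))) := by
      have := (hn1.const_mul (#I * vK d K)).neg
      simpa using this
    have hi : Tendsto (fun n : ℕ => -(#I * vK d K * ((n : ℝ) / ((n : ℝ) + 1)) *
        (1 - #I * p n))) atTop (nhds (-(#I * vK d K))) := by
      have h2 : Tendsto (fun n => 1 - (#I : ℝ) * p n) atTop (nhds 1) := by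
        simpa using (tendsto_const_nhds (x := (1 : ℝ))).sub (hp0.const_mul (#I : ℝ))
      have := ((hn1.const_mul (#I * vK d K)).mul h2).neg
      simpa using this
    refine tendsto_of_tendsto_of_tendsto_of_le_of_le' lo hi ?_ ?_
    · filter_upwards [hbd] with n hn
      have hn0 : (0 : ℝ) ≤ n := Nat.cast_nonneg _
      have := mul_le_mul_of_nonneg_left hn.1 hn0
      have e : (n : ℝ) * (#I * (vK d K / ((n : ℝ) + 1))) =
        #I * vK d K * ((n : ℝ) / ((n : ℝ) + 1)) := by ring
      rw [e] at this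
      linarith
    · filter_upwards [hbd] with n hn
      have hn0 : (0 : ℝ) ≤ n := Nat.cast_nonneg _
      have := mul_le_mul_of_nonneg_left hn.2 hn0
      have e : (n : ℝ) * (#I * (vK d K / ((n : ℝ) + 1)) - #I * p n *
        (#I * (vK d K / ((n : ℝ) + 1)))) =
        #I * vK d K * ((n : ℝ) / ((n : ℝ) + 1)) * (1 - #I * p n) := by ring
      rw [e] at this
      linarith
  have hpow := Real.tendsto_one_add_pow_exp_of_tendsto hmul
  have hinv : Tendsto (fun n : ℕ => 1 / ((n : ℝ) + 1)) atTop (nhds 0) :=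
    tendsto_one_div_add_atTop_nhds_zero_nat
  have hg0 : Tendsto (fun n => 1 + g n) atTop (nhds 1) := by
    have lo : Tendsto (fun n : ℕ => 1 - #I * vK d K * (1 / ((n : ℝ) + 1))) atTop (nhds 1) := by
      have := (tendsto_const_nhds (x := (1 : ℝ))).sub (hinv.const_mul (#I * vK d K))
      simpa using this
    refine tendsto_of_tendsto_of_tendsto_of_le_of_le' lo tendsto_const_nhds ?_ ?_
    · filter_upwards [hbd] with n hn
      have e : (#I : ℝ) * (vK d K / ((n : ℝ) + 1)) = #I * vK d K * (1 / ((n : ℝ) + 1)) := by ring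
      have := hn.1
      rw [e] at this
      linarith
    · refine Eventually.of_forall fun n => ?_
      have := (Psi_01 (hp n).1.le (hp n).2 (K * s n) I (fun i => x + s n • Z i)).2
      simp only [hg]
      linarith
  have hk : Tendsto (fun n => (1 + g n) ^ k) atTop (nhds 1) := by
    simpa using hg0.pow k
  have hq := hpow.div hk one_ne_zero
  rw [div_one] at hq
  refine hq.congr' ?_
  filter_upwards [eventually_ge_atTop k, hg0.eventually (lt_mem_nhds (by norm_num : (0 : ℝ) < 1))]
    with n hn hpos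
  have e : (1 + g n) = Psi (p n) (K * s n) I (fun i => x + s n • Z i) := by simp [hg]
  rw [← e]
  show (1 + g n) ^ n / (1 + g n) ^ k = (1 + g n) ^ (n - k)
  rw [pow_sub₀ _ hpos.ne' hn, div_eq_mul_inv]

/-! ### The integrand -/

/-- The integrand of the formula for `kap`. -/
noncomputable def GG {d q k : ℕ} (p R : ℝ) (P : Sym2 (Fin (k + 1)) → Option (Fin q))
    (I : Finset (Fin (k + 1))) (m : ℕ) (Y : Fin (k + 1) → Pt d) : ℝ :=
  (∏ e, facP p R P Y e) * Psi p R I Y ^ m

theorem measurable_GG {d q k : ℕ} (p R : ℝ) (P : Sym2 (Fin (k + 1)) → Option (Fin q))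
    (I : Finset (Fin (k + 1))) (m : ℕ) : Measurable (GG (d := d) p R P I m) :=
  (Finset.measurable_prod _ fun e _ => measurable_facP p R P e).mul
    ((measurable_Psi p R I).pow_const m)

theorem GG_bounds {d q k : ℕ} {p : ℝ} (h0 : 0 ≤ p) (h1 : p ≤ 1) (R : ℝ)
    (P : Sym2 (Fin (k + 1)) → Option (Fin q)) (I : Finset (Fin (k + 1))) (m : ℕ)
    (Y : Fin (k + 1) → Pt d) : 0 ≤ GG p R P I m Y ∧ GG p R P I m Y ≤ ∏ e, facP p R P Y e := by
  have h2 : 0 ≤ ∏ e, facP p R P Y e := Finset.prod_nonneg fun e _ => (facP_bounds h0 h1 R P Y e).1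
  obtain ⟨h3, h4⟩ := Psi_01 h0 h1 R I Y
  exact ⟨mul_nonneg h2 (pow_nonneg h3 m), mul_le_of_le_one_right h2 (pow_le_one₀ h3 h4)⟩

theorem facP_prod_le_one {d q k : ℕ} {p : ℝ} (h0 : 0 ≤ p) (h1 : p ≤ 1) (R : ℝ)
    (P : Sym2 (Fin (k + 1)) → Option (Fin q)) (Y : Fin (k + 1) → Pt d) :
    ∏ e, facP p R P Y e ≤ 1 :=
  Finset.prod_le_one (fun e _ => (facP_bounds h0 h1 R P Y e).1)
    fun e _ => (facP_bounds h0 h1 R P Y e).2

open Classical in
/-- The integrand after the change of variables. -/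
noncomputable def FF {d q k : ℕ} (p K s : ℝ) (P : Sym2 (Fin (k + 1)) → Option (Fin q))
    (I : Finset (Fin (k + 1))) (m : ℕ) (w : Pt d × (Fin k → Pt d)) : ℝ :=
  (if ∀ i, w.1 + s • w.2 i ∈ cube d then
    GG p (K * s) P I m (Fin.cons w.1 fun i => w.1 + s • w.2 i) else 0) / p ^ k

theorem measurable_FF {d q k : ℕ} (p K s : ℝ) (P : Sym2 (Fin (k + 1)) → Option (Fin q))
    (I : Finset (Fin (k + 1))) (m : ℕ) : Measurable (FF (d := d) p K s P I m) := by
  classical
  have hmap : ∀ i, Measurable fun w : Pt d × (Fin k → Pt d) => w.1 + s • w.2 i := fun i =>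
    measurable_fst.add (((measurable_pi_apply i).comp measurable_snd).const_smul s)
  refine Measurable.div_const ?_ _
  refine Measurable.ite ?_ ?_ measurable_const
  · have : {w : Pt d × (Fin k → Pt d) | ∀ i, w.1 + s • w.2 i ∈ cube d} =
        ⋂ i, {w : Pt d × (Fin k → Pt d) | w.1 + s • w.2 i ∈ cube d} := by ext w; simp
    rw [this]
    exact MeasurableSet.iInter fun i => (hmap i) (measurableSet_cube d)
  · refine (measurable_GG p (K * s) P I m).comp ?_
    refine measurable_pi_lambda _ fun i => ?_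
    refine Fin.cases ?_ (fun i => ?_) i
    · simpa using measurable_fst
    · simpa using hmap i

theorem FF_bound {d q k ρ : ℕ} {p K s : ℝ} (h0 : 0 < p) (h1 : p ≤ 1) (hK : 0 < K) (hs : 0 < s)
    (P : Sym2 (Fin (k + 1)) → Option (Fin q)) (hP : mball P ρ 0 = univ)
    (hd : ∀ e : Sym2 (Fin (k + 1)), e.IsDiag → P e = none)
    (I : Finset (Fin (k + 1))) (m : ℕ) (w : Pt d × (Fin k → Pt d)) :
    0 ≤ FF p K s P I m w ∧ FF p K s P I m w ≤ 1 ∧
      (FF p K s P I m w ≠ 0 → ‖w.2‖ ≤ ρ * K) := by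
  have hpk : 0 < p ^ k := pow_pos h0 k
  unfold FF
  by_cases hc : ∀ i, w.1 + s • w.2 i ∈ cube d
  swap
  · rw [if_neg hc]
    simp
  rw [if_pos hc]
  obtain ⟨g1, g2⟩ := GG_bounds h0.le h1 (K * s) P I m (Fin.cons w.1 fun i => w.1 + s • w.2 i)
  have hfac : ∏ e, facP p (K * s) P (Fin.cons w.1 fun i => w.1 + s • w.2 i) e =
      p ^ #(EP P) * MM K P (Fin.cons 0 w.2) * RR p K P (Fin.cons 0 w.2) := by
    rw [← facP_prod p K P hd, cons_eq]
    exact Finset.prod_congr rfl fun e _ => facP_scale p K P w.1 hs _ e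
  rw [hfac] at g2
  obtain ⟨m0, m1⟩ := MM_bounds K P (Fin.cons 0 w.2 : Fin (k + 1) → Pt d)
  obtain ⟨r0, r1⟩ := RR_bounds h0.le h1 K P (Fin.cons 0 w.2 : Fin (k + 1) → Pt d)
  have hpe : 0 ≤ p ^ #(EP P) := pow_nonneg h0.le _
  refine ⟨div_nonneg g1 hpk.le, ?_, ?_⟩
  · rw [div_le_one hpk]
    calc GG p (K * s) P I m (Fin.cons w.1 fun i => w.1 + s • w.2 i)
        ≤ p ^ #(EP P) * MM K P (Fin.cons 0 w.2) * RR p K P (Fin.cons 0 w.2) := g2
      _ ≤ p ^ #(EP P) * MM K P (Fin.cons 0 w.2) :=
          mul_le_of_le_one_right (mul_nonneg hpe m0) r1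
      _ ≤ p ^ #(EP P) := mul_le_of_le_one_right hpe m1
      _ ≤ p ^ k := pow_le_pow_of_le_one h0.le h1 (card_EP P hP)
  · intro hne
    have hM : MM K P (Fin.cons 0 w.2 : Fin (k + 1) → Pt d) ≠ 0 := by
      intro h
      apply hne
      rw [h, mul_zero, zero_mul] at g2
      rw [le_antisymm g2 g1, zero_div]
    rw [pi_norm_le_iff_of_nonneg (by positivity)]
    intro i
    have hdist := dist_of_ball P (Fin.cons 0 w.2 : Fin (k + 1) → Pt d) hK (fun a b hab => by
      have h2 := (Finset.prod_ne_zero_iff.1 hM) s(a, b) (Finset.mem_filter.2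
        ⟨Finset.mem_univ _, hab⟩)
      have h3 : markOf q (len (Fin.cons 0 w.2 : Fin (k + 1) → Pt d) s(a, b) / K) = P s(a, b) := by
        by_contra hcon
        rw [if_neg hcon] at h2
        exact h2 rfl
      have h4 := markOf_ne_none (by rw [h3]; exact hab :
        markOf q (len (Fin.cons 0 w.2 : Fin (k + 1) → Pt d) s(a, b) / K) ≠ none)
      rw [div_lt_one hK] at h4
      exact h4.le) ρ i.succ (by rw [hP]; exact Finset.mem_univ _)
    simpa [dist_eq_norm] using hdist

theorem FF_tendsto {d q k ρ : ℕ} (hd1 : 1 ≤ d) {p s : ℕ → ℝ} {K : ℝ} (hK : 0 < K)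
    (hp : ∀ n, 0 < p n ∧ p n ≤ 1) (hp0 : Tendsto p atTop (nhds 0)) (hs : ∀ n, 0 < s n)
    (hs0 : Tendsto s atTop (nhds 0)) (hsp : ∀ n : ℕ, ((n : ℝ) + 1) * (p n * s n ^ d) = 1)
    (P : Sym2 (Fin (k + 1)) → Option (Fin q)) (hP : mball P ρ 0 = univ)
    (hd : ∀ e : Sym2 (Fin (k + 1)), e.IsDiag → P e = none)
    (I : Finset (Fin (k + 1))) (w : Pt d × (Fin k → Pt d)) (hw : w.1 ∈ interior (cube d)) :
    Tendsto (fun n => FF (p n) K (s n) P I (n - k) w) atTop
      (nhds ((if #(EP P) = k then Real.exp (-(#I * vK d K)) else 0) *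
        MM K P (Fin.cons 0 w.2 : Fin (k + 1) → Pt d))) := by
  have hcube : ∀ᶠ n in atTop, ∀ i, w.1 + s n • w.2 i ∈ cube d := by
    rw [eventually_all]
    intro i
    have h1 : Tendsto (fun n => w.1 + s n • w.2 i) atTop (nhds w.1) := by
      have := (tendsto_const_nhds (x := w.1)).add (hs0.smul_const (w.2 i))
      simpa using this
    exact (h1.eventually (isOpen_interior.mem_nhds hw)).mono fun n hn => interior_subset hn
  have hPsi := Psi_tendsto hd1 hK hp hp0 hs hs0 hsp I w.1 hw (Fin.cons 0 w.2)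
  have hRR := RR_tendsto hp0 K P (Fin.cons 0 w.2 : Fin (k + 1) → Pt d)
  have hpow : Tendsto (fun n => p n ^ (#(EP P) - k)) atTop
      (nhds (if #(EP P) = k then 1 else 0)) := by
    by_cases h : #(EP P) = k
    · rw [if_pos h, h, Nat.sub_self]
      simp only [pow_zero]
      exact tendsto_const_nhds
    · rw [if_neg h]
      have hlt : #(EP P) - k ≠ 0 := by
        have := card_EP P hP
        omega
      have := hp0.pow (#(EP P) - k)
      rwa [zero_pow hlt] at this
  have hall := ((hpow.mul_const (MM K P (Fin.cons 0 w.2 : Fin (k + 1) → Pt d))).mul hRR).mul hPsi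
  have e1 : (if #(EP P) = k then (1 : ℝ) else 0) * MM K P (Fin.cons 0 w.2 : Fin (k + 1) → Pt d) *
      1 * Real.exp (-(#I * vK d K)) = (if #(EP P) = k then Real.exp (-(#I * vK d K)) else 0) *
        MM K P (Fin.cons 0 w.2 : Fin (k + 1) → Pt d) := by
    split_ifs <;> ring
  rw [e1] at hall
  refine hall.congr' ?_
  filter_upwards [hcube] with n hn
  have hfac : ∏ e, facP (p n) (K * s n) P (Fin.cons w.1 fun i => w.1 + s n • w.2 i) e =
      p n ^ #(EP P) * MM K P (Fin.cons 0 w.2) * RR (p n) K P (Fin.cons 0 w.2) := by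
    rw [← facP_prod (p n) K P hd, cons_eq]
    exact Finset.prod_congr rfl fun e _ => facP_scale (p n) K P w.1 (hs n) _ e
  unfold FF
  rw [if_pos hn]
  unfold GG
  rw [hfac, cons_eq]
  have hpn : p n ^ k ≠ 0 := (pow_pos (hp n).1 k).ne'
  have hpe : p n ^ #(EP P) = p n ^ (#(EP P) - k) * p n ^ k := by
    rw [← pow_add, Nat.sub_add_cancel (card_EP P hP)]
  rw [hpe]
  field_simp

end KapLim

open KapLim

open Classical in
/-- **I6.** Limit of `kap`. -/
theorem kapLimit (h : KapFormula) : KapLimit := by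
  intro d q k ρ K P I hd1 hq hK hP
  by_cases hd : ∀ e : Sym2 (Fin (k + 1)), e.IsDiag → P e = none
  swap
  · refine ⟨0, fun p hp _ _ => ?_⟩
    push Not at hd
    obtain ⟨e, he, hPe⟩ := hd
    refine (tendsto_const_nhds (x := (0 : ℝ))).congr fun n => ?_
    split_ifs with hk
    · have hu : 0 < unit d (n + 1) (p (n + 1)) :=
        Real.rpow_pos_of_pos (mul_pos (by positivity) (hp (n + 1)).1) _
      rw [h n d q k hk (p (n + 1)) (K * unit d (n + 1) (p (n + 1))) P I (hp (n + 1)).1.le
        (hp (n + 1)).2 (mul_pos hK hu) hq]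
      have hz : ∀ Y : Fin (k + 1) → Pt d,
          ∏ e, facP (p (n + 1)) (K * unit d (n + 1) (p (n + 1))) P Y e = 0 := by
        intro Y
        refine Finset.prod_eq_zero (Finset.mem_univ e) ?_
        unfold facP
        rw [if_pos he, if_neg hPe]
      simp only [hz, zero_mul]
      simp
    · rfl
  refine ⟨∫ z : Fin k → Pt d, (if #(EP P) = k then Real.exp (-(#I * vK d K)) else 0) *
    MM K P (Fin.cons 0 z : Fin (k + 1) → Pt d), fun p hp hp0 hnp => ?_⟩
  set pn : ℕ → ℝ := fun n => p (n + 1) with hpn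
  set sn : ℕ → ℝ := fun n => unit d (n + 1) (p (n + 1)) with hsn
  have hpn' : ∀ n, 0 < pn n ∧ pn n ≤ 1 := fun n => hp (n + 1)
  have hpn0 : Tendsto pn atTop (nhds 0) := hp0.comp (tendsto_add_atTop_nat 1)
  have hNp : ∀ n : ℕ, 0 < ((n : ℝ) + 1) * pn n := fun n => mul_pos (by positivity) (hpn' n).1
  have hsnpos : ∀ n, 0 < sn n := fun n =>
    Real.rpow_pos_of_pos (mul_pos (by positivity) (hp (n + 1)).1) _
  have hd0 : (0 : ℝ) < d := by exact_mod_cast hd1
  have hsn' : ∀ n : ℕ, sn n = (((n : ℝ) + 1) * pn n) ^ (-(1 / (d : ℝ))) := by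
    intro n
    simp only [hsn, hpn, unit]
    push_cast
    rw [neg_div]
  have hsnd : ∀ n : ℕ, ((n : ℝ) + 1) * (pn n * sn n ^ d) = 1 := by
    intro n
    rw [hsn' n, ← Real.rpow_natCast, ← Real.rpow_mul (hNp n).le]
    have : -(1 / (d : ℝ)) * (d : ℝ) = -1 := by field_simp
    rw [this, Real.rpow_neg_one, ← mul_assoc, mul_inv_cancel₀ (hNp n).ne']
  have hsn0 : Tendsto sn atTop (nhds 0) := by
    have h1 : Tendsto (fun n : ℕ => ((n : ℝ) + 1) * pn n) atTop atTop := by
      have := hnp.comp (tendsto_add_atTop_nat 1)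
      refine this.congr fun n => ?_
      simp [hpn]
    have h2 := (tendsto_rpow_neg_atTop (y := 1 / (d : ℝ)) (by positivity)).comp h1
    exact h2.congr fun n => (hsn' n).symm
  -- the dominated convergence
  have hbint : Integrable (fun w : Pt d × (Fin k → Pt d) =>
      (Metric.closedBall (0 : Fin k → Pt d) (ρ * K)).indicator (fun _ => (1 : ℝ)) w.2)
      ((unif d).prod volume) := by
    have h1 : Integrable ((Metric.closedBall (0 : Fin k → Pt d) (ρ * K)).indicator
        (fun _ => (1 : ℝ))) := by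
      rw [integrable_indicator_iff Metric.isClosed_closedBall.measurableSet]
      exact integrableOn_const (isCompact_closedBall _ _).measure_lt_top.ne
    exact h1.comp_snd (unif d)
  have hbd : ∀ n (w : Pt d × (Fin k → Pt d)), ‖FF (pn n) K (sn n) P I (n - k) w‖ ≤
      (Metric.closedBall (0 : Fin k → Pt d) (ρ * K)).indicator (fun _ => (1 : ℝ)) w.2 := by
    intro n w
    obtain ⟨b1, b2, b3⟩ := FF_bound (hpn' n).1 (hpn' n).2 hK (hsnpos n) P hP hd I (n - k) w
    rw [Real.norm_eq_abs, abs_of_nonneg b1]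
    by_cases hz : FF (pn n) K (sn n) P I (n - k) w = 0
    · rw [hz]
      exact Set.indicator_nonneg (fun _ _ => zero_le_one) _
    · rw [Set.indicator_of_mem (by simpa using b3 hz)]
      exact b2
  have hmeas : ∀ n, AEStronglyMeasurable (FF (pn n) K (sn n) P I (n - k))
      ((unif d).prod (volume : Measure (Fin k → Pt d))) := fun n =>
    (measurable_FF _ _ _ P I _).aestronglyMeasurable
  have hlim : ∀ᵐ w ∂((unif d).prod (volume : Measure (Fin k → Pt d))),
      Tendsto (fun n => FF (pn n) K (sn n) P I (n - k) w) atTop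
      (nhds ((if #(EP P) = k then Real.exp (-(#I * vK d K)) else 0) *
        MM K P (Fin.cons 0 w.2 : Fin (k + 1) → Pt d))) := by
    have h1 : ∀ᵐ w ∂((unif d).prod (volume : Measure (Fin k → Pt d))),
        w.1 ∈ interior (cube d) :=
      Measure.quasiMeasurePreserving_fst.ae (ae_interior d)
    filter_upwards [h1] with w hw
    exact FF_tendsto hd1 hK hpn' hpn0 hsnpos hsn0 hsnd P hP hd I w hw
  have hconv := tendsto_integral_of_dominated_convergence _ hmeas hbint
    (fun n => Eventually.of_forall (hbd n)) hlim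
  have hc : ∫ w, ((if #(EP P) = k then Real.exp (-(#I * vK d K)) else 0) *
        MM K P (Fin.cons 0 w.2 : Fin (k + 1) → Pt d))
        ∂((unif d).prod (volume : Measure (Fin k → Pt d))) =
      ∫ z : Fin k → Pt d, (if #(EP P) = k then Real.exp (-(#I * vK d K)) else 0) *
        MM K P (Fin.cons 0 z : Fin (k + 1) → Pt d) := by
    rw [integral_fun_snd (f := fun z : Fin k → Pt d =>
      (if #(EP P) = k then Real.exp (-(#I * vK d K)) else 0) *
        MM K P (Fin.cons 0 z : Fin (k + 1) → Pt d))]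
    simp
  rw [hc] at hconv
  have hratio : Tendsto (fun n : ℕ => ((n : ℝ) / ((n : ℝ) + 1)) ^ k) atTop (nhds 1) := by
    have := (tendsto_natCast_div_add_atTop (1 : ℝ)).pow k
    simpa using this
  have hfin := hratio.mul hconv
  rw [one_mul] at hfin
  refine hfin.congr' ?_
  filter_upwards [eventually_ge_atTop k] with n hn
  rw [dif_pos (by omega : k + 1 ≤ n + 1)]
  rw [h n d q k (by omega) (p (n + 1)) (K * unit d (n + 1) (p (n + 1))) P I (hp (n + 1)).1.le
    (hp (n + 1)).2 (mul_pos hK (hsnpos n)) hq]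
  have e1 : (fun Y : Fin (k + 1) → Pt d => (∏ e, facP (p (n + 1))
      (K * unit d (n + 1) (p (n + 1))) P Y e) * (∫ y, ∏ i ∈ I, (1 - (if dist (Y i) y <
        K * unit d (n + 1) (p (n + 1)) then p (n + 1) else 0)) ∂(unif d)) ^ (n - k)) =
      GG (pn n) (K * sn n) P I (n - k) := rfl
  rw [e1, cov (GG (pn n) (K * sn n) P I (n - k)) (measurable_GG _ _ P I _) (fun Y => by
    obtain ⟨b1, b2⟩ := GG_bounds (hpn' n).1.le (hpn' n).2 (K * sn n) P I (n - k) Y
    rw [abs_of_nonneg b1]
    exact b2.trans (facP_prod_le_one (hpn' n).1.le (hpn' n).2 _ P Y)) (sn n) (hsnpos n)]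
  have hint : Integrable (FF (pn n) K (sn n) P I (n - k))
      ((unif d).prod (volume : Measure (Fin k → Pt d))) :=
    hbint.mono' (hmeas n) (Eventually.of_forall (hbd n))
  rw [integral_prod _ hint]
  have hpk : pn n ^ k ≠ 0 := (pow_pos (hpn' n).1 k).ne'
  have e2 : ∫ x, ∫ z, FF (pn n) K (sn n) P I (n - k) (x, z) ∂(volume : Measure (Fin k → Pt d))
      ∂(unif d) = (∫ x, (∫ z : Fin k → Pt d, (if ∀ i, x + sn n • z i ∈ cube d then
        GG (pn n) (K * sn n) P I (n - k) (Fin.cons x fun i => x + sn n • z i) else 0))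
          ∂(unif d)) / pn n ^ k := by
    rw [← integral_div]
    refine integral_congr_ae (Eventually.of_forall fun x => ?_)
    exact integral_div (pn n ^ k) fun z : Fin k → Pt d =>
      (if ∀ i, x + sn n • z i ∈ cube d then
        GG (pn n) (K * sn n) P I (n - k) (Fin.cons x fun i => x + sn n • z i) else 0)
  rw [e2]
  have hn1 : ((n : ℝ) + 1) ≠ 0 := by positivity
  have hs3 : sn n ^ (k * d) * pn n ^ k * ((n : ℝ) + 1) ^ k = 1 := by
    rw [mul_comm k d, pow_mul, ← mul_pow, ← mul_pow]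
    have := hsnd n
    rw [show sn n ^ d * pn n * ((n : ℝ) + 1) = ((n : ℝ) + 1) * (pn n * sn n ^ d) by ring, this,
      one_pow]
  rw [div_pow]
  generalize (∫ x, (∫ z : Fin k → Pt d, (if ∀ i, x + sn n • z i ∈ cube d then
        GG (pn n) (K * sn n) P I (n - k) (Fin.cons x fun i => x + sn n • z i) else 0))
          ∂(unif d)) = J
  have hs4 : sn n ^ (k * d) = 1 / (pn n ^ k * ((n : ℝ) + 1) ^ k) := by
    rw [eq_div_iff (mul_ne_zero hpk (pow_ne_zero k hn1)), ← mul_assoc]
    exact hs3
  rw [hs4]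
  field_simp

end MP329
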