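import Pool.Agent.Lib.MP_329b4d_pr.SpecA

/-!
# MP_329b4d_pr, B1: facts on lists
-/

set_option autoImplicit false

namespace MP329

open Finset

namespace B1

variable {V : Type}

theorem links_cut (Q₁ Q₂ : List V) (x y : V) :
    links (Q₁ ++ x :: y :: Q₂) = links (Q₁ ++ [x]) ++ s(x, y) :: links (y :: Q₂) := by
  induction Q₁ with
  | nil => rfl
  | cons a Q ih =>
    cases Q with
    | nil => rfl
    | cons b Q =>
      simp only [List.cons_append, links] at ih ⊢
      rw [ih]

theorem links_reverse (l : List V) : links l.reverse = (links l).reverse := by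
  induction l with
  | nil => rfl
  | cons a l ih =>
    cases l with
    | nil => rfl
    | cons b l =>
      have h1 : (a :: b :: l).reverse = l.reverse ++ b :: a :: [] := by simp
      have h2 : l.reverse ++ [b] = (b :: l).reverse := by simp
      rw [h1, links_cut, h2, ih]
      simp only [links, List.reverse_cons]
      rw [Sym2.eq_swap]

theorem length_links (l : List V) : (links l).length = l.length - 1 := by
  induction l with
  | nil => rfl
  | cons a l ih =>
    cases l with
    | nil => rfl
    | cons b l =>
      simp only [links, List.length_cons] at ih ⊢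
      omega

theorem mem_links (l : List V) (a b : V) :
    s(a, b) ∈ links l ↔ (∃ Q₁ Q₂, l = Q₁ ++ a :: b :: Q₂) ∨ (∃ Q₁ Q₂, l = Q₁ ++ b :: a :: Q₂) := by
  constructor
  · induction l with
    | nil => intro h; simp [links] at h
    | cons x l ih =>
      cases l with
      | nil => intro h; simp [links] at h
      | cons y l =>
        intro h
        simp only [links, List.mem_cons] at h
        rcases h with h | h
        · rcases Sym2.eq_iff.1 h with ⟨rfl, rfl⟩ | ⟨rfl, rfl⟩
          · exact Or.inl ⟨[], l, rfl⟩
          · exact Or.inr ⟨[], l, rfl⟩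
        · rcases ih h with ⟨Q₁, Q₂, e⟩ | ⟨Q₁, Q₂, e⟩
          · exact Or.inl ⟨x :: Q₁, Q₂, by rw [e]; rfl⟩
          · exact Or.inr ⟨x :: Q₁, Q₂, by rw [e]; rfl⟩
  · rintro (⟨Q₁, Q₂, rfl⟩ | ⟨Q₁, Q₂, rfl⟩)
    · rw [links_cut]; simp
    · rw [links_cut, Sym2.eq_swap]; simp

theorem mem_of_mem_links {l : List V} {a b : V} (h : s(a, b) ∈ links l) : a ∈ l ∧ b ∈ l := by
  rcases (mem_links l a b).1 h with ⟨Q₁, Q₂, rfl⟩ | ⟨Q₁, Q₂, rfl⟩ <;> simp

theorem links_nodup (l : List V) (hl : l.Nodup) : (links l).Nodup := by
  induction l with
  | nil => exact List.nodup_nil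
  | cons x l ih =>
    cases l with
    | nil => exact List.nodup_nil
    | cons y l =>
      have h1 := List.nodup_cons.1 hl
      simp only [links, List.nodup_cons]
      exact ⟨fun h => h1.1 (mem_of_mem_links h).1, ih h1.2⟩

theorem links_not_diag (l : List V) (hl : l.Nodup) : ∀ e ∈ links l, ¬ e.IsDiag := by
  intro e
  induction e using Sym2.ind with
  | _ a b =>
    intro h hd
    rw [Sym2.mk_isDiag_iff] at hd
    subst hd
    rcases (mem_links l a a).1 h with ⟨Q₁, Q₂, rfl⟩ | ⟨Q₁, Q₂, rfl⟩ <;>
    · have := (List.nodup_append.1 hl).2.1
      simp at this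

theorem flatMap_links_nodup (L : List (List V)) (h : L.flatten.Nodup) :
    (L.flatMap links).Nodup := by
  induction L with
  | nil => exact List.nodup_nil
  | cons l L ih =>
    rw [List.flatten_cons] at h
    rw [List.flatMap_cons]
    obtain ⟨h1, h2, h3⟩ := List.nodup_append'.1 h
    refine List.nodup_append'.2 ⟨links_nodup l h1, ih h2, ?_⟩
    intro e
    induction e using Sym2.ind with
    | _ a b =>
      intro he he'
      obtain ⟨l', hl', he''⟩ := List.mem_flatMap.1 he'
      exact h3 (mem_of_mem_links he).1 (List.mem_flatten.2 ⟨l', hl', (mem_of_mem_links he'').1⟩)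

theorem length_flatMap (L : List (List V)) (h : ∀ l ∈ L, l ≠ []) :
    (L.flatMap links).length + L.length = L.flatten.length := by
  induction L with
  | nil => rfl
  | cons l L ih =>
    have h1 := ih fun l' hl' => h l' (List.mem_cons_of_mem _ hl')
    have h2 : 0 < l.length := List.length_pos_iff.2 (h l List.mem_cons_self)
    rw [List.flatMap_cons, List.flatten_cons, List.length_append, List.length_append,
      length_links, List.length_cons]
    omega

theorem card_edgesL [Fintype V] [DecidableEq V] (L : List (List V)) (h : IsCover L) :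
    #(edgesL L) + L.length = Fintype.card V := by
  unfold edgesL
  rw [List.toFinset_card_of_nodup (flatMap_links_nodup L h.nodup), length_flatMap L h.ne_nil,
    ← List.toFinset_card_of_nodup h.nodup, ← Finset.card_univ]
  congr 1
  ext v
  simpa using h.covers v

theorem flatten_perm {L L' : List (List V)} (h : L.Perm L') : L.flatten.Perm L'.flatten := by
  induction h with
  | nil => exact List.Perm.refl _
  | cons x _ ih => rw [List.flatten_cons, List.flatten_cons]; exact ih.append_left x
  | swap x y l =>
    simp only [List.flatten_cons]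
    rw [← List.append_assoc, ← List.append_assoc]
    exact List.perm_append_comm.append_right _
  | trans _ _ ih1 ih2 => exact ih1.trans ih2

theorem cover_perm (L L' : List (List V)) (h : L.Perm L') (hc : IsCover L) : IsCover L' where
  ne_nil l hl := hc.ne_nil l (h.mem_iff.2 hl)
  nodup := (flatten_perm h).nodup_iff.1 hc.nodup
  covers v := (flatten_perm h).mem_iff.1 (hc.covers v)

theorem edgesL_perm [DecidableEq V] (L L' : List (List V)) (h : L.Perm L') :
    edgesL L = edgesL L' := by
  unfold edgesL
  ext e
  simp only [List.mem_toFinset, List.mem_flatMap]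
  exact ⟨fun ⟨l, hl, he⟩ => ⟨l, h.mem_iff.1 hl, he⟩, fun ⟨l, hl, he⟩ => ⟨l, h.mem_iff.2 hl, he⟩⟩

theorem cover_reverse (l : List V) (L : List (List V)) (h : IsCover (l :: L)) :
    IsCover (l.reverse :: L) where
  ne_nil l' hl' := by
    rcases List.mem_cons.1 hl' with rfl | hl'
    · have := h.ne_nil l List.mem_cons_self
      simpa using this
    · exact h.ne_nil l' (List.mem_cons_of_mem _ hl')
  nodup := by
    have hp : (l.reverse :: L).flatten.Perm (l :: L).flatten := by
      rw [List.flatten_cons, List.flatten_cons]
      exact (List.reverse_perm l).append_right _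
    exact hp.nodup_iff.2 h.nodup
  covers v := by
    have := h.covers v
    simpa [List.flatten_cons] using this

theorem edgesL_reverse [DecidableEq V] (l : List V) (L : List (List V)) :
    edgesL (l.reverse :: L) = edgesL (l :: L) := by
  unfold edgesL
  rw [List.flatMap_cons, List.flatMap_cons, links_reverse]
  ext e
  simp

theorem cover_join (l l' : List V) (L : List (List V)) (h : IsCover (l :: l' :: L)) :
    IsCover ((l ++ l') :: L) where
  ne_nil m hm := by
    rcases List.mem_cons.1 hm with rfl | hm
    · have := h.ne_nil l List.mem_cons_self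
      intro hc
      exact this (List.append_eq_nil_iff.1 hc).1
    · exact h.ne_nil m (List.mem_cons_of_mem _ (List.mem_cons_of_mem _ hm))
  nodup := by
    have := h.nodup
    simpa only [List.flatten_cons, List.append_assoc] using this
  covers v := by
    have := h.covers v
    simpa only [List.flatten_cons, List.append_assoc] using this

theorem edgesL_join [DecidableEq V] (Q Q' : List V) (a b : V) (L : List (List V)) :
    edgesL ((Q ++ a :: b :: Q') :: L) = insert s(a, b) (edgesL ((Q ++ [a]) :: (b :: Q') :: L)) := by
  unfold edgesL
  rw [List.flatMap_cons, List.flatMap_cons, List.flatMap_cons, links_cut]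
  ext e
  simp only [List.mem_toFinset, List.mem_append, List.mem_cons, Finset.mem_insert]
  tauto

theorem cover_cut (Q Q' : List V) (L : List (List V)) (hQ : Q ≠ []) (hQ' : Q' ≠ [])
    (h : IsCover ((Q ++ Q') :: L)) : IsCover (Q :: Q' :: L) where
  ne_nil m hm := by
    rcases List.mem_cons.1 hm with rfl | hm
    · exact hQ
    · rcases List.mem_cons.1 hm with rfl | hm
      · exact hQ'
      · exact h.ne_nil m (List.mem_cons_of_mem _ hm)
  nodup := by
    have := h.nodup
    simpa only [List.flatten_cons, List.append_assoc] using this
  covers v := by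
    have := h.covers v
    simpa only [List.flatten_cons, List.append_assoc] using this

theorem edgesL_cut [DecidableEq V] (Q Q' : List V) (a b : V) (L : List (List V))
    (h : ((Q ++ a :: b :: Q') :: L).flatten.Nodup) :
    edgesL ((Q ++ [a]) :: (b :: Q') :: L) = (edgesL ((Q ++ a :: b :: Q') :: L)).erase s(a, b) := by
  rw [edgesL_join, Finset.erase_insert]
  have hn := flatMap_links_nodup _ h
  rw [List.flatMap_cons, links_cut] at hn
  unfold edgesL
  rw [List.flatMap_cons, List.flatMap_cons]
  simp only [List.mem_toFinset, List.mem_append]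
  rw [List.append_assoc, List.cons_append] at hn
  have h1 := (List.nodup_middle.1 hn)
  have h2 := (List.nodup_cons.1 h1).1
  simpa only [List.mem_append] using h2

end B1

theorem listFacts : ListFacts where
  links_cut _ := B1.links_cut
  links_reverse _ := B1.links_reverse
  length_links _ := B1.length_links
  mem_links _ := B1.mem_links
  links_nodup _ := B1.links_nodup
  links_not_diag _ := B1.links_not_diag
  flatMap_links_nodup _ := B1.flatMap_links_nodup
  card_edgesL _ := B1.card_edgesL
  cover_perm _ := B1.cover_perm
  edgesL_perm _ := B1.edgesL_perm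
  cover_reverse _ := B1.cover_reverse
  edgesL_reverse _ := B1.edgesL_reverse
  cover_join _ := B1.cover_join
  edgesL_join _ := B1.edgesL_join
  cover_cut _ := B1.cover_cut
  edgesL_cut _ := B1.edgesL_cut

end MP329
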