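import Pool.Agent.Lib.MP_329b4d_pr.SpecI
import Pool.Agent.Lib.MP_329b4d_pr.B1Lists

/-!
# MP_329b4d_pr, I7: probability of paths
-/

set_option autoImplicit false

namespace MP329

open Finset MeasureTheory

namespace I7

variable {n d : ℕ}

/-- Consecutive members of `l` are at distance less than `R`. -/
def Ev (R : ℝ) (l : List (Fin n)) : Set (Fin n → Pt d) := {X | ∀ e ∈ links l, len X e < R}

theorem measurable_len_lt (R : ℝ) (e : Sym2 (Fin n)) :
    MeasurableSet {X : Fin n → Pt d | len X e < R} := by
  induction e using Sym2.ind with
  | _ a b =>
    exact measurableSet_lt ((measurable_pi_apply a).dist (measurable_pi_apply b))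
      measurable_const

theorem measurable_Ev (R : ℝ) (l : List (Fin n)) : MeasurableSet (Ev (d := d) R l) := by
  have h : Ev (d := d) R l = ⋂ e ∈ (links l).toFinset, {X | len X e < R} := by
    ext X
    simp [Ev]
  rw [h]
  exact Finset.measurableSet_biInter _ fun e _ => measurable_len_lt R e

theorem update_mem_Ev {R : ℝ} {l : List (Fin n)} {a : Fin n} (ha : a ∉ l) (X : Fin n → Pt d)
    (y : Pt d) : Function.update X a y ∈ Ev R l ↔ X ∈ Ev R l := by
  have h : ∀ e ∈ links l, len (Function.update X a y) e = len X e := by
    intro e
    induction e using Sym2.ind with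
    | _ b c =>
      intro he
      obtain ⟨hb, hc⟩ := B1.mem_of_mem_links he
      have hb' : b ≠ a := fun h => ha (h ▸ hb)
      have hc' : c ≠ a := fun h => ha (h ▸ hc)
      show dist (Function.update X a y b) (Function.update X a y c) = dist (X b) (X c)
      rw [Function.update_of_ne hb', Function.update_of_ne hc']
  constructor
  · intro hX e he
    rw [← h e he]
    exact hX e he
  · intro hX e he
    rw [h e he]
    exact hX e he

theorem cons_mem_Ev {R : ℝ} {l : List (Fin n)} {a b : Fin n} (X : Fin n → Pt d) :
    X ∈ Ev R (a :: b :: l) ↔ dist (X a) (X b) < R ∧ X ∈ Ev R (b :: l) := by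
  simp only [Ev, links, List.mem_cons, forall_eq_or_imp, Set.mem_setOf_eq]
  rfl

theorem unif_ball_le (x : Pt d) (R : ℝ) :
    unif d {y | dist y x < R} ≤ volume (Metric.ball (0 : Pt d) R) := by
  have h : {y | dist y x < R} = Metric.ball x R := rfl
  rw [h, ← Measure.addHaar_ball_center volume x R]
  exact Measure.restrict_apply_le _ _

theorem bound (hu : IsProbabilityMeasure (unif d)) (R : ℝ) (l : List (Fin n)) (hl : l.Nodup)
    (hne : l ≠ []) :
    ∫⁻ X, (Ev R l).indicator (fun _ => (1 : ENNReal)) X ∂(Measure.pi fun _ : Fin n => unif d) ≤
      (volume (Metric.ball (0 : Pt d) R)) ^ (l.length - 1) := by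
  induction l with
  | nil => exact (hne rfl).elim
  | cons a l ih =>
    cases l with
    | nil =>
      calc ∫⁻ X, (Ev R [a]).indicator (fun _ => (1 : ENNReal)) X
            ∂(Measure.pi fun _ : Fin n => unif d)
          ≤ ∫⁻ _, 1 ∂(Measure.pi fun _ : Fin n => unif d) :=
            lintegral_mono fun X => Set.indicator_le_self' (fun _ _ => zero_le) X
        _ = 1 := by simp
        _ ≤ _ := by simp
    | cons b l =>
      have ih' := ih (List.nodup_cons.1 hl).2 (by simp)
      have ha : a ∉ b :: l := (List.nodup_cons.1 hl).1
      have hba : b ≠ a := fun h => ha (h ▸ List.mem_cons_self)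
      calc ∫⁻ X, (Ev R (a :: b :: l)).indicator (fun _ => (1 : ENNReal)) X
            ∂(Measure.pi fun _ : Fin n => unif d)
          ≤ ∫⁻ X, volume (Metric.ball (0 : Pt d) R) *
              (Ev R (b :: l)).indicator (fun _ => (1 : ENNReal)) X
              ∂(Measure.pi fun _ : Fin n => unif d) := by
            refine lintegral_le_of_lmarginal_le {a}
              (measurable_const.indicator (measurable_Ev R _))
              ((measurable_const.indicator (measurable_Ev R _)).const_mul _) ?_
            intro X
            rw [lmarginal_singleton, lmarginal_singleton]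
            by_cases hX : X ∈ Ev R (b :: l)
            · have h1 : ∀ y : Pt d, (Ev R (a :: b :: l)).indicator (fun _ => (1 : ENNReal))
                  (Function.update X a y) ≤
                  {y | dist y (X b) < R}.indicator (fun _ => (1 : ENNReal)) y := by
                intro y
                by_cases hy : Function.update X a y ∈ Ev R (a :: b :: l)
                · have h2 := ((cons_mem_Ev _).1 hy).1
                  rw [Function.update_self, Function.update_of_ne hba] at h2
                  rw [Set.indicator_of_mem hy, Set.indicator_of_mem]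
                  exact h2
                · rw [Set.indicator_of_notMem hy]
                  exact zero_le
              have h2 : ∀ y : Pt d, volume (Metric.ball (0 : Pt d) R) *
                  (Ev R (b :: l)).indicator (fun _ => (1 : ENNReal)) (Function.update X a y) =
                  volume (Metric.ball (0 : Pt d) R) := by
                intro y
                rw [Set.indicator_of_mem ((update_mem_Ev ha X y).2 hX), mul_one]
              calc ∫⁻ y, (Ev R (a :: b :: l)).indicator (fun _ => (1 : ENNReal))
                    (Function.update X a y) ∂(unif d)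
                  ≤ ∫⁻ y, {y | dist y (X b) < R}.indicator (fun _ => (1 : ENNReal)) y
                      ∂(unif d) := lintegral_mono h1
                _ = unif d {y | dist y (X b) < R} := by
                    rw [lintegral_indicator_const, one_mul]
                    exact measurableSet_lt (measurable_id.dist measurable_const) measurable_const
                _ ≤ volume (Metric.ball (0 : Pt d) R) := unif_ball_le _ _
                _ = ∫⁻ y, volume (Metric.ball (0 : Pt d) R) *
                  (Ev R (b :: l)).indicator (fun _ => (1 : ENNReal)) (Function.update X a y)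
                      ∂(unif d) := by
                    simp only [h2, lintegral_const, measure_univ, mul_one]
            · have h1 : ∀ y : Pt d, (Ev R (a :: b :: l)).indicator (fun _ => (1 : ENNReal))
                  (Function.update X a y) = 0 := by
                intro y
                rw [Set.indicator_of_notMem]
                intro hy
                exact hX ((update_mem_Ev ha X y).1 ((cons_mem_Ev _).1 hy).2)
              simp only [h1, lintegral_zero]
              exact zero_le
        _ = volume (Metric.ball (0 : Pt d) R) *
              ∫⁻ X, (Ev R (b :: l)).indicator (fun _ => (1 : ENNReal)) X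
              ∂(Measure.pi fun _ : Fin n => unif d) :=
            lintegral_const_mul _ (measurable_const.indicator (measurable_Ev R _))
        _ ≤ volume (Metric.ball (0 : Pt d) R) *
              volume (Metric.ball (0 : Pt d) R) ^ ((b :: l).length - 1) := by gcongr
        _ = volume (Metric.ball (0 : Pt d) R) ^ ((a :: b :: l).length - 1) := by
            simp only [List.length_cons, Nat.add_sub_cancel]
            rw [pow_succ']

theorem measure_Ev_le (hu : IsProbabilityMeasure (unif d)) (R : ℝ) (l : List (Fin n))
    (hl : l.Nodup) (hne : l ≠ []) :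
    (Measure.pi fun _ : Fin n => unif d) (Ev R l) ≤
      (volume (Metric.ball (0 : Pt d) R)) ^ (l.length - 1) := by
  have h := bound hu R l hl hne
  rw [lintegral_indicator_const (measurable_Ev R l), one_mul] at h
  exact h

/-- Volume of the ball of radius `K * unit d n p`. -/
theorem vol_ball {p K : ℝ} (hn : 1 ≤ n) (hd : 1 ≤ d) (hp : 0 < p) :
    (volume (Metric.ball (0 : Pt d) (K * unit d n p))).toReal = vK d K / (n * p) := by
  have hnp : 0 < (n : ℝ) * p := by
    have : (0 : ℝ) < n := by exact_mod_cast hn
    positivity
  have hu : 0 < unit d n p := Real.rpow_pos_of_pos hnp _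
  rw [mul_comm K, Measure.addHaar_ball_mul_of_pos volume (0 : Pt d) hu K, ENNReal.toReal_mul,
    ENNReal.toReal_ofReal (by positivity), finrank_euclideanSpace_fin]
  have h1 : unit d n p ^ d = ((n : ℝ) * p)⁻¹ := by
    unfold unit
    rw [← Real.rpow_natCast, ← Real.rpow_mul hnp.le]
    have h2 : -(1 : ℝ) / d * d = -1 := by
      have : (d : ℝ) ≠ 0 := by
        have : (0 : ℝ) < d := by exact_mod_cast hd
        exact this.ne'
      field_simp
    rw [h2, Real.rpow_neg_one]
  rw [h1]
  unfold vK
  ring

/-- A marked pair is present and short. -/
theorem geo_ne_none {q : ℕ} (hq : 1 ≤ q) {R : ℝ} (hR : 0 < R) {X : Fin n → Pt d}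
    {S : Finset (Sym2 (Fin n))} {e : Sym2 (Fin n)} (h : geo q R X S e ≠ none) :
    e ∈ S ∧ len X e < R := by
  unfold geo at h
  split_ifs at h with h1
  · refine ⟨h1.1, ?_⟩
    unfold markOf at h
    split_ifs at h with h2
    · have hq' : (0 : ℝ) < q := by exact_mod_cast hq
      have hlen : 0 ≤ len X e := by
        induction e using Sym2.ind with
        | _ a b => exact dist_nonneg (x := X a) (y := X b)
      have h3 : 0 ≤ (q : ℝ) * (len X e / R) := by positivity
      rw [Nat.floor_lt h3] at h2
      have h4 : len X e / R < 1 := by
        by_contra hcon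
        push Not at hcon
        nlinarith
      rwa [div_lt_one hR] at h4
    · exact absurd rfl h
  · exact absurd rfl h

end I7

open I7 in
/-- **I7, probability of paths.** -/
theorem pathProb (h : GeoLawFacts) : PathProb := by
  intro n d q p K D l hn hd hq hp hp1 hK hl hne hD
  classical
  have hprob := h.unif_prob d
  have hnp : 0 < (n : ℝ) * p := by
    have : (0 : ℝ) < n := by exact_mod_cast hn
    positivity
  have hu : 0 < unit d n p := Real.rpow_pos_of_pos hnp _
  have hR : 0 < K * unit d n p := mul_pos hK hu
  set R := K * unit d n p with hRdef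
  rw [h.integral n d q p R hp.le hp1]
  have hpt : ∀ X : Fin n → Pt d,
      Ex p (fun S => (if ∀ e ∈ D, geo q R X S e ≠ none then (1 : ℝ) else 0)) ≤
        (Ev R l).indicator (fun _ => p ^ #D) X := by
    intro X
    by_cases hX : X ∈ Ev R l
    · rw [Set.indicator_of_mem hX, ← Pb_subset p D]
      unfold Pb
      refine Ex_mono hp.le hp1 fun S => ?_
      by_cases hS : ∀ e ∈ D, geo q R X S e ≠ none
      · have hDS : D ⊆ S := fun e he => (geo_ne_none hq hR (hS e he)).1
        rw [if_pos hS, if_pos hDS]
      · rw [if_neg hS]
        split_ifs <;> norm_num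
    · rw [Set.indicator_of_notMem hX]
      have h0 : ∀ S : Finset (Sym2 (Fin n)),
          (if ∀ e ∈ D, geo q R X S e ≠ none then (1 : ℝ) else 0) = 0 := by
        intro S
        rw [if_neg]
        intro hS
        apply hX
        intro e he
        exact (geo_ne_none hq hR (hS e (hD e he))).2
      rw [Ex_congr h0, Ex_const]
  have hmono : ∫ X, Ex p (fun S => (if ∀ e ∈ D, geo q R X S e ≠ none then (1 : ℝ) else 0))
      ∂(Measure.pi fun _ : Fin n => unif d) ≤
      ∫ X, (Ev R l).indicator (fun _ => p ^ #D) X ∂(Measure.pi fun _ : Fin n => unif d) := by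
    refine integral_mono_of_nonneg ?_ ?_ ?_
    · exact Filter.Eventually.of_forall fun X => Ex_nonneg hp.le hp1 fun S => by
        split_ifs <;> norm_num
    · exact (integrable_const _).indicator (measurable_Ev R l)
    · exact Filter.Eventually.of_forall hpt
  refine hmono.trans ?_
  rw [integral_indicator_const _ (measurable_Ev R l), smul_eq_mul, mul_comm]
  refine mul_le_mul_of_nonneg_left ?_ (by positivity)
  have h1 := measure_Ev_le hprob R l hl hne
  have hfin : volume (Metric.ball (0 : Pt d) R) ≠ ⊤ := measure_ball_lt_top.ne
  have h2 : (Measure.pi fun _ : Fin n => unif d).real (Ev R l) ≤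
      ((volume (Metric.ball (0 : Pt d) R)) ^ (l.length - 1)).toReal :=
    ENNReal.toReal_mono (ENNReal.pow_ne_top hfin) h1
  rw [ENNReal.toReal_pow, hRdef, vol_ball hn hd hp] at h2
  exact h2

end MP329
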