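import Pool.Agent.Lib.MP_329b4d_pr.SpecG

/-!
# MP_329b4d_pr: statements I (local limit) and J (variance)

`λ = (volume (ball 0 K)).toReal` is called `vK d K`; with `R = K * unit d n p` the ball of radius `R`
has volume `vK d K / (n p)`.
-/

namespace MP329

open Finset MeasureTheory Filter

section Defs

/-- The present pairs of a sample. -/
def present {n d : ℕ} (ω : Sample n d) : Finset (Sym2 (Fin n)) := univ.filter fun e => ω.2 e = true

/-- The law of the random marked graph. -/
noncomputable def geoLaw (n d q : ℕ) (p R : ℝ) (g : Sym2 (Fin n) → Option (Fin q)) : ℝ :=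
  ((law n d p) {ω | geo q R ω.1 (present ω) = g}).toReal

/-- Volume of the ball of radius `K`. -/
noncomputable def vK (d : ℕ) (K : ℝ) : ℝ := (volume (Metric.ball (0 : Pt d) K)).toReal

/-- Ball of radius `ρ` around `v` in a marked graph. -/
def mball {V : Type*} [Fintype V] [DecidableEq V] {q : ℕ} (g : Sym2 V → Option (Fin q)) :
    ℕ → V → Finset V
  | 0, v => {v}
  | ρ + 1, v => mball g ρ v ∪ univ.filter fun w => ∃ u ∈ mball g ρ v, g s(u, w) ≠ none

open Classical in
/-- Probability under `μ` that the graph restricted to the first `k + 1` vertices is `P` and no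
vertex of `I` is joined to a vertex outside. -/
noncomputable def kap {n q : ℕ} (μ : (Sym2 (Fin (n + 1)) → Option (Fin q)) → ℝ) (k : ℕ)
    (hk : k + 1 ≤ n + 1) (P : Sym2 (Fin (k + 1)) → Option (Fin q)) (I : Finset (Fin (k + 1))) : ℝ :=
  ∑ g, μ g * (if (∀ e, g (e.map (Fin.castLE hk)) = P e) ∧
    (∀ i ∈ I, ∀ v : Fin (n + 1), k < (v : ℕ) → g s(Fin.castLE hk i, v) = none) then 1 else 0)

/-- Factor of the pair `e` in the probability of the pattern `P`, given the positions `Y`. -/
noncomputable def facP {d q k : ℕ} (p R : ℝ) (P : Sym2 (Fin (k + 1)) → Option (Fin q))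
    (Y : Fin (k + 1) → Pt d) (e : Sym2 (Fin (k + 1))) : ℝ :=
  if e.IsDiag then (if P e = none then 1 else 0)
  else if P e = none then 1 - (if len Y e < R then p else 0)
  else if markOf q (len Y e / R) = P e then p else 0

end Defs

/-- **I0, the law of the marked graph.**

Proof.  `geo q R X S` depends on `X` only through the finitely many measurable functions
`X ↦ markOf q (len X e / R)` (preimages of single values are given by inequalities on distances),
so for every `S` and every `A` the set `{X | A (geo q R X S)}` is measurable; `law` is a product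
measure and the second factor lives on a finite set (`CoinEx`): Fubini. -/
structure GeoLawFacts : Prop where
  meas : ∀ (n d q : ℕ) (R : ℝ) (S : Finset (Sym2 (Fin n)))
    (A : (Sym2 (Fin n) → Option (Fin q)) → Prop), MeasurableSet {X | A (geo (d := d) q R X S)}
  unif_prob : ∀ d : ℕ, IsProbabilityMeasure (unif d)
  law_prob : ∀ (n d : ℕ) (p : ℝ), 0 ≤ p → p ≤ 1 → IsProbabilityMeasure (law n d p)
  nonneg : ∀ (n d q : ℕ) (p R : ℝ) (g), 0 ≤ geoLaw n d q p R g
  sum_one : ∀ (n d q : ℕ) (p R : ℝ), 0 ≤ p → p ≤ 1 → ∑ g, geoLaw n d q p R g = 1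
  integral : ∀ (n d q : ℕ) (p R : ℝ), 0 ≤ p → p ≤ 1 →
    ∀ F : (Sym2 (Fin n) → Option (Fin q)) → ℝ, ∑ g, geoLaw n d q p R g * F g =
      ∫ X, Ex p (fun S => F (geo q R X S)) ∂(Measure.pi fun _ : Fin n => unif d)
  prob : ∀ (n d q : ℕ) (p R : ℝ), 0 ≤ p → p ≤ 1 →
    ∀ A : (Sym2 (Fin n) → Option (Fin q)) → Prop,
      ((law n d p) {ω | A (geo q R ω.1 (present ω))}).toReal =
      ∫ X, Pb p (fun S => A (geo q R X S)) ∂(Measure.pi fun _ : Fin n => unif d)

/-- **I1, exchangeability.**

Proof.  The map `(X, c) ↦ (X ∘ σ, c ∘ Sym2.map σ)` preserves `law` (permutation of the coordinates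
of two product measures with equal factors), and
`geo q R (X ∘ σ) (present …) e = geo q R X (present …) (e.map σ)`. -/
def Exchangeable : Prop :=
  ∀ (n d q : ℕ) (p R : ℝ), 0 ≤ p → p ≤ 1 → ∀ (σ : Equiv.Perm (Fin n))
    (g : Sym2 (Fin n) → Option (Fin q)),
    geoLaw n d q p R (fun e => g (e.map σ)) = geoLaw n d q p R g

/-- **I2, types are local.**

Proof.  For `i ∈ mball P r 0` all `g`-neighbours of `ι i` are in the range of `ι`, so
`mdeg g (ι i) = mdeg P i`.  By induction on `s ≤ r`: for `i ∈ mball P (r - s) 0`,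
`typ Δ (prune Δ g) s (ι i) = typ Δ (prune Δ P) s i` (compatibly, the types live in the same `Typ q Δ s`).
Step `s + 1 ≤ r`, `i ∈ mball P (r - s - 1) 0`: the neighbours of `ι i` in `prune Δ g` are the `ι j`
with `j` a neighbour of `i` in `P`, `mdeg g (ι i) ≤ Δ`, `mdeg g (ι j) ≤ Δ`; such `j` are in
`mball P (r - s) 0 ⊆ mball P r 0`, so degrees and types after `s` rounds agree by induction. -/
def TypLocal : Prop :=
  ∀ (V : Type) [Fintype V] [DecidableEq V] (q Δ r k : ℕ) (ι : Fin (k + 1) → V)
    (g : Sym2 V → Option (Fin q)), Function.Injective ι →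
    (∀ i ∈ mball (fun e => g (e.map ι)) r 0, ∀ v, (∀ j, ι j ≠ v) → g s(ι i, v) = none) →
    typ Δ (prune Δ g) r (ι 0) = typ Δ (prune Δ (fun e => g (e.map ι))) r 0

/-- **I3, recognizing the ball.**

Proof.  If no edge joins `ι (mball P r 0)` to the outside of the range of `ι` then
`mball g ρ (ι 0) = ι (mball P ρ 0)` for all `ρ ≤ r + 1` by induction on `ρ`.  This gives `←`.  `→`: if
`mball g (r+1) (ι 0)` is the range of `ι`, then by induction `mball g ρ (ι 0) = ι (mball P ρ 0)` for
`ρ ≤ r + 1` (all vertices of `mball g ρ (ι 0) ⊆ mball g (r+1) (ι 0)` are in the range of `ι`), and a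
neighbour of a vertex of `mball g r (ι 0)` is in `mball g (r+1) (ι 0)`, the range. -/
def BallPattern : Prop :=
  ∀ (V : Type) [Fintype V] [DecidableEq V] (q r k : ℕ) (ι : Fin (k + 1) → V)
    (g : Sym2 V → Option (Fin q)), Function.Injective ι →
    (mball g (r + 1) (ι 0) = univ.image ι ↔
      (mball (fun e => g (e.map ι)) (r + 1) 0 = univ ∧
        ∀ i ∈ mball (fun e => g (e.map ι)) r 0, ∀ v, (∀ j, ι j ≠ v) → g s(ι i, v) = none))

open Classical in
/-- **I4, decomposition.**  For exchangeable weights the probability that vertex `0` has type `τ` and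
its ball of radius `r + 1` has `k + 1` vertices is a sum over patterns on the first `k + 1` vertices.

Proof (from `TypLocal`, `BallPattern`).  Split according to the ball `U = mball g (r+1) 0`,
`#U = k + 1`, `0 ∈ U`.  There are `n.choose k` such sets `U`; each is the image of
`U₀ = {v | v ≤ k}` under a permutation `σ` of `Fin (n+1)` fixing `0`, and by exchangeability (the
ball and the type of `0` are equivariant) the probability of `{ball = U, type τ}` is the same as
for `U₀`.  For `U₀`, with `ι = Fin.castLE` and `P e = g (e.map ι)`: by `BallPattern` the event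
`mball g (r+1) 0 = U₀` is `mball P (r+1) 0 = univ` and no edge from `ι (mball P r 0)` to outside, and
then by `TypLocal` the type of `0` is `typ Δ (prune Δ P) r 0`.  Sum over `P`. -/
def Decomp : Prop :=
  ∀ (n q Δ r k : ℕ) (hk : k + 1 ≤ n + 1) (μ : (Sym2 (Fin (n + 1)) → Option (Fin q)) → ℝ)
    (τ : Typ q Δ r),
    (∀ (σ : Equiv.Perm (Fin (n + 1))) (g), μ (fun e => g (e.map σ)) = μ g) →
    ∑ g, μ g * (if typ Δ (prune Δ g) r 0 = τ ∧ #(mball g (r + 1) 0) = k + 1 then 1 else 0) =
      (n.choose k : ℝ) * ∑ P : Sym2 (Fin (k + 1)) → Option (Fin q),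
        if mball P (r + 1) 0 = univ ∧ typ Δ (prune Δ P) r 0 = τ
        then kap μ k hk P (mball P r 0) else 0

/-- **I4', frequencies are probabilities at vertex `0`.**

Proof.  By exchangeability (a permutation with `σ 0 = i`; types and pruning are equivariant) the
probability that vertex `i` has type `τ` does not depend on `i`. -/
def FreqZero : Prop :=
  ∀ (n q Δ r : ℕ) (μ : (Sym2 (Fin (n + 1)) → Option (Fin q)) → ℝ) (τ : Typ q Δ r),
    (∀ (σ : Equiv.Perm (Fin (n + 1))) (g), μ (fun e => g (e.map σ)) = μ g) →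
    typFreq Δ r μ τ = ∑ g, μ g * (if typ Δ (prune Δ g) r 0 = τ then 1 else 0)

/-- **I5, integral formula for `kap`.**

Proof (from `GeoLawFacts`, `ExIndep`).  Fix the positions `X`.  The event is a condition on each
single coin `e` separately: for `e = e'.map castLE` a condition with probability `facP …`
(non-diagonal pair, `P e' = some m`: the coin shows `true` and the mark is right; `P e' = none`: the
coin shows `false` or the pair has length `≥ R`, i.e. mark `none`; diagonal pair: `geo` is `none`);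
for `e = s(i, v)`, `i ∈ I`, `v > k`: probability `1 - p [dist < R]`; no condition on the other coins.
So `Ex p` of the indicator is the product of these factors (`Ex` of a product of functions of single
coins is the product; e.g. directly from `sum_prod_ite`).  The factor of the vertices `v > k`
depends on `X` through `X v` and the first `k + 1` positions; integrate over the positions `X v`,
`v > k`, first (they are independent and identically distributed): this gives the power `n - k`.
Here `markOf q (t / R) ≠ none` iff `t < R` for `t ≥ 0`, `R > 0`, `q ≥ 1`. -/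
def KapFormula : Prop :=
  ∀ (n d q k : ℕ) (hk : k + 1 ≤ n + 1) (p R : ℝ) (P : Sym2 (Fin (k + 1)) → Option (Fin q))
    (I : Finset (Fin (k + 1))), 0 ≤ p → p ≤ 1 → 0 < R → 1 ≤ q →
    kap (geoLaw (n + 1) d q p R) k hk P I =
      ∫ Y : Fin (k + 1) → Pt d, (∏ e, facP p R P Y e) *
        (∫ y, ∏ i ∈ I, (1 - (if dist (Y i) y < R then p else 0)) ∂(unif d)) ^ (n - k)
        ∂(Measure.pi fun _ => unif d)

/-- **I6, limit of `kap`.**  The limit does not depend on the sequence `p`.

Proof (from `KapFormula`).  If `P e ≠ none` for some diagonal `e` then `kap = 0`.  Let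
`N = n + 1`, `p = p N`, `s = unit d N p`, `R = K s`, `s ^ d = 1/(N p)`, and let `E_P` be the number
of pairs with `P e ≠ none`; `E_P ≥ k` since `P` is connected.  In `KapFormula` substitute
`Y 0 = x`, `Y i = x + s z_i` (`1 ≤ i ≤ k`); marks of pairs become marks for the positions
`(0, z)` with radius `K`:
`N^k kap = N^k s^(d k) p^(E_P) ∫_{x ∈ cube} ∫_z F_n (x, z) dz dx = p^(E_P - k) ∫∫ F_n`, where
`F_n (x, z) = [x + s z_i ∈ cube ∀ i] [marks of (0, z) right] ∏_{P e = none} (1 - p [close])
 * Ψ_n (x, z)^(n - k)`, `0 ≤ F_n ≤ [|z_i| ≤ k K ∀ i]` by connectedness (integrable).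
If `E_P > k` the limit is `0`.  If `E_P = k` use dominated convergence: for `x` in the open cube and
`z` fixed, for large `n` all balls `B (x + s z_i, K s)` are inside the cube, so
`1 - Ψ_n = ∫_cube (1 - ∏_{i ∈ I} (1 - p [|x + s z_i - y| < K s])) dy` lies between
`#I vK/N - p #I² vK / N` and `#I vK / N`
(Bonferroni: `∑ a_i - ∑_{i<j} a_i a_j ≤ 1 - ∏ (1 - a_i) ≤ ∑ a_i`, and the volume of each ball is
`vK d K * s^d = vK/(N p)`), hence `(n - k)(1 - Ψ_n) → #I vK` and `Ψ_n^(n-k) → exp (- #I vK)`; the
other factors tend to `[marks right]`.  The boundary of the cube is a null set.  So the limit is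
`exp (- #I * vK) * ∫_z [marks of (0, z) right for all e with P e ≠ none] dz`, independent of `p`.
Finally `(n/N)^k → 1` to pass from `N^k` to `n^k`. -/
def KapLimit : Prop :=
  ∀ (d q k ρ : ℕ) (K : ℝ) (P : Sym2 (Fin (k + 1)) → Option (Fin q)) (I : Finset (Fin (k + 1))),
    1 ≤ d → 1 ≤ q → 0 < K → mball P ρ 0 = univ →
    ∃ c : ℝ, ∀ p : ℕ → ℝ, (∀ n, 0 < p n ∧ p n ≤ 1) → Tendsto p atTop (nhds 0) →
      Tendsto (fun n : ℕ => (n : ℝ) * p n) atTop atTop →
      Tendsto (fun n : ℕ => if hk : k + 1 ≤ n + 1 then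
        (n : ℝ) ^ k * kap (geoLaw (n + 1) d q (p (n + 1)) (K * unit d (n + 1) (p (n + 1)))) k hk P I
        else 0) atTop (nhds c)

open Classical in
/-- **I7, probability of paths.**  `l` is a list of different vertices whose links are in `D`.

Proof (from `GeoLawFacts`).  `g e ≠ none` for all `e ∈ D` forces all coins of `D` to show `true`
(probability `p ^ #D` given the positions, `Pb_subset`) and all consecutive members of `l` to be at
distance less than `R`.  The volume of positions with the latter property is at most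
`v ^ (l.length - 1)`, `v = volume (ball 0 R)`: integrate over the position of the first (or last)
vertex of `l` given the others, which gives a factor at most `v` (translation invariance), and
use induction on `l`.  By scaling `v.toReal = (unit d n p)^d * vK d K = vK d K/(n p)`. -/
def PathProb : Prop :=
  ∀ (n d q : ℕ) (p K : ℝ) (D : Finset (Sym2 (Fin n))) (l : List (Fin n)), 1 ≤ n → 1 ≤ d →
    1 ≤ q → 0 < p → p ≤ 1 → 0 < K → l.Nodup → l ≠ [] → (∀ e ∈ links l, e ∈ D) →
    ∑ g, geoLaw n d q p (K * unit d n p) g * (if ∀ e ∈ D, g e ≠ none then 1 else 0) ≤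
      p ^ #D * (vK d K / (n * p)) ^ (l.length - 1)

/-- **I8, first moment bounds.**

Proof (from `PathProb`, `GeoLawFacts`, `ListFacts`).
(a) `mdeg g i` is the number of `j ≠ i` with `g s(i, j) ≠ none` (loops are not edges of `geo`), each of
probability at most `p * vK/(n p) = vK/n` (`PathProb` with `l = [i, j]`); so the mean degree is at
most `vK`.
(b) Every `v ∈ mball g ρ 0` is the last vertex of a list of distinct vertices (a path) starting at
`0` of length `j + 1`, `j ≤ ρ`, all of whose links are edges.  There are at most `n ^ j` lists, each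
with probability at most `p^j (vK/(n p))^j = (vK/n)^j` (`D = (links l).toFinset`, `#D = j`).
(c) A vertex `v` counted by `nsc` begins a list of `L` distinct vertices, `3 ≤ L < g₀`, all of whose
`L` closed links are edges; at most `n^(L-1)` lists for each `v`, each of probability at most
`p^L (vK/(n p))^(L-1) = p (vK/n)^(L-1)`. -/
structure Moments : Prop where
  deg : ∀ (n d q : ℕ) (p K : ℝ), 1 ≤ n → 1 ≤ d → 1 ≤ q → 0 < p → p ≤ 1 → 0 < K →
    meanDeg (geoLaw n d q p (K * unit d n p)) ≤ vK d K
  ball : ∀ (n d q ρ : ℕ) (p K : ℝ), 1 ≤ d → 1 ≤ q → 0 < p → p ≤ 1 → 0 < K →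
    ∑ g, geoLaw (n + 1) d q p (K * unit d (n + 1) p) g * (#(mball g ρ 0) : ℝ) ≤
      ∑ j ∈ range (ρ + 1), vK d K ^ j
  cyc : ∀ (n d q g₀ : ℕ) (p K : ℝ), 1 ≤ n → 1 ≤ d → 1 ≤ q → 0 < p → p ≤ 1 → 0 < K →
    ∑ g, geoLaw n d q p (K * unit d n p) g * (nsc (gEdges g) g₀ : ℝ) ≤
      n * (p * ∑ j ∈ range g₀, vK d K ^ j)

/-- **I9, the local limit.**  Type frequencies converge, to a limit independent of `p`.

Proof (from `FreqZero`, `Exchangeable`, `Decomp`, `KapLimit`, `Moments`, `GeoLawFacts`).  Pass to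
`n + 1` (`tendsto_add_atTop_iff_nat`).  For every `k`, by `Decomp` and `KapLimit`,
`a_n(k) = P (type of 0 is τ, #(ball) = k + 1) = (n.choose k / n^k) ∑_P n^k kap → a(k)`, independent of
`p` (`n.choose k / n^k → 1/k!`).  By Markov and `Moments.ball`,
`0 ≤ P (type τ) - ∑_{k < k₀} a_n(k) ≤ P (#(ball) > k₀) ≤ C/k₀`, `C = ∑_{j ≤ r+1} vK^j`.  The partial
sums of `a` are nondecreasing and bounded by `1`, so `a` is summable; let `π = ∑ a`.  Then
`limsup |P (type τ) - π| ≤ C/k₀ + ∑_{k ≥ k₀} a(k)` for every `k₀`, hence the limit is `π`. -/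
def LocalLimit : Prop :=
  ∀ (d q Δ r : ℕ) (K : ℝ) (τ : Typ q Δ r), 1 ≤ d → 1 ≤ q → 0 < K →
    ∃ c : ℝ, ∀ p : ℕ → ℝ, (∀ n, 0 < p n ∧ p n ≤ 1) → Tendsto p atTop (nhds 0) →
      Tendsto (fun n : ℕ => (n : ℝ) * p n) atTop atTop →
      Tendsto (fun n : ℕ => typFreq Δ r (geoLaw n d q (p n) (K * unit d n (p n))) τ)
        atTop (nhds c)

/-- **J1, Efron–Stein inequality for bounded differences.**

Proof.  Transfer to `ι = Fin m` (`Fintype.equivFin`) and use induction on `m`.  `m = 0`: `f` is
constant.  Step: write `x = (t, y)`, `t ∈ Ω` the first coordinate (`MeasurableEquiv.piFinSuccAbove`),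
`F y = ∫ f (t, y) dμ(t)`.  `F` has differences bounded by `c 1, …, c m`, so by induction
`∫ (F - ∫ F)² ≤ ∑_{i ≥ 1} c i²`, and for fixed `y`, `|f (t, y) - F y| ≤ c 0`.  Since
`∫ (f (t, y) - F y) dμ(t) = 0`, `∫ (f - ∫ f)² = ∫ (f - F)² + ∫ (F - ∫ F)²`. -/
def EfronStein : Prop :=
  ∀ (ι Ω : Type) [Fintype ι] [DecidableEq ι] [MeasurableSpace Ω] (μ : Measure Ω)
    [IsProbabilityMeasure μ] (c : ι → ℝ) (f : (ι → Ω) → ℝ) (M : ℝ), Measurable f →
    (∀ x, |f x| ≤ M) → (∀ i x y, (∀ j, j ≠ i → x j = y j) → |f x - f y| ≤ c i) →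
    ∫ x, (f x - ∫ y, f y ∂(Measure.pi fun _ : ι => μ)) ^ 2 ∂(Measure.pi fun _ : ι => μ) ≤
      ∑ i, c i ^ 2

/-- **J2, concentration of the linear program.**

Proof (from `EfronStein`, `WLip`, `LPBasic`, `GeoLawFacts`, `PathProb`, `CoinEx`).  Let
`w (X, S) = W (geo q R X S) ∈ [0, n]`, `f S = ∫_X w (X, S)`.  For fixed `S`, changing one position
changes `w` by at most `2` (`WLip.vertex`), so `∫_X (w - f S)² ≤ 4 n`.  Changing one coin `e` changes
`w (X, S)` by at most `1` (`WLip.pair`), and not at all unless `e` is not diagonal and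
`len X e < R`; so `f` changes by at most `volume (ball 0 R) = vK/(n p)`.  By `EfronStein` for the
coins (`Ω = Bool`, `μ = coin p`, via `CoinEx`), `Ex p (f - Ex p f)² ≤ n² (vK/(n p))²`
(`#(Sym2 (Fin n)) ≤ n²`).  As `(a + b)² ≤ 2 a² + 2 b²`,
`E (w - E w)² ≤ 8 n + 2 (vK/p)²`.  By Chebyshev the probability in question is at most
`(8 n + 2 (vK/p)²)/(η n)² = (8/n + 2 (vK/(n p))²)/η² → 0`.  (`E w = n * meanW`.) -/
def Concentration : Prop :=
  ∀ (d q : ℕ) (K η : ℝ) (p : ℕ → ℝ), 1 ≤ d → 1 ≤ q → 0 < K → 0 < η →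
    (∀ n, 0 < p n ∧ p n ≤ 1) → Tendsto (fun n : ℕ => (n : ℝ) * p n) atTop atTop →
    Tendsto (fun n : ℕ => ((law n d (p n)) {ω | η * n ≤
      |W (geo q (K * unit d n (p n)) ω.1 (present ω)) -
        n * meanW (geoLaw n d q (p n) (K * unit d n (p n)))|}).toReal) atTop (nhds 0)

end MP329
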