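import Pool.Agent.Lib.MP_329b4d_pr.Basic
import Pool.Agent.Lib.MP_329b4d_pr.B1Lists
import Pool.Agent.Lib.MP_329b4d_pr.B2Tour
import Pool.Agent.Lib.MP_329b4d_pr.SpecI

/-!
# MP_329b4d_pr, I8: first moment bounds
-/

namespace MP329

open Finset MeasureTheory Filter

namespace I8

section Lists

variable {V : Type}

theorem links_append_one (l : List V) (h : l ≠ []) (v : V) :
    links (l ++ [v]) = links l ++ [s(l.getLast h, v)] := by
  have h1 : l = l.dropLast ++ [l.getLast h] := (List.dropLast_append_getLast h).symm
  have h2 : l ++ [v] = l.dropLast ++ l.getLast h :: v :: [] := by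
    conv_lhs => rw [h1]
    simp
  rw [h2, B1.links_cut, ← h1]
  rfl

theorem links_truncate (Q₁ Q₂ : List V) (v : V) :
    ∀ e ∈ links (Q₁ ++ [v]), e ∈ links (Q₁ ++ v :: Q₂) := by
  intro e he
  rcases Q₂ with _ | ⟨b, Q⟩
  · exact he
  · rw [B1.links_cut]
    exact List.mem_append_left _ he

/-- Last vertex of the list `a :: t`. -/
def lastv (a : V) (t : List V) : V := (a :: t).getLast (List.cons_ne_nil a t)

theorem ball_path {q : ℕ} [Fintype V] [DecidableEq V] (g : Sym2 V → Option (Fin q)) (a : V) :
    ∀ (ρ : ℕ) (v : V), v ∈ mball g ρ a → ∃ t : List V, (a :: t).Nodup ∧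
      lastv a t = v ∧ t.length ≤ ρ ∧ ∀ e ∈ links (a :: t), g e ≠ none
  | 0, v, hv => by
      have h : v = a := by simpa [mball] using hv
      exact ⟨[], by simp, by rw [h]; rfl, by simp, by simp [links]⟩
  | ρ + 1, v, hv => by
      have ih := ball_path g a ρ
      simp only [mball, Finset.mem_union, Finset.mem_filter, mem_univ, true_and] at hv
      rcases hv with hv | ⟨u, hu, huv⟩
      · obtain ⟨t, h1, h2, h3, h4⟩ := ih v hv
        exact ⟨t, h1, h2, by omega, h4⟩
      · obtain ⟨t, h1, h2, h3, h4⟩ := ih u hu
        by_cases hvt : v ∈ a :: t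
        · obtain ⟨Q₁, Q₂, hQ⟩ := List.append_of_mem hvt
          rcases Q₁ with _ | ⟨a', Q⟩
          · have h5 : a = v := by
              simp only [List.nil_append, List.cons.injEq] at hQ
              exact hQ.1
            exact ⟨[], by simp, by rw [← h5]; rfl, by simp, by simp [links]⟩
          · have h5 : a = a' ∧ t = Q ++ v :: Q₂ := by
              simpa only [List.cons_append, List.cons.injEq] using hQ
            obtain ⟨h5, h6⟩ := h5
            subst h5
            refine ⟨Q ++ [v], ?_, ?_, ?_, ?_⟩
            · rw [hQ] at h1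
              have h7 : (a :: (Q ++ [v])).Sublist (a :: Q ++ v :: Q₂) := by
                rw [List.cons_append]
                apply List.Sublist.cons_cons
                apply List.Sublist.append_left
                simp
              exact h1.sublist h7
            · unfold lastv
              simp
            · rw [h6] at h3
              simp only [List.length_append, List.length_cons, List.length_nil] at h3 ⊢
              omega
            · intro e he
              apply h4
              rw [hQ]
              exact links_truncate (a :: Q) Q₂ v e he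
        · refine ⟨t ++ [v], ?_, ?_, ?_, ?_⟩
          · rw [← List.cons_append, List.nodup_append]
            refine ⟨h1, by simp, ?_⟩
            intro b hb c hc
            rw [List.mem_singleton] at hc
            rintro rfl
            rw [hc] at hb
            exact hvt hb
          · unfold lastv
            simp
          · simp only [List.length_append, List.length_cons, List.length_nil]
            omega
          · intro e he
            rw [← List.cons_append, links_append_one (a :: t) (List.cons_ne_nil a t),
              List.mem_append] at he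
            rcases he with he | he
            · exact h4 e he
            · rw [List.mem_singleton] at he
              rw [he]
              have : (a :: t).getLast (List.cons_ne_nil a t) = u := h2
              rw [this]
              exact huv

open Classical in
theorem card_mball_le {q : ℕ} [Fintype V] [DecidableEq V] (g : Sym2 V → Option (Fin q)) (a : V)
    (ρ : ℕ) : #(mball g ρ a) ≤ ∑ j ∈ range (ρ + 1), #{t : Fin j → V |
      (a :: List.ofFn t).Nodup ∧ ∀ e ∈ (links (a :: List.ofFn t)).toFinset, g e ≠ none} := by
  have h1 : mball g ρ a ⊆ (range (ρ + 1)).biUnion (fun j => ({t : Fin j → V |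
      (a :: List.ofFn t).Nodup ∧ ∀ e ∈ (links (a :: List.ofFn t)).toFinset, g e ≠ none} :
        Finset (Fin j → V)).image (fun t => lastv a (List.ofFn t))) := by
    intro v hv
    obtain ⟨t, h1, h2, h3, h4⟩ := ball_path g a ρ v hv
    rw [Finset.mem_biUnion]
    refine ⟨t.length, Finset.mem_range.mpr (by omega), ?_⟩
    rw [Finset.mem_image]
    refine ⟨t.get, ?_, ?_⟩
    · rw [Finset.mem_filter, List.ofFn_get]
      refine ⟨mem_univ _, h1, ?_⟩
      intro e he
      exact h4 e (List.mem_toFinset.mp he)
    · rw [List.ofFn_get]
      exact h2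
  refine (Finset.card_le_card h1).trans ?_
  refine Finset.card_biUnion_le.trans ?_
  apply Finset.sum_le_sum
  intro j _
  exact Finset.card_image_le

open Classical in
theorem nsc_le {q : ℕ} [Fintype V] [DecidableEq V] (g : Sym2 V → Option (Fin q)) (g₀ : ℕ) :
    nsc (gEdges g) g₀ ≤ ∑ v, ∑ j ∈ range g₀, #{t : Fin j → V | 2 ≤ j ∧
      (v :: List.ofFn t).Nodup ∧
        ∀ e ∈ (links ((v :: List.ofFn t) ++ (v :: List.ofFn t).take 1)).toFinset, g e ≠ none} := by
  unfold nsc
  rw [Finset.card_filter]
  apply Finset.sum_le_sum
  intro v _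
  split_ifs with hv
  · obtain ⟨l, h1, h2, h3, h4, h5⟩ := hv
    rcases l with _ | ⟨v', t⟩
    · simp at h4
    · have h6 : v' = v := by simpa using h4
      subst h6
      have h7 : 1 ≤ #{s : Fin t.length → V | 2 ≤ t.length ∧ (v' :: List.ofFn s).Nodup ∧
        ∀ e ∈ (links ((v' :: List.ofFn s) ++ (v' :: List.ofFn s).take 1)).toFinset,
          g e ≠ none} := by
        rw [Nat.one_le_iff_ne_zero, Finset.card_ne_zero]
        refine ⟨t.get, ?_⟩
        rw [Finset.mem_filter, List.ofFn_get]
        refine ⟨mem_univ _, ?_, h1, ?_⟩
        · simp only [List.length_cons] at h2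
          omega
        · intro e he
          have := h5 e (List.mem_toFinset.mp he)
          unfold gEdges at this
          exact (Finset.mem_filter.mp this).2
      refine h7.trans ?_
      apply Finset.single_le_sum (f := fun j => #{t : Fin j → V | 2 ≤ j ∧
        (v' :: List.ofFn t).Nodup ∧
        ∀ e ∈ (links ((v' :: List.ofFn t) ++ (v' :: List.ofFn t).take 1)).toFinset, g e ≠ none})
      · intro j _
        exact Nat.zero_le _
      · rw [Finset.mem_range]
        simp only [List.length_cons] at h3
        omega
  · exact Nat.zero_le _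

theorem card_open [DecidableEq V] (l : List V) (hl : l.Nodup) :
    #(links l).toFinset = l.length - 1 := by
  rw [List.toFinset_card_of_nodup (B1.links_nodup l hl), B1.length_links]

theorem card_closed [DecidableEq V] {j : ℕ} (hj : 2 ≤ j) (v : V) (t : Fin j → V)
    (hl : (v :: List.ofFn t).Nodup) :
    #(links ((v :: List.ofFn t) ++ (v :: List.ofFn t).take 1)).toFinset = j + 1 := by
  have h1 : v :: List.ofFn t = List.ofFn (Fin.cons v t : Fin (j + 1) → V) := by
    rw [List.ofFn_cons]
  rw [h1, B2.links_ofFn (by omega)]
  rw [h1, List.nodup_ofFn] at hl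
  rw [List.toFinset_card_of_nodup, List.length_ofFn]
  rw [List.nodup_ofFn]
  exact B2.pair_inj (by omega) hl

end Lists

end I8

open Classical in
/-- **I8, first moment bounds.** -/
theorem moments (h1 : PathProb) (h2 : GeoLawFacts) : Moments := by
  have hv : ∀ d K, 0 ≤ vK d K := fun d K => ENNReal.toReal_nonneg
  refine ⟨?_, ?_, ?_⟩
  · -- mean degree
    intro n d q p K hn hd hq hp hp1 hK
    have hn0 : (0 : ℝ) < n := by exact_mod_cast hn
    unfold meanDeg
    rw [Fintype.card_fin, div_le_iff₀ hn0]
    have h3 : ∀ g : Sym2 (Fin n) → Option (Fin q), (∑ i, (mdeg g i : ℝ)) =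
        ∑ i, ∑ j, (if g s(i, j) ≠ none then (1 : ℝ) else 0) := by
      intro g
      apply Finset.sum_congr rfl
      intro i _
      unfold mdeg
      rw [Finset.card_filter]
      push_cast
      apply Finset.sum_congr rfl
      intro j _
      by_cases h : g s(i, j) = none <;> simp [h]
    have h4 : ∑ g, geoLaw n d q p (K * unit d n p) g * (∑ i, (mdeg g i : ℝ)) =
        ∑ i, ∑ j, ∑ g, geoLaw n d q p (K * unit d n p) g *
          (if g s(i, j) ≠ none then (1 : ℝ) else 0) := by
      have h5 : ∀ g : Sym2 (Fin n) → Option (Fin q),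
          geoLaw n d q p (K * unit d n p) g * (∑ i, (mdeg g i : ℝ)) =
          ∑ i, ∑ j, geoLaw n d q p (K * unit d n p) g *
            (if g s(i, j) ≠ none then (1 : ℝ) else 0) := by
        intro g
        rw [h3, Finset.mul_sum]
        apply Finset.sum_congr rfl
        intro i _
        rw [Finset.mul_sum]
      rw [Finset.sum_congr rfl (fun g _ => h5 g), Finset.sum_comm]
      apply Finset.sum_congr rfl
      intro i _
      rw [Finset.sum_comm]
    rw [h4]
    have h6 : ∀ i j : Fin n, ∑ g, geoLaw n d q p (K * unit d n p) g *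
        (if g s(i, j) ≠ none then (1 : ℝ) else 0) ≤ vK d K / n := by
      intro i j
      by_cases hij : i = j
      · -- loops have weight zero
        have h7 : ∀ g, geoLaw n d q p (K * unit d n p) g *
            (if g s(i, j) ≠ none then (1 : ℝ) else 0) = 0 := by
          intro g
          by_cases hg : g s(i, j) = none
          · simp [hg]
          · have h8 : {ω : Sample n d | geo q (K * unit d n p) ω.1 (present ω) = g} = ∅ := by
              rw [Set.eq_empty_iff_forall_notMem]
              intro ω hω
              apply hg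
              rw [Set.mem_ofPred_eq] at hω
              rw [← hω, hij]
              simp [geo]
            unfold geoLaw
            rw [h8]
            simp
        rw [Finset.sum_eq_zero (fun g _ => h7 g)]
        exact div_nonneg (hv d K) hn0.le
      · have h7 := h1 n d q p K {s(i, j)} [i, j] hn hd hq hp hp1 hK (by simp [hij]) (by simp)
          (by simp [links])
        have h8 : p ^ #({s(i, j)} : Finset (Sym2 (Fin n))) *
            (vK d K / (n * p)) ^ ([i, j].length - 1) = vK d K / n := by
          simp only [Finset.card_singleton, List.length_cons, List.length_nil, pow_one, zero_add,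
            Nat.reduceAdd, Nat.add_one_sub_one]
          field_simp
        rw [h8] at h7
        refine le_trans (le_of_eq ?_) h7
        apply Finset.sum_congr rfl
        intro g _
        congr 1
        by_cases hg : g s(i, j) = none <;> simp [hg]
    refine (Finset.sum_le_sum fun i _ => Finset.sum_le_sum fun j _ => h6 i j).trans ?_
    simp only [Finset.sum_const, Finset.card_univ, Fintype.card_fin, nsmul_eq_mul]
    apply le_of_eq
    field_simp
  · -- balls
    intro n d q ρ p K hd hq hp hp1 hK
    have hn0 : (0 : ℝ) < (n + 1 : ℕ) := by positivity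
    have h3 : ∑ g, geoLaw (n + 1) d q p (K * unit d (n + 1) p) g * (#(mball g ρ 0) : ℝ) ≤
        ∑ g, geoLaw (n + 1) d q p (K * unit d (n + 1) p) g * ∑ j ∈ range (ρ + 1),
          ∑ t : Fin j → Fin (n + 1), (if (0 :: List.ofFn t).Nodup ∧
            ∀ e ∈ (links (0 :: List.ofFn t)).toFinset, g e ≠ none then (1 : ℝ) else 0) := by
      apply Finset.sum_le_sum
      intro g _
      apply mul_le_mul_of_nonneg_left _ (h2.nonneg _ _ _ _ _ g)
      have h4 := I8.card_mball_le g 0 ρ
      have h5 : (#(mball g ρ 0) : ℝ) ≤ ((∑ j ∈ range (ρ + 1), #{t : Fin j → Fin (n + 1) |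
        (0 :: List.ofFn t).Nodup ∧ ∀ e ∈ (links (0 :: List.ofFn t)).toFinset, g e ≠ none} : ℕ) :
          ℝ) := by
        exact_mod_cast h4
      refine h5.trans (le_of_eq ?_)
      push_cast
      apply Finset.sum_congr rfl
      intro j _
      rw [Finset.card_filter]
      push_cast
      rfl
    refine h3.trans ?_
    have h4 : ∑ g, geoLaw (n + 1) d q p (K * unit d (n + 1) p) g * ∑ j ∈ range (ρ + 1),
          ∑ t : Fin j → Fin (n + 1), (if (0 :: List.ofFn t).Nodup ∧
            ∀ e ∈ (links (0 :: List.ofFn t)).toFinset, g e ≠ none then (1 : ℝ) else 0) =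
        ∑ j ∈ range (ρ + 1), ∑ t : Fin j → Fin (n + 1), ∑ g,
          geoLaw (n + 1) d q p (K * unit d (n + 1) p) g * (if (0 :: List.ofFn t).Nodup ∧
            ∀ e ∈ (links (0 :: List.ofFn t)).toFinset, g e ≠ none then (1 : ℝ) else 0) := by
      simp only [Finset.mul_sum]
      rw [Finset.sum_comm]
      apply Finset.sum_congr rfl
      intro j _
      rw [Finset.sum_comm]
    rw [h4]
    apply Finset.sum_le_sum
    intro j _
    have h5 : ∀ t : Fin j → Fin (n + 1), ∑ g,
        geoLaw (n + 1) d q p (K * unit d (n + 1) p) g * (if (0 :: List.ofFn t).Nodup ∧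
            ∀ e ∈ (links (0 :: List.ofFn t)).toFinset, g e ≠ none then (1 : ℝ) else 0) ≤
        (vK d K / (n + 1 : ℕ)) ^ j := by
      intro t
      by_cases ht : (0 :: List.ofFn t).Nodup
      · have h7 := h1 (n + 1) d q p K (links (0 :: List.ofFn t)).toFinset (0 :: List.ofFn t)
          (by omega) hd hq hp hp1 hK ht (by simp) (by intro e he; exact List.mem_toFinset.mpr he)
        rw [I8.card_open _ ht] at h7
        simp only [List.length_cons, List.length_ofFn, Nat.add_sub_cancel] at h7
        have h8 : p ^ j * (vK d K / ((n + 1 : ℕ) * p)) ^ j = (vK d K / (n + 1 : ℕ)) ^ j := by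
          rw [← mul_pow]
          congr 1
          field_simp
        rw [h8] at h7
        refine le_trans (le_of_eq ?_) h7
        apply Finset.sum_congr rfl
        intro g _
        congr 1
        by_cases hg : ∀ e ∈ (links (0 :: List.ofFn t)).toFinset, g e ≠ none
        · rw [if_pos ⟨ht, hg⟩, if_pos hg]
        · rw [if_neg (fun h => hg h.2), if_neg hg]
      · rw [Finset.sum_eq_zero]
        · exact pow_nonneg (div_nonneg (hv d K) hn0.le) _
        · intro g _
          rw [if_neg (fun h => ht h.1), mul_zero]
    refine (Finset.sum_le_sum fun t _ => h5 t).trans (le_of_eq ?_)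
    rw [Finset.sum_const, Finset.card_univ, Fintype.card_fun, Fintype.card_fin, Fintype.card_fin,
      nsmul_eq_mul]
    push_cast
    rw [← mul_pow]
    congr 1
    push_cast at hn0
    field_simp
  · -- cycles
    intro n d q g₀ p K hn hd hq hp hp1 hK
    have hn0 : (0 : ℝ) < n := by exact_mod_cast hn
    have h3 : ∑ g, geoLaw n d q p (K * unit d n p) g * (nsc (gEdges g) g₀ : ℝ) ≤
        ∑ g, geoLaw n d q p (K * unit d n p) g * ∑ v, ∑ j ∈ range g₀,
          ∑ t : Fin j → Fin n, (if 2 ≤ j ∧ (v :: List.ofFn t).Nodup ∧
            ∀ e ∈ (links ((v :: List.ofFn t) ++ (v :: List.ofFn t).take 1)).toFinset, g e ≠ none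
              then (1 : ℝ) else 0) := by
      apply Finset.sum_le_sum
      intro g _
      apply mul_le_mul_of_nonneg_left _ (h2.nonneg _ _ _ _ _ g)
      have h4 := I8.nsc_le g g₀
      have h5 : (nsc (gEdges g) g₀ : ℝ) ≤ ((∑ v, ∑ j ∈ range g₀, #{t : Fin j → Fin n | 2 ≤ j ∧
        (v :: List.ofFn t).Nodup ∧
        ∀ e ∈ (links ((v :: List.ofFn t) ++ (v :: List.ofFn t).take 1)).toFinset,
          g e ≠ none} : ℕ) : ℝ) := by
        exact_mod_cast h4
      refine h5.trans (le_of_eq ?_)
      push_cast
      apply Finset.sum_congr rfl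
      intro v _
      apply Finset.sum_congr rfl
      intro j _
      rw [Finset.card_filter]
      push_cast
      rfl
    refine h3.trans ?_
    have h4 : ∑ g, geoLaw n d q p (K * unit d n p) g * ∑ v, ∑ j ∈ range g₀,
          ∑ t : Fin j → Fin n, (if 2 ≤ j ∧ (v :: List.ofFn t).Nodup ∧
            ∀ e ∈ (links ((v :: List.ofFn t) ++ (v :: List.ofFn t).take 1)).toFinset, g e ≠ none
              then (1 : ℝ) else 0) =
        ∑ v, ∑ j ∈ range g₀, ∑ t : Fin j → Fin n, ∑ g,
          geoLaw n d q p (K * unit d n p) g * (if 2 ≤ j ∧ (v :: List.ofFn t).Nodup ∧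
            ∀ e ∈ (links ((v :: List.ofFn t) ++ (v :: List.ofFn t).take 1)).toFinset, g e ≠ none
              then (1 : ℝ) else 0) := by
      simp only [Finset.mul_sum]
      rw [Finset.sum_comm]
      apply Finset.sum_congr rfl
      intro v _
      rw [Finset.sum_comm]
      apply Finset.sum_congr rfl
      intro j _
      rw [Finset.sum_comm]
    rw [h4]
    have h5 : ∀ (v : Fin n) (j : ℕ) (t : Fin j → Fin n), ∑ g,
        geoLaw n d q p (K * unit d n p) g * (if 2 ≤ j ∧ (v :: List.ofFn t).Nodup ∧
            ∀ e ∈ (links ((v :: List.ofFn t) ++ (v :: List.ofFn t).take 1)).toFinset, g e ≠ none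
              then (1 : ℝ) else 0) ≤
        p * (vK d K / n) ^ j := by
      intro v j t
      by_cases ht : 2 ≤ j ∧ (v :: List.ofFn t).Nodup
      · obtain ⟨hj, ht⟩ := ht
        have h7 := h1 n d q p K
          (links ((v :: List.ofFn t) ++ (v :: List.ofFn t).take 1)).toFinset (v :: List.ofFn t)
          hn hd hq hp hp1 hK ht (by simp) (by
            intro e he
            rw [List.mem_toFinset]
            have h9 : (v :: List.ofFn t).take 1 = [v] := by simp
            rw [h9, I8.links_append_one _ (List.cons_ne_nil _ _)]
            exact List.mem_append_left _ he)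
        rw [I8.card_closed hj v t ht] at h7
        simp only [List.length_cons, List.length_ofFn, Nat.add_sub_cancel] at h7
        have h8 : p ^ (j + 1) * (vK d K / (n * p)) ^ j = p * (vK d K / n) ^ j := by
          rw [pow_succ, mul_comm (p ^ j) p, mul_assoc, ← mul_pow]
          congr 2
          field_simp
        rw [h8] at h7
        refine le_trans (le_of_eq ?_) h7
        apply Finset.sum_congr rfl
        intro g _
        congr 1
        by_cases hg : ∀ e ∈ (links ((v :: List.ofFn t) ++ (v :: List.ofFn t).take 1)).toFinset,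
            g e ≠ none
        · rw [if_pos ⟨hj, ht, hg⟩, if_pos hg]
        · rw [if_neg (fun h => hg h.2.2), if_neg hg]
      · rw [Finset.sum_eq_zero]
        · exact mul_nonneg hp.le (pow_nonneg (div_nonneg (hv d K) hn0.le) _)
        · intro g _
          rw [if_neg (fun h => ht ⟨h.1, h.2.1⟩), mul_zero]
    refine (Finset.sum_le_sum fun v _ => Finset.sum_le_sum fun j _ =>
      Finset.sum_le_sum fun t _ => h5 v j t).trans (le_of_eq ?_)
    simp only [Finset.sum_const, Finset.card_univ, Fintype.card_fun, Fintype.card_fin,
      nsmul_eq_mul]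
    congr 1
    rw [Finset.mul_sum]
    apply Finset.sum_congr rfl
    intro j _
    push_cast
    rw [← mul_assoc, mul_comm ((n : ℝ) ^ j) p, mul_assoc, ← mul_pow]
    congr 2
    field_simp

end MP329
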