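import Pool.Agent.Lib.MP_329b4d_pr.SpecI

/-!
# MP_329b4d_pr: I9, the local limit
-/

namespace MP329

open Finset Filter

namespace I9

/-- Interchange of limits. -/
theorem lim_tail (a : ℕ → ℕ → ℝ) (P : ℕ → ℝ) (α : ℕ → ℝ) (C : ℝ)
    (ha : ∀ k, Tendsto (fun n => a n k) atTop (nhds (α k))) (ha0 : ∀ n k, 0 ≤ a n k)
    (hlow : ∀ n k₀, ∑ k ∈ range k₀, a n k ≤ P n)
    (hup : ∀ n k₀, 1 ≤ k₀ → P n ≤ ∑ k ∈ range k₀, a n k + C / k₀) (hP : ∀ n, P n ≤ 1) :
    Tendsto P atTop (nhds (∑' k, α k)) := by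
  have hα0 : ∀ k, 0 ≤ α k := fun k => ge_of_tendsto' (ha k) fun n => ha0 n k
  have hsum : ∀ k₀, Tendsto (fun n => ∑ k ∈ range k₀, a n k) atTop
      (nhds (∑ k ∈ range k₀, α k)) := fun k₀ => tendsto_finsetSum _ fun k _ => ha k
  have hα1 : ∀ k₀, ∑ k ∈ range k₀, α k ≤ 1 := fun k₀ =>
    le_of_tendsto' (hsum k₀) fun n => (hlow n k₀).trans (hP n)
  have hS : Summable α := summable_of_sum_range_le hα0 hα1
  have hT := hS.hasSum.tendsto_sum_nat
  rw [Metric.tendsto_atTop]
  intro ε hε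
  have hC : Tendsto (fun k₀ : ℕ => C / (k₀ : ℝ)) atTop (nhds 0) :=
    tendsto_const_div_atTop_nhds_zero_nat C
  have e1 := (Metric.tendsto_atTop.mp hT) (ε / 3) (by positivity)
  have e2 := (Metric.tendsto_atTop.mp hC) (ε / 3) (by positivity)
  obtain ⟨N1, h1⟩ := e1
  obtain ⟨N2, h2⟩ := e2
  set k₀ := max (max N1 N2) 1 with hk₀
  have g1 := h1 k₀ (by omega)
  have g2 := h2 k₀ (by omega)
  obtain ⟨N, hN⟩ := (Metric.tendsto_atTop.mp (hsum k₀)) (ε / 3) (by positivity)
  refine ⟨N, fun n hn => ?_⟩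
  have g3 := hN n hn
  have g4 := hlow n k₀
  have g5 := hup n k₀ (by omega)
  rw [Real.dist_eq] at g1 g2 g3 ⊢
  rw [abs_lt] at g1 g2 g3 ⊢
  constructor <;> linarith [g1.1, g1.2, g2.1, g2.2, g3.1, g3.2]

theorem choose_div (k : ℕ) :
    Tendsto (fun n : ℕ => (n.choose k : ℝ) * (1 / (n : ℝ)) ^ k) atTop
      (nhds (1 / (k.factorial : ℝ))) := by
  have h : Tendsto (fun n : ℕ => (n : ℝ) * (1 / (n : ℝ))) atTop (nhds 1) := by
    apply tendsto_const_nhds.congr'
    filter_upwards [eventually_gt_atTop 0] with n hn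
    have : (n : ℝ) ≠ 0 := by positivity
    field_simp
  simpa using ProbabilityTheory.tendsto_choose_mul_pow_atTop k h

theorem card_mball_pos {V : Type*} [Fintype V] [DecidableEq V] {q : ℕ}
    (g : Sym2 V → Option (Fin q)) (ρ : ℕ) (v : V) : v ∈ mball g ρ v := by
  induction ρ with
  | zero => simp [mball]
  | succ ρ ih => exact mem_union_left _ ih

end I9

open I9 in
open Classical in
theorem localLimit (h1 : FreqZero) (h2 : Exchangeable) (h3 : Decomp) (h4 : KapLimit)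
    (h5 : Moments) (h6 : GeoLawFacts) : LocalLimit := by
  intro d q Δ r K τ hd hq hK
  -- the limits of the pattern probabilities
  have hc : ∀ (k : ℕ) (P : Sym2 (Fin (k + 1)) → Option (Fin q)), ∃ c : ℝ,
      mball P (r + 1) 0 = univ → ∀ p : ℕ → ℝ, (∀ n, 0 < p n ∧ p n ≤ 1) →
      Tendsto p atTop (nhds 0) → Tendsto (fun n : ℕ => (n : ℝ) * p n) atTop atTop →
      Tendsto (fun n : ℕ => if hk : k + 1 ≤ n + 1 then
        (n : ℝ) ^ k * kap (geoLaw (n + 1) d q (p (n + 1)) (K * unit d (n + 1) (p (n + 1)))) k hk P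
          (mball P r 0) else 0) atTop (nhds c) := by
    intro k P
    by_cases hP : mball P (r + 1) 0 = univ
    · obtain ⟨c, hc⟩ := h4 d q k (r + 1) K P (mball P r 0) hd hq hK hP
      exact ⟨c, fun _ => hc⟩
    · exact ⟨0, fun h => absurd h hP⟩
  choose c hc using hc
  refine ⟨∑' k : ℕ, (1 / (k.factorial : ℝ)) * ∑ P : Sym2 (Fin (k + 1)) → Option (Fin q),
    if mball P (r + 1) 0 = univ ∧ typ Δ (prune Δ P) r 0 = τ then c k P else 0, ?_⟩
  intro p hp hp0 hp1
  rw [← tendsto_add_atTop_iff_nat 1]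
  -- the weights
  set μ : (n : ℕ) → (Sym2 (Fin (n + 1)) → Option (Fin q)) → ℝ := fun n =>
    geoLaw (n + 1) d q (p (n + 1)) (K * unit d (n + 1) (p (n + 1))) with hμ
  have hμ0 : ∀ n g, 0 ≤ μ n g := fun n g => h6.nonneg _ _ _ _ _ g
  have hμ1 : ∀ n, ∑ g, μ n g = 1 := fun n =>
    h6.sum_one _ _ _ _ _ (hp (n + 1)).1.le (hp (n + 1)).2
  have hex : ∀ (n : ℕ) (σ : Equiv.Perm (Fin (n + 1))) (g), μ n (fun e => g (e.map σ)) = μ n g :=
    fun n σ g => h2 _ _ _ _ _ (hp (n + 1)).1.le (hp (n + 1)).2 σ g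
  have hfreq : ∀ n, typFreq Δ r (μ n) τ =
      ∑ g, μ n g * (if typ Δ (prune Δ g) r 0 = τ then 1 else 0) := fun n =>
    h1 n q Δ r (μ n) τ (hex n)
  set C : ℝ := ∑ j ∈ range (r + 1 + 1), vK d K ^ j with hC
  have hball : ∀ n, ∑ g, μ n g * (#(mball g (r + 1) 0) : ℝ) ≤ C := fun n =>
    h5.ball n d q (r + 1) (p (n + 1)) K hd hq (hp (n + 1)).1 (hp (n + 1)).2 hK
  -- the decomposition
  set a : ℕ → ℕ → ℝ := fun n k => ∑ g, μ n g *
    (if typ Δ (prune Δ g) r 0 = τ ∧ #(mball g (r + 1) 0) = k + 1 then 1 else 0) with ha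
  have hsuma : ∀ n k₀, ∑ k ∈ range k₀, a n k = ∑ g, μ n g *
      (if typ Δ (prune Δ g) r 0 = τ ∧ #(mball g (r + 1) 0) ≤ k₀ then 1 else 0) := by
    intro n k₀
    simp only [ha]
    rw [Finset.sum_comm]
    refine Finset.sum_congr rfl fun g _ => ?_
    rw [← Finset.mul_sum]
    congr 1
    have hpos : 0 < #(mball g (r + 1) 0) := Finset.card_pos.mpr ⟨0, card_mball_pos g (r + 1) 0⟩
    obtain ⟨m, hm⟩ : ∃ m, #(mball g (r + 1) 0) = m + 1 := ⟨_, (Nat.succ_pred_eq_of_pos hpos).symm⟩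
    rw [hm]
    by_cases ht : typ Δ (prune Δ g) r 0 = τ
    · simp only [ht, true_and, Nat.add_right_cancel_iff, Finset.sum_ite_eq, Finset.mem_range]
      rfl
    · simp [ht]
  refine lim_tail a (fun n => typFreq Δ r (μ n) τ) _ C ?_ ?_ ?_ ?_ ?_
  · intro k
    have hb : Tendsto (fun n : ℕ => ((n.choose k : ℝ) * (1 / (n : ℝ)) ^ k) *
        ∑ P : Sym2 (Fin (k + 1)) → Option (Fin q),
          if mball P (r + 1) 0 = univ ∧ typ Δ (prune Δ P) r 0 = τ then
            (if hk : k + 1 ≤ n + 1 then (n : ℝ) ^ k * kap (μ n) k hk P (mball P r 0) else 0)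
          else 0) atTop (nhds ((1 / (k.factorial : ℝ)) *
        ∑ P : Sym2 (Fin (k + 1)) → Option (Fin q),
        if mball P (r + 1) 0 = univ ∧ typ Δ (prune Δ P) r 0 = τ then c k P else 0)) := by
      refine (choose_div k).mul (tendsto_finsetSum _ fun P _ => ?_)
      by_cases hP : mball P (r + 1) 0 = univ ∧ typ Δ (prune Δ P) r 0 = τ
      · simp only [hP, and_self, if_true]
        exact hc k P hP.1 p hp hp0 hp1
      · simp only [hP, if_false]
        exact tendsto_const_nhds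
    refine hb.congr' ?_
    filter_upwards [eventually_ge_atTop (k + 1)] with n hn
    have hk : k + 1 ≤ n + 1 := by omega
    have hd3 := h3 n q Δ r k hk (μ n) τ (hex n)
    simp only [ha]
    rw [hd3, mul_assoc]
    congr 1
    rw [Finset.mul_sum]
    refine Finset.sum_congr rfl fun P _ => ?_
    have hn0 : (n : ℝ) ≠ 0 := by
      have : n ≠ 0 := by omega
      exact_mod_cast this
    split_ifs
    · rw [← mul_assoc, ← mul_pow, one_div_mul_cancel hn0, one_pow, one_mul]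
    · rw [mul_zero]
  · intro n k
    refine Finset.sum_nonneg fun g _ => mul_nonneg (hμ0 n g) ?_
    split_ifs <;> norm_num
  · intro n k₀
    rw [hsuma, hfreq]
    refine Finset.sum_le_sum fun g _ => mul_le_mul_of_nonneg_left ?_ (hμ0 n g)
    by_cases ht : typ Δ (prune Δ g) r 0 = τ
    · simp only [ht, true_and, if_true]
      split_ifs <;> norm_num
    · simp [ht]
  · intro n k₀ hk₀
    have hk₀' : (0 : ℝ) < k₀ := by exact_mod_cast hk₀
    rw [hsuma, hfreq]
    have h7 : C / k₀ ≥ ∑ g, μ n g * ((#(mball g (r + 1) 0) : ℝ) / k₀) := by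
      have : ∑ g, μ n g * ((#(mball g (r + 1) 0) : ℝ) / k₀) =
          (∑ g, μ n g * (#(mball g (r + 1) 0) : ℝ)) / k₀ := by
        rw [Finset.sum_div]
        exact Finset.sum_congr rfl fun g _ => by ring
      rw [this]
      exact div_le_div_of_nonneg_right (hball n) hk₀'.le
    refine le_trans ?_ (add_le_add_right h7 _)
    rw [← Finset.sum_add_distrib]
    refine Finset.sum_le_sum fun g _ => ?_
    rw [← mul_add]
    refine mul_le_mul_of_nonneg_left ?_ (hμ0 n g)
    have h8 : 0 ≤ (#(mball g (r + 1) 0) : ℝ) / k₀ := by positivity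
    by_cases ht : typ Δ (prune Δ g) r 0 = τ
    · simp only [ht, true_and, if_true]
      by_cases hle : #(mball g (r + 1) 0) ≤ k₀
      · simp only [hle, if_true]
        linarith
      · simp only [hle, if_false]
        rw [zero_add, le_div_iff₀ hk₀', one_mul]
        push Not at hle
        exact_mod_cast hle.le
    · simp only [ht, false_and, if_false]
      linarith
  · intro n
    rw [hfreq]
    refine le_trans (Finset.sum_le_sum fun g _ => ?_) (hμ1 n).le
    have := hμ0 n g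
    split_ifs <;> linarith

end MP329
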