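import Pool.Agent.Lib.MP_329b4d_pr.SpecI

/-!
# MP_329b4d_pr, J1: the Efron–Stein inequality for bounded differences
-/

namespace MP329

open Finset MeasureTheory

theorem integrable_of_bdd {X : Type*} [MeasurableSpace X] (P : Measure X) [IsFiniteMeasure P]
    {f : X → ℝ} {M : ℝ} (hf : Measurable f) (hM : ∀ x, |f x| ≤ M) : Integrable f P :=
  Integrable.of_bound hf.aestronglyMeasurable M
    (Filter.Eventually.of_forall fun x => by rw [Real.norm_eq_abs]; exact hM x)

/-- The inequality for `Fin m`. -/
theorem efronFin {Ω : Type*} [MeasurableSpace Ω] (μ : Measure Ω) [IsProbabilityMeasure μ] :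
    ∀ (m : ℕ) (c : Fin m → ℝ) (f : (Fin m → Ω) → ℝ) (M : ℝ), Measurable f →
      (∀ x, |f x| ≤ M) → (∀ i x y, (∀ j, j ≠ i → x j = y j) → |f x - f y| ≤ c i) →
      ∫ x, (f x - ∫ y, f y ∂(Measure.pi fun _ : Fin m => μ)) ^ 2
        ∂(Measure.pi fun _ : Fin m => μ) ≤ ∑ i, c i ^ 2 := by
  intro m
  induction m with
  | zero =>
    intro c f M hf hM hc
    have hconst : ∀ x : Fin 0 → Ω, f x = f default := fun x => by
      congr 1; exact Subsingleton.elim _ _
    have h1 : ∫ y, f y ∂(Measure.pi fun _ : Fin 0 => μ) = f default := by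
      rw [integral_congr_ae (Filter.Eventually.of_forall fun x => hconst x)]
      simp
    rw [h1]
    have h2 : ∫ x, (f x - f default) ^ 2 ∂(Measure.pi fun _ : Fin 0 => μ) = 0 := by
      rw [integral_congr_ae (g := fun _ => (0 : ℝ))
        (Filter.Eventually.of_forall fun x => by simp only [hconst x]; ring)]
      simp
    rw [h2]
    exact Finset.sum_nonneg fun i _ => sq_nonneg _
  | succ m ih =>
    intro c f M hf hM hc
    set P := (Measure.pi fun _ : Fin m => μ) with hP
    set e := MeasurableEquiv.piFinSuccAbove (fun _ : Fin (m + 1) => Ω) 0 with he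
    have hmp : MeasurePreserving e (Measure.pi fun _ : Fin (m + 1) => μ) (μ.prod P) :=
      measurePreserving_piFinSuccAbove (fun _ : Fin (m + 1) => μ) 0
    have hs0 : ∀ t y, e.symm (t, y) 0 = t := fun t y => by
      simp [he, MeasurableEquiv.piFinSuccAbove, Fin.insertNthEquiv]
    have hsS : ∀ t y (k : Fin m), e.symm (t, y) k.succ = y k := fun t y k => by
      simp [he, MeasurableEquiv.piFinSuccAbove, Fin.insertNthEquiv]
    set h : Ω × (Fin m → Ω) → ℝ := fun z => f (e.symm z) with hh
    have hhm : Measurable h := hf.comp e.symm.measurable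
    have hhM : ∀ z, |h z| ≤ M := fun z => hM _
    have hhf : ∀ x, f x = h (e x) := fun x => by simp [hh]
    have hint : ∀ g : ℝ → ℝ, ∫ x, g (f x) ∂(Measure.pi fun _ : Fin (m + 1) => μ) =
        ∫ z, g (h z) ∂(μ.prod P) := by
      intro g
      have := hmp.integral_comp e.measurableEmbedding (fun z => g (h z))
      rw [← this]
      apply integral_congr_ae
      exact Filter.Eventually.of_forall fun x => by simp only [hhf x]
    set a := ∫ z, h z ∂(μ.prod P) with ha
    have hEa : ∫ y, f y ∂(Measure.pi fun _ : Fin (m + 1) => μ) = a := hint id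
    rw [hEa]
    rw [hint (fun t => (t - a) ^ 2)]
    -- integrability
    have hIh : Integrable h (μ.prod P) := integrable_of_bdd _ hhm hhM
    have hIsq : Integrable (fun z => (h z - a) ^ 2) (μ.prod P) := by
      apply integrable_of_bdd _ ((hhm.sub_const a).pow_const 2) (M := (M + |a|) ^ 2)
      intro z
      rw [abs_pow]
      have h1 : |h z - a| ≤ M + |a| := le_trans (abs_sub _ _) (by linarith [hhM z])
      exact pow_le_pow_left₀ (abs_nonneg _) h1 2
    set F : (Fin m → Ω) → ℝ := fun y => ∫ t, h (t, y) ∂μ with hF
    have hFm : Measurable F := by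
      have := (hhm.stronglyMeasurable).integral_prod_left' (μ := μ)
      exact this.measurable
    have hty : ∀ y, Measurable fun t => h (t, y) := fun y =>
      hhm.comp (measurable_id.prodMk measurable_const)
    have hIy : ∀ y, Integrable (fun t => h (t, y)) μ := fun y =>
      integrable_of_bdd _ (hty y) (fun t => hhM _)
    have hFM : ∀ y, |F y| ≤ M := by
      intro y
      have := norm_integral_le_of_norm_le_const (μ := μ) (f := fun t => h (t, y)) (C := M)
        (Filter.Eventually.of_forall fun t => by rw [Real.norm_eq_abs]; exact hhM _)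
      simpa using this
    have hFa : ∫ y, F y ∂P = a := by
      rw [ha, integral_prod_symm h hIh]
    -- bounded differences for F
    have hFc : ∀ i x y, (∀ j, j ≠ i → x j = y j) → |F x - F y| ≤ c i.succ := by
      intro i x y hxy
      rw [hF]
      simp only
      rw [← integral_sub (hIy x) (hIy y)]
      have := norm_integral_le_of_norm_le_const (μ := μ) (f := fun t => h (t, x) - h (t, y))
        (C := c i.succ)
        (Filter.Eventually.of_forall fun t => by
          rw [Real.norm_eq_abs]
          apply hc i.succ
          intro j hj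
          revert hj
          refine Fin.cases (fun _ => ?_) (fun k hk => ?_) j
          · rw [hs0, hs0]
          · rw [hsS, hsS]
            exact hxy k fun hki => hk (by rw [hki]))
      simpa using this
    have hh0 : ∀ y t s, |h (t, y) - h (s, y)| ≤ c 0 := by
      intro y t s
      apply hc 0
      intro j hj
      revert hj
      refine Fin.cases (fun h0 => absurd rfl h0) (fun k hk => ?_) j
      rw [hsS, hsS]
    have hF0 : ∀ y t, |h (t, y) - F y| ≤ c 0 := by
      intro y t
      have h1 : h (t, y) - F y = ∫ s, (h (t, y) - h (s, y)) ∂μ := by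
        rw [integral_sub (integrable_const _) (hIy y)]
        simp [hF]
      rw [h1]
      have := norm_integral_le_of_norm_le_const (μ := μ) (f := fun s => h (t, y) - h (s, y))
        (C := c 0) (Filter.Eventually.of_forall fun s => by
          rw [Real.norm_eq_abs]; exact hh0 y t s)
      simpa using this
    -- inner integral
    have hinner : ∀ y, ∫ t, (h (t, y) - a) ^ 2 ∂μ ≤ c 0 ^ 2 + (F y - a) ^ 2 := by
      intro y
      have h1 : ∀ t, (h (t, y) - a) ^ 2 =
          (h (t, y) - F y) ^ 2 + (2 * (F y - a) * (h (t, y) - F y) + (F y - a) ^ 2) := by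
        intro t; ring
      have hI1 : Integrable (fun t => (h (t, y) - F y) ^ 2) μ := by
        apply integrable_of_bdd _ (((hty y).sub_const (F y)).pow_const 2) (M := c 0 ^ 2)
        intro t
        rw [abs_pow]
        exact pow_le_pow_left₀ (abs_nonneg _) (hF0 y t) 2
      have hI2 : Integrable (fun t => 2 * (F y - a) * (h (t, y) - F y)) μ :=
        ((hIy y).sub (integrable_const _)).const_mul _
      have h2 : ∫ t, (h (t, y) - F y) ∂μ = 0 := by
        rw [integral_sub (hIy y) (integrable_const _)]
        simp [hF]
      calc ∫ t, (h (t, y) - a) ^ 2 ∂μ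
          = ∫ t, ((h (t, y) - F y) ^ 2 +
              (2 * (F y - a) * (h (t, y) - F y) + (F y - a) ^ 2)) ∂μ := by
            apply integral_congr_ae
            exact Filter.Eventually.of_forall h1
        _ = ∫ t, (h (t, y) - F y) ^ 2 ∂μ + (F y - a) ^ 2 := by
            have hI3 : Integrable (fun t => 2 * (F y - a) * (h (t, y) - F y) + (F y - a) ^ 2) μ :=
              hI2.add (integrable_const _)
            rw [integral_add hI1 hI3, integral_add hI2 (integrable_const _),
              integral_const_mul, h2]
            simp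
        _ ≤ c 0 ^ 2 + (F y - a) ^ 2 := by
            gcongr
            have h3 : ∫ t, (h (t, y) - F y) ^ 2 ∂μ ≤ ∫ _t, c 0 ^ 2 ∂μ := by
              apply integral_mono hI1 (integrable_const _)
              intro t
              simp only
              rw [← sq_abs]
              exact pow_le_pow_left₀ (abs_nonneg _) (hF0 y t) 2
            simpa using h3
    have hIH := ih (fun i => c i.succ) F M hFm hFM hFc
    rw [hFa] at hIH
    rw [integral_prod_symm _ hIsq]
    have hIout : Integrable (fun y => ∫ t, (h (t, y) - a) ^ 2 ∂μ) P :=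
      hIsq.integral_prod_right
    have hIF : Integrable (fun y => (F y - a) ^ 2) P := by
      apply integrable_of_bdd _ ((hFm.sub_const a).pow_const 2) (M := (M + |a|) ^ 2)
      intro z
      rw [abs_pow]
      have h1 : |F z - a| ≤ M + |a| := le_trans (abs_sub _ _) (by linarith [hFM z])
      exact pow_le_pow_left₀ (abs_nonneg _) h1 2
    calc ∫ y, ∫ t, (h (t, y) - a) ^ 2 ∂μ ∂P
        ≤ ∫ y, (c 0 ^ 2 + (F y - a) ^ 2) ∂P :=
          integral_mono hIout ((integrable_const _).add hIF) hinner
      _ = c 0 ^ 2 + ∫ y, (F y - a) ^ 2 ∂P := by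
          rw [integral_add (integrable_const _) hIF]
          simp
      _ ≤ c 0 ^ 2 + ∑ i : Fin m, c i.succ ^ 2 := by gcongr
      _ = ∑ i, c i ^ 2 := by rw [Fin.sum_univ_succ]

theorem efronStein : EfronStein := by
  intro ι Ω _ _ _ μ _ c f M hf hM hc
  set e := Fintype.equivFin ι with he
  set E := MeasurableEquiv.piCongrLeft (fun _ : ι => Ω) e.symm with hE
  have hmp : MeasurePreserving E (Measure.pi fun _ : Fin (Fintype.card ι) => μ)
      (Measure.pi fun _ : ι => μ) :=
    measurePreserving_piCongrLeft (fun _ : ι => μ) e.symm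
  have hEa : ∀ x i, E x i = x (e i) := by
    intro x i
    have := MeasurableEquiv.piCongrLeft_apply_apply (β := fun _ : ι => Ω) (e := e.symm) x (e i)
    simpa using this
  have key := efronFin μ (Fintype.card ι) (fun i => c (e.symm i)) (fun x => f (E x)) M
    (hf.comp E.measurable) (fun x => hM _) (by
      intro i x y hxy
      apply hc (e.symm i)
      intro j hj
      rw [hEa, hEa]
      exact hxy _ fun h => hj (by rw [← h]; simp))
  have h1 : ∫ y, f (E y) ∂(Measure.pi fun _ : Fin (Fintype.card ι) => μ) =
      ∫ y, f y ∂(Measure.pi fun _ : ι => μ) :=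
    hmp.integral_comp E.measurableEmbedding f
  rw [h1] at key
  have h2 := hmp.integral_comp E.measurableEmbedding
    (fun x => (f x - ∫ y, f y ∂(Measure.pi fun _ : ι => μ)) ^ 2)
  rw [h2] at key
  refine key.trans (le_of_eq ?_)
  exact Equiv.sum_comp e.symm (fun i => c i ^ 2)

end MP329
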