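import Pool.Agent.Lib.MP_329b4d_pr.SpecK

/-!
# MP_329b4d_pr: K0, measurability and monotonicity of the tour length
-/

namespace MP329

open Finset MeasureTheory Filter

namespace K0

lemma meas_joined {n d : ℕ} (i j : Fin n) :
    MeasurableSet {ω : Sample n d | joined ω i j} := by
  unfold joined
  by_cases hij : i = j
  · have : {ω : Sample n d | i ≠ j ∧ ω.2 s(i, j) = true} = ∅ := by
      ext ω
      simp [hij]
    rw [this]
    exact MeasurableSet.empty
  · have : {ω : Sample n d | i ≠ j ∧ ω.2 s(i, j) = true} =
        (fun ω : Sample n d => ω.2 s(i, j)) ⁻¹' {true} := by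
      ext ω
      simp [hij]
    rw [this]
    exact ((measurable_pi_apply _).comp measurable_snd) (measurableSet_singleton _)

lemma meas_sum {n d : ℕ} (σ : Equiv.Perm (Fin n)) :
    Measurable (fun ω : Sample n d =>
      ∑ i, ENNReal.ofReal (dist (ω.1 (σ i)) (ω.1 (σ (finRotate n i))))) := by
  refine Finset.measurable_sum _ fun i _ => ?_
  refine ENNReal.measurable_ofReal.comp ?_
  exact Measurable.dist ((measurable_pi_apply _).comp measurable_fst)
    ((measurable_pi_apply _).comp measurable_fst)

end K0

open K0 in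
/-- **K0.** -/
theorem tourMeas : TourMeas where
  measurable n d := by
    unfold tourLength
    refine Measurable.iInf fun σ => ?_
    have hset : MeasurableSet {ω : Sample n d |
        3 ≤ n ∧ ∀ i, joined ω (σ i) (σ (finRotate n i))} := by
      by_cases hn : 3 ≤ n
      · have : {ω : Sample n d | 3 ≤ n ∧ ∀ i, joined ω (σ i) (σ (finRotate n i))} =
            ⋂ i, {ω : Sample n d | joined ω (σ i) (σ (finRotate n i))} := by
          ext ω
          simp [hn]
        rw [this]
        exact MeasurableSet.iInter fun i => meas_joined _ _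
      · have : {ω : Sample n d | 3 ≤ n ∧ ∀ i, joined ω (σ i) (σ (finRotate n i))} = ∅ := by
          ext ω
          simp [hn]
        rw [this]
        exact MeasurableSet.empty
    classical
    have hfun : (fun ω : Sample n d =>
        ⨅ (_ : 3 ≤ n ∧ ∀ i, joined ω (σ i) (σ (finRotate n i))),
          ∑ i, ENNReal.ofReal (dist (ω.1 (σ i)) (ω.1 (σ (finRotate n i))))) =
        fun ω : Sample n d => if 3 ≤ n ∧ ∀ i, joined ω (σ i) (σ (finRotate n i)) then
          ∑ i, ENNReal.ofReal (dist (ω.1 (σ i)) (ω.1 (σ (finRotate n i)))) else ⊤ := by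
      funext ω
      by_cases h : 3 ≤ n ∧ ∀ i, joined ω (σ i) (σ (finRotate n i))
      · rw [if_pos h, iInf_pos h]
      · rw [if_neg h, iInf_neg h]
    rw [hfun]
    exact Measurable.ite hset (meas_sum σ) measurable_const
  mono n d X c c' h := by
    unfold tourLength
    refine le_iInf fun σ => le_iInf fun hσ => ?_
    refine iInf_le_of_le σ (iInf_le_of_le ⟨hσ.1, fun i => ⟨(hσ.2 i).1, h _ (hσ.2 i).2⟩⟩ le_rfl)

end MP329
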