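import Pool.Agent.Lib.MP_329b4d_pr.SpecK

/-!
# MP_329b4d_pr, K1: the limit of the mean LP value
-/

namespace MP329

open Finset MeasureTheory Filter

namespace K1

theorem wm_bounds {q : ℕ} (m : Option (Fin q)) : 0 ≤ wm q m ∧ wm q m ≤ 1 := by
  cases m with
  | none => simp [wm]
  | some m =>
    have hq : (0 : ℝ) < q := by
      have : 0 < q := lt_of_le_of_lt (Nat.zero_le _) m.2
      exact_mod_cast this
    have h0 : (0 : ℝ) ≤ (m : ℕ) / (q : ℝ) := by positivity
    have h1 : ((m : ℕ) : ℝ) / (q : ℝ) ≤ 1 := by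
      rw [div_le_one hq]
      exact_mod_cast m.2.le
    constructor
    · simp only [wm]; linarith
    · simp only [wm]; linarith

theorem two_W_le (h4 : LPBasic) {V : Type} [Fintype V] [DecidableEq V] {q : ℕ}
    (g : Sym2 V → Option (Fin q)) : 2 * W g ≤ ∑ i, (mdeg g i : ℝ) := by
  obtain ⟨x, hx, hW⟩ := h4.attained V q g
  rw [← hW]
  unfold obj
  rw [mul_div_cancel₀ _ (two_ne_zero)]
  apply Finset.sum_le_sum
  intro i _
  have : (mdeg g i : ℝ) = ∑ j, (if g s(i, j) ≠ none then (1 : ℝ) else 0) := by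
    unfold mdeg
    rw [Finset.sum_boole]
  rw [this]
  apply Finset.sum_le_sum
  intro j _
  obtain ⟨h0, h1⟩ := wm_bounds (g s(i, j))
  have hx0 := hx.nonneg s(i, j)
  have hx1 := hx.le_one s(i, j)
  split_ifs with h
  · exact mul_le_one₀ h1 hx0 hx1
  · have h' : g s(i, j) = none := by
      by_contra hne
      exact h hne
    rw [hx.supp _ h']
    simp

theorem vK_nonneg (d : ℕ) (K : ℝ) : 0 ≤ vK d K := ENNReal.toReal_nonneg

/-- Bounds for the mean value. -/
theorem bounds (h3 : Moments) (h4 : LPBasic) (h5 : GeoLawFacts) {d q n : ℕ} {K p : ℝ}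
    (hn : 1 ≤ n) (hd : 1 ≤ d) (hq : 1 ≤ q) (hK : 0 < K) (hp : 0 < p) (hp1 : p ≤ 1) :
    0 ≤ meanW (geoLaw n d q p (K * unit d n p)) ∧
      meanW (geoLaw n d q p (K * unit d n p)) ≤ 1 ∧
      2 * meanW (geoLaw n d q p (K * unit d n p)) ≤ vK d K := by
  set μ := geoLaw n d q p (K * unit d n p) with hμ
  have hnn : ∀ g, 0 ≤ μ g := fun g => h5.nonneg _ _ _ _ _ g
  have hsum : ∑ g, μ g = 1 := h5.sum_one _ _ _ _ _ hp.le hp1
  have hcard : (0 : ℝ) < (Fintype.card (Fin n) : ℝ) := by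
    rw [Fintype.card_fin]
    exact_mod_cast hn
  refine ⟨?_, ?_, ?_⟩
  · unfold meanW
    apply div_nonneg _ hcard.le
    apply Finset.sum_nonneg
    intro g _
    exact mul_nonneg (hnn g) (h4.W_nonneg _ _ g)
  · unfold meanW
    rw [div_le_one hcard]
    calc ∑ g, μ g * W g ≤ ∑ g, μ g * (Fintype.card (Fin n) : ℝ) := by
          apply Finset.sum_le_sum
          intro g _
          exact mul_le_mul_of_nonneg_left (h4.W_le _ _ g) (hnn g)
      _ = (Fintype.card (Fin n) : ℝ) := by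
          rw [← Finset.sum_mul, hsum, one_mul]
  · have h := h3.deg n d q p K hn hd hq hp hp1 hK
    refine le_trans ?_ h
    unfold meanW meanDeg
    rw [← mul_div_assoc]
    apply div_le_div_of_nonneg_right _ hcard.le
    rw [Finset.mul_sum]
    apply Finset.sum_le_sum
    intro g _
    have := mul_le_mul_of_nonneg_left (two_W_le h4 g) (hnn g)
    calc 2 * (geoLaw n d q p (K * unit d n p) g * W g) = μ g * (2 * W g) := by
          rw [← hμ]; ring
      _ ≤ μ g * ∑ i, (mdeg g i : ℝ) := this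

/-- Comparison of two admissible sequences. -/
theorem close (h1 : Compare) (h2 : LocalLimit) (h3 : Moments) (h5 : GeoLawFacts) {d q : ℕ}
    {K : ℝ} (hd : 1 ≤ d) (hq : 1 ≤ q) (hK : 0 < K) {p p' : ℕ → ℝ} (hp : GoodSeq p)
    (hp' : GoodSeq p') {ε : ℝ} (hε : 0 < ε) :
    ∃ N : ℕ, ∀ n ≥ N, ∀ n' ≥ N,
      |meanW (geoLaw n d q (p n) (K * unit d n (p n))) -
        meanW (geoLaw n' d q (p' n') (K * unit d n' (p' n')))| ≤ ε := by
  obtain ⟨R, Δ, η, hη, H⟩ := h1 q (vK d K) ε (vK_nonneg d K) hε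
  choose c hc using fun (r : ℕ) (τ : Typ q Δ (r + 1)) => h2 d q Δ (r + 1) K τ hd hq hK
  have key : ∀ (p : ℕ → ℝ), GoodSeq p → ∀ᶠ n : ℕ in atTop, ∀ r ∈ range R,
      ∀ τ : Typ q Δ (r + 1),
      |typFreq Δ (r + 1) (geoLaw n d q (p n) (K * unit d n (p n))) τ - c r τ| ≤ η / 2 := by
    intro p hp
    rw [Filter.eventually_all_finset]
    intro r _
    rw [Filter.eventually_all]
    intro τ
    have h := Metric.tendsto_nhds.mp (hc r τ p hp.pos hp.zero hp.infty) (η / 2) (by positivity)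
    filter_upwards [h] with n hn
    rw [Real.dist_eq] at hn
    exact hn.le
  obtain ⟨N₁, hN₁⟩ := eventually_atTop.mp (key p hp)
  obtain ⟨N₂, hN₂⟩ := eventually_atTop.mp (key p' hp')
  refine ⟨max 1 (max N₁ N₂), ?_⟩
  intro n hn n' hn'
  have hn1 : 1 ≤ n := le_trans (le_max_left _ _) hn
  have hn1' : 1 ≤ n' := le_trans (le_max_left _ _) hn'
  haveI : Nonempty (Fin n) := ⟨⟨0, hn1⟩⟩
  haveI : Nonempty (Fin n') := ⟨⟨0, hn1'⟩⟩
  apply H (Fin n) (Fin n')
  · exact fun g => h5.nonneg _ _ _ _ _ g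
  · exact fun g => h5.nonneg _ _ _ _ _ g
  · exact h5.sum_one _ _ _ _ _ (hp.pos n).1.le (hp.pos n).2
  · exact h5.sum_one _ _ _ _ _ (hp'.pos n').1.le (hp'.pos n').2
  · exact h3.deg n d q (p n) K hn1 hd hq (hp.pos n).1 (hp.pos n).2 hK
  · exact h3.deg n' d q (p' n') K hn1' hd hq (hp'.pos n').1 (hp'.pos n').2 hK
  · intro r hr τ
    have ha := hN₁ n (le_trans (le_trans (le_max_left _ _) (le_max_right _ _)) hn) r
      (Finset.mem_range.mpr hr) τ
    have hb := hN₂ n' (le_trans (le_trans (le_max_right _ _) (le_max_right _ _)) hn') r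
      (Finset.mem_range.mpr hr) τ
    rw [abs_le] at ha hb ⊢
    constructor <;> linarith [ha.1, ha.2, hb.1, hb.2]

/-- An admissible sequence. -/
theorem exists_good : GoodSeq (fun n : ℕ => 1 / √((n : ℝ) + 1)) := by
  have ht : Tendsto (fun n : ℕ => √((n : ℝ) + 1)) atTop atTop := by
    apply Real.tendsto_sqrt_atTop.comp
    exact tendsto_atTop_add_const_right _ _ tendsto_natCast_atTop_atTop
  refine ⟨?_, ?_, ?_⟩
  · intro n
    have h1 : (1 : ℝ) ≤ √((n : ℝ) + 1) := by
      rw [Real.one_le_sqrt]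
      have : (0 : ℝ) ≤ n := Nat.cast_nonneg n
      linarith
    constructor
    · positivity
    · rw [div_le_one (by linarith)]
      exact h1
  · have := ht.inv_tendsto_atTop
    refine this.congr ?_
    intro n
    simp [one_div]
  · apply tendsto_atTop_mono (f := fun n : ℕ => √((n : ℝ) + 1) + (-1))
    · intro n
      have h1 : (1 : ℝ) ≤ √((n : ℝ) + 1) := by
        rw [Real.one_le_sqrt]
        have : (0 : ℝ) ≤ n := Nat.cast_nonneg n
        linarith
      have hsq : √((n : ℝ) + 1) * √((n : ℝ) + 1) = (n : ℝ) + 1 :=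
        Real.mul_self_sqrt (by positivity)
      have hpos : (0 : ℝ) < √((n : ℝ) + 1) := by linarith
      rw [mul_one_div, le_div_iff₀ hpos]
      nlinarith
    · exact tendsto_atTop_add_const_right _ _ ht

end K1

/-- **K1, the limit of the mean LP value.** -/
theorem limitExists (h1 : Compare) (h2 : LocalLimit) (h3 : Moments) (h4 : LPBasic)
    (h5 : GeoLawFacts) : LimitExists := by
  intro d q K hd hq hK
  set p : ℕ → ℝ := fun n : ℕ => 1 / √((n : ℝ) + 1) with hpdef
  have hp : GoodSeq p := K1.exists_good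
  have hcau : CauchySeq (fun n : ℕ => meanW (geoLaw n d q (p n) (K * unit d n (p n)))) := by
    rw [Metric.cauchySeq_iff']
    intro ε hε
    obtain ⟨N, hN⟩ := K1.close h1 h2 h3 h5 hd hq hK hp hp (ε := ε / 2) (by positivity)
    refine ⟨N, fun n hn => ?_⟩
    rw [Real.dist_eq]
    have := hN n hn N le_rfl
    linarith
  obtain ⟨A, hA⟩ := cauchySeq_tendsto_of_complete hcau
  have hbd : ∀ᶠ n : ℕ in atTop, 0 ≤ meanW (geoLaw n d q (p n) (K * unit d n (p n))) ∧
      meanW (geoLaw n d q (p n) (K * unit d n (p n))) ≤ 1 ∧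
      2 * meanW (geoLaw n d q (p n) (K * unit d n (p n))) ≤ vK d K := by
    filter_upwards [eventually_ge_atTop 1] with n hn
    exact K1.bounds h3 h4 h5 hn hd hq hK (hp.pos n).1 (hp.pos n).2
  refine ⟨A, ?_, ?_, ?_, ?_⟩
  · intro p' hp'
    rw [Metric.tendsto_atTop]
    intro ε hε
    obtain ⟨N₁, hN₁⟩ := K1.close h1 h2 h3 h5 hd hq hK hp' hp (ε := ε / 2) (by positivity)
    obtain ⟨N₂, hN₂⟩ := (Metric.tendsto_atTop.mp hA) (ε / 2) (by positivity)
    refine ⟨max N₁ N₂, fun n hn => ?_⟩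
    have ha := hN₁ n (le_trans (le_max_left _ _) hn) n (le_trans (le_max_left _ _) hn)
    have hb := hN₂ n (le_trans (le_max_right _ _) hn)
    rw [Real.dist_eq] at hb ⊢
    rw [abs_le] at ha
    rw [abs_lt] at hb ⊢
    constructor <;> linarith [ha.1, ha.2, hb.1, hb.2]
  · exact ge_of_tendsto hA (hbd.mono fun n h => h.1)
  · exact le_of_tendsto hA (hbd.mono fun n h => h.2.1)
  · exact le_of_tendsto (hA.const_mul 2) (hbd.mono fun n h => h.2.2)

end MP329
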