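import Pool.Agent.Lib.MP_329b4d_pr.SpecK
import Pool.Agent.Lib.MP_329b4d_pr.B2Tour

/-!
# MP_329b4d_pr, K3: the lower tail
-/

set_option autoImplicit false

namespace MP329

open Finset MeasureTheory Filter

namespace K3

/-- `n ^ (-α)`, with the value `1` at `0`. -/
noncomputable def pal (α : ℝ) (n : ℕ) : ℝ := if n = 0 then 1 else (n : ℝ) ^ (-α)

theorem pal_eq (α : ℝ) {n : ℕ} (hn : 1 ≤ n) : pal α n = (n : ℝ) ^ (-α) := by
  unfold pal
  rw [if_neg (by omega)]

theorem goodSeq {α : ℝ} (h0 : 0 < α) (h1 : α < 1) : GoodSeq (pal α) where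
  pos n := by
    unfold pal
    split_ifs with h
    · norm_num
    · have hn : (1 : ℝ) ≤ n := by exact_mod_cast Nat.one_le_iff_ne_zero.2 h
      exact ⟨Real.rpow_pos_of_pos (by linarith) _,
        Real.rpow_le_one_of_one_le_of_nonpos hn (by linarith)⟩
  zero := by
    have h : Tendsto (fun n : ℕ => (n : ℝ) ^ (-α)) atTop (nhds 0) :=
      (tendsto_rpow_neg_atTop h0).comp tendsto_natCast_atTop_atTop
    refine h.congr' ?_
    filter_upwards [eventually_ge_atTop 1] with n hn
    exact (pal_eq α hn).symm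
  infty := by
    have h : Tendsto (fun n : ℕ => (n : ℝ) ^ (1 - α)) atTop atTop :=
      (tendsto_rpow_atTop (by linarith)).comp tendsto_natCast_atTop_atTop
    refine h.congr' ?_
    filter_upwards [eventually_ge_atTop 1] with n hn
    have hn' : (0 : ℝ) < n := by exact_mod_cast hn
    rw [pal_eq α hn, sub_eq_add_neg, Real.rpow_add hn', Real.rpow_one]

theorem unit_pos {d n : ℕ} {p : ℝ} (hn : 1 ≤ n) (hp : 0 < p) : 0 < unit d n p := by
  have hn' : (0 : ℝ) < n := by exact_mod_cast hn
  exact Real.rpow_pos_of_pos (by positivity) _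

/-- The deterministic part: a short tour forces a large value of the linear program. -/
theorem large_W (h1 : TourLower) {d q n : ℕ} {K A η s : ℝ} (hq : 1 ≤ q) (hK : 0 < K) (hs : 0 < s)
    (ω : Sample n d) (hω : tourLength ω < ENNReal.ofReal ((K * (1 - A) - η) * n * s)) :
    (A * K + η) * n < K * W (geo q (K * s) ω.1 (present ω)) := by
  obtain ⟨T, hT, hsub, hlen⟩ := (tourList n d ω).2 hω.ne_top
  have h2 := h1 (Fin n) d q (K * s) ω.1 (present ω) T hq (mul_pos hK hs) hT hsub
  rw [hlen] at hω
  have h3 : cost ω.1 (tourEdges T) < (K * (1 - A) - η) * n * s := by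
    by_contra hcon
    push Not at hcon
    exact absurd (ENNReal.ofReal_le_ofReal hcon) (not_le.2 hω)
  have h4 := h2.trans_lt h3
  rw [Fintype.card_fin] at h4
  have h5 : s * (K * ((n : ℝ) - W (geo q (K * s) ω.1 (present ω)))) <
      s * ((K * (1 - A) - η) * n) := by linarith
  have h6 := lt_of_mul_lt_mul_left h5 hs.le
  linarith

end K3

open K3 in
/-- **K3, lower tail.** -/
theorem lowerTail (h1 : TourLower) (h2 : Concentration) (h3 : GeoLawFacts) : LowerTail := by
  intro d q K A α η hd hq hK hA hα hα1 hη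
  have hgood := goodSeq hα hα1
  have hlim := hA _ hgood
  have hη' : 0 < η / (4 * K) := by positivity
  have hconc := h2 d q K (η / (4 * K)) (pal α) hd hq hK hη' hgood.pos hgood.infty
  refine squeeze_zero' (Eventually.of_forall fun n => ENNReal.toReal_nonneg) ?_ hconc
  have hev : ∀ᶠ n : ℕ in atTop,
      meanW (geoLaw n d q (pal α n) (K * unit d n (pal α n))) < A + η / (4 * K) :=
    hlim.eventually (gt_mem_nhds (by linarith))
  filter_upwards [hev, eventually_ge_atTop 1] with n hn hn1
  have hp := hgood.pos n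
  have hprob := h3.law_prob n d (pal α n) hp.1.le hp.2
  have hn' : (0 : ℝ) < n := by exact_mod_cast hn1
  rw [← pal_eq α hn1]
  refine ENNReal.toReal_mono (measure_ne_top _ _) (measure_mono ?_)
  intro ω hω
  have hW := large_W h1 hq hK (unit_pos hn1 hp.1) ω hω
  show η / (4 * K) * n ≤ |W (geo q (K * unit d n (pal α n)) ω.1 (present ω)) -
        n * meanW (geoLaw n d q (pal α n) (K * unit d n (pal α n)))|
  refine le_trans ?_ (le_abs_self _)
  have h5 : (n : ℝ) * meanW (geoLaw n d q (pal α n) (K * unit d n (pal α n))) ≤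
      n * (A + η / (4 * K)) := mul_le_mul_of_nonneg_left hn.le hn'.le
  have h6 : (A + η / K) * n < W (geo q (K * unit d n (pal α n)) ω.1 (present ω)) := by
    have h7 : K * ((A + η / K) * n) = (A * K + η) * n := by
      field_simp
    rw [← h7] at hW
    exact lt_of_mul_lt_mul_left hW hK.le
  have h8 : η / K = 4 * (η / (4 * K)) := by
    field_simp
  rw [h8] at h6
  nlinarith [mul_pos hη' hn']

end MP329
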