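import Pool.Agent.Lib.MP_329b4d_pr.SpecK
import Pool.Agent.Lib.MP_329b4d_pr.B2Tour
import Pool.Agent.Lib.MP_329b4d_pr.A7Coin

/-!
# MP_329b4d_pr, K5: the constants are bounded
-/

namespace MP329

open Finset MeasureTheory Filter

namespace K5

/-- the flattening of the list of singletons -/
theorem flatten_sing {V : Type*} (l : List V) : (l.map fun v => [v]).flatten = l := by
  induction l with
  | nil => rfl
  | cons a l ih => simp [ih]

theorem cover_sing (n : ℕ) : IsCover ((List.finRange n).map fun v => [v]) where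
  ne_nil := by
    intro l hl
    obtain ⟨v, _, rfl⟩ := List.mem_map.1 hl
    simp
  nodup := by
    rw [flatten_sing]
    exact List.nodup_finRange n
  covers := by
    intro v
    rw [flatten_sing]
    exact List.mem_finRange v

theorem edges_sing {V : Type*} [DecidableEq V] (l : List V) :
    edgesL (l.map fun v => [v]) = ∅ := by
  unfold edgesL
  have : (l.map fun v => [v]).flatMap links = [] := by
    induction l with
    | nil => rfl
    | cons a l ih => simpa [links] using ih
  rw [this]
  rfl

/-- Lower bound for the product measure of an arbitrary set through its slices. -/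
theorem prod_ge {α β : Type*} [MeasurableSpace α] [MeasurableSpace β] (μ : Measure α)
    (ν : Measure β) [SFinite ν] (E : Set (α × β)) (R : Set α) (c : ENNReal)
    (h : ∀ x ∈ R, c ≤ ν {y | (x, y) ∈ E}) : c * μ R ≤ (μ.prod ν) E := by
  have hm : MeasurableSet (toMeasurable (μ.prod ν) E) := measurableSet_toMeasurable _ _
  rw [← measure_toMeasurable E, Measure.prod_apply hm]
  refine le_trans ?_ (mul_meas_ge_le_lintegral₀ (measurable_measure_prodMk_left hm).aemeasurable c)
  refine mul_le_mul_right (measure_mono ?_) _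
  intro x hx
  exact (h x hx).trans (measure_mono fun y hy => subset_toMeasurable _ _ hy)

end K5

theorem finiteBound (h1 : PatchTheorem) (h2 : RegularLikely) (h3 : LowerTail)
    (h4 : GeoLawFacts) : FiniteBound := by
  intro d α hd hα hα1
  obtain ⟨K₂, hK₂, hP⟩ := h1 d α 1 0 (1 / 2) hd hα hα1 one_pos le_rfl le_rfl (by norm_num)
  obtain ⟨n₀, hn₀⟩ := hP 1 one_pos le_rfl
  refine ⟨K₂, fun q K A hq hK hA => ?_⟩
  by_contra hcon
  rw [not_le] at hcon
  obtain ⟨η, hη⟩ : ∃ η, η = (K * (1 - A) - K₂) / 2 := ⟨_, rfl⟩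
  have hη0 : 0 < η := by rw [hη]; linarith
  have hT := h3 d q K A α η hd hq hK hA hα hα1 hη0
  have hR := h2 d α hd hα hα1
  have key : ∀ᶠ n : ℕ in atTop, (1 / 2 : ℝ) *
      ((Measure.pi fun _ : Fin n => unif d) {X | Regular ((n : ℝ) ^ (1 - α)) X}).toReal ≤
      ((law n d ((n : ℝ) ^ (-α))) {ω | tourLength ω <
      ENNReal.ofReal ((K * (1 - A) - η) * n * unit d n ((n : ℝ) ^ (-α)))}).toReal := by
    filter_upwards [eventually_ge_atTop n₀, eventually_ge_atTop 1] with n hn hn1
    have hn1' : (1 : ℝ) ≤ n := by exact_mod_cast hn1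
    have hnpos : (0 : ℝ) < n := by linarith
    have hp0 : 0 < (n : ℝ) ^ (-α) := Real.rpow_pos_of_pos hnpos _
    have hp1 : (n : ℝ) ^ (-α) ≤ 1 := Real.rpow_le_one_of_one_le_of_nonpos hn1' (by linarith)
    have hs : 0 < unit d n ((n : ℝ) ^ (-α)) := Real.rpow_pos_of_pos (by positivity) _
    have hnp : (n : ℝ) * (n : ℝ) ^ (-α) = (n : ℝ) ^ (1 - α) := by
      rw [sub_eq_add_neg, Real.rpow_add hnpos, Real.rpow_one]
    obtain ⟨hprob, _, hcoin⟩ := coinEx (Sym2 (Fin n)) ((n : ℝ) ^ (-α)) hp0.le hp1
    have hlaw := h4.law_prob n d ((n : ℝ) ^ (-α)) hp0.le hp1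
    have hmain : ENNReal.ofReal (1 / 2) *
        (Measure.pi fun _ : Fin n => unif d) {X | Regular ((n : ℝ) ^ (1 - α)) X} ≤
        (law n d ((n : ℝ) ^ (-α))) {ω | tourLength ω <
        ENNReal.ofReal ((K * (1 - A) - η) * n * unit d n ((n : ℝ) ^ (-α)))} := by
      unfold law
      refine K5.prod_ge _ _ _ _ _ fun X hX => ?_
      have hX' : Regular ((n : ℝ) * (n : ℝ) ^ (-α)) X := by
        rw [hnp]; exact hX
      have hpatch := hn₀ n hn X _ _ rfl rfl hX' ((List.finRange n).map fun v => [v])
        (K5.cover_sing n) (by simp) (by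
          rw [K5.edges_sing]
          simp [cost])
      rw [K5.edges_sing] at hpatch
      have e1 : (1 : ℝ) - 1 / 2 = 1 / 2 := by norm_num
      rw [e1, one_mul] at hpatch
      refine (ENNReal.ofReal_le_ofReal hpatch).trans ?_
      rw [← hcoin]
      refine measure_mono ?_
      rintro c ⟨T, hT1, hT2, hT3⟩
      show tourLength (X, c) < _
      have h5 := (tourList n d (X, c)).1 T hT1 (by simpa using hT2)
      refine lt_of_le_of_lt h5 ?_
      have h6 : cost X ∅ = 0 := by simp [cost]
      rw [h6, Real.sqrt_one, mul_one, zero_add] at hT3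
      rw [ENNReal.ofReal_lt_ofReal_iff]
      · refine lt_of_le_of_lt hT3 ?_
        have h7 : K₂ < K * (1 - A) - η := by rw [hη]; linarith
        have h8 : 0 < (n : ℝ) * unit d n ((n : ℝ) ^ (-α)) := by positivity
        nlinarith
      · have h7 : 0 < K * (1 - A) - η := by rw [hη]; linarith
        positivity
    have h9 := ENNReal.toReal_mono (measure_ne_top _ _) hmain
    rwa [ENNReal.toReal_mul, ENNReal.toReal_ofReal (by norm_num)] at h9
  have hR' : Tendsto (fun n : ℕ => (1 / 2 : ℝ) *
      ((Measure.pi fun _ : Fin n => unif d) {X | Regular ((n : ℝ) ^ (1 - α)) X}).toReal)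
      atTop (nhds (1 / 2 * 1)) := by
    have := (ENNReal.tendsto_toReal ENNReal.one_ne_top).comp hR
    exact this.const_mul (1 / 2 : ℝ)
  have := le_of_tendsto_of_tendsto hR' hT key
  norm_num at this

end MP329
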