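import Pool.Agent.Lib.MP_329b4d_pr.SpecK

/-!
# MP_329b4d_pr, K6: the theorem
-/

namespace MP329

open Finset MeasureTheory Filter

namespace K6

/-- Small balls have small volume. -/
theorem exists_small_vK {d : ℕ} (hd : 1 ≤ d) : ∃ K : ℝ, 0 < K ∧ vK d K ≤ 1 := by
  have hv : 0 ≤ vK d 1 := ENNReal.toReal_nonneg
  refine ⟨1 / (vK d 1 + 1), by positivity, ?_⟩
  set K : ℝ := 1 / (vK d 1 + 1) with hK
  have hK0 : 0 < K := by positivity
  have hK1 : K ≤ 1 := by
    rw [hK, div_le_one (by positivity)]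
    linarith
  have h1 : vK d K = K ^ d * vK d 1 := by
    unfold vK
    have h2 := Measure.addHaar_ball_of_pos (volume : Measure (Pt d)) 0 hK0
    rw [h2, ENNReal.toReal_mul, ENNReal.toReal_ofReal (by positivity)]
    simp
  rw [h1]
  have h3 : K ^ d ≤ K := by
    calc K ^ d ≤ K ^ 1 := pow_le_pow_of_le_one hK0.le hK1 hd
      _ = K := pow_one K
  calc K ^ d * vK d 1 ≤ K * vK d 1 := mul_le_mul_of_nonneg_right h3 hv
    _ ≤ 1 := by
        rw [hK, div_mul_eq_mul_div, div_le_one (by positivity)]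
        linarith

/-- `n s = n ^ ((d - 1) / d) / p ^ (1 / d)`. -/
theorem scale {d n : ℕ} {p : ℝ} (hd : 1 ≤ d) (hn : 1 ≤ n) (hp : 0 < p) :
    (n : ℝ) ^ (((d : ℝ) - 1) / d) / p ^ (1 / (d : ℝ)) = n * unit d n p := by
  have hn0 : (0 : ℝ) < n := by exact_mod_cast hn
  have hd0 : (d : ℝ) ≠ 0 := by positivity
  unfold unit
  rw [Real.mul_rpow hn0.le hp.le, ← mul_assoc]
  have h1 : (n : ℝ) * (n : ℝ) ^ (-(1 : ℝ) / d) = (n : ℝ) ^ (((d : ℝ) - 1) / d) := by
    have h2 : (n : ℝ) * (n : ℝ) ^ (-(1 : ℝ) / d) = (n : ℝ) ^ (1 : ℝ) * (n : ℝ) ^ (-(1 : ℝ) / d) := by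
      rw [Real.rpow_one]
    rw [h2, ← Real.rpow_add hn0]
    congr 1
    field_simp
    ring
  rw [h1, neg_div, Real.rpow_neg hp.le]
  rfl

end K6

/-- **K6, the theorem.** -/
theorem main (h1 : LimitExists) (h2 : LowerTail) (h3 : FiniteBound) (h4 : UpperTail)
    (h6 : GeoLawFacts) : Main := by
  intro d α hd hα hα1
  set S : Set ℝ := {x | ∃ (q : ℕ) (K A : ℝ), 1 ≤ q ∧ 0 < K ∧ IsLim d q K A ∧ x = K * (1 - A)}
    with hS
  obtain ⟨C, hC⟩ := h3 d α hd hα hα1
  have hbdd : BddAbove S := by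
    refine ⟨C, ?_⟩
    rintro x ⟨q, K, A, hq, hK, hA, rfl⟩
    exact hC q K A hq hK hA
  obtain ⟨x0, hx0, hx0pos⟩ : ∃ x ∈ S, 0 < x := by
    obtain ⟨K, hK, hK2⟩ := K6.exists_small_vK hd
    obtain ⟨A, hA, _, _, hA2⟩ := h1 d 1 K hd le_rfl hK
    exact ⟨K * (1 - A), ⟨1, K, A, le_rfl, hK, hA, rfl⟩, mul_pos hK (by linarith)⟩
  set β : ℝ := sSup S with hβdef
  have hβ : 0 < β := lt_of_lt_of_le hx0pos (le_csSup hbdd hx0)
  refine ⟨β, hβ, ?_⟩
  intro ε hε
  have hη : 0 < ε * β := mul_pos hε hβ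
  obtain ⟨x, ⟨q, K, A, hq, hK, hA, rfl⟩, hx⟩ := exists_lt_of_lt_csSup ⟨x0, hx0⟩
    (show β - ε * β / 2 < sSup S by linarith)
  have hlow := h2 d q K A α (ε * β / 2) hd hq hK hA hα hα1 (by positivity)
  have hup := h4 d α β (ε * β) hd hα hα1 hβ.le hη
    (fun q K A hq hK hA => le_csSup hbdd ⟨q, K, A, hq, hK, hA, rfl⟩)
  have hp0 : ∀ n : ℕ, (0 : ℝ) ≤ (n : ℝ) ^ (-α) := fun n => Real.rpow_nonneg (Nat.cast_nonneg n) _
  have hp1 : ∀ n : ℕ, (n : ℝ) ^ (-α) ≤ 1 := by
    intro n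
    rcases Nat.eq_zero_or_pos n with h | h
    · rw [h, Nat.cast_zero, Real.zero_rpow (by linarith)]
      exact zero_le_one
    · exact Real.rpow_le_one_of_one_le_of_nonpos (by exact_mod_cast h) (by linarith)
  have hprob : ∀ n : ℕ, IsProbabilityMeasure (law n d ((n : ℝ) ^ (-α))) :=
    fun n => h6.law_prob n d _ (hp0 n) (hp1 n)
  have hfin : ∀ (n : ℕ) (B : Set (Sample n d)), law n d ((n : ℝ) ^ (-α)) B ≠ ⊤ := by
    intro n B
    have := hprob n
    exact measure_ne_top _ _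
  have hlow' : Tendsto (fun n : ℕ => (law n d ((n : ℝ) ^ (-α))) {ω | tourLength ω <
      ENNReal.ofReal ((K * (1 - A) - ε * β / 2) * n * unit d n ((n : ℝ) ^ (-α)))})
      atTop (nhds 0) := by
    rw [← ENNReal.tendsto_toReal_iff (fun n => hfin n _) ENNReal.zero_ne_top]
    simpa using hlow
  have hup' : Tendsto (fun n : ℕ => (law n d ((n : ℝ) ^ (-α))) {ω |
      ENNReal.ofReal ((β + ε * β) * n * unit d n ((n : ℝ) ^ (-α))) < tourLength ω})
      atTop (nhds 0) := by
    rw [← ENNReal.tendsto_toReal_iff (fun n => hfin n _) ENNReal.zero_ne_top]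
    simpa using hup
  have hlim : Tendsto (fun n : ℕ => 1 - ((law n d ((n : ℝ) ^ (-α))) {ω | tourLength ω <
      ENNReal.ofReal ((K * (1 - A) - ε * β / 2) * n * unit d n ((n : ℝ) ^ (-α)))} +
      (law n d ((n : ℝ) ^ (-α))) {ω |
      ENNReal.ofReal ((β + ε * β) * n * unit d n ((n : ℝ) ^ (-α))) < tourLength ω}))
      atTop (nhds 1) := by
    have := ENNReal.Tendsto.sub (tendsto_const_nhds (x := (1 : ENNReal))) (hlow'.add hup')
      (Or.inl ENNReal.one_ne_top)
    simpa using this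
  refine tendsto_of_tendsto_of_tendsto_of_le_of_le' hlim tendsto_const_nhds ?_ ?_
  · filter_upwards [eventually_ge_atTop 1] with n hn
    have := hprob n
    have hn0 : (0 : ℝ) < n := by exact_mod_cast hn
    have hpp : 0 < (n : ℝ) ^ (-α) := Real.rpow_pos_of_pos hn0 _
    rw [tsub_le_iff_right, ← measure_univ (μ := law n d ((n : ℝ) ^ (-α)))]
    refine le_trans (measure_mono ?_) ((measure_union_le _ _).trans
      (add_le_add_right (measure_union_le _ _) _))
    intro ω _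
    by_cases hω1 : tourLength ω <
      ENNReal.ofReal ((K * (1 - A) - ε * β / 2) * n * unit d n ((n : ℝ) ^ (-α)))
    · exact Or.inr (Or.inl hω1)
    by_cases hω2 : ENNReal.ofReal ((β + ε * β) * n * unit d n ((n : ℝ) ^ (-α))) < tourLength ω
    · exact Or.inr (Or.inr hω2)
    left
    push Not at hω1 hω2
    have hs : 0 < unit d n ((n : ℝ) ^ (-α)) := Real.rpow_pos_of_pos (mul_pos hn0 hpp) _
    have hne : tourLength ω ≠ ⊤ := ne_top_of_le_ne_top ENNReal.ofReal_ne_top hω2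
    refine ⟨hne, ?_⟩
    rw [K6.scale hd hn hpp]
    set s : ℝ := unit d n ((n : ℝ) ^ (-α)) with hsdef
    have hD : 0 < β * (n * s) := by positivity
    have hub : (tourLength ω).toReal ≤ (β + ε * β) * n * s := by
      have := ENNReal.toReal_mono ENNReal.ofReal_ne_top hω2
      rwa [ENNReal.toReal_ofReal (by positivity)] at this
    have hlb : (K * (1 - A) - ε * β / 2) * n * s ≤ (tourLength ω).toReal := by
      have := ENNReal.toReal_mono hne hω1
      refine le_trans ?_ this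
      rcases le_or_gt 0 ((K * (1 - A) - ε * β / 2) * n * s) with h | h
      · rw [ENNReal.toReal_ofReal h]
      · exact h.le.trans ENNReal.toReal_nonneg
    have hlb2 : (β - ε * β) * n * s ≤ (K * (1 - A) - ε * β / 2) * n * s := by
      have : β - ε * β ≤ K * (1 - A) - ε * β / 2 := by linarith
      gcongr
    rw [abs_le]
    constructor
    · have : 1 - ε ≤ (tourLength ω).toReal / (β * (n * s)) := by
        rw [le_div_iff₀ hD]
        nlinarith
      linarith
    · have : (tourLength ω).toReal / (β * (n * s)) ≤ 1 + ε := by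
        rw [div_le_iff₀ hD]
        nlinarith
      linarith
  · filter_upwards with n
    have := hprob n
    exact prob_le_one

end MP329
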