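import Pool.Agent.Lib.MP_329b4d_pr.Final
import Pool.Agent.Lib.MP_329b4d_pr.H3Compare
import Pool.Agent.Lib.MP_329b4d_pr.I0Law
import Pool.Agent.Lib.MP_329b4d_pr.I1Exch
import Pool.Agent.Lib.MP_329b4d_pr.I2Local
import Pool.Agent.Lib.MP_329b4d_pr.I4Decomp
import Pool.Agent.Lib.MP_329b4d_pr.I5Kap
import Pool.Agent.Lib.MP_329b4d_pr.I6Limit
import Pool.Agent.Lib.MP_329b4d_pr.I7Path
import Pool.Agent.Lib.MP_329b4d_pr.I8Moments
import Pool.Agent.Lib.MP_329b4d_pr.I9Local
import Pool.Agent.Lib.MP_329b4d_pr.J1Efron
import Pool.Agent.Lib.MP_329b4d_pr.J2Conc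
import Pool.Agent.Lib.MP_329b4d_pr.K0Meas
import Pool.Agent.Lib.MP_329b4d_pr.K1Limit
import Pool.Agent.Lib.MP_329b4d_pr.K3Lower
import Pool.Agent.Lib.MP_329b4d_pr.K5Finite
import Pool.Agent.Lib.MP_329b4d_pr.K6Main

namespace MP329

theorem compare' : Compare :=
  compare_means (avgLower (repair lpBasic)) (avgUpper lpBasic) (wLip lpBasic)
theorem pathProb' : PathProb := pathProb geoLawFacts
theorem moments' : Moments := moments pathProb' geoLawFacts
theorem kapLimit' : KapLimit := kapLimit (kapFormula geoLawFacts)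
theorem localLimit' : LocalLimit :=
  localLimit freqZero exchangeable (decomp typLocal ballPattern) kapLimit' moments' geoLawFacts
theorem concentration' : Concentration :=
  concentration efronStein (wLip lpBasic) lpBasic geoLawFacts pathProb'
theorem limitExists' : LimitExists :=
  limitExists compare' localLimit' moments' lpBasic geoLawFacts
theorem lowerTail' : LowerTail := lowerTail tourLower' concentration' geoLawFacts
theorem finiteBound' : FiniteBound :=
  finiteBound patchTheorem' regularLikely lowerTail' geoLawFacts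

end MP329
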