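import Pool.Agent.Lib.MP_329b4d_pr.SpecC
import Pool.Agent.Lib.MP_329b4d_pr.Basic

/-!
# MP_329b4d_pr: C1, conflict-free subfamilies
-/

namespace MP329

open Finset

open Classical in
/-- Deterministic part. -/
theorem c1_det {τ : Type} (conf : τ → τ → Prop) (hs : ∀ t t', conf t t' → conf t' t)
    (J : Finset τ) :
    ∃ I : Finset τ, I ⊆ J ∧ (∀ t ∈ I, ∀ t' ∈ I, t ≠ t' → ¬ conf t t') ∧
      2 * #J ≤ 2 * #I + #((J ×ˢ J).filter (fun z => z.1 ≠ z.2 ∧ conf z.1 z.2)) := by
  induction J using Finset.strongInduction with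
  | H J ih =>
    by_cases h : ∃ t ∈ J, ∃ t' ∈ J, t ≠ t' ∧ conf t t'
    · obtain ⟨t, ht, t', ht', hne, hc⟩ := h
      obtain ⟨I, hI, hI2, hI3⟩ := ih (J.erase t) (Finset.erase_ssubset ht)
      refine ⟨I, hI.trans (Finset.erase_subset _ _), hI2, ?_⟩
      have hcard : #(J.erase t) + 1 = #J := Finset.card_erase_add_one ht
      have hsub : ((J.erase t ×ˢ J.erase t).filter (fun z => z.1 ≠ z.2 ∧ conf z.1 z.2)) ∪
          {(t, t'), (t', t)} ⊆ (J ×ˢ J).filter (fun z => z.1 ≠ z.2 ∧ conf z.1 z.2) := by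
        intro z hz
        rw [Finset.mem_union] at hz
        rcases hz with hz | hz
        · simp only [Finset.mem_filter, Finset.mem_product, Finset.mem_erase] at hz ⊢
          exact ⟨⟨hz.1.1.2, hz.1.2.2⟩, hz.2⟩
        · simp only [Finset.mem_insert, Finset.mem_singleton] at hz
          rcases hz with rfl | rfl
          · simp only [Finset.mem_filter, Finset.mem_product]
            exact ⟨⟨ht, ht'⟩, hne, hc⟩
          · simp only [Finset.mem_filter, Finset.mem_product]
            exact ⟨⟨ht', ht⟩, hne.symm, hs _ _ hc⟩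
      have hdisj : Disjoint
          ((J.erase t ×ˢ J.erase t).filter (fun z => z.1 ≠ z.2 ∧ conf z.1 z.2))
          {(t, t'), (t', t)} := by
        rw [Finset.disjoint_left]
        intro z hz hz'
        simp only [Finset.mem_insert, Finset.mem_singleton] at hz'
        simp only [Finset.mem_filter, Finset.mem_product, Finset.mem_erase] at hz
        rcases hz' with rfl | rfl
        · exact hz.1.1.1 rfl
        · exact hz.1.2.1 rfl
      have h2 : #({(t, t'), (t', t)} : Finset (τ × τ)) = 2 := by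
        rw [Finset.card_pair]
        intro heq
        exact hne (congrArg Prod.fst heq)
      have h3 := Finset.card_le_card hsub
      rw [Finset.card_union_of_disjoint hdisj, h2] at h3
      omega
    · push Not at h
      refine ⟨J, Finset.Subset.refl _, fun t ht t' ht' hne => h t ht t' ht' hne, ?_⟩
      omega

open Classical in
theorem conflictFree : ConflictFree := by
  intro ι τ _ _ q J D conf h0 h1 hs
  choose I hI1 hI2 hI3 using fun S : Finset ι => c1_det conf hs (J.filter (fun t => D t ⊆ S))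
  refine ⟨I, ?_, ?_⟩
  · intro S
    refine ⟨(hI1 S).trans (Finset.filter_subset _ _), ?_, hI2 S⟩
    intro t ht
    exact (Finset.mem_filter.mp (hI1 S ht)).2
  · have e1 : Ex q (fun S => (#(J.filter (fun t => D t ⊆ S)) : ℝ)) = ∑ t ∈ J, q ^ #(D t) := by
      have : (fun S : Finset ι => (#(J.filter (fun t => D t ⊆ S)) : ℝ)) =
          fun S => ∑ t ∈ J, (if D t ⊆ S then (1 : ℝ) else 0) := by
        funext S
        rw [Finset.sum_boole]
      rw [this, Ex_sum]
      apply Finset.sum_congr rfl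
      intro t _
      rw [← Pb_subset q (D t)]
      unfold Pb
      refine Ex_congr (fun S => ?_)
      by_cases hS : D t ⊆ S <;> simp [hS]
    have e2 : Ex q (fun S => (#(((J.filter (fun t => D t ⊆ S)) ×ˢ
          (J.filter (fun t => D t ⊆ S))).filter (fun z => z.1 ≠ z.2 ∧ conf z.1 z.2)) : ℝ)) =
        ∑ z ∈ (J ×ˢ J).filter (fun z => z.1 ≠ z.2 ∧ conf z.1 z.2), q ^ #(D z.1 ∪ D z.2) := by
      have : (fun S : Finset ι => (#(((J.filter (fun t => D t ⊆ S)) ×ˢ
          (J.filter (fun t => D t ⊆ S))).filter (fun z => z.1 ≠ z.2 ∧ conf z.1 z.2)) : ℝ)) =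
          fun S => ∑ z ∈ (J ×ˢ J).filter (fun z => z.1 ≠ z.2 ∧ conf z.1 z.2),
            (if D z.1 ∪ D z.2 ⊆ S then (1 : ℝ) else 0) := by
        funext S
        rw [Finset.sum_boole]
        congr 2
        ext z
        simp only [Finset.mem_filter, Finset.mem_product, Finset.union_subset_iff]
        tauto
      rw [this, Ex_sum]
      apply Finset.sum_congr rfl
      intro z _
      rw [← Pb_subset q (D z.1 ∪ D z.2)]
      unfold Pb
      refine Ex_congr (fun S => ?_)
      by_cases hS : D z.1 ∪ D z.2 ⊆ S <;> simp [hS]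
    rw [← e1, ← e2]
    have e3 : Ex q (fun S => (#(((J.filter (fun t => D t ⊆ S)) ×ˢ
          (J.filter (fun t => D t ⊆ S))).filter (fun z => z.1 ≠ z.2 ∧ conf z.1 z.2)) : ℝ)) / 2
        = Ex q (fun S => (1 / 2 : ℝ) * (#(((J.filter (fun t => D t ⊆ S)) ×ˢ
          (J.filter (fun t => D t ⊆ S))).filter (fun z => z.1 ≠ z.2 ∧ conf z.1 z.2)) : ℝ)) := by
      rw [Ex_mul_left]
      ring
    rw [e3, ← Ex_sub]
    apply Ex_mono h0 h1
    intro S
    have h := hI3 S
    have h' : (2 : ℝ) * #(J.filter (fun t => D t ⊆ S)) ≤ 2 * #(I S) +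
        #(((J.filter (fun t => D t ⊆ S)) ×ˢ
          (J.filter (fun t => D t ⊆ S))).filter (fun z => z.1 ≠ z.2 ∧ conf z.1 z.2)) := by
      exact_mod_cast h
    linarith

end MP329
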