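import Pool.Agent.Lib.MP_329b4d_pr.SpecC

/-!
# MP_329b4d_pr: C2, direct merges
-/

namespace MP329

open Finset

open Classical in
theorem directPairs (h1 : ConflictFree) : DirectPairs := by
  intro V _ _ q k 𝓑 hq hq1 hk1 hk2 hcard hdisj
  -- the family of pairs
  obtain ⟨J, hJ⟩ : ∃ J : Finset (Sym2 V), J = 𝓑.biUnion (fun B => B.offDiag.image (Function.uncurry Sym2.mk)) :=
    ⟨_, rfl⟩
  have hmemJ : ∀ a b : V, s(a, b) ∈ J → a ≠ b ∧ ∃ B ∈ 𝓑, a ∈ B ∧ b ∈ B := by
    intro a b h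
    rw [hJ, Finset.mem_biUnion] at h
    obtain ⟨B, hB, h⟩ := h
    rw [Finset.mem_image] at h
    obtain ⟨⟨x, y⟩, hxy, he⟩ := h
    rw [Finset.mem_offDiag] at hxy
    obtain ⟨hx, hy, hne⟩ := hxy
    simp only [Function.uncurry] at hx hy hne he
    rcases Sym2.eq_iff.mp he with ⟨rfl, rfl⟩ | ⟨rfl, rfl⟩
    · exact ⟨hne, B, hB, hx, hy⟩
    · exact ⟨fun h => hne h.symm, B, hB, hy, hx⟩
  have hk50 : (50 : ℝ) ≤ k := by
    have : 1 ≤ 20 * (1 / 1000) * (k : ℝ) := by
      refine hk1.trans ?_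
      have : (0 : ℝ) ≤ k := Nat.cast_nonneg k
      nlinarith
    linarith
  have hkn : 50 ≤ k := by exact_mod_cast hk50
  -- number of pairs
  have hJcard : (#J : ℝ) = #𝓑 * ((k : ℝ) * (k - 1) / 2) := by
    have e1 : #J = ∑ B ∈ 𝓑, #(B.offDiag.image (Function.uncurry Sym2.mk)) := by
      rw [hJ]
      apply Finset.card_biUnion
      intro B hB B' hB' hne
      rw [Function.onFun, Finset.disjoint_left]
      intro e he he'
      rw [Finset.mem_image] at he he'
      obtain ⟨⟨x, y⟩, hxy, he⟩ := he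
      obtain ⟨⟨x', y'⟩, hxy', he'⟩ := he'
      rw [Finset.mem_offDiag] at hxy hxy'
      have hd := Finset.disjoint_left.mp (hdisj B hB B' hB' hne)
      rw [← he'] at he
      simp only [Function.uncurry] at he
      rcases Sym2.eq_iff.mp he with ⟨h, -⟩ | ⟨h, -⟩
      · simp only at h hxy hxy'
        exact hd hxy.1 (h ▸ hxy'.1)
      · simp only at h hxy hxy'
        exact hd hxy.1 (h ▸ hxy'.2.1)
    have e2 : ∀ B ∈ 𝓑, #(B.offDiag.image (Function.uncurry Sym2.mk)) = k.choose 2 := by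
      intro B hB
      rw [Sym2.card_image_offDiag, hcard B hB]
    rw [e1, Finset.sum_congr rfl e2, Finset.sum_const, smul_eq_mul]
    push_cast
    rw [Nat.cast_choose_two]
  -- the conflicting pairs
  obtain ⟨conf, hconf⟩ : ∃ conf : Sym2 V → Sym2 V → Prop,
    conf = fun t t' => ∃ v, v ∈ t ∧ v ∈ t' := ⟨_, rfl⟩
  have hN : (#((J ×ˢ J).filter (fun z => z.1 ≠ z.2 ∧ conf z.1 z.2)) : ℝ) ≤
      #𝓑 * ((k : ℝ) * ((k - 1) * (k - 2))) := by
    have hsub : (J ×ˢ J).filter (fun z => z.1 ≠ z.2 ∧ conf z.1 z.2) ⊆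
        𝓑.biUnion (fun B => B.biUnion fun a => (B.erase a).biUnion fun b =>
          ((B.erase a).erase b).image (fun c => (s(a, b), s(a, c)))) := by
      rintro ⟨e, e'⟩ hz
      simp only [Finset.mem_filter, Finset.mem_product, hconf] at hz
      obtain ⟨⟨he, he'⟩, hne, v, hv, hv'⟩ := hz
      obtain ⟨b, rfl⟩ := Sym2.mem_iff_exists.mp hv
      obtain ⟨c, rfl⟩ := Sym2.mem_iff_exists.mp hv'
      obtain ⟨hvb, B, hB, hvB, hbB⟩ := hmemJ _ _ he
      obtain ⟨hvc, B', hB', hvB', hcB'⟩ := hmemJ _ _ he'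
      have hBB : B = B' := by
        by_contra hcon
        exact Finset.disjoint_left.mp (hdisj B hB B' hB' hcon) hvB hvB'
      subst hBB
      have hbc : c ≠ b := by
        rintro rfl
        exact hne rfl
      simp only [Finset.mem_biUnion, Finset.mem_image, Finset.mem_erase]
      exact ⟨B, hB, v, hvB, b, ⟨hvb.symm, hbB⟩, c, ⟨hbc, hvc.symm, hcB'⟩, rfl⟩
    have hle := Finset.card_le_card hsub
    have hle2 : #(𝓑.biUnion (fun B => B.biUnion fun a => (B.erase a).biUnion fun b =>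
          ((B.erase a).erase b).image (fun c => (s(a, b), s(a, c))))) ≤
          #𝓑 * (k * ((k - 1) * (k - 2))) := by
      apply Finset.card_biUnion_le_card_mul
      intro B hB
      have hBk := hcard B hB
      rw [← hBk]
      apply Finset.card_biUnion_le_card_mul
      intro a ha
      have h1 : #(B.erase a) = #B - 1 := Finset.card_erase_of_mem ha
      rw [← h1]
      apply Finset.card_biUnion_le_card_mul
      intro b hb
      refine Finset.card_image_le.trans ?_
      rw [Finset.card_erase_of_mem hb, h1]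
      omega
    have h3 : (#((J ×ˢ J).filter (fun z => z.1 ≠ z.2 ∧ conf z.1 z.2)) : ℝ) ≤
        ((#𝓑 * (k * ((k - 1) * (k - 2))) : ℕ) : ℝ) := by
      exact_mod_cast hle.trans hle2
    refine h3.trans (le_of_eq ?_)
    have hk1' : 1 ≤ k := by omega
    have hk2' : 2 ≤ k := by omega
    push_cast [Nat.cast_sub hk1', Nat.cast_sub hk2']
    ring
  obtain ⟨I, hI1, hI2⟩ := h1 (Sym2 V) (Sym2 V) q J (fun t => {t}) conf hq.le (by linarith) (by
    intro t t' h
    rw [hconf] at h ⊢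
    obtain ⟨v, h1, h2⟩ := h
    exact ⟨v, h2, h1⟩)
  refine ⟨I, ?_, ?_⟩
  · intro S
    obtain ⟨hIJ, hIS, hIc⟩ := hI1 S
    refine ⟨?_, ?_, ?_⟩
    · intro e he
      exact Finset.singleton_subset_iff.mp (hIS e he)
    · intro e he
      have heJ := hIJ he
      induction e using Sym2.ind with
      | _ a b =>
        obtain ⟨hab, B, hB, ha, hb⟩ := hmemJ a b heJ
        refine ⟨by simpa using hab, B, hB, ?_⟩
        intro v hv
        rcases Sym2.mem_iff.mp hv with rfl | rfl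
        · exact ha
        · exact hb
    · intro e he e' he' hne v hv hv'
      have := hIc e he e' he' hne
      rw [hconf] at this
      exact this ⟨v, hv, hv'⟩
  · refine le_trans ?_ hI2
    have e1 : ∑ t ∈ J, q ^ #({t} : Finset (Sym2 V)) = q * #J := by
      simp only [Finset.card_singleton, pow_one, Finset.sum_const, nsmul_eq_mul]
      ring
    have e2 : ∑ z ∈ (J ×ˢ J).filter (fun z => z.1 ≠ z.2 ∧ conf z.1 z.2),
        q ^ #(({z.1} : Finset (Sym2 V)) ∪ {z.2}) =
        q ^ 2 * #((J ×ˢ J).filter (fun z => z.1 ≠ z.2 ∧ conf z.1 z.2)) := by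
      have : ∀ z ∈ (J ×ˢ J).filter (fun z => z.1 ≠ z.2 ∧ conf z.1 z.2),
          q ^ #(({z.1} : Finset (Sym2 V)) ∪ {z.2}) = q ^ 2 := by
        intro z hz
        have hne := (Finset.mem_filter.mp hz).2.1
        rw [Finset.card_union_of_disjoint (by simpa using hne)]
        simp
      rw [Finset.sum_congr rfl this, Finset.sum_const, nsmul_eq_mul]
      ring
    have goal1 : (#𝓑 * k : ℝ) / 50 ≤ q * #J -
        q ^ 2 * #((J ×ˢ J).filter (fun z => z.1 ≠ z.2 ∧ conf z.1 z.2)) / 2 := by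
      rw [hJcard]
      have hB0 : (0 : ℝ) ≤ #𝓑 := Nat.cast_nonneg _
      have hx : 0 < q * k := by
        have : (0 : ℝ) < k := by linarith
        positivity
      -- arithmetic
      have h5 : (1 : ℝ) / 50 ≤ q * (k - 1) / 2 * (1 - q * (k - 2)) := by
        have a1 : (49 : ℝ) / 1000 ≤ q * (k - 1) := by nlinarith
        have a2 : (19 : ℝ) / 20 ≤ 1 - q * (k - 2) := by nlinarith
        nlinarith
      have h6 : (#𝓑 * k : ℝ) * (1 / 50) ≤ (#𝓑 * k : ℝ) * (q * (k - 1) / 2 * (1 - q * (k - 2))) :=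
        mul_le_mul_of_nonneg_left h5 (by positivity)
      have h7 : q ^ 2 * (#((J ×ˢ J).filter (fun z => z.1 ≠ z.2 ∧ conf z.1 z.2)) : ℝ) ≤
          q ^ 2 * (#𝓑 * ((k : ℝ) * ((k - 1) * (k - 2)))) :=
        mul_le_mul_of_nonneg_left hN (by positivity)
      nlinarith
    rw [e1]
    refine goal1.trans (le_of_eq ?_)
    rw [← e2]
    congr! 4

end MP329
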