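import Pool.Agent.Lib.MP_329b4d_pr.SpecC

/-!
# MP_329b4d_pr: C3, rotation triples
-/

namespace MP329

open Finset

namespace C3

section cell

variable {V : Type} [DecidableEq V]

/-- The two coins of a triple. -/
def coins (nx : V → V) (t : V × V × V) : Finset (Sym2 V) := {s(t.1, t.2.1), s(nx t.2.1, t.2.2)}

/-- The geometric hypotheses on one cell. -/
structure Cell (A B X : Finset V) (nx : V → V) : Prop where
  AB : Disjoint A B
  ABX : Disjoint (A ∪ B) X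
  inj : ∀ x ∈ X, ∀ x' ∈ X, nx x = nx x' → x = x'
  nAB : ∀ x ∈ X, nx x ∉ A ∪ B

variable {A B X : Finset V} {nx : V → V}

theorem f1 (h : Cell A B X nx) {a a' x x' : V} (ha : a ∈ A) (hx' : x' ∈ X)
    (e : s(a, x) = s(a', x')) : a = a' ∧ x = x' := by
  rw [Sym2.eq_iff] at e
  rcases e with e | ⟨e1, _⟩
  · exact e
  · exfalso
    subst e1
    exact (Finset.disjoint_left.mp h.ABX (mem_union_left _ ha)) hx'

theorem f2 (h : Cell A B X nx) {b b' x x' : V} (hb' : b' ∈ B) (hx : x ∈ X)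
    (hx' : x' ∈ X) (e : s(nx x, b) = s(nx x', b')) : x = x' ∧ b = b' := by
  rw [Sym2.eq_iff] at e
  rcases e with ⟨e1, e2⟩ | ⟨e1, _⟩
  · exact ⟨h.inj x hx x' hx' e1, e2⟩
  · exfalso
    exact h.nAB x hx (mem_union_right _ (e1 ▸ hb'))

theorem f3 (h : Cell A B X nx) {a x x' b' : V} (ha : a ∈ A) (hx' : x' ∈ X) (hb' : b' ∈ B) :
    s(a, x) ≠ s(nx x', b') := by
  intro e
  rw [Sym2.eq_iff] at e
  rcases e with ⟨e1, _⟩ | ⟨e1, _⟩
  · exact h.nAB x' hx' (mem_union_left _ (e1 ▸ ha))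
  · exact (Finset.disjoint_left.mp h.AB ha) (e1 ▸ hb')

theorem card_coins (h : Cell A B X nx) {t : V × V × V} (ht : t ∈ A ×ˢ X ×ˢ B) :
    #(coins nx t) = 2 := by
  simp only [mem_product] at ht
  exact card_pair (f3 h ht.1 ht.2.1 ht.2.2)

theorem three_le {α : Type} [DecidableEq α] {s : Finset α} {a b c : α} (ha : a ∈ s) (hb : b ∈ s)
    (hc : c ∈ s) (hab : a ≠ b) (hac : a ≠ c) (hbc : b ≠ c) : 3 ≤ #s := by
  have h1 : ({a, b, c} : Finset α) ⊆ s := by
    intro y hy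
    simp only [mem_insert, mem_singleton] at hy
    rcases hy with rfl | rfl | rfl <;> assumption
  have h2 : #({a, b, c} : Finset α) = 3 := by
    rw [card_insert_of_notMem (by simp [hab, hac]), card_insert_of_notMem (by simp [hbc]),
      card_singleton]
  rw [← h2]
  exact card_le_card h1

theorem four_le {α : Type} [DecidableEq α] {s : Finset α} {a b c d : α} (ha : a ∈ s) (hb : b ∈ s)
    (hc : c ∈ s) (hd : d ∈ s) (hab : a ≠ b) (hac : a ≠ c) (had : a ≠ d) (hbc : b ≠ c)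
    (hbd : b ≠ d) (hcd : c ≠ d) : 4 ≤ #s := by
  have h1 : ({a, b, c, d} : Finset α) ⊆ s := by
    intro y hy
    simp only [mem_insert, mem_singleton] at hy
    rcases hy with rfl | rfl | rfl | rfl <;> assumption
  have h2 : #({a, b, c, d} : Finset α) = 4 := by
    rw [card_insert_of_notMem (by simp [hab, hac, had]),
      card_insert_of_notMem (by simp [hbc, hbd]), card_insert_of_notMem (by simp [hcd]),
      card_singleton]
  rw [← h2]
  exact card_le_card h1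

theorem conf_le (h : Cell A B X nx) {q : ℝ} (h0 : 0 ≤ q) (h1 : q ≤ 1)
    {z : (V × V × V) × (V × V × V)} (hz1 : z.1 ∈ A ×ˢ X ×ˢ B) (hz2 : z.2 ∈ A ×ˢ X ×ˢ B)
    (hne : z.1 ≠ z.2)
    (hc : z.1.1 = z.2.1 ∨ z.1.2.1 = z.2.2.1 ∨ z.1.2.2 = z.2.2.2) :
    q ^ #(coins nx z.1 ∪ coins nx z.2) ≤
      (if z.1.1 = z.2.1 ∧ z.1.2.1 = z.2.2.1 then q ^ 3 else 0) +
      (if z.1.2.1 = z.2.2.1 ∧ z.1.2.2 = z.2.2.2 then q ^ 3 else 0) +
      (if z.1.2.1 = z.2.2.1 then q ^ 4 else 0) +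
      (if z.1.1 = z.2.1 then q ^ 4 else 0) +
      (if z.1.2.2 = z.2.2.2 then q ^ 4 else 0) := by
  obtain ⟨⟨a, x, b⟩, ⟨a', x', b'⟩⟩ := z
  simp only [mem_product] at hz1 hz2
  obtain ⟨ha, hx, hb⟩ := hz1
  obtain ⟨ha', hx', hb'⟩ := hz2
  dsimp only at ha hx hb ha' hx' hb' hc ⊢
  have q3 : 0 ≤ q ^ 3 := pow_nonneg h0 3
  have q4 : 0 ≤ q ^ 4 := pow_nonneg h0 4
  have m1 : s(a, x) ∈ coins nx (a, x, b) ∪ coins nx (a', x', b') := by simp [coins]
  have m2 : s(nx x, b) ∈ coins nx (a, x, b) ∪ coins nx (a', x', b') := by simp [coins]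
  have m3 : s(a', x') ∈ coins nx (a, x, b) ∪ coins nx (a', x', b') := by simp [coins]
  have m4 : s(nx x', b') ∈ coins nx (a, x, b) ∪ coins nx (a', x', b') := by simp [coins]
  have n12 : s(a, x) ≠ s(nx x, b) := f3 h ha hx hb
  have n14 : s(a, x) ≠ s(nx x', b') := f3 h ha hx' hb'
  have n32 : s(a', x') ≠ s(nx x, b) := f3 h ha' hx hb
  have n34 : s(a', x') ≠ s(nx x', b') := f3 h ha' hx' hb'
  have n13 : ¬ (a = a' ∧ x = x') → s(a, x) ≠ s(a', x') := fun hn e => hn (f1 h ha hx' e)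
  have n24 : ¬ (x = x' ∧ b = b') → s(nx x, b) ≠ s(nx x', b') :=
    fun hn e => hn (f2 h hb' hx hx' e)
  by_cases hxx : x = x'
  · by_cases haa : a = a'
    · by_cases hbb : b = b'
      · exact absurd (by rw [haa, hxx, hbb]) hne
      · have h3 : 3 ≤ #(coins nx (a, x, b) ∪ coins nx (a', x', b')) :=
          three_le m1 m2 m4 n12 n14 (n24 (fun hh => hbb hh.2))
        have h4 := pow_le_pow_of_le_one h0 h1 h3
        rw [if_pos ⟨haa, hxx⟩, if_neg (fun hh => hbb hh.2), if_pos hxx, if_pos haa, if_neg hbb]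
        linarith
    · by_cases hbb : b = b'
      · have h3 : 3 ≤ #(coins nx (a, x, b) ∪ coins nx (a', x', b')) :=
          three_le m1 m2 m3 n12 (n13 (fun hh => haa hh.1)) n32.symm
        have h4 := pow_le_pow_of_le_one h0 h1 h3
        rw [if_neg (fun hh => haa hh.1), if_pos ⟨hxx, hbb⟩, if_pos hxx, if_neg haa, if_pos hbb]
        linarith
      · have h3 : 4 ≤ #(coins nx (a, x, b) ∪ coins nx (a', x', b')) :=
          four_le m1 m2 m3 m4 n12 (n13 (fun hh => haa hh.1)) n14 n32.symm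
            (n24 (fun hh => hbb hh.2)) n34
        have h4 := pow_le_pow_of_le_one h0 h1 h3
        rw [if_neg (fun hh => haa hh.1), if_neg (fun hh => hbb hh.2), if_pos hxx, if_neg haa,
          if_neg hbb]
        linarith
  · have h3 : 4 ≤ #(coins nx (a, x, b) ∪ coins nx (a', x', b')) :=
      four_le m1 m2 m3 m4 n12 (n13 (fun hh => hxx hh.2)) n14 n32.symm
        (n24 (fun hh => hxx hh.1)) n34
    have h4 := pow_le_pow_of_le_one h0 h1 h3
    rw [if_neg (fun hh => hxx hh.2), if_neg (fun hh => hxx hh.1), if_neg hxx]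
    rcases hc with hc | hc | hc
    · rw [if_pos hc]
      have : 0 ≤ (if b = b' then q ^ 4 else (0 : ℝ)) := by split_ifs <;> simp [q4]
      linarith
    · exact absurd hc hxx
    · rw [if_pos hc]
      have : 0 ≤ (if a = a' then q ^ 4 else (0 : ℝ)) := by split_ifs <;> simp [q4]
      linarith

/-- Sum of a constant over a filtered set. -/
theorem sum_ite_const {α : Type} (T : Finset α) (p : α → Prop) [DecidablePred p] (c : ℝ) :
    ∑ z ∈ T, (if p z then c else 0) = (#(T.filter p) : ℝ) * c := by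
  rw [← sum_filter, sum_const, nsmul_eq_mul]

theorem count1 : #(((A ×ˢ X ×ˢ B) ×ˢ (A ×ˢ X ×ˢ B)).filter
    (fun z => z.1.1 = z.2.1 ∧ z.1.2.1 = z.2.2.1)) ≤ #A * (#X * (#B * #B)) := by
  rw [← card_product, ← card_product, ← card_product]
  refine card_le_card_of_injOn (fun z => (z.1.1, z.1.2.1, z.1.2.2, z.2.2.2)) ?_ ?_
  · intro z hz
    simp only [coe_filter, Set.mem_setOf_eq, mem_product, mem_coe] at hz ⊢
    tauto
  · intro z hz z' hz' e
    simp only [coe_filter, Set.mem_setOf_eq, mem_product] at hz hz'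
    simp only [Prod.mk.injEq] at e
    obtain ⟨⟨a, x, b⟩, ⟨a', x', b'⟩⟩ := z
    obtain ⟨⟨c, y, d⟩, ⟨c', y', d'⟩⟩ := z'
    simp only at hz hz' e
    obtain ⟨e1, e2, e3, e4⟩ := e
    obtain ⟨-, e5, e6⟩ := hz
    obtain ⟨-, e7, e8⟩ := hz'
    subst e1 e2 e3 e4 e5 e6 e7 e8
    rfl

theorem count2 : #(((A ×ˢ X ×ˢ B) ×ˢ (A ×ˢ X ×ˢ B)).filter
    (fun z => z.1.2.1 = z.2.2.1 ∧ z.1.2.2 = z.2.2.2)) ≤ #A * (#A * (#X * #B)) := by
  rw [← card_product, ← card_product, ← card_product]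
  refine card_le_card_of_injOn (fun z => (z.1.1, z.2.1, z.1.2.1, z.1.2.2)) ?_ ?_
  · intro z hz
    simp only [coe_filter, Set.mem_setOf_eq, mem_product, mem_coe] at hz ⊢
    tauto
  · intro z hz z' hz' e
    simp only [coe_filter, Set.mem_setOf_eq, mem_product] at hz hz'
    simp only [Prod.mk.injEq] at e
    obtain ⟨⟨a, x, b⟩, ⟨a', x', b'⟩⟩ := z
    obtain ⟨⟨c, y, d⟩, ⟨c', y', d'⟩⟩ := z'
    simp only at hz hz' e
    obtain ⟨e1, e2, e3, e4⟩ := e
    obtain ⟨-, e5, e6⟩ := hz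
    obtain ⟨-, e7, e8⟩ := hz'
    subst e1 e2 e3 e4 e5 e6 e7 e8
    rfl

theorem count3 : #(((A ×ˢ X ×ˢ B) ×ˢ (A ×ˢ X ×ˢ B)).filter
    (fun z => z.1.2.1 = z.2.2.1)) ≤ #A * (#A * (#X * (#B * #B))) := by
  rw [← card_product, ← card_product, ← card_product, ← card_product]
  refine card_le_card_of_injOn (fun z => (z.1.1, z.2.1, z.1.2.1, z.1.2.2, z.2.2.2)) ?_ ?_
  · intro z hz
    simp only [coe_filter, Set.mem_setOf_eq, mem_product, mem_coe] at hz ⊢
    tauto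
  · intro z hz z' hz' e
    simp only [coe_filter, Set.mem_setOf_eq, mem_product] at hz hz'
    simp only [Prod.mk.injEq] at e
    obtain ⟨⟨a, x, b⟩, ⟨a', x', b'⟩⟩ := z
    obtain ⟨⟨c, y, d⟩, ⟨c', y', d'⟩⟩ := z'
    simp only at hz hz' e
    obtain ⟨e1, e2, e3, e4, e9⟩ := e
    obtain ⟨-, e5⟩ := hz
    obtain ⟨-, e7⟩ := hz'
    subst e1 e2 e3 e4 e5 e7 e9
    rfl

theorem count4 : #(((A ×ˢ X ×ˢ B) ×ˢ (A ×ˢ X ×ˢ B)).filter
    (fun z => z.1.1 = z.2.1)) ≤ #A * (#X * (#X * (#B * #B))) := by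
  rw [← card_product, ← card_product, ← card_product, ← card_product]
  refine card_le_card_of_injOn (fun z => (z.1.1, z.1.2.1, z.2.2.1, z.1.2.2, z.2.2.2)) ?_ ?_
  · intro z hz
    simp only [coe_filter, Set.mem_setOf_eq, mem_product, mem_coe] at hz ⊢
    tauto
  · intro z hz z' hz' e
    simp only [coe_filter, Set.mem_setOf_eq, mem_product] at hz hz'
    simp only [Prod.mk.injEq] at e
    obtain ⟨⟨a, x, b⟩, ⟨a', x', b'⟩⟩ := z
    obtain ⟨⟨c, y, d⟩, ⟨c', y', d'⟩⟩ := z'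
    simp only at hz hz' e
    obtain ⟨e1, e2, e3, e4, e9⟩ := e
    obtain ⟨-, e5⟩ := hz
    obtain ⟨-, e7⟩ := hz'
    subst e1 e2 e3 e4 e5 e7 e9
    rfl

theorem count5 : #(((A ×ˢ X ×ˢ B) ×ˢ (A ×ˢ X ×ˢ B)).filter
    (fun z => z.1.2.2 = z.2.2.2)) ≤ #A * (#A * (#X * (#X * #B))) := by
  rw [← card_product, ← card_product, ← card_product, ← card_product]
  refine card_le_card_of_injOn (fun z => (z.1.1, z.2.1, z.1.2.1, z.2.2.1, z.1.2.2)) ?_ ?_
  · intro z hz
    simp only [coe_filter, Set.mem_setOf_eq, mem_product, mem_coe] at hz ⊢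
    tauto
  · intro z hz z' hz' e
    simp only [coe_filter, Set.mem_setOf_eq, mem_product] at hz hz'
    simp only [Prod.mk.injEq] at e
    obtain ⟨⟨a, x, b⟩, ⟨a', x', b'⟩⟩ := z
    obtain ⟨⟨c, y, d⟩, ⟨c', y', d'⟩⟩ := z'
    simp only at hz hz' e
    obtain ⟨e1, e2, e3, e4, e9⟩ := e
    obtain ⟨-, e5⟩ := hz
    obtain ⟨-, e7⟩ := hz'
    subst e1 e2 e3 e4 e5 e7 e9
    rfl

/-- The sum over the conflicting pairs of one cell. -/
theorem conf_sum (h : Cell A B X nx) {q : ℝ} (h0 : 0 ≤ q) (h1 : q ≤ 1) {s w : ℕ} (hA : #A = s)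
    (hB : #B = s) (hX : #X = w) (K : Finset ((V × V × V) × (V × V × V)))
    (hK : ∀ z ∈ K, z.1 ∈ A ×ˢ X ×ˢ B ∧ z.2 ∈ A ×ˢ X ×ˢ B ∧ z.1 ≠ z.2 ∧
      (z.1.1 = z.2.1 ∨ z.1.2.1 = z.2.2.1 ∨ z.1.2.2 = z.2.2.2)) :
    ∑ z ∈ K, q ^ #(coins nx z.1 ∪ coins nx z.2) ≤
      2 * (w * s ^ 3 * q ^ 3) + w * s ^ 4 * q ^ 4 + 2 * (w ^ 2 * s ^ 3 * q ^ 4) := by
  have q3 : 0 ≤ q ^ 3 := pow_nonneg h0 3
  have q4 : 0 ≤ q ^ 4 := pow_nonneg h0 4
  have hsub : K ⊆ (A ×ˢ X ×ˢ B) ×ˢ (A ×ˢ X ×ˢ B) := by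
    intro z hz
    rw [mem_product]
    exact ⟨(hK z hz).1, (hK z hz).2.1⟩
  calc ∑ z ∈ K, q ^ #(coins nx z.1 ∪ coins nx z.2)
      ≤ ∑ z ∈ K, ((if z.1.1 = z.2.1 ∧ z.1.2.1 = z.2.2.1 then q ^ 3 else 0) +
      (if z.1.2.1 = z.2.2.1 ∧ z.1.2.2 = z.2.2.2 then q ^ 3 else 0) +
      (if z.1.2.1 = z.2.2.1 then q ^ 4 else 0) +
      (if z.1.1 = z.2.1 then q ^ 4 else 0) +
      (if z.1.2.2 = z.2.2.2 then q ^ 4 else 0)) := by
        refine sum_le_sum fun z hz => ?_
        obtain ⟨k1, k2, k3, k4⟩ := hK z hz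
        exact conf_le h h0 h1 k1 k2 k3 k4
    _ ≤ ∑ z ∈ (A ×ˢ X ×ˢ B) ×ˢ (A ×ˢ X ×ˢ B),
        ((if z.1.1 = z.2.1 ∧ z.1.2.1 = z.2.2.1 then q ^ 3 else 0) +
      (if z.1.2.1 = z.2.2.1 ∧ z.1.2.2 = z.2.2.2 then q ^ 3 else 0) +
      (if z.1.2.1 = z.2.2.1 then q ^ 4 else 0) +
      (if z.1.1 = z.2.1 then q ^ 4 else 0) +
      (if z.1.2.2 = z.2.2.2 then q ^ 4 else 0)) := by
        refine sum_le_sum_of_subset_of_nonneg hsub fun z _ _ => ?_
        have e : ∀ (p : Prop) [Decidable p] (c : ℝ), 0 ≤ c → 0 ≤ (if p then c else 0) := by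
          intro p _ c hc
          split_ifs <;> simp [hc]
        have := e (z.1.1 = z.2.1 ∧ z.1.2.1 = z.2.2.1) _ q3
        have := e (z.1.2.1 = z.2.2.1 ∧ z.1.2.2 = z.2.2.2) _ q3
        have := e (z.1.2.1 = z.2.2.1) _ q4
        have := e (z.1.1 = z.2.1) _ q4
        have := e (z.1.2.2 = z.2.2.2) _ q4
        linarith
    _ ≤ 2 * (w * s ^ 3 * q ^ 3) + w * s ^ 4 * q ^ 4 + 2 * (w ^ 2 * s ^ 3 * q ^ 4) := by
        rw [sum_add_distrib, sum_add_distrib, sum_add_distrib, sum_add_distrib,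
          sum_ite_const, sum_ite_const, sum_ite_const, sum_ite_const, sum_ite_const]
        have c1 : (#(((A ×ˢ X ×ˢ B) ×ˢ (A ×ˢ X ×ˢ B)).filter
            (fun z => z.1.1 = z.2.1 ∧ z.1.2.1 = z.2.2.1)) : ℝ) ≤ w * s ^ 3 := by
          have := count1 (A := A) (B := B) (X := X)
          rw [hA, hB, hX] at this
          calc (_ : ℝ) ≤ ((s * (w * (s * s)) : ℕ) : ℝ) := by exact_mod_cast this
            _ = w * s ^ 3 := by push_cast; ring
        have c2 : (#(((A ×ˢ X ×ˢ B) ×ˢ (A ×ˢ X ×ˢ B)).filter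
            (fun z => z.1.2.1 = z.2.2.1 ∧ z.1.2.2 = z.2.2.2)) : ℝ) ≤ w * s ^ 3 := by
          have := count2 (A := A) (B := B) (X := X)
          rw [hA, hB, hX] at this
          calc (_ : ℝ) ≤ ((s * (s * (w * s)) : ℕ) : ℝ) := by exact_mod_cast this
            _ = w * s ^ 3 := by push_cast; ring
        have c3 : (#(((A ×ˢ X ×ˢ B) ×ˢ (A ×ˢ X ×ˢ B)).filter
            (fun z => z.1.2.1 = z.2.2.1)) : ℝ) ≤ w * s ^ 4 := by
          have := count3 (A := A) (B := B) (X := X)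
          rw [hA, hB, hX] at this
          calc (_ : ℝ) ≤ ((s * (s * (w * (s * s))) : ℕ) : ℝ) := by exact_mod_cast this
            _ = w * s ^ 4 := by push_cast; ring
        have c4 : (#(((A ×ˢ X ×ˢ B) ×ˢ (A ×ˢ X ×ˢ B)).filter
            (fun z => z.1.1 = z.2.1)) : ℝ) ≤ w ^ 2 * s ^ 3 := by
          have := count4 (A := A) (B := B) (X := X)
          rw [hA, hB, hX] at this
          calc (_ : ℝ) ≤ ((s * (w * (w * (s * s))) : ℕ) : ℝ) := by exact_mod_cast this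
            _ = w ^ 2 * s ^ 3 := by push_cast; ring
        have c5 : (#(((A ×ˢ X ×ˢ B) ×ˢ (A ×ˢ X ×ˢ B)).filter
            (fun z => z.1.2.2 = z.2.2.2)) : ℝ) ≤ w ^ 2 * s ^ 3 := by
          have := count5 (A := A) (B := B) (X := X)
          rw [hA, hB, hX] at this
          calc (_ : ℝ) ≤ ((s * (s * (w * (w * s))) : ℕ) : ℝ) := by exact_mod_cast this
            _ = w ^ 2 * s ^ 3 := by push_cast; ring
        have d1 := mul_le_mul_of_nonneg_right c1 q3
        have d2 := mul_le_mul_of_nonneg_right c2 q3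
        have d3 := mul_le_mul_of_nonneg_right c3 q4
        have d4 := mul_le_mul_of_nonneg_right c4 q4
        have d5 := mul_le_mul_of_nonneg_right c5 q4
        linarith

open Classical in
/-- The triples of one cell. -/
noncomputable def JC {Λ : Type} (A B X : Finset V) (lab : V → Λ) : Finset (V × V × V) :=
  (A ×ˢ X ×ˢ B).filter (fun t => lab t.2.1 ≠ lab t.1 ∧ lab t.2.1 ≠ lab t.2.2)

open Classical in
theorem card_filter_ne {Λ : Type} {A : Finset V} {lab : V → Λ}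
    (hl : ∀ u ∈ A, ∀ v ∈ A, lab u = lab v → u = v) (y : Λ) :
    #A - 1 ≤ #(A.filter (fun a => y ≠ lab a)) := by
  have h1 : #(A.filter (fun a => y = lab a)) ≤ 1 := by
    rw [card_le_one]
    intro a ha b hb
    simp only [mem_filter] at ha hb
    exact hl a ha.1 b hb.1 (ha.2.symm.trans hb.2)
  have h2 : #(A.filter (fun a => y = lab a)) + #(A.filter (fun a => y ≠ lab a)) = #A :=
    card_filter_add_card_filter_not (s := A) (fun a => y = lab a)
  omega

theorem card_JC {Λ : Type} {A B X : Finset V} {lab : V → Λ}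
    (hl : ∀ u ∈ A ∪ B, ∀ v ∈ A ∪ B, lab u = lab v → u = v) :
    #X * ((#A - 1) * (#B - 1)) ≤ #(JC A B X lab) := by
  classical
  have h1 : #(JC A B X lab) = ∑ x ∈ X, #((JC A B X lab).filter (fun t => t.2.1 = x)) := by
    refine card_eq_sum_card_fiberwise (f := fun t : V × V × V => t.2.1) ?_
    intro t ht
    simp only [JC, coe_filter, Set.mem_setOf_eq, mem_product] at ht
    exact ht.1.2.1
  rw [h1]
  have h2 : ∀ x ∈ X, (#A - 1) * (#B - 1) ≤ #((JC A B X lab).filter (fun t => t.2.1 = x)) := by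
    intro x hx
    calc (#A - 1) * (#B - 1) ≤ #(A.filter (fun a => lab x ≠ lab a)) *
          #(B.filter (fun b => lab x ≠ lab b)) := by
          refine Nat.mul_le_mul ?_ ?_
          · exact card_filter_ne (fun u hu v hv => hl u (mem_union_left _ hu) v
              (mem_union_left _ hv)) _
          · exact card_filter_ne (fun u hu v hv => hl u (mem_union_right _ hu) v
              (mem_union_right _ hv)) _
      _ = #((A.filter (fun a => lab x ≠ lab a)) ×ˢ (B.filter (fun b => lab x ≠ lab b))) :=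
          (card_product _ _).symm
      _ ≤ #((JC A B X lab).filter (fun t => t.2.1 = x)) := by
          refine card_le_card_of_injOn (fun z => (z.1, x, z.2)) ?_ ?_
          · intro z hz
            simp only [coe_product, coe_filter, Set.mem_prod, Set.mem_setOf_eq] at hz
            simp only [JC, coe_filter, mem_filter, mem_product, Set.mem_setOf_eq]
            exact ⟨⟨⟨hz.1.1, hx, hz.2.1⟩, ⟨hz.1.2, hz.2.2⟩⟩, True.intro⟩
          · intro z _ z' _ e
            simp only [Prod.mk.injEq] at e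
            exact Prod.ext e.1 e.2.2
  calc #X * ((#A - 1) * (#B - 1)) = ∑ _x ∈ X, (#A - 1) * (#B - 1) := by
        rw [sum_const, smul_eq_mul]
    _ ≤ _ := sum_le_sum h2

end cell

/-- The arithmetic of one cell. -/
theorem arith {q s w : ℝ} (hq : 0 < q) (hq1 : q ≤ 1 / 1000) (hs : 8 ≤ s) (hw : 0 ≤ w)
    (h1 : 38 * q * s ≤ 1) (h2 : 10 * w * s * q ^ 2 ≤ 1) (h3 : 1 ≤ 10 * (w + 1) * s * q ^ 2) :
    s / 20 ≤ w * (s - 1) ^ 2 * q ^ 2 -
      (2 * (w * s ^ 3 * q ^ 3) + w * s ^ 4 * q ^ 4 + 2 * (w ^ 2 * s ^ 3 * q ^ 4)) / 2 := by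
  set A := w * s * q ^ 2 with hA
  set B := s * q with hB
  have hs0 : 0 < s := by linarith
  have hA1 : A ≤ 1 / 10 := by
    rw [hA]
    linarith
  have hB1 : B ≤ 1 / 38 := by
    rw [hB]
    linarith
  have hB0 : 0 ≤ B := by positivity
  have hA0 : 0 ≤ A := by positivity
  have hBq : B * q ≤ 1 / 38000 := by
    calc B * q ≤ (1 / 38) * (1 / 1000) :=
          mul_le_mul hB1 hq1 hq.le (by norm_num)
      _ = 1 / 38000 := by norm_num
  have hA2 : 999 / 10000 ≤ A := by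
    have e : 10 * (w + 1) * s * q ^ 2 = 10 * A + 10 * (B * q) := by
      rw [hA, hB]
      ring
    rw [e] at h3
    linarith
  have hmain : 49 / 64 * (s * A) ≤ w * (s - 1) ^ 2 * q ^ 2 := by
    have e1 : (7 / 8 * s) ^ 2 ≤ (s - 1) ^ 2 := by
      apply pow_le_pow_left₀ (by positivity)
      linarith
    have e2 : w * (7 / 8 * s) ^ 2 * q ^ 2 ≤ w * (s - 1) ^ 2 * q ^ 2 := by
      apply mul_le_mul_of_nonneg_right _ (by positivity)
      exact mul_le_mul_of_nonneg_left e1 hw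
    calc 49 / 64 * (s * A) = w * (7 / 8 * s) ^ 2 * q ^ 2 := by
          rw [hA]
          ring
      _ ≤ _ := e2
  have hsub : (2 * (w * s ^ 3 * q ^ 3) + w * s ^ 4 * q ^ 4 + 2 * (w ^ 2 * s ^ 3 * q ^ 4)) / 2 =
      s * (A * B + A * B ^ 2 / 2 + A ^ 2) := by
    rw [hA, hB]
    ring
  rw [hsub]
  have e1 : A * B ≤ A * (1 / 38) := mul_le_mul_of_nonneg_left hB1 hA0
  have e2 : A * B ^ 2 ≤ A * (1 / 38) ^ 2 :=
    mul_le_mul_of_nonneg_left (pow_le_pow_left₀ hB0 hB1 2) hA0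
  have e3 : A ^ 2 ≤ A * (1 / 10) := by
    rw [sq]
    exact mul_le_mul_of_nonneg_left hA1 hA0
  have e4 : 1 / 20 ≤ 49 / 64 * A - (A * B + A * B ^ 2 / 2 + A ^ 2) := by
    have : A * (1 / 38) ^ 2 = A * (1 / 1444) := by norm_num
    linarith
  have e5 := mul_le_mul_of_nonneg_left e4 hs0.le
  calc s / 20 = s * (1 / 20) := by ring
    _ ≤ s * (49 / 64 * A - (A * B + A * B ^ 2 / 2 + A ^ 2)) := e5
    _ = 49 / 64 * (s * A) - s * (A * B + A * B ^ 2 / 2 + A ^ 2) := by ring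
    _ ≤ _ := by linarith

end C3

open C3 in
/-- Rotation triples. -/
theorem rotTriples (h : ConflictFree) : RotTriples := by
  classical
  intro V Λ κ _ _ _ q Γ A B X lab nx hq hq1 hsz hAB hdis hABX hlab hinj hnx
  have hcell : ∀ C ∈ Γ, Cell (A C) (B C) (X C) nx := by
    intro C hC
    exact ⟨hAB C hC C hC, hABX C hC, hinj C hC C hC, fun x hx => hnx C hC C hC x hx⟩
  have hq0 : 0 ≤ q := hq.le
  have hq1' : q ≤ 1 := by linarith
  set J : Finset (V × V × V) := Γ.biUnion (fun C => JC (A C) (B C) (X C) lab) with hJ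
  obtain ⟨I, hI1, hI2⟩ := h (Sym2 V) (V × V × V) q J (coins nx)
    (fun t t' => t.1 = t'.1 ∨ t.2.1 = t'.2.1 ∨ t.2.2 = t'.2.2) hq0 hq1'
    (by
      rintro t t' (e | e | e)
      · exact Or.inl e.symm
      · exact Or.inr (Or.inl e.symm)
      · exact Or.inr (Or.inr e.symm))
  have hmemJC : ∀ C, ∀ t, t ∈ JC (A C) (B C) (X C) lab ↔ (t.1 ∈ A C ∧ t.2.1 ∈ X C ∧ t.2.2 ∈ B C) ∧
      lab t.2.1 ≠ lab t.1 ∧ lab t.2.1 ≠ lab t.2.2 := by
    intro C t
    simp only [JC, mem_filter, mem_product]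
  refine ⟨I, ?_, ?_, ?_⟩
  · intro S t ht
    obtain ⟨h1, h2, -⟩ := hI1 S
    have h3 := h1 ht
    rw [hJ, mem_biUnion] at h3
    obtain ⟨C, hC, h4⟩ := h3
    rw [hmemJC] at h4
    have h5 := h2 t ht
    refine ⟨⟨C, hC, h4.1⟩, h4.2.1, h4.2.2, h5 ?_, h5 ?_⟩
    · simp [coins]
    · simp [coins]
  · intro S t ht t' ht' hne
    obtain ⟨-, -, h3⟩ := hI1 S
    have h4 := h3 t ht t' ht' hne
    push Not at h4
    exact h4
  · refine le_trans ?_ hI2
    -- the main term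
    have hdJ : ∀ C ∈ Γ, ∀ C' ∈ Γ, C ≠ C' →
        Disjoint (JC (A C) (B C) (X C) lab) (JC (A C') (B C') (X C') lab) := by
      intro C hC C' hC' hne
      rw [disjoint_left]
      intro t ht ht'
      rw [hmemJC] at ht ht'
      exact (disjoint_left.mp (hdis C hC C' hC' hne).1 ht.1.1) ht'.1.1
    have hmain : ∑ t ∈ J, q ^ #(coins nx t) =
        ∑ C ∈ Γ, (#(JC (A C) (B C) (X C) lab) : ℝ) * q ^ 2 := by
      rw [hJ, sum_biUnion hdJ]
      refine sum_congr rfl fun C hC => ?_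
      rw [← nsmul_eq_mul, ← sum_const]
      refine sum_congr rfl fun t ht => ?_
      rw [card_coins (hcell C hC)]
      rw [hmemJC] at ht
      simp only [mem_product]
      exact ht.1
    rw [hmain]
    set K := (J ×ˢ J).filter (fun z => z.1 ≠ z.2 ∧
      (z.1.1 = z.2.1 ∨ z.1.2.1 = z.2.2.1 ∨ z.1.2.2 = z.2.2.2)) with hK
    have hconf : ∑ z ∈ K, q ^ #(coins nx z.1 ∪ coins nx z.2) =
        ∑ C ∈ Γ, ∑ z ∈ K.filter (fun z => z.1 ∈ JC (A C) (B C) (X C) lab),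
          q ^ #(coins nx z.1 ∪ coins nx z.2) := by
      rw [← sum_biUnion]
      · congr 1
        ext z
        simp only [mem_biUnion, mem_filter]
        constructor
        · intro hz
          have hz1 : z.1 ∈ J := by
            rw [hK, mem_filter, mem_product] at hz
            exact hz.1.1
          rw [hJ, mem_biUnion] at hz1
          obtain ⟨C, hC, h4⟩ := hz1
          exact ⟨C, hC, hz, h4⟩
        · rintro ⟨C, _, hz, _⟩
          exact hz
      · intro C hC C' hC' hne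
        rw [Function.onFun, disjoint_left]
        intro z hz hz'
        rw [mem_filter] at hz hz'
        exact (disjoint_left.mp (hdJ C hC C' hC' hne) hz.2) hz'.2
    have hconf2 : ∀ C ∈ Γ, ∑ z ∈ K.filter (fun z => z.1 ∈ JC (A C) (B C) (X C) lab),
          q ^ #(coins nx z.1 ∪ coins nx z.2) ≤
        2 * ((#(X C) : ℝ) * (#(A C) : ℝ) ^ 3 * q ^ 3) + (#(X C) : ℝ) * (#(A C) : ℝ) ^ 4 * q ^ 4 +
          2 * ((#(X C) : ℝ) ^ 2 * (#(A C) : ℝ) ^ 3 * q ^ 4) := by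
      intro C hC
      refine conf_sum (hcell C hC) hq0 hq1' rfl (hsz C hC).1.symm rfl _ ?_
      intro z hz
      rw [mem_filter, hK, mem_filter, mem_product] at hz
      obtain ⟨⟨⟨-, hz2⟩, hz3, hz4⟩, hz5⟩ := hz
      rw [hJ, mem_biUnion] at hz2
      obtain ⟨C', hC', hz6⟩ := hz2
      rw [hmemJC] at hz5 hz6
      have hCC : C = C' := by
        by_contra hne
        obtain ⟨d1, d2, d3⟩ := hdis C hC C' hC' hne
        rcases hz4 with e | e | e
        · exact (disjoint_left.mp d1 hz5.1.1) (e ▸ hz6.1.1)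
        · exact (disjoint_left.mp d3 hz5.1.2.1) (e ▸ hz6.1.2.1)
        · exact (disjoint_left.mp d2 hz5.1.2.2) (e ▸ hz6.1.2.2)
      subst hCC
      refine ⟨?_, ?_, hz3, hz4⟩
      · simp only [mem_product]
        exact hz5.1
      · simp only [mem_product]
        exact hz6.1
    have hfin : ∑ C ∈ Γ, (#(A C) : ℝ) / 20 ≤
        ∑ C ∈ Γ, ((#(JC (A C) (B C) (X C) lab) : ℝ) * q ^ 2 -
          (∑ z ∈ K.filter (fun z => z.1 ∈ JC (A C) (B C) (X C) lab),
            q ^ #(coins nx z.1 ∪ coins nx z.2)) / 2) := by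
      refine sum_le_sum fun C hC => ?_
      obtain ⟨s1, s2, s3, s4, s5⟩ := hsz C hC
      have e1 := hconf2 C hC
      have e2 : (#(X C) : ℝ) * ((#(A C) : ℝ) - 1) ^ 2 ≤ (#(JC (A C) (B C) (X C) lab) : ℝ) := by
        have e3 := card_JC (A := A C) (B := B C) (X := X C) (lab := lab) (hlab C hC)
        rw [← s1] at e3
        have e4 : ((#(A C) - 1 : ℕ) : ℝ) = (#(A C) : ℝ) - 1 := by
          rw [Nat.cast_sub (by omega), Nat.cast_one]
        calc (#(X C) : ℝ) * ((#(A C) : ℝ) - 1) ^ 2 =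
              ((#(X C) * ((#(A C) - 1) * (#(A C) - 1)) : ℕ) : ℝ) := by
              rw [Nat.cast_mul, Nat.cast_mul, e4]
              ring
          _ ≤ _ := by exact_mod_cast e3
      have e5 := arith (q := q) (s := (#(A C) : ℝ)) (w := (#(X C) : ℝ)) hq hq1
        (by exact_mod_cast s2) (by positivity) s3 s4 s5
      have e6 := mul_le_mul_of_nonneg_right e2 (by positivity : (0 : ℝ) ≤ q ^ 2)
      linarith
    rw [sum_sub_distrib] at hfin
    have hfin2 : ∑ C ∈ Γ, (#(A C) : ℝ) / 20 ≤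
        ∑ C ∈ Γ, (#(JC (A C) (B C) (X C) lab) : ℝ) * q ^ 2 -
          (∑ z ∈ K, q ^ #(coins nx z.1 ∪ coins nx z.2)) / 2 := by
      rw [hconf, sum_div]
      exact hfin
    refine hfin2.trans (le_of_eq ?_)
    congr 2
    refine sum_congr ?_ (fun _ _ => rfl)
    ext z
    rw [hK]
    simp only [mem_filter]

end MP329
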