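import Pool.Agent.Lib.MP_329b4d_pr.SpecC

/-!
# MP_329b4d_pr: C4, bookkeeping of the cells
-/

namespace MP329

open Finset

namespace C4

/-- Packing: a finite set contains `j` pairwise disjoint subsets of size `k` if it has at least
`j * k` elements. -/
theorem packing {V : Type} [DecidableEq V] (k : ℕ) (hk : 0 < k) (j : ℕ) :
    ∀ S : Finset V, j * k ≤ #S → ∃ F : Finset (Finset V), #F = j ∧
      (∀ B ∈ F, B ⊆ S ∧ #B = k) ∧ (∀ B ∈ F, ∀ B' ∈ F, B ≠ B' → Disjoint B B') := by
  induction j with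
  | zero =>
    intro S _
    exact ⟨∅, by simp, by simp, by simp⟩
  | succ j ih =>
    intro S hS
    have h1 : k ≤ #S := by nlinarith
    obtain ⟨T, hTS, hT⟩ := Finset.exists_subset_card_eq h1
    have h2 : j * k ≤ #(S \ T) := by
      rw [Finset.card_sdiff_of_subset hTS, hT]
      have : (j + 1) * k = j * k + k := by ring
      omega
    obtain ⟨F, hF, hF1, hF2⟩ := ih (S \ T) h2
    have hdis : ∀ B ∈ F, Disjoint T B := by
      intro B hB
      have := (hF1 B hB).1
      exact Finset.disjoint_of_subset_right this Finset.disjoint_sdiff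
    have hTF : T ∉ F := by
      intro h
      have h3 := hdis T h
      have h4 : T = ∅ := by simpa using h3
      rw [h4] at hT
      simp at hT
      omega
    refine ⟨insert T F, ?_, ?_, ?_⟩
    · rw [Finset.card_insert_of_notMem hTF, hF]
    · intro B hB
      rcases Finset.mem_insert.1 hB with rfl | hB
      · exact ⟨hTS, hT⟩
      · exact ⟨(hF1 B hB).1.trans Finset.sdiff_subset, (hF1 B hB).2⟩
    · intro B hB B' hB' hne
      rcases Finset.mem_insert.1 hB with h | hB1
      · rcases Finset.mem_insert.1 hB' with h' | hB1'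
        · exact absurd (h.trans h'.symm) hne
        · rw [h]; exact hdis B' hB1'
      · rcases Finset.mem_insert.1 hB' with h' | hB1'
        · rw [h']; exact (hdis B hB1).symm
        · exact hF2 B hB1 B' hB1' hne

/-- Case 1 of the bookkeeping. -/
theorem case1 {V κ : Type} [DecidableEq V] [DecidableEq κ] (c : V → κ) (k : ℕ) (hk : 0 < k)
    (H : Finset V) (cells : Finset κ)
    (h : (#H : ℝ) / 4 ≤ ∑ C ∈ cells.filter (fun C => k ≤ #(H.filter fun h => c h = C)),
      (#(H.filter fun h => c h = C) : ℝ)) :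
    ∃ 𝓑 : Finset (Finset V), (∀ B ∈ 𝓑, B ⊆ H ∧ #B = k ∧ ∀ u ∈ B, ∀ v ∈ B, c u = c v) ∧
      (∀ B ∈ 𝓑, ∀ B' ∈ 𝓑, B ≠ B' → Disjoint B B') ∧ (#H : ℝ) / 8 ≤ #𝓑 * k := by
  classical
  have hp : ∀ C : κ, ∃ F : Finset (Finset V), #F = #(H.filter fun h => c h = C) / k ∧
      (∀ B ∈ F, B ⊆ (H.filter fun h => c h = C) ∧ #B = k) ∧
      (∀ B ∈ F, ∀ B' ∈ F, B ≠ B' → Disjoint B B') := by
    intro C
    exact packing k hk _ _ (Nat.div_mul_le_self _ _)
  choose F hF hF1 hF2 using hp
  set G := cells.filter (fun C => k ≤ #(H.filter fun h => c h = C)) with hG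
  have hcell : ∀ C, ∀ B ∈ F C, ∀ v ∈ B, c v = C := by
    intro C B hB v hv
    have := (hF1 C B hB).1 hv
    exact (Finset.mem_filter.1 this).2
  have hne : ∀ C, ∀ B ∈ F C, B.Nonempty := by
    intro C B hB
    rw [← Finset.card_pos, (hF1 C B hB).2]
    exact hk
  refine ⟨G.biUnion F, ?_, ?_, ?_⟩
  · intro B hB
    obtain ⟨C, hC, hB⟩ := Finset.mem_biUnion.1 hB
    refine ⟨(hF1 C B hB).1.trans (Finset.filter_subset _ _), (hF1 C B hB).2, ?_⟩
    intro u hu v hv
    rw [hcell C B hB u hu, hcell C B hB v hv]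
  · intro B hB B' hB' hBB
    obtain ⟨C, hC, hB⟩ := Finset.mem_biUnion.1 hB
    obtain ⟨C', hC', hB'⟩ := Finset.mem_biUnion.1 hB'
    by_cases hCC : C = C'
    · subst hCC
      exact hF2 C B hB B' hB' hBB
    · rw [Finset.disjoint_left]
      intro v hv hv'
      exact hCC ((hcell C B hB v hv).symm.trans (hcell C' B' hB' v hv'))
  · have hcard : #(G.biUnion F) = ∑ C ∈ G, #(F C) := by
      apply Finset.card_biUnion
      intro C _ C' _ hCC
      show Disjoint (F C) (F C')
      rw [Finset.disjoint_left]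
      intro B hB hB'
      obtain ⟨v, hv⟩ := hne C B hB
      exact hCC ((hcell C B hB v hv).symm.trans (hcell C' B hB' v hv))
    rw [hcard]
    push_cast
    rw [Finset.sum_mul]
    have h3 : ∑ C ∈ G, (#(H.filter fun h => c h = C) : ℝ) / 2 ≤ ∑ C ∈ G, (#(F C) : ℝ) * k := by
      apply Finset.sum_le_sum
      intro C hC
      have hC' := (Finset.mem_filter.1 hC).2
      rw [hF]
      set s := #(H.filter fun h => c h = C)
      have h4 : s < (s / k + 1) * k := by
        have h5 := Nat.div_add_mod s k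
        have h6 := Nat.mod_lt s hk
        nlinarith
      have h7 : 1 ≤ s / k := (Nat.one_le_div_iff hk).2 hC'
      have h8 : s ≤ 2 * ((s / k) * k) := by nlinarith
      have h9 : (s : ℝ) ≤ 2 * (((s / k : ℕ) : ℝ) * k) := by exact_mod_cast h8
      linarith
    rw [← Finset.sum_div] at h3
    linarith

end C4

theorem bookkeeping : Bookkeeping := by
  intro V κ _ _ _ c N q k H bad hq hq1 hk1 hk2 hcell hHN hqN hHq hbad
  classical
  have hN : 0 < N := by
    by_contra hN
    push Not at hN
    have : q * N ≤ 0 := mul_nonpos_of_nonneg_of_nonpos hq.le hN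
    linarith
  have hk : 0 < k := by
    rcases Nat.eq_zero_or_pos k with h | h
    · subst h
      norm_num at hk1
    · exact h
  rcases Finset.eq_empty_or_nonempty H with hH | hH
  · left
    refine ⟨∅, by simp, by simp, by simp [hH]⟩
  have hm : (1 : ℝ) ≤ #H := by
    exact_mod_cast Finset.card_pos.2 hH
  have hnpos : (0 : ℝ) < Fintype.card V := by
    obtain ⟨v, _⟩ := hH
    have : 0 < Fintype.card V := Fintype.card_pos_iff.2 ⟨v⟩
    exact_mod_cast this
  set n : ℝ := (Fintype.card V : ℝ) with hn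
  set m : ℝ := (#H : ℝ) with hmdef
  set cells : Finset κ := (Finset.univ : Finset V).image c with hcells
  obtain ⟨s, hs⟩ : ∃ s : κ → ℕ, ∀ C, s C = #(H.filter fun h => c h = C) := ⟨_, fun _ => rfl⟩
  by_cases hcase : m / 4 ≤ ∑ C ∈ cells.filter (fun C => k ≤ s C), (s C : ℝ)
  · left
    simp only [hs] at hcase
    exact C4.case1 c k hk H cells hcase
  right
  push Not at hcase
  -- counting
  have hcellC : ∀ C ∈ cells, N / 2 ≤ (#{u | c u = C} : ℝ) ∧ (#{u | c u = C} : ℝ) ≤ 2 * N := by
    intro C hC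
    obtain ⟨v, _, rfl⟩ := Finset.mem_image.1 hC
    exact hcell v
  have hsum_n : ∑ C ∈ cells, (#{u | c u = C} : ℝ) = n := by
    have h1 : #(Finset.univ : Finset V) = ∑ C ∈ cells, #{u | c u = C} :=
      Finset.card_eq_sum_card_image c Finset.univ
    rw [hn, ← Finset.card_univ, h1]
    push_cast
    rfl
  have hcount : (#(cells) : ℝ) * (N / 2) ≤ n := by
    rw [← hsum_n, ← nsmul_eq_mul]
    apply Finset.card_nsmul_le_sum
    intro C hC
    exact (hcellC C hC).1
  have hmaps : ∀ (T : Finset V), ∑ C ∈ cells, (#(T.filter fun v => c v = C) : ℝ) = #T := by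
    intro T
    have h1 : #T = ∑ C ∈ cells, #(T.filter fun v => c v = C) := by
      apply Finset.card_eq_sum_card_fiberwise
      intro v _
      exact Finset.mem_image_of_mem _ (Finset.mem_univ _)
    rw [h1]
    push_cast
    rfl
  have hsum_m : ∑ C ∈ cells, (s C : ℝ) = m := by
    simp only [hs]
    exact hmaps H
  set Γ : Finset κ := cells.filter (fun C => s C < k ∧ m * N / (8 * n) ≤ s C ∧
    (#(bad.filter fun v => c v = C) : ℝ) ≤ N / 4) with hΓ
  -- the mass of the small cells
  have hsmall : ∑ C ∈ cells.filter (fun C => (s C : ℝ) < m * N / (8 * n)), (s C : ℝ) ≤ m / 4 := by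
    calc ∑ C ∈ cells.filter (fun C => (s C : ℝ) < m * N / (8 * n)), (s C : ℝ)
        ≤ ∑ C ∈ cells.filter (fun C => (s C : ℝ) < m * N / (8 * n)), m * N / (8 * n) := by
          apply Finset.sum_le_sum
          intro C hC
          exact (Finset.mem_filter.1 hC).2.le
      _ = #(cells.filter (fun C => (s C : ℝ) < m * N / (8 * n))) * (m * N / (8 * n)) := by
          rw [Finset.sum_const, nsmul_eq_mul]
      _ ≤ #(cells) * (m * N / (8 * n)) := by
          apply mul_le_mul_of_nonneg_right
          · exact_mod_cast Finset.card_le_card (Finset.filter_subset _ _)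
          · positivity
      _ = (#(cells) * (N / 2)) * (m / (4 * n)) := by field_simp; ring
      _ ≤ n * (m / (4 * n)) := by
          apply mul_le_mul_of_nonneg_right hcount
          positivity
      _ = m / 4 := by field_simp
  -- the mass of the bad cells
  have hbadc : (#(cells.filter (fun C => s C < k ∧
      N / 4 < (#(bad.filter fun v => c v = C) : ℝ))) : ℝ) * (N / 4) ≤ #(bad) := by
    rw [← hmaps bad, ← nsmul_eq_mul]
    calc #(cells.filter (fun C => s C < k ∧
      N / 4 < (#(bad.filter fun v => c v = C) : ℝ))) • (N / 4)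
        ≤ ∑ C ∈ cells.filter (fun C => s C < k ∧
          N / 4 < (#(bad.filter fun v => c v = C) : ℝ)),
            (#(bad.filter fun v => c v = C) : ℝ) := by
          apply Finset.card_nsmul_le_sum
          intro C hC
          exact (Finset.mem_filter.1 hC).2.2.le
      _ ≤ ∑ C ∈ cells, (#(bad.filter fun v => c v = C) : ℝ) := by
          apply Finset.sum_le_sum_of_subset_of_nonneg (Finset.filter_subset _ _)
          intro C _ _
          positivity
  have hbadm : ∑ C ∈ cells.filter (fun C => s C < k ∧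
      N / 4 < (#(bad.filter fun v => c v = C) : ℝ)), (s C : ℝ) ≤ 15 / 100 * m := by
    set bc : ℝ := (#(cells.filter (fun C => s C < k ∧
      N / 4 < (#(bad.filter fun v => c v = C) : ℝ))) : ℝ) with hbc
    have h1 : ∑ C ∈ cells.filter (fun C => s C < k ∧
      N / 4 < (#(bad.filter fun v => c v = C) : ℝ)), (s C : ℝ) ≤ bc * ((k : ℝ) - 1) := by
      rw [hbc, ← nsmul_eq_mul]
      apply Finset.sum_le_card_nsmul
      intro C hC
      have := (Finset.mem_filter.1 hC).2.1
      have h2 : s C + 1 ≤ k := this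
      have h3 : (s C : ℝ) + 1 ≤ k := by exact_mod_cast h2
      linarith
    have hbc0 : 0 ≤ bc := by positivity
    have h4 : bc * (N / 4) ≤ m + q * N * m / 2 := hbadc.trans hbad
    -- `20 q (k - 1) ≤ 1`
    have h5 : 20 * q * (bc * ((k : ℝ) - 1)) ≤ bc := by nlinarith
    -- `q N bc ≤ 4 q m + 2 q² N m`, hence `bc ≤ ...`
    have h6 : bc * N ≤ 4 * m + 2 * q * N * m := by nlinarith
    have h7 : bc * N ≤ 3 * (q * N) * m := by nlinarith
    have h8 : bc ≤ 3 * q * m := by
      have h9 : bc * N ≤ (3 * q * m) * N := by nlinarith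
      exact le_of_mul_le_mul_right h9 hN
    have h10 : 20 * q * (bc * ((k : ℝ) - 1)) ≤ 3 * q * m := h5.trans h8
    have h11 : bc * ((k : ℝ) - 1) ≤ 15 / 100 * m := by
      have h12 : q * (bc * ((k : ℝ) - 1)) ≤ q * (15 / 100 * m) := by nlinarith
      exact le_of_mul_le_mul_left h12 hq
    linarith
  -- the mass of `Γ`
  have hΓm : 35 / 100 * m ≤ ∑ C ∈ Γ, (s C : ℝ) := by
    have hcov : cells ⊆ ((cells.filter (fun C => k ≤ s C)) ∪
        (cells.filter (fun C => (s C : ℝ) < m * N / (8 * n)))) ∪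
        ((cells.filter (fun C => s C < k ∧
          N / 4 < (#(bad.filter fun v => c v = C) : ℝ))) ∪ Γ) := by
      intro C hC
      rw [hΓ, Finset.mem_union, Finset.mem_union, Finset.mem_union, Finset.mem_filter,
        Finset.mem_filter, Finset.mem_filter, Finset.mem_filter]
      by_cases h1 : k ≤ s C
      · exact Or.inl (Or.inl ⟨hC, h1⟩)
      by_cases h2 : (s C : ℝ) < m * N / (8 * n)
      · exact Or.inl (Or.inr ⟨hC, h2⟩)
      by_cases h3 : N / 4 < (#(bad.filter fun v => c v = C) : ℝ)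
      · exact Or.inr (Or.inl ⟨hC, not_le.1 h1, h3⟩)
      · exact Or.inr (Or.inr ⟨hC, not_le.1 h1, not_lt.1 h2, not_lt.1 h3⟩)
    have hnn : ∀ (T : Finset κ), 0 ≤ ∑ C ∈ T, (s C : ℝ) := by
      intro T
      positivity
    have hun : ∀ (S T : Finset κ), ∑ C ∈ S ∪ T, (s C : ℝ) ≤ ∑ C ∈ S, (s C : ℝ) +
        ∑ C ∈ T, (s C : ℝ) := by
      intro S T
      rw [← Finset.sum_union_inter]
      linarith [hnn (S ∩ T)]
    have h1 : ∑ C ∈ cells, (s C : ℝ) ≤ _ :=
      Finset.sum_le_sum_of_subset_of_nonneg hcov (fun C _ _ => by positivity)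
    have h2 := hun ((cells.filter (fun C => k ≤ s C)) ∪
        (cells.filter (fun C => (s C : ℝ) < m * N / (8 * n))))
        ((cells.filter (fun C => s C < k ∧
          N / 4 < (#(bad.filter fun v => c v = C) : ℝ))) ∪ Γ)
    have h3 := hun (cells.filter (fun C => k ≤ s C))
        (cells.filter (fun C => (s C : ℝ) < m * N / (8 * n)))
    have h4 := hun (cells.filter (fun C => s C < k ∧
          N / 4 < (#(bad.filter fun v => c v = C) : ℝ))) Γ
    rw [hsum_m] at h1
    linarith
  -- the size conditions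
  have hs16 : ∀ C ∈ Γ, 16 ≤ s C := by
    intro C hC
    have h1 := (Finset.mem_filter.1 hC).2.2.1
    have h2 : 16 ≤ m * N / (8 * n) := by
      rw [le_div_iff₀ (by positivity)]
      linarith
    have h3 : (16 : ℝ) ≤ s C := h2.trans h1
    exact_mod_cast h3
  have hchoose : ∀ C : κ, ∃ A B X : Finset V, C ∈ Γ →
      (A ⊆ H ∧ B ⊆ H ∧ Disjoint X H ∧ Disjoint X bad ∧
        (∀ v ∈ A ∪ B ∪ X, c v = C) ∧ Disjoint A B ∧
        #A = #B ∧ 8 ≤ #A ∧ 38 * q * #A ≤ 1 ∧
        10 * (#X : ℝ) * #A * q ^ 2 ≤ 1 ∧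
        1 ≤ 10 * ((#X : ℝ) + 1) * #A * q ^ 2) ∧ 15 / 32 * (s C : ℝ) ≤ #A := by
    intro C
    by_cases hC : C ∈ Γ
    swap
    · exact ⟨∅, ∅, ∅, fun h => absurd h hC⟩
    have h16 := hs16 C hC
    obtain ⟨hCc, hsk, hsm, hsb⟩ := Finset.mem_filter.1 hC
    have hA : s C / 2 ≤ #(H.filter fun h => c h = C) := by
      rw [← hs]; exact Nat.div_le_self _ _
    obtain ⟨A, hAS, hAc⟩ := Finset.exists_subset_card_eq hA
    have hB : s C / 2 ≤ #((H.filter fun h => c h = C) \ A) := by
      rw [Finset.card_sdiff_of_subset hAS, hAc, ← hs]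
      omega
    obtain ⟨B, hBS, hBc⟩ := Finset.exists_subset_card_eq hB
    have hs2 : 15 / 32 * (s C : ℝ) ≤ ((s C / 2 : ℕ) : ℝ) := by
      have h1 : s C ≤ 2 * (s C / 2) + 1 := by omega
      have h2 : (s C : ℝ) ≤ 2 * ((s C / 2 : ℕ) : ℝ) + 1 := by exact_mod_cast h1
      have h3 : (16 : ℝ) ≤ s C := by exact_mod_cast h16
      linarith
    have h8 : 8 ≤ s C / 2 := by omega
    have h8r : (8 : ℝ) ≤ ((s C / 2 : ℕ) : ℝ) := by exact_mod_cast h8
    have hs1 : 2 * ((s C / 2 : ℕ) : ℝ) ≤ s C := by
      have : 2 * (s C / 2) ≤ s C := by omega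
      exact_mod_cast this
    set s' : ℝ := ((s C / 2 : ℕ) : ℝ) with hs'
    have hsk' : (s C : ℝ) ≤ (k : ℝ) - 1 := by
      have h1 : s C + 1 ≤ k := hsk
      have h2 : (s C : ℝ) + 1 ≤ k := by exact_mod_cast h1
      linarith
    -- the room for `X`
    have hroom : (#((Finset.univ.filter fun u => c u = C) \ (bad ∪ H)) : ℝ) ≥
        N / 2 - N / 4 - ((k : ℝ) - 1) := by
      have h1 : (Finset.univ.filter fun u => c u = C) ⊆
          ((Finset.univ.filter fun u => c u = C) \ (bad ∪ H)) ∪
            ((bad.filter fun v => c v = C) ∪ (H.filter fun v => c v = C)) := by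
        intro v hv
        have hv' := (Finset.mem_filter.1 hv).2
        by_cases hvb : v ∈ bad
        · simp [hvb, hv']
        by_cases hvH : v ∈ H
        · simp [hvH, hv']
        · simp [hvb, hvH, hv']
      have h2 := Finset.card_le_card h1
      have h3 := Finset.card_union_le ((Finset.univ.filter fun u => c u = C) \ (bad ∪ H))
        ((bad.filter fun v => c v = C) ∪ (H.filter fun v => c v = C))
      have h4 := Finset.card_union_le (bad.filter fun v => c v = C) (H.filter fun v => c v = C)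
      have h5 : #(Finset.univ.filter fun u => c u = C) ≤
          #((Finset.univ.filter fun u => c u = C) \ (bad ∪ H)) +
          (#(bad.filter fun v => c v = C) + s C) := by
        have h6 : s C = #(H.filter fun v => c v = C) := hs C
        omega
      have h7 : (#(Finset.univ.filter fun u => c u = C) : ℝ) ≤
          #((Finset.univ.filter fun u => c u = C) \ (bad ∪ H)) +
          (#(bad.filter fun v => c v = C) + s C) := by exact_mod_cast h5
      have h8 := (hcellC C hCc).1
      linarith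
    set w : ℕ := ⌊1 / (10 * s' * q ^ 2)⌋₊ with hw
    have hden : 0 < 10 * s' * q ^ 2 := by positivity
    have hwle : (w : ℝ) ≤ 1 / (10 * s' * q ^ 2) := Nat.floor_le (by positivity)
    have hwlt : 1 / (10 * s' * q ^ 2) < (w : ℝ) + 1 := Nat.lt_floor_add_one _
    have hkN : (k : ℝ) - 1 ≤ N / 80 := by
      have h1 : 20 * q * ((k : ℝ) - 1) ≤ q * N / 4 := by linarith
      have h2 : q * ((k : ℝ) - 1) ≤ q * (N / 80) := by linarith
      exact le_of_mul_le_mul_left h2 hq
    have hsq : 15 / 32 ≤ s' * q ^ 2 * N := by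
      have h1 : m * N / (8 * n) * (q ^ 2 * N) ≤ s C * (q ^ 2 * N) :=
        mul_le_mul_of_nonneg_right hsm (by positivity)
      have h2 : 1 ≤ m * N / (8 * n) * (q ^ 2 * N) := by
        have h3 : m * N / (8 * n) * (q ^ 2 * N) = (m * (q * N) ^ 2) / (8 * n) := by
          field_simp
        rw [h3, le_div_iff₀ (by positivity)]
        linarith
      have h4 : 1 ≤ (s C : ℝ) * (q ^ 2 * N) := h2.trans h1
      have h5 : 15 / 32 * ((s C : ℝ) * (q ^ 2 * N)) ≤ s' * (q ^ 2 * N) := by
        have := mul_le_mul_of_nonneg_right hs2 (show 0 ≤ q ^ 2 * N by positivity)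
        linarith
      nlinarith
    have hwroom : w ≤ #((Finset.univ.filter fun u => c u = C) \ (bad ∪ H)) := by
      have h1 : 1 / (10 * s' * q ^ 2) ≤ 19 * N / 80 := by
        rw [div_le_iff₀ hden]
        nlinarith
      have h2 : (w : ℝ) ≤ #((Finset.univ.filter fun u => c u = C) \ (bad ∪ H)) := by
        linarith
      exact_mod_cast h2
    obtain ⟨X, hXS, hXc⟩ := Finset.exists_subset_card_eq hwroom
    refine ⟨A, B, X, fun _ => ⟨⟨?_, ?_, ?_, ?_, ?_, ?_, ?_, ?_, ?_, ?_, ?_⟩, ?_⟩⟩
    · exact hAS.trans (Finset.filter_subset _ _)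
    · exact (hBS.trans Finset.sdiff_subset).trans (Finset.filter_subset _ _)
    · rw [Finset.disjoint_left]
      intro v hv hvH
      have := (Finset.mem_sdiff.1 (hXS hv)).2
      exact this (Finset.mem_union_right _ hvH)
    · rw [Finset.disjoint_left]
      intro v hv hvb
      have := (Finset.mem_sdiff.1 (hXS hv)).2
      exact this (Finset.mem_union_left _ hvb)
    · intro v hv
      rcases Finset.mem_union.1 hv with hv | hv
      · rcases Finset.mem_union.1 hv with hv | hv
        · exact (Finset.mem_filter.1 (hAS hv)).2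
        · exact (Finset.mem_filter.1 (Finset.mem_sdiff.1 (hBS hv)).1).2
      · exact (Finset.mem_filter.1 (Finset.mem_sdiff.1 (hXS hv)).1).2
    · rw [Finset.disjoint_left]
      intro v hv hvB
      exact (Finset.mem_sdiff.1 (hBS hvB)).2 hv
    · rw [hAc, hBc]
    · rw [hAc]; exact h8
    · rw [hAc]
      show 38 * q * s' ≤ 1
      nlinarith
    · rw [hAc, hXc]
      show 10 * (w : ℝ) * s' * q ^ 2 ≤ 1
      have h1 := mul_le_mul_of_nonneg_right hwle hden.le
      rw [div_mul_cancel₀ _ hden.ne'] at h1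
      linarith
    · rw [hAc, hXc]
      show 1 ≤ 10 * ((w : ℝ) + 1) * s' * q ^ 2
      have h1 := mul_le_mul_of_nonneg_right hwlt.le hden.le
      rw [div_mul_cancel₀ _ hden.ne'] at h1
      linarith
    · rw [hAc]
      exact hs2
  choose A B X hABX using hchoose
  refine ⟨Γ, A, B, X, fun C hC => (hABX C hC).1, ?_⟩
  have h1 : ∑ C ∈ Γ, 15 / 32 * (s C : ℝ) ≤ ∑ C ∈ Γ, (#(A C) : ℝ) :=
    Finset.sum_le_sum fun C hC => (hABX C hC).2
  rw [← Finset.mul_sum] at h1
  have h2 : 0 ≤ m := by linarith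
  nlinarith

end MP329
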