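import Pool.Agent.Lib.MP_329b4d_pr.SpecC
import Pool.Agent.Lib.MP_329b4d_pr.Basic

/-!
# MP_329b4d_pr: C5, colouring
-/

namespace MP329

open Finset

theorem Pb_triple {ι : Type*} [Fintype ι] [DecidableEq ι] (a b c : ι) (hab : a ≠ b)
    (hac : a ≠ c) (hbc : b ≠ c) :
    Pb (1 / 2) (fun S : Finset ι => a ∈ S ∧ b ∈ S ∧ c ∉ S) = 1 / 8 := by
  have h1 := Pb_subset (ι := ι) (1 / 2) {a, b}
  have h2 := Pb_subset (ι := ι) (1 / 2) {a, b, c}
  have h3 : Pb (1 / 2) (fun S : Finset ι => a ∈ S ∧ b ∈ S ∧ c ∉ S)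
      = Pb (1 / 2) (fun S => {a, b} ⊆ S) - Pb (1 / 2) (fun S => {a, b, c} ⊆ S) := by
    unfold Pb
    rw [← Ex_sub]
    apply Ex_congr
    intro S
    by_cases ha : a ∈ S <;> by_cases hb : b ∈ S <;> by_cases hc : c ∈ S <;>
      simp [ha, hb, hc, insert_subset_iff]
  rw [h3, h1, h2, card_pair hab, card_eq_three.2 ⟨a, b, c, hab, hac, hbc, rfl⟩]
  norm_num

theorem colouring : Colouring := by
  classical
  intro Λ τ I α β γ h
  let L : Finset Λ := I.image α ∪ I.image β ∪ I.image γ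
  have hα : ∀ t ∈ I, α t ∈ L := fun t ht =>
    mem_union_left _ (mem_union_left _ (mem_image_of_mem _ ht))
  have hβ : ∀ t ∈ I, β t ∈ L := fun t ht =>
    mem_union_left _ (mem_union_right _ (mem_image_of_mem _ ht))
  have hγ : ∀ t ∈ I, γ t ∈ L := fun t ht => mem_union_right _ (mem_image_of_mem _ ht)
  let Act : Finset L → Set Λ := fun S => {x | ∃ hx : x ∈ L, (⟨x, hx⟩ : L) ∈ S}
  have hAct : ∀ (S : Finset L) (x : Λ) (hx : x ∈ L), x ∈ Act S ↔ (⟨x, hx⟩ : L) ∈ S := by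
    intro S x hx
    constructor
    · rintro ⟨_, h⟩; exact h
    · intro h; exact ⟨hx, h⟩
  have hE : Ex (1 / 2) (fun S : Finset L =>
      ∑ t ∈ I, if (α t ∈ Act S ∧ β t ∈ Act S ∧ γ t ∉ Act S) then (1 : ℝ) else 0)
      = (#I : ℝ) * (1 / 8) := by
    rw [Ex_sum, ← nsmul_eq_mul, ← sum_const]
    refine sum_congr rfl fun t ht => ?_
    obtain ⟨h1, h2, h3⟩ := h t ht
    rw [← Pb_triple (ι := L) ⟨α t, hα t ht⟩ ⟨β t, hβ t ht⟩ ⟨γ t, hγ t ht⟩
      (fun e => h1 (congrArg Subtype.val e)) (fun e => h2 (congrArg Subtype.val e))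
      (fun e => h3 (congrArg Subtype.val e))]
    unfold Pb
    apply Ex_congr
    intro S
    simp only [hAct S _ (hα t ht), hAct S _ (hβ t ht), hAct S _ (hγ t ht)]
    congr
  by_contra hcon
  push Not at hcon
  have hle : Ex (1 / 2) (fun S : Finset L =>
      ∑ t ∈ I, if (α t ∈ Act S ∧ β t ∈ Act S ∧ γ t ∉ Act S) then (1 : ℝ) else 0)
      ≤ Ex (1 / 2) (fun _ : Finset L => ((#I : ℝ) - 1) / 8) := by
    refine Ex_mono (by norm_num) (by norm_num) fun S => ?_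
    have h1 := hcon (Act S)
    rw [← sum_filter, sum_const, nsmul_eq_mul, mul_one]
    have h2 : ((8 * #(I.filter fun t => α t ∈ Act S ∧ β t ∈ Act S ∧ γ t ∉ Act S) + 1 : ℕ) : ℝ)
        ≤ (#I : ℝ) := by
      refine Nat.cast_le.2 (Nat.succ_le_of_lt (lt_of_eq_of_lt ?_ h1))
      congr
    push_cast at h2
    rw [le_div_iff₀ (by norm_num : (0 : ℝ) < 8)]
    linarith
  rw [hE, Ex_const] at hle
  linarith

end MP329
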