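import Pool.Agent.Lib.MP_329b4d_pr.SpecC
import Pool.Agent.Lib.MP_329b4d_pr.B1Lists

/-!
# MP_329b4d_pr, C6: applying rotations to a path cover
-/

set_option autoImplicit false

namespace MP329

open Finset

namespace C6

variable {V M : Type} [DecidableEq V] [PseudoMetricSpace M]

theorem len_mk (X : V → M) (a b : V) : len X s(a, b) = dist (X a) (X b) := rfl

theorem len_nonneg (X : V → M) (e : Sym2 V) : 0 ≤ len X e := by
  induction e using Sym2.ind with
  | _ a b => rw [len_mk]; exact dist_nonneg

theorem cost_mono (X : V → M) {E F : Finset (Sym2 V)} (h : E ⊆ F) : cost X E ≤ cost X F :=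
  Finset.sum_le_sum_of_subset_of_nonneg h fun e _ _ => len_nonneg X e

theorem cost_union_le (X : V → M) (E F : Finset (Sym2 V)) :
    cost X (E ∪ F) ≤ cost X E + cost X F := by
  unfold cost
  rw [← Finset.sum_union_inter]
  have := Finset.sum_nonneg (s := E ∩ F) (f := len X) fun e _ => len_nonneg X e
  linarith

theorem cost_singleton (X : V → M) (e : Sym2 V) : cost X {e} = len X e := by
  unfold cost
  rw [Finset.sum_singleton]

theorem mem_edgesL {L : List (List V)} {e : Sym2 V} :
    e ∈ edgesL L ↔ ∃ l ∈ L, e ∈ links l := by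
  unfold edgesL
  rw [List.mem_toFinset, List.mem_flatMap]

/-- Splitting a link off a list with a marked link. -/
theorem link_cases {Q Q' R R' : List V} {x y x' y' : V} (hx : x' ≠ x)
    (h : Q' ++ x' :: y' :: R' = Q ++ x :: y :: R) :
    (∃ S, ∀ W : List V, ∃ S', Q ++ x :: W = S ++ x' :: y' :: S') ∨
    (∃ S S', y :: R = S ++ x' :: y' :: S') := by
  rcases List.append_eq_append_iff.1 h with ⟨c, hc, hc'⟩ | ⟨c, hc, hc'⟩
  · -- Q = Q' ++ c
    left
    cases c with
    | nil => simp only [List.nil_append, List.cons.injEq] at hc'; exact absurd hc'.1 hx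
    | cons d c =>
      simp only [List.cons_append, List.cons.injEq] at hc'
      obtain ⟨rfl, hc'⟩ := hc'
      refine ⟨Q', fun W => ?_⟩
      cases c with
      | nil =>
        simp only [List.nil_append, List.cons.injEq] at hc'
        obtain ⟨rfl, _⟩ := hc'
        exact ⟨W, by rw [hc]; simp⟩
      | cons d c =>
        simp only [List.cons_append, List.cons.injEq] at hc'
        obtain ⟨rfl, _⟩ := hc'
        exact ⟨c ++ x :: W, by rw [hc]; simp⟩
  · right
    cases c with
    | nil => simp only [List.nil_append, List.cons.injEq] at hc'; exact absurd hc'.1.symm hx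
    | cons d c =>
      simp only [List.cons_append, List.cons.injEq] at hc'
      exact ⟨c, R', hc'.2⟩

theorem isCover_of_perm {L L' : List (List V)} (h : L'.flatten.Perm L.flatten)
    (hn : ∀ l ∈ L', l ≠ []) (hL : IsCover L) : IsCover L' where
  ne_nil := hn
  nodup := h.nodup_iff.2 hL.nodup
  covers v := h.mem_iff.2 (hL.covers v)

end C6

open C6 in
theorem applyRot : ApplyRot := by
  intro V M τ _ _ _ _ X L I a x y b
  induction I using Finset.induction_on generalizing L with
  | empty => intro hL _ _ _ _; exact ⟨L, hL, by simp, by simp, by simp⟩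
  | insert t₀ I ht₀ ih =>
    intro hL h1 h2 h3 h4
    have ht : t₀ ∈ insert t₀ I := Finset.mem_insert_self t₀ I
    have hI : ∀ t ∈ I, t ∈ insert t₀ I := fun t h => Finset.mem_insert_of_mem h
    have hne : ∀ t ∈ I, t ≠ t₀ := fun t h e => ht₀ (e ▸ h)
    obtain ⟨⟨P, hP⟩, ⟨P', hP'⟩, Q₁, Q₂, hQ⟩ := h1 t₀ ht
    have hxl : x t₀ ∈ Q₁ ++ x t₀ :: y t₀ :: Q₂ := by simp
    have hd1 : (a t₀ :: P) ≠ Q₁ ++ x t₀ :: y t₀ :: Q₂ := by
      intro h
      exact (h4 t₀ ht t₀ ht _ hQ hxl).1 (h ▸ List.mem_cons_self)
    have hd2 : (b t₀ :: P') ≠ Q₁ ++ x t₀ :: y t₀ :: Q₂ := by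
      intro h
      exact (h4 t₀ ht t₀ ht _ hQ hxl).2 (h ▸ List.mem_cons_self)
    have hd3 : (b t₀ :: P') ≠ (a t₀ :: P) := by
      intro h
      rw [List.cons.injEq] at h
      exact h3 t₀ ht t₀ ht h.1.symm
    -- reorder the cover
    obtain ⟨L₀, hperm⟩ : ∃ L₀, L.Perm ((Q₁ ++ x t₀ :: y t₀ :: Q₂) :: (a t₀ :: P) ::
        (b t₀ :: P') :: L₀) := by
      have e1 := List.perm_cons_erase hQ
      have m1 : (a t₀ :: P) ∈ L.erase (Q₁ ++ x t₀ :: y t₀ :: Q₂) :=
        (List.mem_erase_of_ne hd1).2 hP
      have m2 : (b t₀ :: P') ∈ L.erase (Q₁ ++ x t₀ :: y t₀ :: Q₂) :=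
        (List.mem_erase_of_ne hd2).2 hP'
      have e2 := List.perm_cons_erase m1
      have m3 := (List.mem_erase_of_ne hd3).2 m2
      have e3 := List.perm_cons_erase m3
      exact ⟨_, e1.trans ((e2.trans (e3.cons _)).cons _)⟩
    have hcov := B1.cover_perm _ _ hperm hL
    have hmemL : ∀ l, l ∈ L ↔ l = (Q₁ ++ x t₀ :: y t₀ :: Q₂) ∨ l = (a t₀ :: P) ∨
        l = (b t₀ :: P') ∨ l ∈ L₀ := by
      intro l
      rw [hperm.mem_iff]
      simp only [List.mem_cons]
    set l₁ : List V := Q₁ ++ x t₀ :: a t₀ :: P with hl₁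
    set l₂ : List V := (b t₀ :: P').reverse ++ y t₀ :: Q₂ with hl₂
    have hcov1 : IsCover (l₁ :: l₂ :: L₀) := by
      refine isCover_of_perm ?_ ?_ hcov
      · rw [List.perm_iff_count]
        intro v
        simp only [hl₁, hl₂, List.flatten_cons, List.count_append, List.count_cons,
          List.count_reverse]
        omega
      · intro l hl
        simp only [List.mem_cons] at hl
        rcases hl with rfl | rfl | hl
        · simp [hl₁]
        · simp [hl₂]
        · exact hL.ne_nil l ((hmemL l).2 (Or.inr (Or.inr (Or.inr hl))))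
    have hlen : (l₁ :: l₂ :: L₀).length + 1 = L.length := by
      rw [hperm.length_eq]; simp
    have hedge : edgesL (l₁ :: l₂ :: L₀) ⊆ edgesL L ∪ ({s(a t₀, x t₀)} ∪ {s(y t₀, b t₀)}) := by
      intro e he
      rw [mem_edgesL] at he
      obtain ⟨l, hl, he⟩ := he
      rw [Finset.mem_union, Finset.mem_union, Finset.mem_singleton, Finset.mem_singleton,
        mem_edgesL]
      simp only [List.mem_cons] at hl
      rcases hl with rfl | rfl | hl
      · rw [hl₁, B1.links_cut] at he
        rw [List.mem_append, List.mem_cons] at he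
        rcases he with he | he | he
        · left
          refine ⟨_, hQ, ?_⟩
          rw [B1.links_cut]
          exact List.mem_append_left _ he
        · right; left; rw [he, Sym2.eq_swap]
        · left; exact ⟨_, hP, he⟩
      · have e1 : l₂ = P'.reverse ++ b t₀ :: y t₀ :: Q₂ := by rw [hl₂]; simp
        have e2 : P'.reverse ++ [b t₀] = (b t₀ :: P').reverse := by simp
        rw [e1, B1.links_cut, e2, B1.links_reverse] at he
        rw [List.mem_append, List.mem_cons, List.mem_reverse] at he
        rcases he with he | he | he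
        · left; exact ⟨_, hP', he⟩
        · right; right; rw [he, Sym2.eq_swap]
        · left
          refine ⟨_, hQ, ?_⟩
          rw [B1.links_cut]
          exact List.mem_append_right _ (List.mem_cons_of_mem _ he)
      · left
        exact ⟨l, (hmemL l).2 (Or.inr (Or.inr (Or.inr hl))), he⟩
    have hcost : cost X (edgesL (l₁ :: l₂ :: L₀)) ≤ cost X (edgesL L) +
        (dist (X (a t₀)) (X (x t₀)) + dist (X (y t₀)) (X (b t₀))) := by
      have e1 := cost_mono X hedge
      have e2 := cost_union_le X (edgesL L) ({s(a t₀, x t₀)} ∪ {s(y t₀, b t₀)})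
      have e3 := cost_union_le X {s(a t₀, x t₀)} {s(y t₀, b t₀)}
      rw [cost_singleton, cost_singleton, len_mk, len_mk] at e3
      linarith
    -- heads of the others are in `L₀`
    have ha : ∀ t ∈ I, ∃ R, (a t :: R) ∈ L₀ := by
      intro t hI'
      obtain ⟨R, hR⟩ := (h1 t (hI t hI')).1
      refine ⟨R, ?_⟩
      rcases (hmemL _).1 hR with h | h | h | h
      · exact absurd (h ▸ List.mem_cons_self : a t ∈ Q₁ ++ x t₀ :: y t₀ :: Q₂)
          (h4 t₀ ht t (hI t hI') _ hQ hxl).1
      · rw [List.cons.injEq] at h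
        exact absurd h.1 (h2 t (hI t hI') t₀ ht (hne t hI')).1
      · rw [List.cons.injEq] at h
        exact absurd h.1 (h3 t (hI t hI') t₀ ht)
      · exact h
    have hb : ∀ t ∈ I, ∃ R, (b t :: R) ∈ L₀ := by
      intro t hI'
      obtain ⟨R, hR⟩ := (h1 t (hI t hI')).2.1
      refine ⟨R, ?_⟩
      rcases (hmemL _).1 hR with h | h | h | h
      · exact absurd (h ▸ List.mem_cons_self : b t ∈ Q₁ ++ x t₀ :: y t₀ :: Q₂)
          (h4 t₀ ht t (hI t hI') _ hQ hxl).2
      · rw [List.cons.injEq] at h
        exact absurd h.1.symm (h3 t₀ ht t (hI t hI'))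
      · rw [List.cons.injEq] at h
        exact absurd h.1 (h2 t (hI t hI') t₀ ht (hne t hI')).2.1
      · exact h
    have hnd : ∀ v, (∃ R, (v :: R) ∈ L₀) → v ∉ l₁ ∧ v ∉ l₂ := by
      rintro v ⟨R, hR⟩
      have hv : v ∈ L₀.flatten := List.mem_flatten.2 ⟨_, hR, List.mem_cons_self⟩
      have hn := hcov1.nodup
      simp only [List.flatten_cons] at hn
      rw [List.nodup_append] at hn
      obtain ⟨_, hn1, hn2⟩ := hn
      rw [List.nodup_append] at hn1
      obtain ⟨_, _, hn3⟩ := hn1
      exact ⟨fun h => hn2 v h v (List.mem_append_right _ hv) rfl, fun h => hn3 v h v hv rfl⟩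
    have hL₀ : ∀ l ∈ L₀, l ∈ L := fun l hl => (hmemL l).2 (Or.inr (Or.inr (Or.inr hl)))
    obtain ⟨L', c1, c2, c3, c4⟩ := ih (l₁ :: l₂ :: L₀) hcov1
      (by
        intro t hI'
        obtain ⟨R, hR⟩ := ha t hI'
        obtain ⟨R', hR'⟩ := hb t hI'
        refine ⟨⟨R, List.mem_cons_of_mem _ (List.mem_cons_of_mem _ hR)⟩,
          ⟨R', List.mem_cons_of_mem _ (List.mem_cons_of_mem _ hR')⟩, ?_⟩
        obtain ⟨S, S', hS⟩ := (h1 t (hI t hI')).2.2
        rcases (hmemL _).1 hS with h | h | h | h
        · have hx : x t ≠ x t₀ := (h2 t (hI t hI') t₀ ht (hne t hI')).2.2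
          rcases link_cases hx h with ⟨W, hW⟩ | ⟨W, W', hW⟩
          · obtain ⟨W', hW'⟩ := hW (a t₀ :: P)
            refine ⟨W, W', ?_⟩
            rw [← hW', ← hl₁]
            exact List.mem_cons_self
          · refine ⟨(b t₀ :: P').reverse ++ W, W', ?_⟩
            rw [List.append_assoc, ← hW, ← hl₂]
            exact List.mem_cons_of_mem _ List.mem_cons_self
        · exfalso
          have e1 : x t ∈ a t₀ :: P := by rw [← h]; simp
          exact (h4 t (hI t hI') t₀ ht _ hP e1).1 List.mem_cons_self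
        · exfalso
          have e1 : x t ∈ b t₀ :: P' := by rw [← h]; simp
          exact (h4 t (hI t hI') t₀ ht _ hP' e1).2 List.mem_cons_self
        · exact ⟨S, S', List.mem_cons_of_mem _ (List.mem_cons_of_mem _ h)⟩)
      (fun t ht' t' ht'' => h2 t (hI t ht') t' (hI t' ht''))
      (fun t ht' t' ht'' => h3 t (hI t ht') t' (hI t' ht''))
      (by
        intro t ht' t' ht'' l hl hxl'
        simp only [List.mem_cons] at hl
        rcases hl with rfl | rfl | hl
        · exact ⟨(hnd _ (ha t' ht'')).1, (hnd _ (hb t' ht'')).1⟩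
        · exact ⟨(hnd _ (ha t' ht'')).2, (hnd _ (hb t' ht'')).2⟩
        · exact h4 t (hI t ht') t' (hI t' ht'') l (hL₀ l hl) hxl')
    refine ⟨L', c1, ?_, ?_, ?_⟩
    · rw [Finset.card_insert_of_notMem ht₀]; omega
    · refine c3.trans ?_
      rw [Finset.image_insert, Finset.image_insert]
      intro e he
      have := @hedge e
      simp only [Finset.mem_union, Finset.mem_insert, Finset.mem_singleton] at he this ⊢
      rcases he with (he | he) | he
      · rcases this he with h | h | h
        · left; left; exact h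
        · left; right; left; exact h
        · right; left; exact h
      · left; right; right; exact he
      · right; right; exact he
    · rw [Finset.sum_insert ht₀]
      linarith

end MP329
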