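import Pool.Agent.Lib.MP_329b4d_pr.C6ApplyRot

/-!
# MP_329b4d_pr, C7: applying direct merges to a path cover
-/

set_option autoImplicit false

namespace MP329

open Finset

open C6 in
theorem applyMerge : ApplyMerge := by
  intro V M _ _ _ X L I
  induction I using Finset.induction_on generalizing L with
  | empty => intro hL _ _; exact ⟨L, hL, by simp, by simp, by simp [cost]⟩
  | insert e₀ I ht₀ ih =>
    intro hL h1 h2
    induction e₀ using Sym2.ind with
    | _ u v =>
    have ht : s(u, v) ∈ insert s(u, v) I := Finset.mem_insert_self _ I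
    have hI : ∀ t ∈ I, t ∈ insert s(u, v) I := fun t h => Finset.mem_insert_of_mem h
    have hne : ∀ t ∈ I, t ≠ s(u, v) := fun t h e => ht₀ (e ▸ h)
    obtain ⟨hdiag, hheads⟩ := h1 _ ht
    obtain ⟨P, hP⟩ := hheads u (Sym2.mem_mk_left u v)
    obtain ⟨P', hP'⟩ := hheads v (Sym2.mem_mk_right u v)
    have huv : u ≠ v := fun h => hdiag (Sym2.mk_isDiag_iff.2 h)
    have hd : (v :: P') ≠ (u :: P) := by
      intro h
      rw [List.cons.injEq] at h
      exact huv h.1.symm
    obtain ⟨L₀, hperm⟩ : ∃ L₀, L.Perm ((u :: P) :: (v :: P') :: L₀) := by
      have e1 := List.perm_cons_erase hP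
      have m1 : (v :: P') ∈ L.erase (u :: P) := (List.mem_erase_of_ne hd).2 hP'
      have e2 := List.perm_cons_erase m1
      exact ⟨_, e1.trans (e2.cons _)⟩
    have hcov := B1.cover_perm _ _ hperm hL
    have hmemL : ∀ l, l ∈ L ↔ l = (u :: P) ∨ l = (v :: P') ∨ l ∈ L₀ := by
      intro l
      rw [hperm.mem_iff]
      simp only [List.mem_cons]
    set l₁ : List V := (u :: P).reverse ++ (v :: P') with hl₁
    have hcov1 : IsCover (l₁ :: L₀) := by
      refine isCover_of_perm ?_ ?_ hcov
      · rw [List.perm_iff_count]
        intro v
        simp only [hl₁, List.flatten_cons, List.count_append, List.count_cons,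
          List.count_reverse]
        omega
      · intro l hl
        simp only [List.mem_cons] at hl
        rcases hl with rfl | hl
        · simp [hl₁]
        · exact hL.ne_nil l ((hmemL l).2 (Or.inr (Or.inr hl)))
    have hlen : (l₁ :: L₀).length + 1 = L.length := by
      rw [hperm.length_eq]; simp
    have hedge : edgesL (l₁ :: L₀) ⊆ edgesL L ∪ {s(u, v)} := by
      intro e he
      rw [mem_edgesL] at he
      obtain ⟨l, hl, he⟩ := he
      rw [Finset.mem_union, Finset.mem_singleton, mem_edgesL]
      simp only [List.mem_cons] at hl
      rcases hl with rfl | hl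
      · have e1 : l₁ = P.reverse ++ u :: v :: P' := by rw [hl₁]; simp
        have e2 : P.reverse ++ [u] = (u :: P).reverse := by simp
        rw [e1, B1.links_cut, e2, B1.links_reverse] at he
        rw [List.mem_append, List.mem_cons, List.mem_reverse] at he
        rcases he with he | he | he
        · left; exact ⟨_, hP, he⟩
        · right; exact he
        · left; exact ⟨_, hP', he⟩
      · left
        exact ⟨l, (hmemL l).2 (Or.inr (Or.inr hl)), he⟩
    obtain ⟨L', c1, c2, c3, c4⟩ := ih (l₁ :: L₀) hcov1
      (by
        intro e he
        obtain ⟨q1, q2⟩ := h1 e (hI e he)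
        refine ⟨q1, fun w hw => ?_⟩
        have hw' := h2 e (hI e he) _ ht (hne e he) w hw
        obtain ⟨R, hR⟩ := q2 w hw
        refine ⟨R, ?_⟩
        rcases (hmemL _).1 hR with h | h | h
        · rw [List.cons.injEq] at h
          exact absurd (h.1 ▸ Sym2.mem_mk_left u v) hw'
        · rw [List.cons.injEq] at h
          exact absurd (h.1 ▸ Sym2.mem_mk_right u v) hw'
        · exact List.mem_cons_of_mem _ h)
      (fun e he e' he' => h2 e (hI e he) e' (hI e' he'))
    refine ⟨L', c1, ?_, ?_, ?_⟩
    · rw [Finset.card_insert_of_notMem ht₀]; omega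
    · refine c3.trans ?_
      intro e he
      have := @hedge e
      simp only [Finset.mem_union, Finset.mem_insert, Finset.mem_singleton] at he this ⊢
      rcases he with he | he
      · rcases this he with h | h
        · left; exact h
        · right; left; exact h
      · right; right; exact he
    · have e1 := cost_mono X hedge
      have e2 := cost_union_le X (edgesL L) {s(u, v)}
      rw [cost_singleton] at e2
      have e3 : cost X (insert s(u, v) I) = len X s(u, v) + cost X I := by
        unfold cost
        rw [Finset.sum_insert ht₀]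
      rw [e3]
      linarith

end MP329
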