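import Pool.Agent.Lib.MP_329b4d_pr.SpecC

/-!
# MP_329b4d_pr, C8: the round lemma
-/

set_option autoImplicit false
set_option linter.unusedSectionVars false

namespace MP329

open Finset

namespace C8

section Prob

variable {ι : Type} [Fintype ι] [DecidableEq ι]

/-- If `f ≤ m` and the expectation of `f` is at least `m / 1280` then `f ≥ m / 3000` with
probability at least `1 / 3000`. -/
theorem prob_large {q : ℝ} (h0 : 0 ≤ q) (h1 : q ≤ 1) {m : ℝ} (hm : 0 < m) {f : Finset ι → ℝ}
    (hf : ∀ S, f S ≤ m) (hE : m / 1280 ≤ Ex q f) {A : Finset ι → Prop}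
    (hA : ∀ S, m / 3000 ≤ f S → A S) : 1 / 3000 ≤ Pb q A := by
  have h2 : Ex q f ≤ Ex q (fun S => m / 3000 + m *
      (@ite ℝ (A S) (Classical.propDecidable _) 1 0)) := by
    apply Ex_mono h0 h1
    intro S
    by_cases hS : A S
    · simp only [hS, if_true]
      have := hf S
      have : 0 ≤ m / 3000 := by positivity
      linarith [hf S]
    · simp only [hS, if_false]
      have : ¬ m / 3000 ≤ f S := fun h => hS (hA S h)
      push Not at this
      linarith
  rw [Ex_add, Ex_const, Ex_mul_left] at h2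
  have h3 : Pb q A = Ex q (fun S => @ite ℝ (A S) (Classical.propDecidable _) 1 0) := rfl
  rw [← h3] at h2
  have h4 : m * (1 / 1280 - 1 / 3000) ≤ m * Pb q A := by
    have : m * (1 / 1280 - 1 / 3000) = m / 1280 - m / 3000 := by ring
    linarith
  have h5 := le_of_mul_le_mul_left h4 hm
  have h6 : (1 : ℝ) / 3000 ≤ 1 / 1280 - 1 / 3000 := by norm_num
  linarith

end Prob

section Lists

variable {V : Type}

theorem uniq {L : List (List V)} (hL : IsCover L) {l l' : List V} {v : V} (h : l ∈ L) (h' : l' ∈ L)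
    (hv : v ∈ l) (hv' : v ∈ l') : l = l' := by
  have h1 := (List.nodup_flatten.1 hL.nodup).2
  by_contra hne
  haveI : Std.Symm (List.Disjoint (α := V)) := ⟨fun _ _ h => h.symm⟩
  exact h1.forall h h' hne hv hv'

theorem nodup_mem {L : List (List V)} (hL : IsCover L) {l : List V} (h : l ∈ L) : l.Nodup :=
  (List.nodup_flatten.1 hL.nodup).1 l h

theorem filterMap_head_sublist (L : List (List V)) :
    (L.filterMap List.head?).Sublist L.flatten := by
  induction L with
  | nil => simp
  | cons l L ih =>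
    cases l with
    | nil => simpa using ih
    | cons a P =>
      simp only [List.filterMap_cons, List.head?_cons, List.flatten_cons, List.cons_append]
      exact (ih.trans (List.sublist_append_right P _)).cons_cons a

theorem length_filterMap_head (L : List (List V)) (h : ∀ l ∈ L, l ≠ []) :
    (L.filterMap List.head?).length = L.length := by
  induction L with
  | nil => simp
  | cons l L ih =>
    cases l with
    | nil => exact absurd rfl (h [] List.mem_cons_self)
    | cons a P =>
      simp only [List.filterMap_cons, List.head?_cons, List.length_cons]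
      rw [ih fun l' hl' => h l' (List.mem_cons_of_mem _ hl')]

/-- `w` comes right after `v` in one of the lists. -/
def Nxt (L : List (List V)) (v w : V) : Prop := ∃ Q₁ Q₂, (Q₁ ++ v :: w :: Q₂) ∈ L

theorem split_unique {Q₁ Q₂ R₁ R₂ : List V} {v : V} (hnd : (Q₁ ++ v :: Q₂).Nodup)
    (h : Q₁ ++ v :: Q₂ = R₁ ++ v :: R₂) : Q₁ = R₁ ∧ Q₂ = R₂ := by
  induction Q₁ generalizing R₁ with
  | nil =>
    cases R₁ with
    | nil => simpa using h
    | cons r R₁ =>
      simp only [List.nil_append, List.cons_append, List.cons.injEq] at h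
      obtain ⟨rfl, h2⟩ := h
      simp only [List.nil_append, List.nodup_cons] at hnd
      exact absurd (h2 ▸ List.mem_append_right R₁ List.mem_cons_self) hnd.1
  | cons a Q₁ ih =>
    cases R₁ with
    | nil =>
      simp only [List.nil_append, List.cons_append, List.cons.injEq] at h
      obtain ⟨rfl, h2⟩ := h
      simp only [List.cons_append, List.nodup_cons] at hnd
      exact absurd (List.mem_append_right Q₁ List.mem_cons_self) hnd.1
    | cons r R₁ =>
      simp only [List.cons_append, List.cons.injEq] at h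
      obtain ⟨rfl, h2⟩ := h
      simp only [List.cons_append, List.nodup_cons] at hnd
      obtain ⟨e1, e2⟩ := ih hnd.2 h2
      exact ⟨by rw [e1], e2⟩

theorem nxt_right {L : List (List V)} (hL : IsCover L) {v w w' : V} (h : Nxt L v w)
    (h' : Nxt L v w') : w = w' := by
  obtain ⟨Q₁, Q₂, hQ⟩ := h
  obtain ⟨R₁, R₂, hR⟩ := h'
  have e := uniq hL hQ hR (v := v) (by simp) (by simp)
  have := (split_unique (nodup_mem hL hQ) e).2
  simp only [List.cons.injEq] at this
  exact this.1

theorem nxt_left {L : List (List V)} (hL : IsCover L) {v v' w : V} (h : Nxt L v w)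
    (h' : Nxt L v' w) : v = v' := by
  obtain ⟨Q₁, Q₂, hQ⟩ := h
  obtain ⟨R₁, R₂, hR⟩ := h'
  have e := uniq hL hQ hR (v := w) (by simp) (by simp)
  have e' : (Q₁ ++ [v]) ++ w :: Q₂ = (R₁ ++ [v']) ++ w :: R₂ := by simpa using e
  have hnd : ((Q₁ ++ [v]) ++ w :: Q₂).Nodup := by simpa using nodup_mem hL hQ
  have := (split_unique hnd e').1
  have h2 := congrArg List.getLast? this
  simpa using h2

theorem nxt_not_head {L : List (List V)} (hL : IsCover L) {v w : V} (h : Nxt L v w) {P : List V}
    (hP : (w :: P) ∈ L) : False := by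
  obtain ⟨Q₁, Q₂, hQ⟩ := h
  have e := uniq hL hQ hP (v := w) (by simp) (by simp)
  have e' : (Q₁ ++ [v]) ++ w :: Q₂ = [] ++ w :: P := by simpa using e
  have hnd : ((Q₁ ++ [v]) ++ w :: Q₂).Nodup := by simpa using nodup_mem hL hQ
  have := (split_unique hnd e').1
  simp at this

theorem nxt_asymm {L : List (List V)} (hL : IsCover L) {v w : V} (h : Nxt L v w)
    (h' : Nxt L w v) : False := by
  obtain ⟨Q₁, Q₂, hQ⟩ := h
  obtain ⟨R₁, R₂, hR⟩ := h'
  have e := uniq hL hQ hR (v := w) (by simp) (by simp)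
  have e' : (Q₁ ++ [v]) ++ w :: Q₂ = R₁ ++ w :: (v :: R₂) := by simpa using e
  have hnd : ((Q₁ ++ [v]) ++ w :: Q₂).Nodup := by simpa using nodup_mem hL hQ
  obtain ⟨e1, e2⟩ := split_unique hnd e'
  rw [e2] at hnd
  have h3 := List.nodup_append'.1 hnd
  exact h3.2.2 (show v ∈ Q₁ ++ [v] by simp) (show v ∈ w :: v :: R₂ by simp)

/-- A vertex without a next vertex is the last one of its list. -/
theorem last_of_not_nxt {L : List (List V)} {l : List V} (hl : l ∈ L) {v : V} (hv : v ∈ l)
    (h : ¬ ∃ w, Nxt L v w) : ∃ Q, l = Q ++ [v] := by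
  obtain ⟨Q₁, Q₂, rfl⟩ := List.append_of_mem hv
  cases Q₂ with
  | nil => exact ⟨Q₁, rfl⟩
  | cons w Q₂ => exact absurd ⟨w, Q₁, Q₂, hl⟩ h

end Lists

section Count

variable {V : Type} [Fintype V] [DecidableEq V]

open Classical in
/-- The heads of the lists. -/
noncomputable def heads (L : List (List V)) : Finset V := univ.filter fun v => ∃ P, (v :: P) ∈ L

theorem mem_heads {L : List (List V)} {v : V} : v ∈ heads L ↔ ∃ P, (v :: P) ∈ L := by
  simp [heads]

theorem card_heads {L : List (List V)} (hL : IsCover L) : #(heads L) = L.length := by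
  have h1 : heads L = (L.filterMap List.head?).toFinset := by
    ext v
    rw [mem_heads, List.mem_toFinset, List.mem_filterMap]
    constructor
    · rintro ⟨P, hP⟩
      exact ⟨_, hP, rfl⟩
    · rintro ⟨l, hl, h⟩
      obtain ⟨P, rfl⟩ := List.head?_eq_some_iff.1 h
      exact ⟨P, hl⟩
  rw [h1, List.toFinset_card_of_nodup ((filterMap_head_sublist L).nodup hL.nodup),
    length_filterMap_head _ hL.ne_nil]

open Classical in
theorem card_last {L : List (List V)} (hL : IsCover L) :
    #(univ.filter fun v : V => ¬ ∃ w, Nxt L v w) ≤ L.length := by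
  have hlab : ∀ v : V, ∃ l ∈ L, v ∈ l := fun v => by
    have := hL.covers v
    rw [List.mem_flatten] at this
    exact this
  choose lab hlabL hlabm using hlab
  refine le_trans ?_ (List.toFinset_card_le L)
  apply Finset.card_le_card_of_injOn lab
  · intro v _
    simpa using hlabL v
  · intro v hv w hw hvw
    have hv' : ¬ ∃ z, Nxt L v z := by simpa using hv
    have hw' : ¬ ∃ z, Nxt L w z := by simpa using hw
    obtain ⟨Q, hQ⟩ := last_of_not_nxt (hlabL v) (hlabm v) hv'
    obtain ⟨Q', hQ'⟩ := last_of_not_nxt (hlabL w) (hlabm w) hw'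
    have h1 : Q ++ [v] = Q' ++ [w] := by rw [← hQ, ← hQ']; exact hvw
    have h2 := congrArg List.getLast? h1
    simpa using h2

theorem mem_edgesL (h1 : ListFacts) {L : List (List V)} {v w : V} (h : Nxt L v w) :
    s(v, w) ∈ edgesL L := by
  obtain ⟨Q₁, Q₂, hQ⟩ := h
  unfold edgesL
  rw [List.mem_toFinset, List.mem_flatMap]
  exact ⟨_, hQ, (h1.mem_links V _ v w).2 (Or.inl ⟨Q₁, Q₂, rfl⟩)⟩

variable {M : Type} [PseudoMetricSpace M]

theorem len_nonneg (X : V → M) (e : Sym2 V) : 0 ≤ len X e := by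
  induction e using Sym2.ind with
  | _ a b => exact dist_nonneg

theorem len_mk (X : V → M) (a b : V) : len X s(a, b) = dist (X a) (X b) := rfl

theorem cost_long (h1 : ListFacts) {L : List (List V)} (hL : IsCover L) (X : V → M) {ρ : ℝ}
    (nx : V → V) (T : Finset V) (hT : ∀ v ∈ T, Nxt L v (nx v) ∧ ρ ≤ dist (X v) (X (nx v))) :
    ρ * #T ≤ cost X (edgesL L) := by
  have hinj : Set.InjOn (fun v => s(v, nx v)) (T : Set V) := by
    intro v hv w hw hvw
    have e := Sym2.eq_iff.1 hvw
    rcases e with ⟨e1, _⟩ | ⟨e1, e2⟩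
    · exact e1
    · exfalso
      have a1 := (hT v hv).1
      have a2 := (hT w hw).1
      rw [e2] at a1
      rw [← e1] at a2
      exact nxt_asymm hL a1 a2
  have h2 : T.image (fun v => s(v, nx v)) ⊆ edgesL L := by
    intro e he
    obtain ⟨v, hv, rfl⟩ := Finset.mem_image.1 he
    exact mem_edgesL h1 (hT v hv).1
  calc ρ * #T = ∑ _v ∈ T, ρ := by rw [Finset.sum_const, nsmul_eq_mul, mul_comm]
    _ ≤ ∑ v ∈ T, len X s(v, nx v) := Finset.sum_le_sum fun v hv => (hT v hv).2
    _ = ∑ e ∈ T.image (fun v => s(v, nx v)), len X e := (Finset.sum_image hinj).symm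
    _ ≤ cost X (edgesL L) :=
        Finset.sum_le_sum_of_subset_of_nonneg h2 fun e _ _ => len_nonneg X e

theorem finish {X : V → M} {ρ q : ℝ} {L : List (List V)} (h0 : 0 ≤ q) (h1 : q ≤ 1)
    (hm : 0 < L.length) (g : Finset (Sym2 V) → ℝ)
    (hg : ∀ S, ∃ (k : ℕ) (L' : List (List V)), g S ≤ k ∧ IsCover L' ∧ L'.length + k = L.length ∧
      edgesL L' ⊆ edgesL L ∪ S ∧ cost X (edgesL L') ≤ cost X (edgesL L) + 4 * ρ * L.length)
    (hE : (L.length : ℝ) / 1280 ≤ Ex q g) :
    1 / 3000 ≤ Pb q (fun S => ∃ L', IsCover L' ∧ (L'.length : ℝ) ≤ (1 - 1 / 3000) * L.length ∧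
      edgesL L' ⊆ edgesL L ∪ S ∧ cost X (edgesL L') ≤ cost X (edgesL L) + 4 * ρ * L.length) := by
  have hm' : (0 : ℝ) < L.length := by exact_mod_cast hm
  apply prob_large h0 h1 hm' _ hE
  · intro S hS
    obtain ⟨k, L', hk, hc, hlen, he, hcost⟩ := hg S
    refine ⟨L', hc, ?_, he, hcost⟩
    have : (L'.length : ℝ) + k = L.length := by exact_mod_cast hlen
    linarith
  · intro S
    obtain ⟨k, L', hk, hc, hlen, he, hcost⟩ := hg S
    have h2 : (L'.length : ℝ) + k = L.length := by exact_mod_cast hlen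
    have h3 : (0 : ℝ) ≤ L'.length := Nat.cast_nonneg _
    linarith

end Count

end C8

open C8

open Classical in
theorem roundLemma (h1 : ListFacts) (h2 : DirectPairs) (h3 : RotTriples) (h4 : Bookkeeping)
    (h5 : Colouring) (h6 : ApplyRot) (h7 : ApplyMerge) : RoundLemma := by
  intro V M κ _ _ _ _ X c N ρ q L hL hq0 hq1 hρ hcell hdist hN1 hN2 hN3 hcost
  have hq1' : q ≤ 1 := hq1.trans (by norm_num)
  rcases Nat.eq_zero_or_pos L.length with hm0 | hm
  · -- no lists at all
    have h8 : Pb q (fun S => ∃ L', IsCover L' ∧ (L'.length : ℝ) ≤ (1 - 1 / 3000) * L.length ∧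
        edgesL L' ⊆ edgesL L ∪ S ∧
        cost X (edgesL L') ≤ cost X (edgesL L) + 4 * ρ * L.length) = 1 := by
      apply Pb_of_forall
      intro S
      refine ⟨L, hL, ?_, Finset.subset_union_left, ?_⟩
      · rw [hm0]; simp
      · rw [hm0]; simp
    rw [h8]
    norm_num
  have hm' : (0 : ℝ) < L.length := by exact_mod_cast hm
  -- labels and successors
  have hlab : ∀ v : V, ∃ l ∈ L, v ∈ l := fun v => by
    have := hL.covers v
    rw [List.mem_flatten] at this
    exact this
  choose lab hlabL hlabm using hlab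
  have hlab_eq : ∀ {v : V} {l : List V}, l ∈ L → v ∈ l → lab v = l := fun {v l} hl hv =>
    uniq hL (hlabL v) hl (hlabm v) hv
  set nx : V → V := fun v => if h : ∃ w, Nxt L v w then h.choose else v with hnx
  have hnxt : ∀ v, (∃ w, Nxt L v w) → Nxt L v (nx v) := by
    intro v hv
    rw [hnx]
    simp only [hv, dite_true]
    exact hv.choose_spec
  -- the bad vertices
  set T : Finset V := univ.filter fun v => (∃ w, Nxt L v w) ∧ ρ < dist (X v) (X (nx v)) with hT
  set last : Finset V := univ.filter fun v => ¬ ∃ w, Nxt L v w with hlast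
  set bad : Finset V := last ∪ T with hbad
  have hTcard : ρ * #T ≤ cost X (edgesL L) := by
    apply cost_long h1 hL X nx T
    intro v hv
    simp only [hT, Finset.mem_filter, Finset.mem_univ, true_and] at hv
    exact ⟨hnxt v hv.1, hv.2.le⟩
  have hbadcard : (#(bad) : ℝ) ≤ #(heads L) + q * N * #(heads L) / 2 := by
    have e1 : (#(bad) : ℝ) ≤ #(last) + #T := by exact_mod_cast Finset.card_union_le _ _
    have e2 : (#(last) : ℝ) ≤ L.length := by exact_mod_cast card_last hL
    have e3 : (#T : ℝ) ≤ q * N * L.length / 2 := by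
      have : ρ * #T ≤ ρ * (q * N * L.length / 2) := by linarith
      exact le_of_mul_le_mul_left this hρ
    rw [card_heads hL]
    linarith
  have hgood : ∀ x, x ∉ bad → Nxt L x (nx x) ∧ dist (X x) (X (nx x)) ≤ ρ := by
    intro x hx
    rw [hbad, Finset.mem_union, not_or] at hx
    have e1 : ∃ w, Nxt L x w := by
      by_contra hcon
      exact hx.1 (by simp only [hlast, Finset.mem_filter, Finset.mem_univ, true_and]; exact hcon)
    refine ⟨hnxt x e1, ?_⟩
    by_contra hcon
    push Not at hcon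
    exact hx.2 (by simp only [hT, Finset.mem_filter, Finset.mem_univ, true_and]; exact ⟨e1, hcon⟩)
  -- the parameter k
  set k : ℕ := ⌈1 / (20 * q)⌉₊ with hk
  have hk1 : 1 ≤ 20 * q * k := by
    have e1 := Nat.le_ceil (1 / (20 * q))
    have e2 : 1 = 20 * q * (1 / (20 * q)) := by field_simp
    calc 1 = 20 * q * (1 / (20 * q)) := e2
      _ ≤ 20 * q * k := mul_le_mul_of_nonneg_left e1 (by positivity)
  have hk2 : 20 * q * ((k : ℝ) - 1) ≤ 1 := by
    have e1 := Nat.ceil_lt_add_one (show 0 ≤ 1 / (20 * q) by positivity)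
    have e2 : 1 = 20 * q * (1 / (20 * q)) := by field_simp
    calc 20 * q * ((k : ℝ) - 1) ≤ 20 * q * (1 / (20 * q)) :=
          mul_le_mul_of_nonneg_left (by linarith) (by positivity)
      _ = 1 := e2.symm
  have hheads : #(heads L) = L.length := card_heads hL
  rcases h4 V κ c N q k (heads L) bad hq0 hq1 hk1 hk2 hcell (by rw [hheads]; exact hN1) hN2
    (by rw [hheads]; exact hN3) hbadcard with
    ⟨𝓑, h𝓑, h𝓑d, h𝓑c⟩ | ⟨Γ, A, B, Y, hΓ, hΓc⟩
  · -- direct merges
    obtain ⟨I, hI, hIE⟩ := h2 V q k 𝓑 hq0 hq1 hk1 hk2 (fun B hB => (h𝓑 B hB).2.1) h𝓑d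
    apply finish hq0.le hq1' hm (fun S => (#(I S) : ℝ))
    · intro S
      obtain ⟨hIS, hIB, hIm⟩ := hI S
      obtain ⟨L', hL', hlen, he, hc⟩ := h7 V M X L (I S) hL
        (by
          intro e he
          obtain ⟨hd, B, hB, hBe⟩ := hIB e he
          exact ⟨hd, fun v hv => mem_heads.1 ((h𝓑 B hB).1 (hBe v hv))⟩) hIm
      refine ⟨#(I S), L', le_rfl, hL', hlen, ?_, ?_⟩
      · exact he.trans (Finset.union_subset_union_right hIS)
      · have e1 : cost X (I S) ≤ ∑ _e ∈ I S, ρ := by
          apply Finset.sum_le_sum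
          intro e
          induction e using Sym2.ind with
          | _ a b =>
            intro he
            obtain ⟨hd, B, hB, hBe⟩ := hIB _ he
            rw [len_mk]
            exact hdist a b ((h𝓑 B hB).2.2 a (hBe a (Sym2.mem_mk_left a b)) b
              (hBe b (Sym2.mem_mk_right a b)))
        rw [Finset.sum_const, nsmul_eq_mul] at e1
        have e2 : (#(I S) : ℝ) ≤ L.length := by
          have : #(I S) ≤ L.length := by omega
          exact_mod_cast this
        have e3 : (#(I S) : ℝ) * ρ ≤ L.length * ρ := mul_le_mul_of_nonneg_right e2 hρ.le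
        have e4 : 0 ≤ (L.length : ℝ) * ρ := by positivity
        linarith
    · rw [hheads] at h𝓑c
      linarith
  · -- rotations
    have hcA : ∀ C ∈ Γ, ∀ v ∈ A C, c v = C := fun C hC v hv =>
      (hΓ C hC).2.2.2.2.1 v (by simp [hv])
    have hcB : ∀ C ∈ Γ, ∀ v ∈ B C, c v = C := fun C hC v hv =>
      (hΓ C hC).2.2.2.2.1 v (by simp [hv])
    have hcY : ∀ C ∈ Γ, ∀ v ∈ Y C, c v = C := fun C hC v hv =>
      (hΓ C hC).2.2.2.2.1 v (by simp [hv])
    have hAH : ∀ C ∈ Γ, ∀ v ∈ A C ∪ B C, v ∈ heads L := by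
      intro C hC v hv
      rw [Finset.mem_union] at hv
      rcases hv with hv | hv
      · exact (hΓ C hC).1 hv
      · exact (hΓ C hC).2.1 hv
    have hYg : ∀ C ∈ Γ, ∀ x ∈ Y C, Nxt L x (nx x) ∧ dist (X x) (X (nx x)) ≤ ρ := by
      intro C hC x hx
      exact hgood x fun hb => (Finset.disjoint_left.1 (hΓ C hC).2.2.2.1 hx) hb
    have hheadlab : ∀ u v, u ∈ heads L → v ∈ heads L → lab u = lab v → u = v := by
      intro u v hu hv huv
      obtain ⟨P, hP⟩ := mem_heads.1 hu
      obtain ⟨P', hP'⟩ := mem_heads.1 hv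
      have e1 := hlab_eq hP List.mem_cons_self
      have e2 := hlab_eq hP' List.mem_cons_self
      rw [e1, e2] at huv
      simp only [List.cons.injEq] at huv
      exact huv.1
    have hAB : ∀ C ∈ Γ, ∀ C' ∈ Γ, Disjoint (A C) (B C') := by
      intro C hC C' hC'
      by_cases hCC : C = C'
      · rw [← hCC]
        exact (hΓ C hC).2.2.2.2.2.1
      · rw [Finset.disjoint_left]
        intro v hv hv'
        exact hCC ((hcA C hC v hv).symm.trans (hcB C' hC' v hv'))
    obtain ⟨I, hI, hId, hIE⟩ := h3 V (List V) κ q Γ A B Y lab nx hq0 hq1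
      (fun C hC => ⟨(hΓ C hC).2.2.2.2.2.2.1, (hΓ C hC).2.2.2.2.2.2.2.1,
        (hΓ C hC).2.2.2.2.2.2.2.2.1, (hΓ C hC).2.2.2.2.2.2.2.2.2.1,
        (hΓ C hC).2.2.2.2.2.2.2.2.2.2⟩)
      hAB
      (by
        intro C hC C' hC' hne
        refine ⟨?_, ?_, ?_⟩ <;> rw [Finset.disjoint_left] <;> intro v hv hv'
        · exact hne ((hcA C hC v hv).symm.trans (hcA C' hC' v hv'))
        · exact hne ((hcB C hC v hv).symm.trans (hcB C' hC' v hv'))
        · exact hne ((hcY C hC v hv).symm.trans (hcY C' hC' v hv')))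
      (by
        intro C hC
        rw [Finset.disjoint_left]
        intro v hv hv'
        exact (Finset.disjoint_left.1 (hΓ C hC).2.2.1 hv') (hAH C hC v hv))
      (fun C hC u hu v hv huv => hheadlab u v (hAH C hC u hu) (hAH C hC v hv) huv)
      (by
        intro C hC C' hC' x hx x' hx' hxx
        have e1 := (hYg C hC x hx).1
        have e2 := (hYg C' hC' x' hx').1
        rw [hxx] at e1
        exact nxt_left hL e1 e2)
      (by
        intro C hC C' hC' x hx hcon
        obtain ⟨P, hP⟩ := mem_heads.1 (hAH C' hC' _ hcon)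
        exact nxt_not_head hL (hYg C hC x hx).1 hP)
    apply finish hq0.le hq1' hm (fun S => 1 / 8 * (#(I S) : ℝ))
    · intro S
      have hIS := hI S
      have hISd := hId S
      have hab : ∀ t ∈ I S, t.1 ∈ heads L ∧ t.2.2 ∈ heads L ∧ t.1 ≠ t.2.2 := by
        intro t ht
        obtain ⟨⟨C, hC, ha, hx, hb⟩, -, -, -, -⟩ := hIS t ht
        refine ⟨(hΓ C hC).1 ha, (hΓ C hC).2.1 hb, ?_⟩
        intro hcon
        rw [hcon] at ha
        exact (Finset.disjoint_left.1 (hAB C hC C hC) ha) hb
      obtain ⟨Act, hAct⟩ := h5 (List V) (V × V × V) (I S) (fun t => lab t.1)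
        (fun t => lab t.2.2) (fun t => lab t.2.1)
        (by
          intro t ht
          obtain ⟨-, hl1, hl2, -, -⟩ := hIS t ht
          obtain ⟨ha, hb, hne⟩ := hab t ht
          exact ⟨fun h => hne (hheadlab _ _ ha hb h), fun h => hl1 h.symm, fun h => hl2 h.symm⟩)
      set I' : Finset (V × V × V) := (I S).filter
        (fun t => lab t.1 ∈ Act ∧ lab t.2.2 ∈ Act ∧ lab t.2.1 ∉ Act) with hI'
      have hI'S : ∀ t ∈ I', t ∈ I S ∧ lab t.1 ∈ Act ∧ lab t.2.2 ∈ Act ∧ lab t.2.1 ∉ Act := by
        intro t ht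
        rw [hI', Finset.mem_filter] at ht
        exact ht
      obtain ⟨L', hL', hlen, he, hc⟩ := h6 V M (V × V × V) X L I' (fun t => t.1)
        (fun t => t.2.1) (fun t => nx t.2.1) (fun t => t.2.2) hL
        (by
          intro t ht
          obtain ⟨⟨C, hC, ha, hx, hb⟩, -, -, -, -⟩ := hIS t (hI'S t ht).1
          exact ⟨mem_heads.1 ((hΓ C hC).1 ha), mem_heads.1 ((hΓ C hC).2.1 hb),
            (hYg C hC _ hx).1⟩)
        (by
          intro t ht t' ht' hne
          obtain ⟨e1, e2, e3⟩ := hISd t (hI'S t ht).1 t' (hI'S t' ht').1 hne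
          exact ⟨e1, e3, e2⟩)
        (by
          intro t ht t' ht' hcon
          obtain ⟨⟨C, hC, ha, hx, hb⟩, -, -, -, -⟩ := hIS t (hI'S t ht).1
          obtain ⟨⟨C', hC', ha', hx', hb'⟩, -, -, -, -⟩ := hIS t' (hI'S t' ht').1
          have hcon' : t.1 = t'.2.2 := hcon
          rw [hcon'] at ha
          exact (Finset.disjoint_left.1 (hAB C hC C' hC') ha) hb')
        (by
          intro t ht t' ht' l hl hx
          have e1 := hlab_eq hl hx
          have e2 := (hI'S t ht).2.2.2
          rw [e1] at e2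
          constructor
          · intro ha
            have e3 := (hI'S t' ht').2.1
            rw [hlab_eq hl ha] at e3
            exact e2 e3
          · intro hb
            have e3 := (hI'S t' ht').2.2.1
            rw [hlab_eq hl hb] at e3
            exact e2 e3)
      refine ⟨#I', L', ?_, hL', hlen, ?_, ?_⟩
      · have : (#(I S) : ℝ) ≤ 8 * #I' := by exact_mod_cast hAct
        linarith
      · intro e hee
        have e1 := he hee
        rw [Finset.mem_union, Finset.mem_union] at e1
        rcases e1 with (e1 | e1) | e1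
        · exact Finset.mem_union_left _ e1
        · apply Finset.mem_union_right
          obtain ⟨t, ht, rfl⟩ := Finset.mem_image.1 e1
          exact (hIS t (hI'S t ht).1).2.2.2.1
        · apply Finset.mem_union_right
          obtain ⟨t, ht, rfl⟩ := Finset.mem_image.1 e1
          exact (hIS t (hI'S t ht).1).2.2.2.2
      · have e1 : ∑ t ∈ I', (dist (X t.1) (X t.2.1) + dist (X (nx t.2.1)) (X t.2.2)) ≤
            ∑ _t ∈ I', 3 * ρ := by
          apply Finset.sum_le_sum
          intro t ht
          obtain ⟨⟨C, hC, ha, hx, hb⟩, -, -, -, -⟩ := hIS t (hI'S t ht).1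
          have d1 := hdist t.1 t.2.1 ((hcA C hC _ ha).trans (hcY C hC _ hx).symm)
          have d2 := hdist t.2.1 t.2.2 ((hcY C hC _ hx).trans (hcB C hC _ hb).symm)
          have d3 := (hYg C hC _ hx).2
          have d4 := dist_triangle (X (nx t.2.1)) (X t.2.1) (X t.2.2)
          rw [dist_comm (X (nx t.2.1)) (X t.2.1)] at d4
          linarith
        rw [Finset.sum_const, nsmul_eq_mul] at e1
        have e2 : (#I' : ℝ) ≤ L.length := by
          have : #I' ≤ L.length := by omega
          exact_mod_cast this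
        have e3 : (#I' : ℝ) * (3 * ρ) ≤ L.length * (3 * ρ) :=
          mul_le_mul_of_nonneg_right e2 (by positivity)
        have e4 : 0 ≤ (L.length : ℝ) * ρ := by positivity
        linarith
    · rw [Ex_mul_left]
      rw [hheads] at hΓc
      have e1 : ∑ C ∈ Γ, (#(A C) : ℝ) / 20 = (∑ C ∈ Γ, (#(A C) : ℝ)) / 20 := by
        rw [Finset.sum_div]
      rw [e1] at hIE
      linarith

end MP329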