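import Pool.Agent.Lib.MP_329b4d_pr.SpecD
import Pool.Agent.Lib.MP_329b4d_pr.Basic

/-!
# MP_329b4d_pr: D1, expansion of sparse random graphs
-/

namespace MP329

open Finset

namespace D1

variable {V : Type} [Fintype V] [DecidableEq V]

/-- The pairs between `U` and the complement of `E₀ ∪ U ∪ Y`. -/
def pairsD (E₀ U Y : Finset V) : Finset (Sym2 V) :=
  (U ×ˢ (univ \ (E₀ ∪ U ∪ Y))).image fun x => s(x.1, x.2)

theorem card_pairsD (E₀ U Y : Finset V) :
    #(pairsD E₀ U Y) = #U * #(univ \ (E₀ ∪ U ∪ Y)) := by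
  unfold pairsD
  rw [card_image_of_injOn, card_product]
  rintro ⟨a, b⟩ hab ⟨c, d⟩ hcd h
  simp only [coe_product, Set.mem_prod, mem_coe, mem_sdiff, mem_univ, true_and, mem_union,
    not_or] at hab hcd
  rw [Sym2.eq_iff] at h
  rcases h with ⟨h1, h2⟩ | ⟨h1, h2⟩
  · exact Prod.ext h1 h2
  · exfalso
    have h3 : a = d := h1
    rw [h3] at hab
    exact hcd.2.1.2 hab.1

theorem card_rest (E₀ U Y : Finset V) :
    Fintype.card V ≤ #(univ \ (E₀ ∪ U ∪ Y)) + (#E₀ + #U + #Y) := by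
  have h1 := card_sdiff_add_card_inter (univ : Finset V) (E₀ ∪ U ∪ Y)
  rw [univ_inter, card_univ] at h1
  have h2 := card_union_le (E₀ ∪ U) Y
  have h3 := card_union_le E₀ U
  omega

theorem sum_choose_le (n m : ℕ) : ∑ j ∈ range (m + 1), n.choose j ≤ (n + 1) ^ m := by
  rw [add_pow]
  refine sum_le_sum fun j hj => ?_
  rw [one_pow, mul_one]
  have h1 : 1 ≤ m.choose j := Nat.choose_pos (by
    have := mem_range.1 hj
    omega)
  calc n.choose j ≤ n ^ j := Nat.choose_le_pow n j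
    _ = n ^ j * 1 := (mul_one _).symm
    _ ≤ n ^ j * m.choose j := Nat.mul_le_mul_left _ h1

theorem card_small (m : ℕ) :
    #((univ : Finset (Finset V)).filter fun Y => #Y ≤ m) ≤ (Fintype.card V + 1) ^ m := by
  refine le_trans ?_ (sum_choose_le (Fintype.card V) m)
  have h : ((univ : Finset (Finset V)).filter fun Y => #Y ≤ m) =
      (range (m + 1)).biUnion fun j => powersetCard j univ := by
    ext Y
    simp only [mem_filter, mem_univ, true_and, mem_biUnion, mem_range, mem_powersetCard,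
      subset_univ]
    constructor
    · intro h
      exact ⟨#Y, by omega, rfl⟩
    · rintro ⟨j, h1, h2⟩
      omega
  rw [h]
  refine card_biUnion_le.trans (sum_le_sum fun j _ => ?_)
  rw [card_powersetCard, card_univ]

/-- The index set for a fixed size `t`. -/
def idx (V : Type) [Fintype V] [DecidableEq V] (t m : ℕ) : Finset (Finset V × Finset V) :=
  (powersetCard t univ) ×ˢ ((univ : Finset (Finset V)).filter fun Y => #Y ≤ m)

theorem card_idx (t m : ℕ) : #(idx V t m) ≤ (Fintype.card V + 1) ^ (t + m) := by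
  unfold idx
  rw [card_product, pow_add]
  refine Nat.mul_le_mul ?_ (card_small m)
  rw [card_powersetCard, card_univ]
  exact (Nat.choose_le_pow _ _).trans (Nat.pow_le_pow_left (Nat.le_succ _) _)

theorem nbrs_mono (S : Finset (Sym2 V)) {U U' : Finset V} (h : U' ⊆ U) : nbrs S U' ⊆ nbrs S U := by
  intro y hy
  unfold nbrs at hy ⊢
  rw [mem_filter] at hy ⊢
  obtain ⟨u, hu, hs⟩ := hy.2
  exact ⟨mem_univ _, u, h hu, hs⟩

/-- A failure of expansion gives a small set with few neighbours. -/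
theorem small_of_fail {g : ℝ} {E₀ : Finset V} {S : Finset (Sym2 V)} (hg : 1 ≤ g)
    (hn : 32 * g ≤ Fintype.card V) (hf : ¬ Expands g E₀ S) :
    ∃ U : Finset V, 1 ≤ #U ∧ g * #U ≤ (Fintype.card V : ℝ) / 16 ∧
      (#(nbrs S U \ E₀) : ℝ) < g * #U := by
  unfold Expands at hf
  push Not at hf
  obtain ⟨U, hU, hlt⟩ := hf
  have hg0 : 0 < g := by linarith
  by_cases hc : g * #U ≤ (Fintype.card V : ℝ) / 16
  · exact ⟨U, hU.card_pos, hc, lt_of_lt_of_le hlt (min_le_left _ _)⟩
  · push Not at hc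
    set t : ℕ := ⌊(Fintype.card V : ℝ) / (16 * g)⌋₊ with ht
    have h0 : (0 : ℝ) ≤ (Fintype.card V : ℝ) / (16 * g) := by positivity
    have h1 : (t : ℝ) ≤ (Fintype.card V : ℝ) / (16 * g) := Nat.floor_le h0
    have h2 : (Fintype.card V : ℝ) / (16 * g) < t + 1 := Nat.lt_floor_add_one _
    have h3 : (Fintype.card V : ℝ) / (16 * g) * g = (Fintype.card V : ℝ) / 16 := by
      field_simp
    have h4 : (t : ℝ) * g ≤ (Fintype.card V : ℝ) / 16 := by
      rw [← h3]
      exact mul_le_mul_of_nonneg_right h1 hg0.le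
    have h5 : (Fintype.card V : ℝ) / 16 < (t + 1) * g := by
      rw [← h3]
      exact mul_lt_mul_of_pos_right h2 hg0
    have h6 : t ≤ #U := by
      have : (t : ℝ) * g < #U * g := by
        rw [mul_comm (#U : ℝ) g]
        exact lt_of_le_of_lt h4 hc
      have := lt_of_mul_lt_mul_right this hg0.le
      exact_mod_cast this.le
    have h7 : 1 ≤ t := by
      by_contra h
      have h8 : t = 0 := by omega
      rw [h8, Nat.cast_zero, zero_add, one_mul] at h5
      linarith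
    obtain ⟨U', hU', hcard⟩ := exists_subset_card_eq h6
    refine ⟨U', by omega, ?_, ?_⟩
    · rw [hcard, mul_comm]
      exact h4
    · have h8 : (#(nbrs S U' \ E₀) : ℝ) ≤ #(nbrs S U \ E₀) := by
        exact_mod_cast card_le_card (sdiff_subset_sdiff (nbrs_mono S hU') (le_refl E₀))
      have h9 : (#(nbrs S U \ E₀) : ℝ) < (Fintype.card V : ℝ) / 32 :=
        lt_of_lt_of_le hlt (min_le_right _ _)
      rw [hcard]
      nlinarith

/-- A small set with few neighbours gives a pair of sets whose pairs are avoided. -/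
theorem mem_of_small {g : ℝ} {E₀ : Finset V} {S : Finset (Sym2 V)} {U : Finset V}
    (h3 : (#(nbrs S U \ E₀) : ℝ) < g * #U) :
    ∃ p ∈ idx V #U ⌊g * (#U : ℝ)⌋₊, Disjoint (pairsD E₀ p.1 p.2) S := by
  refine ⟨(U, (nbrs S U \ E₀) \ U), ?_, ?_⟩
  · unfold idx
    rw [mem_product]
    refine ⟨mem_powersetCard.2 ⟨subset_univ _, rfl⟩, ?_⟩
    rw [mem_filter]
    refine ⟨mem_univ _, ?_⟩
    refine (card_le_card sdiff_subset).trans ?_
    exact Nat.le_floor h3.le
  · rw [disjoint_left]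
    intro e he heS
    unfold pairsD at he
    rw [mem_image] at he
    obtain ⟨⟨a, b⟩, hab, rfl⟩ := he
    simp only [mem_product, mem_sdiff, mem_univ, true_and, mem_union, not_or] at hab
    obtain ⟨ha, ⟨hb1, hb2⟩, hb3⟩ := hab
    apply hb3
    refine ⟨⟨?_, hb1⟩, hb2⟩
    unfold nbrs
    rw [mem_filter]
    exact ⟨mem_univ _, a, ha, heS⟩

theorem one_sub_pow_le {q : ℝ} (h1 : q ≤ 1) (k : ℕ) {x : ℝ} (hx : x ≤ k) (h0 : 0 ≤ q) :
    (1 - q) ^ k ≤ Real.exp (-(q * x)) := by
  have h2 : 1 - q ≤ Real.exp (-q) := by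
    have := Real.add_one_le_exp (-q)
    linarith
  calc (1 - q) ^ k ≤ Real.exp (-q) ^ k := pow_le_pow_left₀ (by linarith) h2 k
    _ = Real.exp (-(q * k)) := by
      rw [← Real.exp_nat_mul]
      congr 1
      ring
    _ ≤ Real.exp (-(q * x)) := by
      apply Real.exp_le_exp.2
      have := mul_le_mul_of_nonneg_left hx h0
      linarith

end D1

open D1 in
theorem expandsLikely : ExpandsLikely := by
  intro V _ _ q g E₀ hq0 hq1 hE hg hn hlog
  classical
  set n : ℝ := (Fintype.card V : ℝ) with hndef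
  have hn0 : 32 ≤ n := by linarith
  have hg0 : 0 < g := by linarith
  let T : Finset ℕ := (Icc 1 (Fintype.card V)).filter fun t => g * (t : ℝ) ≤ n / 16
  -- the failure event
  have key : Pb q (fun S => ¬ Expands g E₀ S) ≤
      ∑ t ∈ T, ∑ p ∈ idx V t ⌊g * (t : ℝ)⌋₊, Pb q (fun S => Disjoint (pairsD E₀ p.1 p.2) S) := by
    refine le_trans (Pb_mono hq0 hq1 (B := fun S => ∃ t ∈ T, ∃ p ∈ idx V t ⌊g * (t : ℝ)⌋₊,
      Disjoint (pairsD E₀ p.1 p.2) S) ?_) ?_
    · intro S hS
      obtain ⟨U, h1, h2, h3⟩ := small_of_fail hg hn hS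
      refine ⟨#U, ?_, mem_of_small h3⟩
      rw [mem_filter, mem_Icc]
      exact ⟨⟨h1, card_le_univ U⟩, h2⟩
    · refine le_trans (Pb_exists_le hq0 hq1 T _) (sum_le_sum fun t _ => ?_)
      exact Pb_exists_le hq0 hq1 _ _
  have hterm : ∀ t ∈ T, ∑ p ∈ idx V t ⌊g * (t : ℝ)⌋₊,
      Pb q (fun S => Disjoint (pairsD E₀ p.1 p.2) S) ≤ Real.exp (-(q * n / 4)) := by
    intro t ht
    rw [mem_filter, mem_Icc] at ht
    obtain ⟨⟨ht1, ht2⟩, ht3⟩ := ht
    have ht1' : (1 : ℝ) ≤ t := by exact_mod_cast ht1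
    have hp : ∀ p ∈ idx V t ⌊g * (t : ℝ)⌋₊,
        Pb q (fun S => Disjoint (pairsD E₀ p.1 p.2) S) ≤ Real.exp (-(q * (t * (n / 2)))) := by
      intro p hp
      rw [Pb_disjoint]
      apply one_sub_pow_le hq1 _ _ hq0
      unfold idx at hp
      rw [mem_product, mem_powersetCard, mem_filter] at hp
      obtain ⟨⟨_, hp1⟩, _, hp2⟩ := hp
      rw [card_pairsD, hp1, Nat.cast_mul]
      apply mul_le_mul_of_nonneg_left _ (by linarith)
      have h1 : n ≤ (#(univ \ (E₀ ∪ p.1 ∪ p.2)) : ℝ) + ((#E₀ : ℝ) + t + #p.2) := by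
        have := card_rest E₀ p.1 p.2
        rw [hp1] at this
        rw [hndef]
        exact_mod_cast this
      have h2 : (#p.2 : ℝ) ≤ g * t := by
        have h3 : ((⌊g * (t : ℝ)⌋₊ : ℕ) : ℝ) ≤ g * t := Nat.floor_le (by positivity)
        have h4 : (#p.2 : ℝ) ≤ ((⌊g * (t : ℝ)⌋₊ : ℕ) : ℝ) := by exact_mod_cast hp2
        linarith
      have h3 : (t : ℝ) ≤ g * t := by nlinarith
      linarith
    have hcard : ((#(idx V t ⌊g * (t : ℝ)⌋₊) : ℕ) : ℝ) ≤
        Real.exp (t * (1 + g) * Real.log (n + 1)) := by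
      have h1 : ((#(idx V t ⌊g * (t : ℝ)⌋₊) : ℕ) : ℝ) ≤ (n + 1) ^ (t + ⌊g * (t : ℝ)⌋₊) := by
        rw [hndef]
        exact_mod_cast card_idx t ⌊g * (t : ℝ)⌋₊
      refine h1.trans ?_
      have h2 : (0 : ℝ) < n + 1 := by linarith
      have h3 : 0 ≤ Real.log (n + 1) := Real.log_nonneg (by linarith)
      have h4 : ((⌊g * (t : ℝ)⌋₊ : ℕ) : ℝ) ≤ g * t := Nat.floor_le (by positivity)
      rw [← Real.exp_log (pow_pos h2 _), Real.log_pow]
      apply Real.exp_le_exp.2
      apply mul_le_mul_of_nonneg_right _ h3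
      push_cast
      linarith
    calc ∑ p ∈ idx V t ⌊g * (t : ℝ)⌋₊, Pb q (fun S => Disjoint (pairsD E₀ p.1 p.2) S)
        ≤ ∑ p ∈ idx V t ⌊g * (t : ℝ)⌋₊, Real.exp (-(q * (t * (n / 2)))) := sum_le_sum hp
      _ = #(idx V t ⌊g * (t : ℝ)⌋₊) * Real.exp (-(q * (t * (n / 2)))) := by
        rw [sum_const, nsmul_eq_mul]
      _ ≤ Real.exp (t * (1 + g) * Real.log (n + 1)) * Real.exp (-(q * (t * (n / 2)))) :=
        mul_le_mul_of_nonneg_right hcard (Real.exp_pos _).le
      _ ≤ Real.exp (-(q * n / 4)) := by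
        rw [← Real.exp_add]
        apply Real.exp_le_exp.2
        have h1 : (t : ℝ) * ((1 + g) * Real.log (n + 1)) ≤ t * (q * n / 4) :=
          mul_le_mul_of_nonneg_left hlog (by linarith)
        have h2 : 0 ≤ q * n / 4 := by positivity
        have h3 : 1 * (q * n / 4) ≤ t * (q * n / 4) := mul_le_mul_of_nonneg_right ht1' h2
        nlinarith
  have hT : (#T : ℝ) ≤ n := by
    rw [hndef]
    have h1 : #T ≤ #(Icc 1 (Fintype.card V)) := card_filter_le _ _
    rw [Nat.card_Icc] at h1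
    have h2 : #T ≤ Fintype.card V := by omega
    exact_mod_cast h2
  have hfail : Pb q (fun S => ¬ Expands g E₀ S) ≤ n * Real.exp (-(q * n / 4)) := by
    refine key.trans ((sum_le_sum hterm).trans ?_)
    rw [sum_const, nsmul_eq_mul]
    exact mul_le_mul_of_nonneg_right hT (Real.exp_pos _).le
  rw [Pb_not] at hfail
  linarith

end MP329
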