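import Pool.Agent.Lib.MP_329b4d_pr.SpecD
import Pool.Agent.Lib.MP_329b4d_pr.B1Lists

/-!
# MP_329b4d_pr, D2: one rotation of a path cover
-/

set_option autoImplicit false

namespace MP329

open Finset

namespace D2

variable {V : Type}

theorem eq_of_mem {L : List (List V)} (h : L.flatten.Nodup) {l l' : List V} {y : V} (hl : l ∈ L)
    (hl' : l' ∈ L) (hy : y ∈ l) (hy' : y ∈ l') : l = l' := by
  by_contra hne
  have h2 := (List.nodup_flatten.1 h).2
  have : Std.Symm (List.Disjoint (α := V)) := ⟨fun _ _ h => h.symm⟩
  have h3 : List.Disjoint l l' := h2.forall hl hl' hne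
  exact h3 hy hy'

theorem nodup_of_mem {L : List (List V)} (h : L.flatten.Nodup) {l : List V} (hl : l ∈ L) :
    l.Nodup := (List.nodup_flatten.1 h).1 l hl

/-- The successor of `y` in a list without repetition is unique. -/
theorem succ_unique {A A' B B' : List V} {y z₁ z₂ : V} (h : A ++ y :: z₁ :: B = A' ++ y :: z₂ :: B')
    (hn : (A ++ y :: z₁ :: B).Nodup) : z₁ = z₂ := by
  induction A generalizing A' with
  | nil =>
    cases A' with
    | nil =>
      simp only [List.nil_append, List.cons.injEq, true_and] at h
      exact h.1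
    | cons a A' =>
      exfalso
      simp only [List.nil_append, List.cons_append, List.cons.injEq] at h
      have h1 := (List.nodup_cons.1 hn).1
      rw [h.2] at h1
      apply h1
      simp
  | cons a A ih =>
    cases A' with
    | nil =>
      exfalso
      simp only [List.nil_append, List.cons_append, List.cons.injEq] at h
      have h1 := (List.nodup_cons.1 hn).1
      apply h1
      rw [h.1]
      simp
    | cons a' A' =>
      simp only [List.cons_append, List.cons.injEq] at h
      exact ih h.2 (List.nodup_cons.1 hn).2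

theorem core [Fintype V] [DecidableEq V] (L R : List (List V)) (P : List V) (u y z : V)
    (hc : IsCover L) (hL : L = (u :: P) :: R) (Q T : List V) (hl : Q ++ z :: y :: T ∈ L) :
    ∃ (P' : List V) (R' : List (List V)), IsCover ((z :: P') :: R') ∧
      edgesL ((z :: P') :: R') = insert s(u, y) ((edgesL L).erase s(y, z)) ∧
      ((z :: P') :: R').length = L.length ∧
      (otherEnds ((z :: P') :: R')).Perm (otherEnds L) := by
  subst hL
  have hlast : ∀ (M : List V), (M ++ y :: T).getLast? = (y :: T).getLast? := by
    intro M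
    rw [List.getLast?_append_of_ne_nil _ (by simp)]
  rcases List.mem_cons.1 hl with h | h
  · -- `y` lies in the active list
    have hc1 : IsCover ((Q ++ z :: y :: T) :: R) := by rw [h]; exact hc
    have hc2 : IsCover ((Q ++ [z]) :: (y :: T) :: R) :=
      B1.cover_cut _ _ _ (by simp) (by simp) (by simpa using hc1)
    have he2 := B1.edgesL_cut Q T z y R hc1.nodup
    have hc3 := B1.cover_reverse _ _ hc2
    have he3 := B1.edgesL_reverse (Q ++ [z]) ((y :: T) :: R)
    obtain ⟨Q', hQ'⟩ : ∃ Q', (Q ++ [z]).reverse = Q' ++ [u] := by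
      cases Q with
      | nil =>
        simp only [List.nil_append, List.cons.injEq] at h
        exact ⟨[], by simp [h.1]⟩
      | cons a Q =>
        simp only [List.cons_append, List.cons.injEq] at h
        exact ⟨(Q ++ [z]).reverse, by simp [h.1]⟩
    have hc4 := B1.cover_join _ _ _ hc3
    refine ⟨Q.reverse ++ y :: T, R, by simpa using hc4, ?_, by simp, ?_⟩
    · have h1 : z :: (Q.reverse ++ y :: T) = Q' ++ u :: y :: T := by
        have h2 : z :: (Q.reverse ++ y :: T) = (Q ++ [z]).reverse ++ y :: T := by simp
        rw [h2, hQ']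
        simp
      rw [h1, B1.edgesL_join, ← hQ', he3, he2, h, Sym2.eq_swap (a := z)]
    · simp only [otherEnds]
      rw [← h]
      have h1 : (z :: (Q.reverse ++ y :: T)).getLast? = (y :: T).getLast? := hlast (z :: Q.reverse)
      have h2 : (Q ++ z :: y :: T).getLast? = (y :: T).getLast? := by
        have := hlast (Q ++ [z])
        simpa using this
      rw [h1, h2]
  · -- `y` lies in another list
    obtain ⟨R'', hR⟩ : ∃ R'', R.Perm ((Q ++ z :: y :: T) :: R'') := by
      classical
      exact ⟨R.erase (Q ++ z :: y :: T), List.perm_cons_erase h⟩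
    have hp1 : ((u :: P) :: R).Perm ((Q ++ z :: y :: T) :: (u :: P) :: R'') :=
      (hR.cons (u :: P)).trans (List.Perm.swap _ _ _)
    have hc1 := B1.cover_perm _ _ hp1 hc
    have he1 := B1.edgesL_perm _ _ hp1
    have hc2 : IsCover ((Q ++ [z]) :: (y :: T) :: (u :: P) :: R'') :=
      B1.cover_cut _ _ _ (by simp) (by simp) (by simpa using hc1)
    have he2 := B1.edgesL_cut Q T z y ((u :: P) :: R'') hc1.nodup
    have hp3 : ((Q ++ [z]) :: (y :: T) :: (u :: P) :: R'').Perm
        ((u :: P) :: (y :: T) :: (Q ++ [z]) :: R'') := by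
      refine (List.Perm.swap (y :: T) (Q ++ [z]) _).trans ?_
      refine ((List.Perm.swap (u :: P) (Q ++ [z]) R'').cons (y :: T)).trans ?_
      exact List.Perm.swap (u :: P) (y :: T) _
    have hc3 := B1.cover_perm _ _ hp3 hc2
    have he3 := B1.edgesL_perm _ _ hp3
    have hc4 := B1.cover_reverse _ _ hc3
    have he4 := B1.edgesL_reverse (u :: P) ((y :: T) :: (Q ++ [z]) :: R'')
    have hc5 := B1.cover_join _ _ _ hc4
    have he5 := B1.edgesL_join P.reverse T u y ((Q ++ [z]) :: R'')
    have hrev : (u :: P).reverse = P.reverse ++ [u] := by simp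
    have hl5 : (u :: P).reverse ++ y :: T = P.reverse ++ u :: y :: T := by simp
    rw [hl5] at hc5
    rw [hrev] at he4
    have hp6 : ((P.reverse ++ u :: y :: T) :: (Q ++ [z]) :: R'').Perm
        ((Q ++ [z]) :: (P.reverse ++ u :: y :: T) :: R'') := List.Perm.swap _ _ _
    have hc6 := B1.cover_perm _ _ hp6 hc5
    have he6 := B1.edgesL_perm _ _ hp6
    have hc7 := B1.cover_reverse _ _ hc6
    have he7 := B1.edgesL_reverse (Q ++ [z]) ((P.reverse ++ u :: y :: T) :: R'')
    have hrev7 : (Q ++ [z]).reverse = z :: Q.reverse := by simp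
    rw [hrev7] at hc7 he7
    refine ⟨Q.reverse, (P.reverse ++ u :: y :: T) :: R'', hc7, ?_, ?_, ?_⟩
    · rw [he7, ← he6, he5, he4, ← he3, he2, he1, Sym2.eq_swap (a := z)]
    · have := hR.length_eq
      simp only [List.length_cons] at this ⊢
      omega
    · -- the other ends
      have e1 : otherEnds ((z :: Q.reverse) :: (P.reverse ++ u :: y :: T) :: R'') =
          (z :: Q.reverse).getLast?.toList ++ ((P.reverse ++ u :: y :: T).head?.toList ++
            (P.reverse ++ u :: y :: T).getLast?.toList ++
            R''.flatMap (fun l => l.head?.toList ++ l.getLast?.toList)) := by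
        simp only [otherEnds, List.flatMap_cons]
      have e2 : (otherEnds ((u :: P) :: R)).Perm ((u :: P).getLast?.toList ++
          (((Q ++ z :: y :: T).head?.toList ++ (Q ++ z :: y :: T).getLast?.toList) ++
            R''.flatMap (fun l => l.head?.toList ++ l.getLast?.toList))) := by
        simp only [otherEnds]
        refine List.Perm.append_left _ ?_
        have := hR.flatMap_right (fun l : List V => l.head?.toList ++ l.getLast?.toList)
        simpa only [List.flatMap_cons] using this
      have a1 : (z :: Q.reverse).getLast? = (Q ++ z :: y :: T).head? := by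
        rw [← hrev7, List.getLast?_reverse]
        cases Q <;> simp
      have a2 : (P.reverse ++ u :: y :: T).head? = (u :: P).getLast? := by
        rw [← hl5, ← List.head?_reverse]
        cases hh : (u :: P).reverse with
        | nil => simp at hh
        | cons a M => simp
      have a3 : (P.reverse ++ u :: y :: T).getLast? = (y :: T).getLast? := by
        rw [← hl5]
        exact hlast _
      have a4 : (Q ++ z :: y :: T).getLast? = (y :: T).getLast? := by
        have := hlast (Q ++ [z])
        simpa using this
      rw [e1, a1, a2, a3]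
      refine List.Perm.trans ?_ e2.symm
      rw [a4]
      simp only [← List.append_assoc]
      refine List.Perm.append_right _ (List.Perm.append_right _ ?_)
      exact List.perm_append_comm

end D2

/-- **D2, one rotation.** -/
theorem rotStep : RotStep := by
  intro V _ _ L R P u y z₁ z₂ hc hL _ hz h1 h2
  simp only [edgesL, List.mem_toFinset, List.mem_flatMap] at h1 h2
  obtain ⟨l₁, hl₁, h1⟩ := h1
  obtain ⟨l₂, hl₂, h2⟩ := h2
  have hl : l₁ = l₂ := D2.eq_of_mem hc.nodup hl₁ hl₂ (B1.mem_of_mem_links h1).1
    (B1.mem_of_mem_links h2).1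
  subst hl
  have hn := D2.nodup_of_mem hc.nodup hl₁
  rcases (B1.mem_links _ _ _).1 h1 with ⟨A, B, hA⟩ | ⟨A, B, hA⟩
  · rcases (B1.mem_links _ _ _).1 h2 with ⟨A', B', hA'⟩ | ⟨A', B', hA'⟩
    · exfalso
      apply hz
      rw [hA] at hn hA'
      exact D2.succ_unique hA' hn
    · rw [hA'] at hl₁
      obtain ⟨P', R', h⟩ := D2.core L R P u y z₂ hc hL A' B' hl₁
      exact ⟨z₂, P', R', Or.inr rfl, h⟩
  · rw [hA] at hl₁
    obtain ⟨P', R', h⟩ := D2.core L R P u y z₁ hc hL A B hl₁
    exact ⟨z₁, P', R', Or.inl rfl, h⟩

end MP329
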