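import Pool.Agent.Lib.MP_329b4d_pr.SpecD
import Pool.Agent.Lib.MP_329b4d_pr.B1Lists

/-!
# MP_329b4d_pr, D3: growth of the set of active heads (Pósa rotations)
-/

set_option autoImplicit false

namespace MP329

open Finset

namespace D3

section Lists

variable {V : Type} [DecidableEq V]

omit [DecidableEq V] in
/-- The two neighbours of an inner vertex of a list. -/
theorem inner_nbrs (l : List V) (hl : l.Nodup) (y : V) (hy : y ∈ l)
    (h1 : l.head? ≠ some y) (h2 : l.getLast? ≠ some y) :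
    ∃ z₁ z₂, z₁ ≠ z₂ ∧ s(y, z₁) ∈ links l ∧ s(y, z₂) ∈ links l := by
  obtain ⟨Q₁, Q₂, rfl⟩ := List.append_of_mem hy
  have hQ1 : Q₁ ≠ [] := by
    rintro rfl
    simp at h1
  have hQ2 : Q₂ ≠ [] := by
    rintro rfl
    simp at h2
  obtain ⟨z₂, Q₂', rfl⟩ := List.exists_cons_of_ne_nil hQ2
  obtain ⟨Q₁', z₁, rfl⟩ : ∃ Q z, Q₁ = Q ++ [z] :=
    ⟨Q₁.dropLast, Q₁.getLast hQ1, (List.dropLast_append_getLast hQ1).symm⟩
  refine ⟨z₁, z₂, ?_, ?_, ?_⟩
  · rintro rfl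
    have h3 := (List.nodup_append'.1 hl).2.2
    exact h3 (a := z₁) (by simp) (by simp)
  · rw [B1.mem_links]
    right
    exact ⟨Q₁', z₂ :: Q₂', by simp⟩
  · rw [B1.mem_links]
    left
    exact ⟨Q₁' ++ [z₁], Q₂', by simp⟩

theorem two_nbrs (L R : List (List V)) (P : List V) (u y : V) (hc : IsCover L)
    (hL : L = (u :: P) :: R) (hyu : y ≠ u) (hy : y ∉ otherEnds L) :
    ∃ z₁ z₂, z₁ ≠ z₂ ∧ s(y, z₁) ∈ edgesL L ∧ s(y, z₂) ∈ edgesL L := by
  obtain ⟨l, hl, hyl⟩ := List.mem_flatten.1 (hc.covers y)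
  have hnd : l.Nodup := (List.nodup_flatten.1 hc.nodup).1 l hl
  have hends : l.head? ≠ some y ∧ l.getLast? ≠ some y := by
    subst hL
    unfold otherEnds at hy
    rw [List.mem_append, not_or] at hy
    rcases List.mem_cons.1 hl with rfl | hl
    · refine ⟨fun h => hyu ?_, fun h => hy.1 ?_⟩
      · simpa using h.symm
      · rw [h]
        simp
    · constructor
      · intro h
        apply hy.2
        rw [List.mem_flatMap]
        exact ⟨l, hl, by rw [h]; simp⟩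
      · intro h
        apply hy.2
        rw [List.mem_flatMap]
        exact ⟨l, hl, by rw [h]; simp⟩
  obtain ⟨z₁, z₂, h1, h2, h3⟩ := inner_nbrs l hnd y hyl hends.1 hends.2
  refine ⟨z₁, z₂, h1, ?_, ?_⟩
  · unfold edgesL
    rw [List.mem_toFinset, List.mem_flatMap]
    exact ⟨l, hl, h2⟩
  · unfold edgesL
    rw [List.mem_toFinset, List.mem_flatMap]
    exact ⟨l, hl, h3⟩

theorem links_flatten (L : List (List V)) (a b : V) (h : s(a, b) ∈ edgesL L) :
    s(a, b) ∈ links L.flatten := by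
  unfold edgesL at h
  rw [List.mem_toFinset, List.mem_flatMap] at h
  obtain ⟨l, hl, h⟩ := h
  obtain ⟨L₁, L₂, rfl⟩ := List.append_of_mem hl
  rw [B1.mem_links] at h ⊢
  rcases h with ⟨Q₁, Q₂, rfl⟩ | ⟨Q₁, Q₂, rfl⟩
  · left
    exact ⟨L₁.flatten ++ Q₁, Q₂ ++ L₂.flatten, by simp⟩
  · right
    exact ⟨L₁.flatten ++ Q₁, Q₂ ++ L₂.flatten, by simp⟩

theorem deg_links (F : List V) (hF : F.Nodup) (u y : V) (h : s(u, y) ∈ links F) :
    y ∈ ({F.getD (F.idxOf u + 1) u, F.getD (F.idxOf u - 1) u} : Finset V) := by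
  rw [B1.mem_links] at h
  rcases h with ⟨Q₁, Q₂, rfl⟩ | ⟨Q₁, Q₂, rfl⟩
  · have h1 : u ∉ Q₁ := by
      intro hu
      exact (List.nodup_append'.1 hF).2.2 hu (by simp)
    have h2 : (Q₁ ++ u :: y :: Q₂).idxOf u = Q₁.length := by
      rw [List.idxOf_append_of_notMem h1]
      simp
    rw [h2]
    simp
  · have h1 : u ∉ Q₁ := by
      intro hu
      exact (List.nodup_append'.1 hF).2.2 hu (by simp)
    have h3 : y ≠ u := by
      rintro rfl
      have := (List.nodup_append'.1 hF).2.1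
      simp at this
    have h2 : (Q₁ ++ y :: u :: Q₂).idxOf u = Q₁.length + 1 := by
      rw [List.idxOf_append_of_notMem h1, List.idxOf_cons_ne _ h3]
      simp
    rw [h2]
    simp

variable [Fintype V]

/-- Neighbours with respect to the edges of `L`. -/
def nb (L : List (List V)) (U : Finset V) : Finset V :=
  univ.filter fun y => ∃ u ∈ U, s(u, y) ∈ edgesL L

theorem card_nb (L : List (List V)) (hc : IsCover L) (U : Finset V) : #(nb L U) ≤ 2 * #U := by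
  have h1 : nb L U ⊆ U.biUnion fun u => ({L.flatten.getD (L.flatten.idxOf u + 1) u,
      L.flatten.getD (L.flatten.idxOf u - 1) u} : Finset V) := by
    intro y hy
    obtain ⟨u, hu, h⟩ := (Finset.mem_filter.1 hy).2
    rw [Finset.mem_biUnion]
    exact ⟨u, hu, deg_links _ hc.nodup u y (links_flatten L u y h)⟩
  calc #(nb L U) ≤ _ := Finset.card_le_card h1
    _ ≤ ∑ u ∈ U, #({L.flatten.getD (L.flatten.idxOf u + 1) u,
      L.flatten.getD (L.flatten.idxOf u - 1) u} : Finset V) := Finset.card_biUnion_le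
    _ ≤ ∑ _u ∈ U, 2 := Finset.sum_le_sum fun u _ => Finset.card_le_two
    _ = 2 * #U := by rw [Finset.sum_const, smul_eq_mul, mul_comm]

end Lists

section Chain

variable {V : Type} [Fintype V] [DecidableEq V]

/-- States reached with at most `k` rotations. -/
def Rch (S : Finset (Sym2 V)) (L₀ : List (List V)) (u₀ : V) : ℕ → V → List (List V) → Prop
  | 0, z, L => z = u₀ ∧ L = L₀
  | k + 1, z, L => Rch S L₀ u₀ k z L ∨ ∃ (u : V) (L₁ : List (List V)) (y : V),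
      Rch S L₀ u₀ k u L₁ ∧ s(u, y) ∈ S ∧ s(y, z) ∈ edgesL L₀ ∧ IsCover L ∧
      (∃ P R, L = (z :: P) :: R) ∧ edgesL L = insert s(u, y) ((edgesL L₁).erase s(y, z)) ∧
      L.length = L₁.length ∧ (otherEnds L).Perm (otherEnds L₁)

open Classical in
/-- The heads of these states. -/
noncomputable def Z (S : Finset (Sym2 V)) (L₀ : List (List V)) (u₀ : V) (k : ℕ) : Finset V :=
  univ.filter fun z => ∃ L, Rch S L₀ u₀ k z L

variable {S : Finset (Sym2 V)} {L₀ : List (List V)} {u₀ : V} {k : ℕ} {z : V}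

theorem mem_Z : z ∈ Z S L₀ u₀ k ↔ ∃ L, Rch S L₀ u₀ k z L := by
  unfold Z
  simp

theorem Z_succ : Z S L₀ u₀ k ⊆ Z S L₀ u₀ (k + 1) := by
  intro z hz
  rw [mem_Z] at hz ⊢
  obtain ⟨L, hL⟩ := hz
  exact ⟨L, Or.inl hL⟩

theorem zero_mem (k : ℕ) : u₀ ∈ Z S L₀ u₀ k := by
  induction k with
  | zero => rw [mem_Z]; exact ⟨L₀, rfl, rfl⟩
  | succ k ih => exact Z_succ ih

theorem rch_state (hc : IsCover L₀) (hh : ∃ P R, L₀ = (u₀ :: P) :: R) (k : ℕ) :
    ∀ z L, Rch S L₀ u₀ k z L → StateFrom S L₀ k z L ∧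
      ∀ e ∈ edgesL L₀, e ∉ edgesL L → ∃ w ∈ Z S L₀ u₀ k, w ∈ e := by
  induction k with
  | zero =>
    rintro z L ⟨rfl, rfl⟩
    refine ⟨⟨hc, hh, Finset.subset_union_left, by simp, rfl, List.Perm.refl _⟩, ?_⟩
    intro e he he'
    exact absurd he he'
  | succ k ih =>
    rintro z L (h | ⟨u, L₁, y, h1, huy, hyz, hcL, hhd, hE, hlen, hperm⟩)
    · obtain ⟨h1, h2⟩ := ih z L h
      refine ⟨⟨h1.cover, h1.head, h1.edges, h1.new.trans (Nat.le_succ k), h1.length, h1.ends⟩, ?_⟩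
      intro e he he'
      obtain ⟨w, hw, hwe⟩ := h2 e he he'
      exact ⟨w, Z_succ hw, hwe⟩
    · have hz : z ∈ Z S L₀ u₀ (k + 1) := by
        rw [mem_Z]
        exact ⟨L, Or.inr ⟨u, L₁, y, h1, huy, hyz, hcL, hhd, hE, hlen, hperm⟩⟩
      obtain ⟨h2, h3⟩ := ih u L₁ h1
      refine ⟨⟨hcL, hhd, ?_, ?_, hlen.trans h2.length, hperm.trans h2.ends⟩, ?_⟩
      · rw [hE]
        intro e he
        rcases Finset.mem_insert.1 he with rfl | he
        · exact Finset.mem_union_right _ huy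
        · exact h2.edges (Finset.mem_of_mem_erase he)
      · have hsub : edgesL L \ edgesL L₀ ⊆ insert s(u, y) (edgesL L₁ \ edgesL L₀) := by
          intro e he
          rw [Finset.mem_sdiff, hE] at he
          rcases Finset.mem_insert.1 he.1 with rfl | he1
          · exact Finset.mem_insert_self _ _
          · exact Finset.mem_insert_of_mem
              (Finset.mem_sdiff.2 ⟨Finset.mem_of_mem_erase he1, he.2⟩)
        calc #(edgesL L \ edgesL L₀) ≤ #(insert s(u, y) (edgesL L₁ \ edgesL L₀)) :=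
              Finset.card_le_card hsub
          _ ≤ #(edgesL L₁ \ edgesL L₀) + 1 := Finset.card_insert_le _ _
          _ ≤ k + 1 := Nat.succ_le_succ h2.new
      · intro e he he'
        by_cases he1 : e ∈ edgesL L₁
        · refine ⟨z, hz, ?_⟩
          have : e = s(y, z) := by
            by_contra hne
            apply he'
            rw [hE]
            exact Finset.mem_insert_of_mem (Finset.mem_erase.2 ⟨hne, he1⟩)
          rw [this]
          simp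
        · obtain ⟨w, hw, hwe⟩ := h3 e he he1
          exact ⟨w, Z_succ hw, hwe⟩

theorem nbrs_sub (hrot : RotStep) (hc : IsCover L₀) (hh : ∃ P R, L₀ = (u₀ :: P) :: R)
    (E₀ : Finset V) (hE : ∀ b ∈ otherEnds L₀, b ∈ E₀) (k : ℕ) :
    nbrs S (Z S L₀ u₀ k) \ E₀ ⊆ Z S L₀ u₀ (k + 1) ∪ nb L₀ (Z S L₀ u₀ (k + 1)) := by
  intro y hy
  rw [Finset.mem_sdiff] at hy
  obtain ⟨hy1, hyE⟩ := hy
  obtain ⟨u, hu, huy⟩ := (Finset.mem_filter.1 hy1).2
  rw [Finset.mem_union]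
  by_cases hyZ : y ∈ Z S L₀ u₀ (k + 1)
  · exact Or.inl hyZ
  right
  have hyZk : y ∉ Z S L₀ u₀ k := fun h => hyZ (Z_succ h)
  have hyu0 : y ≠ u₀ := fun h => hyZ (h ▸ zero_mem (k + 1))
  have hyu : y ≠ u := fun h => hyZk (h ▸ hu)
  obtain ⟨P₀, R₀, hL₀⟩ := hh
  obtain ⟨z₁, z₂, hne, hz1, hz2⟩ := two_nbrs L₀ R₀ P₀ u₀ y hc hL₀ hyu0 (fun h => hyE (hE y h))
  obtain ⟨L, hL⟩ := mem_Z.1 hu
  obtain ⟨hst, hdel⟩ := rch_state hc ⟨P₀, R₀, hL₀⟩ k u L hL
  have key : ∀ z, s(y, z) ∈ edgesL L₀ → z ∈ Z S L₀ u₀ (k + 1) →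
      y ∈ nb L₀ (Z S L₀ u₀ (k + 1)) := by
    intro z hz hzZ
    unfold nb
    rw [Finset.mem_filter]
    exact ⟨Finset.mem_univ _, z, hzZ, by rwa [Sym2.eq_swap]⟩
  have hcase : ∀ z, s(y, z) ∈ edgesL L₀ → s(y, z) ∉ edgesL L →
      y ∈ nb L₀ (Z S L₀ u₀ (k + 1)) := by
    intro z hz hzL
    obtain ⟨w, hw, hwe⟩ := hdel _ hz hzL
    rcases Sym2.mem_iff.1 hwe with rfl | rfl
    · exact absurd hw hyZk
    · exact key w hz (Z_succ hw)
  by_cases h1 : s(y, z₁) ∈ edgesL L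
  · by_cases h2 : s(y, z₂) ∈ edgesL L
    · obtain ⟨P, R, hLP⟩ := hst.head
      obtain ⟨z, P', R', hz, hc', hE', hlen, hperm⟩ :=
        hrot V L R P u y z₁ z₂ hst.cover hLP hyu hne h1 h2
      have hz0 : s(y, z) ∈ edgesL L₀ := by
        rcases hz with rfl | rfl
        · exact hz1
        · exact hz2
      refine key z hz0 ?_
      rw [mem_Z]
      exact ⟨(z :: P') :: R', Or.inr ⟨u, L, y, hL, huy, hz0, hc', ⟨P', R', rfl⟩, hE', hlen,
        hperm⟩⟩
    · exact hcase z₂ hz2 h2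
  · exact hcase z₁ hz1 h1

theorem growth (hrot : RotStep) (hc : IsCover L₀) (hh : ∃ P R, L₀ = (u₀ :: P) :: R)
    (E₀ : Finset V) (hE : ∀ b ∈ otherEnds L₀, b ∈ E₀) (g : ℝ) (hg : 3 ≤ g)
    (hex : Expands g E₀ S) (k : ℕ) :
    min ((g / 3) ^ k) ((Fintype.card V : ℝ) / 96) ≤ #(Z S L₀ u₀ k) := by
  induction k with
  | zero =>
    have h1 : (1 : ℝ) ≤ #(Z S L₀ u₀ 0) := by
      exact_mod_cast Finset.card_pos.2 ⟨u₀, zero_mem 0⟩
    exact (min_le_left _ _).trans (by rw [pow_zero]; exact h1)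
  | succ k ih =>
    have hmono : (#(Z S L₀ u₀ k) : ℝ) ≤ #(Z S L₀ u₀ (k + 1)) := by
      exact_mod_cast Finset.card_le_card (Z_succ (S := S) (L₀ := L₀) (u₀ := u₀) (k := k))
    have h1 := hex (Z S L₀ u₀ k) ⟨u₀, zero_mem k⟩
    have h2 : (#(nbrs S (Z S L₀ u₀ k) \ E₀) : ℝ) ≤ 3 * #(Z S L₀ u₀ (k + 1)) := by
      have h3 : #(nbrs S (Z S L₀ u₀ k) \ E₀) ≤ 3 * #(Z S L₀ u₀ (k + 1)) := by
        calc #(nbrs S (Z S L₀ u₀ k) \ E₀)
            ≤ #(Z S L₀ u₀ (k + 1) ∪ nb L₀ (Z S L₀ u₀ (k + 1))) :=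
              Finset.card_le_card (nbrs_sub hrot hc hh E₀ hE k)
          _ ≤ #(Z S L₀ u₀ (k + 1)) + #(nb L₀ (Z S L₀ u₀ (k + 1))) := Finset.card_union_le _ _
          _ ≤ #(Z S L₀ u₀ (k + 1)) + 2 * #(Z S L₀ u₀ (k + 1)) :=
              Nat.add_le_add_left (card_nb L₀ hc _) _
          _ = 3 * #(Z S L₀ u₀ (k + 1)) := by ring
      exact_mod_cast h3
    have h3 := h1.trans h2
    by_cases hbig : (Fintype.card V : ℝ) / 96 ≤ #(Z S L₀ u₀ k)
    · exact (min_le_right _ _).trans (hbig.trans hmono)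
    · have h4 : (g / 3) ^ k ≤ #(Z S L₀ u₀ k) := by
        rcases min_le_iff.1 ih with h | h
        · exact h
        · exact absurd h hbig
      rcases min_le_iff.1 h3 with h | h
      · refine (min_le_left _ _).trans ?_
        rw [pow_succ]
        nlinarith
      · refine (min_le_right _ _).trans ?_
        linarith

end Chain

end D3

/-- **D3, Pósa growth.** -/
theorem rotGrowth (h : RotStep) : RotGrowth := by
  intro V _ _ g S E₀ D L₀ R₀ P₀ u₀ hc hL₀ hE hex hg hD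
  refine ⟨D3.Z S L₀ u₀ D, ?_, ?_⟩
  · have h1 := D3.growth h hc ⟨P₀, R₀, hL₀⟩ E₀ hE g hg hex D
    refine le_trans (le_min ?_ le_rfl) h1
    have h2 : (0 : ℝ) ≤ Fintype.card V := Nat.cast_nonneg _
    linarith
  · intro z hz
    obtain ⟨L, hL⟩ := D3.mem_Z.1 hz
    exact ⟨L, (D3.rch_state hc ⟨P₀, R₀, hL₀⟩ D z L hL).1⟩

end MP329
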