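import Pool.Agent.Lib.MP_329b4d_pr.SpecD
import Pool.Agent.Lib.MP_329b4d_pr.A2Indep
import Pool.Agent.Lib.MP_329b4d_pr.A4Row
import Pool.Agent.Lib.MP_329b4d_pr.B1Lists

/-!
# MP_329b4d_pr, D6: joining all lists to a tour
-/

set_option autoImplicit false

namespace MP329

open Finset

namespace D6

/-- A list with first or last entry `b` can be turned so that it ends with `b`. -/
theorem turn {V : Type} (l : List V) (b : V) (h : b ∈ l.head?.toList ++ l.getLast?.toList) :
    ∃ Q : List V, l = Q ++ [b] ∨ l.reverse = Q ++ [b] := by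
  rcases List.mem_append.1 h with h | h
  · rw [Option.mem_toList] at h
    cases l with
    | nil => simp at h
    | cons a t =>
      rw [List.head?_cons, Option.some.injEq] at h
      subst h
      exact ⟨t.reverse, Or.inr (by simp)⟩
  · rw [Option.mem_toList] at h
    obtain ⟨Q, hQ⟩ := List.getLast?_eq_some_iff.1 h
    exact ⟨Q, Or.inl hQ⟩

/-- The last vertex of the active list. -/
theorem mem_otherEnds_cons {V : Type} (l : List V) (R : List (List V)) (c : V) :
    c ∈ otherEnds (l :: R) ↔ l.getLast? = some c ∨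
      ∃ l' ∈ R, c ∈ l'.head?.toList ++ l'.getLast?.toList := by
  unfold otherEnds
  rw [List.mem_append, List.mem_flatMap, Option.mem_toList]

theorem mem_of_end {V : Type} (l : List V) (c : V)
    (h : c ∈ l.head?.toList ++ l.getLast?.toList) : c ∈ l := by
  rcases List.mem_append.1 h with h | h
  · rw [Option.mem_toList] at h
    exact List.mem_of_mem_head? h
  · rw [Option.mem_toList] at h
    exact List.mem_of_mem_getLast? h

/-- One joining step. -/
theorem step {V : Type} [DecidableEq V] (Lz Rz : List (List V)) (P : List V) (z w b : V)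
    (hc : IsCover Lz) (hL : Lz = (z :: P) :: Rz) (hw : (z :: P).getLast? = some w) (hbw : b ≠ w)
    (hb : b ∈ otherEnds Lz) :
    ∃ N : List (List V), IsCover N ∧ N ≠ [] ∧ edgesL N = insert s(b, z) (edgesL Lz) ∧
      N.length + 1 = Lz.length ∧ (∀ c ∈ otherEnds N, c ∈ otherEnds Lz) ∧ b ∉ otherEnds N := by
  subst hL
  rw [mem_otherEnds_cons, hw, Option.some.injEq] at hb
  rcases hb with hb | ⟨l, hl, hb⟩
  · exact absurd hb.symm hbw
  obtain ⟨R1, R2, rfl⟩ := List.append_of_mem hl
  have hperm : ((z :: P) :: (R1 ++ l :: R2)).Perm (l :: (z :: P) :: (R1 ++ R2)) :=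
    (List.Perm.cons _ List.perm_middle).trans (List.Perm.swap _ _ _)
  obtain ⟨Q, hQ⟩ := turn l b hb
  have h1 : IsCover ((Q ++ [b]) :: (z :: P) :: (R1 ++ R2)) ∧
      edgesL ((Q ++ [b]) :: (z :: P) :: (R1 ++ R2)) = edgesL ((z :: P) :: (R1 ++ l :: R2)) := by
    have h2 := B1.cover_perm _ _ hperm hc
    have h3 := B1.edgesL_perm _ _ hperm
    rcases hQ with hQ | hQ
    · rw [← hQ]
      exact ⟨h2, h3.symm⟩
    · rw [← hQ]
      exact ⟨B1.cover_reverse _ _ h2, (B1.edgesL_reverse _ _).trans h3.symm⟩
  have hlast : ((Q ++ [b]) ++ (z :: P)).getLast? = some w := by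
    rw [List.getLast?_append, hw]
    rfl
  refine ⟨((Q ++ [b]) ++ (z :: P)) :: (R1 ++ R2), B1.cover_join _ _ _ h1.1, List.cons_ne_nil _ _,
    ?_, ?_, ?_, ?_⟩
  · have h4 : (Q ++ [b]) ++ (z :: P) = Q ++ b :: z :: P := by simp
    rw [h4, B1.edgesL_join, h1.2]
  · simp only [List.length_cons, List.length_append]
    omega
  · intro c hcc
    rw [mem_otherEnds_cons, hlast] at hcc
    rw [mem_otherEnds_cons, hw]
    rcases hcc with hcc | ⟨l', hl', hcc⟩
    · exact Or.inl hcc
    · refine Or.inr ⟨l', ?_, hcc⟩
      rcases List.mem_append.1 hl' with h | h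
      · exact List.mem_append_left _ h
      · exact List.mem_append_right _ (List.mem_cons_of_mem _ h)
  · intro hcc
    rw [mem_otherEnds_cons, hlast, Option.some.injEq] at hcc
    rcases hcc with hcc | ⟨l', hl', hcc⟩
    · exact hbw hcc.symm
    · have h5 := h1.1.nodup
      rw [List.flatten_cons] at h5
      have h6 := (List.nodup_append'.1 h5).2.2
      refine h6 (a := b) (by simp) ?_
      exact List.mem_flatten.2 ⟨l', List.mem_cons_of_mem _ hl', mem_of_end l' b hcc⟩

/-- Rows of different vertices of `E₀` are disjoint. -/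
theorem row_inj {V : Type} [Fintype V] [DecidableEq V] (E₀ : Finset V) (b b' : V)
    (hb' : b' ∈ E₀) (e : Sym2 V) (h : e ∈ rowOf E₀ b) (h' : e ∈ rowOf E₀ b') :
    b = b' := by
  unfold rowOf at h h'
  rw [Finset.mem_image] at h h'
  obtain ⟨v, hv, rfl⟩ := h
  obtain ⟨v', hv', he⟩ := h'
  rw [Finset.mem_sdiff] at hv hv'
  rcases Sym2.eq_iff.1 he with ⟨h1, _⟩ | ⟨h1, _⟩
  · exact h1.symm
  · exact absurd (h1 ▸ hb') hv.2

theorem mem_row {V : Type} [Fintype V] [DecidableEq V] (E₀ : Finset V) (b z : V)
    (hz : z ∉ E₀) : s(b, z) ∈ rowOf E₀ b := by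
  unfold rowOf
  exact Finset.mem_image_of_mem _ (Finset.mem_sdiff.2 ⟨Finset.mem_univ _, hz⟩)

/-- The number of pairs `s(b, z)`. -/
theorem card_pairs {V : Type} [DecidableEq V] (b : V) (Z : Finset V) :
    #(Z.image fun z => s(b, z)) = #Z := by
  refine Finset.card_image_of_injective _ fun x y h => ?_
  exact Sym2.congr_right.1 h

theorem pow_aux {q : ℝ} (hq0 : 0 ≤ q) (hq1 : q ≤ 1) {r k : ℕ} (h : r ≤ k) :
    1 - (1 - q) ^ r ≤ 1 - (1 - q) ^ k := by
  have := pow_le_pow_of_le_one (sub_nonneg.2 hq1) (by linarith) h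
  linarith

theorem one_sub_pow_nonneg {q : ℝ} (hq0 : 0 ≤ q) (hq1 : q ≤ 1) (r : ℕ) :
    0 ≤ 1 - (1 - q) ^ r := by
  have := pow_le_one₀ (n := r) (sub_nonneg.2 hq1) (by linarith)
  linarith

end D6

open D6 in
/-- D6, joining everything. -/
theorem joinAll : JoinAll := by
  intro V _ _ q r D S E₀ hq0 hq1 hV hyp
  have key : ∀ (n : ℕ) (L : List (List V)), L.length = n → IsCover L → L ≠ [] →
      (∀ b ∈ otherEnds L, b ∈ E₀) →
      (1 - (1 - q) ^ r) ^ L.length ≤ Pb q (fun S₂ => ∃ T : List V, IsTour T ∧
        tourEdges T ⊆ edgesL L ∪ S ∪ (S₂ ∩ (otherEnds L).toFinset.biUnion (rowOf E₀)) ∧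
        #(tourEdges T \ edgesL L) ≤ (D + 1) * L.length) := by
    intro n
    induction n with
    | zero =>
      intro L hn _ hne _
      exact absurd (List.length_eq_zero_iff.1 hn) hne
    | succ n ih =>
      intro L hn hc hne hE
      obtain ⟨l0, R, rfl⟩ := List.exists_cons_of_ne_nil hne
      obtain ⟨u, P, rfl⟩ := List.exists_cons_of_ne_nil (hc.ne_nil l0 List.mem_cons_self)
      obtain ⟨Z, hZ, hst⟩ := hyp ((u :: P) :: R) R P u hc rfl hE
      choose! st hst using hst
      -- the last vertex of the active list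
      obtain ⟨b₁, hb₁⟩ : ∃ b₁, (u :: P).getLast? = some b₁ :=
        ⟨(u :: P).getLast (List.cons_ne_nil _ _), List.getLast?_eq_some_getLast _⟩
      have hb₁E : b₁ ∈ otherEnds ((u :: P) :: R) := (mem_otherEnds_cons _ _ _).2 (Or.inl hb₁)
      cases R with
      | nil =>
        have hrow := rowLemma exIndep (Sym2 V) q 1 hq0 hq1 zero_le_one
          ((Z \ E₀).image fun z => s(b₁, z)) ((Z \ E₀).image fun z => s(b₁, z))
          (fun _ _ => True) (Finset.Subset.refl _) (fun _ _ _ => Iff.rfl)
          (fun _ _ => (Pb_of_forall q (fun _ => trivial)).ge)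
        rw [card_pairs, mul_one] at hrow
        have h1 := pow_aux hq0 hq1 (show r ≤ #(Z \ E₀) by omega)
        simp only [List.length_cons, List.length_nil, zero_add, pow_one, mul_one]
        refine (h1.trans hrow).trans (Pb_mono hq0 hq1 ?_)
        rintro S₂ ⟨e, he, heS, -⟩
        obtain ⟨z, hz, rfl⟩ := Finset.mem_image.1 he
        rw [Finset.mem_sdiff] at hz
        have hs := hst z hz.1
        obtain ⟨Pz, Rz, hLz⟩ := hs.head
        have hlen := hs.length
        rw [hLz] at hlen
        have hRz : Rz = [] := by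
          apply List.length_eq_zero_iff.1
          simp only [List.length_cons, List.length_nil] at hlen
          omega
        subst hRz
        have hcz := hs.cover
        have hez := hs.edges
        have hnz := hs.new
        have hpz := hs.ends
        rw [hLz] at hcz hez hnz hpz
        have hb₁z : (z :: Pz).getLast? = some b₁ := by
          have h2 : b₁ ∈ otherEnds [z :: Pz] := hpz.mem_iff.2 hb₁E
          rw [mem_otherEnds_cons] at h2
          rcases h2 with h2 | ⟨l', hl', -⟩
          · exact h2
          · simp at hl'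
        obtain ⟨Q, hQ⟩ := List.getLast?_eq_some_iff.1 hb₁z
        have htour : tourEdges (z :: Pz) = insert s(b₁, z) (edgesL [z :: Pz]) := by
          unfold tourEdges edgesL
          have h3 : (z :: Pz) ++ (z :: Pz).take 1 = Q ++ b₁ :: z :: [] := by
            rw [List.take_succ_cons, List.take_zero, hQ]
            simp
          rw [h3, B1.links_cut, ← hQ]
          ext e
          simp [links, or_comm]
        refine ⟨z :: Pz, ⟨?_, ?_, ?_⟩, ?_, ?_⟩
        · simpa using hcz.nodup
        · intro v
          simpa using hcz.covers v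
        · have hnd : (z :: Pz).Nodup := by simpa using hcz.nodup
          rw [← List.toFinset_card_of_nodup hnd]
          have : (z :: Pz).toFinset = Finset.univ := by
            ext v
            have := hcz.covers v
            simpa using this
          rw [this, Finset.card_univ]
          exact hV
        · rw [htour]
          refine Finset.insert_subset ?_ (hez.trans Finset.subset_union_left)
          refine Finset.mem_union_right _ (Finset.mem_inter.2 ⟨heS, ?_⟩)
          exact Finset.mem_biUnion.2 ⟨b₁, List.mem_toFinset.2 hb₁E, mem_row E₀ b₁ z hz.2⟩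
        · rw [htour]
          have h4 : insert s(b₁, z) (edgesL [z :: Pz]) \ edgesL [u :: P] ⊆
              insert s(b₁, z) (edgesL [z :: Pz] \ edgesL [u :: P]) := by
            intro e he
            rw [Finset.mem_sdiff, Finset.mem_insert] at he
            rw [Finset.mem_insert, Finset.mem_sdiff]
            tauto
          refine (Finset.card_le_card h4).trans ?_
          exact (Finset.card_insert_le _ _).trans (by omega)
      | cons l₁ R₁ =>
        obtain ⟨b₂, t₂, rfl⟩ := List.exists_cons_of_ne_nil
          (hc.ne_nil l₁ (List.mem_cons_of_mem _ List.mem_cons_self))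
        have hb₂E : b₂ ∈ otherEnds ((u :: P) :: (b₂ :: t₂) :: R₁) :=
          (mem_otherEnds_cons _ _ _).2 (Or.inr ⟨b₂ :: t₂, List.mem_cons_self, by simp⟩)
        have hb₁₂ : b₁ ≠ b₂ := by
          rintro rfl
          have h5 := hc.nodup
          rw [List.flatten_cons] at h5
          have h6 := (List.nodup_append'.1 h5).2.2
          exact h6 (a := b₁) (List.mem_of_mem_getLast? hb₁) (by simp)
        have hlast : ∀ z ∈ Z, ∃ (Pz : List V) (Rz : List (List V)) (w : V),
            st z = (z :: Pz) :: Rz ∧ (z :: Pz).getLast? = some w := by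
          intro z hz
          obtain ⟨Pz, Rz, hLz⟩ := (hst z hz).head
          exact ⟨Pz, Rz, (z :: Pz).getLast (List.cons_ne_nil _ _), hLz,
            List.getLast?_eq_some_getLast _⟩
        choose! Pz Rz w hLz hwz using hlast
        obtain ⟨b, Z'', hbE, hZ'', hcard, hbw⟩ : ∃ (b : V) (Z'' : Finset V),
            b ∈ otherEnds ((u :: P) :: (b₂ :: t₂) :: R₁) ∧ Z'' ⊆ Z \ E₀ ∧ r ≤ #Z'' ∧
            ∀ z ∈ Z'', b ≠ w z := by
          have hcov : Z \ E₀ ⊆ ((Z \ E₀).filter fun z => b₁ ≠ w z) ∪
              ((Z \ E₀).filter fun z => b₂ ≠ w z) := by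
            intro z hz
            rw [Finset.mem_union, Finset.mem_filter, Finset.mem_filter]
            by_cases h : b₁ = w z
            · exact Or.inr ⟨hz, fun h' => hb₁₂ (h.trans h'.symm)⟩
            · exact Or.inl ⟨hz, h⟩
          have h7 := (Finset.card_le_card hcov).trans (Finset.card_union_le _ _)
          by_cases h8 : r ≤ #((Z \ E₀).filter fun z => b₁ ≠ w z)
          · exact ⟨b₁, _, hb₁E, Finset.filter_subset _ _, h8,
              fun z hz => (Finset.mem_filter.1 hz).2⟩
          · exact ⟨b₂, _, hb₂E, Finset.filter_subset _ _, by omega,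
              fun z hz => (Finset.mem_filter.1 hz).2⟩
        have hZZ : ∀ z ∈ Z'', z ∈ Z ∧ z ∉ E₀ := fun z hz => Finset.mem_sdiff.1 (hZ'' hz)
        have hbE₀ : b ∈ E₀ := hE b hbE
        -- the joined states
        have hN : ∀ z ∈ Z'', ∃ N : List (List V), IsCover N ∧ N ≠ [] ∧
            edgesL N = insert s(b, z) (edgesL (st z)) ∧ N.length + 1 = (st z).length ∧
            (∀ c ∈ otherEnds N, c ∈ otherEnds (st z)) ∧ b ∉ otherEnds N := by
          intro z hz
          have hzZ := (hZZ z hz).1
          exact step (st z) (Rz z) (Pz z) z (w z) b (hst z hzZ).cover (hLz z hzZ) (hwz z hzZ)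
            (hbw z hz) ((hst z hzZ).ends.mem_iff.2 hbE)
        choose! N hNc hNne hNe hNl hNs hNb using hN
        have hNE : ∀ z ∈ Z'', ∀ c ∈ otherEnds (N z),
            c ∈ otherEnds ((u :: P) :: (b₂ :: t₂) :: R₁) := fun z hz c hcc =>
          (hst z (hZZ z hz).1).ends.mem_iff.1 (hNs z hz c hcc)
        have hNlen : ∀ z ∈ Z'', (N z).length = R₁.length + 1 := by
          intro z hz
          have h9 := hNl z hz
          rw [(hst z (hZZ z hz).1).length, List.length_cons, List.length_cons] at h9
          omega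
        -- the success events
        set Ev : V → Finset (Sym2 V) → Prop := fun z S₂ => ∃ T : List V, IsTour T ∧
          tourEdges T ⊆ edgesL (N z) ∪ S ∪ (S₂ ∩ (otherEnds (N z)).toFinset.biUnion (rowOf E₀)) ∧
          #(tourEdges T \ edgesL (N z)) ≤ (D + 1) * (N z).length with hEvdef
        have hEv : ∀ z ∈ Z'', (1 - (1 - q) ^ r) ^ (R₁.length + 1) ≤ Pb q (Ev z) := by
          intro z hz
          have h10 := ih (N z) (by
            rw [hNlen z hz]
            simp only [List.length_cons] at hn
            omega) (hNc z hz) (hNne z hz) (fun c hcc => hE c (hNE z hz c hcc))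
          rw [← hNlen z hz]
          exact h10
        have hind : ∀ z ∈ Z'', ∀ S₂, Ev z S₂ ↔ Ev z (S₂ \ rowOf E₀ b) := by
          intro z hz S₂
          have h11 : S₂ ∩ (otherEnds (N z)).toFinset.biUnion (rowOf E₀) =
              (S₂ \ rowOf E₀ b) ∩ (otherEnds (N z)).toFinset.biUnion (rowOf E₀) := by
            ext e
            rw [Finset.mem_inter, Finset.mem_inter, Finset.mem_sdiff]
            constructor
            · rintro ⟨h12, h13⟩
              refine ⟨⟨h12, fun h14 => ?_⟩, h13⟩
              obtain ⟨c, hcc, h15⟩ := Finset.mem_biUnion.1 h13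
              rw [List.mem_toFinset] at hcc
              have h16 := row_inj E₀ b c (hE c (hNE z hz c hcc)) e h14 h15
              exact hNb z hz (h16 ▸ hcc)
            · rintro ⟨⟨h12, -⟩, h13⟩
              exact ⟨h12, h13⟩
          simp only [hEvdef]
          rw [h11]
        have hrow := rowLemma exIndep (Sym2 V) q ((1 - (1 - q) ^ r) ^ (R₁.length + 1)) hq0 hq1
          (pow_nonneg (one_sub_pow_nonneg hq0 hq1 r) _) (rowOf E₀ b)
          (Z''.image fun z => s(b, z)) (fun e S₂ => ∃ z ∈ Z'', e = s(b, z) ∧ Ev z S₂)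
          (by
            intro e he
            obtain ⟨z, hz, rfl⟩ := Finset.mem_image.1 he
            exact mem_row E₀ b z (hZZ z hz).2)
          (by
            intro e _ S₂
            constructor
            · rintro ⟨z, hz, h17, h18⟩
              exact ⟨z, hz, h17, (hind z hz S₂).1 h18⟩
            · rintro ⟨z, hz, h17, h18⟩
              exact ⟨z, hz, h17, (hind z hz S₂).2 h18⟩)
          (by
            intro e he
            obtain ⟨z, hz, rfl⟩ := Finset.mem_image.1 he
            exact (hEv z hz).trans (Pb_mono hq0 hq1 fun S₂ h19 => ⟨z, hz, rfl, h19⟩))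
        rw [card_pairs] at hrow
        have h1 : (1 - (1 - q) ^ r) ^ ((u :: P) :: (b₂ :: t₂) :: R₁).length ≤
            (1 - (1 - q) ^ #Z'') * (1 - (1 - q) ^ r) ^ (R₁.length + 1) := by
          rw [List.length_cons, List.length_cons, pow_succ']
          exact mul_le_mul_of_nonneg_right (pow_aux hq0 hq1 hcard)
            (pow_nonneg (one_sub_pow_nonneg hq0 hq1 r) _)
        refine (h1.trans hrow).trans (Pb_mono hq0 hq1 ?_)
        rintro S₂ ⟨e, -, heS, z, hz, rfl, T, hT, hT1, hT2⟩
        have hzZ := (hZZ z hz).1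
        refine ⟨T, hT, ?_, ?_⟩
        · intro e' he'
          have h20 := hT1 he'
          rw [Finset.mem_union, Finset.mem_union, hNe z hz, Finset.mem_insert,
            Finset.mem_inter] at h20
          rw [Finset.mem_union, Finset.mem_inter]
          rcases h20 with ((h20 | h20) | h20) | ⟨h20, h21⟩
          · subst h20
            refine Or.inr ⟨heS, Finset.mem_biUnion.2 ⟨b, List.mem_toFinset.2 hbE, ?_⟩⟩
            exact mem_row E₀ b z (hZZ z hz).2
          · exact Or.inl ((hst z hzZ).edges h20)
          · exact Or.inl (Finset.mem_union_right _ h20)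
          · refine Or.inr ⟨h20, ?_⟩
            obtain ⟨c, hcc, h22⟩ := Finset.mem_biUnion.1 h21
            exact Finset.mem_biUnion.2 ⟨c, List.mem_toFinset.2
              (hNE z hz c (List.mem_toFinset.1 hcc)), h22⟩
        · have h23 : tourEdges T \ edgesL ((u :: P) :: (b₂ :: t₂) :: R₁) ⊆
              (tourEdges T \ edgesL (N z)) ∪
              insert s(b, z) (edgesL (st z) \ edgesL ((u :: P) :: (b₂ :: t₂) :: R₁)) := by
            intro e' he'
            rw [Finset.mem_sdiff] at he'
            rw [Finset.mem_union, Finset.mem_sdiff, hNe z hz, Finset.mem_insert,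
              Finset.mem_insert, Finset.mem_sdiff]
            tauto
          refine (Finset.card_le_card h23).trans ((Finset.card_union_le _ _).trans ?_)
          have h24 := (Finset.card_insert_le s(b, z)
            (edgesL (st z) \ edgesL ((u :: P) :: (b₂ :: t₂) :: R₁)))
          have h25 := (hst z hzZ).new
          rw [hNlen z hz] at hT2
          rw [List.length_cons, List.length_cons, Nat.mul_succ]
          omega
  intro L hc hne hE
  exact key L.length L rfl hc hne hE

end MP329
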