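import Pool.Agent.Lib.MP_329b4d_pr.SpecD
import Pool.Agent.Lib.MP_329b4d_pr.A3Sprinkle

/-!
# MP_329b4d_pr, D7: the final stage
-/

namespace MP329

open Finset Filter

namespace D7

/-- All first and last vertices of the members of `L`. -/
def endsL {V : Type*} (L : List (List V)) : List V :=
  L.flatMap (fun l => l.head?.toList ++ l.getLast?.toList)

theorem length_endsL {V : Type*} (L : List (List V)) : (endsL L).length ≤ 2 * L.length := by
  unfold endsL
  induction L with
  | nil => simp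
  | cons l L ih =>
    have h1 : l.head?.toList.length ≤ 1 := by cases l <;> simp
    have h2 : l.getLast?.toList.length ≤ 1 := by
      cases l.getLast? <;> simp
    simp only [List.flatMap_cons, List.length_append, List.length_cons] at *
    omega

theorem otherEnds_sub {V : Type*} (L : List (List V)) : ∀ b ∈ otherEnds L, b ∈ endsL L := by
  intro b hb
  cases L with
  | nil => simp [otherEnds] at hb
  | cons P R =>
    simp only [otherEnds, List.mem_append] at hb
    simp only [endsL, List.flatMap_cons, List.mem_append]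
    rcases hb with hb | hb
    · exact Or.inl (Or.inr hb)
    · exact Or.inr hb

/-- The facts about large `n` which are used. -/
theorem large (c : ℝ) (hc : 0 < c) (hc1 : c ≤ 1) (D : ℕ) (θ : ℝ) (hθ : 0 < θ) :
    ∃ n₀ : ℕ, ∀ n : ℕ, n₀ ≤ n → 3 ≤ n ∧ (3 : ℝ) ≤ (n : ℝ) ^ (c / 2) ∧
      32 * (n : ℝ) ^ (c / 2) ≤ n ∧
      (1 + (n : ℝ) ^ (c / 2)) * Real.log (n + 1) ≤ (n : ℝ) ^ c / 8 ∧
      (3 : ℝ) ^ D ≤ n ∧ (n : ℝ) * Real.exp (-((n : ℝ) ^ c / 8)) ≤ θ / 2 ∧
      (n : ℝ) * Real.exp (1 / 2 - (n : ℝ) ^ c / 800) ≤ θ / 2 := by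
  have hc2 : 0 < c / 2 := by linarith
  have hN : Tendsto (fun n : ℕ => (n : ℝ)) atTop atTop := tendsto_natCast_atTop_atTop
  have e1 : ∀ᶠ n : ℕ in atTop, (3 : ℝ) ≤ (n : ℝ) ^ (c / 2) :=
    ((tendsto_rpow_atTop hc2).comp hN).eventually_ge_atTop 3
  have e2 : ∀ᶠ n : ℕ in atTop, (32 : ℝ) ≤ (n : ℝ) ^ (1 / 2 : ℝ) :=
    ((tendsto_rpow_atTop (by norm_num : (0 : ℝ) < 1 / 2)).comp hN).eventually_ge_atTop 32
  have e3 : ∀ᶠ n : ℕ in atTop, Real.log n ≤ (1 / 32) * (n : ℝ) ^ (c / 2) := by
    have h := (isLittleO_log_rpow_atTop hc2).bound (c := 1 / 32) (by norm_num)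
    filter_upwards [hN.eventually h, eventually_ge_atTop 1] with n hn hn1
    have h1 : (1 : ℝ) ≤ n := by exact_mod_cast hn1
    rw [Real.norm_of_nonneg (Real.log_nonneg h1), Real.norm_of_nonneg (by positivity)] at hn
    exact hn
  have e4 : ∀ᶠ n : ℕ in atTop, Real.log n ≤ (1 / 1600) * (n : ℝ) ^ c := by
    have h := (isLittleO_log_rpow_atTop hc).bound (c := 1 / 1600) (by norm_num)
    filter_upwards [hN.eventually h, eventually_ge_atTop 1] with n hn hn1
    have h1 : (1 : ℝ) ≤ n := by exact_mod_cast hn1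
    rw [Real.norm_of_nonneg (Real.log_nonneg h1), Real.norm_of_nonneg (by positivity)] at hn
    exact hn
  have e5 : ∀ᶠ n : ℕ in atTop, (3 : ℝ) ^ D ≤ n := hN.eventually_ge_atTop _
  have e6 : ∀ᶠ n : ℕ in atTop, 4 / θ ≤ (n : ℝ) := hN.eventually_ge_atTop _
  have e7 : ∀ᶠ n : ℕ in atTop, 3 ≤ n := eventually_ge_atTop 3
  obtain ⟨n₀, hn₀⟩ := eventually_atTop.mp
    (e1.and (e2.and (e3.and (e4.and (e5.and (e6.and e7))))))
  refine ⟨n₀, fun n hn => ?_⟩
  obtain ⟨h1, h2, h3, h4, h5, h6, h7⟩ := hn₀ n hn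
  have hn3 : (3 : ℝ) ≤ n := by exact_mod_cast h7
  have hpos : (0 : ℝ) < n := by linarith
  have hone : (1 : ℝ) ≤ n := by linarith
  have hsq : (n : ℝ) ^ (c / 2) * (n : ℝ) ^ (c / 2) = (n : ℝ) ^ c := by
    rw [← Real.rpow_add hpos]; congr 1; ring
  have hhalf : (n : ℝ) ^ (1 / 2 : ℝ) * (n : ℝ) ^ (1 / 2 : ℝ) = n := by
    rw [← Real.rpow_add hpos]; norm_num
  refine ⟨h7, h1, ?_, ?_, h5, ?_, ?_⟩
  · have hle : (n : ℝ) ^ (c / 2) ≤ (n : ℝ) ^ (1 / 2 : ℝ) :=
      Real.rpow_le_rpow_of_exponent_le hone (by linarith)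
    have hp : 0 ≤ (n : ℝ) ^ (1 / 2 : ℝ) := by positivity
    nlinarith
  · have hlog : Real.log (n + 1) ≤ 2 * Real.log n := by
      rw [← Real.log_rpow hpos, show ((n : ℝ) ^ (2 : ℝ)) = (n : ℝ) ^ (2 : ℕ) by
        exact_mod_cast Real.rpow_natCast (n : ℝ) 2]
      apply Real.log_le_log (by linarith)
      nlinarith
    have hlog0 : 0 ≤ Real.log (n + 1) := Real.log_nonneg (by linarith)
    have hle : Real.log (n + 1) ≤ (1 / 16) * (n : ℝ) ^ (c / 2) := by linarith
    have hg : 0 ≤ (n : ℝ) ^ (c / 2) := by positivity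
    calc (1 + (n : ℝ) ^ (c / 2)) * Real.log (n + 1)
        ≤ (2 * (n : ℝ) ^ (c / 2)) * ((1 / 16) * (n : ℝ) ^ (c / 2)) := by
          apply mul_le_mul (by linarith) hle hlog0 (by positivity)
      _ = (n : ℝ) ^ c / 8 := by rw [← hsq]; ring
  all_goals
    have hkey : (n : ℝ) * Real.exp (-((n : ℝ) ^ c / 800)) ≤ θ / 4 := by
      have ha : -((n : ℝ) ^ c / 800) ≤ - (2 * Real.log n) := by linarith
      have hb : Real.exp (- (2 * Real.log n)) = 1 / ((n : ℝ) * n) := by
        rw [Real.exp_neg, two_mul, Real.exp_add, Real.exp_log hpos, one_div]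
      calc (n : ℝ) * Real.exp (-((n : ℝ) ^ c / 800))
          ≤ (n : ℝ) * (1 / ((n : ℝ) * n)) := by
            rw [← hb]
            exact mul_le_mul_of_nonneg_left (Real.exp_le_exp.mpr ha) hpos.le
        _ = 1 / n := by field_simp
        _ ≤ θ / 4 := by
            rw [div_le_iff₀ hpos]
            rw [div_le_iff₀ hθ] at h6
            linarith
    have hp : 0 ≤ (n : ℝ) ^ c := by positivity
  · refine le_trans (mul_le_mul_of_nonneg_left (Real.exp_le_exp.mpr ?_) hpos.le)
      (hkey.trans (by linarith))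
    linarith
  · have he : Real.exp (1 / 2) ≤ 2 := by
      have h := Real.exp_one_lt_d9
      have h2 : Real.exp (1 / 2) * Real.exp (1 / 2) = Real.exp 1 := by
        rw [← Real.exp_add]; norm_num
      nlinarith [Real.exp_pos (1 / 2)]
    rw [sub_eq_add_neg, Real.exp_add]
    have hx : 0 ≤ Real.exp (-((n : ℝ) ^ c / 800)) := (Real.exp_pos _).le
    calc (n : ℝ) * (Real.exp (1 / 2) * Real.exp (-((n : ℝ) ^ c / 800)))
        = Real.exp (1 / 2) * ((n : ℝ) * Real.exp (-((n : ℝ) ^ c / 800))) := by ring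
      _ ≤ 2 * (θ / 4) := mul_le_mul he hkey (by positivity) (by norm_num)
      _ = θ / 2 := by ring

/-- The two-round argument: if `B` holds for the first set with probability `≥ 1 - δ₁`, and for
first sets with `B` the second set yields `A` with probability `≥ 1 - δ₂`, then `A` holds with
probability `≥ 1 - δ₁ - δ₂`. -/
theorem two_rounds {ι : Type} [Fintype ι] [DecidableEq ι] (q δ₁ δ₂ : ℝ) (h0 : 0 ≤ q) (h1 : q ≤ 1)
    (hδ : 0 ≤ δ₂) (A B : Finset ι → Prop) (hA : ∀ S T, S ⊆ T → A S → A T)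
    (hB : 1 - δ₁ ≤ Pb (q / 2) B)
    (hin : ∀ S₁, B S₁ → 1 - δ₂ ≤ Pb (q / 2) (fun S₂ => A (S₁ ∪ S₂))) :
    1 - δ₁ - δ₂ ≤ Pb q A := by
  classical
  have hs := sprinkle ι (q / 2) (q / 2) q (by linarith) (by linarith) (by linarith) h1
    (fun S => @ite ℝ (A S) (Classical.propDecidable _) 1 0) (by
      intro S T hST
      by_cases h : A S
      · simp [h, hA S T hST h]
      · simp only [h, if_false]
        split_ifs <;> norm_num)
  refine le_trans ?_ hs
  have hq0 : 0 ≤ q / 2 := by linarith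
  have hq1 : q / 2 ≤ 1 := by linarith
  have h2 : Ex (q / 2) (fun S : Finset ι => (@ite ℝ (B S) (Classical.propDecidable _) 1 0) - δ₂) ≤
      Ex (q / 2) (fun S₁ => Ex (q / 2) (fun S₂ =>
        @ite ℝ (A (S₁ ∪ S₂)) (Classical.propDecidable _) 1 0)) := by
    apply Ex_mono hq0 hq1
    intro S₁
    by_cases hb : B S₁
    · simp only [hb, if_true]
      exact hin S₁ hb
    · simp only [hb, if_false]
      have := Pb_nonneg hq0 hq1 (fun S₂ => A (S₁ ∪ S₂))
      unfold Pb at this
      linarith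
  rw [Ex_sub, Ex_const] at h2
  refine le_trans ?_ h2
  unfold Pb at hB
  linarith

end D7

open D7

theorem finalStage (h1 : ExpandsLikely) (h3 : RotGrowth) (h6 : JoinAll) : FinalStage := by
  intro c hc hc1
  refine ⟨⌈4 / c⌉₊ + 1, fun θ hθ => ?_⟩
  set D := ⌈4 / c⌉₊ with hD
  obtain ⟨n₀, hn₀⟩ := large c hc hc1 D θ hθ
  refine ⟨n₀, fun V _ _ q L hn hq hq1 hL hLen => ?_⟩
  obtain ⟨hn3, hg3, hg32, hlog, h3D, hx1, hx2⟩ := hn₀ _ hn
  set n : ℝ := (Fintype.card V : ℝ) with hndef
  have hn3' : (3 : ℝ) ≤ n := by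
    rw [hndef]
    exact_mod_cast hn3
  have hpos : 0 < n := by linarith
  have hone : 1 ≤ n := by linarith
  have hq0 : 0 ≤ q := le_trans (by positivity) hq
  set g : ℝ := n ^ (c / 2) with hg
  set E₀ : Finset V := (endsL L).toFinset with hE₀
  have hLne : L ≠ [] := by
    intro h
    have : 0 < Fintype.card V := by omega
    obtain ⟨v⟩ := Fintype.card_pos_iff.mp this
    have := hL.covers v
    rw [h] at this
    simp at this
  have hm1 : 1 ≤ L.length := List.length_pos_iff.mpr hLne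
  have hE : (#E₀ : ℝ) ≤ 2 * L.length := by
    have : #E₀ ≤ 2 * L.length := (List.toFinset_card_le _).trans (length_endsL L)
    exact_mod_cast this
  have hqn : n ^ c ≤ q * n := by
    have : n ^ c = n ^ (c - 1) * n := by
      rw [Real.rpow_sub_one hpos.ne']
      field_simp
    rw [this]
    exact mul_le_mul_of_nonneg_right hq hpos.le
  have hm : (1 : ℝ) ≤ L.length := by exact_mod_cast hm1
  -- D1
  have hB := h1 V (q / 2) g E₀ (by linarith) (by linarith) (by linarith) (by linarith) hg32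
    (hlog.trans (by linarith))
  have hB' : 1 - θ / 2 ≤ Pb (q / 2) (Expands g E₀) := by
    refine le_trans ?_ hB
    have hexp : Real.exp (-(q / 2 * n / 4)) ≤ Real.exp (-(n ^ c / 8)) :=
      Real.exp_le_exp.mpr (by linarith)
    have := mul_le_mul_of_nonneg_left hexp hpos.le
    linarith
  -- the power
  have hpow : n ≤ (g / 3) ^ D := by
    have hD4 : 4 / c ≤ (D : ℝ) := Nat.le_ceil _
    have hcD : 2 ≤ c / 2 * D := by
      rw [div_le_iff₀ hc] at hD4
      linarith
    have hgD : n ^ (2 : ℕ) ≤ g ^ D := by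
      rw [hg, ← Real.rpow_natCast (n ^ (c / 2)) D, ← Real.rpow_mul hpos.le,
        ← Real.rpow_natCast n 2]
      apply Real.rpow_le_rpow_of_exponent_le hone
      exact_mod_cast hcD
    rw [div_pow, le_div_iff₀ (by positivity)]
    calc n * 3 ^ D ≤ n * n := mul_le_mul_of_nonneg_left h3D hpos.le
      _ = n ^ 2 := by ring
      _ ≤ g ^ D := hgD
  set r : ℕ := ⌊n / 400⌋₊ with hr
  have hr1 : (r : ℝ) ≤ n / 400 := Nat.floor_le (by positivity)
  have hr2 : n / 400 - 1 ≤ r := by
    have := Nat.lt_floor_add_one (n / 400)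
    linarith
  -- the two rounds
  have key := two_rounds q (θ / 2) (θ / 2) hq0 hq1 (by linarith)
    (fun S => ∃ T : List V, IsTour T ∧ tourEdges T ⊆ edgesL L ∪ S ∧
        #(tourEdges T \ edgesL L) ≤ (D + 1) * L.length) (Expands g E₀)
    (by
      rintro S T hST ⟨T', hT, hsub, hcard⟩
      exact ⟨T', hT, hsub.trans (union_subset_union_right hST), hcard⟩) hB'
    (by
      intro S₁ hS₁
      have hD6 := h6 V (q / 2) r D S₁ E₀ (by linarith) (by linarith) hn3
        (by
          intro L₀ R₀ P₀ u₀ hc0 hL0 hb0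
          obtain ⟨Z, hZ, hZs⟩ := h3 V g S₁ E₀ D L₀ R₀ P₀ u₀ hc0 hL0 hb0 hS₁ hg3 hpow
          refine ⟨Z, ?_, hZs⟩
          have hsd : (#Z : ℝ) ≤ #(Z \ E₀) + #E₀ := by
            have : #Z ≤ #(Z \ E₀) + #E₀ := card_le_card_sdiff_add_card
            exact_mod_cast this
          have : (2 * r : ℝ) ≤ #(Z \ E₀) := by linarith
          exact_mod_cast this)
        L hL hLne (by
          intro b hb
          rw [hE₀, List.mem_toFinset]
          exact otherEnds_sub L b hb)
      have hmono : Pb (q / 2) (fun S₂ => ∃ T : List V, IsTour T ∧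
          tourEdges T ⊆ edgesL L ∪ S₁ ∪ (S₂ ∩ (otherEnds L).toFinset.biUnion (rowOf E₀)) ∧
          #(tourEdges T \ edgesL L) ≤ (D + 1) * L.length) ≤
          Pb (q / 2) (fun S₂ => ∃ T : List V, IsTour T ∧ tourEdges T ⊆ edgesL L ∪ (S₁ ∪ S₂) ∧
            #(tourEdges T \ edgesL L) ≤ (D + 1) * L.length) := by
        apply Pb_mono (by linarith) (by linarith)
        rintro S₂ ⟨T, hT, hsub, hcard⟩
        refine ⟨T, hT, hsub.trans ?_, hcard⟩
        rw [union_assoc]
        exact union_subset_union_right (union_subset_union_right inter_subset_left)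
      refine le_trans ?_ (hD6.trans hmono)
      set x : ℝ := (1 - q / 2) ^ r with hx
      have hx0 : 0 ≤ x := pow_nonneg (by linarith) _
      have hx1' : x ≤ 1 := pow_le_one₀ (by linarith) (by linarith)
      have hbern : 1 + (L.length : ℝ) * (-x) ≤ (1 + -x) ^ L.length :=
        one_add_mul_le_pow (by linarith) _
      have hxle : x ≤ Real.exp (1 / 2 - n ^ c / 800) := by
        have hstep : 1 - q / 2 ≤ Real.exp (-(q / 2)) := by
          have := Real.add_one_le_exp (-(q / 2))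
          linarith
        calc x ≤ Real.exp (-(q / 2)) ^ r := pow_le_pow_left₀ (by linarith) hstep r
          _ = Real.exp (-(q / 2) * r) := by rw [← Real.exp_nat_mul]; congr 1; ring
          _ ≤ Real.exp (1 / 2 - n ^ c / 800) := by
            apply Real.exp_le_exp.mpr
            have : q / 2 * (n / 400 - 1) ≤ q / 2 * r :=
              mul_le_mul_of_nonneg_left hr2 (by linarith)
            nlinarith
      have hmn : (L.length : ℝ) ≤ n := by linarith
      have hlast : (L.length : ℝ) * x ≤ θ / 2 :=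
        (mul_le_mul hmn hxle hx0 hpos.le).trans hx2
      have heq : (1 + -x) ^ L.length = (1 - x) ^ L.length := by rw [← sub_eq_add_neg]
      rw [heq] at hbern
      linarith)
  have : 1 - θ ≤ 1 - θ / 2 - θ / 2 := by linarith
  exact this.trans key

end MP329
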