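import Mathlib

/-!
# MP_329b4d_pr: definitions

Sparse randomly embedded random graphs, asymptotic tour length.
All vertex types are in `Type`.
-/

namespace MP329

open Finset

/-! ## Finite Bernoulli sets -/
section Bern

variable {ι : Type*} [Fintype ι] [DecidableEq ι]

/-- Weight of the outcome `S` when each element of `ι` is kept with probability `q`,
independently. -/
noncomputable def wt (q : ℝ) (S : Finset ι) : ℝ := ∏ i, if i ∈ S then q else 1 - q

/-- Expectation over the Bernoulli(`q`) random subset of `ι`. -/
noncomputable def Ex (q : ℝ) (f : Finset ι → ℝ) : ℝ := ∑ S : Finset ι, wt q S * f S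

open Classical in
/-- Probability over the Bernoulli(`q`) random subset of `ι`. -/
noncomputable def Pb (q : ℝ) (A : Finset ι → Prop) : ℝ :=
  Ex q (fun S => if A S then (1 : ℝ) else 0)

end Bern

/-! ## Lists, path covers, tours -/
section Cover

variable {V : Type*} [DecidableEq V]

/-- The unordered pairs of consecutive entries of a list. -/
def links : List V → List (Sym2 V)
  | [] => []
  | [_] => []
  | a :: b :: l => s(a, b) :: links (b :: l)

/-- `L` is a path cover of `V`: nonempty lists, which together list every vertex exactly once. -/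
structure IsCover (L : List (List V)) : Prop where
  ne_nil : ∀ l ∈ L, l ≠ []
  nodup : L.flatten.Nodup
  covers : ∀ v : V, v ∈ L.flatten

/-- The edges of a list of lists: the consecutive pairs of its members. -/
def edgesL (L : List (List V)) : Finset (Sym2 V) := (L.flatMap links).toFinset

/-- A tour: a list of at least three vertices which lists every vertex exactly once. -/
structure IsTour (T : List V) : Prop where
  nodup : T.Nodup
  covers : ∀ v : V, v ∈ T
  three : 3 ≤ T.length

/-- The edges of the closed tour `T` (the last vertex is joined to the first). -/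
def tourEdges (T : List V) : Finset (Sym2 V) := (links (T ++ T.take 1)).toFinset

/-- Length of an unordered pair of vertices, for positions `X`. -/
noncomputable def len {M : Type*} [PseudoMetricSpace M] (X : V → M) : Sym2 V → ℝ :=
  Sym2.lift ⟨fun a b => dist (X a) (X b), fun _ _ => dist_comm _ _⟩

/-- Total length of a set of edges. -/
noncomputable def cost {M : Type*} [PseudoMetricSpace M] (X : V → M) (E : Finset (Sym2 V)) : ℝ :=
  ∑ e ∈ E, len X e

/-- `Hits q a P Q`: from every edge set with property `P`, after adding a Bernoulli(`q`) random set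
of pairs, with probability at least `a` there is an edge set with property `Q`. -/
def Hits [Fintype V] (q a : ℝ) (P Q : Finset (Sym2 V) → Prop) : Prop :=
  ∀ E, P E → a ≤ Pb q (fun S : Finset (Sym2 V) => ∃ E' ⊆ E ∪ S, Q E')

end Cover

/-! ## Marked graphs, the linear program, colour refinement -/
section Marked

variable {V : Type*} [Fintype V] [DecidableEq V] {q : ℕ}

/-- Weight of a mark: `some m` has weight `1 - m / q`, `none` (no edge) has weight `0`. -/
noncomputable def wm (q : ℕ) : Option (Fin q) → ℝ
  | none => 0
  | some m => 1 - (m : ℝ) / q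

/-- Feasible points of the fractional 2-matching linear program of the marked graph `g`. -/
structure Feas (g : Sym2 V → Option (Fin q)) (x : Sym2 V → ℝ) : Prop where
  nonneg : ∀ e, 0 ≤ x e
  le_one : ∀ e, x e ≤ 1
  supp : ∀ e, g e = none → x e = 0
  row : ∀ i, ∑ j, x s(i, j) ≤ 2

/-- Objective of the linear program. -/
noncomputable def obj (g : Sym2 V → Option (Fin q)) (x : Sym2 V → ℝ) : ℝ :=
  (∑ i, ∑ j, wm q (g s(i, j)) * x s(i, j)) / 2

/-- Value of the linear program. -/
noncomputable def W (g : Sym2 V → Option (Fin q)) : ℝ := sSup {t | ∃ x, Feas g x ∧ t = obj g x}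

/-- Degree in the marked graph. -/
def mdeg (g : Sym2 V → Option (Fin q)) (i : V) : ℕ := #{j | g s(i, j) ≠ none}

/-- Delete every edge with an endpoint of degree larger than `Δ`. -/
def prune (Δ : ℕ) (g : Sym2 V → Option (Fin q)) : Sym2 V → Option (Fin q) :=
  fun e => if (∀ i ∈ e, mdeg g i ≤ Δ) then g e else none

/-- Colour-refinement types. -/
def Typ (q Δ : ℕ) : ℕ → Type
  | 0 => Unit
  | r + 1 => Typ q Δ r × (Fin q × Typ q Δ r → Fin (Δ + 1))

noncomputable instance instDecEqTyp (q Δ r : ℕ) : DecidableEq (Typ q Δ r) := Classical.decEq _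

noncomputable instance instFintypeTyp (q Δ : ℕ) : ∀ r, Fintype (Typ q Δ r)
  | 0 => inferInstanceAs (Fintype Unit)
  | r + 1 => by
      haveI := instFintypeTyp q Δ r
      exact inferInstanceAs (Fintype (Typ q Δ r × (Fin q × Typ q Δ r → Fin (Δ + 1))))

/-- The colour-refinement type of a vertex after `r` rounds: the type after `r` rounds together
with the number (truncated at `Δ`) of neighbours of each mark and each type. -/
noncomputable def typ (Δ : ℕ) (g : Sym2 V → Option (Fin q)) : (r : ℕ) → V → Typ q Δ r
  | 0, _ => ()
  | r + 1, v => (typ Δ g r v, fun mt =>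
      ⟨min (#{u | g s(v, u) = some mt.1 ∧ typ Δ g r u = mt.2}) Δ,
        Nat.lt_succ_of_le (Nat.min_le_right _ _)⟩)

end Marked

/-! ## The geometric model -/
section Model

open MeasureTheory

/-- Points of the model: Euclidean space. -/
abbrev Pt (d : ℕ) := EuclideanSpace ℝ (Fin d)

/-- The unit cube. -/
def cube (d : ℕ) : Set (Pt d) := {x | ∀ i, 0 ≤ x i ∧ x i ≤ 1}

/-- Uniform distribution on the unit cube. -/
noncomputable def unif (d : ℕ) : Measure (Pt d) := volume.restrict (cube d)

/-- A coin which shows `true` with probability `p`. -/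
noncomputable def coin (p : ℝ) : Measure Bool :=
  ENNReal.ofReal p • Measure.dirac true + ENNReal.ofReal (1 - p) • Measure.dirac false

/-- A sample: positions of the `n` vertices and one coin for each unordered pair
(the coins of the pairs `s(i, i)` are never used). -/
abbrev Sample (n d : ℕ) := (Fin n → Pt d) × (Sym2 (Fin n) → Bool)

/-- The law of the sample: independent uniform positions, independent coins. -/
noncomputable def law (n d : ℕ) (p : ℝ) : Measure (Sample n d) :=
  (Measure.pi fun _ => unif d).prod (Measure.pi fun _ => coin p)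

/-- `i` and `j` are joined by an edge of the random graph. -/
def joined {n d : ℕ} (ω : Sample n d) (i j : Fin n) : Prop := i ≠ j ∧ ω.2 s(i, j) = true

/-- The minimum total length of a Hamilton cycle, `⊤` if there is none.  A Hamilton cycle is
a permutation `σ` such that `σ i` is joined to `σ (i + 1)` for every `i` (cyclically). -/
noncomputable def tourLength {n d : ℕ} (ω : Sample n d) : ENNReal :=
  ⨅ (σ : Equiv.Perm (Fin n)) (_ : 3 ≤ n ∧ ∀ i, joined ω (σ i) (σ (finRotate n i))),
    ∑ i, ENNReal.ofReal (dist (ω.1 (σ i)) (ω.1 (σ (finRotate n i))))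

/-- The mark of an edge of relative length `t`: `some ⌊q t⌋` if this is less than `q`. -/
noncomputable def markOf (q : ℕ) (t : ℝ) : Option (Fin q) :=
  if h : ⌊q * t⌋₊ < q then some ⟨⌊q * t⌋₊, h⟩ else none

/-- The marked graph of positions `X`, set of present pairs `S`, and radius `R`: the present pairs
of length less than `R`, marked by their length. -/
noncomputable def geo {V : Type*} [DecidableEq V] {d : ℕ} (q : ℕ) (R : ℝ) (X : V → Pt d)
    (S : Finset (Sym2 V)) : Sym2 V → Option (Fin q) :=
  fun e => if e ∈ S ∧ ¬ e.IsDiag then markOf q (len X e / R) else none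

/-- The unit of length `(n p)^(-1/d)`. -/
noncomputable def unit (d : ℕ) (n : ℕ) (p : ℝ) : ℝ := ((n : ℝ) * p) ^ (-(1 : ℝ) / d)

end Model

end MP329
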