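import Pool.Agent.Lib.MP_329b4d_pr.SpecA

/-!
# MP_329b4d_pr: statements D (the final stage: few paths are joined to a tour)

A path cover with few paths is turned into a tour with a bounded number of new edges per path.
The first list of a state is the *active* one; its first entry is the active head, which moves by
rotations; all the other ends never change.
-/

namespace MP329

open Finset

section Defs

variable {V : Type*} [Fintype V] [DecidableEq V]

/-- The vertices joined by a pair of `S` to a member of `U`. -/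
def nbrs (S : Finset (Sym2 V)) (U : Finset V) : Finset V := univ.filter fun y => ∃ u ∈ U, s(u, y) ∈ S

/-- Every nonempty `U` has at least `min (g #U) (n/32)` neighbours outside `E₀`. -/
def Expands (g : ℝ) (E₀ : Finset V) (S : Finset (Sym2 V)) : Prop :=
  ∀ U : Finset V, U.Nonempty → min (g * #U) ((Fintype.card V : ℝ) / 32) ≤ #(nbrs S U \ E₀)

/-- The ends other than the active head: the last vertex of the first list, and the first and the
last vertex of every other list. -/
def otherEnds {V : Type*} : List (List V) → List V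
  | [] => []
  | P :: R => P.getLast?.toList ++ R.flatMap (fun l => l.head?.toList ++ l.getLast?.toList)

/-- `L` is a state with active head `z`, obtained from `L₀` with at most `k` new edges, all of
them in `S`, with the same number of lists and the same other ends. -/
structure StateFrom (S : Finset (Sym2 V)) (L₀ : List (List V)) (k : ℕ) (z : V)
    (L : List (List V)) : Prop where
  cover : IsCover L
  head : ∃ P R, L = (z :: P) :: R
  edges : edgesL L ⊆ edgesL L₀ ∪ S
  new : #(edgesL L \ edgesL L₀) ≤ k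
  length : L.length = L₀.length
  ends : (otherEnds L).Perm (otherEnds L₀)

/-- The row of `b`: all pairs `s(b, v)`, `v ∉ E₀`. -/
def rowOf (E₀ : Finset V) (b : V) : Finset (Sym2 V) := (univ \ E₀).image fun v => s(b, v)

end Defs

/-- **D1, expansion.**

Proof.  Let `n = #V`.  Suppose `U ≠ ∅` violates the condition.  Then there is `U'` with
`t = #U' ≥ 1`, `g t ≤ n/16` and `#(nbrs S U' \ E₀) < g t`: if `g #U ≤ n/16` take `U' = U`; otherwise
take a subset of `U` of size `t = ⌊n/(16 g)⌋ ≥ 1` (as `g ≤ n/32`), then `g t ≥ n/16 - g ≥ n/32` and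
`#(nbrs S U' \ E₀) ≤ #(nbrs S U \ E₀) < n/32 ≤ g t`.  Let `Y = (nbrs S U' \ E₀) \ U'`, `#Y < g t`.  No
pair of `S` joins `U'` to `V \ (E₀ ∪ U' ∪ Y)`, a set of at least
`n - n/100 - n/16 - n/16 ≥ n/2` vertices (`t ≤ g t ≤ n/16`).  For fixed `(U', Y)` the number of these
pairs is at least `t n/2`, so the probability is at most `(1 - q)^(t n/2) ≤ exp(- q t n/2)` by
`Pb_disjoint`.  The number of `U'` is at most `(n + 1)^t`, the number of `Y` with `#Y ≤ g t` at most
`(n + 1)^(g t)`.  Union bound: the failure probability is at most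
`∑_{t=1}^{n} exp(t ((1 + g) log (n + 1) - q n/2)) ≤ ∑_{t=1}^n exp(- t q n/4) ≤ n exp(- q n/4)`. -/
def ExpandsLikely : Prop :=
  ∀ (V : Type) [Fintype V] [DecidableEq V] (q g : ℝ) (E₀ : Finset V), 0 ≤ q → q ≤ 1 →
    100 * (#E₀ : ℝ) ≤ Fintype.card V → 1 ≤ g → 32 * g ≤ Fintype.card V →
    (1 + g) * Real.log (Fintype.card V + 1) ≤ q * Fintype.card V / 4 →
    1 - Fintype.card V * Real.exp (-(q * Fintype.card V / 4)) ≤ Pb q (Expands g E₀)

/-- **D2, one rotation.**  `u` is the active head of `L`, `y ≠ u` has two neighbours `z₁ ≠ z₂` in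
`L`.  One can add the edge `s(u, y)` and delete `s(y, z)` for one `z ∈ {z₁, z₂}`, which becomes the
active head.

Proof.  Let `l` be the list of `L` containing `y`; the two edges at `y` are links of `l` (an edge of
`L` at `y` is a link of the list containing `y`, and the only links at `y` are those with the
predecessor and the successor), so `l = Q₁ ++ z :: y :: z' :: Q₂` with `{z, z'} = {z₁, z₂}`.
*If `l = u :: P`* (the active list): `Q₁ ++ [z]` begins with `u`; the new active list is
`(Q₁ ++ [z]).reverse ++ y :: z' :: Q₂`, its head is `z`, and its links are those of `l` except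
`s(z, y)`, together with `s(u, y)`.  (If `z = u` nothing changes.)  The last entry is unchanged.
*If `l ∈ R`* is another list (up to a permutation `L = (u :: P) :: l :: R'`): the new active list is
`(Q₁ ++ [z]).reverse`, the other new list is `(u :: P).reverse ++ y :: z' :: Q₂`.  The last entry
of the new active list is the head of `l`; the ends of the other new list are the last entry of
`u :: P` and the last entry of `l`: the multiset of the other ends is the same. -/
def RotStep : Prop :=
  ∀ (V : Type) [Fintype V] [DecidableEq V] (L R : List (List V)) (P : List V) (u y z₁ z₂ : V),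
    IsCover L → L = (u :: P) :: R → y ≠ u → z₁ ≠ z₂ → s(y, z₁) ∈ edgesL L → s(y, z₂) ∈ edgesL L →
    ∃ (z : V) (P' : List V) (R' : List (List V)), (z = z₁ ∨ z = z₂) ∧
      IsCover ((z :: P') :: R') ∧
      edgesL ((z :: P') :: R') = insert s(u, y) ((edgesL L).erase s(y, z)) ∧
      ((z :: P') :: R').length = L.length ∧
      (otherEnds ((z :: P') :: R')).Perm (otherEnds L)

/-- **D3, Pósa growth.**

Proof (from `RotStep`).  Let `Z k` be the set of heads of the states `L` with the property `𝒮 k`:
`L` is obtained from `L₀` by a chain of at most `k` rotations, each adding an edge `s(u, y) ∈ S`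
(`u` the current head), deleting an edge of `L₀`, as in `RotStep`; so `StateFrom S L₀ k z L` holds
by induction, and moreover every edge of `L₀` which is not an edge of `L` has an endpoint in `Z k`
(the new head after the rotation which deleted it).  `Z 0 = {u₀}`, `Z k ⊆ Z (k + 1)`.
Claim: `nbrs S (Z k) \ E₀ ⊆ Z (k+1) ∪ N (Z (k+1))`, where `N` denotes the set of neighbours with
respect to `edgesL L₀`.  Let `y ∉ E₀`, `s(u, y) ∈ S`, `u ∈ Z k` the head of `L`, and assume
`y ∉ Z (k+1)`.  Then `y ≠ u₀`, `y ≠ u`, and `y` is not in `otherEnds L₀ ⊆ E₀`, so `y` has two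
neighbours `z₁ ≠ z₂` in `L₀`.  If `s(y, z_i)` is not an edge of `L` for some `i`, then it has an
endpoint in `Z k`, not `y`, so `z_i ∈ Z k` and `y ∈ N (Z (k+1))`.  Otherwise apply `RotStep`: `z` is
the head of a state in `𝒮 (k+1)`, so `z ∈ Z (k+1)` and `y ∈ N (Z (k+1))`.
Since every vertex has at most two neighbours in `L₀`, `#(N Z) ≤ 2 #Z`, so
`3 #(Z (k+1)) ≥ #(nbrs S (Z k) \ E₀) ≥ min (g #(Z k)) (n/32)`.  By induction
`#(Z k) ≥ min ((g/3)^k) (n/96)` (if `#(Z k) ≥ n/96` use `Z k ⊆ Z (k+1)`).  Take `Z = Z D`. -/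
def RotGrowth : Prop :=
  ∀ (V : Type) [Fintype V] [DecidableEq V] (g : ℝ) (S : Finset (Sym2 V)) (E₀ : Finset V)
    (D : ℕ) (L₀ R₀ : List (List V)) (P₀ : List V) (u₀ : V),
    IsCover L₀ → L₀ = (u₀ :: P₀) :: R₀ → (∀ b ∈ otherEnds L₀, b ∈ E₀) → Expands g E₀ S →
    3 ≤ g → (Fintype.card V : ℝ) ≤ (g / 3) ^ D →
    ∃ Z : Finset V, (Fintype.card V : ℝ) / 96 ≤ #Z ∧ ∀ z ∈ Z, ∃ L, StateFrom S L₀ D z L

/-- **D6, joining everything.**  `S` is fixed; assume that from every state with other ends in `E₀`
one can reach, with at most `D` new edges of `S`, at least `2 r` active heads outside `E₀`.  Then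
with a second random set `S₂`, using only its rows of the other ends, one gets a tour.

Proof (from `RowLemma`, `ListFacts`).  Induction on `L.length ≥ 1`, for all such `L`.  Write
`L = (u :: P) :: R`, `rows L` for the union of the rows of the members of `otherEnds L`, and take
`Z' = Z \ E₀`, `#Z' ≥ 2 r`, with a state `L_z` (head `z`) for every `z ∈ Z'`.
*`R = []`*: `otherEnds L = [w]` with `w` the last vertex; `L_z = [z :: P_z]` has the last vertex `w`
as well.  If `s(w, z) ∈ S₂` for some `z ∈ Z'` then `T = z :: P_z` is a tour (`n ≥ 3`) with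
`tourEdges T = edgesL L_z ∪ {s(w, z)}`, at most `D + 1` new edges, `s(w, z)` in the row of `w`
(as `z ∉ E₀`).  Probability `1 - (1 - q)^#Z' ≥ 1 - (1 - q)^r` (`Pb_disjoint`).
*`R ≠ []`*: let `b₁` be the last vertex of `u :: P`, `b₂` the head of a member of `R`; `b₁ ≠ b₂`, both
in `otherEnds L`.  The last vertex of the active list of `L_z` differs from `b₁` or from `b₂`; so for
one `b ∈ {b₁, b₂}` there is `Z'' ⊆ Z'`, `#Z'' ≥ r`, such that for `z ∈ Z''` the vertex `b` is in
`otherEnds L_z` but not the last vertex of the active list: it is the first or the last vertex of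
another list `l` of `L_z`; let `l'` be `l` or `l.reverse`, so that `l'` ends with `b`, let `b''` be
the first entry of `l'`.  Let `N_z` be the state obtained by replacing the active list `z :: P_z` and
`l` by the new active list `l' ++ (z :: P_z)`, with head `b''`; `N_z.length = L.length - 1`,
`edgesL N_z = edgesL L_z ∪ {s(b, z)}`.  Its other ends are: the last vertex of `z :: P_z` (the
same), and the ends of the remaining lists, all in `E₀`; `b` is not among them (it lies in the active
list and is not its last vertex).  Let `A z S₂` be the success event of the induction hypothesis for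
`N_z`; it depends only on `S₂ ∩ rows N_z`, and `rows N_z` is disjoint from the row of `b`
(`s(b, v) = s(b', v')` with `b, b' ∈ E₀`, `v, v' ∉ E₀` forces `b = b'`) and contained in `rows L`.
By `RowLemma` with `R` = the row of `b`, `R' = {s(b, z) | z ∈ Z''}`, `a = (1 - (1 - q)^r)^(length-1)`,
with probability at least `(1 - (1 - q)^r) * a` some `s(b, z) ∈ S₂` and `A z S₂` holds.  Then the tour
`T` of `A z S₂` satisfies `tourEdges T ⊆ edgesL N_z ∪ S ∪ (S₂ ∩ rows N_z) ⊆
edgesL L ∪ S ∪ (S₂ ∩ rows L)` and has at most `(D + 1)(length - 1)` edges not in `N_z`, and `N_z` has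
at most `D + 1` edges not in `L`. -/
def JoinAll : Prop :=
  ∀ (V : Type) [Fintype V] [DecidableEq V] (q : ℝ) (r D : ℕ) (S : Finset (Sym2 V))
    (E₀ : Finset V), 0 ≤ q → q ≤ 1 → 3 ≤ Fintype.card V →
    (∀ (L₀ R₀ : List (List V)) (P₀ : List V) (u₀ : V), IsCover L₀ → L₀ = (u₀ :: P₀) :: R₀ →
      (∀ b ∈ otherEnds L₀, b ∈ E₀) →
      ∃ Z : Finset V, 2 * r ≤ #(Z \ E₀) ∧ ∀ z ∈ Z, ∃ L, StateFrom S L₀ D z L) →
    ∀ (L : List (List V)), IsCover L → L ≠ [] → (∀ b ∈ otherEnds L, b ∈ E₀) →
      (1 - (1 - q) ^ r) ^ L.length ≤ Pb q (fun S₂ => ∃ T : List V, IsTour T ∧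
        tourEdges T ⊆ edgesL L ∪ S ∪ (S₂ ∩ (otherEnds L).toFinset.biUnion (rowOf E₀)) ∧
        #(tourEdges T \ edgesL L) ≤ (D + 1) * L.length)

/-- **D7, the final stage.**

Proof (from D1, D3, D6, `Sprinkle`).  Let `D = ⌈4/c⌉`, `C = D + 1`, `n = #V` large,
`g = n ^ (c/2)`, `m = L.length` (`≥ 1`), `E₀` = the set of all first and last vertices of the
members of `L`, `#E₀ ≤ 2 m ≤ n/200`.  For `n ≥ n₀(c)`: `3 ≤ g`, `32 g ≤ n`,
`(1 + g) log (n + 1) ≤ n^c/8 ≤ (q/2) n/4`, `(g/3)^D ≥ n^2/3^D ≥ n`.  Let `f S = 1` if there is a tour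
`T` with `tourEdges T ⊆ edgesL L ∪ S` and at most `C m` new edges; `f` is monotone.  By `Sprinkle`,
`Pb q ≥ Ex (q/2) (fun S₁ => Ex (q/2) (fun S₂ => f (S₁ ∪ S₂)))`.  If `S₁` is such that
`Expands g E₀ S₁` (probability `≥ 1 - n exp(-q n/8)` by D1 with `q/2`), then by D3 the hypothesis of
D6 holds with `S = S₁`, `r = ⌊n/400⌋` (`#(Z \ E₀) ≥ n/96 - n/200 ≥ n/200 ≥ 2 r`), so the inner
expectation is at least `(1 - (1 - q/2)^r)^m ≥ 1 - m (1 - q/2)^r`.  So
`Pb q ≥ 1 - n exp(-n^c/8) - n exp(- (n^(c-1)/2) (n/400 - 1)) ≥ 1 - θ` for `n ≥ n₀`. -/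
def FinalStage : Prop :=
  ∀ c : ℝ, 0 < c → c ≤ 1 → ∃ C : ℕ, ∀ θ : ℝ, 0 < θ → ∃ n₀ : ℕ,
    ∀ (V : Type) [Fintype V] [DecidableEq V] (q : ℝ) (L : List (List V)),
      n₀ ≤ Fintype.card V → (Fintype.card V : ℝ) ^ (c - 1) ≤ q → q ≤ 1 → IsCover L →
      400 * (L.length : ℝ) ≤ Fintype.card V →
      1 - θ ≤ Pb q (fun S => ∃ T : List V, IsTour T ∧ tourEdges T ⊆ edgesL L ∪ S ∧
        #(tourEdges T \ edgesL L) ≤ C * L.length)

end MP329
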