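import Pool.Agent.Lib.MP_329b4d_pr.SpecC
import Pool.Agent.Lib.MP_329b4d_pr.SpecD

/-!
# MP_329b4d_pr: statements E (schedule, patching theorem) and F (regular positions)

Throughout `p = n ^ (-α)`, `s = unit d n p = (n p) ^ (-1/d)`, so `n s ^ d = 1 / p`.
-/

namespace MP329

open Finset MeasureTheory Filter

section Defs

/-- The dyadic cell of level `I` containing `x`: cells have side `2 ^ (-I)`. -/
noncomputable def cellOf {d : ℕ} (I : ℕ) (x : Pt d) : Fin d → ℤ := fun i => ⌊(2 : ℝ) ^ I * x i⌋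

/-- Regular positions: all points in the cube, and at every level `I` with at most `M` cells every
nonempty cell contains between `N/2` and `2 N` points, where `N = n / (number of cells)`. -/
def Regular {n d : ℕ} (M : ℝ) (X : Fin n → Pt d) : Prop :=
  (∀ v, X v ∈ cube d) ∧ ∀ I : ℕ, ((2 : ℝ) ^ I) ^ d ≤ M → ∀ v,
    (n : ℝ) / ((2 : ℝ) ^ I) ^ d / 2 ≤ #{u | cellOf I (X u) = cellOf I (X v)} ∧
    (#{u | cellOf I (X u) = cellOf I (X v)} : ℝ) ≤ 2 * ((n : ℝ) / ((2 : ℝ) ^ I) ^ d)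

/-- The edge sets of path covers with at most `m` paths and cost at most `b`. -/
def Cl {n d : ℕ} (X : Fin n → Pt d) (m b : ℝ) (E : Finset (Sym2 (Fin n))) : Prop :=
  ∃ L, IsCover L ∧ edgesL L = E ∧ (L.length : ℝ) ≤ m ∧ cost X E ≤ b

/-- Ratio of the schedule. -/
noncomputable def r0 : ℝ := 1 - 1 / 3000

/-- Density (relative to `p`) of one attempt of stage `j`. -/
noncomputable def epsj (ε : ℝ) (R j : ℕ) : ℝ := ε / (4 * R * ((j : ℝ) + 1) ^ 3)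

/-- Number of paths (relative to `n`) before stage `j`. -/
noncomputable def Dj (δ s : ℝ) (j : ℕ) : ℝ := max (δ * r0 ^ j) (δ * s)

/-- Side (relative to `s`) of the cells of stage `j`. -/
noncomputable def tj (A₀ ε p δ s : ℝ) (R j : ℕ) : ℝ :=
  A₀ / (epsj ε R j * √(Dj δ s (j + 1))) + 128 * p / Dj δ s (j + 1)

/-- Cost (relative to `n s`) added in stage `j`. -/
noncomputable def addj (d : ℕ) (A₀ ε p δ s : ℝ) (R j : ℕ) : ℝ :=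
  if Dj δ s (j + 1) < Dj δ s j then 8 * √d * tj A₀ ε p δ s R j * Dj δ s j else 0

end Defs

/-- **F1, positions are regular with high probability.**

Proof.  Almost surely all points are in `[0, 1)^d`.  Fix `I` with `2^(d I) ≤ n^(1-α)` and a cell `a`
(an index vector with entries in `{0, …, 2^I - 1}`), `v = 2^(-d I)` its volume, `N = n v ≥ n^α`,
`Z = #{u | cellOf I (X u) = a}`.  By independence `E 2^Z = (1 + v)^n ≤ e^N` and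
`E 2^(-Z) = (1 - v/2)^n ≤ e^(-N/2)`; by Markov `P (Z > 2 N) ≤ (e/4)^N`,
`P (Z < N/2) ≤ (2/e)^(N/2)`.  The number of pairs `(I, a)` is at most `(n + 1) * n` (as
`2^I ≤ 2^(d I) ≤ n`, so `I ≤ n`).  The failure probability is at most
`(n + 1) n ((e/4)^(n^α) + (2/e)^(n^α/2)) → 0`. -/
def RegularLikely : Prop :=
  ∀ (d : ℕ) (α : ℝ), 1 ≤ d → 0 < α → α < 1 →
    Tendsto (fun n : ℕ => (Measure.pi fun _ : Fin n => unif d)
      {X | Regular ((n : ℝ) ^ (1 - α)) X}) atTop (nhds 1)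

/-- **E2, one attempt.**

Proof (from `RoundLemma`).  Let `L` be a cover with `m = L.length ≤ D₀ n` and cost at most `b`.  If
`m ≤ D n` then `L` itself is good (with probability 1).  Let `m > D n` (so `n ≥ 1`).  Let `I` be such
that `h = 2^(-I)` satisfies `t s ≤ h ≤ 2 t s` (possible as `0 < t s ≤ 1`).  Put `N = n h^d`,
`ρ = √d h`, `q = ε' p`, cells `c v = cellOf I (X v)`.  Two points of a cell are at distance at most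
`√d h = ρ`.  Since `t ≥ 1`, `N ≥ n t^d s^d = t^d / p ≥ t / p`, and `(2^I)^d = h^(-d) ≤ s^(-d) = n p`,
so `Regular` applies at level `I`.  Then: `m N ≥ D n t / p ≥ 128 n`;
`q N ≥ ε' t ≥ A₀ / √D ≥ A₀ ≥ 4`; `m (q N)^2 ≥ D n (ε' t)^2 ≥ n A₀^2 ≥ 8 n`;
`ρ q N m ≥ (t s) (ε' t) (D n) = s n (ε' t √D)^2 / ε' ≥ s n A₀^2 ≥ 2 B' n s ≥ 2 b ≥ 2 cost`.
`RoundLemma` gives with probability at least `1/3000` a cover with at most
`r0 m ≤ r0 D₀ n ≤ D n` lists and cost at most `b + 4 ρ m ≤ b + 8 √d t s D₀ n`. -/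
def StageLemma : Prop :=
  ∀ (d n : ℕ) (X : Fin n → Pt d) (p s D₀ D ε' t A₀ B' b : ℝ), 1 ≤ d → 0 < p → p ≤ 1 →
    0 < n → s = unit d n p → Regular ((n : ℝ) * p) X →
    0 < D → D ≤ D₀ → D ≤ 1 → r0 * D₀ ≤ D → 0 < ε' → ε' ≤ 1 → 1000 * (ε' * p) ≤ 1 →
    1 ≤ t → t * s ≤ 1 → 128 * p / D ≤ t → A₀ ≤ ε' * t * √D → 4 ≤ A₀ → 2 * B' ≤ A₀ ^ 2 →
    b ≤ B' * n * s →
    Hits (ε' * p) (1 / 3000) (Cl X (D₀ * n) b) (Cl X (D * n) (b + 8 * √d * t * D₀ * n * s))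

/-- **E3a, numbers of the schedule.**

Proof.  Choose `R ≥ 1` with `r0^R / (1 - r0^R) ≤ θ / 2`.  Let `Σ₃ = ∑ j, (j + 1)^3 r0^(j/2) < ∞`,
`C₁ = 8 √d (4 R / (ε √r0)) Σ₃`, `A₀ = 4 + 2 C₁ + 2 (B + 1)`; then
`A₀^2 ≥ A₀ (2 C₁) + A₀ (2 (B + 1)) ≥ 2 (B + C₁ A₀ + 1)`.  Given `δ ∈ (0, 1]` let `n` be large,
`p = n^(-α)`, `s = (n p)^(-1/d) = n^(-(1-α)/d)`, and `J` the least number with `r0^J ≤ s`, so
`J ≤ 1 + log (1/s) / log (1/r0) = O(log n)`.  For `j < J`: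
`1 ≤ t_j` as `A₀ ≥ 4`, `ε_j ≤ 1`, `Dj ≤ 1`;
`t_j s ≤ (4 R A₀ / (ε √δ)) (j + 1)^3 √s + 128 p / δ ≤ 1` for `n ≥ n₀` (use `Dj ≥ δ s`), since
`(log n)^3 √s → 0` and `p → 0`.  If `Dj (j+1) < Dj j` then `Dj j = δ r0^j` (otherwise both are
`δ s`), and `Dj (j+1) ≥ r0 Dj j`, so
`t_j Dj j ≤ A₀ √(Dj j) / (ε_j √r0) + 128 p / r0 = (4 R A₀/(ε √r0)) (j+1)^3 √δ r0^(j/2) + 128 p / r0`.
Summing, `∑ j < J, addj ≤ C₁ A₀ √δ + 8 √d 128 p J / r0 ≤ C₁ A₀ √δ + δ` for `n ≥ n₀`.  The other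
statements: `r0^J ≤ s` by choice; `1000 p ≤ 1`, `400 s ≤ 1` for `n` large. -/
def ScheduleNumbers : Prop :=
  ∀ (d : ℕ) (α ε B θ : ℝ), 1 ≤ d → 0 < α → α < 1 → 0 < ε → ε ≤ 1 → 0 ≤ B → 0 < θ →
    ∃ (R : ℕ) (C₁ A₀ : ℝ), 1 ≤ R ∧ 0 ≤ C₁ ∧ 4 ≤ A₀ ∧ 2 * (B + C₁ * A₀ + 1) ≤ A₀ ^ 2 ∧
      (∀ J : ℕ, ∑ j ∈ range J, (r0 ^ R) ^ (j + 1) ≤ θ / 2) ∧
      ∀ δ : ℝ, 0 < δ → δ ≤ 1 → ∃ n₀ : ℕ, 0 < n₀ ∧ ∀ n : ℕ, n₀ ≤ n → ∀ p s : ℝ,
        p = (n : ℝ) ^ (-α) → s = unit d n p →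
        0 < s ∧ 400 * s ≤ 1 ∧ 1000 * p ≤ 1 ∧ ∃ J : ℕ, r0 ^ J ≤ s ∧
          (∀ j < J, 1 ≤ tj A₀ ε p δ s R j ∧ tj A₀ ε p δ s R j * s ≤ 1) ∧
          ∑ j ∈ range J, addj d A₀ ε p δ s R j ≤ C₁ * A₀ * √δ + δ

/-- **E3, the schedule.**

Proof (from `StageLemma`, `ScheduleNumbers`, `Attempts`, `Compose`).  Take `R, C₁, A₀` from
`ScheduleNumbers`, `K₁ = C₁ A₀`, `B' = B + C₁ A₀ + 1`.  For `j ≤ J` put
`b_j = b + n s ∑ i < j, addj i ≤ B' n s`, `Q_j = ∑ i < j, ε p / (4 (i + 1)^2) ≤ ε p / 2`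
(as `∑ 1/(i+1)^2 ≤ 2`), `a_j = ∑ i < j, (r0^R)^(i+1) ≤ θ/2`.
Claim: `Hits Q_j (1 - a_j) (Cl X (δ n) b) (Cl X (Dj j * n) b_j)`.  Induction on `j ≤ J`.  `j = 0`:
`Dj 0 = δ` (as `s ≤ 1`), nothing to do (`Q_0 = 0`, `a_0 = 0`).  Step: if `Dj (j+1) = Dj j`, the
class does not change (only enlarge `Q`, `a`, use `ExMonoQ`, or `Compose` with a trivial step).
If `Dj (j+1) < Dj j`: `StageLemma` with `D₀ = Dj j`, `D = Dj (j+1)`, `ε' = ε_j = epsj ε R j`,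
`t = tj`: indeed `ε_j t √D ≥ A₀`, `t ≥ 128 p / D`, `r0 D₀ ≤ D ≤ D₀ ≤ 1`; it gives
`Hits (ε_j p) (1/3000) …`.  `Attempts` with `R (j + 1)` attempts gives
`Hits (R (j+1) ε_j p) (1 - r0^(R (j+1))) …`, and `R (j + 1) ε_j p = ε p/(4 (j+1)^2)`.  `Compose`.
For `j = J`: `Dj J = δ s` since `r0^J ≤ s`. -/
def ScheduleLemma : Prop :=
  ∀ (d : ℕ) (α ε B θ : ℝ), 1 ≤ d → 0 < α → α < 1 → 0 < ε → ε ≤ 1 → 0 ≤ B → 0 < θ →
    ∃ K₁ : ℝ, 0 ≤ K₁ ∧ ∀ δ : ℝ, 0 < δ → δ ≤ 1 → ∃ n₀ : ℕ, ∀ n : ℕ, n₀ ≤ n →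
      ∀ (X : Fin n → Pt d) (p s b : ℝ), p = (n : ℝ) ^ (-α) → s = unit d n p →
        Regular ((n : ℝ) * p) X → b ≤ B * n * s →
        Hits (ε * p / 2) (1 - θ / 2) (Cl X (δ * n) b)
          (Cl X (δ * s * n) (b + (K₁ * √δ + δ) * n * s))

/-- **E4, the patching theorem.**

Proof (from `ScheduleLemma`, `FinalStage`, `Compose`).  Let `c = (1 - α)/2` and `C` from
`FinalStage`; `K₂ = K₁ + 1 + C √d`.  Let `n` be large; then `ε p / 2 ≥ n^(c - 1)` and `400 s ≤ 1`.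
By `FinalStage` with `θ/2` and density `ε p/2`, from the class `Cl X (δ s n) b'` one reaches a tour
`T` with `tourEdges T ⊆ E ∪ S`, at most `C δ s n` new edges, each of length at most `√d` (points of
the cube), so of cost at most `b' + C √d δ n s`.  `Compose` with `ScheduleLemma`
(`b = cost X (edgesL L)`, `b' = b + (K₁ √δ + δ) n s`); `δ ≤ √δ`. -/
def PatchTheorem : Prop :=
  ∀ (d : ℕ) (α ε B θ : ℝ), 1 ≤ d → 0 < α → α < 1 → 0 < ε → ε ≤ 1 → 0 ≤ B → 0 < θ →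
    ∃ K₂ : ℝ, 0 ≤ K₂ ∧ ∀ δ : ℝ, 0 < δ → δ ≤ 1 → ∃ n₀ : ℕ, ∀ n : ℕ, n₀ ≤ n →
      ∀ (X : Fin n → Pt d) (p s : ℝ), p = (n : ℝ) ^ (-α) → s = unit d n p →
        Regular ((n : ℝ) * p) X → ∀ L : List (List (Fin n)), IsCover L →
        (L.length : ℝ) ≤ δ * n → cost X (edgesL L) ≤ B * n * s →
        1 - θ ≤ Pb (ε * p) (fun S => ∃ T : List (Fin n), IsTour T ∧
          tourEdges T ⊆ edgesL L ∪ S ∧
          cost X (tourEdges T) ≤ cost X (edgesL L) + K₂ * √δ * n * s)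

end MP329
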