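import Pool.Agent.Lib.MP_329b4d_pr.Basic
import Pool.Agent.Lib.MP_329b4d_pr.SpecE

/-!
# MP_329b4d_pr, E2: one attempt of a stage
-/

namespace MP329

open Finset MeasureTheory Filter

/-- Two points of the same dyadic cell are close. -/
theorem e2_dist_le {d : ℕ} {I : ℕ} {x y : Pt d} (h : cellOf I x = cellOf I y) :
    dist x y ≤ √d * (1 / 2 ^ I) := by
  have h2 : (0 : ℝ) < 2 ^ I := by positivity
  have hc : ∀ i, |x i - y i| ≤ 1 / 2 ^ I := by
    intro i
    have h1 : ⌊(2 : ℝ) ^ I * x i⌋ = ⌊(2 : ℝ) ^ I * y i⌋ := congrFun h i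
    have h3 := Int.abs_sub_lt_one_of_floor_eq_floor h1
    rw [← mul_sub, abs_mul, abs_of_pos h2] at h3
    rw [le_div_iff₀ h2]
    linarith
  rw [EuclideanSpace.dist_eq]
  have h4 : ∑ i : Fin d, dist (x i) (y i) ^ 2 ≤ ∑ _i : Fin d, (1 / (2 : ℝ) ^ I) ^ 2 := by
    apply Finset.sum_le_sum
    intro i _
    rw [Real.dist_eq]
    exact pow_le_pow_left₀ (abs_nonneg _) (hc i) 2
  have h5 : ∑ _i : Fin d, (1 / (2 : ℝ) ^ I) ^ 2 = (d : ℝ) * (1 / 2 ^ I) ^ 2 := by
    simp
  calc √(∑ i : Fin d, dist (x i) (y i) ^ 2) ≤ √((d : ℝ) * (1 / 2 ^ I) ^ 2) :=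
        Real.sqrt_le_sqrt (h4.trans (le_of_eq h5))
    _ = √d * (1 / 2 ^ I) := by
        rw [Real.sqrt_mul (Nat.cast_nonneg d), Real.sqrt_sq (by positivity)]

/-- The unit of length satisfies `s ^ d = (n p)⁻¹`. -/
theorem e2_unit_pow {d n : ℕ} {p : ℝ} (hd : 1 ≤ d) (hn : 0 < n) (hp : 0 < p) :
    0 < unit d n p ∧ (unit d n p) ^ d = ((n : ℝ) * p)⁻¹ := by
  have hnp : (0 : ℝ) < (n : ℝ) * p := by positivity
  refine ⟨Real.rpow_pos_of_pos hnp _, ?_⟩
  unfold unit
  rw [← Real.rpow_natCast, ← Real.rpow_mul hnp.le]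
  have : (-(1 : ℝ) / d) * d = -1 := by
    have : (d : ℝ) ≠ 0 := by positivity
    field_simp
  rw [this, Real.rpow_neg_one]

/-- **E2, one attempt.** -/
theorem stageLemma (hR : RoundLemma) : StageLemma := by
  intro d n X p s D₀ D ε' t A₀ B' b hd hp hp1 hn hs hreg hD hDD hD1 hr hε hε1 hεp ht hts hpt hA
    hA4 hBA hb
  intro E hE
  obtain ⟨L, hL, hLE, hLm, hLc⟩ := hE
  obtain ⟨hs0, hsd⟩ := e2_unit_pow hd hn hp
  rw [← hs] at hs0 hsd
  have hn0 : (0 : ℝ) < n := by exact_mod_cast hn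
  have ht0 : 0 < t := by linarith
  have hD00 : 0 < D₀ := by linarith
  have hq0 : 0 < ε' * p := by positivity
  have hq1 : ε' * p ≤ 1 := by nlinarith
  have hsqd : (1 : ℝ) ≤ √d := by
    rw [Real.one_le_sqrt]
    exact_mod_cast hd
  have hadd : 0 ≤ 8 * √d * t * D₀ * n * s := by positivity
  by_cases hcase : (L.length : ℝ) ≤ D * n
  · -- the cover itself is good
    have h1 : Pb (ε' * p) (fun S : Finset (Sym2 (Fin n)) => ∃ E' ⊆ E ∪ S,
        Cl X (D * n) (b + 8 * √d * t * D₀ * n * s) E') = 1 := by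
      apply Pb_of_forall
      intro S
      exact ⟨E, Finset.subset_union_left, L, hL, hLE, hcase, by linarith⟩
    rw [h1]; norm_num
  · push Not at hcase
    have hts0 : 0 < t * s := by positivity
    -- the level
    obtain ⟨I, hI1, hI2⟩ := exists_nat_pow_near (x := 1 / (t * s)) (y := (2 : ℝ))
      (by rw [le_div_iff₀ hts0]; linarith) (by norm_num)
    have h2I : (0 : ℝ) < 2 ^ I := by positivity
    set h : ℝ := 1 / 2 ^ I with hh
    have hh0 : 0 < h := by positivity
    have hh1 : t * s ≤ h := by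
      rw [hh, le_div_iff₀ h2I]
      rw [le_div_iff₀ hts0] at hI1
      linarith
    have hh2 : h ≤ 2 * (t * s) := by
      rw [hh, div_le_iff₀ h2I]
      rw [div_lt_iff₀ hts0, pow_succ] at hI2
      nlinarith
    -- regularity applies
    have hlev : ((2 : ℝ) ^ I) ^ d ≤ (n : ℝ) * p := by
      have h1 : (2 : ℝ) ^ I ≤ 1 / s := by
        refine hI1.trans ?_
        apply one_div_le_one_div_of_le hs0
        nlinarith
      have h3 : ((2 : ℝ) ^ I) ^ d ≤ (1 / s) ^ d := pow_le_pow_left₀ h2I.le h1 d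
      have h4 : (1 / s) ^ d = (n : ℝ) * p := by
        rw [one_div, inv_pow, hsd, inv_inv]
      linarith
    have hcell := hreg.2 I hlev
    set N : ℝ := (n : ℝ) / ((2 : ℝ) ^ I) ^ d with hN
    have hNh : N = n * h ^ d := by
      rw [hN, hh, one_div, inv_pow]
      field_simp
    have hNt : t / p ≤ N := by
      have h1 : (t * s) ^ d ≤ h ^ d := pow_le_pow_left₀ hts0.le hh1 d
      have h3 : t ≤ t ^ d := le_self_pow₀ ht (by omega)
      have h4 : (n : ℝ) * (t * s) ^ d = t ^ d / p := by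
        rw [mul_pow, hsd, mul_inv]
        field_simp
      have h5 : t / p ≤ t ^ d / p := by gcongr
      have h6 : (n : ℝ) * (t * s) ^ d ≤ n * h ^ d := by gcongr
      rw [hNh]
      linarith
    have hNp : t ≤ N * p := by
      rwa [div_le_iff₀ hp] at hNt
    have hN0 : 0 < N := lt_of_lt_of_le (by positivity) hNt
    have hqN : ε' * t ≤ ε' * p * N := by
      have := mul_le_mul_of_nonneg_left hNp hε.le
      nlinarith
    have hsq1 : √D ≤ 1 := by
      rw [Real.sqrt_le_one]
      exact hD1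
    have hsq0 : 0 < √D := Real.sqrt_pos.mpr hD
    have hεt : A₀ ≤ ε' * t := by
      have : ε' * t * √D ≤ ε' * t * 1 := by gcongr
      linarith
    have hεt0 : 0 < ε' * t := by positivity
    -- the square
    have hA2 : A₀ ^ 2 ≤ (ε' * t) ^ 2 * D := by
      have h1 : A₀ ^ 2 ≤ (ε' * t * √D) ^ 2 := pow_le_pow_left₀ (by linarith) hA 2
      rwa [mul_pow, Real.sq_sqrt hD.le] at h1
    have hm0 : 0 < (L.length : ℝ) := lt_trans (by positivity) hcase
    have key := hR (Fin n) (Pt d) (Fin d → ℤ) X (fun v => cellOf I (X v)) N (√d * h) (ε' * p) L hL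
      hq0 (by linarith) (by positivity) hcell
      (fun u v huv => e2_dist_le huv)
      (by
        rw [Fintype.card_fin]
        have h1 : 128 * p ≤ t * D := by rwa [div_le_iff₀ hD] at hpt
        have h3 : 128 ≤ D * N := by
          have : t * D ≤ N * p * D := by gcongr
          have h5 : 128 * p ≤ (D * N) * p := by nlinarith
          exact le_of_mul_le_mul_right h5 hp
        have h4 : (D * n) * N ≤ L.length * N := by gcongr
        nlinarith)
      (by linarith)
      (by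
        rw [Fintype.card_fin]
        have h1 : (ε' * t) ^ 2 ≤ (ε' * p * N) ^ 2 := pow_le_pow_left₀ hεt0.le hqN 2
        have h3 : (D * n) * (ε' * t) ^ 2 ≤ L.length * (ε' * p * N) ^ 2 :=
          mul_le_mul hcase.le h1 (by positivity) hm0.le
        have h4 : (16 : ℝ) ≤ A₀ ^ 2 := by nlinarith
        have h5 : (n : ℝ) * A₀ ^ 2 ≤ n * ((ε' * t) ^ 2 * D) := by gcongr
        nlinarith)
      (by
        rw [hLE]
        have h1 : t * s ≤ √d * h := by
          have : 1 * (t * s) ≤ √d * h := mul_le_mul hsqd hh1 hts0.le (by positivity)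
          linarith
        have h3 : (t * s) * (ε' * t) ≤ √d * h * (ε' * p * N) :=
          mul_le_mul h1 hqN hεt0.le (by positivity)
        have h4 : (t * s) * (ε' * t) * (D * n) ≤ √d * h * (ε' * p * N) * L.length :=
          mul_le_mul h3 hcase.le (by positivity) (by positivity)
        have h5 : A₀ ^ 2 ≤ ε' * t ^ 2 * D := by
          have h6 : (ε' * t) ^ 2 * D ≤ ε' * t ^ 2 * D := by
            have h7 : ε' ^ 2 ≤ ε' := by nlinarith
            have : ε' ^ 2 * (t ^ 2 * D) ≤ ε' * (t ^ 2 * D) := by gcongr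
            nlinarith
          linarith
        have h8 : A₀ ^ 2 * (n * s) ≤ ε' * t ^ 2 * D * (n * s) := by gcongr
        have h9 : 2 * B' * (n * s) ≤ A₀ ^ 2 * (n * s) := by gcongr
        nlinarith)
    refine key.trans ?_
    apply Pb_mono hq0.le hq1
    rintro S ⟨L', hL', hlen, hedge, hcost⟩
    refine ⟨edgesL L', ?_, L', hL', rfl, ?_, ?_⟩
    · rw [← hLE]; exact hedge
    · have h1 : (1 - 1 / 3000) * (L.length : ℝ) ≤ (1 - 1 / 3000) * (D₀ * n) := by gcongr
      have h3 : (1 - 1 / 3000) * (D₀ * n) ≤ D * n := by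
        have : r0 * D₀ * n ≤ D * n := by gcongr
        unfold r0 at this
        nlinarith
      linarith
    · rw [hLE] at hcost
      have h1 : 4 * (√d * h) * (L.length : ℝ) ≤ 4 * (√d * (2 * (t * s))) * (D₀ * n) := by gcongr
      nlinarith

end MP329
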