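import Pool.Agent.Lib.MP_329b4d_pr.SpecE

/-!
# MP_329b4d_pr: numbers of the schedule (E3a)
-/

set_option autoImplicit false

namespace MP329

open Finset MeasureTheory Filter

namespace E3Num

theorem r0_pos : (0 : ℝ) < r0 := by unfold r0; norm_num

theorem r0_lt : r0 < (1 : ℝ) := by unfold r0; norm_num

/-- choice of `R` -/
theorem exists_R {θ : ℝ} (hθ : 0 < θ) :
    ∃ R : ℕ, 1 ≤ R ∧ ∀ J : ℕ, ∑ j ∈ range J, (r0 ^ R) ^ (j + 1) ≤ θ / 2 := by
  have hm : 0 < min (1 / 2 : ℝ) (θ / 4) := lt_min (by norm_num) (by linarith)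
  obtain ⟨n, hn⟩ := exists_pow_lt_of_lt_one hm r0_lt
  refine ⟨n + 1, by omega, fun J => ?_⟩
  set ρ : ℝ := r0 ^ (n + 1) with hρ
  have hρ0 : 0 < ρ := pow_pos r0_pos _
  have hρ1 : ρ ≤ min (1 / 2 : ℝ) (θ / 4) := by
    have h1 : ρ ≤ r0 ^ n := by
      rw [hρ]
      exact pow_le_pow_of_le_one r0_pos.le r0_lt.le (Nat.le_succ n)
    linarith
  have h2 : ρ ≤ 1 / 2 := hρ1.trans (min_le_left _ _)
  have h3 : ρ ≤ θ / 4 := hρ1.trans (min_le_right _ _)
  have h4 : ∀ J : ℕ, ∑ j ∈ range J, ρ ^ (j + 1) ≤ 2 * ρ * (1 - ρ ^ J) := by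
    intro J
    induction J with
    | zero => simp
    | succ J ih =>
      rw [Finset.sum_range_succ]
      have h5 : 0 ≤ ρ ^ (J + 1) := by positivity
      have h6 : ρ ^ (J + 1) = ρ * ρ ^ J := by ring
      have h7 : 0 ≤ ρ ^ J := by positivity
      nlinarith [mul_nonneg hρ0.le h7]
  have h5 := h4 J
  have h6 : 0 ≤ ρ ^ J := by positivity
  nlinarith [mul_nonneg hρ0.le h6]

/-- the cubic geometric sums are bounded -/
theorem exists_sum {c : ℝ} (hc0 : 0 < c) (hc1 : c < 1) :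
    ∃ S : ℝ, 0 ≤ S ∧ ∀ J : ℕ, ∑ j ∈ range J, ((j : ℝ) + 1) ^ 3 * c ^ j ≤ S := by
  have h1 : Summable (fun n : ℕ => (n : ℝ) ^ 3 * c ^ n) :=
    summable_pow_mul_geometric_of_norm_lt_one 3 (by
      rw [Real.norm_eq_abs, abs_of_pos hc0]
      exact hc1)
  have h2 : Summable (fun n : ℕ => ((n : ℝ) + 1) ^ 3 * c ^ n) := by
    have h3 := ((summable_nat_add_iff 1).2 h1).mul_left c⁻¹
    refine h3.congr fun n => ?_
    push_cast
    field_simp
    ring
  refine ⟨∑' n : ℕ, ((n : ℝ) + 1) ^ 3 * c ^ n, tsum_nonneg fun n => by positivity, fun J => ?_⟩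
  exact h2.sum_le_tsum _ fun n _ => by positivity

theorem tendsto_log_mul {γ : ℝ} (hγ : 0 < γ) (a b : ℝ) :
    Tendsto (fun n : ℕ => (a + b * Real.log n) * (n : ℝ) ^ (-γ)) atTop (nhds 0) := by
  have h1 : Tendsto (fun x : ℝ => Real.log x / x ^ γ) atTop (nhds 0) :=
    (isLittleO_log_rpow_atTop hγ).tendsto_div_nhds_zero
  have h2 : Tendsto (fun x : ℝ => x ^ (-γ)) atTop (nhds 0) := tendsto_rpow_neg_atTop hγ
  have h3 : Tendsto (fun x : ℝ => a * x ^ (-γ) + b * (Real.log x / x ^ γ)) atTop (nhds 0) := by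
    have h4 := (h2.const_mul a).add (h1.const_mul b)
    simpa using h4
  have h5 := h3.comp tendsto_natCast_atTop_atTop
  refine h5.congr fun n => ?_
  simp only [Function.comp]
  rw [Real.rpow_neg (Nat.cast_nonneg n)]
  ring

/-- lower bound for `Dj` -/
theorem Dj_ge {δ s : ℝ} (j : ℕ) : δ * s ≤ Dj δ s j := le_max_right _ _

theorem Dj_le {δ s : ℝ} (hδ : 0 < δ) (hs1 : s ≤ 1) (j : ℕ) : Dj δ s j ≤ δ := by
  unfold Dj
  refine max_le ?_ ?_
  · have h1 : r0 ^ j ≤ 1 := pow_le_one₀ r0_pos.le r0_lt.le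
    nlinarith
  · nlinarith

theorem epsj_pos {ε : ℝ} (hε : 0 < ε) {R : ℕ} (hR : 1 ≤ R) (j : ℕ) : 0 < epsj ε R j := by
  have h1 : (0 : ℝ) < R := by exact_mod_cast hR
  unfold epsj
  positivity

theorem epsj_le {ε : ℝ} (hε1 : ε ≤ 1) {R : ℕ} (hR : 1 ≤ R) (j : ℕ) :
    epsj ε R j ≤ 1 := by
  have h1 : (1 : ℝ) ≤ R := by exact_mod_cast hR
  have h2 : (1 : ℝ) ≤ ((j : ℝ) + 1) ^ 3 := one_le_pow₀ (by linarith [Nat.cast_nonneg (α := ℝ) j])
  unfold epsj
  rw [div_le_one (by positivity)]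
  nlinarith

theorem one_le_tj {A₀ ε p δ s : ℝ} {R : ℕ} (hA : 4 ≤ A₀) (hε : 0 < ε) (hε1 : ε ≤ 1) (hp : 0 ≤ p)
    (hδ : 0 < δ) (hδ1 : δ ≤ 1) (hs : 0 < s) (hs1 : s ≤ 1) (hR : 1 ≤ R) (j : ℕ) :
    1 ≤ tj A₀ ε p δ s R j := by
  have h1 := epsj_pos hε hR j
  have h2 := epsj_le hε1 hR j
  have h3 : 0 < Dj δ s (j + 1) := lt_of_lt_of_le (mul_pos hδ hs) (Dj_ge _)
  have h4 : Dj δ s (j + 1) ≤ 1 := (Dj_le hδ hs1 _).trans hδ1
  have h5 : 0 < √(Dj δ s (j + 1)) := Real.sqrt_pos.2 h3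
  have h6 : √(Dj δ s (j + 1)) ≤ 1 := by
    exact Real.sqrt_le_one.2 h4
  have h7 : epsj ε R j * √(Dj δ s (j + 1)) ≤ 1 := mul_le_one₀ h2 h5.le h6
  have h8 : 1 ≤ A₀ / (epsj ε R j * √(Dj δ s (j + 1))) := by
    rw [le_div_iff₀ (mul_pos h1 h5)]
    linarith
  have h9 : 0 ≤ 128 * p / Dj δ s (j + 1) := by positivity
  unfold tj
  linarith

theorem tj_mul_le {A₀ ε p δ s : ℝ} {R : ℕ} (hA : 4 ≤ A₀) (hε : 0 < ε) (hp : 0 ≤ p)
    (hδ : 0 < δ) (hs : 0 < s) (hR : 1 ≤ R) (j : ℕ) :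
    tj A₀ ε p δ s R j * s ≤
      4 * R * A₀ / (ε * √δ) * (((j : ℝ) + 1) ^ 3 * √s) + 128 * p / δ := by
  have hR0 : (0 : ℝ) < R := by exact_mod_cast hR
  have h1 := epsj_pos hε hR j
  have h3 : δ * s ≤ Dj δ s (j + 1) := Dj_ge _
  have h3' : 0 < δ * s := mul_pos hδ hs
  have hsδ : 0 < √δ := Real.sqrt_pos.2 hδ
  have hss : 0 < √s := Real.sqrt_pos.2 hs
  have h5 : √δ * √s ≤ √(Dj δ s (j + 1)) := by
    rw [← Real.sqrt_mul hδ.le]
    exact Real.sqrt_le_sqrt h3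
  have h6 : A₀ / (epsj ε R j * √(Dj δ s (j + 1))) ≤ A₀ / (epsj ε R j * (√δ * √s)) :=
    div_le_div_of_nonneg_left (by linarith) (by positivity)
      (mul_le_mul_of_nonneg_left h5 h1.le)
  have h7 : 128 * p / Dj δ s (j + 1) ≤ 128 * p / (δ * s) :=
    div_le_div_of_nonneg_left (by positivity) h3' h3
  have h8 : tj A₀ ε p δ s R j ≤ A₀ / (epsj ε R j * (√δ * √s)) + 128 * p / (δ * s) := by
    unfold tj
    linarith
  have h9 : A₀ / (epsj ε R j * (√δ * √s)) * s =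
      4 * R * A₀ / (ε * √δ) * (((j : ℝ) + 1) ^ 3 * √s) := by
    unfold epsj
    have h10 : s = √s * √s := (Real.mul_self_sqrt hs.le).symm
    have h11 : ((j : ℝ) + 1) ≠ 0 := by positivity
    generalize √s = r at *
    subst h10
    field_simp
  have h10 : 128 * p / (δ * s) * s = 128 * p / δ := by
    field_simp
  calc tj A₀ ε p δ s R j * s ≤ (A₀ / (epsj ε R j * (√δ * √s)) + 128 * p / (δ * s)) * s :=
        mul_le_mul_of_nonneg_right h8 hs.le
    _ = _ := by rw [add_mul, h9, h10]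

theorem addj_le {d : ℕ} {A₀ ε p δ s : ℝ} {R : ℕ} (hA : 4 ≤ A₀) (hε : 0 < ε) (hp : 0 ≤ p)
    (hδ : 0 < δ) (hs : 0 < s) (hR : 1 ≤ R) (j : ℕ) :
    addj d A₀ ε p δ s R j ≤
      8 * √d * (4 * R / (ε * √r0)) * A₀ * √δ * (((j : ℝ) + 1) ^ 3 * √r0 ^ j) +
        8 * √d * 128 / r0 * p := by
  have hR0 : (0 : ℝ) < R := by exact_mod_cast hR
  have hr0 := r0_pos
  have hsr : 0 < √r0 := Real.sqrt_pos.2 r0_pos
  have hnn : 0 ≤ 8 * √d * (4 * R / (ε * √r0)) * A₀ * √δ * (((j : ℝ) + 1) ^ 3 * √r0 ^ j) +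
        8 * √d * 128 / r0 * p := by
    have : 0 ≤ A₀ := by linarith
    positivity
  unfold addj
  split_ifs with hlt
  · have h1 := epsj_pos hε hR j
    -- the value of `Dj j`
    have hD : Dj δ s j = δ * r0 ^ j := by
      by_contra hne
      have h2 : Dj δ s j = δ * s := by
        unfold Dj at hne ⊢
        rcases max_choice (δ * r0 ^ j) (δ * s) with h | h
        · exact absurd h hne
        · exact h
      have h3 : δ * s ≤ Dj δ s (j + 1) := Dj_ge _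
      linarith
    have hD1 : r0 * (δ * r0 ^ j) ≤ Dj δ s (j + 1) := by
      have h2 : r0 * (δ * r0 ^ j) = δ * r0 ^ (j + 1) := by ring
      rw [h2]
      exact le_max_left _ _
    rw [hD]
    have hpos : 0 < δ * r0 ^ j := by positivity
    have hpos2 : 0 < r0 * (δ * r0 ^ j) := by positivity
    have hsq : √(δ * r0 ^ j) = √δ * √r0 ^ j := by
      rw [Real.sqrt_mul hδ.le]
      congr 1
      have h2 : r0 ^ j = (√r0 ^ j) ^ 2 := by
        rw [← pow_mul, mul_comm, pow_mul, Real.sq_sqrt r0_pos.le]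
      rw [h2, Real.sqrt_sq (by positivity)]
    have hsq2 : √r0 * (√δ * √r0 ^ j) ≤ √(Dj δ s (j + 1)) := by
      rw [← hsq, ← Real.sqrt_mul r0_pos.le]
      exact Real.sqrt_le_sqrt hD1
    have hsδ : 0 < √δ := Real.sqrt_pos.2 hδ
    have h6 : A₀ / (epsj ε R j * √(Dj δ s (j + 1))) ≤
        A₀ / (epsj ε R j * (√r0 * (√δ * √r0 ^ j))) :=
      div_le_div_of_nonneg_left (by linarith) (by positivity)
        (mul_le_mul_of_nonneg_left hsq2 h1.le)
    have h7 : 128 * p / Dj δ s (j + 1) ≤ 128 * p / (r0 * (δ * r0 ^ j)) :=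
      div_le_div_of_nonneg_left (by positivity) hpos2 hD1
    have h8 : tj A₀ ε p δ s R j ≤
        A₀ / (epsj ε R j * (√r0 * (√δ * √r0 ^ j))) + 128 * p / (r0 * (δ * r0 ^ j)) := by
      unfold tj
      linarith
    have h9 : A₀ / (epsj ε R j * (√r0 * (√δ * √r0 ^ j))) * (δ * r0 ^ j) =
        4 * R / (ε * √r0) * A₀ * √δ * (((j : ℝ) + 1) ^ 3 * √r0 ^ j) := by
      unfold epsj
      have h10 : δ * r0 ^ j = (√δ * √r0 ^ j) * (√δ * √r0 ^ j) := by
        rw [← hsq, Real.mul_self_sqrt hpos.le]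
      rw [h10]
      have h11 : ((j : ℝ) + 1) ≠ 0 := by positivity
      have h12 : √r0 ^ j ≠ 0 := by positivity
      generalize √r0 ^ j = x at *
      field_simp
    have h10 : 128 * p / (r0 * (δ * r0 ^ j)) * (δ * r0 ^ j) = 128 / r0 * p := by
      field_simp
    have h11 : tj A₀ ε p δ s R j * (δ * r0 ^ j) ≤
        4 * R / (ε * √r0) * A₀ * √δ * (((j : ℝ) + 1) ^ 3 * √r0 ^ j) + 128 / r0 * p := by
      calc tj A₀ ε p δ s R j * (δ * r0 ^ j) ≤
          (A₀ / (epsj ε R j * (√r0 * (√δ * √r0 ^ j))) + 128 * p / (r0 * (δ * r0 ^ j))) *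
            (δ * r0 ^ j) := mul_le_mul_of_nonneg_right h8 hpos.le
        _ = _ := by rw [add_mul, h9, h10]
    have h12 : 0 ≤ 8 * √(d : ℝ) := by positivity
    have h13 := mul_le_mul_of_nonneg_left h11 h12
    calc 8 * √(d : ℝ) * tj A₀ ε p δ s R j * (δ * r0 ^ j) =
          8 * √(d : ℝ) * (tj A₀ ε p δ s R j * (δ * r0 ^ j)) := by ring
      _ ≤ _ := h13
      _ = _ := by ring
  · exact hnn

/-- the number of stages -/
theorem exists_J {s : ℝ} (hs : 0 < s) (hs1 : s < 1) :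
    ∃ J : ℕ, r0 ^ J ≤ s ∧ (J : ℝ) ≤ 1 + Real.log (1 / s) / Real.log (1 / r0) := by
  obtain ⟨n, hn⟩ := exists_pow_lt_of_lt_one hs r0_lt
  have hex : ∃ n : ℕ, r0 ^ n ≤ s := ⟨n, hn.le⟩
  classical
  let J := Nat.find hex
  have hJ : r0 ^ J ≤ s := Nat.find_spec hex
  have hJ0 : J ≠ 0 := by
    intro h
    rw [h, pow_zero] at hJ
    linarith
  obtain ⟨m, hm⟩ := Nat.exists_eq_succ_of_ne_zero hJ0
  have hlt : s < r0 ^ m := by
    have h1 := Nat.find_min hex (m := m) (by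
      show m < J
      omega)
    exact not_le.1 h1
  have hl : 0 < Real.log (1 / r0) := by
    apply Real.log_pos
    rw [one_lt_div r0_pos]
    exact r0_lt
  refine ⟨J, hJ, ?_⟩
  have h2 : (m : ℝ) * Real.log (1 / r0) ≤ Real.log (1 / s) := by
    rw [← Real.log_pow]
    apply Real.log_le_log
    · have := r0_pos
      positivity
    · rw [one_div_pow]
      exact one_div_le_one_div_of_le hs hlt.le
  have h3 : (m : ℝ) ≤ Real.log (1 / s) / Real.log (1 / r0) := by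
    rw [le_div_iff₀ hl]
    exact h2
  rw [hm]
  push_cast
  linarith

end E3Num

open E3Num in
theorem scheduleNumbers : ScheduleNumbers := by
  intro d α ε B θ hd hα hα1 hε hε1 hB hθ
  obtain ⟨R, hR, hRsum⟩ := exists_R hθ
  have hsr : 0 < √r0 := Real.sqrt_pos.2 r0_pos
  have hsr1 : √r0 < 1 := by
    rw [Real.sqrt_lt' one_pos]
    simpa using r0_lt
  obtain ⟨S, hS0, hS⟩ := exists_sum hsr hsr1
  have hR0 : (0 : ℝ) < R := by exact_mod_cast hR
  set C₁ : ℝ := 8 * √d * (4 * R / (ε * √r0)) * S with hC₁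
  have hC₁0 : 0 ≤ C₁ := by positivity
  set A₀ : ℝ := 4 + 2 * C₁ + 2 * (B + 1) with hA₀
  have hA4 : 4 ≤ A₀ := by
    rw [hA₀]
    linarith
  have hA2 : 2 * (B + C₁ * A₀ + 1) ≤ A₀ ^ 2 := by
    have h1 : A₀ ^ 2 = 4 * A₀ + 2 * C₁ * A₀ + 2 * (B + 1) * A₀ := by
      rw [hA₀]
      ring
    rw [h1]
    nlinarith [mul_nonneg hB (by linarith : (0 : ℝ) ≤ A₀ - 1)]
  refine ⟨R, C₁, A₀, hR, hC₁0, hA4, hA2, hRsum, ?_⟩
  intro δ hδ hδ1
  have hd0 : (0 : ℝ) < d := by exact_mod_cast hd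
  set β : ℝ := (1 - α) / d with hβ
  have hβ0 : 0 < β := div_pos (by linarith) hd0
  set l : ℝ := Real.log (1 / r0) with hl
  have hl0 : 0 < l := by
    apply Real.log_pos
    rw [one_lt_div r0_pos]
    exact r0_lt
  -- the bound for the number of stages
  let ell : ℕ → ℝ := fun n => 2 + β / l * Real.log n
  have t1 : Tendsto (fun n : ℕ => (n : ℝ) ^ (-β)) atTop (nhds 0) := by
    have := tendsto_log_mul hβ0 1 0
    simpa using this
  have t2 : Tendsto (fun n : ℕ => (n : ℝ) ^ (-α)) atTop (nhds 0) := by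
    have := tendsto_log_mul hα 1 0
    simpa using this
  have t3 : Tendsto (fun n : ℕ => ell n * (n : ℝ) ^ (-α)) atTop (nhds 0) :=
    tendsto_log_mul hα 2 (β / l)
  have t4 : Tendsto (fun n : ℕ => (ell n * (n : ℝ) ^ (-(β / 6))) ^ 3) atTop (nhds 0) := by
    have := (tendsto_log_mul (γ := β / 6) (by positivity) 2 (β / l)).pow 3
    simpa using this
  set K : ℝ := 4 * R * A₀ / (ε * √δ) with hK
  have hsδ : 0 < √δ := Real.sqrt_pos.2 hδ
  have hK0 : 0 < K := by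
    have : 0 < A₀ := by linarith
    positivity
  set K' : ℝ := 8 * √d * 128 / r0 with hK'
  have hK'0 : 0 < K' := by
    have h1 := r0_pos
    have h2 : 0 < √(d : ℝ) := Real.sqrt_pos.2 hd0
    positivity
  have e1 : ∀ᶠ n : ℕ in atTop, (n : ℝ) ^ (-β) < 1 / 400 := t1.eventually_lt_const (by norm_num)
  have e2 : ∀ᶠ n : ℕ in atTop, (n : ℝ) ^ (-α) < 1 / 1000 := t2.eventually_lt_const (by norm_num)
  have e3 : ∀ᶠ n : ℕ in atTop, (n : ℝ) ^ (-α) < δ / 256 :=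
    t2.eventually_lt_const (by positivity)
  have e4 : ∀ᶠ n : ℕ in atTop, ell n * (n : ℝ) ^ (-α) < δ / K' :=
    t3.eventually_lt_const (by positivity)
  have e5 : ∀ᶠ n : ℕ in atTop, (ell n * (n : ℝ) ^ (-(β / 6))) ^ 3 < 1 / (2 * K) :=
    t4.eventually_lt_const (by positivity)
  obtain ⟨n₀, hn₀⟩ := eventually_atTop.1 ((((e1.and e2).and e3).and e4).and e5)
  refine ⟨n₀ + 1, Nat.succ_pos _, ?_⟩
  intro n hn p s hp hs
  obtain ⟨⟨⟨⟨g1, g2⟩, g3⟩, g4⟩, g5⟩ := hn₀ n (by omega)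
  have hn1 : (1 : ℝ) ≤ n := by exact_mod_cast (by omega : 1 ≤ n)
  have hn0 : (0 : ℝ) < n := by linarith
  -- the value of `s`
  have hs' : s = (n : ℝ) ^ (-β) := by
    rw [hs, hp]
    unfold unit
    have h1 : (n : ℝ) * (n : ℝ) ^ (-α) = (n : ℝ) ^ (1 - α) := by
      rw [sub_eq_add_neg, Real.rpow_add hn0, Real.rpow_one]
    rw [h1, ← Real.rpow_mul hn0.le]
    congr 1
    rw [hβ]
    ring
  have hs0 : 0 < s := by
    rw [hs']
    exact Real.rpow_pos_of_pos hn0 _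
  have hp0 : 0 < p := by
    rw [hp]
    exact Real.rpow_pos_of_pos hn0 _
  rw [← hs'] at g1
  rw [← hp] at g2 g3 g4
  have hs1 : s < 1 := by linarith
  obtain ⟨J, hJ, hJle⟩ := exists_J hs0 hs1
  have hlogs : Real.log (1 / s) = β * Real.log n := by
    rw [hs', one_div, ← Real.rpow_neg hn0.le, neg_neg, Real.log_rpow hn0]
  have hlogn : 0 ≤ Real.log n := Real.log_nonneg hn1
  have hJell : (J : ℝ) + 1 ≤ ell n := by
    show (J : ℝ) + 1 ≤ 2 + β / l * Real.log n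
    rw [hlogs] at hJle
    have : β * Real.log n / l = β / l * Real.log n := by ring
    rw [this] at hJle
    linarith
  refine ⟨hs0, by linarith, by linarith, J, hJ, ?_, ?_⟩
  · intro j hj
    refine ⟨one_le_tj hA4 hε hε1 hp0.le hδ hδ1 hs0 hs1.le hR j, ?_⟩
    refine (tj_mul_le hA4 hε hp0.le hδ hs0 hR j).trans ?_
    have h1 : (j : ℝ) + 1 ≤ ell n := by
      have : (j : ℝ) + 1 ≤ J := by exact_mod_cast hj
      linarith
    have h2 : √s = ((n : ℝ) ^ (-(β / 6))) ^ 3 := by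
      rw [Real.sqrt_eq_rpow, hs', ← Real.rpow_mul hn0.le, ← Real.rpow_natCast,
        ← Real.rpow_mul hn0.le]
      congr 1
      push_cast
      ring
    have h3 : ((j : ℝ) + 1) ^ 3 * √s ≤ (ell n * (n : ℝ) ^ (-(β / 6))) ^ 3 := by
      rw [h2, mul_pow]
      have h4 : ((j : ℝ) + 1) ^ 3 ≤ (ell n) ^ 3 := by
        apply pow_le_pow_left₀ _ h1
        positivity
      exact mul_le_mul_of_nonneg_right h4 (by positivity)
    have h4 : 4 * R * A₀ / (ε * √δ) * (((j : ℝ) + 1) ^ 3 * √s) ≤ 1 / 2 := by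
      rw [← hK]
      have h5 : K * (((j : ℝ) + 1) ^ 3 * √s) ≤ K * (1 / (2 * K)) :=
        mul_le_mul_of_nonneg_left (h3.trans g5.le) hK0.le
      have h6 : K * (1 / (2 * K)) = 1 / 2 := by
        field_simp
      linarith
    have h5 : 128 * p / δ ≤ 1 / 2 := by
      rw [div_le_iff₀ hδ]
      linarith
    linarith
  · have h1 : ∑ j ∈ range J, addj d A₀ ε p δ s R j ≤ ∑ j ∈ range J,
        (8 * √d * (4 * R / (ε * √r0)) * A₀ * √δ * (((j : ℝ) + 1) ^ 3 * √r0 ^ j) + K' * p) :=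
      Finset.sum_le_sum fun j _ => addj_le hA4 hε hp0.le hδ hs0 hR j
    refine h1.trans ?_
    rw [Finset.sum_add_distrib, ← Finset.mul_sum, Finset.sum_const, Finset.card_range,
      nsmul_eq_mul]
    have h2 : 8 * √d * (4 * R / (ε * √r0)) * A₀ * √δ *
        ∑ j ∈ range J, ((j : ℝ) + 1) ^ 3 * √r0 ^ j ≤ C₁ * A₀ * √δ := by
      have h3 : 0 ≤ 8 * √d * (4 * R / (ε * √r0)) * A₀ * √δ := by
        have : 0 ≤ A₀ := by linarith
        positivity
      refine (mul_le_mul_of_nonneg_left (hS J) h3).trans (le_of_eq ?_)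
      rw [hC₁]
      ring
    have h3 : (J : ℝ) * (K' * p) ≤ δ := by
      have h4 : (J : ℝ) * p ≤ δ / K' := by
        refine le_trans ?_ g4.le
        exact mul_le_mul_of_nonneg_right (by linarith) hp0.le
      rw [le_div_iff₀ hK'0] at h4
      linarith
    linarith

end MP329
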