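import Pool.Agent.Lib.MP_329b4d_pr.SpecE
import Pool.Agent.Lib.MP_329b4d_pr.A3Sprinkle
import Pool.Agent.Lib.MP_329b4d_pr.A5Attempts

/-!
# MP_329b4d_pr: E3, the schedule
-/

namespace MP329

open Finset MeasureTheory Filter

namespace E3Schedule

theorem hits_self {V : Type} [Fintype V] [DecidableEq V] (q a : ℝ)
    (ha : 0 ≤ a) (P Q : Finset (Sym2 V) → Prop) (hPQ : ∀ E, P E → Q E) :
    Hits q (1 - a) P Q := by
  intro E hE
  rw [Pb_of_forall q (A := fun S : Finset (Sym2 V) => ∃ E' ⊆ E ∪ S, Q E')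
    (fun S => ⟨E, Finset.subset_union_left, hPQ E hE⟩)]
  linarith

theorem sum_sq (J : ℕ) : ∑ i ∈ range (J + 1), 1 / ((i : ℝ) + 1) ^ 2 ≤ 2 - 1 / ((J : ℝ) + 1) := by
  induction J with
  | zero => simp; norm_num
  | succ J ih =>
    rw [Finset.sum_range_succ]
    have h1 : 1 / (((J + 1 : ℕ) : ℝ) + 1) ^ 2 ≤ 1 / ((J : ℝ) + 1) - 1 / (((J + 1 : ℕ) : ℝ) + 1) := by
      push_cast
      have hJ : (0 : ℝ) ≤ J := Nat.cast_nonneg J
      rw [div_sub_div _ _ (by positivity) (by positivity), div_le_div_iff₀ (by positivity)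
        (by positivity)]
      nlinarith
    linarith

theorem sum_sq_le (J : ℕ) : ∑ i ∈ range J, 1 / ((i : ℝ) + 1) ^ 2 ≤ 2 := by
  cases J with
  | zero => simp
  | succ J =>
    have h1 := sum_sq J
    have h2 : (0 : ℝ) ≤ 1 / ((J : ℝ) + 1) := by positivity
    linarith

theorem r0_pos : 0 < r0 := by unfold r0; norm_num

theorem r0_lt : r0 < 1 := by unfold r0; norm_num

theorem Cl_mono {n d : ℕ} {X : Fin n → Pt d} {m b b' : ℝ} (h : b ≤ b') (E : Finset (Sym2 (Fin n)))
    (hE : Cl X m b E) : Cl X m b' E := by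
  obtain ⟨L, h1, h2, h3, h4⟩ := hE
  exact ⟨L, h1, h2, h3, h4.trans h⟩

end E3Schedule

open E3Schedule in
/-- E3. -/
theorem scheduleLemma (h1 : StageLemma) (h2 : ScheduleNumbers) : ScheduleLemma := by
  intro d α ε B θ hd hα hα1 hε hε1 hB hθ
  obtain ⟨R, C₁, A₀, hR, hC₁, hA₀, hA₀2, hgeo, hsch⟩ := h2 d α ε B θ hd hα hα1 hε hε1 hB hθ
  have hK : 0 ≤ C₁ * A₀ := by
    have : 0 ≤ A₀ := by linarith
    positivity
  refine ⟨C₁ * A₀, hK, fun δ hδ hδ1 => ?_⟩
  obtain ⟨n₀, hn₀, hn⟩ := hsch δ hδ hδ1
  refine ⟨n₀, fun n hnn X p s b hp hs hreg hb => ?_⟩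
  obtain ⟨hs0, hs400, hp1000, J, hJ, htj, hsum⟩ := hn n hnn p s hp hs
  have hnpos : 0 < n := by omega
  have hnR : (0 : ℝ) < n := by exact_mod_cast hnpos
  have hp0 : 0 < p := by
    rw [hp]
    exact Real.rpow_pos_of_pos hnR _
  have hp1 : p ≤ 1 := by linarith
  have hs1 : s ≤ 1 := by linarith
  have hRR : (1 : ℝ) ≤ R := by exact_mod_cast hR
  have hr0 := r0_pos
  have hr1 := r0_lt
  have hns : 0 < (n : ℝ) * s := by positivity
  -- the numbers
  set D : ℕ → ℝ := fun j => Dj δ s j with hD
  set ad : ℕ → ℝ := fun j => addj d A₀ ε p δ s R j with had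
  have hDpos : ∀ j, 0 < D j := fun j => by
    have h : δ * s ≤ D j := le_max_right _ _
    have h' : 0 < δ * s := by positivity
    linarith
  have hDle1 : ∀ j, D j ≤ 1 := by
    intro j
    have h3 : r0 ^ j ≤ 1 := pow_le_one₀ hr0.le hr1.le
    refine max_le ?_ ?_
    · calc δ * r0 ^ j ≤ 1 * 1 := mul_le_mul hδ1 h3 (by positivity) (by norm_num)
        _ = 1 := by norm_num
    · calc δ * s ≤ 1 * 1 := mul_le_mul hδ1 hs1 hs0.le (by norm_num)
        _ = 1 := by norm_num
  have hDanti : ∀ j, D (j + 1) ≤ D j := by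
    intro j
    refine max_le_max ?_ le_rfl
    refine mul_le_mul_of_nonneg_left ?_ hδ.le
    exact pow_le_pow_of_le_one hr0.le hr1.le (Nat.le_succ j)
  have hDr : ∀ j, r0 * D j ≤ D (j + 1) := by
    intro j
    have e : r0 * D j = max (r0 * (δ * r0 ^ j)) (r0 * (δ * s)) :=
      mul_max_of_nonneg _ _ hr0.le
    rw [e]
    refine max_le_max ?_ ?_
    · rw [pow_succ]
      linarith
    · have : 0 < δ * s := by positivity
      nlinarith
  have hep : ∀ j : ℕ, 0 < epsj ε R j := by
    intro j
    unfold epsj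
    positivity
  have hep1 : ∀ j : ℕ, epsj ε R j ≤ 1 := by
    intro j
    unfold epsj
    rw [div_le_one (by positivity)]
    have h3 : (1 : ℝ) ≤ ((j : ℝ) + 1) ^ 3 := by
      have : (0 : ℝ) ≤ j := Nat.cast_nonneg j
      exact one_le_pow₀ (by linarith)
    nlinarith
  have had0 : ∀ j, j < J → 0 ≤ ad j := by
    intro j hj
    simp only [had]
    unfold addj
    split_ifs
    · have h3 := (htj j hj).1
      have h4 : 0 ≤ tj A₀ ε p δ s R j := by linarith
      have h5 : 0 ≤ Dj δ s j := (hDpos j).le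
      positivity
    · exact le_rfl
  -- the quantities of the induction
  set bj : ℕ → ℝ := fun j => b + n * s * ∑ i ∈ range j, ad i with hbj
  set Qj : ℕ → ℝ := fun j => ∑ i ∈ range j, ε * p / (4 * ((i : ℝ) + 1) ^ 2) with hQj
  set aj : ℕ → ℝ := fun j => ∑ i ∈ range j, (r0 ^ R) ^ (i + 1) with haj
  have hQj0 : ∀ j, 0 ≤ Qj j := fun j => Finset.sum_nonneg fun i _ => by positivity
  have haj0 : ∀ j, 0 ≤ aj j := fun j => Finset.sum_nonneg fun i _ => by positivity
  have hQjle : ∀ j, Qj j ≤ ε * p / 2 := by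
    intro j
    have e : Qj j = ε * p / 4 * ∑ i ∈ range j, 1 / ((i : ℝ) + 1) ^ 2 := by
      simp only [hQj]
      rw [Finset.mul_sum]
      refine Finset.sum_congr rfl fun i _ => ?_
      have : ((i : ℝ) + 1) ^ 2 ≠ 0 := by positivity
      field_simp
    rw [e]
    have h3 := sum_sq_le j
    have h4 : 0 ≤ ε * p / 4 := by positivity
    nlinarith
  have hεp : ε * p / 2 ≤ 1 := by nlinarith
  have hbjle : ∀ j, j ≤ J → bj j ≤ b + (C₁ * A₀ * √δ + δ) * n * s := by
    intro j hj
    have h3 : ∑ i ∈ range j, ad i ≤ ∑ i ∈ range J, ad i := by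
      refine Finset.sum_le_sum_of_subset_of_nonneg (Finset.range_mono hj) fun i hi _ => ?_
      exact had0 i (Finset.mem_range.1 hi)
    have h4 : ∑ i ∈ range j, ad i ≤ C₁ * A₀ * √δ + δ := h3.trans hsum
    have h5 : (n : ℝ) * s * ∑ i ∈ range j, ad i ≤ n * s * (C₁ * A₀ * √δ + δ) :=
      mul_le_mul_of_nonneg_left h4 hns.le
    have h6 : bj j = b + n * s * ∑ i ∈ range j, ad i := rfl
    rw [h6]
    linarith
  have hsq : √δ ≤ 1 := Real.sqrt_le_one.2 hδ1
  have hbjB : ∀ j, j ≤ J → bj j ≤ (B + C₁ * A₀ + 1) * n * s := by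
    intro j hj
    have h3 := hbjle j hj
    have h4 : C₁ * A₀ * √δ + δ ≤ C₁ * A₀ + 1 := by nlinarith
    have h5 : (C₁ * A₀ * √δ + δ) * n * s ≤ (C₁ * A₀ + 1) * n * s := by
      have h7 := mul_le_mul_of_nonneg_right h4 hns.le
      have e1 : (C₁ * A₀ * √δ + δ) * n * s = (C₁ * A₀ * √δ + δ) * (n * s) := by ring
      have e2 : (C₁ * A₀ + 1) * n * s = (C₁ * A₀ + 1) * (n * s) := by ring
      rw [e1, e2]
      exact h7
    have h6 : (B + C₁ * A₀ + 1) * n * s = B * n * s + (C₁ * A₀ + 1) * n * s := by ring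
    linarith
  have claim : ∀ j, j ≤ J → Hits (Qj j) (1 - aj j) (Cl X (δ * n) b) (Cl X (D j * n) (bj j)) := by
    intro j
    induction j with
    | zero =>
      intro _
      have e1 : D 0 = δ := by
        simp only [hD]
        unfold Dj
        rw [pow_zero, mul_one]
        exact max_eq_left (by nlinarith)
      have e2 : bj 0 = b := by simp [hbj]
      have e3 : aj 0 = 0 := by simp [haj]
      rw [e1, e2, e3]
      exact hits_self _ 0 le_rfl _ _ (fun _ h => h)
    | succ j ih =>
      intro hj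
      have ih' := ih (by omega)
      have hjJ : j < J := by omega
      have e1 : Qj (j + 1) = Qj j + ε * p / (4 * ((j : ℝ) + 1) ^ 2) :=
        Finset.sum_range_succ _ _
      have e2 : aj (j + 1) = aj j + (r0 ^ R) ^ (j + 1) := Finset.sum_range_succ _ _
      have e3 : bj (j + 1) = bj j + n * s * ad j := by
        simp only [hbj]
        rw [Finset.sum_range_succ]
        ring
      rw [e2]
      refine compose sprinkle (Fin n) (Qj j) (ε * p / (4 * ((j : ℝ) + 1) ^ 2)) (Qj (j + 1)) (aj j)
        ((r0 ^ R) ^ (j + 1)) _ (Cl X (D j * n) (bj j)) _ (hQj0 j) (by positivity) (le_of_eq e1.symm)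
        ((hQjle _).trans hεp) (haj0 j) (by positivity) ih' ?_
      by_cases hlt : D (j + 1) < D j
      · have hs2 := h1 d n X p s (D j) (D (j + 1)) (epsj ε R j) (tj A₀ ε p δ s R j) A₀
          (B + C₁ * A₀ + 1) (bj j) hd hp0 hp1 hnpos hs hreg (hDpos _) (hDanti j) (hDle1 _) (hDr j)
          (hep j) (hep1 j) (by
            have h3 := hep1 j
            have h4 := hep j
            nlinarith) (htj j hjJ).1 (htj j hjJ).2 (by
            have h3 : tj A₀ ε p δ s R j = A₀ / (epsj ε R j * √(D (j + 1)))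
              + 128 * p / D (j + 1) := rfl
            rw [h3]
            have h4 : 0 ≤ A₀ / (epsj ε R j * √(D (j + 1))) := by
              have h5 := hep j
              have : 0 ≤ A₀ := by linarith
              positivity
            linarith) (by
            have h3 : tj A₀ ε p δ s R j = A₀ / (epsj ε R j * √(D (j + 1)))
              + 128 * p / D (j + 1) := rfl
            rw [h3]
            have h5 := hep j
            have h6 : 0 < √(D (j + 1)) := Real.sqrt_pos.2 (hDpos _)
            have h7 : epsj ε R j * (A₀ / (epsj ε R j * √(D (j + 1))) + 128 * p / D (j + 1))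
                * √(D (j + 1)) = A₀ + epsj ε R j * (128 * p / D (j + 1)) * √(D (j + 1)) := by
              field_simp
            rw [h7]
            have h8 : 0 ≤ epsj ε R j * (128 * p / D (j + 1)) * √(D (j + 1)) := by
              have := hDpos (j + 1)
              positivity
            linarith) hA₀ hA₀2 (hbjB j hjJ.le)
        have hadj : bj j + 8 * √d * tj A₀ ε p δ s R j * D j * n * s = bj (j + 1) := by
          rw [e3]
          have h3 : ad j = 8 * √d * tj A₀ ε p δ s R j * D j := by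
            simp only [had]
            unfold addj
            rw [if_pos hlt]
          rw [h3]
          ring
        rw [hadj] at hs2
        have hRj : ((R * (j + 1) : ℕ) : ℝ) * (epsj ε R j * p)
            = ε * p / (4 * ((j : ℝ) + 1) ^ 2) := by
          unfold epsj
          push_cast
          have h3 : ((j : ℝ) + 1) ≠ 0 := by positivity
          have h4 : (R : ℝ) ≠ 0 := by positivity
          field_simp
        have hq1 : ((R * (j + 1) : ℕ) : ℝ) * (epsj ε R j * p) ≤ 1 := by
          rw [hRj]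
          have h3 : ε * p / (4 * ((j : ℝ) + 1) ^ 2) ≤ Qj (j + 1) := by
            rw [e1]
            have := hQj0 j
            linarith
          exact h3.trans ((hQjle _).trans hεp)
        have hat := attempts sprinkle (Fin n) (epsj ε R j * p) (1 / 3000) (R * (j + 1)) _ _
          (mul_nonneg (hep j).le hp0.le) (by norm_num) (by norm_num) hq1 hs2
        rw [hRj, pow_mul] at hat
        exact hat
      · have heq : D (j + 1) = D j := le_antisymm (hDanti j) (not_lt.1 hlt)
        have h3 : ad j = 0 := by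
          simp only [had]
          unfold addj
          rw [if_neg hlt]
        have e4 : bj (j + 1) = bj j := by rw [e3, h3]; ring
        rw [heq, e4]
        exact hits_self _ _ (by positivity) _ _ (fun _ h => h)
  have hfin := claim J le_rfl
  have hDJ : D J * n = δ * s * n := by
    have h3 : D J = δ * s := by
      simp only [hD]
      unfold Dj
      exact max_eq_right (mul_le_mul_of_nonneg_left hJ hδ.le)
    rw [h3]
  rw [hDJ] at hfin
  have hcomp := compose sprinkle (Fin n) (Qj J) 0 (ε * p / 2) (aj J) 0 _ _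
    (Cl X (δ * s * n) (b + (C₁ * A₀ * √δ + δ) * n * s)) (hQj0 J) le_rfl
    (by rw [add_zero]; exact hQjle J) hεp (haj0 J) le_rfl hfin
    (hits_self _ 0 le_rfl _ _ (fun E hE => Cl_mono (hbjle J le_rfl) E hE))
  intro E hE
  refine le_trans ?_ (hcomp E hE)
  have h3 := hgeo J
  have h4 : aj J ≤ θ / 2 := h3
  linarith

end MP329
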