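import Pool.Agent.Lib.MP_329b4d_pr.SpecE
import Pool.Agent.Lib.MP_329b4d_pr.A3Sprinkle
import Pool.Agent.Lib.MP_329b4d_pr.A5Attempts

/-!
# MP_329b4d_pr: E4, the patching theorem
-/

set_option autoImplicit false

namespace MP329

open Finset MeasureTheory Filter

namespace E4

theorem dist_le_of_cube {d : ℕ} {x y : Pt d} (hx : x ∈ cube d) (hy : y ∈ cube d) :
    dist x y ≤ √d := by
  rw [EuclideanSpace.dist_eq]
  apply Real.sqrt_le_sqrt
  calc ∑ i, dist (x i) (y i) ^ 2 ≤ ∑ _i : Fin d, (1 : ℝ) := by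
        refine Finset.sum_le_sum fun i _ => ?_
        have h1 : |x i - y i| ≤ 1 := by
          have h2 := hx i
          have h3 := hy i
          rw [abs_le]
          constructor <;> linarith [h2.1, h2.2, h3.1, h3.2]
        rw [Real.dist_eq]
        exact pow_le_one₀ (abs_nonneg _) h1
    _ = d := by simp

theorem len_le {n d : ℕ} {X : Fin n → Pt d} (hX : ∀ v, X v ∈ cube d) (e : Sym2 (Fin n)) :
    len X e ≤ √d := by
  induction e using Sym2.ind with
  | _ a b => exact dist_le_of_cube (hX a) (hX b)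

theorem len_nonneg {n d : ℕ} (X : Fin n → Pt d) (e : Sym2 (Fin n)) : 0 ≤ len X e := by
  induction e using Sym2.ind with
  | _ a b => exact (dist_nonneg : 0 ≤ dist (X a) (X b))

theorem cost_le {n d : ℕ} {X : Fin n → Pt d} (hX : ∀ v, X v ∈ cube d)
    (E F : Finset (Sym2 (Fin n))) : cost X E ≤ cost X F + √d * #(E \ F) := by
  unfold cost
  have h1 : ∑ e ∈ E, len X e ≤ ∑ e ∈ F ∪ (E \ F), len X e :=
    Finset.sum_le_sum_of_subset_of_nonneg (by
      intro e he
      by_cases h : e ∈ F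
      · exact Finset.mem_union_left _ h
      · exact Finset.mem_union_right _ (Finset.mem_sdiff.2 ⟨he, h⟩))
      fun e _ _ => len_nonneg X e
  rw [Finset.sum_union Finset.disjoint_sdiff] at h1
  refine h1.trans (add_le_add_right ?_ _)
  calc ∑ e ∈ E \ F, len X e ≤ ∑ _e ∈ E \ F, √d := Finset.sum_le_sum fun e _ => len_le hX e
    _ = √d * #(E \ F) := by
        rw [Finset.sum_const, nsmul_eq_mul, mul_comm]

theorem ev_small {a b : ℝ} (ha : a < 0) (hb : 0 < b) : ∀ᶠ n : ℕ in atTop, (n : ℝ) ^ a ≤ b := by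
  have h1 : Tendsto (fun n : ℕ => (n : ℝ) ^ a) atTop (nhds 0) := by
    have h2 := (tendsto_rpow_neg_atTop (y := -a) (by linarith)).comp
      (tendsto_natCast_atTop_atTop (R := ℝ))
    rw [neg_neg] at h2
    exact h2
  exact (h1.eventually (gt_mem_nhds hb)).mono fun n hn => hn.le

end E4

open E4

theorem patchTheorem (h1 : ScheduleLemma) (h2 : FinalStage) : PatchTheorem := by
  intro d α ε B θ hd hα0 hα1 hε0 hε1 hB hθ
  obtain ⟨C, hC⟩ := h2 ((1 - α) / 2) (by linarith) (by linarith)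
  obtain ⟨K₁, hK₁, hS⟩ := h1 d α ε B θ hd hα0 hα1 hε0 hε1 hB hθ
  refine ⟨K₁ + 1 + C * √d, by positivity, fun δ hδ0 hδ1 => ?_⟩
  obtain ⟨n₁, hn₁⟩ := hS δ hδ0 hδ1
  obtain ⟨n₂, hn₂⟩ := hC (θ / 2) (half_pos hθ)
  have hd0 : (0 : ℝ) < d := by exact_mod_cast hd
  have e1 := ev_small (a := (1 - α) / 2 - 1 + α) (b := ε / 2) (by linarith) (by linarith)
  have e2 := ev_small (a := -(1 - α) / d) (b := 1 / 400)
    (div_neg_of_neg_of_pos (by linarith) hd0) (by norm_num)
  obtain ⟨n₃, hn₃⟩ := eventually_atTop.1 (e1.and e2)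
  refine ⟨max (max n₁ n₂) (max n₃ 1), fun n hn X p s hp hs hreg L hL hLn hLc => ?_⟩
  have hnn₁ : n₁ ≤ n := ((le_max_left _ _).trans (le_max_left _ _)).trans hn
  have hnn₂ : n₂ ≤ n := ((le_max_right _ _).trans (le_max_left _ _)).trans hn
  have hnn₃ : n₃ ≤ n := ((le_max_left _ _).trans (le_max_right _ _)).trans hn
  have hn1 : 1 ≤ n := ((le_max_right _ _).trans (le_max_right _ _)).trans hn
  have hn0 : (0 : ℝ) < n := by exact_mod_cast hn1
  have hn1' : (1 : ℝ) ≤ n := by exact_mod_cast hn1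
  obtain ⟨e3, e4⟩ := hn₃ n hnn₃
  have hp0 : 0 < p := by rw [hp]; positivity
  have hp1 : p ≤ 1 := by
    rw [hp]
    exact Real.rpow_le_one_of_one_le_of_nonpos hn1' (by linarith)
  have hnp : (n : ℝ) * p = (n : ℝ) ^ (1 - α) := by
    rw [hp, sub_eq_add_neg, Real.rpow_add hn0, Real.rpow_one]
  have hs' : s = (n : ℝ) ^ (-(1 - α) / d) := by
    rw [hs, unit, hnp, ← Real.rpow_mul hn0.le]
    congr 1
    ring
  have hs0 : 0 < s := by rw [hs']; positivity
  have hs4 : 400 * s ≤ 1 := by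
    rw [← hs'] at e4
    linarith
  have hq : (n : ℝ) ^ ((1 - α) / 2 - 1) ≤ ε * p / 2 := by
    have h3 : (n : ℝ) ^ ((1 - α) / 2 - 1) = (n : ℝ) ^ ((1 - α) / 2 - 1 + α) * p := by
      rw [hp, ← Real.rpow_add hn0]
      congr 1
      ring
    rw [h3]
    calc (n : ℝ) ^ ((1 - α) / 2 - 1 + α) * p ≤ ε / 2 * p :=
          mul_le_mul_of_nonneg_right e3 hp0.le
      _ = ε * p / 2 := by ring
  have hεp : ε * p ≤ 1 := by nlinarith
  have hεp0 : 0 < ε * p := by positivity
  have hX : ∀ v, X v ∈ cube d := hreg.1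
  set b : ℝ := cost X (edgesL L) with hb
  -- the two steps
  have s1 : Hits (ε * p / 2) (1 - θ / 2) (Cl X (δ * n) b)
      (Cl X (δ * s * n) (b + (K₁ * √δ + δ) * n * s)) :=
    hn₁ n hnn₁ X p s b hp hs hreg hLc
  have hδs : δ ≤ √δ := by
    rw [Real.le_sqrt' hδ0]
    nlinarith
  have s2 : Hits (ε * p / 2) (1 - θ / 2) (Cl X (δ * s * n) (b + (K₁ * √δ + δ) * n * s))
      (fun E => ∃ T : List (Fin n), IsTour T ∧ tourEdges T = E ∧
        cost X E ≤ b + (K₁ + 1 + C * √d) * √δ * n * s) := by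
    rintro E ⟨L', hL', hE, hlen, hcost⟩
    have hlen' : 400 * (L'.length : ℝ) ≤ Fintype.card (Fin n) := by
      rw [Fintype.card_fin]
      have h3 : δ * s * n ≤ 1 * s * n := by
        apply mul_le_mul_of_nonneg_right _ hn0.le
        exact mul_le_mul_of_nonneg_right hδ1 hs0.le
      nlinarith
    have h3 := hn₂ (Fin n) (ε * p / 2) L' (by rw [Fintype.card_fin]; exact hnn₂)
      (by rw [Fintype.card_fin]; exact hq) (by linarith) hL' hlen'
    refine h3.trans (Pb_mono (by positivity) (by linarith) ?_)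
    rintro S ⟨T, hT, hTS, hTc⟩
    refine ⟨tourEdges T, by rw [← hE]; exact hTS, T, hT, rfl, ?_⟩
    have h4 := cost_le hX (tourEdges T) (edgesL L')
    rw [hE] at h4 hTc
    have h5 : (#(tourEdges T \ E) : ℝ) ≤ C * (δ * s * n) := by
      have h6 : (#(tourEdges T \ E) : ℝ) ≤ C * L'.length := by exact_mod_cast hTc
      exact h6.trans (mul_le_mul_of_nonneg_left hlen (Nat.cast_nonneg _))
    have h6 : √d * #(tourEdges T \ E) ≤ √d * (C * (δ * s * n)) :=
      mul_le_mul_of_nonneg_left h5 (Real.sqrt_nonneg _)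
    have h7 : 0 ≤ (n : ℝ) * s := by positivity
    have h8 : (1 + C * √d) * δ * (n * s) ≤ (1 + C * √d) * √δ * (n * s) := by
      apply mul_le_mul_of_nonneg_right _ h7
      apply mul_le_mul_of_nonneg_left hδs
      positivity
    calc cost X (tourEdges T) ≤ cost X E + √d * #(tourEdges T \ E) := h4
      _ ≤ (b + (K₁ * √δ + δ) * n * s) + √d * (C * (δ * s * n)) := add_le_add hcost h6
      _ = b + K₁ * √δ * n * s + (1 + C * √d) * δ * (n * s) := by ring
      _ ≤ b + K₁ * √δ * n * s + (1 + C * √d) * √δ * (n * s) := by linarith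
      _ = b + (K₁ + 1 + C * √d) * √δ * n * s := by ring
  have hcomp := compose sprinkle (Fin n) (ε * p / 2) (ε * p / 2) (ε * p) (θ / 2) (θ / 2)
    _ _ _ (by positivity) (by positivity) (by linarith) hεp (by positivity) (by positivity) s1 s2
  have hfin := hcomp (edgesL L) ⟨L, hL, rfl, hLn, le_rfl⟩
  rw [add_halves] at hfin
  refine hfin.trans (Pb_mono hεp0.le hεp ?_)
  rintro S ⟨E', hE', T, hT, hTE, hTc⟩
  refine ⟨T, hT, by rw [hTE]; exact hE', ?_⟩
  rw [hTE]
  exact hTc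

end MP329
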