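import Pool.Agent.Lib.MP_329b4d_pr.SpecG

/-!
# MP_329b4d_pr: basic facts about the linear program (G1)
-/

set_option autoImplicit false
set_option linter.unusedSectionVars false

namespace MP329

open Finset

namespace G1

theorem wm_nonneg {q : ℕ} (m : Option (Fin q)) : 0 ≤ wm q m := by
  rcases m with _ | m
  · exact le_rfl
  · show 0 ≤ 1 - (m : ℝ) / q
    have hq : (0 : ℝ) < q := by exact_mod_cast (Nat.zero_le m.1).trans_lt m.2
    have hm : (m : ℝ) ≤ q := by exact_mod_cast m.2.le
    rw [sub_nonneg, div_le_one hq]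
    exact hm

theorem wm_le_one {q : ℕ} (m : Option (Fin q)) : wm q m ≤ 1 := by
  rcases m with _ | m
  · show (0 : ℝ) ≤ 1
    exact zero_le_one
  · show 1 - (m : ℝ) / q ≤ 1
    have : 0 ≤ (m : ℝ) / q := by positivity
    linarith

variable {V : Type} [Fintype V] [DecidableEq V] {q : ℕ}

theorem feas_zero (g : Sym2 V → Option (Fin q)) : Feas g (fun _ => 0) where
  nonneg := fun _ => le_rfl
  le_one := fun _ => zero_le_one
  supp := fun _ _ => rfl
  row := fun _ => by simp

theorem obj_le {g : Sym2 V → Option (Fin q)} {x : Sym2 V → ℝ} (hx : Feas g x) :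
    obj g x ≤ Fintype.card V := by
  have h1 : ∀ i : V, ∑ j, wm q (g s(i, j)) * x s(i, j) ≤ 2 := by
    intro i
    refine le_trans (Finset.sum_le_sum fun j _ => ?_) (hx.row i)
    have := mul_le_mul_of_nonneg_right (wm_le_one (g s(i, j))) (hx.nonneg s(i, j))
    simpa using this
  have h2 : ∑ i, ∑ j, wm q (g s(i, j)) * x s(i, j) ≤ ∑ _i : V, (2 : ℝ) :=
    Finset.sum_le_sum fun i _ => h1 i
  rw [Finset.sum_const, Finset.card_univ, nsmul_eq_mul] at h2
  unfold obj
  linarith

theorem obj_zero (g : Sym2 V → Option (Fin q)) : obj g (fun _ => 0) = 0 := by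
  unfold obj
  simp

theorem bdd (g : Sym2 V → Option (Fin q)) : BddAbove {t | ∃ x, Feas g x ∧ t = obj g x} := by
  refine ⟨Fintype.card V, ?_⟩
  rintro _ ⟨x, hx, rfl⟩
  exact obj_le hx

theorem le_W {g : Sym2 V → Option (Fin q)} {x : Sym2 V → ℝ} (hx : Feas g x) : obj g x ≤ W g :=
  le_csSup (bdd g) ⟨x, hx, rfl⟩

theorem W_nonneg (g : Sym2 V → Option (Fin q)) : 0 ≤ W g := by
  rw [← obj_zero g]
  exact le_W (feas_zero g)

theorem W_le_of {g : Sym2 V → Option (Fin q)} {c : ℝ} (h : ∀ x, Feas g x → obj g x ≤ c) :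
    W g ≤ c := by
  refine csSup_le ⟨_, _, feas_zero g, rfl⟩ ?_
  rintro _ ⟨x, hx, rfl⟩
  exact h x hx

theorem continuous_obj (g : Sym2 V → Option (Fin q)) : Continuous (obj g) := by
  unfold obj
  fun_prop

theorem compact (g : Sym2 V → Option (Fin q)) : IsCompact {x | Feas g x} := by
  have h1 : IsCompact (Set.pi Set.univ (fun _ : Sym2 V => Set.Icc (0 : ℝ) 1)) :=
    isCompact_univ_pi fun _ => isCompact_Icc
  have h2 : {x | Feas g x} = (Set.pi Set.univ (fun _ : Sym2 V => Set.Icc (0 : ℝ) 1)) ∩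
      ((⋂ e, {x : Sym2 V → ℝ | g e = none → x e = 0}) ∩
        ⋂ i, {x : Sym2 V → ℝ | ∑ j, x s(i, j) ≤ 2}) := by
    ext x
    constructor
    · intro hx
      refine ⟨fun e _ => ⟨hx.nonneg e, hx.le_one e⟩, ?_, ?_⟩
      · rw [Set.mem_iInter]
        exact fun e => hx.supp e
      · rw [Set.mem_iInter]
        exact fun i => hx.row i
    · rintro ⟨h1, h2, h3⟩
      rw [Set.mem_iInter] at h2 h3
      exact ⟨fun e => (h1 e trivial).1, fun e => (h1 e trivial).2, h2, h3⟩
  rw [h2]
  refine h1.inter_right (IsClosed.inter ?_ ?_)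
  · refine isClosed_iInter fun e => ?_
    by_cases he : g e = none
    · simp only [he, forall_const]
      exact isClosed_eq (continuous_apply e) continuous_const
    · simp only [he, false_imp_iff, Set.ofPred_true]
      exact isClosed_univ
  · refine isClosed_iInter fun i => ?_
    exact isClosed_le (by fun_prop) continuous_const

theorem attained (g : Sym2 V → Option (Fin q)) : ∃ x, Feas g x ∧ obj g x = W g := by
  obtain ⟨x, hx, hmax⟩ := (compact g).exists_isMaxOn ⟨_, feas_zero g⟩ (continuous_obj g).continuousOn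
  exact ⟨x, hx, le_antisymm (le_W hx) (W_le_of fun y hy => hmax hy)⟩

theorem sum_sym2 (F : Sym2 V → ℝ) (hF : ∀ i, F s(i, i) = 0) :
    ∑ i, ∑ j, F s(i, j) = 2 * ∑ e, F e := by
  have h1 : ∑ i, ∑ j, F s(i, j) = ∑ p : V × V, F s(p.1, p.2) := by
    rw [Fintype.sum_prod_type]
  rw [h1, ← Finset.sum_fiberwise (s := (univ : Finset (V × V))) (g := fun p => s(p.1, p.2)),
    Finset.mul_sum]
  refine Finset.sum_congr rfl fun e _ => ?_
  induction e using Sym2.ind with
  | _ a b =>
    by_cases hab : a = b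
    · subst hab
      rw [hF, mul_zero]
      refine Finset.sum_eq_zero fun p hp => ?_
      rw [Finset.mem_filter] at hp
      rw [hp.2, hF]
    · have h2 : (univ.filter fun p : V × V => s(p.1, p.2) = s(a, b)) = {(a, b), (b, a)} := by
        ext ⟨c, d⟩
        simp only [Finset.mem_filter, Finset.mem_univ, true_and, Sym2.eq_iff,
          Finset.mem_insert, Finset.mem_singleton, Prod.mk.injEq]
      rw [h2, Finset.sum_pair (by
        intro h
        exact hab (congrArg Prod.fst h))]
      show F s(a, b) + F s(b, a) = 2 * F s(a, b)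
      rw [Sym2.eq_swap (a := b) (b := a)]
      ring

end G1

open G1 in
theorem lpBasic : LPBasic where
  attained := fun V _ _ q g => attained g
  le_W := fun V _ _ q g x hx => le_W hx
  W_nonneg := fun V _ _ q g => W_nonneg g
  W_le := fun V _ _ q g => W_le_of fun x hx => obj_le hx
  obj_eq := by
    intro V _ _ q g x h
    have h1 := sum_sym2 (fun e => wm q (g e) * x e) (fun i => by
      rw [h i]
      show (0 : ℝ) * _ = 0
      rw [zero_mul])
    unfold obj
    rw [h1]
    ring

end MP329
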