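import Pool.Agent.Lib.MP_329b4d_pr.SpecG

/-!
# MP_329b4d_pr, G2: repair of an infeasible point of the linear program
-/

namespace MP329

open Finset

namespace G2

theorem wm_nonneg {q : ℕ} (o : Option (Fin q)) : 0 ≤ wm q o := by
  cases o with
  | none => simp [wm]
  | some m =>
    have hm : (m : ℕ) < q := m.2
    have hq : (0 : ℝ) < q := by exact_mod_cast (by omega : 0 < q)
    have h : ((m : ℕ) : ℝ) ≤ q := by exact_mod_cast hm.le
    simp only [wm, sub_nonneg]
    rw [div_le_one hq]
    exact h

theorem wm_le_one {q : ℕ} (o : Option (Fin q)) : wm q o ≤ 1 := by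
  cases o with
  | none => simp [wm]
  | some m =>
    simp only [wm]
    have : (0 : ℝ) ≤ ((m : ℕ) : ℝ) / q := by positivity
    linarith

end G2

open G2

theorem repair (h : LPBasic) : Repair := by
  intro V _ _ q g x hx0 hx1 hsupp
  set r : V → ℝ := fun i => ∑ j, x s(i, j) with hr
  set c : V → ℝ := fun i => if r i ≤ 2 then 1 else 2 / r i with hc
  have hc0 : ∀ i, 0 ≤ c i := by
    intro i
    simp only [hc]
    split_ifs with h2
    · norm_num
    · exact div_nonneg (by norm_num) (by linarith)
  have hc1 : ∀ i, c i ≤ 1 := by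
    intro i
    simp only [hc]
    split_ifs with h2
    · exact le_refl _
    · rw [div_le_one (by linarith)]
      linarith
  have hcr : ∀ i, c i * r i ≤ 2 := by
    intro i
    simp only [hc]
    split_ifs with h2
    · linarith
    · have : r i ≠ 0 := by intro h0; rw [h0] at h2; norm_num at h2
      rw [div_mul_cancel₀ _ this]
  have hcm : ∀ i, r i * (1 - c i) = max (r i - 2) 0 := by
    intro i
    simp only [hc]
    split_ifs with h2
    · rw [max_eq_right (by linarith)]
      ring
    · have : r i ≠ 0 := by intro h0; rw [h0] at h2; norm_num at h2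
      rw [max_eq_left (by linarith)]
      field_simp
  set cc : Sym2 V → ℝ := Sym2.lift ⟨fun i j => c i * c j, fun i j => mul_comm _ _⟩ with hcc
  have hccm : ∀ i j, cc s(i, j) = c i * c j := fun i j => rfl
  have hcc0 : ∀ e, 0 ≤ cc e := by
    intro e
    induction e using Sym2.ind with
    | _ i j => rw [hccm]; exact mul_nonneg (hc0 i) (hc0 j)
  have hcc1 : ∀ e, cc e ≤ 1 := by
    intro e
    induction e using Sym2.ind with
    | _ i j => rw [hccm]; exact mul_le_one₀ (hc1 i) (hc0 j) (hc1 j)
  have hfeas : Feas g (fun e => x e * cc e) := by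
    refine ⟨fun e => mul_nonneg (hx0 e) (hcc0 e), fun e => mul_le_one₀ (hx1 e) (hcc0 e) (hcc1 e),
      fun e he => by rw [hsupp e he, zero_mul], fun i => ?_⟩
    refine le_trans ?_ (hcr i)
    rw [hr, mul_sum]
    apply sum_le_sum
    intro j _
    rw [hccm]
    have := mul_le_mul_of_nonneg_left (hc1 j) (mul_nonneg (hc0 i) (hx0 s(i, j)))
    nlinarith
  have hW := h.le_W V q g _ hfeas
  have hmain : obj g x - obj g (fun e => x e * cc e) ≤ ∑ i, r i * (1 - c i) := by
    have h1 : ∑ i, ∑ j, wm q (g s(i, j)) * x s(i, j) -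
        ∑ i, ∑ j, wm q (g s(i, j)) * (x s(i, j) * cc s(i, j)) ≤
        ∑ i, ∑ j, (x s(i, j) * (1 - c i) + x s(i, j) * (1 - c j)) := by
      rw [← sum_sub_distrib]
      apply sum_le_sum
      intro i _
      rw [← sum_sub_distrib]
      apply sum_le_sum
      intro j _
      rw [hccm]
      have hw0 := wm_nonneg (g s(i, j))
      have hw1 := wm_le_one (g s(i, j))
      have hxx := hx0 s(i, j)
      have e1 : 0 ≤ 1 - c i * c j := by
        have := mul_le_one₀ (hc1 i) (hc0 j) (hc1 j)
        linarith
      have e2 : 1 - c i * c j ≤ (1 - c i) + (1 - c j) := by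
        nlinarith [mul_nonneg (sub_nonneg.mpr (hc1 i)) (sub_nonneg.mpr (hc1 j))]
      calc wm q (g s(i, j)) * x s(i, j) - wm q (g s(i, j)) * (x s(i, j) * (c i * c j))
          = wm q (g s(i, j)) * (x s(i, j) * (1 - c i * c j)) := by ring
        _ ≤ 1 * (x s(i, j) * (1 - c i * c j)) :=
            mul_le_mul_of_nonneg_right hw1 (mul_nonneg hxx e1)
        _ = x s(i, j) * (1 - c i * c j) := one_mul _
        _ ≤ x s(i, j) * ((1 - c i) + (1 - c j)) := mul_le_mul_of_nonneg_left e2 hxx
        _ = _ := by ring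
    have h2 : ∑ i, ∑ j, (x s(i, j) * (1 - c i) + x s(i, j) * (1 - c j)) =
        2 * ∑ i, r i * (1 - c i) := by
      simp only [sum_add_distrib]
      have e1 : ∑ i, ∑ j, x s(i, j) * (1 - c i) = ∑ i, r i * (1 - c i) := by
        apply sum_congr rfl
        intro i _
        rw [hr, sum_mul]
      have e2 : ∑ i, ∑ j, x s(i, j) * (1 - c j) = ∑ i, r i * (1 - c i) := by
        rw [sum_comm]
        apply sum_congr rfl
        intro i _
        rw [hr, sum_mul]
        apply sum_congr rfl
        intro j _
        rw [Sym2.eq_swap]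
      rw [e1, e2]
      ring
    rw [h2] at h1
    unfold obj
    linarith
  have hsum : ∑ i, r i * (1 - c i) = ∑ i, max (∑ j, x s(i, j) - 2) 0 :=
    sum_congr rfl fun i _ => hcm i
  rw [hsum] at hmain
  linarith

end MP329
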