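import Pool.Agent.Lib.MP_329b4d_pr.SpecG

/-!
# MP_329b4d_pr, G3: Lipschitz properties of the value of the linear program
-/

namespace MP329

open Finset

namespace G3

variable {V : Type} [Fintype V] [DecidableEq V] {q : ℕ}

theorem wm_nonneg (o : Option (Fin q)) : 0 ≤ wm q o := by
  rcases o with _ | m
  · exact le_rfl
  · show (0 : ℝ) ≤ 1 - (m : ℝ) / q
    have hq : (0 : ℝ) < q := by
      have := m.pos
      exact_mod_cast this
    have hm : ((m : ℕ) : ℝ) ≤ q := by exact_mod_cast m.isLt.le
    rw [sub_nonneg, div_le_one hq]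
    exact hm

theorem wm_le_one (o : Option (Fin q)) : wm q o ≤ 1 := by
  rcases o with _ | m
  · exact zero_le_one
  · show 1 - ((m : ℕ) : ℝ) / q ≤ 1
    have : (0 : ℝ) ≤ ((m : ℕ) : ℝ) / q := by positivity
    linarith

open Classical in
/-- Setting some coordinates to zero. -/
theorem cut {g g' : Sym2 V → Option (Fin q)} {x : Sym2 V → ℝ} (hx : Feas g x)
    (P : Sym2 V → Prop) (hP : ∀ e, ¬ P e → g' e = none → g e = none)
    (hQ : ∀ e, ¬ P e → g e ≠ none → g' e = g e) :
    Feas g' (fun e => if P e then 0 else x e) ∧
      obj g' (fun e => if P e then 0 else x e) =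
        obj g x - (∑ i, ∑ j, if P s(i, j) then wm q (g s(i, j)) * x s(i, j) else 0) / 2 := by
  refine ⟨⟨?_, ?_, ?_, ?_⟩, ?_⟩
  · intro e
    split_ifs
    · exact le_rfl
    · exact hx.nonneg e
  · intro e
    split_ifs
    · exact zero_le_one
    · exact hx.le_one e
  · intro e he
    split_ifs with h
    · rfl
    · exact hx.supp e (hP e h he)
  · intro i
    refine (Finset.sum_le_sum fun j _ => ?_).trans (hx.row i)
    split_ifs
    · exact hx.nonneg _
    · exact le_rfl
  · unfold obj
    rw [← sub_div, ← Finset.sum_sub_distrib]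
    congr 1
    refine Finset.sum_congr rfl fun i _ => ?_
    rw [← Finset.sum_sub_distrib]
    refine Finset.sum_congr rfl fun j _ => ?_
    by_cases h : P s(i, j)
    · simp [h]
    · simp only [h, if_false, sub_zero]
      by_cases hn : g s(i, j) = none
      · rw [hx.supp _ hn]
        simp
      · rw [hQ _ h hn]

open Classical in
/-- The drop when all pairs meeting `A` are set to zero. -/
theorem drop {g : Sym2 V → Option (Fin q)} {x : Sym2 V → ℝ} (hx : Feas g x) (A : Finset V)
    (P : Sym2 V → Prop) (hP : ∀ i j, P s(i, j) → i ∈ A ∨ j ∈ A) :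
    (∑ i, ∑ j, if P s(i, j) then wm q (g s(i, j)) * x s(i, j) else 0) / 2 ≤ 2 * #A := by
  have h1 : ∀ i j, (if P s(i, j) then wm q (g s(i, j)) * x s(i, j) else 0) ≤
      (if i ∈ A then x s(i, j) else 0) + (if j ∈ A then x s(j, i) else 0) := by
    intro i j
    have h0 := hx.nonneg s(i, j)
    have hsymm : s(j, i) = s(i, j) := Sym2.eq_swap
    have hw : wm q (g s(i, j)) * x s(i, j) ≤ x s(i, j) := by
      have := mul_le_mul_of_nonneg_right (wm_le_one (g s(i, j))) h0
      rwa [one_mul] at this
    rw [hsymm]
    by_cases h : P s(i, j)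
    · rw [if_pos h]
      rcases hP i j h with h' | h'
      · rw [if_pos h']
        have : 0 ≤ (if j ∈ A then x s(i, j) else 0) := by split_ifs <;> linarith
        linarith
      · rw [if_pos h']
        have : 0 ≤ (if i ∈ A then x s(i, j) else 0) := by split_ifs <;> linarith
        linarith
    · rw [if_neg h]
      split_ifs <;> linarith
  have h2 : ∀ i, ∑ j, (if i ∈ A then x s(i, j) else 0) ≤ if i ∈ A then 2 else 0 := by
    intro i
    by_cases h : i ∈ A
    · simp only [if_pos h]
      exact hx.row i
    · simp only [if_neg h, Finset.sum_const_zero, le_refl]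
  have h3 : ∑ i, ∑ j, (if i ∈ A then x s(i, j) else 0) ≤ 2 * #A := by
    refine (Finset.sum_le_sum fun i _ => h2 i).trans ?_
    rw [← Finset.sum_filter, Finset.sum_const, nsmul_eq_mul, Finset.filter_mem_eq_inter,
      Finset.univ_inter]
    linarith
  have h4 : ∑ i, ∑ j, (if P s(i, j) then wm q (g s(i, j)) * x s(i, j) else 0) ≤
      ∑ i, ∑ j, (if i ∈ A then x s(i, j) else 0) + ∑ i, ∑ j, (if j ∈ A then x s(j, i) else 0) := by
    rw [← Finset.sum_add_distrib]
    refine Finset.sum_le_sum fun i _ => ?_
    rw [← Finset.sum_add_distrib]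
    exact Finset.sum_le_sum fun j _ => h1 i j
  have h5 : ∑ i, ∑ j, (if j ∈ A then x s(j, i) else 0) =
      ∑ i, ∑ j, (if i ∈ A then x s(i, j) else 0) := Finset.sum_comm
  rw [h5] at h4
  linarith

open Classical in
/-- The drop when one pair is set to zero. -/
theorem drop_pair {g : Sym2 V → Option (Fin q)} {x : Sym2 V → ℝ} (hx : Feas g x) (e₀ : Sym2 V) :
    (∑ i, ∑ j, if s(i, j) = e₀ then wm q (g s(i, j)) * x s(i, j) else 0) / 2 ≤ 1 := by
  induction e₀ using Sym2.ind with
  | _ a b =>
    have h1 : ∀ i j, (if s(i, j) = s(a, b) then wm q (g s(i, j)) * x s(i, j) else 0) ≤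
        (if i = a then (if j = b then (1 : ℝ) else 0) else 0) +
          (if i = b then (if j = a then (1 : ℝ) else 0) else 0) := by
      intro i j
      have h0 := hx.nonneg s(i, j)
      have h01 := hx.le_one s(i, j)
      have hw : wm q (g s(i, j)) * x s(i, j) ≤ 1 := by
        have := mul_le_mul_of_nonneg_right (wm_le_one (g s(i, j))) h0
        linarith
      have p1 : (0 : ℝ) ≤ (if i = a then (if j = b then (1 : ℝ) else 0) else 0) := by
        split_ifs <;> norm_num
      have p2 : (0 : ℝ) ≤ (if i = b then (if j = a then (1 : ℝ) else 0) else 0) := by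
        split_ifs <;> norm_num
      by_cases h : s(i, j) = s(a, b)
      · rw [if_pos h]
        rcases Sym2.eq_iff.mp h with ⟨ha, hb⟩ | ⟨ha, hb⟩
        · rw [if_pos ha, if_pos hb]
          linarith
        · rw [if_pos ha, if_pos hb]
          linarith
      · rw [if_neg h]
        linarith
    have h2 : ∑ i, ∑ j, (if s(i, j) = s(a, b) then wm q (g s(i, j)) * x s(i, j) else 0) ≤
        ∑ i, ∑ j, ((if i = a then (if j = b then (1 : ℝ) else 0) else 0) +
          (if i = b then (if j = a then (1 : ℝ) else 0) else 0)) :=
      Finset.sum_le_sum fun i _ => Finset.sum_le_sum fun j _ => h1 i j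
    have h3 : ∑ i, ∑ j, ((if i = a then (if j = b then (1 : ℝ) else 0) else 0) +
          (if i = b then (if j = a then (1 : ℝ) else 0) else 0)) = 2 := by
      simp only [Finset.sum_add_distrib]
      have e : ∀ u v : V, ∑ i, ∑ j, (if i = u then (if j = v then (1 : ℝ) else 0) else 0) = 1 := by
        intro u v
        rw [Finset.sum_eq_single u]
        · simp
        · intro i _ hi
          simp [hi]
        · intro h
          exact absurd (Finset.mem_univ _) h
      rw [e, e]
      norm_num
    rw [h3] at h2
    linarith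

end G3

open G3 in
open Classical in
theorem wLip (h : LPBasic) : WLip := by
  have key : ∀ (V : Type) [Fintype V] [DecidableEq V] (q : ℕ) (g g' : Sym2 V → Option (Fin q))
      (P : Sym2 V → Prop) (C : ℝ), (∀ e, ¬ P e → g' e = none → g e = none) →
      (∀ e, ¬ P e → g e ≠ none → g' e = g e) →
      (∀ x, Feas g x →
        (∑ i, ∑ j, if P s(i, j) then wm q (g s(i, j)) * x s(i, j) else 0) / 2 ≤ C) →
      W g - C ≤ W g' := by
    intro V _ _ q g g' P C h1 h2 h3
    obtain ⟨x, hx, hxW⟩ := h.attained V q g
    obtain ⟨f1, f2⟩ := cut hx P h1 h2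
    have h4 := h.le_W V q g' _ f1
    rw [f2, hxW] at h4
    have h5 := h3 x hx
    linarith
  refine ⟨?_, ?_, ?_, ?_⟩
  · intro V _ _ q g g' i hi
    have hone : ∀ g g' : Sym2 V → Option (Fin q), (∀ e, i ∉ e → g e = g' e) → W g - 2 ≤ W g' := by
      intro g g' hi
      refine key V q g g' (fun e => i ∈ e) 2 ?_ ?_ ?_
      · intro e he hn
        rw [hi e he]
        exact hn
      · intro e he _
        exact (hi e he).symm
      · intro x hx
        have := drop hx {i} (fun e => i ∈ e) (by
          intro a b hab
          rcases Sym2.mem_iff.mp hab with h | h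
          · left
            rw [Finset.mem_singleton]
            exact h.symm
          · right
            rw [Finset.mem_singleton]
            exact h.symm)
        rw [Finset.card_singleton] at this
        push_cast at this
        linarith
    have h1 := hone g g' hi
    have h2 := hone g' g (fun e he => (hi e he).symm)
    rw [abs_le]
    constructor <;> linarith
  · intro V _ _ q g g' e₀ he₀
    have hone : ∀ g g' : Sym2 V → Option (Fin q), (∀ e, e ≠ e₀ → g e = g' e) → W g - 1 ≤ W g' := by
      intro g g' hi
      refine key V q g g' (fun e => e = e₀) 1 ?_ ?_ ?_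
      · intro e he hn
        rw [hi e he]
        exact hn
      · intro e he _
        exact (hi e he).symm
      · intro x hx
        convert drop_pair hx e₀
    have h1 := hone g g' he₀
    have h2 := hone g' g (fun e he => (he₀ e he).symm)
    rw [abs_le]
    constructor <;> linarith
  · intro V _ _ q Δ g
    have := key V q (prune Δ g) g (fun _ => False) 0 ?_ ?_ ?_
    · linarith
    · intro e _ he
      unfold prune
      split_ifs
      · exact he
      · rfl
    · intro e _ he
      unfold prune at he ⊢
      split_ifs at he ⊢ with h'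
      · rfl
      · exact absurd rfl he
    · intro x _
      simp
  · intro V _ _ q Δ g
    refine key V q g (prune Δ g) (fun e => ∃ i ∈ e, Δ < mdeg g i) (2 * #{i | Δ < mdeg g i}) ?_ ?_ ?_
    · intro e he hn
      have hall : ∀ i ∈ e, mdeg g i ≤ Δ := by
        intro i hi
        by_contra hlt
        exact he ⟨i, hi, not_le.mp hlt⟩
      unfold prune at hn
      rw [if_pos hall] at hn
      exact hn
    · intro e he _
      have hall : ∀ i ∈ e, mdeg g i ≤ Δ := by
        intro i hi
        by_contra hlt
        exact he ⟨i, hi, not_le.mp hlt⟩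
      unfold prune
      rw [if_pos hall]
    · intro x hx
      exact drop hx _ (fun e => ∃ i ∈ e, Δ < mdeg g i) (by
        rintro a b ⟨i, hi, hlt⟩
        rcases Sym2.mem_iff.mp hi with rfl | rfl
        · left
          simpa using hlt
        · right
          simpa using hlt)

end MP329
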