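import Pool.Agent.Lib.MP_329b4d_pr.SpecG

/-!
# MP_329b4d_pr, G6: an optimal solution of the linear program whose fractional part is 2-regular
-/

namespace MP329

open Finset

namespace G6

variable {V : Type} [Fintype V] {q : ℕ}

/-- the fractional pairs -/
noncomputable def Fr (x : Sym2 V → ℝ) : Finset (Sym2 V) := univ.filter fun e => 0 < x e ∧ x e < 1

/-- the rows which are not full -/
noncomputable def Nf (x : Sym2 V → ℝ) : Finset V := univ.filter fun i => ∑ j, x s(i, j) < 2

/-- full rows with a fractional pair -/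
noncomputable def Tf (x : Sym2 V → ℝ) : Finset V :=
  univ.filter fun i => ∑ j, x s(i, j) = 2 ∧ ∃ j, 0 < x s(i, j) ∧ x s(i, j) < 1

theorem mem_Fr {x : Sym2 V → ℝ} {e : Sym2 V} : e ∈ Fr x ↔ 0 < x e ∧ x e < 1 := by
  simp [Fr]

theorem mem_Nf {x : Sym2 V → ℝ} {i : V} : i ∈ Nf x ↔ ∑ j, x s(i, j) < 2 := by
  simp [Nf]

theorem mem_Tf {x : Sym2 V → ℝ} {i : V} :
    i ∈ Tf x ↔ ∑ j, x s(i, j) = 2 ∧ ∃ j, 0 < x s(i, j) ∧ x s(i, j) < 1 := by
  simp [Tf]

theorem row_add (x z : Sym2 V → ℝ) (t : ℝ) (i : V) :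
    ∑ j, (x + t • z) s(i, j) = ∑ j, x s(i, j) + t * ∑ j, z s(i, j) := by
  simp only [Pi.add_apply, Pi.smul_apply, smul_eq_mul, Finset.sum_add_distrib, Finset.mul_sum]

theorem obj_add (g : Sym2 V → Option (Fin q)) (x z : Sym2 V → ℝ) (t : ℝ) :
    obj g (x + t • z) = obj g x + t * obj g z := by
  unfold obj
  rw [← mul_div_assoc, ← add_div]
  congr 1
  rw [Finset.mul_sum, ← Finset.sum_add_distrib]
  refine Finset.sum_congr rfl fun i _ => ?_
  rw [Finset.mul_sum, ← Finset.sum_add_distrib]
  refine Finset.sum_congr rfl fun j _ => ?_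
  simp only [Pi.add_apply, Pi.smul_apply, smul_eq_mul]
  ring

/-- small moves in the direction `z` are feasible -/
theorem interior {g : Sym2 V → Option (Fin q)} {x z : Sym2 V → ℝ} (hx : Feas g x)
    (hz : ∀ e, z e ≠ 0 → e ∈ Fr x) (hr : ∀ i, ∑ j, x s(i, j) = 2 → ∑ j, z s(i, j) = 0) :
    ∀ᶠ t in nhds (0 : ℝ), Feas g (x + t • z) := by
  have c : ∀ a b : ℝ, Filter.Tendsto (fun t : ℝ => a + t * b) (nhds 0) (nhds a) := by
    intro a b
    have : Continuous fun t : ℝ => a + t * b := by fun_prop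
    simpa using this.tendsto 0
  have h1 : ∀ᶠ t in nhds (0 : ℝ), ∀ e, 0 ≤ (x + t • z) e := by
    refine Filter.eventually_all.2 fun e => ?_
    by_cases he : z e = 0
    · refine Filter.Eventually.of_forall fun t => ?_
      simp only [Pi.add_apply, Pi.smul_apply, smul_eq_mul, he, mul_zero, add_zero]
      exact hx.nonneg e
    · have := (c (x e) (z e)).eventually_const_lt (mem_Fr.1 (hz e he)).1
      filter_upwards [this] with t ht
      simpa only [Pi.add_apply, Pi.smul_apply, smul_eq_mul] using ht.le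
  have h2 : ∀ᶠ t in nhds (0 : ℝ), ∀ e, (x + t • z) e ≤ 1 := by
    refine Filter.eventually_all.2 fun e => ?_
    by_cases he : z e = 0
    · refine Filter.Eventually.of_forall fun t => ?_
      simp only [Pi.add_apply, Pi.smul_apply, smul_eq_mul, he, mul_zero, add_zero]
      exact hx.le_one e
    · have := (c (x e) (z e)).eventually_lt_const (mem_Fr.1 (hz e he)).2
      filter_upwards [this] with t ht
      simpa only [Pi.add_apply, Pi.smul_apply, smul_eq_mul] using ht.le
  have h3 : ∀ᶠ t in nhds (0 : ℝ), ∀ i, ∑ j, (x + t • z) s(i, j) ≤ 2 := by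
    refine Filter.eventually_all.2 fun i => ?_
    by_cases hi : ∑ j, x s(i, j) = 2
    · refine Filter.Eventually.of_forall fun t => ?_
      rw [row_add, hr i hi, hi]
      simp
    · have := (c (∑ j, x s(i, j)) (∑ j, z s(i, j))).eventually_lt_const
        (lt_of_le_of_ne (hx.row i) hi)
      filter_upwards [this] with t ht
      rw [row_add]
      exact ht.le
  filter_upwards [h1, h2, h3] with t a b d
  refine ⟨a, b, fun e he => ?_, d⟩
  have hx0 := hx.supp e he
  have hz0 : z e = 0 := by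
    by_contra hne
    have := (mem_Fr.1 (hz e hne)).1
    rw [hx0] at this
    exact lt_irrefl _ this
  simp [hx0, hz0]

/-- the kernel vector -/
theorem kernel {x : Sym2 V → ℝ} (h : #(Tf x) < #(Fr x)) :
    ∃ z : Sym2 V → ℝ, z ≠ 0 ∧ (∀ e, z e ≠ 0 → e ∈ Fr x) ∧ ∀ i ∈ Tf x, ∑ j, z s(i, j) = 0 := by
  classical
  let A : ({e // e ∈ Fr x} → ℝ) →ₗ[ℝ] ({i // i ∈ Tf x} → ℝ) :=
    { toFun := fun y i => ∑ j, if hh : s(i.1, j) ∈ Fr x then y ⟨s(i.1, j), hh⟩ else 0
      map_add' := by
        intro y y'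
        ext i
        simp only [Pi.add_apply]
        rw [← Finset.sum_add_distrib]
        refine Finset.sum_congr rfl fun j _ => ?_
        split_ifs <;> simp
      map_smul' := by
        intro a y
        ext i
        simp only [Pi.smul_apply, smul_eq_mul, RingHom.id_apply]
        rw [Finset.mul_sum]
        refine Finset.sum_congr rfl fun j _ => ?_
        split_ifs <;> simp }
  have hk : LinearMap.ker A ≠ ⊥ := by
    apply LinearMap.ker_ne_bot_of_finrank_lt
    simpa using h
  obtain ⟨y, hy, hy0⟩ := (Submodule.ne_bot_iff _).1 hk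
  refine ⟨fun e => if hh : e ∈ Fr x then y ⟨e, hh⟩ else 0, ?_, ?_, ?_⟩
  · intro h0
    apply hy0
    ext ⟨e, he⟩
    have := congrFun h0 e
    simpa [he] using this
  · intro e he
    by_contra hne
    simp [hne] at he
  · intro i hi
    exact congrFun (LinearMap.mem_ker.1 hy) ⟨i, hi⟩

/-- the improvement step -/
theorem improve [DecidableEq V] (hL : LPBasic) {g : Sym2 V → Option (Fin q)} {x : Sym2 V → ℝ} (hx : Feas g x)
    (ho : obj g x = W g) (h : #(Tf x) < #(Fr x)) :
    ∃ x', Feas g x' ∧ obj g x' = W g ∧ #(Fr x') + #(Nf x') < #(Fr x) + #(Nf x) := by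
  obtain ⟨z, hz0, hz, hzT⟩ := kernel h
  -- full rows: the sum of `z` is zero
  have hr : ∀ i, ∑ j, x s(i, j) = 2 → ∑ j, z s(i, j) = 0 := by
    intro i hi
    by_cases hT : i ∈ Tf x
    · exact hzT i hT
    · refine Finset.sum_eq_zero fun j _ => ?_
      by_contra hne
      exact hT (mem_Tf.2 ⟨hi, j, mem_Fr.1 (hz _ hne)⟩)
  have hint := interior hx hz hr
  -- the objective is constant
  have hobj : obj g z = 0 := by
    obtain ⟨ε, hε, hball⟩ := Metric.eventually_nhds_iff.1 hint
    have h1 := hL.le_W V q g _ (hball (y := ε / 2) (by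
      rw [Real.dist_eq, sub_zero, abs_of_pos (by positivity)]; linarith))
    have h2 := hL.le_W V q g _ (hball (y := -(ε / 2)) (by
      rw [Real.dist_eq, sub_zero, abs_neg, abs_of_pos (by positivity)]; linarith))
    rw [obj_add, ho] at h1 h2
    have h3 : ε / 2 * obj g z ≤ 0 := by linarith
    have h4 : 0 ≤ ε / 2 * obj g z := by linarith
    have h5 : ε / 2 * obj g z = 0 := le_antisymm h3 h4
    rcases mul_eq_zero.1 h5 with h6 | h6
    · exact absurd h6 (by positivity)
    · exact h6
  -- the largest feasible parameter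
  obtain ⟨e0, he0⟩ : ∃ e, z e ≠ 0 := by
    by_contra hcon
    push Not at hcon
    exact hz0 (funext hcon)
  set S : Set ℝ := {t | Feas g (x + t • z)} with hS
  have hclosed : IsClosed S := by
    have hc : ∀ e, Continuous fun t : ℝ => (x + t • z) e := by
      intro e
      simp only [Pi.add_apply, Pi.smul_apply, smul_eq_mul]
      fun_prop
    have : S = (⋂ e, {t : ℝ | 0 ≤ (x + t • z) e}) ∩ (⋂ e, {t : ℝ | (x + t • z) e ≤ 1}) ∩
        (⋂ e, {t : ℝ | g e = none → (x + t • z) e = 0}) ∩
        (⋂ i, {t : ℝ | ∑ j, (x + t • z) s(i, j) ≤ 2}) := by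
      ext t
      simp only [hS, Set.mem_setOf_eq, Set.mem_inter_iff, Set.mem_iInter]
      constructor
      · intro hf
        exact ⟨⟨⟨hf.nonneg, hf.le_one⟩, hf.supp⟩, hf.row⟩
      · rintro ⟨⟨⟨a, b⟩, c⟩, d⟩
        exact ⟨a, b, c, d⟩
    rw [this]
    refine (((isClosed_iInter fun e => isClosed_le continuous_const (hc e)).inter
      (isClosed_iInter fun e => isClosed_le (hc e) continuous_const)).inter
      (isClosed_iInter fun e => ?_)).inter
      (isClosed_iInter fun i => isClosed_le (continuous_finset_sum _ fun j _ => hc _)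
        continuous_const)
    by_cases he : g e = none
    · simp only [he, forall_const]
      exact isClosed_eq (hc e) continuous_const
    · simp only [he, false_imp_iff, Set.setOf_true]
      exact isClosed_univ
  have hbdd : S ⊆ Set.Icc (-(1 / |z e0|)) (1 / |z e0|) := by
    intro t ht
    have a := ht.nonneg e0
    have b := ht.le_one e0
    simp only [Pi.add_apply, Pi.smul_apply, smul_eq_mul] at a b
    have c := hx.nonneg e0
    have d := hx.le_one e0
    have hpos : 0 < |z e0| := abs_pos.2 he0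
    have hle : |t| * |z e0| ≤ 1 := by
      rw [← abs_mul, abs_le]
      constructor <;> linarith
    have : |t| ≤ 1 / |z e0| := by rw [le_div_iff₀ hpos]; exact hle
    exact abs_le.1 this
  have hcomp : IsCompact S := isCompact_Icc.of_isClosed_subset hclosed hbdd
  have h0S : (0 : ℝ) ∈ S := by
    show Feas g (x + (0 : ℝ) • z)
    rw [zero_smul, add_zero]
    exact hx
  obtain ⟨t, htS, htmax⟩ := hcomp.exists_isGreatest ⟨0, h0S⟩
  have hfeas : Feas g (x + t • z) := htS
  refine ⟨x + t • z, hfeas, by rw [obj_add, ho, hobj]; ring, ?_⟩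
  -- the sets shrink
  have hF : Fr (x + t • z) ⊆ Fr x := by
    intro e he
    by_contra hne
    have hz' : z e = 0 := by
      by_contra h'
      exact hne (hz e h')
    rw [mem_Fr] at he hne
    simp only [Pi.add_apply, Pi.smul_apply, smul_eq_mul, hz', mul_zero, add_zero] at he
    exact hne he
  have hN : Nf (x + t • z) ⊆ Nf x := by
    intro i hi
    rw [mem_Nf] at hi ⊢
    by_contra hne
    have h2 : ∑ j, x s(i, j) = 2 := le_antisymm (hx.row i) (not_lt.1 hne)
    rw [row_add, hr i h2, h2] at hi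
    simp at hi
  have c1 := Finset.card_le_card hF
  have c2 := Finset.card_le_card hN
  by_contra hcon
  have e1 : Fr (x + t • z) = Fr x := Finset.eq_of_subset_of_card_le hF (by omega)
  have e2 : Nf (x + t • z) = Nf x := Finset.eq_of_subset_of_card_le hN (by omega)
  have hint' := interior hfeas (z := z) (fun e he => by rw [e1]; exact hz e he) (fun i hi => by
    apply hr i
    by_contra hne
    have : i ∈ Nf x := mem_Nf.2 (lt_of_le_of_ne (hx.row i) hne)
    rw [← e2, mem_Nf, hi] at this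
    exact lt_irrefl _ this)
  obtain ⟨ε, hε, hball⟩ := Metric.eventually_nhds_iff.1 hint'
  have h1 : Feas g (x + t • z + (ε / 2) • z) := hball (y := ε / 2) (by
      rw [Real.dist_eq, sub_zero, abs_of_pos (by positivity)]; linarith)
  have h2 : t + ε / 2 ∈ S := by
    show Feas g (x + (t + ε / 2) • z)
    rw [add_smul, ← add_assoc]
    exact h1
  have h3 := htmax h2
  linarith

/-- double counting -/
theorem sum_deg [DecidableEq V] (F : Finset (Sym2 V)) (hd : ∀ e ∈ F, ¬ e.IsDiag) :
    ∑ i, #{j | s(i, j) ∈ F} = 2 * #F := by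
  classical
  let G : SimpleGraph V := SimpleGraph.fromEdgeSet (F : Set (Sym2 V))
  have h := G.sum_degrees_eq_twice_card_edges
  have h1 : ∀ inst : Fintype G.edgeSet, #(@SimpleGraph.edgeFinset V G inst) = #F := by
    intro inst
    congr 1
    ext e
    rw [SimpleGraph.mem_edgeFinset, SimpleGraph.edgeSet_fromEdgeSet]
    constructor
    · intro he
      exact he.1
    · intro he
      exact ⟨he, hd e he⟩
  have h2 : ∀ i, G.degree i = #{j | s(i, j) ∈ F} := by
    intro i
    rw [← SimpleGraph.card_neighborFinset_eq_degree]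
    congr 1
    ext j
    rw [SimpleGraph.mem_neighborFinset, SimpleGraph.fromEdgeSet_adj]
    simp only [Finset.mem_filter, Finset.mem_univ, true_and, Finset.mem_coe]
    constructor
    · intro he
      exact he.1
    · intro he
      exact ⟨he, fun hij => hd _ he (by rw [hij]; exact Sym2.mk_isDiag_iff.2 rfl)⟩
  rw [h1] at h
  rw [← h]
  exact Finset.sum_congr rfl fun i _ => (h2 i).symm

/-- a full row with a fractional pair has at least two -/
theorem two_le [DecidableEq V] {g : Sym2 V → Option (Fin q)} {x : Sym2 V → ℝ} (hx : Feas g x) {i : V}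
    (hi : i ∈ Tf x) : 2 ≤ #{j | s(i, j) ∈ Fr x} := by
  obtain ⟨h2, j0, hj0⟩ := mem_Tf.1 hi
  by_contra hcon
  have hj0F : j0 ∈ ({j | s(i, j) ∈ Fr x} : Finset V) := by
    simp only [Finset.mem_filter, Finset.mem_univ, true_and]
    exact mem_Fr.2 hj0
  have huniq : ∀ j, s(i, j) ∈ Fr x → j = j0 := by
    intro j hj
    have hle : #{j | s(i, j) ∈ Fr x} ≤ 1 := by omega
    exact Finset.card_le_one.1 hle j (by simpa using hj) j0 hj0F
  have hsum : ∑ j ∈ univ.erase j0, x s(i, j) = (#{j ∈ univ.erase j0 | x s(i, j) = 1} : ℝ) := by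
    rw [← Finset.sum_boole]
    refine Finset.sum_congr rfl fun j hj => ?_
    have hne : s(i, j) ∉ Fr x := fun hF => Finset.ne_of_mem_erase hj (huniq j hF)
    rw [mem_Fr] at hne
    split_ifs with h1
    · exact h1
    · by_contra h0
      exact hne ⟨lt_of_le_of_ne (hx.nonneg _) (Ne.symm h0), lt_of_le_of_ne (hx.le_one _) h1⟩
  rw [← Finset.add_sum_erase univ (fun j => x s(i, j)) (Finset.mem_univ j0), hsum] at h2
  have a1 : ((#{j ∈ univ.erase j0 | x s(i, j) = 1} : ℕ) : ℝ) < 2 := by linarith [hj0.1]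
  have a2 : (1 : ℝ) < ((#{j ∈ univ.erase j0 | x s(i, j) = 1} : ℕ) : ℝ) := by linarith [hj0.2]
  have b1 : #{j ∈ univ.erase j0 | x s(i, j) = 1} < 2 := by exact_mod_cast a1
  have b2 : 1 < #{j ∈ univ.erase j0 | x s(i, j) = 1} := by exact_mod_cast a2
  omega

end G6

open G6 in
theorem lpMin (hL : LPBasic) : LPMin := by
  classical
  intro V _ _ q g hg
  have hex : ∃ n, ∃ x, Feas g x ∧ obj g x = W g ∧ #(Fr x) + #(Nf x) = n := by
    obtain ⟨x, hx, ho⟩ := hL.attained V q g
    exact ⟨_, x, hx, ho, rfl⟩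
  obtain ⟨x, hx, ho, hn⟩ := Nat.find_spec hex
  have hle : #(Fr x) ≤ #(Tf x) := by
    by_contra hcon
    obtain ⟨x', hx', ho', hlt⟩ := improve hL hx ho (not_le.1 hcon)
    have := Nat.find_min' hex ⟨x', hx', ho', rfl⟩
    omega
  have hd : ∀ e ∈ Fr x, ¬ e.IsDiag := by
    intro e he hdiag
    induction e using Sym2.ind with
    | _ a b =>
      rw [Sym2.mk_isDiag_iff] at hdiag
      subst hdiag
      have h0 := hx.supp s(a, a) (hg a)
      have h1 := (mem_Fr.1 he).1
      rw [h0] at h1
      exact lt_irrefl _ h1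
  have hdeg := sum_deg (Fr x) hd
  -- equality everywhere
  have hTlow : 2 * #(Tf x) ≤ ∑ i ∈ Tf x, #{j | s(i, j) ∈ Fr x} := by
    rw [mul_comm, ← smul_eq_mul, ← Finset.sum_const]
    exact Finset.sum_le_sum fun i hi => two_le hx hi
  have hsplit : ∑ i ∈ Tf x, #{j | s(i, j) ∈ Fr x} + ∑ i ∈ (Tf x)ᶜ, #{j | s(i, j) ∈ Fr x}
      = ∑ i, #{j | s(i, j) ∈ Fr x} := Finset.sum_add_sum_compl _ _
  have hout : ∑ i ∈ (Tf x)ᶜ, #{j | s(i, j) ∈ Fr x} = 0 := by omega
  have hin : ∑ i ∈ Tf x, #{j | s(i, j) ∈ Fr x} = ∑ _i ∈ Tf x, 2 := by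
    rw [Finset.sum_const, smul_eq_mul]
    omega
  have hin' : ∀ i ∈ Tf x, 2 = #{j | s(i, j) ∈ Fr x} :=
    (Finset.sum_eq_sum_iff_of_le fun i hi => two_le hx hi).1 hin.symm
  refine ⟨x, hx, ho, fun i hi => ?_⟩
  obtain ⟨j, hj⟩ := hi
  have hiT : i ∈ Tf x := by
    by_contra hne
    have h0 := Finset.sum_eq_zero_iff.1 hout i (Finset.mem_compl.2 hne)
    rw [Finset.card_eq_zero] at h0
    have : j ∈ ({j | s(i, j) ∈ Fr x} : Finset V) := by
      simp only [Finset.mem_filter, Finset.mem_univ, true_and]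
      exact mem_Fr.2 hj
    rw [h0] at this
    exact absurd this (Finset.notMem_empty j)
  refine ⟨?_, (mem_Tf.1 hiT).1⟩
  rw [hin' i hiT]
  congr 1
  ext j
  simp only [Finset.mem_filter, Finset.mem_univ, true_and]
  exact mem_Fr.symm

end MP329
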