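import Pool.Agent.Lib.MP_329b4d_pr.SpecG
import Pool.Agent.Lib.MP_329b4d_pr.B1Lists

/-!
# MP_329b4d_pr, G7: graphs of maximum degree two are almost path covers
-/

set_option autoImplicit false

namespace MP329

open Finset

namespace G7

variable {V : Type}

theorem eq_of_mem {L : List (List V)} (h : L.flatten.Nodup) {l l' : List V} {y : V} (hl : l ∈ L)
    (hl' : l' ∈ L) (hy : y ∈ l) (hy' : y ∈ l') : l = l' := by
  by_contra hne
  have h2 := (List.nodup_flatten.1 h).2
  have : Std.Symm (List.Disjoint (α := V)) := ⟨fun _ _ h => h.symm⟩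
  have h3 : List.Disjoint l l' := h2.forall hl hl' hne
  exact h3 hy hy'

theorem nodup_of_mem {L : List (List V)} (h : L.flatten.Nodup) {l : List V} (hl : l ∈ L) :
    l.Nodup := (List.nodup_flatten.1 h).1 l hl

theorem end_or_mid {l : List V} {a : V} (h : a ∈ l) :
    ((∃ Q, l = a :: Q) ∨ ∃ Q, l = Q ++ [a]) ∨ ∃ Q₁ Q₂ z z', l = Q₁ ++ z :: a :: z' :: Q₂ := by
  obtain ⟨s, t, rfl⟩ := List.append_of_mem h
  rcases List.eq_nil_or_concat s with rfl | ⟨s', z, rfl⟩
  · exact Or.inl (Or.inl ⟨t, rfl⟩)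
  · cases t with
    | nil => exact Or.inl (Or.inr ⟨_, rfl⟩)
    | cons z' t => exact Or.inr ⟨s', t, z, z', by simp⟩

theorem mem_edgesL [DecidableEq V] {L : List (List V)} {l : List V} (hl : l ∈ L) {e : Sym2 V}
    (he : e ∈ links l) : e ∈ edgesL L := by
  simp only [edgesL, List.mem_toFinset, List.mem_flatMap]
  exact ⟨l, hl, he⟩

theorem not_mid [Fintype V] [DecidableEq V] {E : Finset (Sym2 V)}
    (hdeg : ∀ i, #{j | s(i, j) ∈ E} ≤ 2) {L : List (List V)} (hL : IsCover L)
    (hE : edgesL L ⊆ E) {a b : V} (hab : s(a, b) ∈ E) (hn : s(a, b) ∉ edgesL L) {l : List V}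
    (hl : l ∈ L) {Q₁ Q₂ : List V} {z z' : V} (h : l = Q₁ ++ z :: a :: z' :: Q₂) : False := by
  have h1 : s(a, z) ∈ edgesL L :=
    mem_edgesL hl ((B1.mem_links _ _ _).2 (Or.inr ⟨Q₁, z' :: Q₂, h⟩))
  have h2 : s(a, z') ∈ edgesL L :=
    mem_edgesL hl ((B1.mem_links _ _ _).2 (Or.inl ⟨Q₁ ++ [z], Q₂, by simp [h]⟩))
  have h3 : z ≠ z' := by
    have hnd := nodup_of_mem hL.nodup hl
    rw [h] at hnd
    have h4 := (List.nodup_append.1 hnd).2.1
    have h5 := (List.nodup_cons.1 h4).1
    intro hz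
    apply h5
    rw [hz]
    simp
  have h4 : z ≠ b := fun h => hn (h ▸ h1)
  have h5 : z' ≠ b := fun h => hn (h ▸ h2)
  have h6 : ({z, z', b} : Finset V) ⊆ ({j | s(a, j) ∈ E} : Finset V) := by
    intro j hj
    simp only [Finset.mem_insert, Finset.mem_singleton] at hj
    rw [Finset.mem_filter]
    refine ⟨Finset.mem_univ _, ?_⟩
    rcases hj with rfl | rfl | rfl
    · exact hE h1
    · exact hE h2
    · exact hab
  have h7 := (Finset.card_le_card h6).trans (hdeg a)
  rw [Finset.card_eq_three.2 ⟨z, z', b, h3, h4, h5, rfl⟩] at h7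
  omega

theorem orient_last {l : List V} {a : V} (h : (∃ Q, l = a :: Q) ∨ ∃ Q, l = Q ++ [a]) :
    ∃ Q, Q ++ [a] = l ∨ Q ++ [a] = l.reverse := by
  rcases h with ⟨Q, rfl⟩ | ⟨Q, rfl⟩
  · exact ⟨Q.reverse, Or.inr (by simp)⟩
  · exact ⟨Q, Or.inl rfl⟩

theorem orient_head {l : List V} {a : V} (h : (∃ Q, l = a :: Q) ∨ ∃ Q, l = Q ++ [a]) :
    ∃ Q, a :: Q = l ∨ a :: Q = l.reverse := by
  rcases h with ⟨Q, rfl⟩ | ⟨Q, rfl⟩
  · exact ⟨Q, Or.inl rfl⟩
  · exact ⟨Q.reverse, Or.inr (by simp)⟩

theorem join [DecidableEq V] {E : Finset (Sym2 V)} {L : List (List V)} (hL : IsCover L)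
    (hE : edgesL L ⊆ E) {a b : V} (hab : s(a, b) ∈ E) {la lb : List V} (hla : la ∈ L)
    (hlb : lb ∈ L) (hne : la ≠ lb) (ha : (∃ Q, la = a :: Q) ∨ ∃ Q, la = Q ++ [a])
    (hb : (∃ Q, lb = b :: Q) ∨ ∃ Q, lb = Q ++ [b]) :
    ∃ L', IsCover L' ∧ edgesL L' ⊆ E ∧ L'.length < L.length := by
  have hp1 : L.Perm (la :: L.erase la) := List.perm_cons_erase hla
  have hlb' : lb ∈ L.erase la := (List.mem_erase_of_ne hne.symm).2 hlb
  have hp2 : (L.erase la).Perm (lb :: (L.erase la).erase lb) := List.perm_cons_erase hlb'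
  have hp : L.Perm (la :: lb :: (L.erase la).erase lb) := hp1.trans (hp2.cons la)
  generalize (L.erase la).erase lb = L₀ at hp
  obtain ⟨Q, hQ⟩ := orient_last ha
  obtain ⟨Q', hQ'⟩ := orient_head hb
  have hc := B1.cover_perm _ _ hp hL
  have he := B1.edgesL_perm _ _ hp
  have hc1 : IsCover ((Q ++ [a]) :: lb :: L₀) := by
    rcases hQ with h | h
    · rw [h]; exact hc
    · rw [h]; exact B1.cover_reverse _ _ hc
  have he1 : edgesL ((Q ++ [a]) :: lb :: L₀) = edgesL L := by
    rcases hQ with h | h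
    · rw [h, he]
    · rw [h, B1.edgesL_reverse, he]
  have hc2 : IsCover (lb :: (Q ++ [a]) :: L₀) := B1.cover_perm _ _ (List.Perm.swap _ _ _) hc1
  have he2 : edgesL (lb :: (Q ++ [a]) :: L₀) = edgesL L := by
    rw [← he1]
    exact B1.edgesL_perm _ _ (List.Perm.swap _ _ _)
  have hc3 : IsCover ((b :: Q') :: (Q ++ [a]) :: L₀) := by
    rcases hQ' with h | h
    · rw [h]; exact hc2
    · rw [h]; exact B1.cover_reverse _ _ hc2
  have he3 : edgesL ((b :: Q') :: (Q ++ [a]) :: L₀) = edgesL L := by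
    rcases hQ' with h | h
    · rw [h, he2]
    · rw [h, B1.edgesL_reverse, he2]
  have hc4 : IsCover ((Q ++ [a]) :: (b :: Q') :: L₀) :=
    B1.cover_perm _ _ (List.Perm.swap _ _ _) hc3
  have he4 : edgesL ((Q ++ [a]) :: (b :: Q') :: L₀) = edgesL L := by
    rw [← he3]
    exact B1.edgesL_perm _ _ (List.Perm.swap _ _ _)
  refine ⟨((Q ++ [a]) ++ (b :: Q')) :: L₀, B1.cover_join _ _ _ hc4, ?_, ?_⟩
  · have h : (Q ++ [a]) ++ (b :: Q') = Q ++ a :: b :: Q' := by simp
    rw [h, B1.edgesL_join, he4]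
    exact Finset.insert_subset hab hE
  · have := hp.length_eq
    simp only [List.length_cons] at this ⊢
    omega

theorem three_le {l Q Q' : List V} {a b : V} (hab : a ≠ b) (h1 : l = a :: Q) (h2 : l = Q' ++ [b])
    (hn : s(a, b) ∉ links l) : 3 ≤ l.length := by
  subst h1
  cases Q with
  | nil =>
    exfalso
    cases Q' with
    | nil =>
      simp only [List.nil_append, List.cons.injEq, and_true] at h2
      exact hab h2
    | cons x Q' => simp at h2
  | cons x Q =>
    cases Q with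
    | nil =>
      exfalso
      have h3 := congrArg List.getLast? h2
      simp only [List.getLast?_append, List.getLast?_singleton, Option.some_or] at h3
      have h4 : x = b := by simpa using h3
      apply hn
      rw [h4]
      simp [links]
    | cons y Q =>
      simp only [List.length_cons]
      omega

/-- The structure of the edges outside a minimal cover. -/
theorem key [Fintype V] [DecidableEq V] {E : Finset (Sym2 V)}
    (hdiag : ∀ e ∈ E, ¬ e.IsDiag) (hdeg : ∀ i, #{j | s(i, j) ∈ E} ≤ 2) {L : List (List V)}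
    (hL : IsCover L) (hE : edgesL L ⊆ E)
    (hmin : ∀ L', IsCover L' ∧ edgesL L' ⊆ E → L.length ≤ L'.length) :
    ∀ e ∈ E \ edgesL L, ∃ (l : List V) (a b : V), l ∈ L ∧ 3 ≤ l.length ∧ (∃ Q, l = a :: Q) ∧
      (∃ Q, l = Q ++ [b]) ∧ e = s(a, b) := by
  intro e
  induction e using Sym2.ind with
  | _ a b =>
    intro he
    rw [Finset.mem_sdiff] at he
    obtain ⟨he, hn⟩ := he
    have hab : a ≠ b := by
      intro h
      exact hdiag _ he (Sym2.mk_isDiag_iff.2 h)
    have he' : s(b, a) ∈ E := by rw [Sym2.eq_swap]; exact he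
    have hn' : s(b, a) ∉ edgesL L := by rw [Sym2.eq_swap]; exact hn
    obtain ⟨la, hla, haa⟩ := List.mem_flatten.1 (hL.covers a)
    obtain ⟨lb, hlb, hbb⟩ := List.mem_flatten.1 (hL.covers b)
    have ha : (∃ Q, la = a :: Q) ∨ ∃ Q, la = Q ++ [a] := by
      rcases end_or_mid haa with h | ⟨Q₁, Q₂, z, z', h⟩
      · exact h
      · exact (not_mid hdeg hL hE he hn hla h).elim
    have hb : (∃ Q, lb = b :: Q) ∨ ∃ Q, lb = Q ++ [b] := by
      rcases end_or_mid hbb with h | ⟨Q₁, Q₂, z, z', h⟩
      · exact h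
      · exact (not_mid hdeg hL hE he' hn' hlb h).elim
    have hl : la = lb := by
      by_contra hne
      obtain ⟨L', h1, h2, h3⟩ := join hL hE he hla hlb hne ha hb
      have := hmin L' ⟨h1, h2⟩
      omega
    subst hl
    rcases ha with ⟨Q, ha⟩ | ⟨Q, ha⟩
    · rcases hb with ⟨Q', hb⟩ | ⟨Q', hb⟩
      · exfalso
        rw [ha] at hb
        exact hab (List.cons.inj hb).1
      · exact ⟨la, a, b, hla, three_le hab ha hb fun h => hn (mem_edgesL hla h), ⟨Q, ha⟩,
          ⟨Q', hb⟩, rfl⟩
    · rcases hb with ⟨Q', hb⟩ | ⟨Q', hb⟩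
      · exact ⟨la, b, a, hla, three_le hab.symm hb ha fun h => hn' (mem_edgesL hla h), ⟨Q', hb⟩,
          ⟨Q, ha⟩, Sym2.eq_swap⟩
      · exfalso
        rw [ha] at hb
        have h3 := congrArg List.getLast? hb
        simp only [List.getLast?_append, List.getLast?_singleton, Option.some_or] at h3
        exact hab (by simpa using h3)

theorem exists_cover (V : Type) [Fintype V] [DecidableEq V] (E : Finset (Sym2 V)) :
    ∃ L : List (List V), IsCover L ∧ edgesL L ⊆ E := by
  have hflat : ∀ M : List V, (M.map fun v => [v]).flatten = M := by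
    intro M
    induction M with
    | nil => rfl
    | cons a M ih => simp only [List.map_cons, List.flatten_cons, ih, List.singleton_append]
  refine ⟨(univ : Finset V).toList.map fun v => [v], ⟨?_, ?_, ?_⟩, ?_⟩
  · intro l hl
    obtain ⟨v, _, rfl⟩ := List.mem_map.1 hl
    simp
  · rw [hflat]
    exact Finset.nodup_toList _
  · intro v
    rw [hflat]
    exact Finset.mem_toList.2 (Finset.mem_univ v)
  · intro e he
    simp only [edgesL, List.mem_toFinset, List.mem_flatMap] at he
    obtain ⟨l, hl, he⟩ := he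
    obtain ⟨v, _, rfl⟩ := List.mem_map.1 hl
    simp [links] at he

end G7

open G7 in
/-- **G7, graphs of maximum degree two are almost path covers.** -/
theorem cyclePack : CyclePack := by
  intro V _ _ E g₀ hg hdiag hdeg
  classical
  obtain ⟨L, ⟨hc, hE⟩, hmin⟩ : ∃ L : List (List V), (IsCover L ∧ edgesL L ⊆ E) ∧
      ∀ L', IsCover L' ∧ edgesL L' ⊆ E → L.length ≤ L'.length := by
    have hne : ∃ n, ∃ L : List (List V), (IsCover L ∧ edgesL L ⊆ E) ∧ L.length = n := by
      obtain ⟨L, hL⟩ := exists_cover V E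
      exact ⟨_, L, hL, rfl⟩
    obtain ⟨L, h, hlen⟩ := Nat.find_spec hne
    refine ⟨L, h, fun L' h' => ?_⟩
    rw [hlen]
    exact Nat.find_min' hne ⟨L', h', rfl⟩
  refine ⟨L, hc, hE, ?_⟩
  rcases isEmpty_or_nonempty V with hV | hV
  · have h0 : E \ edgesL L = ∅ := by
      refine Finset.eq_empty_of_forall_notMem fun e => ?_
      induction e using Sym2.ind with
      | _ a b => exact hV.elim a
    rw [h0, Finset.card_empty, Nat.cast_zero]
    positivity
  have hkey := key hdiag hdeg hc hE hmin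
  choose! φ a b hφ h3 hhead hlast hab using hkey
  have hinj : ∀ e ∈ E \ edgesL L, ∀ e' ∈ E \ edgesL L, φ e = φ e' → e = e' := by
    intro e he e' he' h
    rw [hab e he, hab e' he']
    obtain ⟨Q, hQ⟩ := hhead e he
    obtain ⟨Q', hQ'⟩ := hhead e' he'
    obtain ⟨M, hM⟩ := hlast e he
    obtain ⟨M', hM'⟩ := hlast e' he'
    have e1 : a e = a e' := by
      rw [h, hQ'] at hQ
      exact (List.cons.inj hQ).1.symm
    have e2 : b e = b e' := by
      rw [h, hM'] at hM
      have h3 := congrArg List.getLast? hM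
      simp only [List.getLast?_append, List.getLast?_singleton, Option.some_or] at h3
      exact (by simpa using h3 : b e' = b e).symm
    rw [e1, e2]
  have hdisj : ∀ e ∈ E \ edgesL L, ∀ e' ∈ E \ edgesL L, e ≠ e' → ∀ v, v ∈ φ e → v ∉ φ e' := by
    intro e he e' he' hne v hv hv'
    exact hne (hinj e he e' he' (eq_of_mem hc.nodup (hφ e he) (hφ e' he') hv hv'))
  -- the long lists
  have hF1 : #((E \ edgesL L).filter fun e => g₀ ≤ (φ e).length) * g₀ ≤ Fintype.card V := by
    calc #((E \ edgesL L).filter fun e => g₀ ≤ (φ e).length) * g₀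
        = ∑ _e ∈ (E \ edgesL L).filter (fun e => g₀ ≤ (φ e).length), g₀ := by
          rw [Finset.sum_const, smul_eq_mul]
      _ ≤ ∑ e ∈ (E \ edgesL L).filter (fun e => g₀ ≤ (φ e).length), #(φ e).toFinset := by
          refine Finset.sum_le_sum fun e he => ?_
          rw [Finset.mem_filter] at he
          rw [List.toFinset_card_of_nodup (nodup_of_mem hc.nodup (hφ e he.1))]
          exact he.2
      _ = #(((E \ edgesL L).filter (fun e => g₀ ≤ (φ e).length)).biUnion
            fun e => (φ e).toFinset) := by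
          rw [Finset.card_biUnion]
          intro e he e' he' hne
          rw [Finset.mem_coe, Finset.mem_filter] at he he'
          rw [Function.onFun, Finset.disjoint_left]
          intro v hv hv'
          rw [List.mem_toFinset] at hv hv'
          exact hdisj e he.1 e' he'.1 hne v hv hv'
      _ ≤ Fintype.card V := Finset.card_le_univ _
  -- the short lists
  have hF2 : #((E \ edgesL L).filter fun e => ¬ g₀ ≤ (φ e).length) ≤ nsc E g₀ := by
    unfold nsc
    refine Finset.card_le_card_of_injOn a ?_ ?_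
    · intro e he
      rw [Finset.mem_coe, Finset.mem_filter] at he
      rw [Finset.mem_coe, Finset.mem_filter]
      refine ⟨Finset.mem_univ _, φ e, nodup_of_mem hc.nodup (hφ e he.1), h3 e he.1, by omega, ?_, ?_⟩
      · obtain ⟨Q, hQ⟩ := hhead e he.1
        rw [hQ]
        rfl
      · obtain ⟨Q, hQ⟩ := hhead e he.1
        obtain ⟨M, hM⟩ := hlast e he.1
        have h1 : (φ e) ++ (φ e).take 1 = M ++ b e :: a e :: [] := by
          have h2 : (φ e).take 1 = [a e] := by rw [hQ]; rfl
          rw [h2, hM]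
          simp
        intro e' he'
        rw [h1, B1.links_cut, ← hM] at he'
        rcases List.mem_append.1 he' with h | h
        · exact hE (mem_edgesL (hφ e he.1) h)
        · simp only [links, List.mem_cons, List.not_mem_nil, or_false] at h
          rw [h, Sym2.eq_swap, ← hab e he.1]
          exact (Finset.mem_sdiff.1 he.1).1
    · intro e he e' he' h
      rw [Finset.mem_coe, Finset.mem_filter] at he he'
      by_contra hne
      obtain ⟨Q, hQ⟩ := hhead e he.1
      obtain ⟨Q', hQ'⟩ := hhead e' he'.1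
      refine hdisj e he.1 e' he'.1 hne (a e) ?_ ?_
      · rw [hQ]
        exact List.mem_cons_self
      · rw [hQ', h]
        exact List.mem_cons_self
  have hsum := Finset.card_filter_add_card_filter_not (s := E \ edgesL L)
    (fun e => g₀ ≤ (φ e).length)
  have hg0 : (0 : ℝ) < g₀ := by exact_mod_cast hg
  have h1 : (#((E \ edgesL L).filter fun e => g₀ ≤ (φ e).length) : ℝ) ≤
      (Fintype.card V : ℝ) / g₀ := by
    rw [le_div_iff₀ hg0]
    exact_mod_cast hF1
  have h2 : (#((E \ edgesL L).filter fun e => ¬ g₀ ≤ (φ e).length) : ℝ) ≤ nsc E g₀ := by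
    exact_mod_cast hF2
  rw [← hsum, Nat.cast_add]
  linarith

end MP329
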