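import Pool.Agent.Lib.MP_329b4d_pr.SpecG
import Pool.Agent.Lib.MP_329b4d_pr.B1Lists

/-!
# MP_329b4d_pr, G8: rounding a good optimal solution of the linear program
-/

set_option autoImplicit false

namespace MP329

open Finset

namespace G8

variable {V : Type}

/-- Every second link of a list, starting with the first one (`true`) or the second one. -/
def alt : Bool → List V → List (Sym2 V)
  | _, [] => []
  | _, [_] => []
  | true, a :: b :: l => s(a, b) :: alt false (b :: l)
  | false, _ :: b :: l => alt true (b :: l)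

theorem links_cons (a b : V) (l : List V) : links (a :: b :: l) = s(a, b) :: links (b :: l) := rfl

theorem alt_sublist (l : List V) : ∀ c : Bool, (alt c l).Sublist (links l) := by
  induction l with
  | nil =>
    intro c
    cases c <;> simp [alt, links]
  | cons a l ih =>
    cases l with
    | nil =>
      intro c
      cases c <;> simp [alt, links]
    | cons b l =>
      intro c
      cases c with
      | true =>
        rw [links_cons]
        unfold alt
        exact (ih false).cons₂ _
      | false =>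
        rw [links_cons]
        unfold alt
        exact (ih true).cons _

theorem alt_false_tail {a i j : V} {l : List V} (h : s(i, j) ∈ alt false (a :: l)) : i ∈ l := by
  cases l with
  | nil => simp [alt] at h
  | cons b l =>
    unfold alt at h
    exact (B1.mem_of_mem_links ((alt_sublist (b :: l) true).subset h)).1

theorem alt_unique (l : List V) (hl : l.Nodup) : ∀ (c : Bool) (i j k : V),
    s(i, j) ∈ alt c l → s(i, k) ∈ alt c l → j = k := by
  induction l with
  | nil =>
    intro c i j k h
    cases c <;> simp [alt] at h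
  | cons a l ih =>
    cases l with
    | nil =>
      intro c i j k h
      cases c <;> simp [alt] at h
    | cons b l =>
      intro c i j k h h'
      have hn := List.nodup_cons.1 hl
      cases c with
      | false =>
        unfold alt at h h'
        exact ih hn.2 true i j k h h'
      | true =>
        unfold alt at h h'
        rw [List.mem_cons] at h h'
        have hn2 := List.nodup_cons.1 hn.2
        have key : ∀ m n : V, s(i, m) = s(a, b) → s(i, n) ∈ alt false (b :: l) → False := by
          intro m n h1 h2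
          have h3 := alt_false_tail h2
          rw [Sym2.eq_iff] at h1
          rcases h1 with ⟨h4, _⟩ | ⟨h4, _⟩
          · rw [h4] at h3
            exact hn.1 (List.mem_cons_of_mem _ h3)
          · rw [h4] at h3
            exact hn2.1 h3
        rcases h with h | h
        · rcases h' with h' | h'
          · exact Sym2.congr_right.1 (h.trans h'.symm)
          · exact (key _ _ h h').elim
        · rcases h' with h' | h'
          · exact (key _ _ h' h).elim
          · exact ih hn.2 false i j k h h'

theorem alt_sum {F : Sym2 V → Prop} {w x : Sym2 V → ℝ}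
    (hP : ∀ a b c, a ≠ c → F s(a, b) → F s(b, c) → x s(a, b) + x s(b, c) = 1) (l : List V)
    (hl : l.Nodup) (hF : ∀ e ∈ links l, F e) : ∀ t : ℝ,
    (∀ a b l', l = a :: b :: l' → x s(a, b) = t) →
    ((links l).map (fun e => w e * x e)).sum =
      t * ((alt true l).map w).sum + (1 - t) * ((alt false l).map w).sum := by
  induction l with
  | nil =>
    intro t _
    simp [alt, links]
  | cons a l ih =>
    cases l with
    | nil =>
      intro t _
      simp [alt, links]
    | cons b l =>
      intro t ht
      have hn := List.nodup_cons.1 hl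
      rw [links_cons] at hF
      have h1 := ih hn.2 (fun e he => hF e (List.mem_cons_of_mem _ he)) (1 - t) (by
        intro b' c l' h
        rw [List.cons.injEq] at h
        obtain ⟨rfl, rfl⟩ := h
        have h2 : a ≠ c := by
          rintro rfl
          exact hn.1 (by simp)
        have h3 := hP a b c h2 (hF _ List.mem_cons_self)
          (hF _ (List.mem_cons_of_mem _ (by rw [links_cons]; exact List.mem_cons_self)))
        have h4 := ht a b (c :: l') rfl
        linarith)
      have h5 := ht a b l rfl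
      have e1 : alt true (a :: b :: l) = s(a, b) :: alt false (b :: l) := by
        conv_lhs => unfold alt
      have e2 : alt false (a :: b :: l) = alt true (b :: l) := by
        conv_lhs => unfold alt
      rw [links_cons, e1, e2, List.map_cons, List.map_cons, List.sum_cons, List.sum_cons, h1, h5]
      ring

theorem alt_choice {F : Sym2 V → Prop} {w x : Sym2 V → ℝ}
    (hP : ∀ a b c, a ≠ c → F s(a, b) → F s(b, c) → x s(a, b) + x s(b, c) = 1)
    (hx : ∀ e, F e → 0 ≤ x e ∧ x e ≤ 1) (l : List V)
    (hl : l.Nodup) (hF : ∀ e ∈ links l, F e) : ∃ c : Bool,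
    ((links l).map (fun e => w e * x e)).sum ≤ ((alt c l).map w).sum := by
  obtain ⟨t, ht0, ht1, ht⟩ : ∃ t : ℝ, 0 ≤ t ∧ t ≤ 1 ∧ ∀ a b l', l = a :: b :: l' →
      x s(a, b) = t := by
    rcases l with _ | ⟨a, _ | ⟨b, l⟩⟩
    · exact ⟨0, le_rfl, zero_le_one, by intro a b l' h; simp at h⟩
    · exact ⟨0, le_rfl, zero_le_one, by intro a b l' h; simp at h⟩
    · have h1 := hx s(a, b) (hF _ (by rw [links_cons]; exact List.mem_cons_self))
      refine ⟨x s(a, b), h1.1, h1.2, ?_⟩
      intro a' b' l' h
      rw [List.cons.injEq, List.cons.injEq] at h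
      rw [h.1, h.2.1]
  have h1 := alt_sum (w := w) hP l hl hF t ht
  rcases le_total ((alt true l).map w).sum ((alt false l).map w).sum with h2 | h2
  · refine ⟨false, ?_⟩
    rw [h1]
    nlinarith
  · refine ⟨true, ?_⟩
    rw [h1]
    nlinarith

theorem flat_sublist (c : List V → Bool) (L : List (List V)) :
    (L.flatMap fun l => alt (c l) l).Sublist (L.flatMap links) := by
  induction L with
  | nil => simp
  | cons l L ih =>
    rw [List.flatMap_cons, List.flatMap_cons]
    exact (alt_sublist l (c l)).append ih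

theorem flat_sum {w x : Sym2 V → ℝ} (c : List V → Bool) (L : List (List V))
    (h : ∀ l ∈ L, ((links l).map (fun e => w e * x e)).sum ≤ ((alt (c l) l).map w).sum) :
    ((L.flatMap links).map (fun e => w e * x e)).sum ≤
      ((L.flatMap fun l => alt (c l) l).map w).sum := by
  induction L with
  | nil => simp
  | cons l L ih =>
    rw [List.flatMap_cons, List.flatMap_cons, List.map_append, List.map_append, List.sum_append,
      List.sum_append]
    exact add_le_add (h l List.mem_cons_self) (ih fun l' hl' => h l' (List.mem_cons_of_mem _ hl'))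

theorem uniq {L : List (List V)} (hL : IsCover L) {l l' : List V} {v : V} (h : l ∈ L) (h' : l' ∈ L)
    (hv : v ∈ l) (hv' : v ∈ l') : l = l' := by
  have h1 := (List.nodup_flatten.1 hL.nodup).2
  by_contra hne
  have : Std.Symm (List.Disjoint (α := V)) := ⟨fun _ _ h => h.symm⟩
  exact h1.forall h h' hne hv hv'

/-- The matching chosen from the alternating paths. -/
theorem exists_matching [DecidableEq V] {F : Sym2 V → Prop} {w x : Sym2 V → ℝ}
    (hP : ∀ a b c, a ≠ c → F s(a, b) → F s(b, c) → x s(a, b) + x s(b, c) = 1)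
    (hx : ∀ e, F e → 0 ≤ x e ∧ x e ≤ 1) (L : List (List V))
    (hL : IsCover L) (hF : ∀ e ∈ edgesL L, F e) :
    ∃ M : Finset (Sym2 V), M ⊆ edgesL L ∧ (∀ i j k, s(i, j) ∈ M → s(i, k) ∈ M → j = k) ∧
      ∑ e ∈ edgesL L, w e * x e ≤ ∑ e ∈ M, w e := by
  have hmem : ∀ l ∈ L, ∀ e ∈ links l, F e := by
    intro l hl e he
    apply hF
    unfold edgesL
    rw [List.mem_toFinset]
    exact List.mem_flatMap.2 ⟨l, hl, he⟩
  have hnd : ∀ l ∈ L, l.Nodup := (List.nodup_flatten.1 hL.nodup).1
  have hc : ∀ l : List V, ∃ c : Bool, l ∈ L →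
      ((links l).map (fun e => w e * x e)).sum ≤ ((alt c l).map w).sum := by
    intro l
    by_cases hl : l ∈ L
    · obtain ⟨c, hc⟩ := alt_choice (w := w) hP hx l (hnd l hl) (hmem l hl)
      exact ⟨c, fun _ => hc⟩
    · exact ⟨true, fun h => (hl h).elim⟩
  choose c hc using hc
  have hndl : (L.flatMap links).Nodup := B1.flatMap_links_nodup L hL.nodup
  have hsub := flat_sublist c L
  have hnda : (L.flatMap fun l => alt (c l) l).Nodup := hndl.sublist hsub
  refine ⟨(L.flatMap fun l => alt (c l) l).toFinset, ?_, ?_, ?_⟩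
  · intro e he
    unfold edgesL
    rw [List.mem_toFinset] at he ⊢
    exact hsub.subset he
  · intro i j k h h'
    rw [List.mem_toFinset, List.mem_flatMap] at h h'
    obtain ⟨l, hl, h⟩ := h
    obtain ⟨l', hl', h'⟩ := h'
    have h1 := (B1.mem_of_mem_links ((alt_sublist l (c l)).subset h)).1
    have h2 := (B1.mem_of_mem_links ((alt_sublist l' (c l')).subset h')).1
    have h3 := uniq hL hl hl' h1 h2
    subst h3
    exact alt_unique l (hnd l hl) (c l) i j k h h'
  · unfold edgesL
    rw [List.sum_toFinset _ hndl, List.sum_toFinset _ hnda]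
    exact flat_sum c L hc

theorem wm_bounds (q : ℕ) (m : Option (Fin q)) : 0 ≤ wm q m ∧ wm q m ≤ 1 := by
  cases m with
  | none => exact ⟨le_rfl, zero_le_one⟩
  | some m =>
    unfold wm
    have h1 : (0 : ℝ) < q := by
      have := m.2
      exact_mod_cast (by omega : 0 < q)
    have h2 : ((m : ℕ) : ℝ) ≤ q := by exact_mod_cast m.2.le
    have h3 : ((m : ℕ) : ℝ) / q ≤ 1 := (div_le_one h1).2 h2
    have h4 : 0 ≤ ((m : ℕ) : ℝ) / q := by positivity
    constructor <;> linarith

theorem nsc_mono [Fintype V] {E E' : Finset (Sym2 V)} (h : E ⊆ E') (g₀ : ℕ) :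
    nsc E g₀ ≤ nsc E' g₀ := by
  classical
  unfold nsc
  refine card_le_card fun v hv => ?_
  obtain ⟨l, h1, h2, h3, h4, h5⟩ := (Finset.mem_filter.1 hv).2
  exact Finset.mem_filter.2 ⟨mem_univ _, l, h1, h2, h3, h4, fun e he => h (h5 e he)⟩

end G8

open G8 in
theorem rounding (h1 : LPBasic) (h2 : LPMin) (h3 : CyclePack) : Rounding := by
  intro V _ _ q g g₀ hg₀ hloop
  obtain ⟨x, hx, hopt, hfrac⟩ := h2 V q g hloop
  have hxd : ∀ i, x s(i, i) = 0 := fun i => hx.supp _ (hloop i)
  obtain ⟨Mf, memf, hMf⟩ : ∃ Mf : Finset (Sym2 V), (∀ e, e ∈ Mf ↔ 0 < x e ∧ x e < 1) ∧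
      Mf = univ.filter fun e => 0 < x e ∧ x e < 1 :=
    ⟨univ.filter fun e => 0 < x e ∧ x e < 1, fun e => by rw [mem_filter]; simp, rfl⟩
  obtain ⟨M₁, mem1, hM₁⟩ : ∃ M₁ : Finset (Sym2 V), (∀ e, e ∈ M₁ ↔ x e = 1) ∧
      M₁ = univ.filter fun e => x e = 1 :=
    ⟨univ.filter fun e => x e = 1, fun e => by rw [mem_filter]; simp, rfl⟩
  have hMfG : Mf ⊆ gEdges g := by
    intro e he
    unfold gEdges
    rw [mem_filter]
    refine ⟨mem_univ _, fun h => ?_⟩
    have := hx.supp e h
    have := ((memf e).1 he).1
    linarith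
  have hM₁G : M₁ ⊆ gEdges g := by
    intro e he
    unfold gEdges
    rw [mem_filter]
    refine ⟨mem_univ _, fun h => ?_⟩
    have h5 := hx.supp e h
    have h6 := (mem1 e).1 he
    linarith
  have hdiag : ∀ e, x e ≠ 0 → ¬ e.IsDiag := by
    intro e
    induction e using Sym2.ind with
    | _ a b =>
      intro h hd
      rw [Sym2.mk_isDiag_iff] at hd
      subst hd
      exact h (hxd a)
  -- the row formula
  have hrow : ∀ i, ∑ j, x s(i, j) = (#(univ.filter fun j => s(i, j) ∈ M₁) : ℝ) +
      ∑ j ∈ univ.filter (fun j => s(i, j) ∈ Mf), x s(i, j) := by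
    intro i
    rw [Finset.card_filter, Finset.sum_filter]
    push_cast
    rw [← Finset.sum_add_distrib]
    refine Finset.sum_congr rfl fun j _ => ?_
    have hn := hx.nonneg s(i, j)
    have hl := hx.le_one s(i, j)
    by_cases hc : s(i, j) ∈ M₁
    · have h5 := (mem1 _).1 hc
      have h6 : s(i, j) ∉ Mf := fun h => by
        have := ((memf _).1 h).2
        linarith
      rw [if_pos hc, if_neg h6, h5, add_zero]
    · rw [if_neg hc, zero_add]
      by_cases hd : s(i, j) ∈ Mf
      · rw [if_pos hd]
      · rw [if_neg hd]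
        rw [mem1] at hc
        rw [memf] at hd
        push Not at hd
        rcases hn.lt_or_eq with h7 | h7
        · exact (hc (le_antisymm hl (hd h7))).elim
        · exact h7.symm
  -- vertices with a fractional edge
  have hfr : ∀ i j, s(i, j) ∈ Mf → #(univ.filter fun j => s(i, j) ∈ Mf) = 2 ∧
      ∑ j, x s(i, j) = 2 := by
    intro i j hij
    have h5 := hfrac i ⟨j, (memf _).1 hij⟩
    refine ⟨?_, h5.2⟩
    rw [← h5.1]
    congr 1
    ext k
    rw [mem_filter, mem_filter, memf]
  have hfr2 : ∀ i, (∃ j, s(i, j) ∈ Mf) → (#(univ.filter fun j => s(i, j) ∈ M₁)) = 1 ∧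
      ∑ j ∈ univ.filter (fun j => s(i, j) ∈ Mf), x s(i, j) = 1 := by
    rintro i ⟨j, hij⟩
    obtain ⟨h5, h6⟩ := hfr i j hij
    have h7 := hrow i
    obtain ⟨a, b, hab, hS⟩ := Finset.card_eq_two.1 h5
    have ha : s(i, a) ∈ Mf := by
      have : a ∈ univ.filter fun j => s(i, j) ∈ Mf := by rw [hS]; simp
      exact (mem_filter.1 this).2
    have hb : s(i, b) ∈ Mf := by
      have : b ∈ univ.filter fun j => s(i, j) ∈ Mf := by rw [hS]; simp
      exact (mem_filter.1 this).2
    rw [hS, Finset.sum_pair hab, h6] at h7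
    rw [hS, Finset.sum_pair hab]
    have h8 := (memf _).1 ha
    have h9 := (memf _).1 hb
    have h10 : (#(univ.filter fun j => s(i, j) ∈ M₁) : ℝ) < 2 := by linarith
    have h11 : (0 : ℝ) < (#(univ.filter fun j => s(i, j) ∈ M₁) : ℝ) := by linarith
    have h12 : #(univ.filter fun j => s(i, j) ∈ M₁) < 2 := by exact_mod_cast h10
    have h13 : 0 < #(univ.filter fun j => s(i, j) ∈ M₁) := by exact_mod_cast h11
    have h14 : #(univ.filter fun j => s(i, j) ∈ M₁) = 1 := by omega
    refine ⟨h14, ?_⟩
    rw [h14] at h7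
    push_cast at h7
    linarith
  have hP : ∀ a b c, a ≠ c → s(a, b) ∈ Mf → s(b, c) ∈ Mf → x s(a, b) + x s(b, c) = 1 := by
    intro a b c hac hab hbc
    have hba : s(b, a) ∈ Mf := by rw [Sym2.eq_swap]; exact hab
    obtain ⟨h5, _⟩ := hfr b a hba
    obtain ⟨_, h6⟩ := hfr2 b ⟨a, hba⟩
    have h7 : univ.filter (fun j => s(b, j) ∈ Mf) = {a, c} := by
      symm
      apply Finset.eq_of_subset_of_card_le
      · intro j hj
        rw [mem_insert, mem_singleton] at hj
        rw [mem_filter]
        rcases hj with rfl | rfl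
        · exact ⟨mem_univ _, hba⟩
        · exact ⟨mem_univ _, hbc⟩
      · rw [h5, Finset.card_pair hac]
    rw [h7, Finset.sum_pair hac] at h6
    rw [Sym2.eq_swap (a := a)]
    exact h6
  -- first application
  obtain ⟨L₁, hL₁, hsub₁, hcard₁⟩ := h3 V Mf g₀ hg₀
    (fun e he => hdiag e (by have := ((memf e).1 he).1; exact this.ne'))
    (fun i => by
      by_cases hi : ∃ j, s(i, j) ∈ Mf
      · obtain ⟨j, hj⟩ := hi
        exact (hfr i j hj).1.le
      · push Not at hi
        have : univ.filter (fun j => s(i, j) ∈ Mf) = ∅ := by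
          rw [Finset.filter_eq_empty_iff]
          intro j _
          exact hi j
        rw [this]
        simp)
  obtain ⟨M', hM'sub, hM'uniq, hM'sum⟩ := exists_matching (F := fun e => e ∈ Mf)
    (w := fun e => wm q (g e)) (x := x) hP
    (fun e he => ⟨((memf e).1 he).1.le, ((memf e).1 he).2.le⟩) L₁ hL₁ (fun e he => hsub₁ he)
  have hM'f : M' ⊆ Mf := hM'sub.trans hsub₁
  have hdisj : Disjoint M₁ M' := by
    rw [Finset.disjoint_left]
    intro e h5 h6
    have h7 := (mem1 e).1 h5
    have h8 := ((memf e).1 (hM'f h6)).2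
    linarith
  -- second application
  obtain ⟨L, hL, hsub, hcard⟩ := h3 V (M₁ ∪ M') g₀ hg₀
    (fun e he => hdiag e (by
      rcases mem_union.1 he with h | h
      · rw [(mem1 e).1 h]; norm_num
      · have := ((memf e).1 (hM'f h)).1; exact this.ne'))
    (fun i => by
      have h5 : #(univ.filter fun j => s(i, j) ∈ M₁ ∪ M') ≤
          #(univ.filter fun j => s(i, j) ∈ M₁) + #(univ.filter fun j => s(i, j) ∈ M') := by
        refine (card_le_card ?_).trans (card_union_le _ _)
        intro j hj
        rw [mem_filter, mem_union] at hj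
        rw [mem_union, mem_filter, mem_filter]
        rcases hj.2 with h | h
        · exact Or.inl ⟨mem_univ _, h⟩
        · exact Or.inr ⟨mem_univ _, h⟩
      have h6 : #(univ.filter fun j => s(i, j) ∈ M') ≤ 1 := by
        rw [Finset.card_le_one]
        intro j hj k hk
        exact hM'uniq i j k (mem_filter.1 hj).2 (mem_filter.1 hk).2
      by_cases hi : ∃ j, s(i, j) ∈ Mf
      · have := (hfr2 i hi).1
        omega
      · push Not at hi
        have h7 : univ.filter (fun j => s(i, j) ∈ M') = ∅ := by
          rw [Finset.filter_eq_empty_iff]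
          intro j _ h
          exact hi j (hM'f h)
        have h8 : univ.filter (fun j => s(i, j) ∈ Mf) = ∅ := by
          rw [Finset.filter_eq_empty_iff]
          intro j _
          exact hi j
        have h9 := hrow i
        rw [h8, Finset.sum_empty, add_zero] at h9
        have h10 := hx.row i
        rw [h9] at h10
        have h11 : #(univ.filter fun j => s(i, j) ∈ M₁) ≤ 2 := by exact_mod_cast h10
        rw [h7, Finset.card_empty] at h5
        omega)
  have hHG : M₁ ∪ M' ⊆ gEdges g := union_subset hM₁G (hM'f.trans hMfG)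
  refine ⟨L, hL, hsub.trans hHG, ?_⟩
  have hw : ∀ e, 0 ≤ wm q (g e) ∧ wm q (g e) ≤ 1 := fun e => wm_bounds q (g e)
  -- sums
  have hW : W g = ∑ e ∈ M₁, wm q (g e) + ∑ e ∈ Mf, wm q (g e) * x e := by
    rw [← hopt, h1.obj_eq V q g x hloop, hM₁, hMf, Finset.sum_filter, Finset.sum_filter,
      ← Finset.sum_add_distrib]
    refine Finset.sum_congr rfl fun e _ => ?_
    have hn := hx.nonneg e
    have hl := hx.le_one e
    by_cases hc : x e = 1
    · have h6 : ¬ (0 < x e ∧ x e < 1) := fun h => by linarith [h.2]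
      rw [if_pos hc, if_neg h6, hc, mul_one, add_zero]
    · rw [if_neg hc, zero_add]
      by_cases hd : 0 < x e ∧ x e < 1
      · rw [if_pos hd]
      · rw [if_neg hd]
        push Not at hd
        rcases hn.lt_or_eq with h7 | h7
        · exact (hc (le_antisymm hl (hd h7))).elim
        · rw [← h7, mul_zero]
  have hA : ∑ e ∈ Mf, wm q (g e) * x e ≤ ∑ e ∈ edgesL L₁, wm q (g e) * x e +
      #(Mf \ edgesL L₁) := by
    rw [← Finset.sum_sdiff hsub₁, add_comm]
    have h5 : ∑ e ∈ Mf \ edgesL L₁, wm q (g e) * x e ≤ ∑ e ∈ Mf \ edgesL L₁, (1 : ℝ) := by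
      refine Finset.sum_le_sum fun e _ => ?_
      have := hw e
      have h6 := hx.nonneg e
      have h7 := hx.le_one e
      nlinarith
    rw [Finset.sum_const, nsmul_eq_mul, mul_one] at h5
    linarith
  have hB : ∑ e ∈ M₁ ∪ M', wm q (g e) ≤ ∑ e ∈ edgesL L, wm q (g e) +
      #((M₁ ∪ M') \ edgesL L) := by
    rw [← Finset.sum_sdiff hsub, add_comm]
    have h5 : ∑ e ∈ (M₁ ∪ M') \ edgesL L, wm q (g e) ≤ ∑ e ∈ (M₁ ∪ M') \ edgesL L, (1 : ℝ) :=
      Finset.sum_le_sum fun e _ => (hw e).2
    rw [Finset.sum_const, nsmul_eq_mul, mul_one] at h5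
    linarith
  rw [Finset.sum_union hdisj] at hB
  have hn1 : (nsc Mf g₀ : ℝ) ≤ nsc (gEdges g) g₀ := by exact_mod_cast nsc_mono hMfG g₀
  have hn2 : (nsc (M₁ ∪ M') g₀ : ℝ) ≤ nsc (gEdges g) g₀ := by exact_mod_cast nsc_mono hHG g₀
  rw [hW]
  linarith

end MP329
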