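import Pool.Agent.Lib.MP_329b4d_pr.SpecG
import Pool.Agent.Lib.MP_329b4d_pr.B1Lists
import Pool.Agent.Lib.MP_329b4d_pr.B2Tour

set_option autoImplicit false

/-!
# MP_329b4d_pr: from the linear program to a cheap path cover, and the lower bound for tours
-/

namespace MP329

open Finset

namespace G9

variable {V : Type} [DecidableEq V] {d : ℕ}

omit [DecidableEq V] in
theorem len_nonneg (X : V → Pt d) (e : Sym2 V) : 0 ≤ len X e := by
  induction e using Sym2.ind with
  | _ a b => exact (dist_nonneg : 0 ≤ dist (X a) (X b))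

theorem geo_diag (q : ℕ) (R : ℝ) (X : V → Pt d) (S : Finset (Sym2 V)) (i : V) :
    geo q R X S s(i, i) = none := by
  unfold geo
  rw [if_neg]
  rintro ⟨-, h⟩
  exact h (Sym2.mk_isDiag_iff.2 rfl)

theorem geo_ne_none {q : ℕ} {R : ℝ} {X : V → Pt d} {S : Finset (Sym2 V)} {e : Sym2 V}
    (hq : 1 ≤ q) (hR : 0 < R) (h : geo q R X S e ≠ none) :
    e ∈ S ∧ 1 - len X e / R ≤ wm q (geo q R X S e) ∧
      len X e ≤ R * (1 - wm q (geo q R X S e) + 1 / q) := by
  have hq0 : (0 : ℝ) < q := by exact_mod_cast hq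
  by_cases he : e ∈ S ∧ ¬ e.IsDiag
  · have h1 : geo q R X S e = markOf q (len X e / R) := if_pos he
    refine ⟨he.1, ?_⟩
    by_cases hm : ⌊(q : ℝ) * (len X e / R)⌋₊ < q
    · have h2 : markOf q (len X e / R) = some ⟨⌊(q : ℝ) * (len X e / R)⌋₊, hm⟩ := dif_pos hm
      rw [h1, h2]
      have h3 : wm q (some (⟨⌊(q : ℝ) * (len X e / R)⌋₊, hm⟩ : Fin q)) =
          1 - (⌊(q : ℝ) * (len X e / R)⌋₊ : ℝ) / q := rfl
      rw [h3]
      have hl := len_nonneg X e
      have h4 : (⌊(q : ℝ) * (len X e / R)⌋₊ : ℝ) ≤ q * (len X e / R) :=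
        Nat.floor_le (by positivity)
      have h5 : (q : ℝ) * (len X e / R) < ⌊(q : ℝ) * (len X e / R)⌋₊ + 1 := Nat.lt_floor_add_one _
      constructor
      · have : (⌊(q : ℝ) * (len X e / R)⌋₊ : ℝ) / q ≤ len X e / R := by
          rw [div_le_iff₀ hq0]
          linarith [mul_comm (q : ℝ) (len X e / R)]
        linarith
      · have e1 : R * (1 - (1 - (⌊(q : ℝ) * (len X e / R)⌋₊ : ℝ) / q) + 1 / q) =
            R * ((⌊(q : ℝ) * (len X e / R)⌋₊ + 1) / q) := by ring
        rw [e1]
        have e2 : len X e = R * (q * (len X e / R) / q) := by field_simp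
        calc len X e = R * (q * (len X e / R) / q) := e2
          _ ≤ R * ((⌊(q : ℝ) * (len X e / R)⌋₊ + 1) / q) := by gcongr
    · exfalso
      apply h
      rw [h1]
      exact dif_neg hm
  · exfalso
    exact h (if_neg he)

theorem geo_eq_none {q : ℕ} {R : ℝ} {X : V → Pt d} {S : Finset (Sym2 V)} {e : Sym2 V}
    (hq : 1 ≤ q) (hR : 0 < R) (heS : e ∈ S) (hd : ¬ e.IsDiag) (h : geo q R X S e = none) :
    R ≤ len X e := by
  have hq0 : (0 : ℝ) < q := by exact_mod_cast hq
  have h1 : geo q R X S e = markOf q (len X e / R) := if_pos ⟨heS, hd⟩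
  rw [h1] at h
  by_cases hm : ⌊(q : ℝ) * (len X e / R)⌋₊ < q
  · have h2 : markOf q (len X e / R) = some ⟨⌊(q : ℝ) * (len X e / R)⌋₊, hm⟩ := dif_pos hm
    rw [h2] at h
    exact absurd h (by simp)
  · have hl := len_nonneg X e
    have h4 : (⌊(q : ℝ) * (len X e / R)⌋₊ : ℝ) ≤ q * (len X e / R) :=
      Nat.floor_le (by positivity)
    have h5 : (q : ℝ) ≤ ⌊(q : ℝ) * (len X e / R)⌋₊ := by exact_mod_cast not_lt.1 hm
    have h6 : (q : ℝ) * 1 ≤ q * (len X e / R) := by linarith
    have h7 : 1 ≤ len X e / R := le_of_mul_le_mul_left h6 hq0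
    rwa [le_div_iff₀ hR, one_mul] at h7

end G9

open G9 in
theorem cheapCover (h : Rounding) : CheapCover := by
  intro V _ _ d q g₀ R X S hq hg₀ hR
  obtain ⟨L, hL, hsub, hsum⟩ := h V q (geo q R X S) g₀ hg₀ (geo_diag q R X S)
  have hne : ∀ e ∈ edgesL L, geo q R X S e ≠ none := by
    intro e he
    have := hsub he
    unfold gEdges at this
    rw [mem_filter] at this
    exact this.2
  refine ⟨L, hL, fun e he => (geo_ne_none hq hR (hne e he)).1, ?_⟩
  have hq0 : (0 : ℝ) < q := by exact_mod_cast hq
  have hcard : ((edgesL L).card : ℝ) + L.length = Fintype.card V := by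
    exact_mod_cast listFacts.card_edgesL V L hL
  have hcost : cost X (edgesL L) ≤
      ∑ e ∈ edgesL L, R * (1 - wm q (geo q R X S e) + 1 / q) :=
    Finset.sum_le_sum fun e he => (geo_ne_none hq hR (hne e he)).2.2
  have hs : ∑ e ∈ edgesL L, R * (1 - wm q (geo q R X S e) + 1 / q) =
      R * ((edgesL L).card - (∑ e ∈ edgesL L, wm q (geo q R X S e)) + (edgesL L).card / q) := by
    rw [← Finset.mul_sum, Finset.sum_add_distrib, Finset.sum_sub_distrib, Finset.sum_const,
      Finset.sum_const, nsmul_eq_mul, nsmul_eq_mul]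
    ring
  rw [hs] at hcost
  have hle : ((edgesL L).card : ℝ) / q ≤ (Fintype.card V : ℝ) / q := by
    have : ((edgesL L).card : ℝ) ≤ Fintype.card V := by
      rw [← hcard]
      have : (0 : ℝ) ≤ L.length := Nat.cast_nonneg _
      linarith
    gcongr
  calc cost X (edgesL L) + R * L.length
      ≤ R * ((edgesL L).card - (∑ e ∈ edgesL L, wm q (geo q R X S e)) + (edgesL L).card / q) +
        R * L.length := by linarith
    _ = R * (((edgesL L).card + L.length) - (∑ e ∈ edgesL L, wm q (geo q R X S e)) +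
        (edgesL L).card / q) := by ring
    _ ≤ _ := by
        apply mul_le_mul_of_nonneg_left _ hR.le
        rw [hcard]
        linarith

namespace G10

variable {V : Type} [DecidableEq V] {d : ℕ}

theorem tour_form (T : List V) (h3 : 3 ≤ T.length) :
    tourEdges T = univ.image fun i : Fin T.length => s(T.get i, T.get (finRotate _ i)) := by
  unfold tourEdges
  have h1 := B2.links_ofFn (n := T.length) (by omega) T.get
  rw [List.ofFn_get] at h1
  rw [h1]
  ext e
  simp [List.mem_ofFn, eq_comm]

theorem tour_card [Fintype V] (T : List V) (hT : IsTour T) :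
    (tourEdges T).card = Fintype.card V := by
  rw [tour_form T hT.three, Finset.card_image_of_injective _
    (B2.pair_inj hT.three (List.nodup_iff_injective_get.1 hT.nodup)), Finset.card_univ,
    Fintype.card_fin, ← List.toFinset_card_of_nodup hT.nodup, ← Finset.card_univ]
  congr 1
  ext v
  simpa using hT.covers v

theorem tour_not_diag (T : List V) (hT : IsTour T) : ∀ e ∈ tourEdges T, ¬ e.IsDiag := by
  intro e he
  rw [tour_form T hT.three, Finset.mem_image] at he
  obtain ⟨i, -, rfl⟩ := he
  rw [Sym2.mk_isDiag_iff]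
  intro h
  have := hT.three
  exact B2.rot_ne (by omega) i (List.nodup_iff_injective_get.1 hT.nodup h)

theorem tour_deg [Fintype V] (T : List V) (hT : IsTour T) (v : V) :
    (univ.filter fun w => s(v, w) ∈ tourEdges T).card ≤ 2 := by
  have hinj := List.nodup_iff_injective_get.1 hT.nodup
  obtain ⟨a, rfl⟩ := List.mem_iff_get.1 (hT.covers v)
  have hsub : (univ.filter fun w => s(T.get a, w) ∈ tourEdges T) ⊆
      {T.get (finRotate _ a), T.get ((finRotate _).symm a)} := by
    intro w hw
    rw [mem_filter, tour_form T hT.three, Finset.mem_image] at hw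
    obtain ⟨-, i, -, hi⟩ := hw
    rw [Finset.mem_insert, Finset.mem_singleton]
    rcases Sym2.eq_iff.1 hi with ⟨h1, h2⟩ | ⟨h1, h2⟩
    · left
      rw [← h2, hinj h1]
    · right
      rw [← h1, ← hinj h2, Equiv.symm_apply_apply]
  exact (Finset.card_le_card hsub).trans Finset.card_le_two

end G10

open G9 G10 in
theorem tourLower (h : LPBasic) : TourLower := by
  intro V _ _ d q R X S T hq hR hT hsub
  set g := geo q R X S with hg
  set E := tourEdges T with hE
  classical
  set E' := E.filter fun e => g e ≠ none with hE'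
  set x : Sym2 V → ℝ := fun e => if e ∈ E' then 1 else 0 with hx
  have hfeas : Feas g x := by
    refine ⟨?_, ?_, ?_, ?_⟩
    · intro e
      rw [hx]
      dsimp only
      split_ifs <;> norm_num
    · intro e
      rw [hx]
      dsimp only
      split_ifs <;> norm_num
    · intro e he
      rw [hx]
      dsimp only
      rw [if_neg]
      rw [hE', mem_filter]
      exact fun h => h.2 he
    · intro i
      rw [hx]
      dsimp only
      rw [Finset.sum_ite, Finset.sum_const_zero, Finset.sum_const, nsmul_eq_mul, mul_one,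
        add_zero]
      have h1 : (univ.filter fun j => s(i, j) ∈ E') ⊆ univ.filter fun j => s(i, j) ∈ E := by
        intro j hj
        rw [mem_filter] at hj ⊢
        exact ⟨hj.1, (mem_filter.1 hj.2).1⟩
      have h2 := (Finset.card_le_card h1).trans (tour_deg T hT i)
      exact_mod_cast h2
  have hW := h.le_W V q g x hfeas
  have hobj : obj g x = ∑ e ∈ E', wm q (g e) := by
    rw [h.obj_eq V q g x (geo_diag q R X S)]
    rw [hx]
    simp only [mul_ite, mul_one, mul_zero]
    rw [Finset.sum_ite_mem, Finset.univ_inter]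
  rw [hobj] at hW
  have hcard : (E.card : ℝ) = Fintype.card V := by exact_mod_cast tour_card T hT
  have hsplit : cost X E = ∑ e ∈ E', len X e + ∑ e ∈ E.filter (fun e => ¬ g e ≠ none), len X e :=
    (Finset.sum_filter_add_sum_filter_not E (fun e => g e ≠ none) (len X)).symm
  have hcs : (E.card : ℝ) = E'.card + (E.filter (fun e => ¬ g e ≠ none)).card := by
    exact_mod_cast (Finset.card_filter_add_card_filter_not (s := E) (fun e => g e ≠ none)).symm
  have h1 : ∑ e ∈ E', R * (1 - wm q (g e)) ≤ ∑ e ∈ E', len X e := by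
    refine Finset.sum_le_sum fun e he => ?_
    have h2 := (geo_ne_none hq hR (mem_filter.1 he).2).2.1
    have h3 : 1 - wm q (g e) ≤ len X e / R := by
      rw [hg]
      linarith
    calc R * (1 - wm q (g e)) ≤ R * (len X e / R) := by gcongr
      _ = len X e := by field_simp
  have h2 : ((E.filter (fun e => ¬ g e ≠ none)).card : ℝ) * R ≤
      ∑ e ∈ E.filter (fun e => ¬ g e ≠ none), len X e := by
    rw [← nsmul_eq_mul]
    refine Finset.card_nsmul_le_sum _ _ _ fun e he => ?_
    rw [mem_filter, not_not] at he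
    exact geo_eq_none hq hR (hsub he.1) (tour_not_diag T hT e he.1) he.2
  rw [← Finset.mul_sum, Finset.sum_sub_distrib, Finset.sum_const, nsmul_eq_mul, mul_one] at h1
  rw [hsplit, ← hcard]
  have h3 : R * ((E'.card : ℝ) - ∑ e ∈ E', wm q (g e)) ≥
      R * ((E'.card : ℝ) - W g) := by
    have : (E'.card : ℝ) - W g ≤ (E'.card : ℝ) - ∑ e ∈ E', wm q (g e) := by linarith
    exact mul_le_mul_of_nonneg_left this hR.le
  have h4 : R * ((E.card : ℝ) - W g) = R * ((E'.card : ℝ) - W g) +
      (E.filter (fun e => ¬ g e ≠ none)).card * R := by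
    rw [hcs]
    ring
  rw [h4]
  linarith

end MP329
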