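import Pool.Agent.Lib.MP_329b4d_pr.SpecG

/-!
# MP_329b4d_pr: H1, lower bound by averages over types
-/

namespace MP329

open Finset

set_option linter.unusedSectionVars false

section

variable {V : Type} [Fintype V] [DecidableEq V] {q : ℕ}

/-- Contribution of an edge value, `0` if there is no edge. -/
noncomputable def h1val {T : Type} (F : Fin q × T → ℝ) : Option (Fin q) → T → ℝ
  | none, _ => 0
  | some m, t => F (m, t)

theorem h1_count (Δ r : ℕ) (g : Sym2 V → Option (Fin q)) (i : V)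
    (F : Fin q × Typ q Δ r → ℝ) :
    ∑ j, h1val F (g s(i, j)) (typ Δ g r j) =
      ∑ z : Fin q × Typ q Δ r,
        ((#{u | g s(i, u) = some z.1 ∧ typ Δ g r u = z.2} : ℕ) : ℝ) * F z := by
  have h1 : ∀ z : Fin q × Typ q Δ r,
      ((#{u | g s(i, u) = some z.1 ∧ typ Δ g r u = z.2} : ℕ) : ℝ) * F z =
        ∑ u, if (g s(i, u) = some z.1 ∧ typ Δ g r u = z.2) then F z else 0 := by
    intro z
    rw [← Finset.sum_filter, Finset.sum_const, nsmul_eq_mul]
  rw [Finset.sum_congr rfl (fun z _ => h1 z), Finset.sum_comm]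
  refine Finset.sum_congr rfl fun u _ => ?_
  rcases hg : g s(i, u) with _ | m
  · simp [h1val]
  · rw [Finset.sum_eq_single (m, typ Δ g r u)]
    · simp [h1val]
    · rintro ⟨m', t'⟩ _ hne
      rw [if_neg]
      rintro ⟨ha, hb⟩
      apply hne
      have ha' : m = m' := by simpa using ha
      have hb' : typ Δ g r u = t' := hb
      rw [ha', hb']
    · intro hn
      exact absurd (Finset.mem_univ _) hn

/-- The edge values given by `h`. -/
noncomputable def h1x (Δ r : ℕ) (g : Sym2 V → Option (Fin q))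
    (h : Typ q Δ r → Fin q → Typ q Δ r → ℝ)
    (hs : ∀ t m t', h t m t' = h t' m t) : Sym2 V → ℝ :=
  Sym2.lift ⟨fun i j => h1val (fun z => h (typ Δ g r i) z.1 z.2) (g s(i, j)) (typ Δ g r j), by
    intro i j
    have : s(i, j) = s(j, i) := Sym2.eq_swap
    show h1val (fun z => h (typ Δ g r i) z.1 z.2) (g s(i, j)) (typ Δ g r j) =
      h1val (fun z => h (typ Δ g r j) z.1 z.2) (g s(j, i)) (typ Δ g r i)
    rw [this]
    rcases g s(j, i) with _ | m
    · rfl
    · exact hs _ _ _⟩

theorem h1x_mk (Δ r : ℕ) (g : Sym2 V → Option (Fin q))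
    (h : Typ q Δ r → Fin q → Typ q Δ r → ℝ)
    (hs : ∀ t m t', h t m t' = h t' m t) (i j : V) :
    h1x Δ r g h hs s(i, j) =
      h1val (fun z => h (typ Δ g r i) z.1 z.2) (g s(i, j)) (typ Δ g r j) := rfl

theorem h1_min (Δ r : ℕ) (g : Sym2 V → Option (Fin q)) (i : V) (hi : mdeg g i ≤ Δ)
    (z : Fin q × Typ q Δ r) :
    ((((typ Δ g (r + 1) i : Typ q Δ r × (Fin q × Typ q Δ r → Fin (Δ + 1))).2 z : ℕ)) : ℝ) =
      ((#{u | g s(i, u) = some z.1 ∧ typ Δ g r u = z.2} : ℕ) : ℝ) := by
  have h2 : #{u | g s(i, u) = some z.1 ∧ typ Δ g r u = z.2} ≤ Δ := by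
    refine le_trans (Finset.card_le_card ?_) hi
    intro u hu
    simp only [Finset.mem_filter, Finset.mem_univ, true_and] at hu ⊢
    rw [hu.1]
    exact Option.some_ne_none _
  have h3 : (((typ Δ g (r + 1) i : Typ q Δ r × (Fin q × Typ q Δ r → Fin (Δ + 1))).2 z : ℕ)) =
      min (#{u | g s(i, u) = some z.1 ∧ typ Δ g r u = z.2}) Δ := rfl
  rw [h3, min_eq_left h2]

/-- **H1.** -/
theorem avgLower (hR : Repair) : AvgLower := by
  intro V _ _ q Δ r g h hdeg hh
  have hs : ∀ t m t', h t m t' = h t' m t := fun t m t' => (hh t m t').2.2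
  have key := hR V q g (h1x Δ r g h hs)
    (by
      intro e
      induction e using Sym2.inductionOn with
      | hf i j =>
        rw [h1x_mk]
        rcases g s(i, j) with _ | m
        · exact le_refl _
        · exact (hh _ _ _).1)
    (by
      intro e
      induction e using Sym2.inductionOn with
      | hf i j =>
        rw [h1x_mk]
        rcases g s(i, j) with _ | m
        · exact zero_le_one
        · exact (hh _ _ _).2.1)
    (by
      intro e
      induction e using Sym2.inductionOn with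
      | hf i j =>
        intro he
        rw [h1x_mk, he]
        rfl)
  refine le_trans (le_of_eq ?_) key
  rw [obj, Finset.sum_div, ← Finset.sum_sub_distrib]
  refine Finset.sum_congr rfl fun i _ => ?_
  have hrow : ∑ j, h1x Δ r g h hs s(i, j) =
      ∑ z : Fin q × Typ q Δ r,
        ((#{u | g s(i, u) = some z.1 ∧ typ Δ g r u = z.2} : ℕ) : ℝ) *
          h (typ Δ g r i) z.1 z.2 := by
    rw [← h1_count Δ r g i (fun z => h (typ Δ g r i) z.1 z.2)]
    exact Finset.sum_congr rfl fun j _ => h1x_mk _ _ _ _ _ _ _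
  have hobj : ∑ j, wm q (g s(i, j)) * h1x Δ r g h hs s(i, j) =
      ∑ z : Fin q × Typ q Δ r,
        ((#{u | g s(i, u) = some z.1 ∧ typ Δ g r u = z.2} : ℕ) : ℝ) *
          (wm q (some z.1) * h (typ Δ g r i) z.1 z.2) := by
    rw [← h1_count Δ r g i (fun z => wm q (some z.1) * h (typ Δ g r i) z.1 z.2)]
    refine Finset.sum_congr rfl fun j _ => ?_
    rw [h1x_mk]
    rcases g s(i, j) with _ | m
    · simp [h1val]
    · rfl
  rw [hrow, hobj, phi]
  have e1 : ∀ z : Fin q × Typ q Δ r,
      ((((typ Δ g (r + 1) i : Typ q Δ r × (Fin q × Typ q Δ r → Fin (Δ + 1))).2 z : ℕ)) : ℝ) =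
      ((#{u | g s(i, u) = some z.1 ∧ typ Δ g r u = z.2} : ℕ) : ℝ) :=
    h1_min Δ r g i (hdeg i)
  have e2 : (typ Δ g (r + 1) i : Typ q Δ r × (Fin q × Typ q Δ r → Fin (Δ + 1))).1 =
      typ Δ g r i := rfl
  rw [e2]
  congr 1
  · congr 1
    refine Finset.sum_congr rfl fun z _ => ?_
    rw [e1 z, mul_assoc]
  · congr 2
    refine Finset.sum_congr rfl fun z _ => ?_
    rw [e1 z]

end

end MP329
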