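import Pool.Agent.Lib.MP_329b4d_pr.SpecA

/-!
# MP_329b4d_pr: statements G (the linear program) and H (averaging over colour-refinement types)
-/

namespace MP329

open Finset

section Defs

variable {V : Type*} [Fintype V] [DecidableEq V] {q : ℕ}

/-- `v` is the first vertex of a cycle with at least `3` and fewer than `g₀` vertices, all of whose
edges are in `E`. -/
def ShortCyc (E : Finset (Sym2 V)) (g₀ : ℕ) (v : V) : Prop :=
  ∃ l : List V, l.Nodup ∧ 3 ≤ l.length ∧ l.length < g₀ ∧ l.head? = some v ∧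
    ∀ e ∈ links (l ++ l.take 1), e ∈ E

open Classical in
/-- Number of vertices on short cycles. -/
noncomputable def nsc (E : Finset (Sym2 V)) (g₀ : ℕ) : ℕ := #{v | ShortCyc E g₀ v}

/-- Edge set of a marked graph. -/
def gEdges (g : Sym2 V → Option (Fin q)) : Finset (Sym2 V) := univ.filter fun e => g e ≠ none

/-- Contribution of a vertex of type `τ` (after `r + 1` rounds) to the objective of the solution
given by `h`, minus the penalty for the excess of its row. -/
noncomputable def phi {Δ r : ℕ} (h : Typ q Δ r → Fin q → Typ q Δ r → ℝ)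
    (τ : Typ q Δ r × (Fin q × Typ q Δ r → Fin (Δ + 1))) : ℝ :=
  (∑ z : Fin q × Typ q Δ r, ((τ.2 z : ℕ) : ℝ) * wm q (some z.1) * h τ.1 z.1 z.2) / 2 -
    max (∑ z : Fin q × Typ q Δ r, ((τ.2 z : ℕ) : ℝ) * h τ.1 z.1 z.2 - 2) 0

/-- Frequency of the type `τ` (of the pruned graph) under the weights `μ` on marked graphs. -/
noncomputable def typFreq (Δ r : ℕ) (μ : (Sym2 V → Option (Fin q)) → ℝ) (τ : Typ q Δ r) : ℝ :=
  (∑ g, μ g * #{i | typ Δ (prune Δ g) r i = τ}) / Fintype.card V

/-- Mean value of the linear program per vertex. -/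
noncomputable def meanW (μ : (Sym2 V → Option (Fin q)) → ℝ) : ℝ :=
  (∑ g, μ g * W g) / Fintype.card V

/-- Mean degree. -/
noncomputable def meanDeg (μ : (Sym2 V → Option (Fin q)) → ℝ) : ℝ :=
  (∑ g, μ g * ∑ i, (mdeg g i : ℝ)) / Fintype.card V

end Defs

/-- **G1.**  The linear program attains its value; `0 ≤ W ≤ #V`; for graphs without loops the
objective is a sum over edges.

Proof.  The feasible set is a nonempty (`x = 0`) compact subset of `Sym2 V → ℝ` (closed conditions,
contained in `[0, 1]^…`), `obj` is continuous; `0 ≤ wm ≤ 1`, rows `≤ 2`.  The last part: each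
non-diagonal pair `s(i, j)` occurs twice in `∑ i, ∑ j`, the diagonal ones contribute `wm none = 0`. -/
structure LPBasic : Prop where
  attained : ∀ (V : Type) [Fintype V] [DecidableEq V] (q : ℕ) (g : Sym2 V → Option (Fin q)),
    ∃ x, Feas g x ∧ obj g x = W g
  le_W : ∀ (V : Type) [Fintype V] [DecidableEq V] (q : ℕ) (g : Sym2 V → Option (Fin q)) (x),
    Feas g x → obj g x ≤ W g
  W_nonneg : ∀ (V : Type) [Fintype V] [DecidableEq V] (q : ℕ) (g : Sym2 V → Option (Fin q)),
    0 ≤ W g
  W_le : ∀ (V : Type) [Fintype V] [DecidableEq V] (q : ℕ) (g : Sym2 V → Option (Fin q)),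
    W g ≤ Fintype.card V
  obj_eq : ∀ (V : Type) [Fintype V] [DecidableEq V] (q : ℕ) (g : Sym2 V → Option (Fin q))
    (x : Sym2 V → ℝ), (∀ i, g s(i, i) = none) → obj g x = ∑ e, wm q (g e) * x e

/-- **G2, repair.**

Proof.  Let `r i = ∑ j, x s(i, j)`, `c i = min 1 (2 / r i)` (`= 1` if `r i ≤ 2`), and
`x' s(i, j) = x s(i, j) * c i * c j`.  Row sums: `∑ j, x' s(i, j) ≤ c i * r i ≤ 2`.  As
`1 - c i * c j ≤ (1 - c i) + (1 - c j)` and `0 ≤ wm ≤ 1`,
`obj g x - obj g x' ≤ (1/2) ∑ i j, x s(i,j) ((1 - c i) + (1 - c j)) = ∑ i, r i (1 - c i)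
 = ∑ i, max (r i - 2) 0`.  And `obj g x' ≤ W g`. -/
def Repair : Prop :=
  ∀ (V : Type) [Fintype V] [DecidableEq V] (q : ℕ) (g : Sym2 V → Option (Fin q))
    (x : Sym2 V → ℝ), (∀ e, 0 ≤ x e) → (∀ e, x e ≤ 1) → (∀ e, g e = none → x e = 0) →
    obj g x - ∑ i, max (∑ j, x s(i, j) - 2) 0 ≤ W g

/-- **G3, Lipschitz properties of `W`.**

Proof.  If `g`, `g'` agree on the pairs not containing `i` and `x` is optimal for `g`, then `x` with
all pairs at `i` set to `0` is feasible for `g'`, and its objective (with respect to `g'` or `g`,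
the same) is smaller by at most `∑ j, wm (g s(i, j)) x s(i, j) ≤ 2` (each non-diagonal pair at `i`
is counted twice and halved).  Same with one pair.  `W (prune Δ g) ≤ W g`: a feasible point of the
pruned graph is feasible for `g` and has the same objective.  Conversely set to `0` all pairs with
an endpoint of degree `> Δ`: the objective drops by at most `2` per such vertex. -/
structure WLip : Prop where
  vertex : ∀ (V : Type) [Fintype V] [DecidableEq V] (q : ℕ) (g g' : Sym2 V → Option (Fin q))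
    (i : V), (∀ e, i ∉ e → g e = g' e) → |W g - W g'| ≤ 2
  pair : ∀ (V : Type) [Fintype V] [DecidableEq V] (q : ℕ) (g g' : Sym2 V → Option (Fin q))
    (e₀ : Sym2 V), (∀ e, e ≠ e₀ → g e = g' e) → |W g - W g'| ≤ 1
  prune_le : ∀ (V : Type) [Fintype V] [DecidableEq V] (q Δ : ℕ) (g : Sym2 V → Option (Fin q)),
    W (prune Δ g) ≤ W g
  le_prune : ∀ (V : Type) [Fintype V] [DecidableEq V] (q Δ : ℕ) (g : Sym2 V → Option (Fin q)),
    W g - 2 * #{i | Δ < mdeg g i} ≤ W (prune Δ g)

/-- **G6, a good optimal solution.**  Every vertex with a fractional edge has exactly two fractional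
edges, and a full row.

Proof.  For an optimal `x` let `Frac x = {e | 0 < x e < 1}` (no loops, since `x s(i,i) = 0`), and
choose `x` optimal with `#(Frac x) + #{i | ∑ j, x s(i, j) < 2}` minimal.  Let `T` be the set of the
vertices with a full row (`= 2`) and at least one fractional edge.
*Claim* `#(Frac x) ≤ #T`.  Otherwise the linear map `y ↦ (∑ e ∈ Frac x, i ∈ e, y e)_{i ∈ T}` from
`Frac x → ℝ` to `T → ℝ` has a nonzero kernel element `y`; extend it by `0`.  The set of real `t` with
`x + t y` feasible is closed, bounded (a coordinate `y e ≠ 0`, `0 ≤ x e + t y e ≤ 1`), and contains a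
neighbourhood of `0` (the constraints involving a fractional edge which are not strict at `x` are
the full rows in `T`, on which `y` sums to `0`; integral coordinates and the other full rows are
not touched by `y`).  The objective is affine in `t` and maximal at the interior point `t = 0`, so it
is constant.  Let `t*` be the largest feasible `t`.  At `x* = x + t* y` (optimal) all integral
coordinates and full rows of `x` are preserved, and by maximality of `t*` some fractional coordinate
became `0` or `1` or some non-full row became full.  This contradicts the minimality.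
*Double counting*: a vertex of `T` with exactly one fractional edge would have a non-integral row
sum; so each vertex of `T` has at least two.  `2 #T ≤ ∑ i ∈ T, #{j | s(i,j) ∈ Frac} ≤
∑ i, #{j | s(i,j) ∈ Frac} = 2 #Frac ≤ 2 #T`; equality everywhere: the vertices of `T` have exactly two
fractional edges, the others none. -/
def LPMin : Prop :=
  ∀ (V : Type) [Fintype V] [DecidableEq V] (q : ℕ) (g : Sym2 V → Option (Fin q)),
    (∀ i, g s(i, i) = none) →
    ∃ x, Feas g x ∧ obj g x = W g ∧
      ∀ i, (∃ j, 0 < x s(i, j) ∧ x s(i, j) < 1) →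
        #{j | 0 < x s(i, j) ∧ x s(i, j) < 1} = 2 ∧ ∑ j, x s(i, j) = 2

/-- **G7, graphs of maximum degree two are almost path covers.**

Proof (`ListFacts`).  Among the covers `L` with `edgesL L ⊆ E` (there is one: all singletons) choose
one with `L.length` minimal.  Let `e = s(a, b) ∈ E` not an edge of `L`.  As `a` has degree at most `2`
in `E`, it has at most one neighbour in `L`, so `a` is the first or the last vertex of its list; the
same for `b`.  If they were in different lists, these (one or both reversed if necessary) could be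
joined by `e`, contradicting minimality.  So `a ≠ b` are the first and the last vertex of the same
list `l`, of length at least `3` (if it had length `2`, `e` would be a link), and `e` closes `l` to a
cycle.  Different such `e` belong to different lists.  The number of `e` with `g₀ ≤ l.length` is at
most `#V / g₀` (disjoint lists); for the others map `e` to the first vertex of `l`, which satisfies
`ShortCyc`. -/
def CyclePack : Prop :=
  ∀ (V : Type) [Fintype V] [DecidableEq V] (E : Finset (Sym2 V)) (g₀ : ℕ), 1 ≤ g₀ →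
    (∀ e ∈ E, ¬ e.IsDiag) → (∀ i, #{j | s(i, j) ∈ E} ≤ 2) →
    ∃ L, IsCover L ∧ edgesL L ⊆ E ∧
      (#(E \ edgesL L) : ℝ) ≤ (Fintype.card V : ℝ) / g₀ + nsc E g₀

/-- **G8, rounding.**

Proof (from `LPBasic`, `LPMin`, `CyclePack`).  Let `x` be as in `LPMin`, `M₁ = {e | x e = 1}`,
`M_f = {e | 0 < x e < 1}`; `W g = ∑ e ∈ M₁, wm (g e) + ∑ e ∈ M_f, wm (g e) x e`.  Let `i` be a vertex
with a fractional edge: it has exactly two, whose values sum to a number in `(0, 2)` which is
`2 - #(edges of M₁ at i)`, an integer; so they sum to `1` and `i` has exactly one edge of `M₁`.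
Apply `CyclePack` to `M_f`: a cover `L₁`, `edgesL L₁ ⊆ M_f`.  Two consecutive links of a list of
`L₁` are the two fractional edges at their common vertex, so their `x`-values sum to `1`: along a
list, `x` takes alternately the values `a, 1 - a, a, …`.  Hence the `wm x`-sum over the links of the
list is at most the larger of the `wm`-sums over the links in odd positions and over those in even
positions; let `M'` be the union over the lists of the better choices.  `M'` is a matching,
`∑ e ∈ M', wm ≥ ∑ e ∈ edgesL L₁, wm x ≥ ∑ e ∈ M_f, wm x - (#V/g₀ + nsc)`.  Let `H = M₁ ∪ M'`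
(disjoint): degree at most `2` at every vertex (if the vertex has a fractional edge: `1 + 1`; else it
has at most two edges of `M₁` since its row is at most `2`).  Apply `CyclePack` to `H`.
`nsc` is monotone in the edge set and `M_f, H ⊆ gEdges g`; `0 ≤ wm ≤ 1`. -/
def Rounding : Prop :=
  ∀ (V : Type) [Fintype V] [DecidableEq V] (q : ℕ) (g : Sym2 V → Option (Fin q)) (g₀ : ℕ),
    1 ≤ g₀ → (∀ i, g s(i, i) = none) →
    ∃ L, IsCover L ∧ edgesL L ⊆ gEdges g ∧
      W g - 2 * ((Fintype.card V : ℝ) / g₀ + nsc (gEdges g) g₀) ≤ ∑ e ∈ edgesL L, wm q (g e)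

/-- **G9, from the linear program to a cheap path cover.**

Proof (from `Rounding`, `ListFacts`).  Let `g = geo q R X S` and `L` from `Rounding`.  For an edge
`e` of `L`, `g e = some m` with `m = ⌊q len e / R⌋`, so `len e ≤ R (m + 1)/q = R (1 - wm (g e) + 1/q)`.
Sum over the `n - L.length` edges:
`cost + R L.length ≤ R (n + n/q - ∑ wm) ≤ R (n + n/q - W g + 2 (n/g₀ + nsc))`. -/
def CheapCover : Prop :=
  ∀ (V : Type) [Fintype V] [DecidableEq V] (d q g₀ : ℕ) (R : ℝ) (X : V → Pt d)
    (S : Finset (Sym2 V)), 1 ≤ q → 1 ≤ g₀ → 0 < R →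
    ∃ L, IsCover L ∧ edgesL L ⊆ S ∧
      cost X (edgesL L) + R * L.length ≤ R * ((Fintype.card V : ℝ) - W (geo q R X S) +
        (Fintype.card V : ℝ) / q +
        2 * ((Fintype.card V : ℝ) / g₀ + nsc (gEdges (geo q R X S)) g₀))

/-- **G10, lower bound for tours.**

Proof (from `LPBasic`).  `tourEdges T` has exactly `n = #V` elements, none diagonal, and each vertex
is in exactly two of them (`n ≥ 3`).  Let `x` be the indicator function of the `e ∈ tourEdges T`
with `geo q R X S e ≠ none`, i.e. with `⌊q len e / R⌋ < q`, i.e. `len e < R`; it is feasible.  Its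
objective is the sum of `1 - ⌊q len e/R⌋/q ≥ 1 - len e/R` over these edges.  So
`W ≥ ∑_{len e < R} (1 - len e / R)`, and
`cost ≥ ∑_{len e < R} len e + R #{len e ≥ R} = R n - R ∑_{len e < R} (1 - len e/R) ≥ R (n - W)`. -/
def TourLower : Prop :=
  ∀ (V : Type) [Fintype V] [DecidableEq V] (d q : ℕ) (R : ℝ) (X : V → Pt d)
    (S : Finset (Sym2 V)) (T : List V), 1 ≤ q → 0 < R → IsTour T → tourEdges T ⊆ S →
    R * ((Fintype.card V : ℝ) - W (geo q R X S)) ≤ cost X (tourEdges T)

/-- **H1, lower bound by averages over types.**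

Proof (from `Repair`).  Put `x s(i, j) = h (typ r i) m (typ r j)` if `g s(i, j) = some m`, and `0` if
`g s(i, j) = none` (well defined by the symmetry of `h`).  As all degrees are at most `Δ` the counts
in `typ Δ g (r + 1) i` are exact, so
`∑ j, wm (g s(i,j)) x s(i,j) = ∑ z, count z * wm z.1 * h (typ r i) z.1 z.2`, and similarly for
`∑ j, x s(i, j)`.  So the left hand side is `obj g x - ∑ i, max (∑ j, x s(i,j) - 2) 0 ≤ W g`. -/
def AvgLower : Prop :=
  ∀ (V : Type) [Fintype V] [DecidableEq V] (q Δ r : ℕ) (g : Sym2 V → Option (Fin q))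
    (h : Typ q Δ r → Fin q → Typ q Δ r → ℝ), (∀ i, mdeg g i ≤ Δ) →
    (∀ t m t', 0 ≤ h t m t' ∧ h t m t' ≤ 1 ∧ h t m t' = h t' m t) →
    ∑ i, phi h (typ Δ g (r + 1) i) ≤ W g

/-- **H2, upper bound by averages over types.**  `μ` are nonnegative weights on marked graphs with
all degrees at most `Δ`.

Proof (from `LPBasic`).  For every `g` let `x_g` be an optimal solution.  Consider the finite set
`𝓔` of the triples `ω = (g, i, j)` with `g s(i, j) = some m_ω`, with weight `μ g`, and write
`x_ω = x_g s(i, j)`.  For `r < R` let `c_r ω = (typ r i, m_ω, typ r j)` and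
`c'_r ω = (typ (r+1) i, m_ω, typ r j)`.  `c'_r` refines `c_r`, and `c_{r+1}` refines `c'_r`.  Let
`h_r`, `h'_r` be the conditional expectations of `x` given `c_r`, `c'_r` (weighted averages over the
fibres; `0` on fibres of weight `0`), `‖f‖² = ∑ ω, μ f²`.  Then `‖h'_r - h_r‖² = ‖h'_r‖² - ‖h_r‖²`
and `‖h'_r‖ ≤ ‖h_{r+1}‖`, so
`∑_{r<R} ‖h'_r - h_r‖² ≤ ‖h_R‖² ≤ ‖x‖² ≤ ∑ ω, μ x ≤ 2 N` where `N = ∑ g, μ g * #V`
(rows `≤ 2`).  So for some `r < R`: `‖h'_r - h_r‖² ≤ 2 N / R`.  Let `h = h_r`; it is symmetric since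
`x_g s(i, j)`, `g s(i,j)` are symmetric, with values in `[0, 1]`.
(1) `∑ g, μ g * W g = (1/2) ∑ ω, μ wm(m_ω) x_ω = (1/2) ∑ ω, μ wm(m_ω) h(c_r ω)`, since `wm(m_ω)`
is a function of `c_r ω`.
(2) For each type `τ` after `r+1` rounds, the sum over the `(g, i)` of type `τ` of
`μ g * (∑ j, h'_r(c'_r(g,i,j)) - 2)` equals the sum of `μ g * (∑ j, x_g s(i,j) - 2) ≤ 0`; and
`∑ j, h'_r (c'_r (g,i,j))` is the same for all `(g, i)` of type `τ` (the number of `j` with given
mark and `typ r j` is determined by `τ`, as the degrees are at most `Δ`); so it is at most `2` if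
the weight of `τ` is positive.
(3) So the penalty is
`∑ g i, μ g * max (∑ j, h_r - 2) 0 ≤ ∑ g i, μ g * ∑ j, |h_r - h'_r| = ∑ ω, μ |h_r - h'_r|
 ≤ √(∑ ω, μ) √(2 N / R) ≤ √(λ N) √(2 N/R) = N √(2 λ/R)`, as `∑ ω, μ = ∑ g, μ g ∑ i, mdeg g i`. -/
def AvgUpper : Prop :=
  ∀ (V : Type) [Fintype V] [DecidableEq V] (q Δ R : ℕ) (lam : ℝ)
    (μ : (Sym2 V → Option (Fin q)) → ℝ), 1 ≤ R → 0 ≤ lam → (∀ g, 0 ≤ μ g) →
    (∀ g, μ g ≠ 0 → ∀ i, mdeg g i ≤ Δ) →
    (∑ g, μ g * ∑ i, (mdeg g i : ℝ)) ≤ lam * ((∑ g, μ g) * Fintype.card V) →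
    ∃ r < R, ∃ h : Typ q Δ r → Fin q → Typ q Δ r → ℝ,
      (∀ t m t', 0 ≤ h t m t' ∧ h t m t' ≤ 1 ∧ h t m t' = h t' m t) ∧
      ∑ g, μ g * W g ≤ ∑ g, μ g * ∑ i, phi h (typ Δ g (r + 1) i) +
        √(2 * lam / R) * ((∑ g, μ g) * Fintype.card V)

/-- **H3, the mean value depends continuously on the type frequencies.**

Proof (from `AvgLower`, `AvgUpper`, `WLip`).  Choose `R` with `√(2 λ/R) ≤ ε/4`, `Δ ≥ 1` with
`2 λ/Δ ≤ ε/4`, and `η` with `η * C ≤ ε/4` where `C = max over r < R of
#(Typ q Δ (r+1)) * (3/2 * q * #(Typ q Δ r) * Δ)` (plus one).  Given the two systems, let `ν` be the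
image of `μ` under `prune Δ` (all its graphs have degrees at most `Δ`: `mdeg (prune Δ g) i ≤ mdeg g i`
and it is `0` if `mdeg g i > Δ`), `ν'` that of `μ'`.  `AvgUpper` for `ν` gives `r < R` and `h` with
`meanW ν ≤ ∑ τ, typFreq τ * phi h τ + √(2 λ/R)` (`∑ g, ν g ∑ i, phi h (typ (r+1) i)` divided by `#V`
is `∑ τ, typFreq Δ (r+1) μ τ * phi h τ`).  `AvgLower` for the graphs of `ν'` with the same `h`:
`meanW ν' ≥ ∑ τ, typFreq Δ (r+1) μ' τ * phi h τ`.  `|phi h τ| ≤ (3/2) q #(Typ q Δ r) Δ`.  By `WLip`,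
`meanW μ ≤ meanW ν + 2 * (mean fraction of vertices of degree > Δ) ≤ meanW ν + 2 λ/Δ` (Markov) and
`meanW ν' ≤ meanW μ'`.  So `meanW μ ≤ meanW μ' + ε`.  By symmetry `|…| ≤ ε`. -/
def Compare : Prop :=
  ∀ (q : ℕ) (lam ε : ℝ), 0 ≤ lam → 0 < ε → ∃ (R Δ : ℕ) (η : ℝ), 0 < η ∧
    ∀ (V V' : Type) [Fintype V] [DecidableEq V] [Nonempty V] [Fintype V'] [DecidableEq V']
      [Nonempty V'] (μ : (Sym2 V → Option (Fin q)) → ℝ) (μ' : (Sym2 V' → Option (Fin q)) → ℝ),
      (∀ g, 0 ≤ μ g) → (∀ g, 0 ≤ μ' g) → ∑ g, μ g = 1 → ∑ g, μ' g = 1 →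
      meanDeg μ ≤ lam → meanDeg μ' ≤ lam →
      (∀ r < R, ∀ τ : Typ q Δ (r + 1),
        |typFreq Δ (r + 1) μ τ - typFreq Δ (r + 1) μ' τ| ≤ η) →
      |meanW μ - meanW μ'| ≤ ε

end MP329
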