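import Pool.Agent.Lib.MP_329b4d_pr.Basic
import Pool.Agent.Lib.MP_329b4d_pr.SpecG

/-!
# MP_329b4d_pr, H2: upper bound by averages over colour-refinement types
-/

namespace MP329

open Finset

namespace H2

section CE

variable {Ω κ κ' : Type*} [Fintype Ω] [DecidableEq κ] [DecidableEq κ']

/-- Weighted conditional expectation of `f` given `c`. -/
noncomputable def ce (w f : Ω → ℝ) (c : Ω → κ) (k : κ) : ℝ :=
  (∑ ω with c ω = k, w ω * f ω) / (∑ ω with c ω = k, w ω)

theorem ce_mul {w f : Ω → ℝ} (hw : ∀ ω, 0 ≤ w ω) (c : Ω → κ) (k : κ) :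
    ce w f c k * (∑ ω with c ω = k, w ω) = ∑ ω with c ω = k, w ω * f ω := by
  unfold ce
  by_cases h : (∑ ω with c ω = k, w ω) = 0
  · rw [h, mul_zero]
    rw [Finset.sum_eq_zero_iff_of_nonneg (fun ω _ => hw ω)] at h
    symm
    apply Finset.sum_eq_zero
    intro ω hω
    rw [h ω hω, zero_mul]
  · field_simp

theorem sum_ce {w f : Ω → ℝ} (hw : ∀ ω, 0 ≤ w ω) (c : Ω → κ) (φ : κ → ℝ) :
    ∑ ω, w ω * (φ (c ω) * ce w f c (c ω)) = ∑ ω, w ω * (φ (c ω) * f ω) := by
  rw [← Finset.sum_fiberwise_of_maps_to (s := univ) (t := univ.image c) (g := c)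
      (fun ω _ => Finset.mem_image_of_mem c (mem_univ ω)),
    ← Finset.sum_fiberwise_of_maps_to (s := univ) (t := univ.image c) (g := c)
      (fun ω _ => Finset.mem_image_of_mem c (mem_univ ω)) (f := fun ω => w ω * (φ (c ω) * f ω))]
  apply Finset.sum_congr rfl
  intro k _
  have h1 : ∑ ω with c ω = k, w ω * (φ (c ω) * ce w f c (c ω)) =
      φ k * (ce w f c k * ∑ ω with c ω = k, w ω) := by
    rw [Finset.mul_sum, Finset.mul_sum]
    apply Finset.sum_congr rfl
    intro ω hω
    rw [(Finset.mem_filter.mp hω).2]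
    ring
  have h2 : ∑ ω with c ω = k, w ω * (φ (c ω) * f ω) =
      φ k * ∑ ω with c ω = k, w ω * f ω := by
    rw [Finset.mul_sum]
    apply Finset.sum_congr rfl
    intro ω hω
    rw [(Finset.mem_filter.mp hω).2]
    ring
  rw [h1, h2, ce_mul hw]

theorem ce_nonneg {w f : Ω → ℝ} (hw : ∀ ω, 0 ≤ w ω) (hf : ∀ ω, 0 ≤ f ω) (c : Ω → κ) (k : κ) :
    0 ≤ ce w f c k :=
  div_nonneg (Finset.sum_nonneg fun ω _ => mul_nonneg (hw ω) (hf ω))
    (Finset.sum_nonneg fun ω _ => hw ω)

theorem ce_le_one {w f : Ω → ℝ} (hw : ∀ ω, 0 ≤ w ω) (hf : ∀ ω, f ω ≤ 1) (c : Ω → κ) (k : κ) :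
    ce w f c k ≤ 1 := by
  unfold ce
  apply div_le_one_of_le₀
  · apply Finset.sum_le_sum
    intro ω _
    have := mul_le_mul_of_nonneg_left (hf ω) (hw ω)
    linarith
  · exact Finset.sum_nonneg fun ω _ => hw ω

/-- Orthogonality. -/
theorem sum_sq_sub {w f : Ω → ℝ} (hw : ∀ ω, 0 ≤ w ω) (c : Ω → κ) (c' : Ω → κ') (π : κ' → κ)
    (hπ : ∀ ω, c ω = π (c' ω)) :
    ∑ ω, w ω * (ce w f c (c ω) - ce w f c' (c' ω)) ^ 2 =
      ∑ ω, w ω * ce w f c' (c' ω) ^ 2 - ∑ ω, w ω * ce w f c (c ω) ^ 2 := by
  have h1 := sum_ce (f := f) hw c' (fun k => ce w f c (π k))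
  have h2 := sum_ce (f := f) hw c (fun k => ce w f c k)
  simp only [← hπ] at h1
  have h3 : ∑ ω, w ω * (ce w f c (c ω) - ce w f c' (c' ω)) ^ 2 =
      ∑ ω, w ω * ce w f c' (c' ω) ^ 2 + ∑ ω, w ω * (ce w f c (c ω) * ce w f c (c ω)) -
        2 * ∑ ω, w ω * (ce w f c (c ω) * ce w f c' (c' ω)) := by
    rw [Finset.mul_sum, ← Finset.sum_add_distrib, ← Finset.sum_sub_distrib]
    apply Finset.sum_congr rfl
    intro ω _
    ring
  have h4 : ∑ ω, w ω * ce w f c (c ω) ^ 2 = ∑ ω, w ω * (ce w f c (c ω) * ce w f c (c ω)) := by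
    apply Finset.sum_congr rfl
    intro ω _
    ring
  rw [h3, h4, h1, ← h2]
  ring

theorem sum_sq_mono {w f : Ω → ℝ} (hw : ∀ ω, 0 ≤ w ω) (c : Ω → κ) (c' : Ω → κ') (π : κ' → κ)
    (hπ : ∀ ω, c ω = π (c' ω)) :
    ∑ ω, w ω * ce w f c (c ω) ^ 2 ≤ ∑ ω, w ω * ce w f c' (c' ω) ^ 2 := by
  have h := sum_sq_sub (f := f) hw c c' π hπ
  have h1 : 0 ≤ ∑ ω, w ω * (ce w f c (c ω) - ce w f c' (c' ω)) ^ 2 :=
    Finset.sum_nonneg fun ω _ => mul_nonneg (hw ω) (sq_nonneg _)
  linarith

/-- If `0 ≤ f ≤ 1`, the square norm of a conditional expectation is at most the mean of `f`. -/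
theorem sum_sq_le {w f : Ω → ℝ} (hw : ∀ ω, 0 ≤ w ω) (hf0 : ∀ ω, 0 ≤ f ω) (hf : ∀ ω, f ω ≤ 1)
    (c : Ω → κ) : ∑ ω, w ω * ce w f c (c ω) ^ 2 ≤ ∑ ω, w ω * f ω := by
  have h1 := sum_ce (f := f) hw c (fun _ => 1)
  simp only [one_mul] at h1
  rw [← h1]
  apply Finset.sum_le_sum
  intro ω _
  apply mul_le_mul_of_nonneg_left _ (hw ω)
  have := ce_nonneg hw hf0 c (c ω)
  have := ce_le_one hw hf c (c ω)
  nlinarith

theorem cauchy {w : Ω → ℝ} (hw : ∀ ω, 0 ≤ w ω) (u : Ω → ℝ) :
    ∑ ω, w ω * |u ω| ≤ √(∑ ω, w ω) * √(∑ ω, w ω * u ω ^ 2) := by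
  have h := Real.sum_mul_le_sqrt_mul_sqrt (Finset.univ : Finset Ω) (fun ω => √(w ω))
    (fun ω => √(w ω) * |u ω|)
  have h1 : ∀ ω, √(w ω) * (√(w ω) * |u ω|) = w ω * |u ω| := by
    intro ω
    rw [← mul_assoc, Real.mul_self_sqrt (hw ω)]
  have h2 : ∀ ω, √(w ω) ^ 2 = w ω := fun ω => Real.sq_sqrt (hw ω)
  have h3 : ∀ ω, (√(w ω) * |u ω|) ^ 2 = w ω * u ω ^ 2 := by
    intro ω
    rw [mul_pow, Real.sq_sqrt (hw ω), sq_abs]
  simp only [h1, h2, h3] at h
  exact h

end CE

section Main

variable {V : Type} [Fintype V] [DecidableEq V] {q : ℕ}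

theorem count_val {Δ : ℕ} (g : Sym2 V → Option (Fin q)) (r : ℕ) (v : V) (hv : mdeg g v ≤ Δ)
    (z : Fin q × Typ q Δ r) :
    (((typ Δ g (r + 1) v).2 z : Fin (Δ + 1)) : ℕ) =
      #{u | g s(v, u) = some z.1 ∧ typ Δ g r u = z.2} := by
  show min (#{u | g s(v, u) = some z.1 ∧ typ Δ g r u = z.2}) Δ = _
  apply min_eq_left
  refine le_trans (Finset.card_le_card ?_) hv
  intro u hu
  rw [Finset.mem_filter] at hu ⊢
  refine ⟨hu.1, ?_⟩
  rw [hu.2.1]
  simp

theorem count_sum {Δ : ℕ} (g : Sym2 V → Option (Fin q)) (r : ℕ) (v : V) (hv : mdeg g v ≤ Δ)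
    (F : Fin q × Typ q Δ r → ℝ) :
    ∑ z : Fin q × Typ q Δ r, ((((typ Δ g (r + 1) v).2 z : Fin (Δ + 1)) : ℕ) : ℝ) * F z =
      ∑ u, (g s(v, u)).elim 0 (fun m => F (m, typ Δ g r u)) := by
  have h1 : ∀ z : Fin q × Typ q Δ r,
      ((((typ Δ g (r + 1) v).2 z : Fin (Δ + 1)) : ℕ) : ℝ) * F z =
        ∑ u, if g s(v, u) = some z.1 ∧ typ Δ g r u = z.2 then F z else 0 := by
    intro z
    rw [count_val g r v hv z, ← Finset.sum_filter, Finset.sum_const, nsmul_eq_mul]
  rw [Finset.sum_congr rfl (fun z _ => h1 z), Finset.sum_comm]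
  apply Finset.sum_congr rfl
  intro u _
  rcases hg : g s(v, u) with _ | m
  · simp
  · rw [Finset.sum_eq_single (m, typ Δ g r u)]
    · simp
    · rintro ⟨m', t'⟩ _ hne
      rw [if_neg]
      rintro ⟨ha, hb⟩
      apply hne
      simp only [Option.some.injEq] at ha hb
      rw [ha, hb]
    · intro h
      exact absurd (mem_univ _) h

end Main

end H2

/-- **H2, upper bound by averages over types.** -/
theorem avgUpper (hLP : LPBasic) : AvgUpper := by
  intro V _ _ q Δ R lam μ hR hlam hμ hdeg hmean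
  classical
  choose x hx hxW using fun g : Sym2 V → Option (Fin q) => hLP.attained V q g
  -- the set of triples and the weights
  set w : (Sym2 V → Option (Fin q)) × V × V → ℝ :=
    fun ω => if ω.1 s(ω.2.1, ω.2.2) = none then 0 else μ ω.1 with hw
  set f : (Sym2 V → Option (Fin q)) × V × V → ℝ := fun ω => x ω.1 s(ω.2.1, ω.2.2) with hf
  have hw0 : ∀ ω, 0 ≤ w ω := by
    intro ω
    simp only [hw]
    split_ifs
    · exact le_refl _
    · exact hμ _
  have hf0 : ∀ ω, 0 ≤ f ω := fun ω => (hx ω.1).nonneg _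
  have hf1 : ∀ ω, f ω ≤ 1 := fun ω => (hx ω.1).le_one _
  let c : (r : ℕ) → (Sym2 V → Option (Fin q)) × V × V → Typ q Δ r × Option (Fin q) × Typ q Δ r :=
    fun r ω => (typ Δ ω.1 r ω.2.1, ω.1 s(ω.2.1, ω.2.2), typ Δ ω.1 r ω.2.2)
  let c' : (r : ℕ) → (Sym2 V → Option (Fin q)) × V × V →
      Typ q Δ (r + 1) × Option (Fin q) × Typ q Δ r :=
    fun r ω => (typ Δ ω.1 (r + 1) ω.2.1, ω.1 s(ω.2.1, ω.2.2), typ Δ ω.1 r ω.2.2)
  let π1 : (r : ℕ) → Typ q Δ (r + 1) × Option (Fin q) × Typ q Δ r →
      Typ q Δ r × Option (Fin q) × Typ q Δ r := fun r k => (k.1.1, k.2)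
  let π2 : (r : ℕ) → Typ q Δ (r + 1) × Option (Fin q) × Typ q Δ (r + 1) →
      Typ q Δ (r + 1) × Option (Fin q) × Typ q Δ r := fun r k => (k.1, k.2.1, k.2.2.1)
  have hc1 : ∀ r ω, c r ω = π1 r (c' r ω) := fun r ω => rfl
  have hc2 : ∀ r ω, c' r ω = π2 r (c (r + 1) ω) := fun r ω => rfl
  set N : ℝ := (∑ g, μ g) * Fintype.card V with hN
  have hN0 : 0 ≤ N := mul_nonneg (Finset.sum_nonneg fun g _ => hμ g) (Nat.cast_nonneg _)
  -- sums over the triples
  have hsum : ∀ F : (Sym2 V → Option (Fin q)) × V × V → ℝ,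
      ∑ ω, F ω = ∑ g, ∑ i, ∑ j, F (g, i, j) := by
    intro F
    rw [Fintype.sum_prod_type]
    apply Finset.sum_congr rfl
    intro g _
    rw [Fintype.sum_prod_type]
  -- total weight
  have hwtot : ∑ ω, w ω ≤ lam * N := by
    have h1 : ∑ ω, w ω = ∑ g, μ g * ∑ i, (mdeg g i : ℝ) := by
      rw [hsum]
      apply Finset.sum_congr rfl
      intro g _
      rw [Finset.mul_sum]
      apply Finset.sum_congr rfl
      intro i _
      simp only [hw]
      unfold mdeg
      rw [Finset.card_filter]
      push_cast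
      rw [Finset.mul_sum]
      apply Finset.sum_congr rfl
      intro j _
      by_cases h : g s(i, j) = none <;> simp [h]
    rw [h1]
    exact hmean
  -- the mean of f
  have hwf : ∑ ω, w ω * f ω ≤ 2 * N := by
    rw [hsum]
    have h1 : ∀ g, ∑ i, ∑ j, w (g, i, j) * f (g, i, j) ≤ μ g * (2 * Fintype.card V) := by
      intro g
      have h2 : ∀ i, ∑ j, w (g, i, j) * f (g, i, j) ≤ μ g * 2 := by
        intro i
        have h3 : ∀ j, w (g, i, j) * f (g, i, j) ≤ μ g * x g s(i, j) := by
          intro j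
          have h4 : w (g, i, j) ≤ μ g := by
            simp only [hw]
            split_ifs
            · exact hμ g
            · exact le_refl _
          exact mul_le_mul_of_nonneg_right h4 (hf0 (g, i, j))
        refine (Finset.sum_le_sum fun j _ => h3 j).trans ?_
        rw [← Finset.mul_sum]
        exact mul_le_mul_of_nonneg_left ((hx g).row i) (hμ g)
      refine (Finset.sum_le_sum fun i _ => h2 i).trans ?_
      rw [Finset.sum_const, nsmul_eq_mul, Finset.card_univ]
      apply le_of_eq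
      ring
    refine (Finset.sum_le_sum fun g _ => h1 g).trans ?_
    rw [← Finset.sum_mul, hN]
    apply le_of_eq
    ring
  -- energy increment
  have hen : ∃ r < R, ∑ ω, w ω * (H2.ce w f (c r) (c r ω) - H2.ce w f (c' r) (c' r ω)) ^ 2 ≤
      2 * N / R := by
    by_contra hcon
    push Not at hcon
    have h1 : ∀ r ∈ range R, ∑ ω, w ω * (H2.ce w f (c r) (c r ω) -
        H2.ce w f (c' r) (c' r ω)) ^ 2 ≤
        ∑ ω, w ω * H2.ce w f (c (r + 1)) (c (r + 1) ω) ^ 2 -
          ∑ ω, w ω * H2.ce w f (c r) (c r ω) ^ 2 := by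
      intro r _
      rw [H2.sum_sq_sub (f := f) hw0 (c r) (c' r) (π1 r) (hc1 r)]
      have := H2.sum_sq_mono (f := f) hw0 (c' r) (c (r + 1)) (π2 r) (hc2 r)
      linarith
    have h2 := Finset.sum_le_sum h1
    rw [Finset.sum_range_sub (fun r => ∑ ω, w ω * H2.ce w f (c r) (c r ω) ^ 2)] at h2
    have h3 := H2.sum_sq_le (f := f) hw0 hf0 hf1 (c R)
    have h4 : 0 ≤ ∑ ω, w ω * H2.ce w f (c 0) (c 0 ω) ^ 2 :=
      Finset.sum_nonneg fun ω _ => mul_nonneg (hw0 ω) (sq_nonneg _)
    have hR0 : (0 : ℝ) < R := by exact_mod_cast hR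
    have h5 : ∑ _r ∈ range R, 2 * N / (R : ℝ) < ∑ r ∈ range R,
        ∑ ω, w ω * (H2.ce w f (c r) (c r ω) - H2.ce w f (c' r) (c' r ω)) ^ 2 := by
      apply Finset.sum_lt_sum_of_nonempty
      · rw [Finset.nonempty_range_iff]
        omega
      · intro r hr
        exact hcon r (Finset.mem_range.mp hr)
    rw [Finset.sum_const, Finset.card_range, nsmul_eq_mul, mul_div_cancel₀ _ hR0.ne'] at h5
    linarith
  obtain ⟨r, hrR, hr⟩ := hen
  refine ⟨r, hrR, fun t m t' => H2.ce w f (c r) (t, some m, t'), ?_, ?_⟩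
  · intro t m t'
    refine ⟨H2.ce_nonneg hw0 hf0 _ _, H2.ce_le_one hw0 hf1 _ _, ?_⟩
    -- symmetry
    show H2.ce w f (c r) (t, some m, t') = H2.ce w f (c r) (t', some m, t)
    unfold H2.ce
    have key : ∀ F : (Sym2 V → Option (Fin q)) × V × V → ℝ,
        (∀ g i j, F (g, i, j) = F (g, j, i)) →
        ∑ ω with c r ω = (t, some m, t'), F ω = ∑ ω with c r ω = (t', some m, t), F ω := by
      intro F hF
      have hmem : ∀ ω t₁ t₂, c r ω = (t₁, some m, t₂) →
          c r (ω.1, ω.2.2, ω.2.1) = (t₂, some m, t₁) := by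
        rintro ⟨g, i, j⟩ t₁ t₂ hω
        simp only [c, Prod.mk.injEq] at hω ⊢
        refine ⟨hω.2.2, ?_, hω.1⟩
        rw [Sym2.eq_swap]
        exact hω.2.1
      refine Finset.sum_bij' (fun ω _ => (ω.1, ω.2.2, ω.2.1)) (fun ω _ => (ω.1, ω.2.2, ω.2.1))
        ?_ ?_ ?_ ?_ ?_
      · intro ω hω
        exact Finset.mem_filter.mpr ⟨mem_univ _, hmem ω _ _ (Finset.mem_filter.mp hω).2⟩
      · intro ω hω
        exact Finset.mem_filter.mpr ⟨mem_univ _, hmem ω _ _ (Finset.mem_filter.mp hω).2⟩
      · rintro ⟨g, i, j⟩ _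
        rfl
      · rintro ⟨g, i, j⟩ _
        rfl
      · rintro ⟨g, i, j⟩ _
        exact hF g i j
    rw [key (fun ω => w ω * f ω), key w]
    · intro g i j
      simp only [hw]
      rw [Sym2.eq_swap]
    · intro g i j
      simp only [hw, hf]
      rw [Sym2.eq_swap]
  · -- the main inequality
    set H : (Sym2 V → Option (Fin q)) × V × V → ℝ := fun ω => H2.ce w f (c r) (c r ω) with hH
    set H' : (Sym2 V → Option (Fin q)) × V × V → ℝ := fun ω => H2.ce w f (c' r) (c' r ω) with hH'
    -- (1) the objective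
    have hobj : ∑ g, μ g * W g = ∑ g, μ g * ∑ i, (∑ j, wm q (g s(i, j)) * H (g, i, j)) / 2 := by
      have h1 := H2.sum_ce (f := f) hw0 (c r) (fun k => wm q k.2.1)
      rw [hsum, hsum] at h1
      have h2 : ∀ g, ∀ F : V → V → ℝ, ∑ i, ∑ j, w (g, i, j) * (wm q (g s(i, j)) * F i j) =
          μ g * ∑ i, ∑ j, wm q (g s(i, j)) * F i j := by
        intro g F
        rw [Finset.mul_sum]
        apply Finset.sum_congr rfl
        intro i _
        rw [Finset.mul_sum]
        apply Finset.sum_congr rfl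
        intro j _
        simp only [hw]
        by_cases h : g s(i, j) = none
        · simp [h, wm]
        · simp [h]
      have h3 : ∑ g, μ g * ∑ i, ∑ j, wm q (g s(i, j)) * H (g, i, j) =
          ∑ g, μ g * ∑ i, ∑ j, wm q (g s(i, j)) * x g s(i, j) := by
        have h4 : ∀ g, μ g * ∑ i, ∑ j, wm q (g s(i, j)) * H (g, i, j) =
            ∑ i, ∑ j, w (g, i, j) * (wm q (g s(i, j)) * H (g, i, j)) :=
          fun g => (h2 g (fun i j => H (g, i, j))).symm
        have h5 : ∀ g, μ g * ∑ i, ∑ j, wm q (g s(i, j)) * x g s(i, j) =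
            ∑ i, ∑ j, w (g, i, j) * (wm q (g s(i, j)) * x g s(i, j)) :=
          fun g => (h2 g (fun i j => x g s(i, j))).symm
        rw [Finset.sum_congr rfl (fun g _ => h4 g), Finset.sum_congr rfl (fun g _ => h5 g)]
        exact h1
      have h6 : ∀ g, μ g * W g = (μ g * ∑ i, ∑ j, wm q (g s(i, j)) * x g s(i, j)) / 2 := by
        intro g
        rw [← hxW g]
        unfold obj
        ring
      have h7 : ∀ g, μ g * ∑ i, (∑ j, wm q (g s(i, j)) * H (g, i, j)) / 2 =
          (μ g * ∑ i, ∑ j, wm q (g s(i, j)) * H (g, i, j)) / 2 := by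
        intro g
        rw [← Finset.sum_div]
        ring
      rw [Finset.sum_congr rfl (fun g _ => h6 g), Finset.sum_congr rfl (fun g _ => h7 g),
        ← Finset.sum_div, ← Finset.sum_div, h3]
    -- (2) the rows of H'
    have hrow : ∀ g, μ g ≠ 0 → ∀ i, ∑ j, (if g s(i, j) = none then 0 else H' (g, i, j)) ≤ 2 := by
      intro g hg i
      set τ : Typ q Δ (r + 1) := typ Δ g (r + 1) i with hτ
      -- the row sum is a function of the type
      have h1 : ∀ g', μ g' ≠ 0 → ∀ i', typ Δ g' (r + 1) i' = τ →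
          ∑ j, (if g' s(i', j) = none then 0 else H' (g', i', j)) =
            ∑ z : Fin q × Typ q Δ r, (((τ.2 z : Fin (Δ + 1)) : ℕ) : ℝ) *
              H2.ce w f (c' r) (τ, some z.1, z.2) := by
        intro g' hg' i' hi'
        have h2 := H2.count_sum g' r i' (hdeg g' hg' i')
          (fun z => H2.ce w f (c' r) (τ, some z.1, z.2))
        rw [hi'] at h2
        rw [h2]
        apply Finset.sum_congr rfl
        intro j _
        simp only [hH', c']
        rw [hi']
        rcases h3 : g' s(i', j) with _ | m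
        · simp
        · simp
      rw [h1 g hg i rfl]
      set Φ : ℝ := ∑ z : Fin q × Typ q Δ r, (((τ.2 z : Fin (Δ + 1)) : ℕ) : ℝ) *
              H2.ce w f (c' r) (τ, some z.1, z.2) with hΦ
      -- total weight of the type
      set T : ℝ := ∑ g', ∑ i', if typ Δ g' (r + 1) i' = τ then μ g' else 0 with hT
      have hT0 : 0 < T := by
        have h2 : ∀ g', 0 ≤ ∑ i', if typ Δ g' (r + 1) i' = τ then μ g' else 0 := by
          intro g'
          apply Finset.sum_nonneg
          intro i' _
          split_ifs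
          · exact hμ g'
          · exact le_refl _
        have h3 : 0 < ∑ i', if typ Δ g (r + 1) i' = τ then μ g else 0 := by
          have h4 : (if typ Δ g (r + 1) i = τ then μ g else 0) ≤
              ∑ i', if typ Δ g (r + 1) i' = τ then μ g else 0 := by
            apply Finset.single_le_sum (f := fun i' => if typ Δ g (r + 1) i' = τ then μ g else 0)
            · intro i' _
              split_ifs
              · exact hμ g
              · exact le_refl _
            · exact mem_univ i
          rw [if_pos rfl] at h4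
          exact lt_of_lt_of_le (lt_of_le_of_ne (hμ g) (Ne.symm hg)) h4
        exact lt_of_lt_of_le h3 (Finset.single_le_sum
          (f := fun g' => ∑ i', if typ Δ g' (r + 1) i' = τ then μ g' else 0)
          (fun g' _ => h2 g') (mem_univ g))
      have h5 := H2.sum_ce (f := f) hw0 (c' r) (fun k => if k.1 = τ then (1 : ℝ) else 0)
      rw [hsum, hsum] at h5
      have h6 : ∑ g', ∑ i', ∑ j, w (g', i', j) * ((if typ Δ g' (r + 1) i' = τ then (1 : ℝ) else 0) *
          H' (g', i', j)) = Φ * T := by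
        rw [hT, Finset.mul_sum]
        apply Finset.sum_congr rfl
        intro g' _
        rw [Finset.mul_sum]
        apply Finset.sum_congr rfl
        intro i' _
        by_cases h7 : μ g' = 0
        · have h8 : ∀ j, w (g', i', j) = 0 := by
            intro j
            simp only [hw]
            split_ifs
            · rfl
            · exact h7
          simp [h8, h7]
        · by_cases h9 : typ Δ g' (r + 1) i' = τ
          · rw [if_pos h9, if_pos h9, ← h1 g' h7 i' h9, Finset.sum_mul]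
            apply Finset.sum_congr rfl
            intro j _
            simp only [hw]
            split_ifs
            · simp
            · ring
          · rw [if_neg h9, if_neg h9]
            simp
      have h10 : ∑ g', ∑ i', ∑ j, w (g', i', j) * ((if typ Δ g' (r + 1) i' = τ then (1 : ℝ) else 0) *
          f (g', i', j)) ≤ 2 * T := by
        rw [hT, Finset.mul_sum]
        apply Finset.sum_le_sum
        intro g' _
        rw [Finset.mul_sum]
        apply Finset.sum_le_sum
        intro i' _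
        by_cases h9 : typ Δ g' (r + 1) i' = τ
        · simp only [if_pos h9]
          have h11 : ∀ j, w (g', i', j) * (1 * f (g', i', j)) ≤ μ g' * x g' s(i', j) := by
            intro j
            have h4 : w (g', i', j) ≤ μ g' := by
              simp only [hw]
              split_ifs
              · exact hμ g'
              · exact le_refl _
            rw [one_mul]
            exact mul_le_mul_of_nonneg_right h4 (hf0 (g', i', j))
          refine (Finset.sum_le_sum fun j _ => h11 j).trans ?_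
          rw [← Finset.mul_sum, mul_comm 2 (μ g')]
          exact mul_le_mul_of_nonneg_left ((hx g').row i') (hμ g')
        · simp [h9]
      have h12 : Φ * T ≤ 2 * T := by
        rw [← h6]
        refine le_trans (le_of_eq ?_) h10
        exact h5
      exact le_of_mul_le_mul_right h12 hT0
    -- (3) the penalty
    have hpen : ∑ g, μ g * ∑ i, max (∑ j, (if g s(i, j) = none then 0 else H (g, i, j)) - 2) 0 ≤
        √(2 * lam / R) * N := by
      have h1 : ∀ g, μ g * ∑ i, max (∑ j, (if g s(i, j) = none then 0 else H (g, i, j)) - 2) 0 ≤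
          ∑ i, ∑ j, w (g, i, j) * |H (g, i, j) - H' (g, i, j)| := by
        intro g
        rw [Finset.mul_sum]
        apply Finset.sum_le_sum
        intro i _
        by_cases hg : μ g = 0
        · rw [hg, zero_mul]
          exact Finset.sum_nonneg fun j _ => mul_nonneg (hw0 _) (abs_nonneg _)
        · have h2 : max (∑ j, (if g s(i, j) = none then 0 else H (g, i, j)) - 2) 0 ≤
              ∑ j, (if g s(i, j) = none then 0 else |H (g, i, j) - H' (g, i, j)|) := by
            apply max_le
            · have h3 := hrow g hg i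
              have h4 : ∑ j, (if g s(i, j) = none then 0 else H (g, i, j)) -
                  ∑ j, (if g s(i, j) = none then 0 else H' (g, i, j)) ≤
                  ∑ j, (if g s(i, j) = none then 0 else |H (g, i, j) - H' (g, i, j)|) := by
                rw [← Finset.sum_sub_distrib]
                apply Finset.sum_le_sum
                intro j _
                split_ifs
                · simp
                · exact le_abs_self _
              linarith
            · apply Finset.sum_nonneg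
              intro j _
              split_ifs
              · exact le_refl _
              · exact abs_nonneg _
          refine (mul_le_mul_of_nonneg_left h2 (hμ g)).trans (le_of_eq ?_)
          rw [Finset.mul_sum]
          apply Finset.sum_congr rfl
          intro j _
          simp only [hw]
          split_ifs
          · simp
          · rfl
      refine (Finset.sum_le_sum fun g _ => h1 g).trans ?_
      rw [← hsum (fun ω => w ω * |H ω - H' ω|)]
      refine (H2.cauchy hw0 (fun ω => H ω - H' ω)).trans ?_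
      have h3 : √(∑ ω, w ω) * √(∑ ω, w ω * (H ω - H' ω) ^ 2) ≤ √(lam * N) * √(2 * N / R) :=
        mul_le_mul (Real.sqrt_le_sqrt hwtot) (Real.sqrt_le_sqrt hr) (Real.sqrt_nonneg _)
          (Real.sqrt_nonneg _)
      refine h3.trans (le_of_eq ?_)
      rw [← Real.sqrt_mul (mul_nonneg hlam hN0)]
      have h4 : lam * N * (2 * N / R) = (2 * lam / R) * N ^ 2 := by ring
      rw [h4, Real.sqrt_mul (by positivity), Real.sqrt_sq hN0]
    -- assembling
    have hphi : ∀ g, μ g * ∑ i, phi (fun t m t' => H2.ce w f (c r) (t, some m, t'))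
        (typ Δ g (r + 1) i) =
        μ g * ∑ i, (∑ j, wm q (g s(i, j)) * H (g, i, j)) / 2 -
        μ g * ∑ i, max (∑ j, (if g s(i, j) = none then 0 else H (g, i, j)) - 2) 0 := by
      intro g
      by_cases hg : μ g = 0
      · rw [hg]; ring
      · rw [← mul_sub, ← Finset.sum_sub_distrib]
        congr 1
        apply Finset.sum_congr rfl
        intro i _
        unfold phi
        have h1 := H2.count_sum g r i (hdeg g hg i)
          (fun z => wm q (some z.1) * H2.ce w f (c r) (typ Δ g r i, some z.1, z.2))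
        have h2 := H2.count_sum g r i (hdeg g hg i)
          (fun z => H2.ce w f (c r) (typ Δ g r i, some z.1, z.2))
        have h3 : ∑ z : Fin q × Typ q Δ r, ((((typ Δ g (r + 1) i).2 z : Fin (Δ + 1)) : ℕ) : ℝ) *
            wm q (some z.1) * H2.ce w f (c r) ((typ Δ g (r + 1) i).1, some z.1, z.2) =
            ∑ j, wm q (g s(i, j)) * H (g, i, j) := by
          have h4 : ∑ z : Fin q × Typ q Δ r, ((((typ Δ g (r + 1) i).2 z : Fin (Δ + 1)) : ℕ) : ℝ) *
            wm q (some z.1) * H2.ce w f (c r) ((typ Δ g (r + 1) i).1, some z.1, z.2) =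
            ∑ z : Fin q × Typ q Δ r, ((((typ Δ g (r + 1) i).2 z : Fin (Δ + 1)) : ℕ) : ℝ) *
            (wm q (some z.1) * H2.ce w f (c r) (typ Δ g r i, some z.1, z.2)) := by
            apply Finset.sum_congr rfl
            intro z _
            rw [mul_assoc]
            rfl
          rw [h4, h1]
          apply Finset.sum_congr rfl
          intro j _
          simp only [hH, c]
          rcases h5 : g s(i, j) with _ | m
          · simp [wm]
          · simp
        have h6 : ∑ z : Fin q × Typ q Δ r, ((((typ Δ g (r + 1) i).2 z : Fin (Δ + 1)) : ℕ) : ℝ) *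
            H2.ce w f (c r) ((typ Δ g (r + 1) i).1, some z.1, z.2) =
            ∑ j, (if g s(i, j) = none then 0 else H (g, i, j)) := by
          refine Eq.trans h2 ?_
          apply Finset.sum_congr rfl
          intro j _
          simp only [hH, c]
          rcases h5 : g s(i, j) with _ | m
          · simp
          · simp
        rw [h3, h6]
    rw [Finset.sum_congr rfl (fun g _ => hphi g), Finset.sum_sub_distrib, ← hobj]
    linarith

end MP329
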