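import Pool.Agent.Lib.MP_329b4d_pr.A2Indep
import Pool.Agent.Lib.MP_329b4d_pr.A3Sprinkle
import Pool.Agent.Lib.MP_329b4d_pr.A4Row
import Pool.Agent.Lib.MP_329b4d_pr.A5Attempts
import Pool.Agent.Lib.MP_329b4d_pr.A7Coin
import Pool.Agent.Lib.MP_329b4d_pr.B1Lists
import Pool.Agent.Lib.MP_329b4d_pr.B2Tour
import Pool.Agent.Lib.MP_329b4d_pr.C1Conflict
import Pool.Agent.Lib.MP_329b4d_pr.C2Direct
import Pool.Agent.Lib.MP_329b4d_pr.C3Rot
import Pool.Agent.Lib.MP_329b4d_pr.C4Book
import Pool.Agent.Lib.MP_329b4d_pr.C5Colour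
import Pool.Agent.Lib.MP_329b4d_pr.C6ApplyRot
import Pool.Agent.Lib.MP_329b4d_pr.C7ApplyMerge
import Pool.Agent.Lib.MP_329b4d_pr.C8Round
import Pool.Agent.Lib.MP_329b4d_pr.D1Expands
import Pool.Agent.Lib.MP_329b4d_pr.D2RotStep
import Pool.Agent.Lib.MP_329b4d_pr.D3Growth
import Pool.Agent.Lib.MP_329b4d_pr.D6Join
import Pool.Agent.Lib.MP_329b4d_pr.D7Final
import Pool.Agent.Lib.MP_329b4d_pr.E2Stage
import Pool.Agent.Lib.MP_329b4d_pr.E3Numbers
import Pool.Agent.Lib.MP_329b4d_pr.E3Schedule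
import Pool.Agent.Lib.MP_329b4d_pr.E4Patch
import Pool.Agent.Lib.MP_329b4d_pr.F1Regular
import Pool.Agent.Lib.MP_329b4d_pr.G1LP
import Pool.Agent.Lib.MP_329b4d_pr.G2Repair
import Pool.Agent.Lib.MP_329b4d_pr.G3Lip
import Pool.Agent.Lib.MP_329b4d_pr.G6Min
import Pool.Agent.Lib.MP_329b4d_pr.G7Cycle
import Pool.Agent.Lib.MP_329b4d_pr.G8Round
import Pool.Agent.Lib.MP_329b4d_pr.G9Cheap
import Pool.Agent.Lib.MP_329b4d_pr.H1Lower
import Pool.Agent.Lib.MP_329b4d_pr.H2Upper
import Pool.Agent.Lib.MP_329b4d_pr.SpecK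

/-!
# MP_329b4d_pr: the patching theorem and the linear programming part, all modules put together
-/

namespace MP329

theorem conflictFree' : ConflictFree := conflictFree
theorem roundLemma' : RoundLemma :=
  roundLemma listFacts (directPairs conflictFree) (rotTriples conflictFree) bookkeeping colouring
    applyRot applyMerge
theorem finalStage' : FinalStage := finalStage expandsLikely (rotGrowth rotStep) joinAll
theorem patchTheorem' : PatchTheorem :=
  patchTheorem (scheduleLemma (stageLemma roundLemma') scheduleNumbers) finalStage'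
theorem rounding' : Rounding := rounding lpBasic (lpMin lpBasic) cyclePack
theorem cheapCover' : CheapCover := cheapCover rounding'
theorem tourLower' : TourLower := tourLower lpBasic

end MP329
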