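import Pool.Agent.Lib.MP_329b4d_pr.SpecI
import Pool.Agent.Lib.MP_329b4d_pr.Basic
import Pool.Agent.Lib.MP_329b4d_pr.A7Coin

/-!
# MP_329b4d_pr: J2, concentration of the linear program
-/

namespace MP329

open Finset MeasureTheory Filter

set_option linter.unusedSectionVars false

section

variable {n d q : ℕ}

theorem j2_meas (h4 : GeoLawFacts) (R : ℝ) (S : Finset (Sym2 (Fin n)))
    (F : (Sym2 (Fin n) → Option (Fin q)) → ℝ) :
    Measurable (fun X : Fin n → Pt d => F (geo q R X S)) := by
  intro B _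
  exact h4.meas n d q R S (fun g => F g ∈ B)

theorem j2_int (h4 : GeoLawFacts) (R : ℝ) (S : Finset (Sym2 (Fin n)))
    (F : (Sym2 (Fin n) → Option (Fin q)) → ℝ) :
    Integrable (fun X : Fin n → Pt d => F (geo q R X S))
      (Measure.pi fun _ : Fin n => unif d) := by
  have := h4.unif_prob d
  refine Integrable.of_bound (j2_meas h4 R S F).aestronglyMeasurable (∑ g, |F g|) ?_
  refine Filter.Eventually.of_forall fun X => ?_
  rw [Real.norm_eq_abs]
  exact Finset.single_le_sum (f := fun g => |F g|) (fun g _ => abs_nonneg _) (mem_univ _)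

theorem j2_swap (p : ℝ) (f : (Fin n → Pt d) → Finset (Sym2 (Fin n)) → ℝ)
    (hf : ∀ S, Integrable (fun X => f X S) (Measure.pi fun _ : Fin n => unif d)) :
    ∫ X, Ex p (fun S => f X S) ∂(Measure.pi fun _ : Fin n => unif d) =
      Ex p (fun S => ∫ X, f X S ∂(Measure.pi fun _ : Fin n => unif d)) := by
  unfold Ex
  rw [integral_finsetSum]
  · exact Finset.sum_congr rfl fun S _ => integral_const_mul _ _
  · exact fun S _ => (hf S).const_mul _

theorem geo_congr_pos (R : ℝ) (S : Finset (Sym2 (Fin n))) (X X' : Fin n → Pt d) (i : Fin n)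
    (h : ∀ j, j ≠ i → X j = X' j) (e : Sym2 (Fin n)) (he : i ∉ e) :
    geo q R X S e = geo q R X' S e := by
  have hl : len X e = len X' e := by
    induction e using Sym2.inductionOn with
    | hf a b =>
      have ha : a ≠ i := by
        rintro rfl
        exact he (Sym2.mem_mk_left _ _)
      have hb : b ≠ i := by
        rintro rfl
        exact he (Sym2.mem_mk_right _ _)
      show dist (X a) (X b) = dist (X' a) (X' b)
      rw [h a ha, h b hb]
  unfold geo
  rw [hl]

/-- Variance over the positions. -/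
theorem j2_pos (h1 : EfronStein) (h2 : WLip) (h3 : LPBasic) (h4 : GeoLawFacts) (R : ℝ)
    (S : Finset (Sym2 (Fin n))) :
    ∫ X, (W (geo q R X S) - ∫ Y, W (geo q R Y S) ∂(Measure.pi fun _ : Fin n => unif d)) ^ 2
      ∂(Measure.pi fun _ : Fin n => unif d) ≤ 4 * n := by
  have := h4.unif_prob d
  refine le_trans (h1 (Fin n) (Pt d) (unif d) (fun _ => 2) (fun X => W (geo q R X S)) n
    (j2_meas h4 R S (fun g => W g)) ?_ ?_) ?_
  · intro X
    have a1 := h3.W_nonneg (Fin n) q (geo q R X S)
    have a2 := h3.W_le (Fin n) q (geo q R X S)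
    rw [Fintype.card_fin] at a2
    show |W (geo q R X S)| ≤ n
    rw [abs_of_nonneg a1]
    exact a2
  · intro i X X' hX
    exact h2.vertex (Fin n) q _ _ i fun e he => geo_congr_pos R S X X' i hX e he
  · rw [Finset.sum_const, card_univ, Fintype.card_fin, nsmul_eq_mul]
    linarith

/-- The probability of a short distance. -/
theorem j2_short (h4 : GeoLawFacts) (h5 : PathProb) (p K : ℝ) (hn : 1 ≤ n) (hd : 1 ≤ d)
    (hq : 1 ≤ q) (hp0 : 0 < p) (hp1 : p ≤ 1) (hK : 0 < K) (e : Sym2 (Fin n)) :
    ∫ X : Fin n → Pt d, (if geo q (K * unit d n p) X univ e ≠ none then (1 : ℝ) else 0)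
      ∂(Measure.pi fun _ : Fin n => unif d) ≤ vK d K / (n * p) := by
  have hv : 0 ≤ vK d K := ENNReal.toReal_nonneg
  have hδ : 0 ≤ vK d K / (n * p) := by positivity
  by_cases hdiag : e.IsDiag
  · have h0 : ∀ X : Fin n → Pt d,
        (if geo q (K * unit d n p) X univ e ≠ none then (1 : ℝ) else 0) = 0 := by
      intro X
      rw [if_neg]
      simp [geo, hdiag]
    simp only [h0, integral_zero]
    exact hδ
  · revert hdiag
    induction e using Sym2.inductionOn with
    | hf i j =>
      intro hdiag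
      have hij : i ≠ j := by simpa using hdiag
      have a1 := h5 n d q p K {s(i, j)} [i, j] hn hd hq hp0 hp1 hK (by simp [hij]) (by simp)
        (by simp [links])
      have a2 := h4.integral n d q p (K * unit d n p) hp0.le hp1
        (fun g => if g s(i, j) ≠ none then (1 : ℝ) else 0)
      have a3 : ∑ g, geoLaw n d q p (K * unit d n p) g *
          (if g s(i, j) ≠ none then (1 : ℝ) else 0) ≤ p * (vK d K / (n * p)) := by
        refine le_trans (le_of_eq ?_) (le_trans a1 (le_of_eq ?_))
        · refine Finset.sum_congr rfl fun g _ => ?_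
          congr 1
          by_cases hg : g s(i, j) = none
          · simp [hg]
          · simp [hg]
        · simp
      rw [a2] at a3
      have a4 : ∀ X : Fin n → Pt d, Ex p (fun S => if geo q (K * unit d n p) X S s(i, j) ≠ none
          then (1 : ℝ) else 0) =
          p * (if geo q (K * unit d n p) X univ s(i, j) ≠ none then (1 : ℝ) else 0) := by
        intro X
        have b1 : Ex p (fun S : Finset (Sym2 (Fin n)) =>
            (if s(i, j) ∈ S then (1 : ℝ) else 0)) = p := by
          have := Pb_subset (ι := Sym2 (Fin n)) p {s(i, j)}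
          rw [Finset.card_singleton, pow_one] at this
          refine Eq.trans ?_ this
          unfold Pb
          refine Ex_congr fun S => ?_
          by_cases hS : s(i, j) ∈ S
          · simp [hS]
          · simp [hS]
        by_cases hX : geo q (K * unit d n p) X univ s(i, j) = none
        · have b2 : ∀ S : Finset (Sym2 (Fin n)),
              (if geo q (K * unit d n p) X S s(i, j) ≠ none then (1 : ℝ) else 0) = 0 := by
            intro S
            rw [if_neg]
            rw [not_not]
            unfold geo at hX ⊢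
            by_cases hS : s(i, j) ∈ S
            · simpa [hS] using hX
            · simp [hS]
          rw [Ex_congr b2, Ex_const, if_neg (by simpa using hX), mul_zero]
        · have b2 : ∀ S : Finset (Sym2 (Fin n)),
              (if geo q (K * unit d n p) X S s(i, j) ≠ none then (1 : ℝ) else 0) =
                (if s(i, j) ∈ S then (1 : ℝ) else 0) := by
            intro S
            by_cases hS : s(i, j) ∈ S
            · have : geo q (K * unit d n p) X S s(i, j) =
                  geo q (K * unit d n p) X univ s(i, j) := by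
                unfold geo
                simp [hS]
              rw [if_pos hS, if_pos (by rw [this]; exact hX)]
            · rw [if_neg hS, if_neg]
              rw [not_not]
              unfold geo
              simp [hS]
          rw [Ex_congr b2, b1, if_pos hX, mul_one]
      simp only [a4] at a3
      rw [integral_const_mul] at a3
      exact le_of_mul_le_mul_left a3 hp0

/-- Mean over the positions. -/
noncomputable def fS (n d q : ℕ) (R : ℝ) (S : Finset (Sym2 (Fin n))) : ℝ :=
  ∫ X, W (geo q R X S) ∂(Measure.pi fun _ : Fin n => unif d)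

theorem j2_fS_bound (h3 : LPBasic) (h4 : GeoLawFacts) (R : ℝ) (S : Finset (Sym2 (Fin n))) :
    |fS n d q R S| ≤ n := by
  have := h4.unif_prob d
  unfold fS
  refine le_trans (abs_integral_le_integral_abs) ?_
  refine le_trans (integral_mono (j2_int h4 R S (fun g => |W g|)) (integrable_const (n : ℝ)) ?_) ?_
  · intro X
    have a1 := h3.W_nonneg (Fin n) q (geo q R X S)
    have a2 := h3.W_le (Fin n) q (geo q R X S)
    rw [Fintype.card_fin] at a2
    show |W (geo q R X S)| ≤ n
    rw [abs_of_nonneg a1]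
    exact a2
  · simp

theorem j2_coin_diff (h2 : WLip) (h4 : GeoLawFacts) (h5 : PathProb) (p K : ℝ)
    (hn : 1 ≤ n) (hd : 1 ≤ d) (hq : 1 ≤ q) (hp0 : 0 < p) (hp1 : p ≤ 1) (hK : 0 < K)
    (e : Sym2 (Fin n)) (S S' : Finset (Sym2 (Fin n))) (hS : ∀ e', e' ≠ e → (e' ∈ S ↔ e' ∈ S')) :
    |fS n d q (K * unit d n p) S - fS n d q (K * unit d n p) S'| ≤ vK d K / (n * p) := by
  unfold fS
  rw [← integral_sub (j2_int h4 _ S (fun g => W g)) (j2_int h4 _ S' (fun g => W g))]
  refine le_trans (abs_integral_le_integral_abs) ?_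
  refine le_trans (integral_mono ?_ (j2_int h4 (K * unit d n p) univ
    (fun g => if g e ≠ none then (1 : ℝ) else 0)) ?_) (j2_short h4 h5 p K hn hd hq hp0 hp1 hK e)
  · exact ((j2_int h4 _ S (fun g => W g)).sub (j2_int h4 _ S' (fun g => W g))).abs
  · intro X
    have hne : ∀ e', e' ≠ e → geo q (K * unit d n p) X S e' = geo q (K * unit d n p) X S' e' := by
      intro e' he'
      unfold geo
      simp only [hS e' he']
    show |W (geo q (K * unit d n p) X S) - W (geo q (K * unit d n p) X S')| ≤
      if geo q (K * unit d n p) X univ e ≠ none then (1 : ℝ) else 0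
    by_cases hX : geo q (K * unit d n p) X univ e = none
    · have hnone : ∀ T : Finset (Sym2 (Fin n)), geo q (K * unit d n p) X T e = none := by
        intro T
        unfold geo at hX ⊢
        by_cases hT : e ∈ T
        · simpa [hT] using hX
        · simp [hT]
      have heq : geo q (K * unit d n p) X S = geo q (K * unit d n p) X S' := by
        funext e'
        by_cases he' : e' = e
        · rw [he', hnone, hnone]
        · exact hne e' he'
      rw [heq, sub_self, abs_zero]
      split_ifs <;> norm_num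
    · rw [if_pos hX]
      exact h2.pair (Fin n) q _ _ e hne

theorem j2_card_sym2 (hn : 1 ≤ n) : (Fintype.card (Sym2 (Fin n)) : ℝ) ≤ (n : ℝ) ^ 2 := by
  have h := Sym2.card (α := Fin n)
  rw [Fintype.card_fin] at h
  rw [h, Nat.choose_two_right]
  have h1 : (n + 1) * (n + 1 - 1) / 2 ≤ n ^ 2 := by
    apply Nat.div_le_of_le_mul
    rw [Nat.add_sub_cancel]
    nlinarith
  exact_mod_cast h1

/-- Variance over the coins. -/
theorem j2_coin (h1 : EfronStein) (h2 : WLip) (h3 : LPBasic) (h4 : GeoLawFacts) (h5 : PathProb)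
    (p K : ℝ) (hn : 1 ≤ n) (hd : 1 ≤ d) (hq : 1 ≤ q) (hp0 : 0 < p) (hp1 : p ≤ 1) (hK : 0 < K) :
    Ex p (fun S => (fS n d q (K * unit d n p) S - Ex p (fS n d q (K * unit d n p))) ^ 2) ≤
      (n : ℝ) ^ 2 * (vK d K / (n * p)) ^ 2 := by
  obtain ⟨_, c2, _⟩ := coinEx (Sym2 (Fin n)) p hp0.le hp1
  have := coin_prob hp0.le hp1
  have a1 := h1 (Sym2 (Fin n)) Bool (coin p) (fun _ => vK d K / (n * p))
    (fun c => fS n d q (K * unit d n p) (univ.filter fun e => c e = true)) n
    (measurable_of_countable _)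
    (fun c => j2_fS_bound h3 h4 _ _)
    (by
      intro e c c' hc
      refine j2_coin_diff h2 h4 h5 p K hn hd hq hp0 hp1 hK e _ _ ?_
      intro e' he'
      simp [hc e' he'])
  rw [c2 (fS n d q (K * unit d n p))] at a1
  rw [c2 (fun S => (fS n d q (K * unit d n p) S - Ex p (fS n d q (K * unit d n p))) ^ 2)] at a1
  refine le_trans a1 ?_
  rw [Finset.sum_const, card_univ, nsmul_eq_mul]
  exact mul_le_mul_of_nonneg_right (j2_card_sym2 hn) (sq_nonneg _)

/-- The variance bound. -/
theorem j2_var (h1 : EfronStein) (h2 : WLip) (h3 : LPBasic) (h4 : GeoLawFacts) (h5 : PathProb)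
    (p K : ℝ) (hn : 1 ≤ n) (hd : 1 ≤ d) (hq : 1 ≤ q) (hp0 : 0 < p) (hp1 : p ≤ 1) (hK : 0 < K)
    (m : ℝ) (hm : m = ∑ g, geoLaw n d q p (K * unit d n p) g * W g) :
    ∑ g, geoLaw n d q p (K * unit d n p) g * (W g - m) ^ 2 ≤
      8 * n + 2 * ((n : ℝ) ^ 2 * (vK d K / (n * p)) ^ 2) := by
  have := h4.unif_prob d
  set R := K * unit d n p with hR
  have hm' : m = Ex p (fS n d q R) := by
    rw [hm, h4.integral n d q p R hp0.le hp1 (fun g => W g)]
    exact j2_swap p (fun X S => W (geo q R X S)) fun S => j2_int h4 R S (fun g => W g)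
  rw [h4.integral n d q p R hp0.le hp1 (fun g => (W g - m) ^ 2),
    j2_swap p (fun X S => (W (geo q R X S) - m) ^ 2)
      fun S => j2_int h4 R S (fun g => (W g - m) ^ 2)]
  have key : ∀ S : Finset (Sym2 (Fin n)),
      ∫ X, (W (geo q R X S) - m) ^ 2 ∂(Measure.pi fun _ : Fin n => unif d) ≤
        8 * n + 2 * (fS n d q R S - Ex p (fS n d q R)) ^ 2 := by
    intro S
    have b1 : ∫ X, (W (geo q R X S) - m) ^ 2 ∂(Measure.pi fun _ : Fin n => unif d) ≤
        ∫ X, (2 * (W (geo q R X S) - fS n d q R S) ^ 2 + 2 * (fS n d q R S - m) ^ 2)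
          ∂(Measure.pi fun _ : Fin n => unif d) := by
      refine integral_mono (j2_int h4 R S (fun g => (W g - m) ^ 2))
        (j2_int h4 R S (fun g => 2 * (W g - fS n d q R S) ^ 2 + 2 * (fS n d q R S - m) ^ 2)) ?_
      intro X
      show (W (geo q R X S) - m) ^ 2 ≤
        2 * (W (geo q R X S) - fS n d q R S) ^ 2 + 2 * (fS n d q R S - m) ^ 2
      nlinarith [sq_nonneg (W (geo q R X S) - fS n d q R S - (fS n d q R S - m))]
    rw [integral_add (j2_int h4 R S (fun g => 2 * (W g - fS n d q R S) ^ 2)) (integrable_const _),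
      integral_const_mul] at b1
    have b2 := j2_pos (d := d) (q := q) h1 h2 h3 h4 R S
    have b3 : ∫ _X : Fin n → Pt d, 2 * (fS n d q R S - m) ^ 2
        ∂(Measure.pi fun _ : Fin n => unif d) = 2 * (fS n d q R S - m) ^ 2 := by
      simp
    rw [b3] at b1
    have b4 : ∫ X, (W (geo q R X S) - fS n d q R S) ^ 2
        ∂(Measure.pi fun _ : Fin n => unif d) ≤ 4 * n := b2
    rw [← hm']
    linarith
  refine le_trans (Ex_mono hp0.le hp1 key) ?_
  rw [Ex_add, Ex_const, Ex_mul_left]
  have := j2_coin h1 h2 h3 h4 h5 p K hn hd hq hp0 hp1 hK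
  rw [← hR] at this
  linarith

/-- The probability bound. -/
theorem j2_prob (h1 : EfronStein) (h2 : WLip) (h3 : LPBasic) (h4 : GeoLawFacts) (h5 : PathProb)
    (p K η : ℝ) (hn : 1 ≤ n) (hd : 1 ≤ d) (hq : 1 ≤ q) (hp0 : 0 < p) (hp1 : p ≤ 1) (hK : 0 < K)
    (hη : 0 < η) :
    ((law n d p) {ω | η * n ≤ |W (geo q (K * unit d n p) ω.1 (present ω)) -
        n * meanW (geoLaw n d q p (K * unit d n p))|}).toReal ≤
      8 / η ^ 2 * (1 / (n : ℝ)) + 2 / η ^ 2 * (vK d K / (n * p)) ^ 2 := by
  have hn0 : (0 : ℝ) < n := by exact_mod_cast hn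
  set R := K * unit d n p with hR
  set m := ∑ g, geoLaw n d q p R g * W g with hm
  have hmean : (n : ℝ) * meanW (geoLaw n d q p R) = m := by
    unfold meanW
    rw [Fintype.card_fin]
    field_simp
    rfl
  have a1 : ((law n d p) {ω | η * n ≤ |W (geo q R ω.1 (present ω)) -
        n * meanW (geoLaw n d q p R)|}).toReal =
      ∫ X, Pb p (fun S => η * n ≤ |W (geo q R X S) - n * meanW (geoLaw n d q p R)|)
        ∂(Measure.pi fun _ : Fin n => unif d) :=
    h4.prob n d q p R hp0.le hp1 (fun g => η * n ≤ |W g - n * meanW (geoLaw n d q p R)|)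
  rw [a1, hmean]
  classical
  have a2 : ∫ X : Fin n → Pt d, Pb p (fun S => η * n ≤ |W (geo q R X S) - m|)
        ∂(Measure.pi fun _ : Fin n => unif d) =
      ∑ g, geoLaw n d q p R g * (if η * n ≤ |W g - m| then (1 : ℝ) else 0) := by
    rw [h4.integral n d q p R hp0.le hp1 (fun g => if η * n ≤ |W g - m| then (1 : ℝ) else 0)]
    refine integral_congr_ae (Filter.Eventually.of_forall fun X => ?_)
    show Pb p (fun S => η * n ≤ |W (geo q R X S) - m|) =
      Ex p (fun S => if η * n ≤ |W (geo q R X S) - m| then (1 : ℝ) else 0)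
    unfold Pb
    refine Ex_congr fun S => ?_
    by_cases hS : η * n ≤ |W (geo q R X S) - m|
    · simp only [hS, if_true]
    · simp only [hS, if_false]
  rw [a2]
  have a3 : ∑ g, geoLaw n d q p R g * (if η * n ≤ |W g - m| then (1 : ℝ) else 0) ≤
      ∑ g, geoLaw n d q p R g * (W g - m) ^ 2 / (η * n) ^ 2 := by
    refine Finset.sum_le_sum fun g _ => ?_
    rw [mul_div_assoc]
    refine mul_le_mul_of_nonneg_left ?_ (h4.nonneg n d q p R g)
    have hpos : 0 < (η * n) ^ 2 := by positivity
    by_cases hg : η * n ≤ |W g - m|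
    · rw [if_pos hg, le_div_iff₀ hpos, one_mul, ← sq_abs (W g - m)]
      exact pow_le_pow_left₀ (by positivity) hg 2
    · rw [if_neg hg]
      positivity
  refine le_trans a3 ?_
  rw [← Finset.sum_div]
  have a4 := j2_var h1 h2 h3 h4 h5 p K hn hd hq hp0 hp1 hK m hm
  rw [← hR] at a4
  refine le_trans (div_le_div_of_nonneg_right a4 (by positivity)) ?_
  apply le_of_eq
  field_simp

end

/-- **J2.** -/
theorem concentration (h1 : EfronStein) (h2 : WLip) (h3 : LPBasic) (h4 : GeoLawFacts)
    (h5 : PathProb) : Concentration := by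
  intro d q K η p hd hq hK hη hp hnp
  have t1 : Tendsto (fun n : ℕ => vK d K / ((n : ℝ) * p n)) atTop (nhds 0) :=
    hnp.const_div_atTop _
  have t2 : Tendsto (fun n : ℕ => 1 / (n : ℝ)) atTop (nhds 0) := tendsto_one_div_atTop_nhds_zero_nat
  have t3 : Tendsto (fun n : ℕ => 8 / η ^ 2 * (1 / (n : ℝ)) +
      2 / η ^ 2 * (vK d K / (n * p n)) ^ 2) atTop (nhds 0) := by
    have := (t2.const_mul (8 / η ^ 2)).add ((t1.pow 2).const_mul (2 / η ^ 2))
    simpa using this
  refine squeeze_zero' (Filter.Eventually.of_forall fun n => ENNReal.toReal_nonneg) ?_ t3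
  filter_upwards [eventually_ge_atTop 1] with n hn
  exact j2_prob h1 h2 h3 h4 h5 (p n) K η hn hd hq (hp n).1 (hp n).2 hK hη

end MP329
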