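import Pool.Agent.Lib.MP_329b4d_pr.Basic

/-!
# MP_329b4d_pr: statements A (finite Bernoulli sets) and B (lists)

Each statement is a `Prop`; a module proves `theorem xxx : Xxx`.
-/

namespace MP329

open Finset MeasureTheory

/-- **A2, independence.**  If `f` depends only on `S ∩ A` and `g` only on `S \ A` then the
expectation of the product is the product of the expectations.

Proof.  The map `S ↦ (S ∩ A, S \ A)` is a bijection from `Finset ι` onto the pairs `(B, C)` with
`B ⊆ A`, `C ⊆ Aᶜ` (inverse: union).  `wt q S = a (S ∩ A) * b (S \ A)` where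
`a B = ∏ i ∈ A, if i ∈ B then q else 1 - q`, `b C = ∏ i ∈ Aᶜ, if i ∈ C then q else 1 - q`.
Hence `Ex q (f * g) = (∑ B ⊆ A, a B * f B) * (∑ C ⊆ Aᶜ, b C * g C)`.  The same identity with
`g = 1` resp. `f = 1`, and `∑ B ⊆ A, a B = 1 = ∑ C ⊆ Aᶜ, b C` (the identity with `f = g = 1` and
`Finset.prod_add`), identify the two factors. -/
def ExIndep : Prop :=
  ∀ (ι : Type) [Fintype ι] [DecidableEq ι] (q : ℝ) (A : Finset ι) (f g : Finset ι → ℝ),
    (∀ S, f S = f (S ∩ A)) → (∀ S, g S = g (S \ A)) →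
    Ex q (fun S => f S * g S) = Ex q f * Ex q g

/-- **A3, sprinkling.**  Two independent sprinklings are dominated by one.

Proof.  (i) Union law: for every `f`,
`Ex q₁ (fun S₁ => Ex q₂ (fun S₂ => f (S₁ ∪ S₂))) = Ex (q₁ + q₂ - q₁ * q₂) f`.
Indeed for fixed `S` the sum of `wt q₁ S₁ * wt q₂ S₂` over the pairs with `S₁ ∪ S₂ = S` is the
product over `i` of: `q₁ q₂ + q₁ (1 - q₂) + (1 - q₁) q₂` if `i ∈ S`, `(1 - q₁)(1 - q₂)` otherwise.
(One may prove (i) by induction on the index type, or by noting that both sides are linear in `f`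
and that it suffices to check the functions `f S = if Disjoint D S then 1 else 0`, which span all
functions; for those both sides are `((1 - q₁)(1 - q₂)) ^ #D` by `Pb_disjoint`.)
(ii) If `q ≤ q'≤ 1` and `f` is monotone then `Ex q f ≤ Ex q' f`: if `q = 1` trivial; otherwise
with `t = (q' - q) / (1 - q)`, `0 ≤ t ≤ 1`, `q' = q + t - q t`, so by (i)
`Ex q' f = Ex q (fun S => Ex t (fun T => f (S ∪ T))) ≥ Ex q (fun S => Ex t (fun T => f S)) = Ex q f`.
Apply (ii) with `q₁ + q₂ - q₁ q₂ ≤ q₁ + q₂ ≤ q`. -/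
def Sprinkle : Prop :=
  ∀ (ι : Type) [Fintype ι] [DecidableEq ι] (q₁ q₂ q : ℝ), 0 ≤ q₁ → 0 ≤ q₂ → q₁ + q₂ ≤ q → q ≤ 1 →
    ∀ f : Finset ι → ℝ, (∀ S T, S ⊆ T → f S ≤ f T) →
    Ex q₁ (fun S₁ => Ex q₂ (fun S₂ => f (S₁ ∪ S₂))) ≤ Ex q f

/-- **A3', monotonicity in the density.**  (Part (ii) of the proof of `Sprinkle`.) -/
def ExMonoQ : Prop :=
  ∀ (ι : Type) [Fintype ι] [DecidableEq ι] (q q' : ℝ), 0 ≤ q → q ≤ q' → q' ≤ 1 →
    ∀ f : Finset ι → ℝ, (∀ S T, S ⊆ T → f S ≤ f T) → Ex q f ≤ Ex q' f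

/-- **A4, row lemma.**  `R` is a set of coins, `R' ⊆ R`; for `e ∈ R'` the event `A e` does not
depend on the coins in `R` and has probability at least `a`.  Then with probability at least
`(1 - (1 - q) ^ #R') * a` some `e ∈ R'` is kept and `A e` holds.

Proof.  For every nonempty `T ⊆ R'` choose `e T ∈ T`.  The events `{S ∩ R' = T} ∩ A (e T)`,
`T ⊆ R'` nonempty, are pairwise disjoint and contained in the event in question.  By independence
(`ExIndep` with the set `R`; the event `S ∩ R' = T` depends only on `S ∩ R`) the probability of the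
`T`-th one is `Pb (S ∩ R' = T) * Pb (A (e T)) ≥ Pb (S ∩ R' = T) * a`, and
`∑ T ≠ ∅, Pb (S ∩ R' = T) = 1 - Pb (S ∩ R' = ∅) = 1 - (1 - q) ^ #R'` by `Pb_disjoint`. -/
def RowLemma : Prop :=
  ∀ (ι : Type) [Fintype ι] [DecidableEq ι] (q a : ℝ), 0 ≤ q → q ≤ 1 → 0 ≤ a →
    ∀ (R R' : Finset ι) (A : ι → Finset ι → Prop), R' ⊆ R →
    (∀ e ∈ R', ∀ S, A e S ↔ A e (S \ R)) → (∀ e ∈ R', a ≤ Pb q (A e)) →
    (1 - (1 - q) ^ #R') * a ≤ Pb q (fun S => ∃ e ∈ R', e ∈ S ∧ A e S)

/-- **A5, repeated attempts.**  If from every edge set with property `P` one attempt of density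
`q` succeeds (reaches `Q`) with probability at least `κ`, then `R` attempts, total density `R * q`,
succeed with probability at least `1 - (1 - κ) ^ R`.

Proof (given `Sprinkle`).  Induction on `R`; `R = 0`: the bound is `0`, use `Pb_nonneg`.  Step: let
`f S = 1` if `∃ E' ⊆ E ∪ S, Q E'`, else `0`; it is monotone.  By `Sprinkle` with `q`, `R * q`,
`(R + 1) * q`: `Pb ((R+1) q) ≥ Ex q (fun S₁ => Ex (R q) (fun S₂ => f (S₁ ∪ S₂)))`, and the inner
expectation is `1` if `f S₁ = 1`, and otherwise at least `Ex (R q) f ≥ 1 - (1 - κ) ^ R`.  So the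
total is at least `x + (1 - x) (1 - (1 - κ) ^ R) = 1 - (1 - x) (1 - κ) ^ R` with
`x = Pb q (f = 1) ≥ κ`. -/
def Attempts : Prop :=
  ∀ (V : Type) [Fintype V] [DecidableEq V] (q κ : ℝ) (R : ℕ) (P Q : Finset (Sym2 V) → Prop),
    0 ≤ q → 0 ≤ κ → κ ≤ 1 → R * q ≤ 1 → Hits q κ P Q → Hits (R * q) (1 - (1 - κ) ^ R) P Q

/-- **A6, composition of sprinklings.**

Proof (given `Sprinkle`).  Let `E` satisfy `P`; `f S = 1` if `∃ E'' ⊆ E ∪ S, R E''`, else `0`.  If
`S₁` is such that some `E' ⊆ E ∪ S₁` satisfies `Q`, then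
`Ex q₂ (fun S₂ => f (S₁ ∪ S₂)) ≥ Pb q₂ (∃ E'' ⊆ E' ∪ S₂, R E'') ≥ 1 - b`.  So
`Pb q (f = 1) ≥ Pb q₁ (…) * (1 - b) ≥ (1 - a) (1 - b) ≥ 1 - (a + b)` if `a, b ∈ [0, 1]`; if
`b > 1` the claim is trivial since `1 - (a + b) ≤ 0`; likewise if `a > 1`. -/
def Compose : Prop :=
  ∀ (V : Type) [Fintype V] [DecidableEq V] (q₁ q₂ q a b : ℝ) (P Q R : Finset (Sym2 V) → Prop),
    0 ≤ q₁ → 0 ≤ q₂ → q₁ + q₂ ≤ q → q ≤ 1 → 0 ≤ a → 0 ≤ b →
    Hits q₁ (1 - a) P Q → Hits q₂ (1 - b) Q R → Hits q (1 - (a + b)) P R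

/-- **A7, the coin measure is the finite Bernoulli measure.**

Proof.  `Measure.pi` of the (probability) coin measures gives the singleton `{c}` the mass
`∏ i, coin p {c i} = ∏ i, ENNReal.ofReal (if c i then p else 1 - p)`
(`Measure.pi_singleton`), that is `ENNReal.ofReal (wt p {i | c i = true})`.  The integral over the
finite type `ι → Bool` is the sum over singletons (`integral_fintype`), and
`c ↦ {i | c i = true}` is a bijection from `ι → Bool` onto `Finset ι`. -/
def CoinEx : Prop :=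
  ∀ (ι : Type) [Fintype ι] [DecidableEq ι] (p : ℝ), 0 ≤ p → p ≤ 1 →
    IsProbabilityMeasure (Measure.pi fun _ : ι => coin p) ∧
    (∀ f : Finset ι → ℝ, ∫ c, f (univ.filter fun i => c i = true)
      ∂(Measure.pi fun _ : ι => coin p) = Ex p f) ∧
    (∀ A : Finset ι → Prop, (Measure.pi fun _ : ι => coin p)
      {c | A (univ.filter fun i => c i = true)} = ENNReal.ofReal (Pb p A))

/-- **B1, facts on lists.**  All by easy inductions. -/
structure ListFacts : Prop where
  /-- cutting a list at the link `(x, y)` -/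
  links_cut : ∀ (V : Type) (Q₁ Q₂ : List V) (x y : V),
    links (Q₁ ++ x :: y :: Q₂) = links (Q₁ ++ [x]) ++ s(x, y) :: links (y :: Q₂)
  links_reverse : ∀ (V : Type) (l : List V), links l.reverse = (links l).reverse
  length_links : ∀ (V : Type) (l : List V), (links l).length = l.length - 1
  mem_links : ∀ (V : Type) (l : List V) (a b : V),
    s(a, b) ∈ links l ↔ (∃ Q₁ Q₂, l = Q₁ ++ a :: b :: Q₂) ∨ (∃ Q₁ Q₂, l = Q₁ ++ b :: a :: Q₂)
  links_nodup : ∀ (V : Type) (l : List V), l.Nodup → (links l).Nodup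
  links_not_diag : ∀ (V : Type) (l : List V), l.Nodup → ∀ e ∈ links l, ¬ e.IsDiag
  /-- all links of a path cover are distinct -/
  flatMap_links_nodup : ∀ (V : Type) (L : List (List V)), L.flatten.Nodup →
    (L.flatMap links).Nodup
  /-- number of edges plus number of paths is the number of vertices -/
  card_edgesL : ∀ (V : Type) [Fintype V] [DecidableEq V] (L : List (List V)), IsCover L →
    #(edgesL L) + L.length = Fintype.card V
  cover_perm : ∀ (V : Type) (L L' : List (List V)), L.Perm L' → IsCover L → IsCover L'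
  edgesL_perm : ∀ (V : Type) [DecidableEq V] (L L' : List (List V)), L.Perm L' →
    edgesL L = edgesL L'
  /-- one may reverse one of the lists -/
  cover_reverse : ∀ (V : Type) (l : List V) (L : List (List V)), IsCover (l :: L) →
    IsCover (l.reverse :: L)
  edgesL_reverse : ∀ (V : Type) [DecidableEq V] (l : List V) (L : List (List V)),
    edgesL (l.reverse :: L) = edgesL (l :: L)
  /-- joining two lists: `l` ends with `a`, `l'` starts with `b` -/
  cover_join : ∀ (V : Type) (l l' : List V) (L : List (List V)), IsCover (l :: l' :: L) →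
    IsCover ((l ++ l') :: L)
  edgesL_join : ∀ (V : Type) [DecidableEq V] (Q Q' : List V) (a b : V) (L : List (List V)),
    edgesL ((Q ++ a :: b :: Q') :: L) = insert s(a, b) (edgesL ((Q ++ [a]) :: (b :: Q') :: L))
  /-- cutting a list -/
  cover_cut : ∀ (V : Type) (Q Q' : List V) (L : List (List V)), Q ≠ [] → Q' ≠ [] →
    IsCover ((Q ++ Q') :: L) → IsCover (Q :: Q' :: L)
  edgesL_cut : ∀ (V : Type) [DecidableEq V] (Q Q' : List V) (a b : V) (L : List (List V)),
    ((Q ++ a :: b :: Q') :: L).flatten.Nodup →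
    edgesL ((Q ++ [a]) :: (b :: Q') :: L) = (edgesL ((Q ++ a :: b :: Q') :: L)).erase s(a, b)

/-- **B2, the tour length of the model and lists.**  For a sample `ω` and a real `t ≥ 0`:
the tour length is at most `t` if there is a tour (list) all of whose edges are present with total
length at most `t`; and conversely a finite tour length is attained by such a list.

Proof.  For a tour `T : List (Fin n)` (so `T.length = n ≥ 3`) the map `σ i = T.get i` is a
permutation of `Fin n`, and `tourEdges T` is the set of the pairs `s(σ i, σ (finRotate n i))`,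
which are `n` distinct pairs since `n ≥ 3`; so the sums agree.  Conversely for a permutation `σ`
take `T = (List.finRange n).map σ` (`List.ofFn σ`).  The infimum is over a finite set, so it is
attained. -/
def TourList : Prop :=
  ∀ (n d : ℕ) (ω : Sample n d),
    (∀ T : List (Fin n), IsTour T → tourEdges T ⊆ (univ.filter fun e => ω.2 e = true) →
      tourLength ω ≤ ENNReal.ofReal (cost ω.1 (tourEdges T))) ∧
    (tourLength ω ≠ ⊤ → ∃ T : List (Fin n), IsTour T ∧
      tourEdges T ⊆ (univ.filter fun e => ω.2 e = true) ∧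
      tourLength ω = ENNReal.ofReal (cost ω.1 (tourEdges T)))

end MP329
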