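import Pool.Agent.Lib.MP_329b4d_pr.SpecA

/-!
# MP_329b4d_pr: statements C (one round of merging)

A path cover with `m` paths is improved, by sprinkling pairs with density `q`, to one with at most
`(1 - 1/3000) m` paths, with probability at least `1/3000`.
-/

namespace MP329

open Finset

open Classical in
/-- **C1, conflict-free subfamilies.**  `J` is a finite family of operations, `t ∈ J` needs the set
`D t` of coins; `conf` is a symmetric relation.  One can choose, for every outcome `S`, a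
conflict-free family `I S` of operations all of whose coins are present, such that the expected
size of `I S` is at least the expected number of present operations minus half the expected number
of ordered conflicting pairs of distinct present operations.

Proof.  Deterministic part: for a finite set `J'` there is `I ⊆ J'` without distinct conflicting
members and `2 #J' ≤ 2 #I + #{(t, t') ∈ J' × J' | t ≠ t' ∧ conf t t'}`.  Induction on `#J'`: if there
is no conflicting pair take `I = J'`; otherwise let `(t, t')` be one, apply the induction hypothesis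
to `J'.erase t`; at least two ordered pairs, `(t, t')` and `(t', t)`, have disappeared.
Apply this with `J' = J_S = {t ∈ J | D t ⊆ S}`, take expectations, and use `Pb_subset`: the expected
size of `J_S` is `∑ t ∈ J, q ^ #(D t)`; the expected number of conflicting pairs is the sum of
`Pb (D t ∪ D t' ⊆ S)`. -/
def ConflictFree : Prop :=
  ∀ (ι τ : Type) [Fintype ι] [DecidableEq ι] (q : ℝ) (J : Finset τ) (D : τ → Finset ι)
    (conf : τ → τ → Prop), 0 ≤ q → q ≤ 1 → (∀ t t', conf t t' → conf t' t) →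
    ∃ I : Finset ι → Finset τ,
      (∀ S, I S ⊆ J ∧ (∀ t ∈ I S, D t ⊆ S) ∧ ∀ t ∈ I S, ∀ t' ∈ I S, t ≠ t' → ¬ conf t t') ∧
      ∑ t ∈ J, q ^ #(D t) -
        (∑ z ∈ (J ×ˢ J).filter (fun z => z.1 ≠ z.2 ∧ conf z.1 z.2), q ^ #(D z.1 ∪ D z.2)) / 2
        ≤ Ex q (fun S => (#(I S) : ℝ))

/-- **C2, direct merges.**  Inside each member of a disjoint family of sets of size `k ≈ 1/(20 q)`
we look for a matching of present pairs.

Proof.  `ConflictFree` with `ι = τ = Sym2 V`, `J` = all non-diagonal pairs inside some `B ∈ 𝓑`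
(such a pair lies in exactly one `B`), `D t = {t}`, `conf t t' := ∃ v, v ∈ t ∧ v ∈ t'`.  For
`t ≠ t'`, `q ^ #(D t ∪ D t') = q ^ 2`.  For each `B` there are `k (k - 1) / 2` pairs, and for each
pair `2 (k - 2)` other pairs of `B` meet it (and none outside `B`), so the number of ordered
conflicting pairs is `k (k - 1) (k - 2)` per `B`.  So the expectation is at least
`#𝓑 * (q k (k - 1) / 2) * (1 - q (k - 2))`.  Now `q k ≥ 1/20`, hence `k ≥ 50` (as `q ≤ 1/1000`),
`(k - 1)/2 ≥ 0.49 k`, and `q (k - 2) ≤ 1/20`: the product is at least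
`#𝓑 * (1/20) * 0.49 k * 0.95 ≥ #𝓑 * k / 50`. -/
def DirectPairs : Prop :=
  ∀ (V : Type) [Fintype V] [DecidableEq V] (q : ℝ) (k : ℕ) (𝓑 : Finset (Finset V)),
    0 < q → q ≤ 1 / 1000 → 1 ≤ 20 * q * k → 20 * q * ((k : ℝ) - 1) ≤ 1 → (∀ B ∈ 𝓑, #B = k) →
    (∀ B ∈ 𝓑, ∀ B' ∈ 𝓑, B ≠ B' → Disjoint B B') →
    ∃ I : Finset (Sym2 V) → Finset (Sym2 V),
      (∀ S, I S ⊆ S ∧ (∀ e ∈ I S, ¬ e.IsDiag ∧ ∃ B ∈ 𝓑, ∀ v ∈ e, v ∈ B) ∧
        (∀ e ∈ I S, ∀ e' ∈ I S, e ≠ e' → ∀ v ∈ e, v ∉ e')) ∧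
      (#𝓑 * k : ℝ) / 50 ≤ Ex q (fun S => (#(I S) : ℝ))

/-- **C3, rotation triples.**  For every cell `C ∈ Γ` we have sets `A C`, `B C` (heads of lists) and
`X C` (vertices `x` with a short link to `nx x`); a triple `(a, x, b)` is present if both pairs
`s(a, x)`, `s(nx x, b)` are.

Proof.  `ConflictFree` with `ι = Sym2 V`, `τ = V × V × V`,
`J = {(a, x, b) | ∃ C ∈ Γ, a ∈ A C, x ∈ X C, b ∈ B C, lab x ≠ lab a, lab x ≠ lab b}`,
`D (a, x, b) = {s(a, x), s(nx x, b)}`, and conflict: `a = a'` or `x = x'` or `b = b'` (the members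
of `J` in conflict belong to the same cell, by disjointness).  Fix a cell `C`, put `s = #(A C)`,
`w = #(X C)`.
Number of triples: for every `x` at most one `a ∈ A C` has `lab a = lab x` and at most one `b`; so
there are at least `w (s - 1) ^ 2` triples.  `#(D t) = 2` because `a ≠ nx x` and `a ≠ b`.
Two distinct triples of the cell: `s(a, x) = s(a', x')` iff `a = a'` and `x = x'` (as
`x ∉ A C`, so `x ≠ a'`); `s(nx x, b) = s(nx x', b')` iff `x = x'` and `b = b'` (as `nx x ≠ b'` and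
`nx` is injective on the `X`'s); `s(a, x) ≠ s(nx x', b')` (as `a ≠ nx x'`, `a ≠ b'`).  So
`#(D t ∪ D t') = 4 - [a = a' ∧ x = x'] - [x = x' ∧ b = b']`.  Ordered conflicting pairs:
`a = a', x = x', b ≠ b'`: at most `w s ^ 3` pairs, union of size 3; `x = x', b = b', a ≠ a'`: the
same; `x = x', a ≠ a', b ≠ b'`: at most `w s ^ 4`, size 4; `x ≠ x', a = a'`: at most
`w ^ 2 s ^ 3`, size 4; `x ≠ x', b = b'`: at most `w ^ 2 s ^ 3`, size 4.  Half of the sum is at most
`w s³ q³ + w s⁴ q⁴ / 2 + w² s³ q⁴ = s ((w s q²)(s q) + (w s q²)(s q)²/2 + (w s q²)²)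
 ≤ s (1/380 + 1/28000 + 1/100) ≤ 0.013 s`.
Main term: `q² w (s - 1)² = (w s q²) (s - 1)²/s ≥ (0.999/10) s (7/8)² ≥ 0.076 s`, since
`10 w s q² ≥ 1 - 10 s q² ≥ 1 - (10/38) q ≥ 0.999` and `s ≥ 8`.  The difference is `≥ s / 20`. -/
def RotTriples : Prop :=
  ∀ (V Λ κ : Type) [Fintype V] [DecidableEq V] [DecidableEq κ] (q : ℝ) (Γ : Finset κ)
    (A B X : κ → Finset V) (lab : V → Λ) (nx : V → V),
    0 < q → q ≤ 1 / 1000 →
    (∀ C ∈ Γ, #(A C) = #(B C) ∧ 8 ≤ #(A C) ∧ 38 * q * #(A C) ≤ 1 ∧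
      10 * (#(X C) : ℝ) * #(A C) * q ^ 2 ≤ 1 ∧ 1 ≤ 10 * ((#(X C) : ℝ) + 1) * #(A C) * q ^ 2) →
    (∀ C ∈ Γ, ∀ C' ∈ Γ, Disjoint (A C) (B C')) →
    (∀ C ∈ Γ, ∀ C' ∈ Γ, C ≠ C' →
      Disjoint (A C) (A C') ∧ Disjoint (B C) (B C') ∧ Disjoint (X C) (X C')) →
    (∀ C ∈ Γ, Disjoint (A C ∪ B C) (X C)) →
    (∀ C ∈ Γ, ∀ u ∈ A C ∪ B C, ∀ v ∈ A C ∪ B C, lab u = lab v → u = v) →
    (∀ C ∈ Γ, ∀ C' ∈ Γ, ∀ x ∈ X C, ∀ x' ∈ X C', nx x = nx x' → x = x') →
    (∀ C ∈ Γ, ∀ C' ∈ Γ, ∀ x ∈ X C, nx x ∉ A C' ∪ B C') →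
    ∃ I : Finset (Sym2 V) → Finset (V × V × V),
      (∀ S, ∀ t ∈ I S, (∃ C ∈ Γ, t.1 ∈ A C ∧ t.2.1 ∈ X C ∧ t.2.2 ∈ B C) ∧
        lab t.2.1 ≠ lab t.1 ∧ lab t.2.1 ≠ lab t.2.2 ∧
        s(t.1, t.2.1) ∈ S ∧ s(nx t.2.1, t.2.2) ∈ S) ∧
      (∀ S, ∀ t ∈ I S, ∀ t' ∈ I S, t ≠ t' →
        t.1 ≠ t'.1 ∧ t.2.1 ≠ t'.2.1 ∧ t.2.2 ≠ t'.2.2) ∧
      ∑ C ∈ Γ, (#(A C) : ℝ) / 20 ≤ Ex q (fun S => (#(I S) : ℝ))

/-- **C4, bookkeeping of the cells.**  `H` is the set of heads, `m = #H`; `bad` the set of vertices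
without a short next link; `s C = #{h ∈ H | c h = C}`, `n = #V`.

Proof.  Let `cells = univ.image c`.  Each cell has at least `N/2` vertices, so
`#(cells) ≤ 2 n / N` (`N > 0` since `q N ≥ 4`).  If `m = 0`, take `𝓑 = ∅` (first alternative).
*Case 1*: the sum of `s C` over the cells with `s C ≥ k` is at least `m/4`.  Choose a family `𝓑` of
pairwise disjoint `k`-element subsets of `H`, each inside one cell, of maximal cardinality.  By
maximality every cell contains fewer than `k` heads not covered by `𝓑`.  For a cell with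
`s C ≥ k` the number of covered heads is a multiple of `k`, larger than `s C - k`, and not `0`;
so it is `≥ s C / 2` (if `s C < 2k` it is `≥ k > s C / 2`; otherwise it is `> s C - k ≥ s C / 2`).
So `#𝓑 * k ≥ m/8`.
*Case 2*: otherwise.  Let `Γ` be the set of cells with `s C < k`, `s C ≥ m N / (8 n)` and
`#{v ∈ bad | c v = C} ≤ N/4`.  The cells with `s C < m N / (8 n)` have total
`s`-mass at most `(2 n / N) (m N / (8 n)) = m/4`.  The cells with more than `N/4` bad vertices: fewer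
than `4 #(bad) / N ≤ 4 m / N + 2 q m` of them; those with `s C < k` have mass at most
`(k - 1) (4 m / N + 2 q m) ≤ (4 m / N + 2 q m)/(20 q) = m (1/(5 q N) + 1/10) ≤ 0.15 m`.  So
`∑ C ∈ Γ, s C ≥ m (1 - 1/4 - 1/4 - 0.15) = 0.35 m`.  For `C ∈ Γ`, `s C ≥ 128/8 = 16`; let
`s' = ⌊s C / 2⌋ ≥ 8`, `s' ≥ (15/32) s C`, choose disjoint `A C, B C ⊆ {h ∈ H | c h = C}` of size
`s'`.  `38 q s' ≤ 38 q (k - 1)/2 ≤ 38/40 ≤ 1`.  The vertices of the cell not in `bad ∪ H` are at
least `N/2 - N/4 - (k - 1) ≥ N/4 - 1/(20 q) ≥ N/4 - N/80`; and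
`w = ⌊1/(10 s' q²)⌋ ≤ 1/(10 s' q²) ≤ 0.2134 N` because
`s' q² N ≥ (15/32) (m N/(8 n)) q² N = (15/256) m (q N)²/n ≥ (15/256) * 8 ≥ 0.468`.  So there is
`X C` of size `w` among them; `10 w s' q² ≤ 1 ≤ 10 (w + 1) s' q²` by the definition of the floor.
Finally `∑ C ∈ Γ, s' ≥ (15/32) * 0.35 m ≥ m/8`.  (For `C ∉ Γ` put `A C = B C = X C = ∅`.) -/
def Bookkeeping : Prop :=
  ∀ (V κ : Type) [Fintype V] [DecidableEq V] [DecidableEq κ] (c : V → κ) (N q : ℝ) (k : ℕ)
    (H bad : Finset V),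
    0 < q → q ≤ 1 / 1000 → 1 ≤ 20 * q * k → 20 * q * ((k : ℝ) - 1) ≤ 1 →
    (∀ v, N / 2 ≤ (#{u | c u = c v} : ℝ) ∧ (#{u | c u = c v} : ℝ) ≤ 2 * N) →
    128 * (Fintype.card V : ℝ) ≤ #H * N → 4 ≤ q * N →
    8 * (Fintype.card V : ℝ) ≤ #H * (q * N) ^ 2 → (#(bad) : ℝ) ≤ #H + q * N * #H / 2 →
    (∃ 𝓑 : Finset (Finset V), (∀ B ∈ 𝓑, B ⊆ H ∧ #B = k ∧ ∀ u ∈ B, ∀ v ∈ B, c u = c v) ∧
      (∀ B ∈ 𝓑, ∀ B' ∈ 𝓑, B ≠ B' → Disjoint B B') ∧ (#H : ℝ) / 8 ≤ #𝓑 * k) ∨
    (∃ (Γ : Finset κ) (A B X : κ → Finset V),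
      (∀ C ∈ Γ, A C ⊆ H ∧ B C ⊆ H ∧ Disjoint (X C) H ∧ Disjoint (X C) bad ∧
        (∀ v ∈ A C ∪ B C ∪ X C, c v = C) ∧ Disjoint (A C) (B C) ∧
        #(A C) = #(B C) ∧ 8 ≤ #(A C) ∧ 38 * q * #(A C) ≤ 1 ∧
        10 * (#(X C) : ℝ) * #(A C) * q ^ 2 ≤ 1 ∧
        1 ≤ 10 * ((#(X C) : ℝ) + 1) * #(A C) * q ^ 2) ∧
      (#H : ℝ) / 8 ≤ ∑ C ∈ Γ, (#(A C) : ℝ))

open Classical in
/-- **C5, colouring.**  Among triples of distinct labels one can choose a set `Act` of labels such
that an eighth of the triples has the first two labels in `Act` and the third outside.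

Proof.  Let `Λ'` be the finite set of all labels occurring.  For one triple the number of subsets
`Act ⊆ Λ'` with `α, β ∈ Act`, `γ ∉ Act` is `2 ^ #Λ' / 8` (or: with respect to the Bernoulli(1/2)
subset its probability is `Pb {α, β} ⊆ - Pb {α, β, γ} ⊆ = 1/4 - 1/8`, by `Pb_subset`).  Average. -/
def Colouring : Prop :=
  ∀ (Λ τ : Type) (I : Finset τ) (α β γ : τ → Λ),
    (∀ t ∈ I, α t ≠ β t ∧ α t ≠ γ t ∧ β t ≠ γ t) →
    ∃ Act : Set Λ, #I ≤ 8 * #(I.filter fun t => α t ∈ Act ∧ β t ∈ Act ∧ γ t ∉ Act)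

/-- **C6, applying rotations.**  Each `t ∈ I` is an operation: the link `(x t, y t)` of some list
`Q₁ ++ x :: y :: Q₂` is cut, the list with head `a t` is appended to `Q₁ ++ [x]`, the reverse of the
list with head `b t` is put before `y :: Q₂`.  The lists with heads `a t`, `b t` contain no `x t'`.

Proof.  Induction on `#I`, generalizing `L`.  Let `t ∈ I`.  The list `l ∈ L` containing the link
`(x t, y t)`, the list `a t :: P` and the list `b t :: P'` are three different members of `L`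
(`a t ≠ b t`, and `x t ∈ l` so `a t, b t ∉ l`); so `L` is a permutation of
`(Q₁ ++ x :: y :: Q₂) :: (a :: P) :: (b :: P') :: L₀`.  Let
`L₁ = (Q₁ ++ x :: a :: P) :: ((b :: P').reverse ++ y :: Q₂) :: L₀`.  By `ListFacts` (cut, reverse,
join) it is a cover with `L₁.length + 1 = L.length`,
`edgesL L₁ ⊆ edgesL L ∪ {s(a, x), s(y, b)}` and cost at most `cost + dist a x + dist y b`.  The
hypotheses hold for `L₁` and `I.erase t`: let `t' ≠ t`.  The list with head `a t'` is a member of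
`L₀` (it is not `l` because `x t ∈ l` and `a t' ∉ l`; it is not one of the other two since the heads
are different); likewise for `b t'`.  The link `(x t', y t')` is in a member of `L₀`, or in `l`; in
the latter case `x t' ≠ x t`, so (as `l` has no repetition) the link lies inside `Q₁ ++ [x]` or
inside `y :: Q₂`, hence inside one of the two new lists; it is not in the lists `a t :: P`,
`b t :: P'` by the last hypothesis.  So `x t'` and the heads `a t''`, `b t''` are still in different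
lists: the latter are heads of members of `L₀` (unchanged), and `x t'` is in a new list or in a
member of `L₀` not containing them. -/
def ApplyRot : Prop :=
  ∀ (V M τ : Type) [Fintype V] [DecidableEq V] [DecidableEq τ] [PseudoMetricSpace M] (X : V → M)
    (L : List (List V)) (I : Finset τ) (a x y b : τ → V), IsCover L →
    (∀ t ∈ I, (∃ P, (a t :: P) ∈ L) ∧ (∃ P, (b t :: P) ∈ L) ∧
      ∃ Q₁ Q₂, (Q₁ ++ x t :: y t :: Q₂) ∈ L) →
    (∀ t ∈ I, ∀ t' ∈ I, t ≠ t' → a t ≠ a t' ∧ b t ≠ b t' ∧ x t ≠ x t') →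
    (∀ t ∈ I, ∀ t' ∈ I, a t ≠ b t') →
    (∀ t ∈ I, ∀ t' ∈ I, ∀ l ∈ L, x t ∈ l → a t' ∉ l ∧ b t' ∉ l) →
    ∃ L', IsCover L' ∧ L'.length + #I = L.length ∧
      edgesL L' ⊆ edgesL L ∪ I.image (fun t => s(a t, x t)) ∪ I.image (fun t => s(y t, b t)) ∧
      cost X (edgesL L') ≤ cost X (edgesL L) +
        ∑ t ∈ I, (dist (X (a t)) (X (x t)) + dist (X (y t)) (X (b t)))

/-- **C7, applying direct merges.**  `I` is a matching on the heads of the lists.

Proof.  Induction on `#I`, generalizing `L`.  For `s(a, b) ∈ I` the lists `a :: P` and `b :: P'` are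
different members of `L`; replace them by `(a :: P).reverse ++ (b :: P')`.  One list less, one more
edge `s(a, b)`; the heads of the other lists are unchanged, and no other member of `I` contains `a`
or `b`, so the hypotheses hold for `I.erase s(a, b)`. -/
def ApplyMerge : Prop :=
  ∀ (V M : Type) [Fintype V] [DecidableEq V] [PseudoMetricSpace M] (X : V → M)
    (L : List (List V)) (I : Finset (Sym2 V)), IsCover L →
    (∀ e ∈ I, ¬ e.IsDiag ∧ ∀ v ∈ e, ∃ P, (v :: P) ∈ L) →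
    (∀ e ∈ I, ∀ e' ∈ I, e ≠ e' → ∀ v ∈ e, v ∉ e') →
    ∃ L', IsCover L' ∧ L'.length + #I = L.length ∧ edgesL L' ⊆ edgesL L ∪ I ∧
      cost X (edgesL L') ≤ cost X (edgesL L) + cost X I

/-- **C8, the round lemma.**

Proof (from C2, C3, C4, C5, C6, C7, `ListFacts`).  Let `m = L.length`, `n = #V`.  If `m = 0` then
`n = 0` and `L' = L` always works.  Let `m > 0`.  `H` = the set of heads of the members of `L`
(`#H = m`, the heads of different lists are different).  For `v` not last in its list let `nx v` be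
the next vertex (`nx v = v` otherwise, say).  `nx v` is never a head when `v` is not last, and `nx`
is injective on the vertices which are not last.  `bad` = the set of `v` which are last in their
list or satisfy `dist (X v) (X (nx v)) > ρ`.  There are `m` last vertices, and the number of `v`
with a long link `s(v, nx v)`, times `ρ`, is at most `cost X (edgesL L) ≤ ρ q N m / 2`; so
`#(bad) ≤ m + q N m / 2`.  Let `k = ⌈1/(20 q)⌉`; then `1 ≤ 20 q k`, `20 q (k - 1) ≤ 1`.  Apply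
`Bookkeeping`.
*First alternative*: take `I S` from `DirectPairs`; the pairs of `I S` are pairs of heads in one
cell, of length at most `ρ`.  By `ApplyMerge` there is `L'` with `m - #(I S)` lists, edges in
`edgesL L ∪ S` and cost at most `cost + ρ m`.  `Ex #(I S) ≥ (m/8)/50 = m/400`.
*Second alternative*: take `I S` from `RotTriples`, with `lab v` = the member of `L` containing `v`
(or its head).  All hypotheses of `RotTriples` hold (sets of different cells are disjoint; two heads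
with the same label are equal; `X C` is disjoint from `H` hence from `A C ∪ B C`; `nx x` is not a
head).  By `Colouring` with `α = lab a`, `β = lab b`, `γ = lab x` there is a subfamily `I'` with
`#(I S) ≤ 8 #I'` and a set `Act` of labels; apply `ApplyRot` to `I'`, `y t = nx (x t)`: the heads
`a t', b t'` lie in lists with label in `Act`, the `x t` in lists with label outside.  Cost: for a
triple in the cell `C`, `dist a x ≤ ρ`, `dist (nx x) b ≤ dist (nx x) x + dist x b ≤ 2 ρ`, in total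
`≤ 3 ρ #I' ≤ 3 ρ m`.  `Ex #I' ≥ Ex #(I S) / 8 ≥ (m/8)/20/8 = m/1280`.
In both cases there is a function `f S` (`= #(I S)`, `#I'`) with `0 ≤ f ≤ m`, `Ex f ≥ m/1280` and
a cover with `m - f S` lists.  As `f ≤ m/3000 + m [f ≥ m/3000]`,
`Pb (f ≥ m/3000) ≥ 1/1280 - 1/3000 ≥ 1/3000`. -/
def RoundLemma : Prop :=
  ∀ (V M κ : Type) [Fintype V] [DecidableEq V] [DecidableEq κ] [PseudoMetricSpace M] (X : V → M)
    (c : V → κ) (N ρ q : ℝ) (L : List (List V)), IsCover L →
    0 < q → q ≤ 1 / 1000 → 0 < ρ →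
    (∀ v, N / 2 ≤ (#{u | c u = c v} : ℝ) ∧ (#{u | c u = c v} : ℝ) ≤ 2 * N) →
    (∀ u v, c u = c v → dist (X u) (X v) ≤ ρ) →
    128 * (Fintype.card V : ℝ) ≤ L.length * N → 4 ≤ q * N →
    8 * (Fintype.card V : ℝ) ≤ L.length * (q * N) ^ 2 →
    2 * cost X (edgesL L) ≤ ρ * q * N * L.length →
    1 / 3000 ≤ Pb q (fun S => ∃ L', IsCover L' ∧ (L'.length : ℝ) ≤ (1 - 1 / 3000) * L.length ∧
      edgesL L' ⊆ edgesL L ∪ S ∧ cost X (edgesL L') ≤ cost X (edgesL L) + 4 * ρ * L.length)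

end MP329
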