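import Pool.Agent.Lib.MP_329b4d_pr.SpecE
import Pool.Agent.Lib.MP_329b4d_pr.SpecI

/-!
# MP_329b4d_pr: statements K (assembly)
-/

namespace MP329

open Finset MeasureTheory Filter

section Defs

/-- Admissible sequences of edge probabilities. -/
structure GoodSeq (p : ℕ → ℝ) : Prop where
  pos : ∀ n, 0 < p n ∧ p n ≤ 1
  zero : Tendsto p atTop (nhds 0)
  infty : Tendsto (fun n : ℕ => (n : ℝ) * p n) atTop atTop

/-- `A` is the limit of the mean value of the linear program, for all admissible sequences. -/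
def IsLim (d q : ℕ) (K A : ℝ) : Prop :=
  ∀ p : ℕ → ℝ, GoodSeq p →
    Tendsto (fun n : ℕ => meanW (geoLaw n d q (p n) (K * unit d n (p n)))) atTop (nhds A)

end Defs

/-- **K0, measurability and monotonicity of the tour length.**

Proof.  `tourLength` is a finite infimum of functions which are, for a fixed permutation, `⊤`
outside the measurable set of `ω.2` with all coins of the tour `true`, and a continuous function of
the positions on it.  Monotone: more present pairs, more tours. -/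
structure TourMeas : Prop where
  measurable : ∀ n d : ℕ, Measurable (tourLength : Sample n d → ENNReal)
  mono : ∀ (n d : ℕ) (X : Fin n → Pt d) (c c' : Sym2 (Fin n) → Bool),
    (∀ e, c e = true → c' e = true) → tourLength (X, c') ≤ tourLength (X, c)

/-- **K1, the limit of the mean LP value.**

Proof (from `Compare`, `LocalLimit`, `Moments`, `LPBasic`, `GeoLawFacts`).  Let `p`, `p'` be two
admissible sequences, `ε > 0`; take `R, Δ, η` from `Compare` with `lam = vK d K`.  For the finitely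
many `r < R` and types `τ` after `r + 1` rounds, `LocalLimit` gives a common limit of the
frequencies for `p` and `p'`; so for `n, n'` large all frequencies differ by at most `η`, and
`|meanW_n(p) - meanW_{n'}(p')| ≤ ε`.  With `p = p'`: Cauchy, so convergent; then the limits for `p`
and `p'` agree.  (An admissible sequence exists: `p n = 1/√(n+1)`.)  Bounds: `0 ≤ W g ≤ #V`, and
`W g ≤ (1/2) ∑ i, mdeg g i`, so `meanW ≤ meanDeg/2 ≤ vK/2` by `Moments.deg`. -/
def LimitExists : Prop :=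
  ∀ (d q : ℕ) (K : ℝ), 1 ≤ d → 1 ≤ q → 0 < K →
    ∃ A : ℝ, IsLim d q K A ∧ 0 ≤ A ∧ A ≤ 1 ∧ 2 * A ≤ vK d K

/-- **K3, lower tail.**

Proof (from `TourLower`, `TourList`, `Concentration`).  Let `p n = n^(-α)` (for `n ≥ 1`; admissible
after changing `p 0` to `1`), `s = unit d n p`, `R = K s`.  If `K (1 - A) - η ≤ 0` the set is empty.
If `tourLength ω < ⊤` then by `TourList` it is attained by a tour `T` with `tourEdges T ⊆ present ω`,
so `tourLength ω ≥ K s (n - W)` by `TourLower`.  By `Concentration` with `η/(2K)` and `IsLim`, with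
probability tending to `1`, `W ≤ n (A + η/K)`; then `tourLength ω ≥ (K (1 - A) - η) n s`. -/
def LowerTail : Prop :=
  ∀ (d q : ℕ) (K A α η : ℝ), 1 ≤ d → 1 ≤ q → 0 < K → IsLim d q K A → 0 < α → α < 1 → 0 < η →
    Tendsto (fun n : ℕ => ((law n d ((n : ℝ) ^ (-α))) {ω | tourLength ω <
      ENNReal.ofReal ((K * (1 - A) - η) * n * unit d n ((n : ℝ) ^ (-α)))}).toReal)
      atTop (nhds 0)

/-- **K5, the constants are bounded.**

Proof (from `PatchTheorem`, `RegularLikely`, `LowerTail`, `TourList`, `GeoLawFacts`, `CoinEx`).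
`PatchTheorem` with `B = 0`, `ε = 1`, `θ = 1/2`, `δ = 1` and the cover by singletons (`n` lists, no
edges, cost `0`): for `n ≥ n₀` and regular `X`,
`Pb p (∃ tour T, tourEdges T ⊆ S, cost ≤ K₂ n s) ≥ 1/2`.  Hence
`law {tourLength ≤ K₂ n s} ≥ (1/2) P(X regular)`, which is at least `1/4` for large `n`
(`RegularLikely`; `(n : ℝ) * n^(-α) = n^(1-α)`).  If `K (1 - A) > K₂`, `LowerTail` with
`η = (K (1 - A) - K₂)/2` gives that `law {tourLength < (K₂ + η) n s} → 0`, a contradiction.  So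
`C = K₂` works. -/
def FiniteBound : Prop :=
  ∀ (d : ℕ) (α : ℝ), 1 ≤ d → 0 < α → α < 1 →
    ∃ C : ℝ, ∀ (q : ℕ) (K A : ℝ), 1 ≤ q → 0 < K → IsLim d q K A → K * (1 - A) ≤ C

/-- **K4, upper tail.**

Proof (from `PatchTheorem`, `CheapCover`, `Concentration`, `Moments`, `RegularLikely`, `Sprinkle`,
`TourList`, `TourMeas`, `LimitExists`, `GeoLawFacts`, `CoinEx`).  Let `η ≤ 1` without loss, `θ > 0`.
Choose `ε ∈ (0, 1/2]` with `(1 - ε)^(-1/d) (β + η/8) ≤ β + η/2`.  Let `p = n^(-α)`,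
`p' = (1 - ε) p` (admissible after changing the value at `0`), `s' = unit d n p' =
(1 - ε)^(-1/d) s ≤ 2 s`.  Take `B = 2 (β + 1)`, `K₂` from `PatchTheorem` (for `d, α, ε, B, θ`),
`δ ∈ (0, 1]` with `K₂ √δ ≤ η/4`, then `K ≥ (β + 1)/δ`, `K > 0`, then `q, g₀` with
`K/q ≤ η/32`, `2 K/g₀ ≤ η/32`; `A` the limit (`LimitExists`), `K (1 - A) ≤ β`.  Call `(X, S₁)` good
if `W (geo q (K s') X S₁) ≥ (A - η/(32 K)) n` and
`nsc (gEdges (geo q (K s') X S₁)) g₀ ≤ (η/(64 K)) n`.  For `S₁` of density `p'`, the probability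
of good tends to `1` (`Concentration`, `IsLim`; and Markov with `Moments.cyc`, since `p' → 0`).
For good `(X, S₁)`, `CheapCover` gives a cover `L`, `edgesL L ⊆ S₁`, with
`cost + K s' L.length ≤ K s' (n - W + n/q + 2 (n/g₀ + nsc)) ≤ s' n (β + 4 η/32)`; so
`cost ≤ s' n (β + η/8) ≤ B n s` and `L.length ≤ n (β + 1)/K ≤ δ n`.  If moreover `X` is regular
and `n ≥ n₀`, with probability at least `1 - θ` over `S₂` of density `ε p` there is a tour `T` with
`tourEdges T ⊆ S₁ ∪ S₂` and cost at most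
`s' n (β + η/8) + K₂ √δ n s ≤ (β + η/2 + η/4) n s ≤ (β + η) n s`.
By `Sprinkle` (`(1 - ε) p + ε p = p`; the event `tourLength ≤ (β + η) n s` is monotone in the set of
pairs), for regular `X`:
`Pb p (tourLength (X, S) ≤ (β + η) n s) ≥ (1 - θ) Pb p' (good (X, S₁))`.  Integrating over `X`,
`law {tourLength ≤ (β + η) n s} ≥ (1 - θ) (law p' {good} - P(X not regular)) → 1 - θ`.  As `θ` is
arbitrary the claim follows. -/
def UpperTail : Prop :=
  ∀ (d : ℕ) (α β η : ℝ), 1 ≤ d → 0 < α → α < 1 → 0 ≤ β → 0 < η →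
    (∀ (q : ℕ) (K A : ℝ), 1 ≤ q → 0 < K → IsLim d q K A → K * (1 - A) ≤ β) →
    Tendsto (fun n : ℕ => ((law n d ((n : ℝ) ^ (-α))) {ω |
      ENNReal.ofReal ((β + η) * n * unit d n ((n : ℝ) ^ (-α))) < tourLength ω}).toReal)
      atTop (nhds 0)

/-- **K6, the theorem.**

Proof (from `LimitExists`, `LowerTail`, `FiniteBound`, `UpperTail`, `TourMeas`, `GeoLawFacts`).  Let
`β = sup {K (1 - A) | q ≥ 1, K > 0, IsLim d q K A}`, finite by `FiniteBound`.  As
`vK d K = K^d vK d 1 → 0` for `K → 0` and `2 A ≤ vK d K`, some `K (1 - A)` is positive: `β > 0`.  Note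
`n * unit d n p = n^((d-1)/d) / p^(1/d)` for `n ≥ 1`, `p > 0`.  Given `ε > 0` let `η = ε β`; choose
`K, q, A` with `K (1 - A) > β - η/2`; by `LowerTail` with `η/2`,
`law {tourLength < (β - η) n s} → 0`, and by `UpperTail` `law {tourLength > (β + η) n s} → 0`.
Outside these two (measurable) sets `tourLength ≠ ⊤` and `|tourLength/(β n s) - 1| ≤ ε`. -/
def Main : Prop :=
  ∀ (d : ℕ) (α : ℝ), 1 ≤ d → 0 < α → α < 1 →
    ∃ β : ℝ, 0 < β ∧ ∀ ε : ℝ, 0 < ε →
      Tendsto (fun n : ℕ => (law n d ((n : ℝ) ^ (-α))) {ω | tourLength ω ≠ ⊤ ∧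
        |(tourLength ω).toReal / (β * ((n : ℝ) ^ (((d : ℝ) - 1) / d) /
          ((n : ℝ) ^ (-α)) ^ (1 / (d : ℝ)))) - 1| ≤ ε}) atTop (nhds 1)

end MP329
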